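import Pool.Agent.Lib.MP_5b6025_nt.EP.Spec

/-!
# Digit changes, every power of `log N`: module AMB (ambiguity of one step)
-/

set_option autoImplicit false

namespace Pool.Agent.Lib.MP5b6025.EP

namespace AMBM

open Finset

/-- `u log (1 + v / u)` is increasing in `u` and in `v`. -/
lemma mono_ulog {u u' v v' : ℝ} (hu : 0 ≤ u) (huu : u ≤ u') (hv : 0 ≤ v) (hvv : v ≤ v') :
    u * Real.log (1 + v / u) ≤ u' * Real.log (1 + v' / u') := by
  rcases hu.eq_or_lt with h0 | h0
  · subst h0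
    have h1 : 0 ≤ v' / u' := div_nonneg (hv.trans hvv) huu
    have h2 : 0 ≤ u' * Real.log (1 + v' / u') :=
      mul_nonneg huu (Real.log_nonneg (by linarith))
    simpa using h2
  · have h1 : 0 < u' := h0.trans_le huu
    have hv' : 0 ≤ v' := hv.trans hvv
    have h2 : u * Real.log (1 + v / u) ≤ u * Real.log (1 + v' / u) := by
      apply mul_le_mul_of_nonneg_left _ h0.le
      apply Real.log_le_log
      · have : 0 ≤ v / u := div_nonneg hv h0.le
        linarith
      · have : v / u ≤ v' / u := div_le_div_of_nonneg_right hvv h0.le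
        linarith
    have h3 : 0 ≤ v' / u := div_nonneg hv' h0.le
    have h4 : (1 + v' / u) ^ (u / u') ≤ 1 + (u / u') * (v' / u) :=
      rpow_one_add_le_one_add_mul_self (by linarith) (by positivity)
        (by rw [div_le_one h1]; exact huu)
    have h5 : (u / u') * (v' / u) = v' / u' := by field_simp
    rw [h5] at h4
    have h6 : Real.log ((1 + v' / u) ^ (u / u')) ≤ Real.log (1 + v' / u') :=
      Real.log_le_log (Real.rpow_pos_of_pos (by linarith) _) h4
    rw [Real.log_rpow (by linarith)] at h6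
    have h7 : u * Real.log (1 + v' / u) ≤ u' * Real.log (1 + v' / u') := by
      have h8 := mul_le_mul_of_nonneg_left h6 h1.le
      have h9 : u' * (u / u' * Real.log (1 + v' / u)) = u * Real.log (1 + v' / u) := by
        field_simp
      rwa [h9] at h8
    exact h2.trans h7

lemma log_one_add_sum {ι : Type} (s : Finset ι) (x : ι → ℝ) (hx : ∀ i ∈ s, 0 ≤ x i) :
    Real.log (1 + ∑ i ∈ s, x i) ≤ ∑ i ∈ s, Real.log (1 + x i) := by
  classical
  induction s using Finset.induction_on with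
  | empty => simp
  | insert a s ha ih =>
    rw [sum_insert ha, sum_insert ha]
    have h1 : 0 ≤ ∑ i ∈ s, x i := sum_nonneg fun i hi => hx i (mem_insert_of_mem hi)
    have h2 : 0 ≤ x a := hx a (mem_insert_self _ _)
    have h3 := ih fun i hi => hx i (mem_insert_of_mem hi)
    have h4 : Real.log (1 + (x a + ∑ i ∈ s, x i)) ≤
        Real.log ((1 + x a) * (1 + ∑ i ∈ s, x i)) := by
      apply Real.log_le_log
      · linarith
      · nlinarith [mul_nonneg h2 h1]
    rw [Real.log_mul (by linarith) (by linarith)] at h4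
    linarith

/-- double counting -/
lemma dc {α β : Type} [DecidableEq β] (X Y : Finset α) (b : α → β) :
    ∑ ρ ∈ X, ((Y.filter fun x => b x = b ρ).card : ℝ) / ((X.filter fun x => b x = b ρ).card : ℝ) ≤
      Y.card := by
  have h1 : ∀ ρ ∈ X, ((Y.filter fun x => b x = b ρ).card : ℝ) /
      ((X.filter fun x => b x = b ρ).card : ℝ) =
      ∑ y ∈ Y, if b y = b ρ then 1 / ((X.filter fun x => b x = b ρ).card : ℝ) else 0 := by
    intro ρ _
    rw [← sum_filter, sum_const, nsmul_eq_mul, mul_one_div]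
  rw [sum_congr rfl h1, sum_comm]
  have h2 : (Y.card : ℝ) = ∑ y ∈ Y, (1 : ℝ) := by simp
  rw [h2]
  apply sum_le_sum
  intro y _
  have h3 : ∑ ρ ∈ X, (if b y = b ρ then 1 / ((X.filter fun x => b x = b ρ).card : ℝ) else 0) =
      ∑ ρ ∈ X.filter (fun x => b x = b y), 1 / ((X.filter fun x => b x = b y).card : ℝ) := by
    rw [sum_filter]
    apply sum_congr rfl
    intro ρ _
    by_cases h : b y = b ρ
    · rw [if_pos h, if_pos h.symm, h]
    · rw [if_neg h, if_neg (fun h' => h h'.symm)]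
  rw [h3, sum_const, nsmul_eq_mul, mul_one_div]
  exact div_self_le_one _

/-- the clean tuples of type `i` -/
lemma coreI {α β δ : Type} [DecidableEq β] [DecidableEq δ] {m : ℕ} (Ω C : Finset α)
    (Ci : Fin m → Finset α) (b : α → β) (g : α → δ) (hC : C ⊆ Ω) (hCi : ∀ i, Ci i ⊆ C) (i : Fin m)
    (h1 : ∀ ρ ∈ Ci i, ∀ ρ' ∈ Ci i, b ρ' = b ρ → g ρ' = g ρ)
    (h2 : ∀ ρ ∈ Ci i, ∀ ρ' ∈ C, b ρ' = b ρ → ∃ j, ρ' ∈ Ci j) :
    ∑ ρ ∈ Ci i, (Real.log ((C.filter fun x => b x = b ρ).card : ℝ) -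
      Real.log ((Ω.filter fun x => g x = g ρ).card : ℝ)) ≤
      ∑ j ∈ univ.erase i, ((Ci i).card : ℝ) * Real.log (1 + ((Ci j).card : ℝ) / ((Ci i).card : ℝ)) := by
  classical
  rcases Nat.eq_zero_or_pos (Ci i).card with h0 | h0
  · rw [card_eq_zero] at h0
    rw [h0]
    simp
  have hQ : (0 : ℝ) < (Ci i).card := by exact_mod_cast h0
  set Q : Fin m → ℝ := fun j => ((Ci j).card : ℝ) with hQdef
  set q : Fin m → α → ℝ := fun j ρ => (((Ci j).filter fun x => b x = b ρ).card : ℝ) with hqdef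
  have hqi : ∀ ρ ∈ Ci i, (1 : ℝ) ≤ q i ρ := by
    intro ρ hρ
    have : 0 < ((Ci i).filter fun x => b x = b ρ).card :=
      card_pos.2 ⟨ρ, mem_filter.2 ⟨hρ, rfl⟩⟩
    show (1 : ℝ) ≤ (((Ci i).filter fun x => b x = b ρ).card : ℝ)
    exact_mod_cast this
  have hq0 : ∀ j ρ, (0 : ℝ) ≤ q j ρ := fun j ρ => Nat.cast_nonneg _
  have hQ0 : ∀ j, (0 : ℝ) ≤ Q j := fun j => Nat.cast_nonneg _
  set R : ℝ := (∑ j, Q j) / Q i with hR
  have hsumQ : Q i ≤ ∑ j, Q j := single_le_sum (f := Q) (fun j _ => hQ0 j) (mem_univ i)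
  have hRpos : 0 < R := div_pos (hQ.trans_le hsumQ) hQ
  have hterm : ∀ ρ ∈ Ci i, Real.log ((C.filter fun x => b x = b ρ).card : ℝ) -
      Real.log ((Ω.filter fun x => g x = g ρ).card : ℝ) ≤
      Real.log R + ((∑ j, q j ρ / q i ρ) / R - 1) := by
    intro ρ hρ
    have hρC : ρ ∈ C := hCi i hρ
    have e1 : ((C.filter fun x => b x = b ρ).card : ℝ) ≤ ∑ j, q j ρ := by
      have hsub : (C.filter fun x => b x = b ρ) ⊆
          univ.biUnion fun j => (Ci j).filter fun x => b x = b ρ := by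
        intro x hx
        rw [mem_filter] at hx
        obtain ⟨j, hj⟩ := h2 ρ hρ x hx.1 hx.2
        rw [mem_biUnion]
        exact ⟨j, mem_univ _, mem_filter.2 ⟨hj, hx.2⟩⟩
      have h3 := (card_le_card hsub).trans card_biUnion_le
      have h4 : ((C.filter fun x => b x = b ρ).card : ℝ) ≤
          ((∑ j, ((Ci j).filter fun x => b x = b ρ).card : ℕ) : ℝ) := by exact_mod_cast h3
      rw [Nat.cast_sum] at h4
      exact h4
    have e2 : q i ρ ≤ ((Ω.filter fun x => g x = g ρ).card : ℝ) := by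
      have hsub : ((Ci i).filter fun x => b x = b ρ) ⊆ Ω.filter fun x => g x = g ρ := by
        intro x hx
        rw [mem_filter] at hx
        exact mem_filter.2 ⟨hC (hCi i hx.1), h1 ρ hρ x hx.1 hx.2⟩
      have h3 := card_le_card hsub
      show (((Ci i).filter fun x => b x = b ρ).card : ℝ) ≤ _
      exact_mod_cast h3
    have e3 : (0 : ℝ) < ((C.filter fun x => b x = b ρ).card : ℝ) := by
      have : 0 < (C.filter fun x => b x = b ρ).card := card_pos.2 ⟨ρ, mem_filter.2 ⟨hρC, rfl⟩⟩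
      exact_mod_cast this
    have e4 := hqi ρ hρ
    have e5 : Real.log ((C.filter fun x => b x = b ρ).card : ℝ) ≤ Real.log (∑ j, q j ρ) :=
      Real.log_le_log e3 e1
    have e6 : Real.log (q i ρ) ≤ Real.log ((Ω.filter fun x => g x = g ρ).card : ℝ) :=
      Real.log_le_log (by linarith) e2
    have e7 : 0 < ∑ j, q j ρ := e3.trans_le e1
    have e8 : Real.log (∑ j, q j ρ) - Real.log (q i ρ) - Real.log R ≤
        (∑ j, q j ρ / q i ρ) / R - 1 := by
      rw [← sum_div, ← Real.log_div e7.ne' (by linarith),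
        ← Real.log_div (div_pos e7 (by linarith)).ne' hRpos.ne']
      apply Real.log_le_sub_one_of_pos
      exact div_pos (div_pos e7 (by linarith)) hRpos
    linarith
  have hsum1 : ∑ ρ ∈ Ci i, ∑ j, q j ρ / q i ρ ≤ ∑ j, Q j := by
    rw [sum_comm]
    apply sum_le_sum
    intro j _
    exact dc (Ci i) (Ci j) b
  have hmain : ∑ ρ ∈ Ci i, (Real.log ((C.filter fun x => b x = b ρ).card : ℝ) -
      Real.log ((Ω.filter fun x => g x = g ρ).card : ℝ)) ≤ Q i * Real.log R := by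
    refine (sum_le_sum hterm).trans ?_
    rw [sum_add_distrib, sum_const, nsmul_eq_mul, sum_sub_distrib, sum_const, nsmul_eq_mul,
      mul_one, ← sum_div]
    have h3 : (∑ ρ ∈ Ci i, ∑ j, q j ρ / q i ρ) / R ≤ Q i := by
      rw [div_le_iff₀ hRpos, hR, mul_div_cancel₀ _ hQ.ne']
      exact hsum1
    have h4 : ((Ci i).card : ℝ) = Q i := rfl
    rw [h4]
    linarith
  refine hmain.trans ?_
  rw [← mul_sum]
  apply mul_le_mul_of_nonneg_left _ hQ.le
  have h5 : R = 1 + ∑ j ∈ univ.erase i, Q j / Q i := by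
    rw [hR, sum_div, ← add_sum_erase univ (fun j => Q j / Q i) (mem_univ i)]
    rw [div_self hQ.ne']
  rw [h5]
  exact log_one_add_sum _ _ fun j _ => div_nonneg (hQ0 j) hQ.le

open Classical in
/-- the inequality for one class of tuples with the same parents -/
lemma core {α β δ : Type} [DecidableEq β] [DecidableEq δ] {m : ℕ} (Ω : Finset α) (b : α → β)
    (g : α → δ) (dirty : α → Prop) (ty : α → Option (Fin m)) (N : ℝ) (hN : (Ω.card : ℝ) ≤ N)
    (h1 : ∀ ρ ∈ Ω, ∀ ρ' ∈ Ω, ¬ dirty ρ → ¬ dirty ρ' → b ρ' = b ρ → ty ρ' = ty ρ → g ρ' = g ρ)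
    (h2 : ∀ ρ ∈ Ω, ∀ ρ' ∈ Ω, ¬ dirty ρ → ¬ dirty ρ' → b ρ' = b ρ → ty ρ' = none → ty ρ = none) :
    ∑ ρ ∈ Ω, (Real.log ((Ω.filter fun x => b x = b ρ).card : ℝ) -
      Real.log ((Ω.filter fun x => g x = g ρ).card : ℝ)) ≤
      (∑ i : Fin m, ∑ j ∈ univ.erase i,
        ((Ω.filter fun x => ¬ dirty x ∧ ty x = some i).card : ℝ) *
        Real.log (1 + ((Ω.filter fun x => ¬ dirty x ∧ ty x = some j).card : ℝ) /
          ((Ω.filter fun x => ¬ dirty x ∧ ty x = some i).card : ℝ))) +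
      (1 + Real.log N) * ((Ω.filter dirty).card : ℝ) := by
  set C : Finset α := Ω.filter fun x => ¬ dirty x with hCdef
  set D : Finset α := Ω.filter dirty with hDdef
  set Ci : Fin m → Finset α := fun i => Ω.filter fun x => ¬ dirty x ∧ ty x = some i with hCidef
  have hcard1 : ∀ ρ ∈ Ω, (1 : ℝ) ≤ ((Ω.filter fun x => g x = g ρ).card : ℝ) := by
    intro ρ hρ
    have : 0 < (Ω.filter fun x => g x = g ρ).card := card_pos.2 ⟨ρ, mem_filter.2 ⟨hρ, rfl⟩⟩
    exact_mod_cast this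
  have hcardb : ∀ ρ ∈ Ω, (0 : ℝ) < ((Ω.filter fun x => b x = b ρ).card : ℝ) := by
    intro ρ hρ
    have : 0 < (Ω.filter fun x => b x = b ρ).card := card_pos.2 ⟨ρ, mem_filter.2 ⟨hρ, rfl⟩⟩
    exact_mod_cast this
  rw [← sum_filter_add_sum_filter_not Ω dirty]
  have hD : ∑ ρ ∈ D, (Real.log ((Ω.filter fun x => b x = b ρ).card : ℝ) -
      Real.log ((Ω.filter fun x => g x = g ρ).card : ℝ)) ≤ Real.log N * (D.card : ℝ) := by
    have h3 : ∀ ρ ∈ D, Real.log ((Ω.filter fun x => b x = b ρ).card : ℝ) -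
        Real.log ((Ω.filter fun x => g x = g ρ).card : ℝ) ≤ Real.log N := by
      intro ρ hρ
      have hρ' : ρ ∈ Ω := (mem_filter.1 hρ).1
      have h4 := Real.log_nonneg (hcard1 ρ hρ')
      have h5 : Real.log ((Ω.filter fun x => b x = b ρ).card : ℝ) ≤ Real.log N := by
        apply Real.log_le_log (hcardb ρ hρ')
        refine le_trans ?_ hN
        exact_mod_cast card_le_card (filter_subset _ _)
      linarith
    have h6 := sum_le_sum h3
    rw [sum_const, nsmul_eq_mul] at h6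
    rw [mul_comm]
    exact h6
  have hCpart : ∑ ρ ∈ C, (Real.log ((Ω.filter fun x => b x = b ρ).card : ℝ) -
      Real.log ((Ω.filter fun x => g x = g ρ).card : ℝ)) ≤
      (D.card : ℝ) + ∑ ρ ∈ C, (Real.log ((C.filter fun x => b x = b ρ).card : ℝ) -
        Real.log ((Ω.filter fun x => g x = g ρ).card : ℝ)) := by
    have h3 : ∀ ρ ∈ C, Real.log ((Ω.filter fun x => b x = b ρ).card : ℝ) -
        Real.log ((Ω.filter fun x => g x = g ρ).card : ℝ) ≤
        ((D.filter fun x => b x = b ρ).card : ℝ) / ((C.filter fun x => b x = b ρ).card : ℝ) +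
        (Real.log ((C.filter fun x => b x = b ρ).card : ℝ) -
        Real.log ((Ω.filter fun x => g x = g ρ).card : ℝ)) := by
      intro ρ hρ
      have hpos : (0 : ℝ) < ((C.filter fun x => b x = b ρ).card : ℝ) := by
        have : 0 < (C.filter fun x => b x = b ρ).card := card_pos.2 ⟨ρ, mem_filter.2 ⟨hρ, rfl⟩⟩
        exact_mod_cast this
      have h4 : ((Ω.filter fun x => b x = b ρ).card : ℝ) =
          ((C.filter fun x => b x = b ρ).card : ℝ) * (1 +
          ((D.filter fun x => b x = b ρ).card : ℝ) / ((C.filter fun x => b x = b ρ).card : ℝ)) := by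
        rw [mul_add, mul_one, mul_div_cancel₀ _ hpos.ne']
        have h5 : (Ω.filter fun x => b x = b ρ).card =
            (C.filter fun x => b x = b ρ).card + (D.filter fun x => b x = b ρ).card := by
          rw [hCdef, hDdef, filter_filter, filter_filter, ← card_union_of_disjoint]
          · congr 1
            ext x
            simp only [mem_filter, mem_union]
            tauto
          · rw [disjoint_left]
            intro x hx hx'
            rw [mem_filter] at hx hx'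
            exact hx.2.1 hx'.2.1
        rw [h5]
        push_cast
        ring
      have h6 : 0 ≤ ((D.filter fun x => b x = b ρ).card : ℝ) /
          ((C.filter fun x => b x = b ρ).card : ℝ) := by positivity
      rw [h4, Real.log_mul hpos.ne' (by linarith)]
      have h7 := Real.log_le_sub_one_of_pos (show 0 < 1 +
          ((D.filter fun x => b x = b ρ).card : ℝ) / ((C.filter fun x => b x = b ρ).card : ℝ) by
          linarith)
      linarith
    have h8 := sum_le_sum h3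
    rw [sum_add_distrib] at h8
    have h9 := dc C D b
    linarith
  have hCC : ∑ ρ ∈ C, (Real.log ((C.filter fun x => b x = b ρ).card : ℝ) -
        Real.log ((Ω.filter fun x => g x = g ρ).card : ℝ)) ≤
      ∑ i : Fin m, ∑ j ∈ univ.erase i, ((Ci i).card : ℝ) *
        Real.log (1 + ((Ci j).card : ℝ) / ((Ci i).card : ℝ)) := by
    rw [← sum_fiberwise C ty, Fintype.sum_option]
    have hnone : ∑ ρ ∈ C.filter (fun x => ty x = none),
        (Real.log ((C.filter fun x => b x = b ρ).card : ℝ) -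
        Real.log ((Ω.filter fun x => g x = g ρ).card : ℝ)) ≤ 0 := by
      apply sum_nonpos
      intro ρ hρ
      rw [mem_filter] at hρ
      have hρC := mem_filter.1 hρ.1
      rw [sub_nonpos]
      apply Real.log_le_log
      · have : 0 < (C.filter fun x => b x = b ρ).card :=
          card_pos.2 ⟨ρ, mem_filter.2 ⟨hρ.1, rfl⟩⟩
        exact_mod_cast this
      · have hsub : (C.filter fun x => b x = b ρ) ⊆ Ω.filter fun x => g x = g ρ := by
          intro x hx
          rw [mem_filter] at hx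
          have hxC := mem_filter.1 hx.1
          have hxn : ty x = none := h2 x hxC.1 ρ hρC.1 hxC.2 hρC.2 hx.2.symm hρ.2
          exact mem_filter.2 ⟨hxC.1, h1 ρ hρC.1 x hxC.1 hρC.2 hxC.2 hx.2 (hxn.trans hρ.2.symm)⟩
        exact_mod_cast card_le_card hsub
    have hsome : ∀ i : Fin m, ∑ ρ ∈ C.filter (fun x => ty x = some i),
        (Real.log ((C.filter fun x => b x = b ρ).card : ℝ) -
        Real.log ((Ω.filter fun x => g x = g ρ).card : ℝ)) ≤
        ∑ j ∈ univ.erase i, ((Ci i).card : ℝ) *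
        Real.log (1 + ((Ci j).card : ℝ) / ((Ci i).card : ℝ)) := by
      intro i
      have e : C.filter (fun x => ty x = some i) = Ci i := by
        rw [hCdef, filter_filter]
      rw [e]
      apply coreI Ω C Ci b g (filter_subset _ _)
      · intro j x hx
        rw [hCidef] at hx
        simp only [mem_filter] at hx
        exact mem_filter.2 ⟨hx.1, hx.2.1⟩
      · intro ρ hρ ρ' hρ' hb
        simp only [hCidef, mem_filter] at hρ hρ'
        exact h1 ρ hρ.1 ρ' hρ'.1 hρ.2.1 hρ'.2.1 hb (hρ'.2.2.trans hρ.2.2.symm)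
      · intro ρ hρ ρ' hρ' hb
        simp only [hCidef, mem_filter] at hρ
        rw [hCdef, mem_filter] at hρ'
        rcases hty : ty ρ' with _ | j
        · exfalso
          have := h2 ρ hρ.1 ρ' hρ'.1 hρ.2.1 hρ'.2 hb hty
          rw [hρ.2.2] at this
          exact Option.some_ne_none _ this
        · refine ⟨j, ?_⟩
          simp only [hCidef, mem_filter]
          exact ⟨hρ'.1, hρ'.2, hty⟩
    have hs := sum_le_sum fun (i : Fin m) (_ : i ∈ univ) => hsome i
    linarith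
  have hfin : (1 + Real.log N) * (D.card : ℝ) = D.card + Real.log N * D.card := by ring
  rw [hfin]
  linarith

/-- two large classes inside one class coincide -/
lemma majority {T : Finset ℕ} {f h : ℕ → ℕ} (hfh : ∀ x ∈ T, ∀ y ∈ T, f x = f y → h x = h y)
    {x y : ℕ} (hx : x ∈ T) (hy : y ∈ T) (hxy : h x = h y) (h1 : ¬ 2 * cls T f x ≤ cls T h x)
    (h2 : ¬ 2 * cls T f y ≤ cls T h y) : f x = f y := by
  by_contra hne
  have e1 : cls T h y = cls T h x := by simp only [cls, hxy]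
  have hsub : (T.filter fun w => f w = f x) ∪ (T.filter fun w => f w = f y) ⊆
      T.filter fun w => h w = h x := by
    intro w hw
    rw [mem_union, mem_filter, mem_filter] at hw
    rcases hw with hw | hw
    · exact mem_filter.2 ⟨hw.1, hfh w hw.1 x hx hw.2⟩
    · exact mem_filter.2 ⟨hw.1, (hfh w hw.1 y hy hw.2).trans hxy.symm⟩
  have hdis : Disjoint (T.filter fun w => f w = f x) (T.filter fun w => f w = f y) := by
    rw [disjoint_left]
    intro w hw hw'
    rw [mem_filter] at hw hw'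
    exact hne (hw.2.symm.trans hw'.2)
  have h3 := card_le_card hsub
  rw [card_union_of_disjoint hdis] at h3
  rw [e1] at h2
  simp only [cls] at h1 h2
  omega

/-- active elements -/
def act (T : Finset ℕ) (p σ : ℕ → ℕ) (x : ℕ) : Prop := 2 * cls T σ x ≤ cls T p x

open Classical in
/-- type of a tuple -/
noncomputable def ty (T : Finset ℕ) (p σ : ℕ → ℕ) {m : ℕ} (ρ : Fin m → ℕ) : Option (Fin m) :=
  if h : ∃ i, act T p σ (ρ i) then some h.choose else none

/-- dirty tuples -/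
def dirty (T : Finset ℕ) (p σ γ : ℕ → ℕ) {m : ℕ} (ρ : Fin m → ℕ) : Prop :=
  (∃ i j, i ≠ j ∧ 2 * cls T σ (ρ i) ≤ cls T p (ρ i) ∧ 2 * cls T σ (ρ j) ≤ cls T p (ρ j)) ∨
    ∃ i, 2 * cls T γ (ρ i) ≤ cls T σ (ρ i)

lemma ty_some {T : Finset ℕ} {p σ : ℕ → ℕ} {m : ℕ} {ρ : Fin m → ℕ} {i : Fin m}
    (h : ty T p σ ρ = some i) : act T p σ (ρ i) := by
  unfold ty at h
  split_ifs at h with h1
  rw [Option.some.injEq] at h
  rw [← h]
  exact h1.choose_spec

lemma ty_none {T : Finset ℕ} {p σ : ℕ → ℕ} {m : ℕ} {ρ : Fin m → ℕ}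
    (h : ty T p σ ρ = none) (i : Fin m) : ¬ act T p σ (ρ i) := by
  unfold ty at h
  split_ifs at h with h1
  exact fun h2 => h1 ⟨i, h2⟩

lemma clean_one {T : Finset ℕ} {p σ γ : ℕ → ℕ} {m : ℕ} {ρ : Fin m → ℕ}
    (h : ¬ dirty T p σ γ ρ) {i : Fin m} (hi : act T p σ (ρ i)) (l : Fin m) (hl : l ≠ i) :
    ¬ act T p σ (ρ l) := fun h1 => h (Or.inl ⟨l, i, hl, h1, hi⟩)

lemma clean_two {T : Finset ℕ} {p σ γ : ℕ → ℕ} {m : ℕ} {ρ : Fin m → ℕ}
    (h : ¬ dirty T p σ γ ρ) (i : Fin m) : ¬ 2 * cls T γ (ρ i) ≤ cls T σ (ρ i) :=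
  fun h1 => h (Or.inr ⟨i, h1⟩)

section

variable {T : Finset ℕ} {m : ℕ} {p σ γ : ℕ → ℕ} {z : (Fin m → ℕ) → ℕ}

lemma gamma_of_sigma (hγσ : ∀ x ∈ T, ∀ y ∈ T, γ x = γ y → σ x = σ y)
    {ρ ρ' : Fin m → ℕ} (hρ : ∀ i, ρ i ∈ T) (hρ' : ∀ i, ρ' i ∈ T)
    (hc : ¬ dirty T p σ γ ρ) (hc' : ¬ dirty T p σ γ ρ') (i : Fin m) (h : σ (ρ i) = σ (ρ' i)) :
    γ (ρ i) = γ (ρ' i) :=
  majority hγσ (hρ i) (hρ' i) h (clean_two hc i) (clean_two hc' i)

lemma gamma_of_nonact (hγσ : ∀ x ∈ T, ∀ y ∈ T, γ x = γ y → σ x = σ y)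
    (hσp : ∀ x ∈ T, ∀ y ∈ T, σ x = σ y → p x = p y)
    {ρ ρ' : Fin m → ℕ} (hρ : ∀ i, ρ i ∈ T) (hρ' : ∀ i, ρ' i ∈ T)
    (hc : ¬ dirty T p σ γ ρ) (hc' : ¬ dirty T p σ γ ρ') (i : Fin m) (h : p (ρ i) = p (ρ' i))
    (h1 : ¬ act T p σ (ρ i)) (h2 : ¬ act T p σ (ρ' i)) :
    γ (ρ i) = γ (ρ' i) :=
  gamma_of_sigma hγσ hρ hρ' hc hc' i (majority hσp (hρ i) (hρ' i) h h1 h2)

/-- same type -/
lemma same_type (hγσ : ∀ x ∈ T, ∀ y ∈ T, γ x = γ y → σ x = σ y)
    (hσp : ∀ x ∈ T, ∀ y ∈ T, σ x = σ y → p x = p y)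
    (hH : ∀ ρ ∈ tup m T, ∀ ρ' ∈ tup m T, (∀ i, p (ρ i) = p (ρ' i)) → z ρ = z ρ' → ∀ i,
      (∀ l, l ≠ i → γ (ρ l) = γ (ρ' l)) → σ (ρ i) = σ (ρ' i))
    {ρ ρ' : Fin m → ℕ} (hρ : ρ ∈ tup m T) (hρ' : ρ' ∈ tup m T)
    (hc : ¬ dirty T p σ γ ρ) (hc' : ¬ dirty T p σ γ ρ') (hp : ∀ i, p (ρ i) = p (ρ' i))
    (hz : z ρ = z ρ') (hty : ty T p σ ρ = ty T p σ ρ') : ∀ i, γ (ρ i) = γ (ρ' i) := by
  have hm : ∀ i, ρ i ∈ T := Fintype.mem_piFinset.1 hρ
  have hm' : ∀ i, ρ' i ∈ T := Fintype.mem_piFinset.1 hρ'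
  rcases h : ty T p σ ρ with _ | i
  · intro i
    exact gamma_of_nonact hγσ hσp hm hm' hc hc' i (hp i) (ty_none h i) (ty_none (hty ▸ h) i)
  · have h1 : act T p σ (ρ i) := ty_some h
    have h2 : act T p σ (ρ' i) := ty_some (hty ▸ h)
    have h3 : ∀ l, l ≠ i → γ (ρ l) = γ (ρ' l) := fun l hl =>
      gamma_of_nonact hγσ hσp hm hm' hc hc' l (hp l) (clean_one hc h1 l hl) (clean_one hc' h2 l hl)
    intro l
    by_cases hl : l = i
    · rw [hl]
      exact gamma_of_sigma hγσ hm hm' hc hc' i (hH ρ hρ ρ' hρ' hp hz i h3)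
    · exact h3 l hl

/-- types `0` and `i` do not occur together -/
lemma none_type (hγσ : ∀ x ∈ T, ∀ y ∈ T, γ x = γ y → σ x = σ y)
    (hσp : ∀ x ∈ T, ∀ y ∈ T, σ x = σ y → p x = p y)
    (hH : ∀ ρ ∈ tup m T, ∀ ρ' ∈ tup m T, (∀ i, p (ρ i) = p (ρ' i)) → z ρ = z ρ' → ∀ i,
      (∀ l, l ≠ i → γ (ρ l) = γ (ρ' l)) → σ (ρ i) = σ (ρ' i))
    {ρ ρ' : Fin m → ℕ} (hρ : ρ ∈ tup m T) (hρ' : ρ' ∈ tup m T)
    (hc : ¬ dirty T p σ γ ρ) (hc' : ¬ dirty T p σ γ ρ') (hp : ∀ i, p (ρ i) = p (ρ' i))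
    (hz : z ρ = z ρ') (hty : ty T p σ ρ' = none) : ty T p σ ρ = none := by
  have hm : ∀ i, ρ i ∈ T := Fintype.mem_piFinset.1 hρ
  have hm' : ∀ i, ρ' i ∈ T := Fintype.mem_piFinset.1 hρ'
  rcases h : ty T p σ ρ with _ | i
  · rfl
  · exfalso
    have h1 : act T p σ (ρ i) := ty_some h
    have h3 : ∀ l, l ≠ i → γ (ρ l) = γ (ρ' l) := fun l hl =>
      gamma_of_nonact hγσ hσp hm hm' hc hc' l (hp l) (clean_one hc h1 l hl) (ty_none hty l)
    have h4 := hH ρ hρ ρ' hρ' hp hz i h3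
    apply ty_none hty i
    unfold act at h1 ⊢
    have e1 : cls T σ (ρ' i) = cls T σ (ρ i) := by simp only [cls, h4]
    have e2 : cls T p (ρ' i) = cls T p (ρ i) := by simp only [cls, hp i]
    rw [e1, e2]
    exact h1

end

/-- cardinality of a box with one side changed -/
lemma card_upd {m : ℕ} (F : Fin m → Finset ℕ) (i : Fin m) (A : Finset ℕ) (hF : (F i).Nonempty) :
    ((Fintype.piFinset (Function.update F i A)).card : ℝ) =
      (Fintype.piFinset F).card * ((A.card : ℝ) / (F i).card) := by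
  rw [Fintype.card_piFinset, Fintype.card_piFinset,
    ← mul_prod_erase univ (fun l => (F l).card) (mem_univ i),
    ← mul_prod_erase univ (fun l => (Function.update F i A l).card) (mem_univ i)]
  have e3 : ∏ l ∈ univ.erase i, (Function.update F i A l).card =
      ∏ l ∈ univ.erase i, (F l).card := by
    apply prod_congr rfl
    intro l hl
    rw [Function.update_of_ne (ne_of_mem_erase hl)]
  rw [e3, Function.update_self]
  have hpos : (0 : ℝ) < ((F i).card : ℝ) := by
    have : 0 < (F i).card := card_pos.2 hF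
    exact_mod_cast this
  rw [Nat.cast_mul, Nat.cast_mul]
  field_simp

end AMBM

open AMBM Finset in
open Classical in
theorem specAMB : SpecAMB := by
  intro T m p σ γ z n hn hT hγσ hσp hz hH π hπ
  have hT1 : (1 : ℝ) ≤ T.card := by
    have : 0 < T.card := card_pos.2 hT
    exact_mod_cast this
  have hlogT : 0 ≤ Real.log T.card := Real.log_nonneg hT1
  have hlogn : 0 ≤ Real.log n := Real.log_nonneg (by linarith)
  set K : ℝ := 1 + m * Real.log T.card with hK
  set Ω : Finset (Fin m → ℕ) := tup m T with hΩ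
  set a : (Fin m → ℕ) → (Fin m → ℕ) := fun ρ i => p (ρ i) with ha
  set b : (Fin m → ℕ) → (Fin m → ℕ) × ℕ := fun ρ => (a ρ, z ρ) with hb
  set g : (Fin m → ℕ) → (Fin m → ℕ) := fun ρ i => γ (ρ i) with hg
  set A : (Fin m → ℕ) → ℝ := fun ρ => Real.log (Ω.filter fun ρ' =>
        (∀ i, p (ρ' i) = p (ρ i)) ∧ z ρ' = z ρ).card - ∑ i, Real.log (cls T γ (ρ i)) with hA
  set B : (Fin m → ℕ) → ℝ := fun ρ => (∑ i, ∑ j ∈ Finset.univ.erase i,
        π (ρ i) * Real.log (1 + π (ρ j) / π (ρ i))) with hB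
  have hclass : ∀ c ∈ Ω.image a, ∑ ρ ∈ Ω.filter (fun ρ => a ρ = c), A ρ ≤
      ∑ ρ ∈ Ω.filter (fun ρ => a ρ = c), (B ρ + if dirty T p σ γ ρ then K else 0) := by
    intro c hc
    obtain ⟨ρ₀, hρ₀, hac⟩ := mem_image.1 hc
    set Ωc : Finset (Fin m → ℕ) := Ω.filter (fun ρ => a ρ = c) with hΩc
    have hmemc : ∀ ρ, ρ ∈ Ωc ↔ ρ ∈ Ω ∧ ∀ i, p (ρ i) = p (ρ₀ i) := by
      intro ρ
      rw [hΩc, mem_filter, ← hac]
      constructor
      · rintro ⟨h1, h2⟩
        exact ⟨h1, fun i => congrFun h2 i⟩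
      · rintro ⟨h1, h2⟩
        exact ⟨h1, funext h2⟩
    have hρ₀c : ρ₀ ∈ Ωc := (hmemc _).2 ⟨hρ₀, fun _ => rfl⟩
    have hm₀ : ∀ i, ρ₀ i ∈ T := Fintype.mem_piFinset.1 hρ₀
    -- rewriting of `A`
    have hAeq : ∀ ρ ∈ Ωc, A ρ = Real.log ((Ωc.filter fun x => b x = b ρ).card : ℝ) -
        Real.log ((Ωc.filter fun x => g x = g ρ).card : ℝ) := by
      intro ρ hρ
      obtain ⟨hρ1, hρ2⟩ := (hmemc ρ).1 hρ
      have hm : ∀ i, ρ i ∈ T := Fintype.mem_piFinset.1 hρ1
      have e1 : (Ω.filter fun ρ' => (∀ i, p (ρ' i) = p (ρ i)) ∧ z ρ' = z ρ) =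
          Ωc.filter fun x => b x = b ρ := by
        ext x
        rw [mem_filter, mem_filter, hmemc]
        simp only [hb, ha, Prod.mk.injEq]
        constructor
        · rintro ⟨h1, h2, h3⟩
          exact ⟨⟨h1, fun i => (h2 i).trans (hρ2 i)⟩, funext h2, h3⟩
        · rintro ⟨⟨h1, h2⟩, h3, h4⟩
          exact ⟨h1, fun i => congrFun h3 i, h4⟩
      have e2 : (Ωc.filter fun x => g x = g ρ) =
          Fintype.piFinset fun i => T.filter fun x => γ x = γ (ρ i) := by
        ext x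
        rw [mem_filter, hmemc, Fintype.mem_piFinset]
        constructor
        · rintro ⟨⟨h1, -⟩, h3⟩ i
          exact mem_filter.2 ⟨Fintype.mem_piFinset.1 h1 i, congrFun h3 i⟩
        · intro h
          have hxm : ∀ i, x i ∈ T := fun i => (mem_filter.1 (h i)).1
          refine ⟨⟨Fintype.mem_piFinset.2 hxm, fun i => ?_⟩, funext fun i => (mem_filter.1 (h i)).2⟩
          rw [← hρ2 i]
          exact hσp _ (hxm i) _ (hm i) (hγσ _ (hxm i) _ (hm i) (mem_filter.1 (h i)).2)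
      have e3 : ∑ i, Real.log (cls T γ (ρ i)) =
          Real.log ((Ωc.filter fun x => g x = g ρ).card : ℝ) := by
        rw [e2, Fintype.card_piFinset, Nat.cast_prod, Real.log_prod]
        · rfl
        · intro i _
          have : 0 < (T.filter fun x => γ x = γ (ρ i)).card :=
            card_pos.2 ⟨ρ i, mem_filter.2 ⟨hm i, rfl⟩⟩
          have h0 : (0 : ℝ) < ((T.filter fun x => γ x = γ (ρ i)).card : ℝ) := by exact_mod_cast this
          exact h0.ne'
      simp only [hA]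
      rw [e1, e3]
    rw [sum_congr rfl hAeq]
    have hcardN : (Ωc.card : ℝ) ≤ (T.card : ℝ) ^ m := by
      have h1 : Ωc.card ≤ Ω.card := card_le_card (filter_subset _ _)
      have h2 : Ω.card = T.card ^ m := by
        rw [hΩ, tup, Fintype.card_piFinset]
        simp
      rw [h2] at h1
      exact_mod_cast h1
    have hcore := core Ωc b g (dirty T p σ γ) (ty T p σ) ((T.card : ℝ) ^ m) hcardN
      (by
        intro ρ hρ ρ' hρ' hd hd' hbb hty
        have h1 := (hmemc ρ).1 hρ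
        have h2 := (hmemc ρ').1 hρ'
        simp only [hb, Prod.mk.injEq] at hbb
        exact funext (same_type hγσ hσp hH h2.1 h1.1 hd' hd (fun i => congrFun hbb.1 i) hbb.2 hty))
      (by
        intro ρ hρ ρ' hρ' hd hd' hbb hty
        have h1 := (hmemc ρ).1 hρ
        have h2 := (hmemc ρ').1 hρ'
        simp only [hb, Prod.mk.injEq] at hbb
        exact none_type hγσ hσp hH h1.1 h2.1 hd hd' (fun i => (congrFun hbb.1 i).symm)
          hbb.2.symm hty)
    refine hcore.trans ?_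
    rw [sum_add_distrib, Real.log_pow]
    apply add_le_add
    · -- main terms
      set W : ℝ := (Ωc.card : ℝ) with hW
      have hWpos : 0 < W := by
        have : 0 < Ωc.card := card_pos.2 ⟨ρ₀, hρ₀c⟩
        rw [hW]
        exact_mod_cast this
      have hπ0 : ∀ x, 0 ≤ π x := by
        intro x
        rw [hπ]
        positivity
      obtain ⟨Φ, hΦ⟩ : ∃ Φ : ℕ → ℝ, ∀ x, π x = Φ (p x) :=
        ⟨fun u => ((T.filter fun y => p y = u ∧ 2 * cls T σ y ≤ cls T p y).card : ℝ) /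
          (T.filter fun y => p y = u).card, fun x => by rw [hπ]; rfl⟩
      have hπc : ∀ ρ ∈ Ωc, ∀ i, π (ρ i) = π (ρ₀ i) := by
        intro ρ hρ i
        rw [hΦ, hΦ, ((hmemc ρ).1 hρ).2 i]
      have hBc : ∀ ρ ∈ Ωc, B ρ = B ρ₀ := by
        intro ρ hρ
        simp only [hB]
        apply sum_congr rfl
        intro i _
        apply sum_congr rfl
        intro j _
        rw [hπc ρ hρ i, hπc ρ hρ j]
      rw [sum_congr rfl hBc, sum_const, nsmul_eq_mul]
      have hQ : ∀ i, ((Ωc.filter fun x => ¬ dirty T p σ γ x ∧ ty T p σ x = some i).card : ℝ) ≤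
          W * π (ρ₀ i) := by
        intro i
        set F : Fin m → Finset ℕ := fun l => T.filter fun y => p y = p (ρ₀ l) with hF
        rw [hπ (ρ₀ i)]
        generalize hAA : (T.filter fun y => p y = p (ρ₀ i) ∧ 2 * cls T σ y ≤ cls T p y) = A'
        have h1 := card_upd F i A' ⟨ρ₀ i, mem_filter.2 ⟨hm₀ i, rfl⟩⟩
        have h2 : Fintype.piFinset F = Ωc := by
          ext x
          rw [hmemc, Fintype.mem_piFinset]
          constructor
          · intro h
            exact ⟨Fintype.mem_piFinset.2 fun l => (mem_filter.1 (h l)).1,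
              fun l => (mem_filter.1 (h l)).2⟩
          · rintro ⟨h3, h4⟩ l
            exact mem_filter.2 ⟨Fintype.mem_piFinset.1 h3 l, h4 l⟩
        rw [h2] at h1
        have h5 : (cls T p (ρ₀ i) : ℝ) = ((F i).card : ℝ) := rfl
        rw [h5, hW, ← h1]
        have hsub : (Ωc.filter fun x => ¬ dirty T p σ γ x ∧ ty T p σ x = some i) ⊆
            Fintype.piFinset (Function.update F i A') := by
          intro x hx
          rw [mem_filter] at hx
          have h3 := (hmemc x).1 hx.1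
          have h3' := Fintype.mem_piFinset.1 h3.1
          rw [Fintype.mem_piFinset]
          intro l
          by_cases hl : l = i
          · subst hl
            rw [Function.update_self, ← hAA, mem_filter]
            exact ⟨h3' l, h3.2 l, ty_some hx.2.2⟩
          · rw [Function.update_of_ne hl]
            exact mem_filter.2 ⟨h3' l, h3.2 l⟩
        exact_mod_cast card_le_card hsub
      simp only [hB]
      rw [mul_sum]
      apply sum_le_sum
      intro i _
      rw [mul_sum]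
      apply sum_le_sum
      intro j _
      have h1 := mono_ulog (Nat.cast_nonneg
        ((Ωc.filter fun x => ¬ dirty T p σ γ x ∧ ty T p σ x = some i).card)) (hQ i)
        (Nat.cast_nonneg
        ((Ωc.filter fun x => ¬ dirty T p σ γ x ∧ ty T p σ x = some j).card)) (hQ j)
      rw [mul_div_mul_left _ _ hWpos.ne', mul_assoc] at h1
      exact h1
    · rw [← sum_filter, sum_const, nsmul_eq_mul, mul_comm]
  have hall : ∑ ρ ∈ Ω, A ρ ≤ ∑ ρ ∈ Ω, (B ρ + if dirty T p σ γ ρ then K else 0) := by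
    have hmaps : ∀ ρ ∈ Ω, a ρ ∈ Ω.image a := fun ρ hρ => mem_image_of_mem _ hρ
    rw [← sum_fiberwise_of_maps_to hmaps, ← sum_fiberwise_of_maps_to hmaps (fun ρ => B ρ + _)]
    exact sum_le_sum hclass
  refine hall.trans ?_
  rw [sum_add_distrib, ← sum_filter, sum_const, nsmul_eq_mul]
  have e1 : (Ω.filter fun ρ => dirty T p σ γ ρ).card = (Ω.filter fun ρ =>
        (∃ i j, i ≠ j ∧ 2 * cls T σ (ρ i) ≤ cls T p (ρ i) ∧ 2 * cls T σ (ρ j) ≤ cls T p (ρ j)) ∨
        ∃ i, 2 * cls T γ (ρ i) ≤ cls T σ (ρ i)).card := by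
    congr 1
    ext x
    rw [mem_filter, mem_filter]
    exact Iff.rfl
  rw [e1]
  set d : ℝ := ((Ω.filter fun ρ =>
        (∃ i j, i ≠ j ∧ 2 * cls T σ (ρ i) ≤ cls T p (ρ i) ∧ 2 * cls T σ (ρ j) ≤ cls T p (ρ j)) ∨
        ∃ i, 2 * cls T γ (ρ i) ≤ cls T σ (ρ i)).card : ℝ) with hd
  have hd0 : 0 ≤ d := Nat.cast_nonneg _
  have hl : 0 ≤ 2 * Real.log n / n ^ 2 * (T.card : ℝ) ^ m := by positivity
  have hd2 : d * K ≤ (1 + m * Real.log T.card + 2 * Real.log n) * d := by
    rw [hK]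
    nlinarith [mul_nonneg hd0 hlogn]
  linarith

end Pool.Agent.Lib.MP5b6025.EP
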