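import Pool.Agent.Lib.MP_5b6025_nt.EP.Spec

/-!
# Module AMT: total ambiguity
-/

set_option autoImplicit false

open Finset

namespace Pool.Agent.Lib.MP5b6025.EP.AMTM

/-- sums over one coordinate -/
theorem sum_one {m : ℕ} (T : Finset ℕ) (i : Fin m) (f : ℕ → ℝ) :
    (T.card : ℝ) * ∑ ρ ∈ tup m T, f (ρ i) = (T.card : ℝ) ^ m * ∑ s ∈ T, f s := by
  have h := Fintype.sum_piFinset_apply (ι := Fin m) f T i
  have hm : m = (m - 1) + 1 := by
    have := i.pos
    omega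
  unfold tup
  rw [h, Fintype.card_fin, nsmul_eq_mul, ← mul_assoc]
  congr 1
  conv_rhs => rw [hm, pow_succ]
  push_cast
  ring

theorem card_two {m : ℕ} (T : Finset ℕ) {i j : Fin m} (hij : i ≠ j) {s s' : ℕ} (hs : s ∈ T)
    (hs' : s' ∈ T) :
    (T.card : ℝ) ^ 2 * ((tup m T).filter fun ρ => ρ i = s ∧ ρ j = s').card =
      (T.card : ℝ) ^ m := by
  classical
  set F : Fin m → Finset ℕ := fun l => if l = i then {s} else if l = j then {s'} else T with hF
  have h1 : ((tup m T).filter fun ρ => ρ i = s ∧ ρ j = s') = Fintype.piFinset F := by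
    ext ρ
    simp only [tup, mem_filter, Fintype.mem_piFinset, hF]
    constructor
    · rintro ⟨h, h2, h3⟩ l
      by_cases hl : l = i
      · subst hl
        simp [h2]
      · by_cases hl' : l = j
        · subst hl'
          simp [hl, h3]
        · simpa [hl, hl'] using h l
    · intro h
      have hi := h i
      have hj := h j
      simp only [if_true, mem_singleton, if_neg hij.symm] at hi hj
      refine ⟨fun l => ?_, hi, hj⟩
      by_cases hl : l = i
      · subst hl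
        rw [hi]
        exact hs
      · by_cases hl' : l = j
        · subst hl'
          rw [hj]
          exact hs'
        · simpa [hl, hl'] using h l
  have h2 : ∀ c : Fin m → ℕ, ∏ l, c l = c i * (c j * ∏ l ∈ (univ.erase i).erase j, c l) := by
    intro c
    rw [mul_prod_erase (univ.erase i) c (mem_erase.2 ⟨hij.symm, mem_univ _⟩),
      mul_prod_erase univ c (mem_univ i)]
  have h3 : ∏ l ∈ (univ.erase i).erase j, (F l).card = ∏ l ∈ (univ.erase i).erase j, T.card := by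
    refine prod_congr rfl fun l hl => ?_
    simp only [mem_erase, mem_univ, and_true] at hl
    simp [hF, hl.1, hl.2]
  have h4 : ∏ _l : Fin m, T.card = T.card ^ m := by
    rw [prod_const, card_univ, Fintype.card_fin]
  have h5 : T.card ^ 2 * (Fintype.piFinset F).card = T.card ^ m := by
    rw [Fintype.card_piFinset, h2 fun l => (F l).card, h3, ← h4, h2 fun _ => T.card]
    have e1 : (F i).card = 1 := by simp [hF]
    have e2 : (F j).card = 1 := by simp [hF, hij.symm]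
    rw [e1, e2]
    ring
  rw [h1]
  exact_mod_cast h5

/-- sums over two coordinates -/
theorem sum_two {m : ℕ} (T : Finset ℕ) {i j : Fin m} (hij : i ≠ j) (f : ℕ → ℕ → ℝ) :
    (T.card : ℝ) ^ 2 * ∑ ρ ∈ tup m T, f (ρ i) (ρ j) =
      (T.card : ℝ) ^ m * ∑ s ∈ T, ∑ s' ∈ T, f s s' := by
  classical
  have h1 : ∑ ρ ∈ tup m T, f (ρ i) (ρ j) =
      ∑ s ∈ T, ∑ s' ∈ T, f s s' * ((tup m T).filter fun ρ => ρ i = s ∧ ρ j = s').card := by
    have h2 : ∀ ρ ∈ tup m T, f (ρ i) (ρ j) =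
        ∑ s ∈ T, ∑ s' ∈ T, if ρ i = s ∧ ρ j = s' then f s s' else 0 := by
      intro ρ hρ
      have hρ' := Fintype.mem_piFinset.1 hρ
      rw [sum_eq_single (ρ i), sum_eq_single (ρ j)]
      · simp
      · intro s' _ hs'
        rw [if_neg fun h => hs' h.2.symm]
      · intro h
        exact absurd (hρ' j) h
      · intro s _ hs
        refine sum_eq_zero fun s' _ => ?_
        rw [if_neg fun h => hs h.1.symm]
      · intro h
        exact absurd (hρ' i) h
    rw [sum_congr rfl h2, sum_comm]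
    refine sum_congr rfl fun s _ => ?_
    rw [sum_comm]
    refine sum_congr rfl fun s' _ => ?_
    rw [← sum_filter, sum_const, nsmul_eq_mul, mul_comm]
  rw [h1, mul_sum, mul_sum]
  refine sum_congr rfl fun s hs => ?_
  rw [mul_sum, mul_sum]
  refine sum_congr rfl fun s' hs' => ?_
  rw [← card_two T hij hs hs']
  ring

theorem card_tup (m : ℕ) (T : Finset ℕ) : (tup m T).card = T.card ^ m := by
  unfold tup
  rw [Fintype.card_piFinset, prod_const, card_univ, Fintype.card_fin]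

/-- the number of tuples with a property of one coordinate -/
theorem nb_one {m : ℕ} (T : Finset ℕ) (hT : T.Nonempty) (i : Fin m) (p : ℕ → Prop)
    [DecidablePred p] :
    (((tup m T).filter fun ρ => p (ρ i)).card : ℝ) =
      (T.card : ℝ) ^ m * ((T.filter p).card / T.card) := by
  have hc : (T.card : ℝ) ≠ 0 := by
    have := hT.card_pos
    positivity
  have h1 := sum_one T i fun s => if p s then (1 : ℝ) else 0
  rw [← sum_filter, ← sum_filter, sum_const, sum_const, nsmul_eq_mul, nsmul_eq_mul, mul_one,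
    mul_one] at h1
  field_simp
  linarith

/-- the number of tuples with a property of two coordinates -/
theorem nb_two {m : ℕ} (T : Finset ℕ) (hT : T.Nonempty) {i j : Fin m} (hij : i ≠ j)
    (p : ℕ → Prop) [DecidablePred p] :
    (((tup m T).filter fun ρ => p (ρ i) ∧ p (ρ j)).card : ℝ) =
      (T.card : ℝ) ^ m * ((T.filter p).card / T.card) ^ 2 := by
  have hc : (T.card : ℝ) ≠ 0 := by
    have := hT.card_pos
    positivity
  have h1 := sum_two T hij fun s s' => if p s ∧ p s' then (1 : ℝ) else 0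
  have h2 : ∑ s ∈ T, ∑ s' ∈ T, (if p s ∧ p s' then (1 : ℝ) else 0) =
      ((T.filter p).card : ℝ) ^ 2 := by
    have h3 : ∀ s ∈ T, ∑ s' ∈ T, (if p s ∧ p s' then (1 : ℝ) else 0) =
        if p s then ((T.filter p).card : ℝ) else 0 := by
      intro s _
      by_cases hs : p s
      · simp only [hs, true_and, if_true]
        rw [← sum_filter, sum_const, nsmul_eq_mul, mul_one]
      · simp [hs]
    rw [sum_congr rfl h3, ← sum_filter, sum_const, nsmul_eq_mul]
    ring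
  rw [h2, ← sum_filter, sum_const, nsmul_eq_mul, mul_one] at h1
  field_simp
  linarith

/-! ## levels -/

theorem gl_succ {K : ℕ} (hK : 10 ≤ K) (k₀ v : ℕ) : gl K k₀ v + 2 ≤ gl K k₀ (v + 1) := by
  unfold gl
  rw [if_neg (Nat.succ_ne_zero v)]
  split_ifs with h
  · subst h
    nlinarith
  · nlinarith

theorem gl_mono {K : ℕ} (hK : 10 ≤ K) (k₀ : ℕ) : Monotone (gl K k₀) :=
  monotone_nat_of_le_succ fun v => by
    have := gl_succ hK k₀ v
    omega

theorem hl_even (K k₀ v : ℕ) : hl K k₀ (2 * v) = gl K k₀ v := by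
  unfold hl
  rw [Nat.mul_div_cancel_left v (by norm_num), Nat.mul_mod_right, add_zero]

theorem hl_odd (K k₀ v : ℕ) : hl K k₀ (2 * v + 1) = gl K k₀ v + 1 := by
  unfold hl
  have h1 : (2 * v + 1) / 2 = v := by omega
  have h2 : (2 * v + 1) % 2 = 1 := by omega
  rw [h1, h2]

theorem sum_split (f : ℕ → ℝ) (L : ℕ) : ∑ r ∈ range (2 * L + 1), f r =
    ∑ v ∈ range (L + 1), f (2 * v) + ∑ v ∈ range L, f (2 * v + 1) := by
  induction L with
  | zero => simp
  | succ L ih =>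
    rw [show 2 * (L + 1) + 1 = 2 * L + 1 + 1 + 1 by ring, sum_range_succ, sum_range_succ, ih,
      sum_range_succ (fun v => f (2 * v)) (L + 1), sum_range_succ (fun v => f (2 * v + 1)) L]
    rw [show 2 * L + 1 + 1 = 2 * (L + 1) by ring]
    ring

/-! ## even steps -/

theorem even_step (hW : SpecWT) {P T : Finset ℕ} {B m : ℕ} (hTP : T ⊆ P) (hB : 2 ≤ B) (g : ℕ)
    (q : (Fin m → ℕ) → ℕ) {ρ : Fin m → ℕ} (hρ : ρ ∈ tup m T) :
    Real.log ((tup m T).filter fun ρ' =>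
        (∀ i, st P (B ^ (g + 1)) (ρ' i) = st P (B ^ (g + 1)) (ρ i)) ∧ q ρ' = q ρ).card -
      ∑ i, Real.log (wt P T B g (ρ i)) ≤ ∑ i, co P T B g (g + 2) (ρ i) := by
  classical
  obtain ⟨h1, h2, -⟩ := hW P T B hTP hB
  have hρ' := Fintype.mem_piFinset.1 hρ
  have hsub : ((tup m T).filter fun ρ' =>
      (∀ i, st P (B ^ (g + 1)) (ρ' i) = st P (B ^ (g + 1)) (ρ i)) ∧ q ρ' = q ρ) ⊆
      Fintype.piFinset fun i => T.filter fun x => st P (B ^ (g + 1)) x =
        st P (B ^ (g + 1)) (ρ i) := by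
    intro ρ' h
    rw [mem_filter] at h
    refine Fintype.mem_piFinset.2 fun i => mem_filter.2 ⟨Fintype.mem_piFinset.1 h.1 i, h.2.1 i⟩
  have hcard := card_le_card hsub
  rw [Fintype.card_piFinset] at hcard
  have hpos : 0 < ((tup m T).filter fun ρ' =>
      (∀ i, st P (B ^ (g + 1)) (ρ' i) = st P (B ^ (g + 1)) (ρ i)) ∧ q ρ' = q ρ).card :=
    card_pos.2 ⟨ρ, mem_filter.2 ⟨hρ, fun _ => rfl, rfl⟩⟩
  have hlog : Real.log ((tup m T).filter fun ρ' =>
      (∀ i, st P (B ^ (g + 1)) (ρ' i) = st P (B ^ (g + 1)) (ρ i)) ∧ q ρ' = q ρ).card ≤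
      ∑ i, Real.log (wt P T B (g + 1) (ρ i)) := by
    rw [← Real.log_prod (fun i _ => by
      have := (h1 (g + 1) (ρ i) (hρ' i)).1
      positivity)]
    refine Real.log_le_log (by exact_mod_cast hpos) ?_
    have : (((tup m T).filter fun ρ' =>
      (∀ i, st P (B ^ (g + 1)) (ρ' i) = st P (B ^ (g + 1)) (ρ i)) ∧ q ρ' = q ρ).card : ℝ) ≤
      ((∏ i, wt P T B (g + 1) (ρ i) : ℕ) : ℝ) := by exact_mod_cast hcard
    simpa using this
  have hmon : ∑ i, Real.log (wt P T B (g + 1) (ρ i)) ≤ ∑ i, Real.log (wt P T B (g + 2) (ρ i)) := by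
    refine sum_le_sum fun i _ => Real.log_le_log ?_ ?_
    · have := (h1 (g + 1) (ρ i) (hρ' i)).1
      exact_mod_cast this
    · exact_mod_cast (h2 (g + 1) (g + 2) (by omega) (ρ i) (hρ' i)).1
  have hco : ∑ i, co P T B g (g + 2) (ρ i) = ∑ i, Real.log (wt P T B (g + 2) (ρ i)) -
      ∑ i, Real.log (wt P T B g (ρ i)) := by
    rw [← sum_sub_distrib]
    rfl
  linarith

/-! ## odd steps: the hypothesis of AMB -/

theorem sep (hC : SpecCMP) (hS : SpecSUM) {P T : Finset ℕ} {B m : ℕ} (hTP : T ⊆ P)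
    (hB : 4 * (m + 2) * (P.card + 1) ^ (m + 2) ≤ B) (g : ℕ) {ρ ρ' : Fin m → ℕ}
    (hρ : ρ ∈ tup m T) (hρ' : ρ' ∈ tup m T)
    (hz : st (sm m P) (B ^ (g + 1)) (∑ i, ρ i) = st (sm m P) (B ^ (g + 1)) (∑ i, ρ' i))
    (i : Fin m) (hl : ∀ l, l ≠ i → st P (B ^ (g + 1)) (ρ l) = st P (B ^ (g + 1)) (ρ' l)) :
    st P (B ^ (g + 2)) (ρ i) = st P (B ^ (g + 2)) (ρ' i) := by
  classical
  have hB1 : 1 ≤ B := by
    refine le_trans ?_ hB
    have : 1 ≤ (P.card + 1) ^ (m + 2) := Nat.one_le_pow _ _ (by omega)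
    nlinarith
  have hτ : 1 ≤ B ^ (g + 1) := Nat.one_le_pow _ _ hB1
  have hτ2 : 1 ≤ B ^ (g + 2) := Nat.one_le_pow _ _ hB1
  have hP := fun j => hTP (Fintype.mem_piFinset.1 hρ j)
  have hP' := fun j => hTP (Fintype.mem_piFinset.1 hρ' j)
  obtain ⟨s1, s2, -, -⟩ := hS P (B ^ (g + 1)) m hτ
  have m1 : ∑ j, ρ j ∈ sm m P := (s1 ρ univ hP).1
  have m2 : ∑ j, ρ' j ∈ sm m P := (s1 ρ' univ hP').1
  obtain ⟨-, -, c3, -⟩ := hC (sm m P) (B ^ (g + 1)) hτ
  obtain ⟨-, -, d3, -⟩ := hC P (B ^ (g + 1)) hτ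
  obtain ⟨-, d2, -⟩ := hC P (B ^ (g + 2)) hτ2
  have a1 := c3 _ m1 _ m2 hz
  have a2 := c3 _ m2 _ m1 hz.symm
  have b1 : ∑ l ∈ univ.erase i, ρ l ≤ ∑ l ∈ univ.erase i, (ρ' l + P.card * B ^ (g + 1)) :=
    sum_le_sum fun l h => (d3 _ (hP l) _ (hP' l) (hl l (ne_of_mem_erase h))).le
  have b2 : ∑ l ∈ univ.erase i, ρ' l ≤ ∑ l ∈ univ.erase i, (ρ l + P.card * B ^ (g + 1)) :=
    sum_le_sum fun l h => (d3 _ (hP' l) _ (hP l) (hl l (ne_of_mem_erase h)).symm).le
  rw [sum_add_distrib, sum_const, card_erase_of_mem (mem_univ i), card_univ, Fintype.card_fin,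
    smul_eq_mul] at b1 b2
  have e1 := add_sum_erase univ ρ (mem_univ i)
  have e2 := add_sum_erase univ ρ' (mem_univ i)
  have hbig : (m - 1) * (P.card * B ^ (g + 1)) + (sm m P).card * B ^ (g + 1) ≤ B ^ (g + 2) := by
    have h1 : (m - 1) * P.card + (sm m P).card ≤ B := by
      refine le_trans ?_ hB
      have h2 : P.card ^ m ≤ (P.card + 1) ^ (m + 2) :=
        (Nat.pow_le_pow_left (by omega) m).trans (Nat.pow_le_pow_right (by omega) (by omega))
      have h3 : P.card ≤ (P.card + 1) ^ (m + 2) :=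
        (Nat.le_succ _).trans (Nat.le_self_pow (by omega) _)
      have h4 : (m - 1) * P.card ≤ m * (P.card + 1) ^ (m + 2) := Nat.mul_le_mul (by omega) h3
      nlinarith
    calc (m - 1) * (P.card * B ^ (g + 1)) + (sm m P).card * B ^ (g + 1)
        = ((m - 1) * P.card + (sm m P).card) * B ^ (g + 1) := by ring
      _ ≤ B * B ^ (g + 1) := Nat.mul_le_mul_right _ h1
      _ = B ^ (g + 2) := by ring
  by_contra hne
  rcases le_total (ρ i) (ρ' i) with h | h
  · have := d2 _ (hP i) _ (hP' i) h hne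
    omega
  · have := d2 _ (hP' i) _ (hP i) h (Ne.symm hne)
    omega

/-! ## numbers -/

/-- the remainder terms -/
theorem rem_le {κ ε : ℝ} {m : ℕ} (hκ : 1 ≤ κ) (hε : 0 < ε) (hε' : ε ≤ 1 / 100) (hm : 1 ≤ m) {L : ℕ}
    (hL : 3 ≤ L)
    (hbig : (4 * κ * m + 2 * (m * κ + 3) * m ^ 2 + 8 * κ * m * (m * κ + 3) + 2) / (κ * ε) ≤
      Real.log L) :
    4 * κ / Real.log L ^ 2 * m + (1 + m * (κ * Real.log L) + 2 * Real.log L) *
      (m ^ 2 * (L : ℝ) ^ (-1 + 2 * ε) + m * (8 * κ / Real.log L ^ 2)) +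
      L * (2 * Real.log L / (L : ℝ) ^ 2) ≤ m ^ 2 * κ * ε * Real.log L := by
  have hL0 : (0 : ℝ) < L := by positivity
  have hL3 : (3 : ℝ) ≤ L := by exact_mod_cast hL
  have hm1 : (1 : ℝ) ≤ m := by exact_mod_cast hm
  have hℓ : 1 ≤ Real.log L := by
    rw [Real.le_log_iff_exp_le hL0]
    have := Real.exp_one_lt_d9
    linarith
  set ℓ := Real.log L with hℓd
  have hℓ0 : 0 < ℓ := by linarith
  have hκ0 : 0 < κ := by linarith
  -- the power
  have hp1 : (L : ℝ) ^ (-1 + 2 * ε) ≤ (L : ℝ) ^ (-(1 / 2) : ℝ) :=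
    Real.rpow_le_rpow_of_exponent_le (by linarith) (by linarith)
  have hp2 : ℓ * (L : ℝ) ^ (-(1 / 2) : ℝ) ≤ 2 := by
    have h1 := Real.log_le_rpow_div hL0.le (show (0 : ℝ) < 1 / 2 by norm_num)
    have h2 : (L : ℝ) ^ (1 / 2 : ℝ) * (L : ℝ) ^ (-(1 / 2) : ℝ) = 1 := by
      rw [← Real.rpow_add hL0]
      norm_num
    have h3 : (0 : ℝ) < (L : ℝ) ^ (-(1 / 2) : ℝ) := Real.rpow_pos_of_pos hL0 _
    calc ℓ * (L : ℝ) ^ (-(1 / 2) : ℝ) ≤ (L : ℝ) ^ (1 / 2 : ℝ) / (1 / 2) * (L : ℝ) ^ (-(1 / 2) : ℝ) :=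
          mul_le_mul_of_nonneg_right h1 h3.le
      _ = 2 * ((L : ℝ) ^ (1 / 2 : ℝ) * (L : ℝ) ^ (-(1 / 2) : ℝ)) := by ring
      _ = 2 := by rw [h2]; norm_num
  have hA : 1 + m * (κ * ℓ) + 2 * ℓ ≤ (m * κ + 3) * ℓ := by nlinarith
  have hA0 : 0 ≤ 1 + m * (κ * ℓ) + 2 * ℓ := by positivity
  have hc : (0 : ℝ) ≤ m * κ + 3 := by positivity
  -- term 1
  have t1 : 4 * κ / ℓ ^ 2 * m ≤ 4 * κ * m := by
    have : 4 * κ / ℓ ^ 2 ≤ 4 * κ := div_le_self (by positivity) (by nlinarith)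
    exact mul_le_mul_of_nonneg_right this (by positivity)
  -- term 2
  have t2 : (1 + m * (κ * ℓ) + 2 * ℓ) * (m ^ 2 * (L : ℝ) ^ (-1 + 2 * ε)) ≤
      2 * (m * κ + 3) * m ^ 2 := by
    have h3 : (0 : ℝ) < (L : ℝ) ^ (-1 + 2 * ε) := Real.rpow_pos_of_pos hL0 _
    calc (1 + m * (κ * ℓ) + 2 * ℓ) * (m ^ 2 * (L : ℝ) ^ (-1 + 2 * ε))
        ≤ (m * κ + 3) * ℓ * (m ^ 2 * (L : ℝ) ^ (-(1 / 2) : ℝ)) := by
          refine mul_le_mul hA ?_ (by positivity) (by positivity)
          exact mul_le_mul_of_nonneg_left hp1 (by positivity)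
      _ = (m * κ + 3) * m ^ 2 * (ℓ * (L : ℝ) ^ (-(1 / 2) : ℝ)) := by ring
      _ ≤ (m * κ + 3) * m ^ 2 * 2 := mul_le_mul_of_nonneg_left hp2 (by positivity)
      _ = _ := by ring
  -- term 3
  have t3 : (1 + m * (κ * ℓ) + 2 * ℓ) * (m * (8 * κ / ℓ ^ 2)) ≤ 8 * κ * m * (m * κ + 3) := by
    calc (1 + m * (κ * ℓ) + 2 * ℓ) * (m * (8 * κ / ℓ ^ 2))
        ≤ (m * κ + 3) * ℓ * (m * (8 * κ / ℓ ^ 2)) :=
          mul_le_mul_of_nonneg_right hA (by positivity)
      _ = 8 * κ * m * (m * κ + 3) * (1 / ℓ) := by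
          field_simp
      _ ≤ 8 * κ * m * (m * κ + 3) * 1 := by
          refine mul_le_mul_of_nonneg_left ?_ (by positivity)
          rw [div_le_one hℓ0]
          exact hℓ
      _ = _ := mul_one _
  -- term 4
  have t4 : L * (2 * ℓ / (L : ℝ) ^ 2) ≤ 2 := by
    have h1 : ℓ ≤ L := (Real.log_le_sub_one_of_pos hL0).trans (by linarith)
    rw [show (L : ℝ) * (2 * ℓ / (L : ℝ) ^ 2) = 2 * ℓ / L by field_simp, div_le_iff₀ hL0]
    linarith
  -- the constant
  have t5 : 4 * κ * m + 2 * (m * κ + 3) * m ^ 2 + 8 * κ * m * (m * κ + 3) + 2 ≤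
      m ^ 2 * κ * ε * ℓ := by
    rw [div_le_iff₀ (by positivity)] at hbig
    have h2 : ℓ * (κ * ε) ≤ m ^ 2 * κ * ε * ℓ := by
      have h3 : (1 : ℝ) ≤ (m : ℝ) ^ 2 := one_le_pow₀ hm1
      have h4 : 0 ≤ ℓ * (κ * ε) := by positivity
      calc ℓ * (κ * ε) = 1 * (ℓ * (κ * ε)) := (one_mul _).symm
        _ ≤ (m : ℝ) ^ 2 * (ℓ * (κ * ε)) := mul_le_mul_of_nonneg_right h3 h4
        _ = _ := by ring
    exact hbig.trans h2
  have e : (1 + m * (κ * ℓ) + 2 * ℓ) *
      (m ^ 2 * (L : ℝ) ^ (-1 + 2 * ε) + m * (8 * κ / ℓ ^ 2)) =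
      (1 + m * (κ * ℓ) + 2 * ℓ) * (m ^ 2 * (L : ℝ) ^ (-1 + 2 * ε)) +
      (1 + m * (κ * ℓ) + 2 * ℓ) * (m * (8 * κ / ℓ ^ 2)) := by ring
  rw [e]
  linarith

end Pool.Agent.Lib.MP5b6025.EP.AMTM

namespace Pool.Agent.Lib.MP5b6025.EP

open AMTM

theorem specAMT (hC : SpecCMP) (hS : SpecSUM) (hW : SpecWT) (hA : SpecAMB) (hP : SpecPSI) :
    SpecAMT := by
  classical
  intro κ ε m hκ hε hε'
  obtain ⟨L₁, hL₁⟩ := hP κ ε hκ hε hε'
  set c : ℝ := (4 * κ * m + 2 * (m * κ + 3) * m ^ 2 + 8 * κ * m * (m * κ + 3) + 2) / (κ * ε)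
    with hc
  refine ⟨max (max L₁ 3) ⌈Real.exp c⌉₊, ?_⟩
  intro P T B K k₀ L hL hT hTne hK hB hlogT hLvl
  have hLL₁ : L₁ ≤ L := (le_max_left _ _).trans ((le_max_left _ _).trans hL)
  have hL3 : 3 ≤ L := (le_max_right _ _).trans ((le_max_left _ _).trans hL)
  have hLc : c ≤ Real.log L := by
    rw [Real.le_log_iff_exp_le (by positivity)]
    exact (Nat.le_ceil _).trans (by exact_mod_cast (le_max_right _ _).trans hL)
  have hL3' : (3 : ℝ) ≤ L := by exact_mod_cast hL3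
  have hL0 : (0 : ℝ) < L := by linarith
  have hℓ : 1 ≤ Real.log L := by
    rw [Real.le_log_iff_exp_le hL0]
    have := Real.exp_one_lt_d9
    linarith
  have hTP : T ⊆ P := fun s hs => (mem_filter.1 (hT s hs).1).1
  have hB2 : 2 ≤ B := by
    refine le_trans ?_ hB
    have : 1 ≤ (P.card + 1) ^ (m + 2) := Nat.one_le_pow _ _ (by omega)
    nlinarith
  have hn : (0 : ℝ) < T.card := by exact_mod_cast hTne.card_pos
  obtain ⟨w1, w2, w3, w4, w5, w6, w7, w8, w9⟩ := hW P T B hTP hB2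
  set n : ℝ := (T.card : ℝ) with hnd
  -- the term of the sum
  set Te : ℕ → (Fin m → ℕ) → ℝ := fun r ρ => Real.log ((tup m T).filter fun ρ' =>
        (∀ i, st P (B ^ hl K k₀ (r + 1)) (ρ' i) = st P (B ^ hl K k₀ (r + 1)) (ρ i)) ∧
        st (sm m P) (B ^ hl K k₀ r) (∑ i, ρ' i) = st (sm m P) (B ^ hl K k₀ r) (∑ i, ρ i)).card -
      ∑ i, Real.log (wt P T B (hl K k₀ r) (ρ i)) with hTe
  change ∑ ρ ∈ tup m T, ∑ r ∈ range (2 * L + 1), Te r ρ ≤ _
  rcases Nat.eq_zero_or_pos m with hm0 | hmpos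
  · subst hm0
    have h0 : ∀ ρ ∈ tup 0 T, ∀ r, Te r ρ ≤ 0 := by
      intro ρ _ r
      simp only [hTe, univ_eq_empty, sum_empty, sub_zero]
      refine Real.log_nonpos (by positivity) ?_
      have h1 : (tup 0 T).card = 1 := by rw [card_tup, pow_zero]
      have h2 := card_filter_le (tup 0 T) fun ρ' =>
        (∀ i, st P (B ^ hl K k₀ (r + 1)) (ρ' i) = st P (B ^ hl K k₀ (r + 1)) (ρ i)) ∧
        st (sm 0 P) (B ^ hl K k₀ r) 0 = st (sm 0 P) (B ^ hl K k₀ r) 0
      rw [h1] at h2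
      exact_mod_cast h2
    refine (sum_nonpos fun ρ hρ => sum_nonpos fun r _ => h0 ρ hρ r).trans ?_
    simp
  -- the costs of the levels `gl v .. gl v + 2`
  have hphb : ∑ v ∈ range (L + 1), ∑ s ∈ T, co P T B (gl K k₀ v) (gl K k₀ v + 2) s ≤
      4 * κ / Real.log L ^ 2 * n := by
    rw [sum_comm]
    exact hLvl.phb
  have hco0 : ∀ g g', g ≤ g' → ∀ s ∈ T, 0 ≤ co P T B g g' s := fun g g' h s hs =>
    (w2 g g' h s hs).2
  -- even steps
  have heven : ∑ v ∈ range (L + 1), ∑ ρ ∈ tup m T, Te (2 * v) ρ ≤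
      4 * κ / Real.log L ^ 2 * m * n ^ m := by
    have h1 : ∀ v ∈ range (L + 1), ∑ ρ ∈ tup m T, Te (2 * v) ρ ≤
        ∑ ρ ∈ tup m T, ∑ i, co P T B (gl K k₀ v) (gl K k₀ v + 2) (ρ i) := by
      intro v _
      refine sum_le_sum fun ρ hρ => ?_
      have h2 := even_step hW hTP hB2 (gl K k₀ v)
        (fun ρ' => st (sm m P) (B ^ gl K k₀ v) (∑ i, ρ' i)) hρ
      simp only [hTe, hl_odd, hl_even]
      exact h2
    refine (sum_le_sum h1).trans ?_
    have h3 : ∀ v, n * ∑ ρ ∈ tup m T, ∑ i, co P T B (gl K k₀ v) (gl K k₀ v + 2) (ρ i) =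
        m * n ^ m * ∑ s ∈ T, co P T B (gl K k₀ v) (gl K k₀ v + 2) s := by
      intro v
      rw [sum_comm, mul_sum]
      rw [sum_congr rfl fun i _ => sum_one T i fun s => co P T B (gl K k₀ v) (gl K k₀ v + 2) s]
      rw [sum_const, card_univ, Fintype.card_fin, nsmul_eq_mul, mul_assoc]
    have h4 : n * ∑ v ∈ range (L + 1), ∑ ρ ∈ tup m T,
        ∑ i, co P T B (gl K k₀ v) (gl K k₀ v + 2) (ρ i) ≤
        n * (4 * κ / Real.log L ^ 2 * m * n ^ m) := by
      rw [mul_sum, sum_congr rfl fun v _ => h3 v, ← mul_sum]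
      calc m * n ^ m * ∑ v ∈ range (L + 1), ∑ s ∈ T, co P T B (gl K k₀ v) (gl K k₀ v + 2) s
          ≤ m * n ^ m * (4 * κ / Real.log L ^ 2 * n) :=
            mul_le_mul_of_nonneg_left hphb (by positivity)
        _ = _ := by ring
    exact le_of_mul_le_mul_left h4 hn
  -- the main terms
  set π : ℕ → ℕ → ℝ := fun v s => pc P T B K k₀ v s with hπ
  have hπ0 : ∀ v s, 0 ≤ π v s ∧ π v s ≤ 1 := fun v s => w3 _ _ s
  have hg2 : ∀ v, gl K k₀ v + 2 ≤ gl K k₀ (v + 1) := fun v => gl_succ hK k₀ v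
  set F : ℕ → ℝ := fun v => ∑ s ∈ T, ∑ s' ∈ T, π v s * Real.log (1 + π v s' / π v s) with hF
  have hf0 : ∀ v s s', 0 ≤ π v s * Real.log (1 + π v s' / π v s) := by
    intro v s s'
    refine mul_nonneg (hπ0 v s).1 (Real.log_nonneg ?_)
    have := div_nonneg (hπ0 v s').1 (hπ0 v s).1
    linarith
  have hmain : ∑ v ∈ range L, F v ≤ 11 * κ * ε * Real.log L * n ^ 2 := by
    refine hL₁ L hLL₁ T π hπ0 ?_ ?_
    · intro v hv
      change ∑ s ∈ T, pa P T B (gl K k₀ v + 2) (gl K k₀ (v + 1)) s ≤ _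
      rw [w5 _ _ (hg2 v)]
      exact hLvl.act v hv
    · have h1 : ∀ v ∈ range L, ∑ s ∈ T, π v s * Real.log (1 / π v s) ≤
          ∑ s ∈ T, co P T B (gl K k₀ v) (gl K k₀ (v + 1)) s := by
        intro v _
        refine (w7 _ _ (hg2 v)).trans (sum_le_sum fun s hs => ?_)
        unfold co
        have h2 := (w1 (gl K k₀ v) s hs).1
        have h3 := (w2 (gl K k₀ v) (gl K k₀ v + 2) (by omega) s hs).1
        have : Real.log (wt P T B (gl K k₀ v) s) ≤ Real.log (wt P T B (gl K k₀ v + 2) s) :=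
          Real.log_le_log (by exact_mod_cast h2) (by exact_mod_cast h3)
        linarith
      refine (sum_le_sum h1).trans ?_
      rw [sum_comm]
      calc ∑ s ∈ T, ∑ v ∈ range L, co P T B (gl K k₀ v) (gl K k₀ (v + 1)) s
          ≤ ∑ s ∈ T, Real.log T.card :=
            sum_le_sum fun s hs => w4 L (gl K k₀) (gl_mono hK k₀) s hs
        _ = n * Real.log T.card := by rw [sum_const, nsmul_eq_mul]
        _ ≤ n * (κ * Real.log L) := mul_le_mul_of_nonneg_left hlogT hn.le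
        _ = _ := by ring
  -- sum of the main terms over the tuples
  set Mv : ℕ → ℝ := fun v => ∑ ρ ∈ tup m T, ∑ i, ∑ j ∈ univ.erase i,
    π v (ρ i) * Real.log (1 + π v (ρ j) / π v (ρ i)) with hMv
  have hMF : ∀ v, n ^ 2 * Mv v ≤ m ^ 2 * n ^ m * F v := by
    intro v
    have h1 : n ^ 2 * Mv v = ∑ i : Fin m, ∑ j ∈ univ.erase i, n ^ m * F v := by
      simp only [hMv]
      rw [sum_comm, mul_sum]
      refine sum_congr rfl fun i _ => ?_
      rw [sum_comm, mul_sum]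
      refine sum_congr rfl fun j hj => ?_
      exact sum_two T (ne_of_mem_erase hj).symm fun s s' =>
        π v s * Real.log (1 + π v s' / π v s)
    rw [h1]
    have hFv : 0 ≤ F v := sum_nonneg fun s _ => sum_nonneg fun s' _ => hf0 v s s'
    calc ∑ i : Fin m, ∑ j ∈ univ.erase i, n ^ m * F v
        ≤ ∑ i : Fin m, ∑ j : Fin m, n ^ m * F v :=
          sum_le_sum fun i _ => sum_le_sum_of_subset_of_nonneg (erase_subset _ _)
            fun _ _ _ => by positivity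
      _ = m ^ 2 * n ^ m * F v := by
          rw [sum_const, sum_const, card_univ, Fintype.card_fin, nsmul_eq_mul, nsmul_eq_mul]
          ring
  have hMsum : ∑ v ∈ range L, Mv v ≤ 11 * κ * ε * Real.log L * m ^ 2 * n ^ m := by
    have h1 : n ^ 2 * ∑ v ∈ range L, Mv v ≤
        n ^ 2 * (11 * κ * ε * Real.log L * m ^ 2 * n ^ m) := by
      rw [mul_sum]
      calc ∑ v ∈ range L, n ^ 2 * Mv v ≤ ∑ v ∈ range L, m ^ 2 * n ^ m * F v :=
            sum_le_sum fun v _ => hMF v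
        _ = m ^ 2 * n ^ m * ∑ v ∈ range L, F v := by rw [mul_sum]
        _ ≤ m ^ 2 * n ^ m * (11 * κ * ε * Real.log L * n ^ 2) :=
            mul_le_mul_of_nonneg_left hmain (by positivity)
        _ = _ := by ring
    exact le_of_mul_le_mul_left h1 (by positivity)
  -- dirty tuples
  set D : ℕ → Finset (Fin m → ℕ) := fun v => (tup m T).filter fun ρ =>
    (∃ i j, i ≠ j ∧ 2 * cls T (st P (B ^ (gl K k₀ v + 2))) (ρ i) ≤
        cls T (st P (B ^ gl K k₀ (v + 1))) (ρ i) ∧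
      2 * cls T (st P (B ^ (gl K k₀ v + 2))) (ρ j) ≤ cls T (st P (B ^ gl K k₀ (v + 1))) (ρ j)) ∨
    ∃ i, 2 * cls T (st P (B ^ (gl K k₀ v + 1))) (ρ i) ≤
      cls T (st P (B ^ (gl K k₀ v + 2))) (ρ i) with hD
  have hDcard : ∀ v ∈ range L, ((D v).card : ℝ) ≤ n ^ m * (m ^ 2 * (L : ℝ) ^ (-2 + 2 * ε) +
      m * (((T.filter fun s => Act P T B (gl K k₀ v + 1) (gl K k₀ v + 2) s).card : ℝ) / n)) := by
    intro v hv
    have hsub : D v ⊆ (univ.biUnion fun i : Fin m => (univ.erase i).biUnion fun j =>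
        (tup m T).filter fun ρ => Ac P T B K k₀ v (ρ i) ∧ Ac P T B K k₀ v (ρ j)) ∪
        (univ.biUnion fun i : Fin m => (tup m T).filter fun ρ =>
          Act P T B (gl K k₀ v + 1) (gl K k₀ v + 2) (ρ i)) := by
      intro ρ hρ
      obtain ⟨h1, h2⟩ := mem_filter.1 hρ
      rcases h2 with ⟨i, j, hij, h3, h4⟩ | ⟨i, h3⟩
      · refine mem_union_left _ (mem_biUnion.2 ⟨i, mem_univ _, mem_biUnion.2
          ⟨j, mem_erase.2 ⟨hij.symm, mem_univ _⟩, mem_filter.2 ⟨h1, h3, h4⟩⟩⟩)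
      · exact mem_union_right _ (mem_biUnion.2 ⟨i, mem_univ _, mem_filter.2 ⟨h1, h3⟩⟩)
    have h1 := (card_le_card hsub).trans (card_union_le _ _)
    have h2 : ((univ.biUnion fun i : Fin m => (univ.erase i).biUnion fun j =>
        (tup m T).filter fun ρ => Ac P T B K k₀ v (ρ i) ∧ Ac P T B K k₀ v (ρ j)).card : ℝ) ≤
        n ^ m * (m ^ 2 * (L : ℝ) ^ (-2 + 2 * ε)) := by
      have h3 : (univ.biUnion fun i : Fin m => (univ.erase i).biUnion fun j =>
          (tup m T).filter fun ρ => Ac P T B K k₀ v (ρ i) ∧ Ac P T B K k₀ v (ρ j)).card ≤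
          ∑ i : Fin m, ∑ j ∈ univ.erase i,
            ((tup m T).filter fun ρ => Ac P T B K k₀ v (ρ i) ∧ Ac P T B K k₀ v (ρ j)).card :=
        card_biUnion_le.trans (sum_le_sum fun i _ => card_biUnion_le)
      have h4 : (((T.filter fun s => Ac P T B K k₀ v s).card : ℝ) / n) ^ 2 ≤
          (L : ℝ) ^ (-2 + 2 * ε) := by
        have h5 := hLvl.act v (mem_range.1 hv)
        have h6 : ((T.filter fun s => Ac P T B K k₀ v s).card : ℝ) / n ≤ (L : ℝ) ^ (-1 + ε) := by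
          rw [div_le_iff₀ hn]
          exact h5
        calc (((T.filter fun s => Ac P T B K k₀ v s).card : ℝ) / n) ^ 2
            ≤ ((L : ℝ) ^ (-1 + ε)) ^ 2 := pow_le_pow_left₀ (by positivity) h6 2
          _ = (L : ℝ) ^ (-2 + 2 * ε) := by
              rw [← Real.rpow_natCast, ← Real.rpow_mul hL0.le]
              congr 1
              push_cast
              ring
      calc ((univ.biUnion fun i : Fin m => (univ.erase i).biUnion fun j =>
          (tup m T).filter fun ρ => Ac P T B K k₀ v (ρ i) ∧ Ac P T B K k₀ v (ρ j)).card : ℝ)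
          ≤ ∑ i : Fin m, ∑ j ∈ univ.erase i, (((tup m T).filter fun ρ =>
            Ac P T B K k₀ v (ρ i) ∧ Ac P T B K k₀ v (ρ j)).card : ℝ) := by exact_mod_cast h3
        _ = ∑ i : Fin m, ∑ j ∈ univ.erase i, n ^ m *
            (((T.filter fun s => Ac P T B K k₀ v s).card : ℝ) / n) ^ 2 :=
            sum_congr rfl fun i _ => sum_congr rfl fun j hj =>
              nb_two T hTne (ne_of_mem_erase hj).symm _
        _ ≤ ∑ i : Fin m, ∑ j : Fin m, n ^ m *
            (((T.filter fun s => Ac P T B K k₀ v s).card : ℝ) / n) ^ 2 :=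
            sum_le_sum fun i _ => sum_le_sum_of_subset_of_nonneg (erase_subset _ _)
              fun _ _ _ => by positivity
        _ = m ^ 2 * (n ^ m * (((T.filter fun s => Ac P T B K k₀ v s).card : ℝ) / n) ^ 2) := by
            rw [sum_const, sum_const, card_univ, Fintype.card_fin, nsmul_eq_mul, nsmul_eq_mul]
            ring
        _ ≤ m ^ 2 * (n ^ m * (L : ℝ) ^ (-2 + 2 * ε)) := by gcongr
        _ = _ := by ring
    have h5 : ((univ.biUnion fun i : Fin m => (tup m T).filter fun ρ =>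
          Act P T B (gl K k₀ v + 1) (gl K k₀ v + 2) (ρ i)).card : ℝ) ≤
        n ^ m * (m * (((T.filter fun s => Act P T B (gl K k₀ v + 1) (gl K k₀ v + 2) s).card : ℝ) /
          n)) := by
      have h6 : (univ.biUnion fun i : Fin m => (tup m T).filter fun ρ =>
          Act P T B (gl K k₀ v + 1) (gl K k₀ v + 2) (ρ i)).card ≤
          ∑ i : Fin m, ((tup m T).filter fun ρ =>
            Act P T B (gl K k₀ v + 1) (gl K k₀ v + 2) (ρ i)).card := card_biUnion_le
      calc ((univ.biUnion fun i : Fin m => (tup m T).filter fun ρ =>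
          Act P T B (gl K k₀ v + 1) (gl K k₀ v + 2) (ρ i)).card : ℝ)
          ≤ ∑ i : Fin m, (((tup m T).filter fun ρ =>
            Act P T B (gl K k₀ v + 1) (gl K k₀ v + 2) (ρ i)).card : ℝ) := by exact_mod_cast h6
        _ = ∑ i : Fin m, n ^ m *
            (((T.filter fun s => Act P T B (gl K k₀ v + 1) (gl K k₀ v + 2) s).card : ℝ) / n) :=
            sum_congr rfl fun i _ => nb_one T hTne i _
        _ = _ := by
            rw [sum_const, card_univ, Fintype.card_fin, nsmul_eq_mul]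
            ring
    have h7 := (Nat.cast_le (α := ℝ)).2 h1
    push_cast at h7
    linarith
  -- the second kind of dirty tuples
  have hb : ∑ v ∈ range L,
      (((T.filter fun s => Act P T B (gl K k₀ v + 1) (gl K k₀ v + 2) s).card : ℝ) / n) ≤
      8 * κ / Real.log L ^ 2 := by
    have h1 : ∀ v, ((T.filter fun s => Act P T B (gl K k₀ v + 1) (gl K k₀ v + 2) s).card : ℝ) *
        Real.log 2 ≤ ∑ s ∈ T, co P T B (gl K k₀ v) (gl K k₀ v + 2) s := by
      intro v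
      rw [← nsmul_eq_mul, ← sum_const]
      refine (sum_le_sum fun s hs => ?_).trans (sum_le_sum_of_subset_of_nonneg
        (filter_subset _ T) fun s hs _ => hco0 _ _ (by omega) s hs)
      obtain ⟨hs1, hs2⟩ := mem_filter.1 hs
      have e1 := (w1 (gl K k₀ v) s hs1).1
      have e2 := (w2 (gl K k₀ v) (gl K k₀ v + 1) (by omega) s hs1).1
      have e3 : 2 * wt P T B (gl K k₀ v + 1) s ≤ wt P T B (gl K k₀ v + 2) s := hs2
      unfold co
      have e4 : Real.log 2 + Real.log (wt P T B (gl K k₀ v) s) ≤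
          Real.log (wt P T B (gl K k₀ v + 2) s) := by
        have e5 : (0 : ℝ) < wt P T B (gl K k₀ v) s := by exact_mod_cast e1
        rw [← Real.log_mul (by norm_num) e5.ne']
        refine Real.log_le_log (by positivity) ?_
        exact_mod_cast (Nat.mul_le_mul_left 2 e2).trans e3
      linarith
    have h2 : (∑ v ∈ range L,
        ((T.filter fun s => Act P T B (gl K k₀ v + 1) (gl K k₀ v + 2) s).card : ℝ)) *
        Real.log 2 ≤ 4 * κ / Real.log L ^ 2 * n := by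
      rw [sum_mul]
      refine (sum_le_sum fun v _ => h1 v).trans (le_trans ?_ hphb)
      exact sum_le_sum_of_subset_of_nonneg (range_mono (Nat.le_succ L))
        fun v _ _ => sum_nonneg fun s hs => hco0 _ _ (by omega) s hs
    have h3 : (1 : ℝ) / 2 ≤ Real.log 2 := by
      have := Real.log_two_gt_d9
      linarith
    have h4 : (0 : ℝ) ≤ ∑ v ∈ range L,
        ((T.filter fun s => Act P T B (gl K k₀ v + 1) (gl K k₀ v + 2) s).card : ℝ) :=
      sum_nonneg fun _ _ => by positivity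
    rw [← sum_div, div_le_iff₀ hn]
    have h5 : 8 * κ / Real.log L ^ 2 * n = 2 * (4 * κ / Real.log L ^ 2 * n) := by ring
    rw [h5]
    nlinarith
  -- odd steps
  have hodd1 : ∀ v ∈ range L, ∑ ρ ∈ tup m T, Te (2 * v + 1) ρ ≤ Mv v +
      (1 + m * Real.log T.card + 2 * Real.log L) * (D v).card +
      2 * Real.log L / (L : ℝ) ^ 2 * n ^ m := by
    intro v _
    have hτ : ∀ g, 1 ≤ B ^ g := fun g => Nat.one_le_pow _ _ (by omega)
    have hfine : ∀ g g', g ≤ g' → ∀ x ∈ T, ∀ y ∈ T, st P (B ^ g) x = st P (B ^ g) y →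
        st P (B ^ g') x = st P (B ^ g') y := by
      intro g g' h x hx y hy hxy
      obtain ⟨-, -, -, -, c5, -⟩ := hC P (B ^ g) (hτ g)
      exact c5 (B ^ g') (Nat.pow_le_pow_right (by omega) h) x (hTP hx) y (hTP hy) hxy
    have h1 := hA T m (st P (B ^ gl K k₀ (v + 1))) (st P (B ^ (gl K k₀ v + 2)))
      (st P (B ^ (gl K k₀ v + 1))) (fun ρ => st (sm m P) (B ^ (gl K k₀ v + 1)) (∑ i, ρ i)) L
      hL3' hTne (hfine _ _ (by omega)) (hfine _ _ (hg2 v)) ?_ ?_ (π v) (fun x => rfl)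
    · simp only [hTe, hl_odd, show 2 * v + 1 + 1 = 2 * (v + 1) by ring, hl_even, sum_sub_distrib]
      simp only [sum_sub_distrib] at h1
      exact h1
    · intro ρ hρ ρ' hρ' h
      obtain ⟨-, -, s3, -⟩ := hS P (B ^ (gl K k₀ v + 1)) m (hτ _)
      exact s3 ρ ρ' (fun i => hTP (Fintype.mem_piFinset.1 hρ i))
        (fun i => hTP (Fintype.mem_piFinset.1 hρ' i)) h
    · intro ρ hρ ρ' hρ' _ hz i hl
      exact sep hC hS hTP hB (gl K k₀ v) hρ hρ' hz i hl
  have hodd : ∑ v ∈ range L, ∑ ρ ∈ tup m T, Te (2 * v + 1) ρ ≤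
      11 * κ * ε * Real.log L * m ^ 2 * n ^ m +
      (1 + m * (κ * Real.log L) + 2 * Real.log L) *
        (n ^ m * (m ^ 2 * (L : ℝ) ^ (-1 + 2 * ε) + m * (8 * κ / Real.log L ^ 2))) +
      L * (2 * Real.log L / (L : ℝ) ^ 2 * n ^ m) := by
    refine (sum_le_sum hodd1).trans ?_
    rw [sum_add_distrib, sum_add_distrib, sum_const, card_range, nsmul_eq_mul, ← mul_sum]
    have h2 : ∑ v ∈ range L, ((D v).card : ℝ) ≤
        n ^ m * (m ^ 2 * (L : ℝ) ^ (-1 + 2 * ε) + m * (8 * κ / Real.log L ^ 2)) := by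
      refine (sum_le_sum hDcard).trans ?_
      rw [← mul_sum, sum_add_distrib, sum_const, card_range, nsmul_eq_mul, ← mul_sum]
      have h3 : (L : ℝ) * (m ^ 2 * (L : ℝ) ^ (-2 + 2 * ε)) = m ^ 2 * (L : ℝ) ^ (-1 + 2 * ε) := by
        have : (L : ℝ) ^ (-1 + 2 * ε) = L * (L : ℝ) ^ (-2 + 2 * ε) := by
          rw [show (-1 + 2 * ε : ℝ) = 1 + (-2 + 2 * ε) by ring, Real.rpow_add hL0,
            Real.rpow_one]
        rw [this]
        ring
      rw [h3]
      gcongr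
    have h4 : (1 + m * Real.log T.card + 2 * Real.log L) ≤
        1 + m * (κ * Real.log L) + 2 * Real.log L := by
      have := mul_le_mul_of_nonneg_left hlogT (Nat.cast_nonneg (α := ℝ) m)
      linarith
    have h5 : 0 ≤ 1 + m * (κ * Real.log L) + 2 * Real.log L := by positivity
    have h6 : (1 + m * Real.log T.card + 2 * Real.log L) * ∑ v ∈ range L, ((D v).card : ℝ) ≤
        (1 + m * (κ * Real.log L) + 2 * Real.log L) *
        (n ^ m * (m ^ 2 * (L : ℝ) ^ (-1 + 2 * ε) + m * (8 * κ / Real.log L ^ 2))) :=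
      mul_le_mul h4 h2 (sum_nonneg fun _ _ => by positivity) h5
    linarith
  -- end
  rw [sum_comm, sum_split]
  have hrem := rem_le hκ hε hε' hmpos hL3 (by
    rw [hc] at hLc
    exact hLc)
  have h7 := mul_le_mul_of_nonneg_right hrem (show 0 ≤ n ^ m by positivity)
  calc ∑ v ∈ range (L + 1), ∑ ρ ∈ tup m T, Te (2 * v) ρ +
        ∑ v ∈ range L, ∑ ρ ∈ tup m T, Te (2 * v + 1) ρ
      ≤ _ := add_le_add heven hodd
    _ = (4 * κ / Real.log L ^ 2 * m + (1 + m * (κ * Real.log L) + 2 * Real.log L) *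
      (m ^ 2 * (L : ℝ) ^ (-1 + 2 * ε) + m * (8 * κ / Real.log L ^ 2)) +
      L * (2 * Real.log L / (L : ℝ) ^ 2)) * n ^ m + 11 * κ * ε * Real.log L * m ^ 2 * n ^ m := by
        ring
    _ ≤ m ^ 2 * κ * ε * Real.log L * n ^ m + 11 * κ * ε * Real.log L * m ^ 2 * n ^ m := by
        linarith
    _ = _ := by ring

end Pool.Agent.Lib.MP5b6025.EP
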