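import Pool.Agent.Lib.MP_5b6025_nt.EP.Spec

/-!
# EP: module BRN (branching transitions of a sum are few)
-/

set_option autoImplicit false

namespace Pool.Agent.Lib.MP5b6025.EP.BRNM

open Finset

theorem gl_mono {K k₀ : ℕ} (hK : 10 ≤ K) : Monotone (gl K k₀) := by
  apply monotone_nat_of_le_succ
  intro v
  unfold gl
  rw [if_neg (Nat.succ_ne_zero v)]
  split_ifs with h
  · subst h
    omega
  · have : v * K ≤ (v + 1) * K := Nat.mul_le_mul_right _ (Nat.le_succ v)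
    omega

theorem gl_succ_le {K k₀ : ℕ} (hK : 10 ≤ K) (v : ℕ) : gl K k₀ (v + 1) + 1 ≤ gl K k₀ (v + 2) := by
  unfold gl
  rw [if_neg (Nat.succ_ne_zero v), if_neg (by omega)]
  have : (v + 2) * K = (v + 1) * K + K := by ring
  omega

theorem gl_two_le {K k₀ : ℕ} (hK : 10 ≤ K) (v : ℕ) : gl K k₀ v + 2 ≤ gl K k₀ (v + 1) := by
  unfold gl
  rw [if_neg (Nat.succ_ne_zero v)]
  split_ifs with h
  · subst h
    omega
  · have : (v + 1) * K = v * K + K := by ring
    omega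

/-- each step is counted at most twice -/
theorem twice {K k₀ : ℕ} (hK : 10 ≤ K) {f : ℕ → ℝ} (hf : Monotone f) {M : ℝ}
    (h0 : ∀ g, 0 ≤ f g) (hM : ∀ g, f g ≤ M) (L : ℕ) :
    ∑ v ∈ range L, (f (gl K k₀ (v + 1) + 1) - f (gl K k₀ v)) ≤ 2 * M := by
  have h1 : ∀ v ∈ range L, f (gl K k₀ (v + 1) + 1) - f (gl K k₀ v) ≤
      (f (gl K k₀ (v + 1)) - f (gl K k₀ v)) + (f (gl K k₀ (v + 1 + 1)) - f (gl K k₀ (v + 1))) := by
    intro v _
    have h2 : f (gl K k₀ (v + 1) + 1) ≤ f (gl K k₀ (v + 1 + 1)) := hf (gl_succ_le hK v)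
    linarith
  refine (sum_le_sum h1).trans ?_
  rw [sum_add_distrib, sum_range_sub (fun v => f (gl K k₀ v)),
    sum_range_sub (fun v => f (gl K k₀ (v + 1)))]
  have h2 := h0 (gl K k₀ 0)
  have h3 := h0 (gl K k₀ (0 + 1))
  have h4 := hM (gl K k₀ L)
  have h5 := hM (gl K k₀ (L + 1))
  linarith

theorem wz_mono (hCMP : SpecCMP) (hSUM : SpecSUM) {P T : Finset ℕ} {B m : ℕ} (hTP : T ⊆ P)
    (hB : 2 ≤ B) {Y : Fin m → ℕ} (hY : Y ∈ tup m T) {g g' : ℕ} (hg : g ≤ g') :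
    wz P T B g Y ≤ wz P T B g' Y := by
  unfold wz
  apply card_le_card
  intro ρ' hρ'
  rw [mem_filter] at hρ' ⊢
  refine ⟨hρ'.1, ?_⟩
  have hmem : ∀ ρ ∈ tup m T, ∑ i, ρ i ∈ sm m P := by
    intro ρ hρ
    unfold tup at hρ
    rw [Fintype.mem_piFinset] at hρ
    exact ((hSUM P 1 m le_rfl).1 ρ ∅ (fun i => hTP (hρ i))).1
  have h1 : 1 ≤ B ^ g := Nat.one_le_pow _ _ (by omega)
  exact (hCMP (sm m P) (B ^ g) h1).2.2.2.2.1 (B ^ g') (Nat.pow_le_pow_right (by omega) hg)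
    _ (hmem _ hρ'.1) _ (hmem _ hY) hρ'.2

theorem wz_pos {P T : Finset ℕ} {B m : ℕ} {Y : Fin m → ℕ} (hY : Y ∈ tup m T) (g : ℕ) :
    1 ≤ wz P T B g Y := by
  unfold wz
  exact card_pos.mpr ⟨Y, mem_filter.mpr ⟨hY, rfl⟩⟩

theorem wz_le {P T : Finset ℕ} {B m : ℕ} {Y : Fin m → ℕ} (g : ℕ) :
    wz P T B g Y ≤ T.card ^ m := by
  unfold wz
  refine (card_filter_le _ _).trans ?_
  unfold tup
  rw [Fintype.card_piFinset, prod_const, card_univ, Fintype.card_fin]

end Pool.Agent.Lib.MP5b6025.EP.BRNM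

namespace Pool.Agent.Lib.MP5b6025.EP

open Finset BRNM

theorem specBRN (hCMP : SpecCMP) (hSUM : SpecSUM) : SpecBRN := by
  intro P T B K k₀ L m κ y Y hy hB hK hL hTP hκ hY
  have hL0 : (0 : ℝ) < L := by
    have : (3 : ℝ) ≤ L := by exact_mod_cast hL
    linarith
  set q : ℝ := (L : ℝ) ^ (-(2 * y)) with hq
  have hq0 : 0 < q := Real.rpow_pos_of_pos hL0 _
  set f : ℕ → ℝ := fun g => Real.log (wz P T B g Y) with hf
  have hfm : Monotone f := by
    intro g g' hg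
    apply Real.log_le_log
    · exact_mod_cast wz_pos hY g
    · exact_mod_cast wz_mono hCMP hSUM hTP hB hY hg
  have hf0 : ∀ g, 0 ≤ f g := by
    intro g
    apply Real.log_nonneg
    exact_mod_cast wz_pos hY g
  have hfM : ∀ g, f g ≤ m * Real.log T.card := by
    intro g
    rw [← Real.log_pow]
    apply Real.log_le_log
    · exact_mod_cast wz_pos hY g
    · exact_mod_cast wz_le g
  have htw := twice (k₀ := k₀) hK hfm hf0 hfM L
  have hterm : ∀ v ∈ Br P T B K k₀ L y Y, q ≤ f (gl K k₀ (v + 1) + 1) - f (gl K k₀ v) := by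
    intro v hv
    unfold Br at hv
    rw [mem_filter] at hv
    have h1 := hv.2
    have h2 : (0 : ℝ) < wz P T B (gl K k₀ v) Y := by exact_mod_cast wz_pos hY _
    have h3 : (0 : ℝ) < wz P T B (gl K k₀ (v + 1) + 1) Y := by exact_mod_cast wz_pos hY _
    have h4 : 0 < 1 - q := by
      by_contra hn
      push Not at hn
      have := mul_nonpos_of_nonpos_of_nonneg hn h3.le
      linarith
    have h5 : f (gl K k₀ v) ≤ Real.log (1 - q) + f (gl K k₀ (v + 1) + 1) := by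
      simp only [hf]
      rw [← Real.log_mul h4.ne' h3.ne']
      exact Real.log_le_log h2 h1
    have h6 := Real.log_le_sub_one_of_pos h4
    linarith
  have hsub : Br P T B K k₀ L y Y ⊆ range L := by
    unfold Br
    exact filter_subset _ _
  have h1 : ((Br P T B K k₀ L y Y).card : ℝ) * q ≤ 2 * (m * Real.log T.card) := by
    calc ((Br P T B K k₀ L y Y).card : ℝ) * q = ∑ _v ∈ Br P T B K k₀ L y Y, q := by
          rw [sum_const, nsmul_eq_mul]
      _ ≤ ∑ v ∈ Br P T B K k₀ L y Y, (f (gl K k₀ (v + 1) + 1) - f (gl K k₀ v)) :=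
          sum_le_sum hterm
      _ ≤ ∑ v ∈ range L, (f (gl K k₀ (v + 1) + 1) - f (gl K k₀ v)) := by
          apply sum_le_sum_of_subset_of_nonneg hsub
          intro v _ _
          rw [sub_nonneg]
          apply hfm
          have := gl_two_le (k₀ := k₀) hK v
          omega
      _ ≤ _ := htw
  have h2 : (L : ℝ) ^ (2 * y) * q = 1 := by
    rw [hq, ← Real.rpow_add hL0]
    norm_num
  have h3 : 0 < (L : ℝ) ^ (2 * y) := Real.rpow_pos_of_pos hL0 _
  have h4 : (m : ℝ) * Real.log T.card ≤ m * (κ * Real.log L) :=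
    mul_le_mul_of_nonneg_left hκ (Nat.cast_nonneg m)
  calc ((Br P T B K k₀ L y Y).card : ℝ)
      = ((Br P T B K k₀ L y Y).card : ℝ) * ((L : ℝ) ^ (2 * y) * q) := by rw [h2, mul_one]
    _ = (L : ℝ) ^ (2 * y) * (((Br P T B K k₀ L y Y).card : ℝ) * q) := by ring
    _ ≤ (L : ℝ) ^ (2 * y) * (2 * (m * (κ * Real.log L))) := by
        apply mul_le_mul_of_nonneg_left _ h3.le
        linarith
    _ = _ := by ring

end Pool.Agent.Lib.MP5b6025.EP
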