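import Pool.Agent.Lib.MP_5b6025_nt.EP.Spec

/-!
# MP_5b6025_nt, every power of `log N`: module CMP (chain components)
-/

set_option autoImplicit false

namespace Pool.Agent.Lib.MP5b6025.EP.CMPM

lemma st_le (V : Finset ℕ) (τ x : ℕ) : st V τ x ≤ x := by
  unfold st
  apply Finset.sup_le
  intro w hw
  exact (Finset.mem_filter.1 hw).2

lemma le_st {V : Finset ℕ} {τ x w : ℕ} (hw : w ∈ Sta V τ) (hx : w ≤ x) : w ≤ st V τ x := by
  unfold st
  exact Finset.le_sup (f := id) (Finset.mem_filter.2 ⟨hw, hx⟩)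

lemma st_mono (V : Finset ℕ) (τ : ℕ) {x y : ℕ} (h : x ≤ y) : st V τ x ≤ st V τ y := by
  unfold st
  apply Finset.sup_mono
  intro w hw
  rw [Finset.mem_filter] at hw ⊢
  exact ⟨hw.1, hw.2.trans h⟩

lemma st_mem {V : Finset ℕ} {τ x : ℕ} (hx : x ∈ V) : st V τ x ∈ Sta V τ := by
  have hne : ((Sta V τ).filter (· ≤ x)).Nonempty := by
    refine ⟨V.min' ⟨x, hx⟩, ?_⟩
    rw [Finset.mem_filter]
    refine ⟨?_, Finset.min'_le _ _ hx⟩
    unfold Sta
    rw [Finset.mem_filter]
    refine ⟨Finset.min'_mem _ _, ?_⟩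
    intro u hu hlt
    exact absurd (Finset.min'_le V u hu) (by omega)
  obtain ⟨w, hw, hw'⟩ := Finset.exists_mem_eq_sup _ hne id
  unfold st
  rw [hw']
  exact (Finset.mem_filter.1 hw).1

lemma sta_mem {V : Finset ℕ} {τ x : ℕ} (hx : x ∈ Sta V τ) : x ∈ V := (Finset.mem_filter.1 hx).1

lemma sta_le {V : Finset ℕ} {τ x u : ℕ} (hx : x ∈ Sta V τ) (hu : u ∈ V) (h : u < x) :
    u + τ ≤ x := (Finset.mem_filter.1 hx).2 u hu h

/-- if `x ≤ y` are in different components then there is a start in `(x, y]` -/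
lemma exists_start {V : Finset ℕ} {τ x y : ℕ} (hy : y ∈ V) (hxy : x ≤ y)
    (h : st V τ x ≠ st V τ y) : ∃ w ∈ Sta V τ, x < w ∧ w ≤ y := by
  refine ⟨st V τ y, st_mem hy, ?_, st_le _ _ _⟩
  by_contra hlt
  have h1 : st V τ y ≤ st V τ x := le_st (st_mem hy) (by omega)
  have h2 := st_mono V τ hxy
  omega

/-- no start in `(x, y]` -/
lemma no_start {V : Finset ℕ} {τ x y w : ℕ} (h : st V τ x = st V τ y) (hw : w ∈ Sta V τ)
    (hx : x < w) (hy : w ≤ y) : False := by
  have h1 := le_st hw hy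
  have h2 := st_le V τ x
  omega

lemma chain {V : Finset ℕ} {τ y : ℕ} :
    ∀ x, x ∈ V → y < x → (∀ w ∈ Sta V τ, w ≤ x → w ≤ y) →
      x < y + (V.filter fun v => y < v ∧ v ≤ x).card * τ := by
  intro x
  induction x using Nat.strong_induction_on with
  | _ x ih =>
    intro hx hyx hno
    have hxs : x ∉ Sta V τ := fun h => by
      have := hno x h le_rfl
      omega
    have hu : ∃ u ∈ V, u < x ∧ x < u + τ := by
      by_contra hcon
      push Not at hcon
      apply hxs
      unfold Sta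
      rw [Finset.mem_filter]
      exact ⟨hx, fun u hu hlt => hcon u hu hlt⟩
    obtain ⟨u, hu, hux, hxu⟩ := hu
    have hmem : x ∈ V.filter fun v => y < v ∧ v ≤ x := by
      rw [Finset.mem_filter]
      exact ⟨hx, hyx, le_rfl⟩
    by_cases huy : u ≤ y
    · have h1 : 1 ≤ (V.filter fun v => y < v ∧ v ≤ x).card := Finset.card_pos.2 ⟨x, hmem⟩
      have h2 : 1 * τ ≤ (V.filter fun v => y < v ∧ v ≤ x).card * τ := Nat.mul_le_mul_right _ h1
      omega
    · have h1 := ih u hux hu (by omega) fun w hw hwu => hno w hw (by omega)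
      have h2 : (V.filter fun v => y < v ∧ v ≤ u).card + 1 ≤
          (V.filter fun v => y < v ∧ v ≤ x).card := by
        have h3 : insert x (V.filter fun v => y < v ∧ v ≤ u) ⊆
            V.filter fun v => y < v ∧ v ≤ x := by
          intro a ha
          rw [Finset.mem_insert] at ha
          rcases ha with rfl | ha
          · exact hmem
          · rw [Finset.mem_filter] at ha ⊢
            exact ⟨ha.1, ha.2.1, by omega⟩
        have h4 := Finset.card_le_card h3
        rw [Finset.card_insert_of_notMem (by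
          rw [Finset.mem_filter]
          rintro ⟨_, _, h⟩
          omega)] at h4
        exact h4
      have h5 := Nat.mul_le_mul_right τ h2
      rw [Nat.add_mul] at h5
      omega

lemma shift_aux {V V' : Finset ℕ} {τ c x y : ℕ} (hV : ∀ v ∈ V, v + c ∈ V') (hy : y ∈ V)
    (hxy : x ≤ y) (h : st V τ x = st V τ y) : st V' τ (x + c) = st V' τ (y + c) := by
  by_contra hne
  obtain ⟨w, hw, hxw, hwy⟩ := exists_start (hV y hy) (by omega) hne
  have hne : (V.filter fun u => w ≤ u + c).Nonempty := ⟨y, Finset.mem_filter.2 ⟨hy, hwy⟩⟩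
  set u' := (V.filter fun u => w ≤ u + c).min' hne with hu'
  have hu'm := Finset.min'_mem _ hne
  rw [← hu', Finset.mem_filter] at hu'm
  have hu'y : u' ≤ y := Finset.min'_le _ _ (Finset.mem_filter.2 ⟨hy, hwy⟩)
  refine no_start (w := u') h ?_ (by omega) hu'y
  unfold Sta
  rw [Finset.mem_filter]
  refine ⟨hu'm.1, fun u hu hlt => ?_⟩
  have h1 : ¬ w ≤ u + c := fun h1 => by
    have h3 : u ∈ V.filter fun u => w ≤ u + c := Finset.mem_filter.2 ⟨hu, h1⟩
    have := Finset.min'_le _ _ h3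
    rw [← hu'] at this
    omega
  have h2 := sta_le hw (hV u hu) (by omega)
  omega

lemma shift {V V' : Finset ℕ} {τ c x y : ℕ} (hV : ∀ v ∈ V, v + c ∈ V') (hx : x ∈ V) (hy : y ∈ V)
    (h : st V τ x = st V τ y) : st V' τ (x + c) = st V' τ (y + c) := by
  rcases le_total x y with hxy | hxy
  · exact shift_aux hV hy hxy h
  · exact (shift_aux hV hx hxy h.symm).symm

lemma coarse_aux {V : Finset ℕ} {τ τ' x y : ℕ} (hτ : τ ≤ τ') (hy : y ∈ V)
    (hxy : x ≤ y) (h : st V τ x = st V τ y) : st V τ' x = st V τ' y := by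
  by_contra hne
  obtain ⟨w, hw, hxw, hwy⟩ := exists_start hy hxy hne
  refine no_start (w := w) h ?_ hxw hwy
  unfold Sta
  rw [Finset.mem_filter]
  refine ⟨sta_mem hw, fun u hu hlt => ?_⟩
  have := sta_le hw hu hlt
  omega

end Pool.Agent.Lib.MP5b6025.EP.CMPM

namespace Pool.Agent.Lib.MP5b6025.EP

open CMPM

theorem specCMP : SpecCMP := by
  intro V τ hτ
  refine ⟨fun x hx => ⟨st_mem hx, st_le _ _ _⟩, ?_, ?_, ?_, ?_, ?_, fun x y h => st_mono V τ h⟩
  · intro x hx y hy hxy hne
    obtain ⟨w, hw, hxw, hwy⟩ := exists_start hy hxy hne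
    have := sta_le hw hx hxw
    omega
  · intro x hx y hy h
    have hc : 1 ≤ V.card := Finset.card_pos.2 ⟨x, hx⟩
    have h1 : 1 * 1 ≤ V.card * τ := Nat.mul_le_mul hc hτ
    rcases le_or_gt x y with hxy | hxy
    · omega
    · have h2 := chain (τ := τ) x hx hxy fun w hw hwx => by
        by_contra hlt
        exact no_start (x := y) (y := x) h.symm hw (by omega) hwx
      have h3 : (V.filter fun v => y < v ∧ v ≤ x).card * τ ≤ V.card * τ :=
        Nat.mul_le_mul_right _ (Finset.card_filter_le _ _)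
      omega
  · intro x hx
    exact le_antisymm (st_le _ _ _) (le_st hx le_rfl)
  · intro τ' hττ' x hx y hy h
    rcases le_total x y with hxy | hxy
    · exact coarse_aux hττ' hy hxy h
    · exact (coarse_aux hττ' hx hxy h.symm).symm
  · intro V' c hV x hx y hy h
    exact shift hV hx hy h

end Pool.Agent.Lib.MP5b6025.EP
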