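import Pool.Agent.Lib.MP_5b6025_nt.EP.Spec

/-!
# MP_5b6025_nt, row 162: module CNS (helper73)

Structure of typical tuples.
-/

set_option autoImplicit false

namespace Pool.Agent.Lib.MP5b6025.EP.CNSM

open Finset

/-! ### Coarse levels -/

lemma gl_step {K : ℕ} (k₀ : ℕ) (hK : 10 ≤ K) (v : ℕ) : gl K k₀ v + 7 ≤ gl K k₀ (v + 1) := by
  unfold gl
  rcases Nat.eq_zero_or_pos v with h | h
  · subst h
    simp
    omega
  · rw [if_neg (by omega), if_neg (by omega)]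
    have : (v + 1) * K = v * K + K := by ring
    omega

lemma gl_mono {K : ℕ} (k₀ : ℕ) (hK : 10 ≤ K) : Monotone (gl K k₀) :=
  monotone_nat_of_le_succ fun v => by
    have := gl_step k₀ hK v
    omega

lemma gl_ge {K : ℕ} (k₀ : ℕ) (hK : 10 ≤ K) (v : ℕ) : 3 ≤ gl K k₀ v := by
  have h := gl_mono k₀ hK (Nat.zero_le v)
  simpa [gl] using h

lemma gl_top {K : ℕ} (k₀ : ℕ) (hK : 10 ≤ K) (v : ℕ) : v ≤ gl K k₀ v := by
  induction v with
  | zero => omega
  | succ v ih =>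
    have := gl_step k₀ hK v
    omega

lemma hl_even (K k₀ v : ℕ) : hl K k₀ (2 * v) = gl K k₀ v := by
  unfold hl
  rw [Nat.mul_div_cancel_left v (by norm_num), Nat.mul_mod_right, Nat.add_zero]

lemma hl_odd (K k₀ v : ℕ) : hl K k₀ (2 * v + 1) = gl K k₀ v + 1 := by
  unfold hl
  have h1 : (2 * v + 1) / 2 = v := by omega
  have h2 : (2 * v + 1) % 2 = 1 := by omega
  rw [h1, h2]

/-! ### Distances -/

lemma near (hc : SpecCMP) {V : Finset ℕ} {τ : ℕ} (hτ : 1 ≤ τ) {x y : ℕ} (hx : x ∈ V) (hy : y ∈ V)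
    (h : st V τ x = st V τ y) : |(x : ℤ) - y| < (V.card : ℤ) * τ := by
  have h3 := (hc V τ hτ).2.2.1
  have a1 := h3 x hx y hy h
  have a2 := h3 y hy x hx h.symm
  rw [abs_lt]
  have b1 : (x : ℤ) < y + (V.card : ℤ) * τ := by exact_mod_cast a1
  have b2 : (y : ℤ) < x + (V.card : ℤ) * τ := by exact_mod_cast a2
  constructor <;> linarith

lemma far (hc : SpecCMP) {V : Finset ℕ} {τ : ℕ} (hτ : 1 ≤ τ) {x y : ℕ} (hx : x ∈ V) (hy : y ∈ V)
    (h : st V τ x ≠ st V τ y) : (τ : ℤ) ≤ |(x : ℤ) - y| := by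
  have h2 := (hc V τ hτ).2.1
  rcases le_total x y with hxy | hxy
  · have a := h2 x hx y hy hxy h
    have b : (x : ℤ) + τ ≤ y := by exact_mod_cast a
    rw [abs_sub_comm]
    exact le_trans (by linarith) (le_abs_self _)
  · have a := h2 y hy x hx hxy (Ne.symm h)
    have b : (y : ℤ) + τ ≤ x := by exact_mod_cast a
    exact le_trans (by linarith) (le_abs_self _)

lemma up (hc : SpecCMP) {V : Finset ℕ} {B g g' : ℕ} (hB : 1 ≤ B) (hg : g ≤ g') {x y : ℕ}
    (hx : x ∈ V) (hy : y ∈ V) (h : st V (B ^ g) x = st V (B ^ g) y) :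
    st V (B ^ g') x = st V (B ^ g') y :=
  (hc V (B ^ g) (Nat.one_le_pow _ _ hB)).2.2.2.2.1 (B ^ g') (Nat.pow_le_pow_right hB hg) x hx y hy h

/-! ### Weights -/

section
variable {P T : Finset ℕ} {B : ℕ}

lemma wt_congr {g s s' : ℕ} (h : st P (B ^ g) s = st P (B ^ g) s') :
    wt P T B g s = wt P T B g s' := by
  unfold wt
  rw [h]

lemma pa_congr {g g' s s' : ℕ} (h : st P (B ^ g') s = st P (B ^ g') s') :
    pa P T B g g' s = pa P T B g g' s' := by
  unfold pa wt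
  rw [h]

/-- Two leaves in the same node of level `g'` whose nodes of level `g` contain more than half of the
leaves are in the same node of level `g`. -/
lemma maj (hc : SpecCMP) (hTP : T ⊆ P) (hB : 1 ≤ B) {g g' : ℕ} (hg : g ≤ g') {s s' : ℕ}
    (hs : s ∈ T) (hs' : s' ∈ T) (h : st P (B ^ g') s = st P (B ^ g') s')
    (h1 : wt P T B g' s < 2 * wt P T B g s) (h2 : wt P T B g' s' < 2 * wt P T B g s') :
    st P (B ^ g) s = st P (B ^ g) s' := by
  by_contra hne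
  have hd : Disjoint (T.filter fun x => st P (B ^ g) x = st P (B ^ g) s)
      (T.filter fun x => st P (B ^ g) x = st P (B ^ g) s') := by
    rw [Finset.disjoint_left]
    intro x hx hx'
    rw [Finset.mem_filter] at hx hx'
    exact hne (hx.2.symm.trans hx'.2)
  have hsub : (T.filter fun x => st P (B ^ g) x = st P (B ^ g) s) ∪
      (T.filter fun x => st P (B ^ g) x = st P (B ^ g) s') ⊆
      T.filter fun x => st P (B ^ g') x = st P (B ^ g') s := by
    intro x hx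
    rw [Finset.mem_union, Finset.mem_filter, Finset.mem_filter] at hx
    rw [Finset.mem_filter]
    rcases hx with hx | hx
    · exact ⟨hx.1, up hc hB hg (hTP hx.1) (hTP hs) hx.2⟩
    · exact ⟨hx.1, (up hc hB hg (hTP hx.1) (hTP hs') hx.2).trans h.symm⟩
  have hcard := Finset.card_le_card hsub
  rw [Finset.card_union_of_disjoint hd] at hcard
  have e1 : wt P T B g' s = wt P T B g' s' := wt_congr h
  unfold wt at h1 h2 e1
  omega

lemma wt_pos (hw : SpecWT) (hTP : T ⊆ P) (hB : 2 ≤ B) {g s : ℕ} (hs : s ∈ T) :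
    1 ≤ wt P T B g s := ((hw P T B hTP hB).1 g s hs).1

lemma wt_posR (hw : SpecWT) (hTP : T ⊆ P) (hB : 2 ≤ B) {g s : ℕ} (hs : s ∈ T) :
    (0 : ℝ) < wt P T B g s := by
  have := wt_pos (g := g) hw hTP hB hs
  exact_mod_cast this

lemma wt_le (hw : SpecWT) (hTP : T ⊆ P) (hB : 2 ≤ B) {g g' s : ℕ} (hg : g ≤ g') (hs : s ∈ T) :
    wt P T B g s ≤ wt P T B g' s := ((hw P T B hTP hB).2.1 g g' hg s hs).1

lemma co_nn (hw : SpecWT) (hTP : T ⊆ P) (hB : 2 ≤ B) {g g' s : ℕ} (hg : g ≤ g') (hs : s ∈ T) :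
    0 ≤ co P T B g g' s := ((hw P T B hTP hB).2.1 g g' hg s hs).2

lemma log_two_lt : Real.log 2 < 0.7 := by
  have := Real.log_two_lt_d9
  linarith

/-- `co g g' s < log 2` if the node of level `g` contains more than half. -/
lemma co_lt (hw : SpecWT) (hTP : T ⊆ P) (hB : 2 ≤ B) {g g' s : ℕ} (hs : s ∈ T)
    (h : wt P T B g' s < 2 * wt P T B g s) : co P T B g g' s < Real.log 2 := by
  unfold co
  have p1 := wt_posR (g := g) hw hTP hB hs
  have p2 := wt_posR (g := g') hw hTP hB hs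
  have h' : (wt P T B g' s : ℝ) < 2 * wt P T B g s := by exact_mod_cast h
  have := Real.log_lt_log p2 h'
  rw [Real.log_mul (by norm_num) p1.ne'] at this
  linarith

lemma co_add (g g' g'' s : ℕ) : co P T B g g'' s = co P T B g g' s + co P T B g' g'' s := by
  unfold co
  ring

end

/-! ### Leaves satisfying t0 -/

section
variable {P T : Finset ℕ} {B K k₀ L : ℕ}

lemma t0_co (hw : SpecWT) (hTP : T ⊆ P) (hB : 2 ≤ B) {s v : ℕ} (hs : s ∈ T)
    (h0 : ∑ v ∈ Finset.range (L + 1), co P T B (gl K k₀ v) (gl K k₀ v + 2) s ≤ 1 / 2)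
    (hv : v ≤ L) : co P T B (gl K k₀ v) (gl K k₀ v + 2) s ≤ 1 / 2 := by
  refine le_trans ?_ h0
  exact Finset.single_le_sum (f := fun v => co P T B (gl K k₀ v) (gl K k₀ v + 2) s)
    (fun v _ => co_nn hw hTP hB (by omega) hs) (Finset.mem_range.2 (by omega))

lemma t0_wt (hw : SpecWT) (hTP : T ⊆ P) (hB : 2 ≤ B) {s v : ℕ} (hs : s ∈ T)
    (h0 : ∑ v ∈ Finset.range (L + 1), co P T B (gl K k₀ v) (gl K k₀ v + 2) s ≤ 1 / 2)
    (hv : v ≤ L) : wt P T B (gl K k₀ v + 2) s < 2 * wt P T B (gl K k₀ v) s := by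
  have h := t0_co hw hTP hB hs h0 hv
  by_contra hlt
  push Not at hlt
  have p1 := wt_posR (g := gl K k₀ v) hw hTP hB hs
  have h' : 2 * (wt P T B (gl K k₀ v) s : ℝ) ≤ wt P T B (gl K k₀ v + 2) s := by exact_mod_cast hlt
  have h2 := Real.log_le_log (by positivity) h'
  rw [Real.log_mul (by norm_num) p1.ne'] at h2
  unfold co at h
  have := Real.log_two_gt_d9
  linarith

/-- Same node at level `gl v + 2` implies same node at level `gl v`. -/
lemma t0_node (hc : SpecCMP) (hw : SpecWT) (hTP : T ⊆ P) (hB : 2 ≤ B) {s s' v : ℕ} (hs : s ∈ T)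
    (hs' : s' ∈ T)
    (h0 : ∑ v ∈ Finset.range (L + 1), co P T B (gl K k₀ v) (gl K k₀ v + 2) s ≤ 1 / 2)
    (h0' : ∑ v ∈ Finset.range (L + 1), co P T B (gl K k₀ v) (gl K k₀ v + 2) s' ≤ 1 / 2)
    (hv : v ≤ L) (h : st P (B ^ (gl K k₀ v + 2)) s = st P (B ^ (gl K k₀ v + 2)) s') :
    st P (B ^ gl K k₀ v) s = st P (B ^ gl K k₀ v) s' :=
  maj hc hTP (by omega) (by omega) hs hs' h (t0_wt hw hTP hB hs h0 hv)
    (t0_wt hw hTP hB hs' h0' hv)

/-- (0): a nonactive leaf has small cost. -/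
lemma cc_lt (hw : SpecWT) (hTP : T ⊆ P) (hB : 2 ≤ B) {s v : ℕ} (hs : s ∈ T)
    (h0 : ∑ v ∈ Finset.range (L + 1), co P T B (gl K k₀ v) (gl K k₀ v + 2) s ≤ 1 / 2)
    (hv : v ≤ L) (hna : ¬ Ac P T B K k₀ v s) : cc P T B K k₀ v s < 3 / 2 := by
  unfold cc
  rw [co_add _ (gl K k₀ v + 2)]
  have h1 := t0_co hw hTP hB hs h0 hv
  unfold Ac Act at hna
  push Not at hna
  have h2 := co_lt hw hTP hB hs hna
  have h3 := log_two_lt
  linarith

/-- Different nodes at level `gl v`, same node at level `gl (v + 1)`: one is active. -/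
lemma sep_act (hc : SpecCMP) (hTP : T ⊆ P) (hB : 2 ≤ B) (hK : 10 ≤ K)
    {s s' v : ℕ} (hs : s ∈ T) (hs' : s' ∈ T)
    (h : st P (B ^ gl K k₀ (v + 1)) s = st P (B ^ gl K k₀ (v + 1)) s')
    (hne : st P (B ^ (gl K k₀ v + 2)) s ≠ st P (B ^ (gl K k₀ v + 2)) s') :
    Ac P T B K k₀ v s ∨ Ac P T B K k₀ v s' := by
  by_contra hcon
  push Not at hcon
  obtain ⟨h1, h2⟩ := hcon
  unfold Ac Act at h1 h2
  push Not at h1 h2
  have hstep := gl_step k₀ hK v
  exact hne (maj hc hTP (by omega) (by omega) hs hs' h h1 h2)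

/-- An active leaf in a node with few active leaves has high cost. -/
lemma big_cc (hw : SpecWT) (hTP : T ⊆ P) (hB : 2 ≤ B) (hK : 10 ≤ K) (hL : 1 ≤ L)
    {s v : ℕ} (hs : s ∈ T) (ha : Ac P T B K k₀ v s) {a : ℝ}
    (hpc : pc P T B K k₀ v s < (L : ℝ) ^ (-1 + a)) :
    (1 - a) * Real.log L < cc P T B K k₀ v s := by
  have hstep := gl_step k₀ hK v
  have h6 := (hw P T B hTP hB).2.2.2.2.2.1 (gl K k₀ v + 2) (gl K k₀ (v + 1)) (by omega) s hs ha
  unfold pc at hpc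
  unfold cc
  rw [co_add _ (gl K k₀ v + 2)]
  have hnn := co_nn (g := gl K k₀ v) (g' := gl K k₀ v + 2) hw hTP hB (by omega) hs
  have hL' : (0 : ℝ) < L := by exact_mod_cast hL
  have hlog := Real.log_lt_log h6.1 hpc
  rw [Real.log_rpow hL'] at hlog
  have h7 := h6.2
  rw [one_div, Real.log_inv] at h7
  linarith

end

/-! ### The variable `star` -/

lemma star_bound {P T : Finset ℕ} {B K k₀ L m : ℕ} (ρ : Fin m → ℕ) {a c : ℕ} (hac : a ≤ c)
    (hc : c ≤ 2 * L + 1) :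
    |cz P T B (hl K k₀ a) (hl K k₀ c) ρ - ∑ i, co P T B (hl K k₀ a) (hl K k₀ c) (ρ i)| ≤
      star P T B K k₀ L ρ := by
  set F : ℕ → ℝ := fun r => Real.log (wz P T B (hl K k₀ r) ρ) -
    ∑ i, Real.log (wt P T B (hl K k₀ r) (ρ i)) with hF
  have hkey : ∀ r r', cz P T B (hl K k₀ r) (hl K k₀ r') ρ -
      ∑ i, co P T B (hl K k₀ r) (hl K k₀ r') (ρ i) = F r' - F r := by
    intro r r'
    simp only [hF, cz, co, Finset.sum_sub_distrib]
    ring
  rw [hkey]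
  have h1 : |F c - F a| ≤ ∑ r ∈ Finset.Ico a c, |F (r + 1) - F r| := by
    have := dist_le_Ico_sum_dist F hac
    simp only [Real.dist_eq] at this
    rw [abs_sub_comm]
    refine this.trans (le_of_eq (Finset.sum_congr rfl fun r _ => abs_sub_comm _ _))
  refine h1.trans ?_
  unfold star
  simp only [hkey]
  refine Finset.sum_le_sum_of_subset_of_nonneg ?_ fun _ _ _ => abs_nonneg _
  intro r hr
  rw [Finset.mem_Ico] at hr
  rw [Finset.mem_range]
  omega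

/-! ### Consequences of `Par` -/

section
variable {P T : Finset ℕ} {B K k₀ L m : ℕ} {κ y₀ y₁ y b : ℝ}

lemma par_TP (h : Par P T B K k₀ L m κ y₀ y₁ y b) : T ⊆ P := fun s hs =>
  Finset.filter_subset _ _ (h.sub s hs).1

lemma par_B (h : Par P T B K k₀ L m κ y₀ y₁ y b) : 2 ≤ B := by
  have h1 := h.hB
  have h2 : 1 ≤ (P.card + 1) ^ (m + 2) := Nat.one_le_pow _ _ (by omega)
  have h3 : 4 * (m + 2) * 1 ≤ 4 * (m + 2) * (P.card + 1) ^ (m + 2) := Nat.mul_le_mul_left _ h2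
  omega

lemma par_logL (h : Par P T B K k₀ L m κ y₀ y₁ y b) : 64 ≤ Real.log L := by
  have h1 := h.hyL
  obtain ⟨a1, a2, a3, a4⟩ := h.hy
  have hy8 : y ≤ 1 / 8 := by linarith
  have hm : (0 : ℝ) ≤ m := Nat.cast_nonneg m
  have hpos : 0 < Real.log L := by
    by_contra hcon
    push Not at hcon
    have : y * Real.log L ≤ 0 := mul_nonpos_of_nonneg_of_nonpos a1.le hcon
    linarith
  have : y * Real.log L ≤ 1 / 8 * Real.log L := mul_le_mul_of_nonneg_right hy8 hpos.le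
  linarith

lemma mem_Jc {v s : ℕ} : v ∈ Jc P T B K k₀ L y₁ s ↔
    v < L ∧ (1 - y₁) * Real.log L ≤ cc P T B K k₀ v s := by
  unfold Jc
  rw [Finset.mem_filter, Finset.mem_range]

/-- (0): elements of the content are active. -/
lemma Jc_act (hw : SpecWT) (h : Par P T B K k₀ L m κ y₀ y₁ y b) {s v : ℕ} (hs : s ∈ T)
    (h0 : ∑ v ∈ Finset.range (L + 1), co P T B (gl K k₀ v) (gl K k₀ v + 2) s ≤ 1 / 2)
    (hv : v ∈ Jc P T B K k₀ L y₁ s) : Ac P T B K k₀ v s := by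
  by_contra hna
  rw [mem_Jc] at hv
  have h1 := cc_lt hw (par_TP h) (par_B h) hs h0 hv.1.le hna
  have h2 := par_logL h
  obtain ⟨a1, a2, a3, a4⟩ := h.hy
  have h3 : 1 / 2 * 64 ≤ (1 - y₁) * Real.log L := by
    apply mul_le_mul <;> linarith
  linarith [hv.2]

/-- By t1 two different elements of a typical tuple have disjoint contents. -/
lemma Jc_disj (hw : SpecWT) (h : Par P T B K k₀ L m κ y₀ y₁ y b) {ρ : Fin (m + 1) → ℕ}
    (hρ : Typ P T B K k₀ L y₀ y₁ y b ρ) {i j : Fin (m + 1)} (hij : i ≠ j) :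
    Disjoint (Jc P T B K k₀ L y₁ (ρ i)) (Jc P T B K k₀ L y₁ (ρ j)) := by
  rw [Finset.disjoint_left]
  intro v hv hv'
  have a1 := Jc_act hw h (hρ.mem i) (hρ.t0 i) hv
  have a2 := Jc_act hw h (hρ.mem j) (hρ.t0 j) hv'
  rw [mem_Jc] at hv
  exact (hρ.t1 v hv.1 i j hij a1).1 a2

/-- Numerical facts. -/
lemma par_num (h : Par P T B K k₀ L m κ y₀ y₁ y b) : P.card ^ (m + 1) + P.card ^ m +
    (m + 1) * P.card < B := by
  have h1 := h.hB
  set q := (P.card + 1) ^ (m + 2) with hq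
  have a1 : P.card ^ (m + 1) ≤ q := (Nat.pow_le_pow_left (Nat.le_succ _) _).trans
    (Nat.pow_le_pow_right (by omega) (by omega))
  have a2 : P.card ^ m ≤ q := (Nat.pow_le_pow_left (Nat.le_succ _) _).trans
    (Nat.pow_le_pow_right (by omega) (by omega))
  have a3 : P.card ≤ q := by
    calc P.card ≤ (P.card + 1) ^ 1 := by simp
      _ ≤ _ := Nat.pow_le_pow_right (by omega) (by omega)
  have a4 : 1 ≤ q := Nat.one_le_pow _ _ (by omega)
  have a5 : (m + 1) * P.card ≤ (m + 1) * q := Nat.mul_le_mul_left _ a3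
  nlinarith

/-- The sum of a tuple of leaves is in the sumset. -/
lemma sum_mem (hsu : SpecSUM) (hTP : T ⊆ P) {n : ℕ} {ρ : Fin n → ℕ} (hρ : ∀ i, ρ i ∈ T) :
    ∑ i, ρ i ∈ sm n P :=
  (((hsu P 1 n le_rfl).1 ρ Finset.univ) fun i => hTP (hρ i)).1

lemma sm_card (hsu : SpecSUM) (P : Finset ℕ) (n : ℕ) : (sm n P).card ≤ P.card ^ n :=
  (hsu P 1 n le_rfl).2.1

/-- The sums of two tuples in the same cluster are close. -/
lemma sum_near (hc : SpecCMP) (hsu : SpecSUM) (hTP : T ⊆ P) (hB : 1 ≤ B) {n : ℕ}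
    {ρ ρ' : Fin n → ℕ} (hρ : ∀ i, ρ i ∈ T) (hρ' : ∀ i, ρ' i ∈ T) (hS : Sz P B ρ ρ') :
    |((∑ i, ρ i : ℕ) : ℤ) - (∑ i, ρ' i : ℕ)| < (P.card : ℤ) ^ n * (B : ℤ) ^ 3 := by
  have h1 := near hc (Nat.one_le_pow 3 B hB) (sum_mem hsu hTP hρ) (sum_mem hsu hTP hρ') hS
  refine h1.trans_le ?_
  have h2 := sm_card hsu P n
  have h3 : ((sm n P).card : ℤ) ≤ (P.card : ℤ) ^ n := by exact_mod_cast h2
  push_cast
  exact mul_le_mul_of_nonneg_right h3 (by positivity)

/-- All leaves are in the same node at the top level. -/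
lemma top_node (hc : SpecCMP) (h : Par P T B K k₀ L m κ y₀ y₁ y b) {s s' : ℕ} (hs : s ∈ T)
    (hs' : s' ∈ T) : st P (B ^ gl K k₀ L) s = st P (B ^ gl K k₀ L) s' := by
  have hB := par_B h
  by_contra hne
  have h1 := far hc (Nat.one_le_pow _ B (by omega)) (par_TP h hs) (par_TP h hs') hne
  have h2 := (h.sub s hs).2
  have h3 := (h.sub s' hs').2
  have h4 : B ^ L ≤ B ^ gl K k₀ L := Nat.pow_le_pow_right (by omega) (gl_top k₀ h.hK L)
  have h5 : |(s : ℤ) - s'| < (B ^ L : ℕ) := by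
    rw [abs_lt]
    constructor <;> push_cast <;> [skip; skip]
    · have : (s' : ℤ) < (B : ℤ) ^ L := by exact_mod_cast h3
      have : (0 : ℤ) ≤ s := Int.natCast_nonneg s
      linarith
    · have : (s : ℤ) < (B : ℤ) ^ L := by exact_mod_cast h2
      have : (0 : ℤ) ≤ s' := Int.natCast_nonneg s'
      linarith
  have h6 : ((B ^ L : ℕ) : ℤ) ≤ (B ^ gl K k₀ L : ℕ) := by exact_mod_cast h4
  linarith

/-- At the bottom level the node of a leaf is the leaf. -/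
lemma bot_node (hc : SpecCMP) (h : Par P T B K k₀ L m κ y₀ y₁ y b) {s : ℕ} (hs : s ∈ T) :
    st P (B ^ gl K k₀ 0) s = s := by
  have hB := par_B h
  have e : gl K k₀ 0 = 3 := by simp [gl]
  rw [e]
  exact (hc P (B ^ 3) (Nat.one_le_pow _ B (by omega))).2.2.2.1 s (h.sub s hs).1

/-- First coarse level where a property holds. -/
lemma switch {p : ℕ → Prop} {n : ℕ} (h0 : ¬ p 0) (hn : p n) : ∃ v < n, ¬ p v ∧ p (v + 1) := by
  classical
  have hex : ∃ k, p k := ⟨n, hn⟩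
  have h1 := Nat.find_spec hex
  have h2 : Nat.find hex ≠ 0 := fun h => h0 (h ▸ h1)
  obtain ⟨v, hv⟩ := Nat.exists_eq_succ_of_ne_zero h2
  refine ⟨v, ?_, ?_, ?_⟩
  · have := Nat.find_min' hex hn
    omega
  · exact Nat.find_min hex (by omega)
  · have e : Nat.find hex = v + 1 := hv
    rw [← e]
    exact h1

/-- The weights of the sums agree at all levels. -/
lemma wz_congr (hc : SpecCMP) (hsu : SpecSUM) (hTP : T ⊆ P) (hB : 1 ≤ B) {n : ℕ}
    {ρ ρ' : Fin n → ℕ} (hρ : ∀ i, ρ i ∈ T) (hρ' : ∀ i, ρ' i ∈ T) (hS : Sz P B ρ ρ') {g : ℕ}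
    (hg : 3 ≤ g) : wz P T B g ρ = wz P T B g ρ' := by
  have h1 := up hc hB hg (sum_mem hsu hTP hρ) (sum_mem hsu hTP hρ') hS
  unfold wz
  rw [h1]

/-- (2), one inclusion. -/
lemma union_sub (hc : SpecCMP) (hsu : SpecSUM) (hw : SpecWT)
    (h : Par P T B K k₀ L m κ y₀ y₁ y b) {ρ ρ' : Fin (m + 1) → ℕ}
    (hρ : Typ P T B K k₀ L y₀ y₁ y b ρ) (hρ' : Typ P T B K k₀ L y₀ y₁ y b ρ')
    (hS : Sz P B ρ ρ') {i : Fin (m + 1)} {v : ℕ} (hv : v ∈ Jc P T B K k₀ L y₁ (ρ i)) :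
    ∃ j, v ∈ Jc P T B K k₀ L y₁ (ρ' j) := by
  by_contra hcon
  push Not at hcon
  have hTP := par_TP h
  have hB := par_B h
  have hlog := par_logL h
  obtain ⟨a1, a2, a3, a4⟩ := h.hy
  rw [mem_Jc] at hv
  obtain ⟨hvL, hcc⟩ := hv
  have hstep := gl_step k₀ h.hK v
  have hge := gl_ge k₀ h.hK v
  have hgl : gl K k₀ v ≤ gl K k₀ (v + 1) := by omega
  -- the costs of the sums
  have e1 : cz P T B (gl K k₀ v) (gl K k₀ (v + 1)) ρ =
      cz P T B (gl K k₀ v) (gl K k₀ (v + 1)) ρ' := by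
    unfold cz
    rw [wz_congr hc hsu hTP (by omega) hρ.mem hρ'.mem hS hge,
      wz_congr hc hsu hTP (by omega) hρ.mem hρ'.mem hS (by omega)]
  have sb : ∀ σ : Fin (m + 1) → ℕ, Typ P T B K k₀ L y₀ y₁ y b σ →
      |cz P T B (gl K k₀ v) (gl K k₀ (v + 1)) σ - ∑ i, cc P T B K k₀ v (σ i)| ≤
        y * Real.log L := by
    intro σ hσ
    have := star_bound (P := P) (T := T) (B := B) (K := K) (k₀ := k₀) (L := L) σ
      (a := 2 * v) (c := 2 * (v + 1)) (by omega) (by omega)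
    rw [hl_even, hl_even] at this
    exact this.trans hσ.t3
  have s1 := abs_le.1 (sb ρ hρ)
  have s2 := abs_le.1 (sb ρ' hρ')
  have n1 : cc P T B K k₀ v (ρ i) ≤ ∑ i, cc P T B K k₀ v (ρ i) :=
    Finset.single_le_sum (f := fun i => cc P T B K k₀ v (ρ i))
      (fun j _ => co_nn hw hTP hB hgl (hρ.mem j)) (Finset.mem_univ i)
  -- the costs of `ρ'`
  have hlow : ∀ j, cc P T B K k₀ v (ρ' j) < (1 - y₀) * Real.log L := by
    intro j
    rcases hρ'.t2 v hvL j with h2 | h2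
    · exact h2
    · exact absurd (mem_Jc.2 ⟨hvL, h2⟩) (hcon j)
  have n2 : ∑ j, cc P T B K k₀ v (ρ' j) ≤ (1 - y₀) * Real.log L + 2 * (m + 1) := by
    have hpos : 0 ≤ (1 - y₀) * Real.log L := mul_nonneg (by linarith) (by linarith)
    by_cases hact : ∃ j, Ac P T B K k₀ v (ρ' j)
    · obtain ⟨j, hj⟩ := hact
      rw [← Finset.add_sum_erase _ _ (Finset.mem_univ j)]
      have hrest : ∑ i ∈ Finset.univ.erase j, cc P T B K k₀ v (ρ' i) ≤
          ∑ i ∈ Finset.univ.erase j, (2 : ℝ) := by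
        refine Finset.sum_le_sum fun i hi => ?_
        have hij : j ≠ i := (Finset.ne_of_mem_erase hi).symm
        have := cc_lt hw hTP hB (hρ'.mem i) (hρ'.t0 i) hvL.le (hρ'.t1 v hvL j i hij hj).1
        linarith
      rw [Finset.sum_const, Finset.card_erase_of_mem (Finset.mem_univ j), Finset.card_univ,
        Fintype.card_fin, nsmul_eq_mul] at hrest
      have := hlow j
      rw [Nat.add_sub_cancel] at hrest
      linarith
    · push Not at hact
      have hrest : ∑ i, cc P T B K k₀ v (ρ' i) ≤ ∑ _i : Fin (m + 1), (2 : ℝ) := by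
        refine Finset.sum_le_sum fun i _ => ?_
        have := cc_lt hw hTP hB (hρ'.mem i) (hρ'.t0 i) hvL.le (hact i)
        linarith
      rw [Finset.sum_const, Finset.card_univ, Fintype.card_fin, nsmul_eq_mul] at hrest
      push_cast at hrest
      linarith
  have hyL := h.hyL
  have n3 : (y₁ + 4 * y) * Real.log L ≤ y₀ * Real.log L :=
    mul_le_mul_of_nonneg_right a3 (by linarith)
  have hm : (0 : ℝ) ≤ m := Nat.cast_nonneg m
  nlinarith

/-- (3), the case of one differing node. -/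
lemma case_one (hc : SpecCMP) (hsu : SpecSUM)
    (h : Par P T B K k₀ L m κ y₀ y₁ y b) {ρ ρ' : Fin (m + 1) → ℕ}
    (hρ : ∀ i, ρ i ∈ T) (hρ' : ∀ i, ρ' i ∈ T) (hS : Sz P B ρ ρ') {g : ℕ} (hg : 3 ≤ g)
    {l : Fin (m + 1)} (hl : st P (B ^ (g + 2)) (ρ l) ≠ st P (B ^ (g + 2)) (ρ' l))
    (ho : ∀ i, i ≠ l → st P (B ^ g) (ρ i) = st P (B ^ g) (ρ' i)) : False := by
  have hTP := par_TP h
  have hB := par_B h
  have h1 := sum_near hc hsu hTP (by omega) hρ hρ' hS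
  have h2 := far hc (Nat.one_le_pow _ B (by omega)) (hTP (hρ l)) (hTP (hρ' l)) hl
  have h3 : ∀ i ∈ Finset.univ.erase l, |(ρ i : ℤ) - ρ' i| ≤ (P.card : ℤ) * (B : ℤ) ^ g := by
    intro i hi
    have := near hc (Nat.one_le_pow _ B (by omega)) (hTP (hρ i)) (hTP (hρ' i))
      (ho i (Finset.ne_of_mem_erase hi))
    push_cast at this
    exact this.le
  have h4 : |∑ i ∈ Finset.univ.erase l, ((ρ i : ℤ) - ρ' i)| ≤
      (m : ℤ) * ((P.card : ℤ) * (B : ℤ) ^ g) := by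
    refine (Finset.abs_sum_le_sum_abs _ _).trans ((Finset.sum_le_sum h3).trans ?_)
    rw [Finset.sum_const, Finset.card_erase_of_mem (Finset.mem_univ l), Finset.card_univ,
      Fintype.card_fin, nsmul_eq_mul]
    simp
  have h5 : ((∑ i, ρ i : ℕ) : ℤ) - (∑ i, ρ' i : ℕ) =
      ((ρ l : ℤ) - ρ' l) + ∑ i ∈ Finset.univ.erase l, ((ρ i : ℤ) - ρ' i) := by
    rw [Finset.add_sum_erase _ (fun i => (ρ i : ℤ) - ρ' i) (Finset.mem_univ l),
      Finset.sum_sub_distrib]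
    push_cast
    rfl
  have h6 : |(ρ l : ℤ) - ρ' l| ≤ |((∑ i, ρ i : ℕ) : ℤ) - (∑ i, ρ' i : ℕ)| +
      |∑ i ∈ Finset.univ.erase l, ((ρ i : ℤ) - ρ' i)| := by
    rw [h5]
    have := abs_sub_abs_le_abs_sub ((ρ l : ℤ) - ρ' l + ∑ i ∈ Finset.univ.erase l,
      ((ρ i : ℤ) - ρ' i)) (∑ i ∈ Finset.univ.erase l, ((ρ i : ℤ) - ρ' i))
    have e := abs_sub ((ρ l : ℤ) - ρ' l + ∑ i ∈ Finset.univ.erase l, ((ρ i : ℤ) - ρ' i))
      (∑ i ∈ Finset.univ.erase l, ((ρ i : ℤ) - ρ' i))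
    rw [add_sub_cancel_right] at e
    exact e
  have hnum := par_num h
  have hnum' : (P.card : ℤ) ^ (m + 1) + (P.card : ℤ) ^ m + ((m : ℤ) + 1) * P.card < B := by
    exact_mod_cast hnum
  have hBg : (B : ℤ) ^ 3 ≤ (B : ℤ) ^ g := pow_le_pow_right₀ (by exact_mod_cast (by omega : 1 ≤ B)) hg
  have hBpos : (0 : ℤ) < (B : ℤ) ^ g := by positivity
  have h7 : (P.card : ℤ) ^ (m + 1) * (B : ℤ) ^ 3 ≤ (P.card : ℤ) ^ (m + 1) * (B : ℤ) ^ g :=
    mul_le_mul_of_nonneg_left hBg (by positivity)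
  have h8 : ((B ^ (g + 2) : ℕ) : ℤ) = (B : ℤ) ^ g * (B * B) := by push_cast; ring
  have h9 : ((P.card : ℤ) ^ (m + 1) + (m : ℤ) * P.card) * (B : ℤ) ^ g ≤ B * (B : ℤ) ^ g := by
    refine mul_le_mul_of_nonneg_right ?_ hBpos.le
    have : (0 : ℤ) ≤ (P.card : ℤ) ^ m := by positivity
    have : (0 : ℤ) ≤ (P.card : ℤ) := by positivity
    nlinarith
  have hB1 : (1 : ℤ) < B := by exact_mod_cast (by omega : 1 < B)
  have h10 : (B : ℤ) * (B : ℤ) ^ g < (B : ℤ) ^ g * (B * B) := by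
    have : (B : ℤ) ^ g * B < (B : ℤ) ^ g * (B * B) :=
      mul_lt_mul_of_pos_left (by nlinarith) hBpos
    linarith
  rw [h8] at h2
  nlinarith

/-- (3). -/
lemma eq_of_cont (hc : SpecCMP) (hsu : SpecSUM) (hw : SpecWT)
    (h : Par P T B K k₀ L m κ y₀ y₁ y b) {ρ ρ' : Fin (m + 1) → ℕ}
    (hρ : Typ P T B K k₀ L y₀ y₁ y b ρ) (hρ' : Typ P T B K k₀ L y₀ y₁ y b ρ')
    (hS : Sz P B ρ ρ')
    (hJ : ∀ i, Jc P T B K k₀ L y₁ (ρ i) = Jc P T B K k₀ L y₁ (ρ' i)) : ρ = ρ' := by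
  by_contra hne
  have hTP := par_TP h
  have hB := par_B h
  obtain ⟨b1, b2⟩ := h.hb
  obtain ⟨a1, a2, a3, a4⟩ := h.hy
  have hlog := par_logL h
  obtain ⟨v, hvL, hv, hv'⟩ := switch
    (p := fun v => ∀ i, st P (B ^ gl K k₀ v) (ρ i) = st P (B ^ gl K k₀ v) (ρ' i)) (n := L)
    (fun h0 => hne (funext fun i => by
      have := h0 i
      rwa [bot_node hc h (hρ.mem i), bot_node hc h (hρ'.mem i)] at this))
    (fun i => top_node hc h (hρ.mem i) (hρ'.mem i))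
  have hstep := gl_step k₀ h.hK v
  have hge := gl_ge k₀ h.hK v
  -- nodes at level `gl v + 2`
  have hnode : ∀ i, st P (B ^ (gl K k₀ v + 2)) (ρ i) = st P (B ^ (gl K k₀ v + 2)) (ρ' i) →
      st P (B ^ gl K k₀ v) (ρ i) = st P (B ^ gl K k₀ v) (ρ' i) := fun i hi =>
    t0_node hc hw hTP hB (hρ.mem i) (hρ'.mem i) (hρ.t0 i) (hρ'.t0 i) hvL.le hi
  have hact : ∀ i, st P (B ^ (gl K k₀ v + 2)) (ρ i) ≠ st P (B ^ (gl K k₀ v + 2)) (ρ' i) →
      Ac P T B K k₀ v (ρ i) ∨ Ac P T B K k₀ v (ρ' i) := fun i hi =>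
    sep_act hc hTP hB h.hK (hρ.mem i) (hρ'.mem i) (hv' i) hi
  obtain ⟨l, hl⟩ : ∃ l, st P (B ^ (gl K k₀ v + 2)) (ρ l) ≠ st P (B ^ (gl K k₀ v + 2)) (ρ' l) := by
    by_contra hcon
    push Not at hcon
    exact hv fun i => hnode i (hcon i)
  by_cases hone : ∀ i, i ≠ l → st P (B ^ (gl K k₀ v + 2)) (ρ i) = st P (B ^ (gl K k₀ v + 2)) (ρ' i)
  · exact case_one hc hsu h hρ.mem hρ'.mem hS hge hl fun i hi => hnode i (hone i hi)
  · push Not at hone
    obtain ⟨l', hl'ne, hl'⟩ := hone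
    -- the main step
    have main : ∀ i j : Fin (m + 1), i ≠ j → Ac P T B K k₀ v (ρ i) → Ac P T B K k₀ v (ρ' j) →
        False := by
      intro i j hij hai haj
      have t := (hρ'.t1 v hvL j i hij.symm haj)
      have hpc : pc P T B K k₀ v (ρ i) < (L : ℝ) ^ (-1 + b) := by
        have e : pc P T B K k₀ v (ρ i) = pc P T B K k₀ v (ρ' i) := pa_congr (hv' i)
        rw [e]
        exact t.2
      have hbig := big_cc hw hTP hB h.hK (by have := h.hL; omega) (hρ.mem i) hai hpc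
      have hmem : v ∈ Jc P T B K k₀ L y₁ (ρ i) := by
        rcases hρ.t2 v hvL i with h2 | h2
        · exfalso
          have : (1 - y₀) * Real.log L ≤ (1 - b) * Real.log L :=
            mul_le_mul_of_nonneg_right (by linarith) (by linarith)
          linarith
        · exact mem_Jc.2 ⟨hvL, h2⟩
      rw [hJ i] at hmem
      exact t.1 (Jc_act hw h (hρ'.mem i) (hρ'.t0 i) hmem)
    rcases hact l hl with hA | hA
    · rcases hact l' hl' with hA' | hA'
      · exact (hρ.t1 v hvL l l' hl'ne.symm hA).1 hA'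
      · exact main l l' hl'ne.symm hA hA'
    · rcases hact l' hl' with hA' | hA'
      · exact main l' l hl'ne hA' hA
      · exact (hρ'.t1 v hvL l l' hl'ne.symm hA).1 hA'

/-- (1). -/
lemma card_le (hw : SpecWT) (h : Par P T B K k₀ L m κ y₀ y₁ y b) {s : ℕ} (hs : s ∈ T) :
    ((Jc P T B K k₀ L y₁ s).card : ℝ) ≤ 2 * κ := by
  have hTP := par_TP h
  have hB := par_B h
  obtain ⟨a1, a2, a3, a4⟩ := h.hy
  have hlog := par_logL h
  have h4 := (hw P T B hTP hB).2.2.2.1 L (gl K k₀) (gl_mono k₀ h.hK) s hs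
  have h5 : ∑ _v ∈ Jc P T B K k₀ L y₁ s, (1 / 2 * Real.log L) ≤
      ∑ v ∈ Finset.range L, co P T B (gl K k₀ v) (gl K k₀ (v + 1)) s := by
    refine le_trans (Finset.sum_le_sum (g := fun v => co P T B (gl K k₀ v) (gl K k₀ (v + 1)) s)
      fun v hv => ?_) (Finset.sum_le_sum_of_subset_of_nonneg ?_ fun v _ _ => ?_)
    · rw [mem_Jc] at hv
      refine le_trans ?_ hv.2
      exact mul_le_mul_of_nonneg_right (by linarith) (by linarith)
    · unfold Jc
      exact Finset.filter_subset _ _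
    · have := gl_step k₀ h.hK v
      exact co_nn hw hTP hB (by omega) hs
  rw [Finset.sum_const, nsmul_eq_mul] at h5
  have h6 := h.hT
  have h7 : ((Jc P T B K k₀ L y₁ s).card : ℝ) * (1 / 2 * Real.log L) ≤ κ * Real.log L := by
    linarith
  have hpos : 0 < Real.log L := by linarith
  have h8 : ((Jc P T B K k₀ L y₁ s).card : ℝ) * Real.log L ≤ 2 * κ * Real.log L := by linarith
  exact le_of_mul_le_mul_right h8 hpos

end

end Pool.Agent.Lib.MP5b6025.EP.CNSM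

namespace Pool.Agent.Lib.MP5b6025.EP

open CNSM

theorem specCNS (hc : SpecCMP) (hsu : SpecSUM) (hw : SpecWT) : SpecCNS := by
  intro P T B K k₀ L m κ y₀ y₁ y b h
  refine ⟨fun s hs => card_le hw h hs, fun ρ hρ i j hij => Jc_disj hw h hρ hij,
    fun ρ ρ' hρ hρ' hS => ⟨?_, fun hJ => eq_of_cont hc hsu hw h hρ hρ' hS hJ⟩⟩
  ext v
  simp only [Finset.mem_biUnion, Finset.mem_univ, true_and]
  constructor
  · rintro ⟨i, hi⟩
    exact union_sub hc hsu hw h hρ hρ' hS hi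
  · rintro ⟨i, hi⟩
    exact union_sub hc hsu hw h hρ' hρ hS.symm hi

end Pool.Agent.Lib.MP5b6025.EP
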