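import Pool.Agent.Lib.MP_5b6025_nt.EP.Spec

/-!
Module TYP: almost all tuples are typical.
-/

set_option autoImplicit false

open Finset

namespace Pool.Agent.Lib.MP5b6025.EP

namespace TYPM

/-! ### Counting -/

theorem nb_eq {α : Type} (S : Finset α) (p : α → Prop) [DecidablePred p] :
    nb S p = (S.filter p).card := by
  unfold nb
  congr!

theorem nb_mono {α : Type} (S : Finset α) (p q : α → Prop) (h : ∀ x ∈ S, p x → q x) :
    nb S p ≤ nb S q := by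
  classical
  rw [nb_eq, nb_eq]
  apply Finset.card_le_card
  intro x hx
  rw [Finset.mem_filter] at hx ⊢
  exact ⟨hx.1, h x hx.1 hx.2⟩

theorem nb_or {α : Type} (S : Finset α) (p q : α → Prop) :
    nb S (fun x => p x ∨ q x) ≤ nb S p + nb S q := by
  classical
  rw [nb_eq, nb_eq, nb_eq, Finset.filter_or]
  exact Finset.card_union_le _ _

theorem nb_exists {α : Type} (S : Finset α) (n : ℕ) (p : Fin n → α → Prop) :
    nb S (fun x => ∃ i, p i x) ≤ ∑ i, nb S (p i) := by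
  classical
  simp only [nb_eq]
  have : (S.filter fun x => ∃ i, p i x) = Finset.univ.biUnion fun i => S.filter (p i) := by
    ext x
    simp
  rw [this]
  exact Finset.card_biUnion_le

theorem card_tup (n : ℕ) (T : Finset ℕ) : (tup n T).card = T.card ^ n := by
  unfold tup
  rw [Fintype.card_piFinset_const]

theorem mem_tup {n : ℕ} {T : Finset ℕ} {ρ : Fin n → ℕ} : ρ ∈ tup n T ↔ ∀ i, ρ i ∈ T := by
  unfold tup
  rw [Fintype.mem_piFinset]

/-- one coordinate and the rest -/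
theorem nb_pair (m : ℕ) (T : Finset ℕ) (i : Fin (m + 1)) (p : ℕ → Prop) (q : (Fin m → ℕ) → Prop) :
    nb (tup (m + 1) T) (fun ρ => p (ρ i) ∧ q (fun j => ρ (i.succAbove j))) ≤
      nb T p * nb (tup m T) q := by
  classical
  simp only [nb_eq]
  rw [← Finset.card_product]
  refine Finset.card_le_card_of_injOn (fun ρ => (ρ i, fun j => ρ (i.succAbove j))) ?_ ?_
  · intro ρ hρ
    have hρ' := Finset.mem_filter.1 (Finset.mem_coe.1 hρ)
    rw [Finset.mem_coe, Finset.mem_product, Finset.mem_filter, Finset.mem_filter]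
    have h1 := mem_tup.1 hρ'.1
    exact ⟨⟨h1 i, hρ'.2.1⟩, mem_tup.2 fun j => h1 _, hρ'.2.2⟩
  · intro ρ _ ρ' _ h
    simp only [Prod.mk.injEq] at h
    funext j
    rcases Fin.eq_self_or_eq_succAbove i j with rfl | ⟨l, rfl⟩
    · exact h.1
    · exact congrFun h.2 l

theorem nb_true {α : Type} (S : Finset α) : nb S (fun _ => True) = S.card := by
  classical
  rw [nb_eq, Finset.filter_true_of_mem (fun _ _ => trivial)]

/-- conditions on single elements -/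
theorem nb_single (m : ℕ) (T : Finset ℕ) (q : ℕ → Prop) :
    nb (tup (m + 1) T) (fun ρ => ¬ ∀ i, q (ρ i)) ≤ (m + 1) * (nb T (fun s => ¬ q s) * T.card ^ m) := by
  have h1 : nb (tup (m + 1) T) (fun ρ => ¬ ∀ i, q (ρ i)) ≤
      nb (tup (m + 1) T) (fun ρ => ∃ i, ¬ q (ρ i)) :=
    nb_mono _ _ _ fun ρ _ h => by push Not at h; exact h
  have h2 := nb_exists (tup (m + 1) T) (m + 1) (fun i ρ => ¬ q (ρ i))
  have h3 : ∀ i : Fin (m + 1), nb (tup (m + 1) T) (fun ρ => ¬ q (ρ i)) ≤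
      nb T (fun s => ¬ q s) * T.card ^ m := by
    intro i
    have h4 := nb_pair m T i (fun s => ¬ q s) (fun _ => True)
    rw [nb_true, card_tup] at h4
    exact (nb_mono _ _ _ fun ρ _ h => ⟨h, trivial⟩).trans h4
  calc _ ≤ _ := h1
    _ ≤ _ := h2
    _ ≤ ∑ _i : Fin (m + 1), nb T (fun s => ¬ q s) * T.card ^ m :=
      Finset.sum_le_sum fun i _ => h3 i
    _ = _ := by rw [Finset.sum_const, Finset.card_univ, Fintype.card_fin, smul_eq_mul]

/-- conditions on the subtuples -/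
theorem nb_sub (m : ℕ) (T : Finset ℕ) (q : (Fin m → ℕ) → Prop) :
    nb (tup (m + 1) T) (fun ρ => ¬ ∀ i : Fin (m + 1), q (fun j => ρ (i.succAbove j))) ≤
      (m + 1) * (T.card * nb (tup m T) (fun ρ => ¬ q ρ)) := by
  have h1 : nb (tup (m + 1) T) (fun ρ => ¬ ∀ i : Fin (m + 1), q (fun j => ρ (i.succAbove j))) ≤
      nb (tup (m + 1) T) (fun ρ => ∃ i : Fin (m + 1), ¬ q (fun j => ρ (i.succAbove j))) :=
    nb_mono _ _ _ fun ρ _ h => by push Not at h; exact h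
  have h2 := nb_exists (tup (m + 1) T) (m + 1)
    (fun (i : Fin (m + 1)) ρ => ¬ q (fun j => ρ (i.succAbove j)))
  have h3 : ∀ i : Fin (m + 1), nb (tup (m + 1) T) (fun ρ => ¬ q (fun j => ρ (i.succAbove j))) ≤
      T.card * nb (tup m T) (fun ρ => ¬ q ρ) := by
    intro i
    have h4 := nb_pair m T i (fun _ => True) (fun ρ => ¬ q ρ)
    rw [nb_true] at h4
    exact (nb_mono _ _ _ fun ρ _ h => ⟨trivial, h⟩).trans h4
  calc _ ≤ _ := h1
    _ ≤ _ := h2
    _ ≤ ∑ _i : Fin (m + 1), T.card * nb (tup m T) (fun ρ => ¬ q ρ) :=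
      Finset.sum_le_sum fun i _ => h3 i
    _ = _ := by rw [Finset.sum_const, Finset.card_univ, Fintype.card_fin, smul_eq_mul]

theorem nb_single' (m : ℕ) (T : Finset ℕ) (q : ℕ → Prop) :
    (nb (tup (m + 1) T) (fun ρ => ¬ ∀ i, q (ρ i)) : ℝ) ≤
      ((m : ℝ) + 1) * ((nb T (fun s => ¬ q s) : ℝ) * (T.card : ℝ) ^ m) := by
  exact_mod_cast nb_single m T q

theorem nb_sub' (m : ℕ) (T : Finset ℕ) (q : (Fin m → ℕ) → Prop) :
    (nb (tup (m + 1) T) (fun ρ => ¬ ∀ i : Fin (m + 1), q (fun j => ρ (i.succAbove j))) : ℝ) ≤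
      ((m : ℝ) + 1) * ((T.card : ℝ) * (nb (tup m T) (fun ρ => ¬ q ρ) : ℝ)) := by
  exact_mod_cast nb_sub m T q

theorem markov {α : Type} (S : Finset α) (f : α → ℝ) (hf : ∀ x ∈ S, 0 ≤ f x) (a : ℝ)
    (ha : 0 < a) : (nb S (fun x => ¬ f x ≤ a) : ℝ) ≤ (∑ x ∈ S, f x) / a := by
  classical
  rw [le_div_iff₀ ha, nb_eq]
  calc ((S.filter fun x => ¬ f x ≤ a).card : ℝ) * a = ∑ x ∈ S.filter (fun x => ¬ f x ≤ a), a := by
        rw [Finset.sum_const, nsmul_eq_mul]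
    _ ≤ ∑ x ∈ S.filter (fun x => ¬ f x ≤ a), f x :=
        Finset.sum_le_sum fun x hx => (not_le.1 (Finset.mem_filter.1 hx).2).le
    _ ≤ ∑ x ∈ S, f x := Finset.sum_le_sum_of_subset_of_nonneg (Finset.filter_subset _ _)
        fun x hx _ => hf x hx

theorem star_nonneg (P T : Finset ℕ) (B K k₀ L : ℕ) {m : ℕ} (ρ : Fin m → ℕ) :
    0 ≤ star P T B K k₀ L ρ := Finset.sum_nonneg fun _ _ => abs_nonneg _

theorem nb_fst (T : Finset ℕ) (n : ℕ) (p : ℕ → ℕ → Prop) :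
    nb T (fun s => ∃ v < n, p v s) ≤ nb (T ×ˢ range n) (fun x : ℕ × ℕ => p x.2 x.1) := by
  classical
  rw [nb_eq, nb_eq]
  refine (Finset.card_le_card ?_).trans (Finset.card_image_le (f := Prod.fst))
  intro s hs
  obtain ⟨h1, v, hv, h2⟩ := Finset.mem_filter.1 hs
  rw [Finset.mem_image]
  refine ⟨(s, v), Finset.mem_filter.2 ⟨?_, h2⟩, rfl⟩
  rw [Finset.mem_product, Finset.mem_range]
  exact ⟨h1, hv⟩

/-- large `L` -/
theorem log_large (a : ℝ) : ∃ L₀ : ℕ, ∀ L : ℕ, L₀ ≤ L → a ≤ Real.log L := by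
  have h1 : ∀ᶠ x : ℝ in Filter.atTop, a ≤ Real.log x :=
    Real.tendsto_log_atTop.eventually_ge_atTop a
  rw [Filter.eventually_atTop] at h1
  obtain ⟨b, hb⟩ := h1
  obtain ⟨L₀, hL₀⟩ := exists_nat_ge b
  exact ⟨L₀, fun L hL => hb L (hL₀.trans (by exact_mod_cast hL))⟩

end TYPM

set_option maxHeartbeats 4000000 in
open TYPM in
theorem specTYP (hLVL : SpecLVL) (hSTB : SpecSTB) (hZON : SpecZON) (hCT0 : SpecCT0)
    (hCT5 : SpecCT5) (hCT8 : SpecCT8) : SpecTYP := by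
  intro κ η m hκ hη
  have hκ0 : 0 < κ := by linarith
  -- parameters
  set M : ℝ := (m : ℝ) + 1 with hM
  have hM1 : 1 ≤ M := by
    have : (0 : ℝ) ≤ m := Nat.cast_nonneg m
    linarith
  have hM0 : 0 < M := by linarith
  set r : ℝ := min ((η / 8) ^ 2 / (3 * M ^ 2)) (η / (8 * M)) with hr
  have hr0 : 0 < r := lt_min (by positivity) (by positivity)
  have hr1 : M * r ≤ η / 8 := by
    calc M * r ≤ M * (η / (8 * M)) := by gcongr; exact min_le_right _ _
      _ = η / 8 := by field_simp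
  have hr2 : M * Real.sqrt (3 * r) ≤ η / 8 := by
    have h1 : 3 * r ≤ (η / 8 / M) ^ 2 := by
      calc 3 * r ≤ 3 * ((η / 8) ^ 2 / (3 * M ^ 2)) := by gcongr; exact min_le_left _ _
        _ = (η / 8 / M) ^ 2 := by field_simp
    calc M * Real.sqrt (3 * r) ≤ M * (η / 8 / M) := by
          gcongr
          exact Real.sqrt_le_iff.2 ⟨by positivity, h1⟩
      _ = η / 8 := by field_simp
  set J : ℕ := ⌈2 * κ / r⌉₊ + 1 with hJ
  have hJ1 : 1 ≤ J := by omega
  have hJr : (1 : ℝ) ≤ J := by exact_mod_cast hJ1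
  have hJ0 : (0 : ℝ) < J := by linarith
  have hJ2 : 2 * κ / J ≤ r := by
    rw [div_le_iff₀ hJ0]
    have h1 : 2 * κ / r ≤ J := by
      have := Nat.le_ceil (2 * κ / r)
      rw [hJ]
      push_cast
      linarith
    rw [div_le_iff₀ hr0] at h1
    linarith
  set δ : ℝ := 1 / (4 * J + 2) with hδ
  have hδ0 : 0 < δ := by positivity
  have hδ1 : (2 * (J : ℝ) + 1) * δ ≤ 1 / 2 := by
    rw [hδ]
    apply le_of_eq
    field_simp
    ring
  set y : ℝ := δ / 16 with hy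
  have hy0 : 0 < y := by positivity
  set w : ℝ := y * η / (640 * M ^ 3 * κ) with hw
  have hw0 : 0 < w := by positivity
  set ε : ℝ := min (1 / 200) (min (δ / 96) (min (η / (8 * M)) (w ^ 2 / 2))) with hε
  have hε0 : 0 < ε := by
    refine lt_min (by norm_num) (lt_min (by positivity) (lt_min (by positivity) (by positivity)))
  have hε1 : ε ≤ 1 / 200 := min_le_left _ _
  have hε2 : ε ≤ δ / 96 := (min_le_right _ _).trans (min_le_left _ _)
  have hε3 : ε ≤ η / (8 * M) := (min_le_right _ _).trans ((min_le_right _ _).trans (min_le_left _ _))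
  have hε4 : ε ≤ w ^ 2 / 2 := (min_le_right _ _).trans ((min_le_right _ _).trans (min_le_right _ _))
  have hsq : Real.sqrt (2 * ε) ≤ w := Real.sqrt_le_iff.2 ⟨hw0.le, by linarith⟩
  have h2ε : (0 : ℝ) < 2 * ε := by linarith
  have h2ε' : 2 * ε ≤ 1 / 100 := by linarith
  set C : ℕ := ⌈κ * ((m : ℝ) + 3)⌉₊ + 1 with hC
  -- thresholds
  obtain ⟨L₁, hL₁⟩ := hLVL κ ε hκ hε0 (by linarith)
  obtain ⟨L₂, hL₂⟩ := hCT0 κ (2 * ε) (η / 8) m hκ h2ε h2ε' (by positivity)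
  have h5 : ∀ t : ℕ, ∃ L₀ : ℕ, (1 ≤ t ∧ t ≤ J) → ∀ (P T : Finset ℕ) (B K k₀ L : ℕ), L₀ ≤ L →
      T ⊆ P → T.Nonempty → 2 ≤ B → 10 ≤ K → Real.log T.card ≤ κ * Real.log L →
      Lvl P T B K k₀ L κ (2 * ε) →
      (nb (tup (m + 1) T) (fun ρ => ¬ ∀ i : Fin (m + 1),
        ∀ v ∈ Br P T B K k₀ L y (fun j : Fin m => ρ (i.succAbove j)),
        pc P T B K k₀ v (ρ i) < (L : ℝ) ^ (-1 + (2 * (t : ℝ) + 1) * δ) ∧
          ¬ Ac P T B K k₀ v (ρ i)) : ℝ) ≤ (η / 8) * (T.card : ℝ) ^ (m + 1) := by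
    intro t
    by_cases ht : 1 ≤ t ∧ t ≤ J
    · have ht1 : (1 : ℝ) ≤ t := by exact_mod_cast ht.1
      have ht2 : (t : ℝ) ≤ J := by exact_mod_cast ht.2
      obtain ⟨L₀, hL₀⟩ := hCT5 κ (2 * ε) (η / 8) ((2 * (t : ℝ) + 1) * δ) y m hκ h2ε h2ε'
        (by positivity) hy0 (by nlinarith) (by
          calc (2 * (t : ℝ) + 1) * δ ≤ (2 * (J : ℝ) + 1) * δ := by gcongr
            _ ≤ 1 / 2 := hδ1)
      exact ⟨L₀, fun _ => hL₀⟩
    · exact ⟨0, fun h => absurd h ht⟩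
  choose L₃ hL₃ using h5
  obtain ⟨L₄, hL₄⟩ := hCT8 κ (2 * ε) r hκ h2ε h2ε' hr0
  obtain ⟨L₅, hL₅⟩ := hSTB κ (2 * ε) (m + 1) hκ h2ε h2ε'
  obtain ⟨L₆, hL₆⟩ := hSTB κ (2 * ε) m hκ h2ε h2ε'
  obtain ⟨L₇, hL₇⟩ := log_large (4 * ((m : ℝ) + 2) / y)
  refine ⟨ε, C, L₁ + L₂ + (range (J + 1)).sup L₃ + L₄ + L₅ + L₆ + L₇ + 4 * (m + 3), hε0,
    by linarith, ?_⟩
  intro k _ L B P T Z e hL hBC hS
  have hL3 : 3 ≤ L := by omega
  have hL4 : 4 * (m + 3) ≤ L := by omega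
  have hLr : (3 : ℝ) ≤ L := by exact_mod_cast hL3
  have hLpos : (0 : ℝ) < L := by linarith
  have hTP : T ⊆ P := fun s hs => Finset.filter_subset _ _ (hS.sub s hs).1
  have hTn : 1 ≤ T.card := by
    have h1 : (3 : ℝ) ≤ 2 * T.card := hLr.trans hS.big
    have h2 : 3 ≤ 2 * T.card := by exact_mod_cast h1
    omega
  have hTne : T.Nonempty := Finset.card_pos.1 hTn
  have hTr : (0 : ℝ) < T.card := by exact_mod_cast hTn
  have hlogT : Real.log T.card ≤ κ * Real.log L := by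
    have h1 : (T.card : ℝ) ≤ (L : ℝ) ^ κ := by
      have h3 : (T.card : ℝ) ≤ P.card := by exact_mod_cast Finset.card_le_card hTP
      have h4 := hS.cardP
      linarith
    calc Real.log T.card ≤ Real.log ((L : ℝ) ^ κ) := Real.log_le_log hTr h1
      _ = κ * Real.log L := Real.log_rpow hLpos _
  have hlog : 0 < Real.log L := Real.log_pos (by linarith)
  -- size of B
  have hB3 : 4 * (m + 3) * (P.card + 1) ^ (m + 3) ≤ B := by
    have h1 : ((P.card : ℝ) + 1) ^ (m + 3) ≤ (L : ℝ) ^ (C - 1) := by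
      calc ((P.card : ℝ) + 1) ^ (m + 3) ≤ ((L : ℝ) ^ κ) ^ (m + 3) := by
            gcongr
            exact hS.cardP
        _ = (L : ℝ) ^ (κ * ((m : ℝ) + 3)) := by
            rw [← Real.rpow_natCast, ← Real.rpow_mul hLpos.le]
            push_cast
            rfl
        _ ≤ (L : ℝ) ^ (((C - 1 : ℕ) : ℝ)) := by
            apply Real.rpow_le_rpow_of_exponent_le (by linarith)
            rw [hC, Nat.add_sub_cancel]
            exact Nat.le_ceil _
        _ = (L : ℝ) ^ (C - 1) := Real.rpow_natCast _ _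
    have h2 : (P.card + 1) ^ (m + 3) ≤ L ^ (C - 1) := by exact_mod_cast h1
    calc 4 * (m + 3) * (P.card + 1) ^ (m + 3) ≤ L * L ^ (C - 1) := Nat.mul_le_mul hL4 h2
      _ = L ^ C := by
        rw [← pow_succ', hC, Nat.add_sub_cancel]
      _ ≤ B := hBC
  have hB2 : 4 * (m + 2) * (P.card + 1) ^ (m + 2) ≤ B := by
    refine le_trans ?_ hB3
    apply Nat.mul_le_mul (by omega)
    exact Nat.pow_le_pow_right (by omega) (by omega)
  have hBB : 2 ≤ B := by
    refine le_trans ?_ hB3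
    have : 1 ≤ (P.card + 1) ^ (m + 3) := Nat.one_le_pow _ _ (by omega)
    nlinarith
  have hsub := hS.sub
  -- levels
  obtain ⟨K, k₀, hK, hLv⟩ := hL₁ k L B P T Z e (by omega) hBB hS
  -- zone
  obtain ⟨t, ht1, htJ, hz⟩ := hZON κ δ J P T B K k₀ L hκ0 hδ0 hδ1 hJ1 hTP hBB hK hL3 hlogT
  have ht1r : (1 : ℝ) ≤ t := by exact_mod_cast ht1
  have htJr : (t : ℝ) ≤ J := by exact_mod_cast htJ
  have hL3t : L₃ t ≤ L := by
    have : L₃ t ≤ (range (J + 1)).sup L₃ := Finset.le_sup (f := L₃) (Finset.mem_range.2 (by omega))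
    omega
  set y₀ : ℝ := (2 * (t : ℝ) + 1) * δ with hy₀
  set y₁ : ℝ := 2 * t * δ with hy₁
  have hy₀h : y₀ ≤ 1 / 2 := by
    calc (2 * (t : ℝ) + 1) * δ ≤ (2 * (J : ℝ) + 1) * δ := by gcongr
      _ ≤ 1 / 2 := hδ1
  have hy01 : y₁ + δ = y₀ := by rw [hy₀, hy₁]; ring
  have hy1n : 0 ≤ y₁ := by positivity
  have hyL : 4 * ((m : ℝ) + 2) ≤ y * Real.log L := by
    have := hL₇ L (by omega)
    rw [div_le_iff₀ hy0] at this
    linarith
  refine ⟨K, k₀, y₀, y₁, y, 3 * (2 * ε), ?_, ?_⟩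
  · exact
      { sub := hsub
        ne := hTne
        hB := hB2
        hK := hK
        hL := hL3
        hT := hlogT
        hb := ⟨by linarith, by linarith⟩
        hy := ⟨hy0, hy1n, by linarith, hy₀h⟩
        hyL := hyL }
  -- the bounds
  set N : ℝ := (T.card : ℝ) with hN
  have hNm : (0 : ℝ) < N ^ m := by positivity
  have hNm1 : (0 : ℝ) < N ^ (m + 1) := by positivity
  obtain ⟨b0, b1⟩ := hL₂ P T B K k₀ L (by omega) hTP hTne hBB hK hLv
  have b5 := hL₃ t ⟨ht1, htJ⟩ P T B K k₀ L hL3t hTP hTne hBB hK hlogT hLv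
  have hz' : (nb (T ×ˢ range L) (fun x : ℕ × ℕ =>
      (1 - y₀) * Real.log L ≤ cc P T B K k₀ x.2 x.1 ∧
      cc P T B K k₀ x.2 x.1 < (1 - y₁) * Real.log L) : ℝ) ≤ 2 * κ / J * T.card := hz
  have b8' := hL₄ P T B K k₀ L y₀ y₁ (2 * κ / J) (by omega) hsub hS.big hBB hK
    (by linarith) hy1n (by linarith) hy₀h hLv hz'
  have hyl : 0 < y * Real.log L := by positivity
  -- t2
  have b2 : (nb (tup (m + 1) T) (fun ρ => ¬ ∀ i, ∀ v < L,
      cc P T B K k₀ v (ρ i) < (1 - y₀) * Real.log L ∨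
      (1 - y₁) * Real.log L ≤ cc P T B K k₀ v (ρ i)) : ℝ) ≤ η / 8 * N ^ (m + 1) := by
    have c1 := nb_single' m T (fun s => ∀ v < L, cc P T B K k₀ v s < (1 - y₀) * Real.log L ∨
      (1 - y₁) * Real.log L ≤ cc P T B K k₀ v s)
    have c2 : nb T (fun s => ¬ ∀ v < L, cc P T B K k₀ v s < (1 - y₀) * Real.log L ∨
        (1 - y₁) * Real.log L ≤ cc P T B K k₀ v s) ≤
        nb (T ×ˢ range L) (fun x : ℕ × ℕ =>
          (1 - y₀) * Real.log L ≤ cc P T B K k₀ x.2 x.1 ∧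
          cc P T B K k₀ x.2 x.1 < (1 - y₁) * Real.log L) := by
      refine (nb_mono _ _ (fun s => ∃ v < L, (1 - y₀) * Real.log L ≤ cc P T B K k₀ v s ∧
          cc P T B K k₀ v s < (1 - y₁) * Real.log L) ?_).trans
        (nb_fst T L (fun v s => (1 - y₀) * Real.log L ≤ cc P T B K k₀ v s ∧
          cc P T B K k₀ v s < (1 - y₁) * Real.log L))
      intro s _ h
      push Not at h
      obtain ⟨v, hv, h1, h2⟩ := h
      exact ⟨v, hv, h1, h2⟩
    have c3 : (nb T (fun s => ¬ ∀ v < L, cc P T B K k₀ v s < (1 - y₀) * Real.log L ∨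
        (1 - y₁) * Real.log L ≤ cc P T B K k₀ v s) : ℝ) ≤ r * N := by
      calc _ ≤ _ := by exact_mod_cast c2
        _ ≤ 2 * κ / J * N := hz'
        _ ≤ r * N := by gcongr
    calc _ ≤ ((m : ℝ) + 1) * ((nb T (fun s => ¬ ∀ v < L,
            cc P T B K k₀ v s < (1 - y₀) * Real.log L ∨
            (1 - y₁) * Real.log L ≤ cc P T B K k₀ v s) : ℝ) * N ^ m) := c1
      _ ≤ M * (r * N * N ^ m) := by gcongr
      _ = (M * r) * N ^ (m + 1) := by ring
      _ ≤ η / 8 * N ^ (m + 1) := by gcongr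
  -- t7
  have b7 : (nb (tup (m + 1) T) (fun ρ => ¬ ∀ i, ρ i < B ^ (L - 1)) : ℝ) ≤
      η / 8 * N ^ (m + 1) := by
    have c1 := nb_single' m T (fun s => s < B ^ (L - 1))
    have c3 : (nb T (fun s => ¬ s < B ^ (L - 1)) : ℝ) ≤ ε * N := by
      refine le_trans ?_ hS.low
      rw [nb_eq]
      have : (Finset.filter (fun s => ¬ s < B ^ (L - 1)) T) ⊆ (T.filter fun s => B ^ (L - 1) ≤ s) := by
        intro s hs
        rw [Finset.mem_filter] at hs ⊢
        exact ⟨hs.1, not_lt.1 hs.2⟩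
      exact Nat.cast_le.2 (Finset.card_le_card this)
    calc _ ≤ ((m : ℝ) + 1) * ((nb T (fun s => ¬ s < B ^ (L - 1)) : ℝ) * N ^ m) := c1
      _ ≤ M * (ε * N * N ^ m) := by gcongr
      _ = (M * ε) * N ^ (m + 1) := by ring
      _ ≤ η / 8 * N ^ (m + 1) := by
        gcongr
        calc M * ε ≤ M * (η / (8 * M)) := by gcongr
          _ = η / 8 := by field_simp
  -- t8
  have b8 : (nb (tup (m + 1) T) (fun ρ => ¬ ∀ i, (Jc P T B K k₀ L y₁ (ρ i)).Nonempty) : ℝ) ≤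
      η / 8 * N ^ (m + 1) := by
    have c1 := nb_single' m T (fun s => (Jc P T B K k₀ L y₁ s).Nonempty)
    have c3 : (nb T (fun s => ¬ (Jc P T B K k₀ L y₁ s).Nonempty) : ℝ) ≤
        Real.sqrt (3 * r) * N := by
      calc (nb T (fun s => ¬ (Jc P T B K k₀ L y₁ s).Nonempty) : ℝ) ≤
            (nb T (fun s => Jc P T B K k₀ L y₁ s = ∅) : ℝ) := by
              exact_mod_cast nb_mono _ _ _ fun s _ h => Finset.not_nonempty_iff_eq_empty.1 h
        _ ≤ Real.sqrt (2 * (2 * κ / J) + r) * N := b8'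
        _ ≤ Real.sqrt (3 * r) * N := by
            gcongr
            linarith
    calc _ ≤ ((m : ℝ) + 1) * ((nb T (fun s => ¬ (Jc P T B K k₀ L y₁ s).Nonempty) : ℝ) * N ^ m) := c1
      _ ≤ M * (Real.sqrt (3 * r) * N * N ^ m) := by gcongr
      _ = (M * Real.sqrt (3 * r)) * N ^ (m + 1) := by ring
      _ ≤ η / 8 * N ^ (m + 1) := by gcongr
  -- star
  have s3 := hL₅ P T B K k₀ L (by omega) hsub hTne hK (by
    have : 4 * (m + 1 + 2) * (P.card + 1) ^ (m + 1 + 2) = 4 * (m + 3) * (P.card + 1) ^ (m + 3) := by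
      ring
    rw [this]; exact hB3) hlogT hLv
  have s4 := hL₆ P T B K k₀ L (by omega) hsub hTne hK hB2 hlogT hLv
  have b3 : (nb (tup (m + 1) T) (fun ρ => ¬ star P T B K k₀ L ρ ≤ y * Real.log L) : ℝ) ≤
      η / 16 * N ^ (m + 1) := by
    have c1 := markov (tup (m + 1) T) (fun ρ => star P T B K k₀ L ρ)
      (fun ρ _ => star_nonneg P T B K k₀ L ρ) _ hyl
    refine c1.trans ?_
    rw [div_le_iff₀ hyl]
    refine s3.trans ?_
    have e1 : 40 * M ^ 2 * κ * w ≤ η / 16 * y := by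
      have e2 : 40 * M ^ 3 * κ * w = η / 16 * y := by
        rw [hw]
        field_simp
        ring
      have e3 : M ^ 2 ≤ M ^ 3 := pow_le_pow_right₀ hM1 (by norm_num)
      calc 40 * M ^ 2 * κ * w ≤ 40 * M ^ 3 * κ * w := by gcongr
        _ = _ := e2
    calc 40 * (((m + 1 : ℕ) : ℝ)) ^ 2 * κ * Real.sqrt (2 * ε) * Real.log L * N ^ (m + 1)
        ≤ 40 * M ^ 2 * κ * w * Real.log L * N ^ (m + 1) := by
          push_cast
          rw [← hM]
          gcongr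
      _ ≤ (η / 16 * y) * Real.log L * N ^ (m + 1) := by gcongr
      _ = η / 16 * N ^ (m + 1) * (y * Real.log L) := by ring
  have b4 : (nb (tup (m + 1) T) (fun ρ => ¬ ∀ i : Fin (m + 1),
      star P T B K k₀ L (fun j : Fin m => ρ (i.succAbove j)) ≤ y * Real.log L) : ℝ) ≤
      η / 16 * N ^ (m + 1) := by
    have c1 := nb_sub' m T (fun Y : Fin m → ℕ => star P T B K k₀ L Y ≤ y * Real.log L)
    have c2 := markov (tup m T) (fun ρ => star P T B K k₀ L ρ)
      (fun ρ _ => star_nonneg P T B K k₀ L ρ) _ hyl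
    have c3 : (nb (tup m T) (fun ρ => ¬ star P T B K k₀ L ρ ≤ y * Real.log L) : ℝ) ≤
        η / (16 * M) * N ^ m := by
      refine c2.trans ?_
      rw [div_le_iff₀ hyl]
      refine s4.trans ?_
      have e1 : 40 * M ^ 2 * κ * w ≤ η / (16 * M) * y := by
        rw [hw]
        apply le_of_eq
        field_simp
        ring
      have hmM : (m : ℝ) ≤ M := by linarith
      calc 40 * (m : ℝ) ^ 2 * κ * Real.sqrt (2 * ε) * Real.log L * N ^ m
          ≤ 40 * M ^ 2 * κ * w * Real.log L * N ^ m := by gcongr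
        _ ≤ (η / (16 * M) * y) * Real.log L * N ^ m := by gcongr
        _ = η / (16 * M) * N ^ m * (y * Real.log L) := by ring
    calc _ ≤ ((m : ℝ) + 1) * (N * (nb (tup m T)
            (fun ρ => ¬ star P T B K k₀ L ρ ≤ y * Real.log L) : ℝ)) := c1
      _ ≤ M * (N * (η / (16 * M) * N ^ m)) := by gcongr
      _ = η / 16 * N ^ (m + 1) := by field_simp; ring
  -- union bound
  have hun : nb (tup (m + 1) T) (fun ρ => ¬ Typ P T B K k₀ L y₀ y₁ y (3 * (2 * ε)) ρ) ≤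
      nb (tup (m + 1) T) (fun ρ => ¬ ∀ i, ∑ v ∈ Finset.range (L + 1),
        co P T B (gl K k₀ v) (gl K k₀ v + 2) (ρ i) ≤ 1 / 2) +
      (nb (tup (m + 1) T) (fun ρ => ¬ ∀ v < L, ∀ i j, i ≠ j → Ac P T B K k₀ v (ρ i) →
        ¬ Ac P T B K k₀ v (ρ j) ∧ pc P T B K k₀ v (ρ j) < (L : ℝ) ^ (-1 + 3 * (2 * ε))) +
      (nb (tup (m + 1) T) (fun ρ => ¬ ∀ i, ∀ v < L,
        cc P T B K k₀ v (ρ i) < (1 - y₀) * Real.log L ∨
        (1 - y₁) * Real.log L ≤ cc P T B K k₀ v (ρ i)) +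
      (nb (tup (m + 1) T) (fun ρ => ¬ star P T B K k₀ L ρ ≤ y * Real.log L) +
      (nb (tup (m + 1) T) (fun ρ => ¬ ∀ i : Fin (m + 1),
        star P T B K k₀ L (fun j : Fin m => ρ (i.succAbove j)) ≤ y * Real.log L) +
      (nb (tup (m + 1) T) (fun ρ => ¬ ∀ i : Fin (m + 1),
        ∀ v ∈ Br P T B K k₀ L y (fun j : Fin m => ρ (i.succAbove j)),
        pc P T B K k₀ v (ρ i) < (L : ℝ) ^ (-1 + y₀) ∧ ¬ Ac P T B K k₀ v (ρ i)) +
      (nb (tup (m + 1) T) (fun ρ => ¬ ∀ i, ρ i < B ^ (L - 1)) +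
        nb (tup (m + 1) T) (fun ρ => ¬ ∀ i, (Jc P T B K k₀ L y₁ (ρ i)).Nonempty))))))) := by
    refine le_trans (nb_mono _ _ _ ?_) ((nb_or _ _ _).trans (Nat.add_le_add_left
      ((nb_or _ _ _).trans (Nat.add_le_add_left ((nb_or _ _ _).trans (Nat.add_le_add_left
      ((nb_or _ _ _).trans (Nat.add_le_add_left ((nb_or _ _ _).trans (Nat.add_le_add_left
      ((nb_or _ _ _).trans (Nat.add_le_add_left (nb_or _ _ _) _)) _)) _)) _)) _)) _))
    intro ρ hρ h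
    by_contra hcon
    push Not at hcon
    obtain ⟨k0, k1, k2, k3, k4, k5, k7, k8⟩ := hcon
    apply h
    exact
      { mem := mem_tup.1 hρ
        t0 := k0
        t1 := k1
        t2 := fun v hv i => k2 i v hv
        t3 := k3
        t4 := k4
        t5 := k5
        t7 := k7
        t8 := k8 }
  have hun' : (nb (tup (m + 1) T) (fun ρ => ¬ Typ P T B K k₀ L y₀ y₁ y (3 * (2 * ε)) ρ) : ℝ) ≤ _ :=
    Nat.cast_le.2 hun
  push_cast at hun'
  refine hun'.trans ?_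
  have hfin : η / 8 * N ^ (m + 1) + (η / 8 * N ^ (m + 1) + (η / 8 * N ^ (m + 1) +
      (η / 16 * N ^ (m + 1) + (η / 16 * N ^ (m + 1) + (η / 8 * N ^ (m + 1) +
      (η / 8 * N ^ (m + 1) + η / 8 * N ^ (m + 1))))))) ≤ η * N ^ (m + 1) := by
    have h0 : 0 < η * N ^ (m + 1) := mul_pos hη hNm1
    linarith
  refine le_trans ?_ hfin
  gcongr

end Pool.Agent.Lib.MP5b6025.EP
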