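import Pool.Agent.Lib.MP_5b6025_nt.EP.AMT
import Pool.Agent.Lib.MP_5b6025_nt.EP.TYP

/-!
Module CT0 (helper91): counting, conditions t0, t1.
-/

set_option autoImplicit false

open Finset

namespace Pool.Agent.Lib.MP5b6025.EP

namespace CT0M

lemma ev (κ ε η : ℝ) (m : ℕ) (hε : 0 < ε) (hε' : ε ≤ 1 / 100) (hη : 0 < η) :
    ∃ L₀ : ℕ, ∀ L : ℕ, L₀ ≤ L → 2 ≤ L ∧
      ((m : ℝ) + 1) * (2 * (4 * κ / Real.log L ^ 2)) ≤ η ∧
      ((m : ℝ) + 1) ^ 2 * ((L : ℝ) ^ (-(1 - 2 * ε)) + (L : ℝ) ^ (-ε)) ≤ η := by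
  have hlog : Filter.Tendsto (fun L : ℕ => Real.log L) Filter.atTop Filter.atTop :=
    Real.tendsto_log_atTop.comp tendsto_natCast_atTop_atTop
  have h1 : Filter.Tendsto (fun L : ℕ => ((m : ℝ) + 1) * (2 * (4 * κ / Real.log L ^ 2)))
      Filter.atTop (nhds (((m : ℝ) + 1) * (2 * 0))) := by
    apply Filter.Tendsto.const_mul
    apply Filter.Tendsto.const_mul
    apply Filter.Tendsto.const_div_atTop
    exact (Filter.tendsto_pow_atTop (by norm_num)).comp hlog
  have h2 : Filter.Tendsto (fun L : ℕ => ((m : ℝ) + 1) ^ 2 *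
      ((L : ℝ) ^ (-(1 - 2 * ε)) + (L : ℝ) ^ (-ε))) Filter.atTop
      (nhds (((m : ℝ) + 1) ^ 2 * (0 + 0))) := by
    apply Filter.Tendsto.const_mul
    apply Filter.Tendsto.add
    · exact (tendsto_rpow_neg_atTop (by linarith)).comp tendsto_natCast_atTop_atTop
    · exact (tendsto_rpow_neg_atTop hε).comp tendsto_natCast_atTop_atTop
  rw [mul_zero, mul_zero] at h1
  rw [add_zero, mul_zero] at h2
  have h3 := (h1.eventually (ge_mem_nhds hη)).and ((h2.eventually (ge_mem_nhds hη)).and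
    (Filter.eventually_ge_atTop 2))
  obtain ⟨L₀, hL₀⟩ := Filter.eventually_atTop.1 h3
  exact ⟨L₀, fun L hL => ⟨(hL₀ L hL).2.2, (hL₀ L hL).1, (hL₀ L hL).2.1⟩⟩

/-- Tuples with conditions on two coordinates. -/
lemma nb_pq {m : ℕ} (T : Finset ℕ) (hT : T.Nonempty) {i j : Fin m} (hij : i ≠ j)
    (p q : ℕ → Prop) [DecidablePred p] [DecidablePred q] :
    (((tup m T).filter fun ρ => p (ρ i) ∧ q (ρ j)).card : ℝ) =
      (T.card : ℝ) ^ m * (((T.filter p).card / T.card) * ((T.filter q).card / T.card)) := by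
  classical
  have hc : (T.card : ℝ) ≠ 0 := by
    have := hT.card_pos
    positivity
  have h1 := AMTM.sum_two T hij fun s s' => if p s ∧ q s' then (1 : ℝ) else 0
  have h2 : ∑ s ∈ T, ∑ s' ∈ T, (if p s ∧ q s' then (1 : ℝ) else 0) =
      (T.filter p).card * (T.filter q).card := by
    have h3 : ∀ s ∈ T, ∑ s' ∈ T, (if p s ∧ q s' then (1 : ℝ) else 0) =
        (if p s then (1 : ℝ) else 0) * (T.filter q).card := by
      intro s _
      by_cases hp : p s
      · simp [hp, Finset.sum_boole]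
      · simp [hp]
    rw [Finset.sum_congr rfl h3, ← Finset.sum_mul, Finset.sum_boole]
  rw [h2, Finset.sum_boole] at h1
  field_simp
  linarith

lemma gl_le (K k₀ v : ℕ) (hK : 10 ≤ K) : gl K k₀ v + 2 ≤ gl K k₀ (v + 1) := by
  unfold gl
  rw [if_neg (by omega : v + 1 ≠ 0)]
  split_ifs with h
  · subst h
    omega
  · have : (v + 1) * K = v * K + K := by ring
    omega

end CT0M

open CT0M in
/-- Module CT0. -/
theorem specCT0 (hWT : SpecWT) : SpecCT0 := by
  classical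
  intro κ ε η m hκ hε hε' hη
  obtain ⟨L₀, hL₀⟩ := ev κ ε η m hε hε' hη
  refine ⟨L₀, fun P T B K k₀ L hL hTP hT hB hK hLvl => ?_⟩
  obtain ⟨hL2, hb1, hb2⟩ := hL₀ L hL
  obtain ⟨-, w2, w3, -, w5, -, -, -, -⟩ := hWT P T B hTP hB
  have hTc : 0 < (T.card : ℝ) := by exact_mod_cast hT.card_pos
  have hLr : (0 : ℝ) < L := by
    have : 0 < L := by omega
    exact_mod_cast this
  constructor
  · -- t0
    refine (TYPM.nb_single' m T (fun s => ∑ v ∈ Finset.range (L + 1),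
      co P T B (gl K k₀ v) (gl K k₀ v + 2) s ≤ 1 / 2)).trans ?_
    have h1 : (nb T (fun s => ¬ ∑ v ∈ Finset.range (L + 1),
        co P T B (gl K k₀ v) (gl K k₀ v + 2) s ≤ 1 / 2) : ℝ) ≤
        2 * (4 * κ / Real.log L ^ 2) * T.card := by
      refine (TYPM.markov T _ (fun s hs => Finset.sum_nonneg fun v _ =>
        (w2 _ _ (by omega) s hs).2) (1 / 2) (by norm_num)).trans ?_
      have := hLvl.phb
      rw [div_le_iff₀ (by norm_num)]
      linarith
    calc ((m : ℝ) + 1) * ((nb T (fun s => ¬ ∑ v ∈ Finset.range (L + 1),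
          co P T B (gl K k₀ v) (gl K k₀ v + 2) s ≤ 1 / 2) : ℝ) * (T.card : ℝ) ^ m)
        ≤ ((m : ℝ) + 1) * (2 * (4 * κ / Real.log L ^ 2) * T.card * (T.card : ℝ) ^ m) := by
          gcongr
      _ = ((m : ℝ) + 1) * (2 * (4 * κ / Real.log L ^ 2)) * (T.card : ℝ) ^ (m + 1) := by ring
      _ ≤ η * (T.card : ℝ) ^ (m + 1) := by gcongr
  · -- t1
    set thr : ℝ := (L : ℝ) ^ (-1 + 3 * ε) with hthr
    have hthr0 : 0 < thr := by positivity
    set Q : ℕ → ℕ → Prop := fun v s => Ac P T B K k₀ v s ∨ ¬ pc P T B K k₀ v s < thr with hQ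
    have hQc : ∀ v < L, ((T.filter fun s => Q v s).card : ℝ) ≤
        ((L : ℝ) ^ (-1 + ε) + (L : ℝ) ^ (-(2 * ε))) * T.card := by
      intro v hv
      have h1 := hLvl.act v hv
      have h2 : ((T.filter fun s => ¬ pc P T B K k₀ v s < thr).card : ℝ) ≤
          (L : ℝ) ^ (-(2 * ε)) * T.card := by
        have h3 : ((T.filter fun s => ¬ pc P T B K k₀ v s < thr).card : ℝ) * thr ≤
            ∑ s ∈ T, pc P T B K k₀ v s := by
          calc ((T.filter fun s => ¬ pc P T B K k₀ v s < thr).card : ℝ) * thr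
              = ∑ s ∈ T.filter (fun s => ¬ pc P T B K k₀ v s < thr), thr := by
                rw [Finset.sum_const, nsmul_eq_mul]
            _ ≤ ∑ s ∈ T.filter (fun s => ¬ pc P T B K k₀ v s < thr), pc P T B K k₀ v s :=
                Finset.sum_le_sum fun s hs => not_lt.1 (Finset.mem_filter.1 hs).2
            _ ≤ _ := Finset.sum_le_sum_of_subset_of_nonneg (Finset.filter_subset _ _)
                fun s _ _ => (w3 _ _ s).1
        have h4 : ∑ s ∈ T, pc P T B K k₀ v s = (T.filter fun s => Ac P T B K k₀ v s).card :=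
          w5 _ _ (gl_le K k₀ v hK)
        rw [h4] at h3
        have h5 : (L : ℝ) ^ (-1 + ε) = (L : ℝ) ^ (-(2 * ε)) * thr := by
          rw [hthr, ← Real.rpow_add hLr]
          congr 1
          ring
        rw [h5] at h1
        have h6 : ((T.filter fun s => ¬ pc P T B K k₀ v s < thr).card : ℝ) * thr ≤
            (L : ℝ) ^ (-(2 * ε)) * T.card * thr := by linarith
        exact le_of_mul_le_mul_right h6 hthr0
      have h3 : ((T.filter fun s => Q v s).card : ℝ) ≤ (T.filter fun s => Ac P T B K k₀ v s).card +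
          (T.filter fun s => ¬ pc P T B K k₀ v s < thr).card := by
        have h4 : (T.filter fun s => Q v s) = (T.filter fun s => Ac P T B K k₀ v s) ∪
            (T.filter fun s => ¬ pc P T B K k₀ v s < thr) := by
          rw [← Finset.filter_or]
        rw [h4]
        exact_mod_cast Finset.card_union_le _ _
      linarith
    -- union bound
    have h1 : nb (tup (m + 1) T) (fun ρ => ¬ ∀ v < L, ∀ i j, i ≠ j → Ac P T B K k₀ v (ρ i) →
        ¬ Ac P T B K k₀ v (ρ j) ∧ pc P T B K k₀ v (ρ j) < thr) ≤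
        ∑ v ∈ Finset.range L, ∑ x : Fin (m + 1) × Fin (m + 1),
          ((tup (m + 1) T).filter fun ρ => x.1 ≠ x.2 ∧ Ac P T B K k₀ v (ρ x.1) ∧
            Q v (ρ x.2)).card := by
      rw [TYPM.nb_eq]
      rw [← Finset.sum_product' (f := fun v (x : Fin (m + 1) × Fin (m + 1)) =>
        ((tup (m + 1) T).filter fun ρ => x.1 ≠ x.2 ∧ Ac P T B K k₀ v (ρ x.1) ∧
            Q v (ρ x.2)).card)]
      refine le_trans (Finset.card_le_card ?_) Finset.card_biUnion_le
      intro ρ hρ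
      rw [Finset.mem_filter] at hρ
      obtain ⟨hρ, hne⟩ := hρ
      push Not at hne
      obtain ⟨v, hv, i, j, hij, hA, hcon⟩ := hne
      rw [Finset.mem_biUnion]
      refine ⟨(v, (i, j)), by simp [hv], Finset.mem_filter.2 ⟨hρ, hij, hA, ?_⟩⟩
      by_cases hA2 : Ac P T B K k₀ v (ρ j)
      · exact Or.inl hA2
      · exact Or.inr (not_lt.2 (hcon hA2))
    have h2 : (nb (tup (m + 1) T) (fun ρ => ¬ ∀ v < L, ∀ i j, i ≠ j → Ac P T B K k₀ v (ρ i) →
        ¬ Ac P T B K k₀ v (ρ j) ∧ pc P T B K k₀ v (ρ j) < thr) : ℝ) ≤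
        ∑ v ∈ Finset.range L, ∑ x : Fin (m + 1) × Fin (m + 1),
          (((tup (m + 1) T).filter fun ρ => x.1 ≠ x.2 ∧ Ac P T B K k₀ v (ρ x.1) ∧
            Q v (ρ x.2)).card : ℝ) := by
      exact_mod_cast h1
    refine h2.trans ?_
    have h3 : ∀ v ∈ Finset.range L, ∀ x ∈ (Finset.univ : Finset (Fin (m + 1) × Fin (m + 1))),
        (((tup (m + 1) T).filter fun ρ => x.1 ≠ x.2 ∧ Ac P T B K k₀ v (ρ x.1) ∧
            Q v (ρ x.2)).card : ℝ) ≤ (T.card : ℝ) ^ (m + 1) *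
          ((L : ℝ) ^ (-1 + ε) * ((L : ℝ) ^ (-1 + ε) + (L : ℝ) ^ (-(2 * ε)))) := by
      intro v hv x _
      rw [Finset.mem_range] at hv
      by_cases hx : x.1 = x.2
      · simp only [hx, ne_eq, not_true_eq_false, false_and, Finset.filter_false,
          Finset.card_empty, Nat.cast_zero]
        positivity
      · have h4 : ((tup (m + 1) T).filter fun ρ => x.1 ≠ x.2 ∧ Ac P T B K k₀ v (ρ x.1) ∧
            Q v (ρ x.2)) = (tup (m + 1) T).filter fun ρ => Ac P T B K k₀ v (ρ x.1) ∧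
            Q v (ρ x.2) := by
          apply Finset.filter_congr
          intro ρ _
          exact ⟨fun h => h.2, fun h => ⟨hx, h⟩⟩
        rw [h4, nb_pq T hT hx (fun s => Ac P T B K k₀ v s) (fun s => Q v s)]
        have h5 := hLvl.act v hv
        have h6 := hQc v hv
        have h7 : ((T.filter fun s => Ac P T B K k₀ v s).card : ℝ) / T.card ≤
            (L : ℝ) ^ (-1 + ε) := by rwa [div_le_iff₀ hTc]
        have h8 : ((T.filter fun s => Q v s).card : ℝ) / T.card ≤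
            ((L : ℝ) ^ (-1 + ε) + (L : ℝ) ^ (-(2 * ε))) := by rwa [div_le_iff₀ hTc]
        gcongr
    refine (Finset.sum_le_sum fun v hv => Finset.sum_le_sum fun x hx => h3 v hv x hx).trans ?_
    rw [Finset.sum_const, Finset.sum_const, Finset.card_range, Finset.card_univ,
      Fintype.card_prod, Fintype.card_fin, nsmul_eq_mul, nsmul_eq_mul]
    push_cast
    have h4 : (L : ℝ) * (L : ℝ) ^ (-1 + ε) = (L : ℝ) ^ ε := by
      rw [mul_comm, ← Real.rpow_add_one hLr.ne']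
      congr 1
      ring
    have h5 : (L : ℝ) ^ ε * (L : ℝ) ^ (-1 + ε) = (L : ℝ) ^ (-(1 - 2 * ε)) := by
      rw [← Real.rpow_add hLr]
      congr 1
      ring
    have h6 : (L : ℝ) ^ ε * (L : ℝ) ^ (-(2 * ε)) = (L : ℝ) ^ (-ε) := by
      rw [← Real.rpow_add hLr]
      congr 1
      ring
    calc (L : ℝ) * (((m : ℝ) + 1) * ((m : ℝ) + 1) * ((T.card : ℝ) ^ (m + 1) *
          ((L : ℝ) ^ (-1 + ε) * ((L : ℝ) ^ (-1 + ε) + (L : ℝ) ^ (-(2 * ε))))))
        = ((m : ℝ) + 1) ^ 2 * (((L : ℝ) * (L : ℝ) ^ (-1 + ε)) * (L : ℝ) ^ (-1 + ε) +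
          ((L : ℝ) * (L : ℝ) ^ (-1 + ε)) * (L : ℝ) ^ (-(2 * ε))) * (T.card : ℝ) ^ (m + 1) := by
          ring
      _ = ((m : ℝ) + 1) ^ 2 * ((L : ℝ) ^ (-(1 - 2 * ε)) + (L : ℝ) ^ (-ε)) *
          (T.card : ℝ) ^ (m + 1) := by rw [h4, h5, h6]
      _ ≤ η * (T.card : ℝ) ^ (m + 1) := by gcongr

end Pool.Agent.Lib.MP5b6025.EP
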