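import Pool.Agent.Lib.MP_5b6025_nt.EP.Spec

/-!
# EP: module CT5 (counting, condition t5)
-/

set_option autoImplicit false

namespace Pool.Agent.Lib.MP5b6025.EP.CT5M

open Finset

theorem gl_two_le {K k₀ : ℕ} (hK : 10 ≤ K) (v : ℕ) : gl K k₀ v + 2 ≤ gl K k₀ (v + 1) := by
  unfold gl
  rw [if_neg (Nat.succ_ne_zero v)]
  split_ifs with h
  · subst h
    omega
  · have : (v + 1) * K = v * K + K := by ring
    omega

/-- analytic choice of `L₀` -/
theorem choice {κ ε η : ℝ} (m : ℕ) (hκ : 1 ≤ κ) (hε : 0 < ε) (hη : 0 < η) :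
    ∃ L₀ : ℕ, 3 ≤ L₀ ∧ ∀ L : ℕ, L₀ ≤ L →
      ((m : ℝ) + 1) * (4 * m * κ * Real.log L * (L : ℝ) ^ (-(2 * ε))) ≤ η := by
  have h1 : Filter.Tendsto (fun x : ℝ => ((m : ℝ) + 1) * (4 * m * κ / ε) * x ^ (-ε))
      Filter.atTop (nhds (((m : ℝ) + 1) * (4 * m * κ / ε) * 0)) :=
    (tendsto_rpow_neg_atTop hε).const_mul _
  rw [mul_zero] at h1
  have h2 := (h1.comp tendsto_natCast_atTop_atTop).eventually (gt_mem_nhds hη)
  obtain ⟨N, hN⟩ := Filter.eventually_atTop.mp h2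
  refine ⟨max N 3, le_max_right _ _, fun L hL => ?_⟩
  have hL3 : 3 ≤ L := (le_max_right _ _).trans hL
  have h3 := hN L ((le_max_left _ _).trans hL)
  simp only [Function.comp] at h3
  have hL0 : (0 : ℝ) < L := by
    have : (3 : ℝ) ≤ L := by exact_mod_cast hL3
    linarith
  refine le_trans ?_ h3.le
  have h4 : Real.log L ≤ (L : ℝ) ^ ε / ε := Real.log_le_rpow_div hL0.le hε
  have h5 : (L : ℝ) ^ ε / ε * (L : ℝ) ^ (-(2 * ε)) = (L : ℝ) ^ (-ε) / ε := by
    rw [div_mul_eq_mul_div, ← Real.rpow_add hL0]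
    congr 2
    ring
  have hm : (0 : ℝ) ≤ m := Nat.cast_nonneg m
  have h6 : (0 : ℝ) ≤ (L : ℝ) ^ (-(2 * ε)) := Real.rpow_nonneg hL0.le _
  calc ((m : ℝ) + 1) * (4 * m * κ * Real.log L * (L : ℝ) ^ (-(2 * ε)))
      = ((m : ℝ) + 1) * (4 * m * κ) * (Real.log L * (L : ℝ) ^ (-(2 * ε))) := by ring
    _ ≤ ((m : ℝ) + 1) * (4 * m * κ) * ((L : ℝ) ^ ε / ε * (L : ℝ) ^ (-(2 * ε))) := by
        apply mul_le_mul_of_nonneg_left
        · exact mul_le_mul_of_nonneg_right h4 h6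
        · positivity
    _ = ((m : ℝ) + 1) * (4 * m * κ / ε) * (L : ℝ) ^ (-ε) := by
        rw [h5]
        ring

/-- counting tuples through one coordinate -/
theorem count_tuples (T : Finset ℕ) (m : ℕ) (i : Fin (m + 1)) (Q : (Fin m → ℕ) → Finset ℕ)
    (p : (Fin (m + 1) → ℕ) → Prop) [DecidablePred p]
    (hp : ∀ ρ, p ρ → ρ i ∈ Q (fun j => ρ (i.succAbove j))) {c : ℝ}
    (hQ : ∀ Y ∈ tup m T, ((Q Y).card : ℝ) ≤ c) :
    ((((tup (m + 1) T).filter p).card : ℕ) : ℝ) ≤ c * (T.card : ℝ) ^ m := by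
  have h1 : ((tup (m + 1) T).filter p).card ≤ ((tup m T).sigma Q).card := by
    apply card_le_card_of_injOn (fun ρ => ⟨fun j => ρ (i.succAbove j), ρ i⟩)
    · intro ρ hρ
      have hρ' := mem_filter.mp hρ
      have h2 := hρ'.1
      unfold tup at h2
      rw [Fintype.mem_piFinset] at h2
      rw [mem_coe, mem_sigma]
      refine ⟨?_, hp ρ hρ'.2⟩
      unfold tup
      rw [Fintype.mem_piFinset]
      exact fun j => h2 _
    · intro ρ _ ρ' _ h
      have h3 := Sigma.mk.inj h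
      have h4 : ρ i = ρ' i := eq_of_heq h3.2
      funext k
      by_cases hk : k = i
      · rw [hk, h4]
      · obtain ⟨j, rfl⟩ := Fin.exists_succAbove_eq hk
        exact congrFun h3.1 j
  have h2 : (((tup m T).sigma Q).card : ℝ) ≤ c * (T.card : ℝ) ^ m := by
    rw [card_sigma]
    push_cast
    refine (sum_le_sum hQ).trans ?_
    rw [sum_const, nsmul_eq_mul]
    unfold tup
    rw [Fintype.card_piFinset, prod_const, card_univ, Fintype.card_fin]
    push_cast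
    rw [mul_comm]
  exact le_trans (by exact_mod_cast h1) h2

theorem nb_le_sum {α ι : Type} [DecidableEq α] (S : Finset α) (p : α → Prop) (I : Finset ι)
    (q : ι → α → Prop) [∀ i, DecidablePred (q i)] (h : ∀ a ∈ S, p a → ∃ i ∈ I, q i a) :
    nb S p ≤ ∑ i ∈ I, (S.filter (q i)).card := by
  classical
  unfold nb
  refine le_trans (card_le_card ?_) card_biUnion_le
  intro a ha
  have ha' := mem_filter.mp ha
  obtain ⟨i, hi, hq⟩ := h a ha'.1 ha'.2
  exact mem_biUnion.mpr ⟨i, hi, mem_filter.mpr ⟨ha'.1, hq⟩⟩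

end Pool.Agent.Lib.MP5b6025.EP.CT5M

namespace Pool.Agent.Lib.MP5b6025.EP

open Finset CT5M

theorem specCT5 (hWT : SpecWT) (hBRN : SpecBRN) : SpecCT5 := by
  intro κ ε η y₀ y m hκ hε hε' hη hy hyy hy₀
  classical
  obtain ⟨L₀, hL₀3, hL₀⟩ := choice m hκ hε hη
  refine ⟨L₀, fun P T B K k₀ L hL hTP hTne hB hK hT hLvl => ?_⟩
  have hL3 : 3 ≤ L := hL₀3.trans hL
  have hLr : (3 : ℝ) ≤ L := by exact_mod_cast hL3
  have hL0 : (0 : ℝ) < L := by linarith
  have hL1 : (1 : ℝ) ≤ L := by linarith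
  have hlog : 0 < Real.log L := Real.log_pos (by linarith)
  obtain ⟨_, _, hpa, _, hsum, _⟩ := hWT P T B hTP hB
  -- bounds for one transition
  have hAc : ∀ v < L, ((T.filter fun s => Ac P T B K k₀ v s).card : ℝ) ≤
      (L : ℝ) ^ (ε - y₀) * T.card := by
    intro v hv
    refine (hLvl.act v hv).trans ?_
    apply mul_le_mul_of_nonneg_right _ (Nat.cast_nonneg _)
    exact Real.rpow_le_rpow_of_exponent_le hL1 (by linarith)
  have hpc : ∀ v < L, ((T.filter fun s => (L : ℝ) ^ (-1 + y₀) ≤ pc P T B K k₀ v s).card : ℝ) ≤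
      (L : ℝ) ^ (ε - y₀) * T.card := by
    intro v hv
    have h1 : ((T.filter fun s => (L : ℝ) ^ (-1 + y₀) ≤ pc P T B K k₀ v s).card : ℝ)
        * (L : ℝ) ^ (-1 + y₀) ≤ (L : ℝ) ^ (-1 + ε) * T.card := by
      calc _ = ∑ _s ∈ T.filter (fun s => (L : ℝ) ^ (-1 + y₀) ≤ pc P T B K k₀ v s),
            (L : ℝ) ^ (-1 + y₀) := by rw [sum_const, nsmul_eq_mul]
        _ ≤ ∑ s ∈ T.filter (fun s => (L : ℝ) ^ (-1 + y₀) ≤ pc P T B K k₀ v s),
            pc P T B K k₀ v s := sum_le_sum fun s hs => (mem_filter.mp hs).2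
        _ ≤ ∑ s ∈ T, pc P T B K k₀ v s :=
            sum_le_sum_of_subset_of_nonneg (filter_subset _ _) fun s _ _ => (hpa _ _ _).1
        _ = ((T.filter fun s => Ac P T B K k₀ v s).card : ℝ) := by
            have h2 := hsum (gl K k₀ v + 2) (gl K k₀ (v + 1)) (gl_two_le hK v)
            unfold pc
            rw [h2]
            rfl
        _ ≤ _ := hLvl.act v hv
    have h2 : (L : ℝ) ^ (ε - y₀) * (L : ℝ) ^ (-1 + y₀) = (L : ℝ) ^ (-1 + ε) := by
      rw [← Real.rpow_add hL0]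
      congr 1
      ring
    have h3 : 0 < (L : ℝ) ^ (-1 + y₀) := Real.rpow_pos_of_pos hL0 _
    refine le_of_mul_le_mul_right ?_ h3
    refine h1.trans (le_of_eq ?_)
    rw [← h2]
    ring
  -- the bad leaves for `Y`
  set Q : (Fin m → ℕ) → Finset ℕ := fun Y => (Br P T B K k₀ L y Y).biUnion fun v =>
    (T.filter fun s => (L : ℝ) ^ (-1 + y₀) ≤ pc P T B K k₀ v s) ∪
      (T.filter fun s => Ac P T B K k₀ v s) with hQdef
  have hBrL : ∀ (Y : Fin m → ℕ), ∀ v ∈ Br P T B K k₀ L y Y, v < L := by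
    intro Y v hv
    unfold Br at hv
    exact mem_range.mp (mem_filter.mp hv).1
  set c : ℝ := 4 * m * κ * Real.log L * (L : ℝ) ^ (-(2 * ε)) * T.card with hc
  have hN : (0 : ℝ) ≤ T.card := Nat.cast_nonneg _
  have hQ : ∀ Y ∈ tup m T, ((Q Y).card : ℝ) ≤ c := by
    intro Y hY
    have h1 : ((Q Y).card : ℝ) ≤
        (Br P T B K k₀ L y Y).card * (2 * ((L : ℝ) ^ (ε - y₀) * T.card)) := by
      have h2 : (Q Y).card ≤ ∑ v ∈ Br P T B K k₀ L y Y,
          ((T.filter fun s => (L : ℝ) ^ (-1 + y₀) ≤ pc P T B K k₀ v s).card +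
            (T.filter fun s => Ac P T B K k₀ v s).card) := by
        refine card_biUnion_le.trans (sum_le_sum fun v _ => card_union_le _ _)
      have h3 : ((Q Y).card : ℝ) ≤ ∑ v ∈ Br P T B K k₀ L y Y,
          (((T.filter fun s => (L : ℝ) ^ (-1 + y₀) ≤ pc P T B K k₀ v s).card : ℝ) +
            ((T.filter fun s => Ac P T B K k₀ v s).card : ℝ)) := by exact_mod_cast h2
      refine h3.trans ?_
      have h4 : ∀ v ∈ Br P T B K k₀ L y Y,
          (((T.filter fun s => (L : ℝ) ^ (-1 + y₀) ≤ pc P T B K k₀ v s).card : ℝ) +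
            ((T.filter fun s => Ac P T B K k₀ v s).card : ℝ)) ≤
          2 * ((L : ℝ) ^ (ε - y₀) * T.card) := by
        intro v hv
        have h5 := hpc v (hBrL Y v hv)
        have h6 := hAc v (hBrL Y v hv)
        linarith
      refine (sum_le_sum h4).trans ?_
      rw [sum_const, nsmul_eq_mul]
    have h2 := hBRN P T B K k₀ L m κ y Y hy hB hK hL3 hTP hT hY
    refine h1.trans ?_
    have h3 : 0 ≤ 2 * ((L : ℝ) ^ (ε - y₀) * T.card) := by positivity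
    refine (mul_le_mul_of_nonneg_right h2 h3).trans ?_
    have h4 : (L : ℝ) ^ (2 * y) * (L : ℝ) ^ (ε - y₀) ≤ (L : ℝ) ^ (-(2 * ε)) := by
      rw [← Real.rpow_add hL0]
      exact Real.rpow_le_rpow_of_exponent_le hL1 (by linarith)
    have h5 : 0 ≤ 4 * m * κ * Real.log L * T.card := by
      have : (0 : ℝ) ≤ m := Nat.cast_nonneg m
      positivity
    calc 2 * (L : ℝ) ^ (2 * y) * m * κ * Real.log L * (2 * ((L : ℝ) ^ (ε - y₀) * T.card))
        = (4 * m * κ * Real.log L * T.card) * ((L : ℝ) ^ (2 * y) * (L : ℝ) ^ (ε - y₀)) := by ring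
      _ ≤ (4 * m * κ * Real.log L * T.card) * (L : ℝ) ^ (-(2 * ε)) :=
          mul_le_mul_of_nonneg_left h4 h5
      _ = c := by rw [hc]; ring
  -- violating tuples
  set p : Fin (m + 1) → (Fin (m + 1) → ℕ) → Prop := fun i ρ =>
    ρ i ∈ T ∧ ¬ ∀ v ∈ Br P T B K k₀ L y (fun j : Fin m => ρ (i.succAbove j)),
      pc P T B K k₀ v (ρ i) < (L : ℝ) ^ (-1 + y₀) ∧ ¬ Ac P T B K k₀ v (ρ i) with hp
  have hpi : ∀ i, ((((tup (m + 1) T).filter (p i)).card : ℕ) : ℝ) ≤ c * (T.card : ℝ) ^ m := by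
    intro i
    apply count_tuples T m i Q (p i) _ hQ
    rintro ρ ⟨hρT, hρ⟩
    push Not at hρ
    obtain ⟨v, hv, hv'⟩ := hρ
    rw [hQdef, mem_biUnion]
    refine ⟨v, hv, ?_⟩
    rw [mem_union, mem_filter, mem_filter]
    by_cases h : pc P T B K k₀ v (ρ i) < (L : ℝ) ^ (-1 + y₀)
    · right; exact ⟨hρT, hv' h⟩
    · left; exact ⟨hρT, not_lt.mp h⟩
  have hcover : nb (tup (m + 1) T) (fun ρ => ¬ ∀ i : Fin (m + 1),
      ∀ v ∈ Br P T B K k₀ L y (fun j : Fin m => ρ (i.succAbove j)),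
      pc P T B K k₀ v (ρ i) < (L : ℝ) ^ (-1 + y₀) ∧ ¬ Ac P T B K k₀ v (ρ i)) ≤
      ∑ i : Fin (m + 1), ((tup (m + 1) T).filter (p i)).card := by
    apply nb_le_sum
    intro ρ h1 h2
    rw [not_forall] at h2
    obtain ⟨i, hi⟩ := h2
    refine ⟨i, mem_univ _, ?_, hi⟩
    unfold tup at h1
    rw [Fintype.mem_piFinset] at h1
    exact h1 i
  have hcover' : (nb (tup (m + 1) T) (fun ρ => ¬ ∀ i : Fin (m + 1),
      ∀ v ∈ Br P T B K k₀ L y (fun j : Fin m => ρ (i.succAbove j)),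
      pc P T B K k₀ v (ρ i) < (L : ℝ) ^ (-1 + y₀) ∧ ¬ Ac P T B K k₀ v (ρ i)) : ℝ) ≤
      ∑ i : Fin (m + 1), ((((tup (m + 1) T).filter (p i)).card : ℕ) : ℝ) := by
    exact_mod_cast hcover
  refine hcover'.trans ((sum_le_sum fun i _ => hpi i).trans ?_)
  rw [sum_const, card_univ, Fintype.card_fin, nsmul_eq_mul]
  push_cast
  calc ((m : ℝ) + 1) * (c * (T.card : ℝ) ^ m)
      = (((m : ℝ) + 1) * (4 * m * κ * Real.log L * (L : ℝ) ^ (-(2 * ε)))) *
          (T.card : ℝ) ^ (m + 1) := by rw [hc]; ring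
    _ ≤ η * (T.card : ℝ) ^ (m + 1) :=
        mul_le_mul_of_nonneg_right (hL₀ L hL) (by positivity)

end Pool.Agent.Lib.MP5b6025.EP
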