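import Pool.Agent.Lib.MP_5b6025_nt.EP.Spec

/-!
# Module CT8: few leaves have empty content
-/

set_option autoImplicit false

namespace Pool.Agent.Lib.MP5b6025.EP

namespace CT8M

theorem T_sub {P T : Finset ℕ} {B L : ℕ} (hT : ∀ s ∈ T, s ∈ Sta P (B ^ 3) ∧ s < B ^ L) :
    T ⊆ P := by
  intro s hs
  have h := (hT s hs).1
  unfold Sta at h
  exact (Finset.mem_filter.mp h).1

/-- Two elements which are both in majority classes are in the same class. -/
theorem half {P T : Finset ℕ} {B g g' s s' : ℕ}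
    (hr : ∀ x ∈ T, ∀ y ∈ T, st P (B ^ g) x = st P (B ^ g) y → st P (B ^ g') x = st P (B ^ g') y)
    (hs : s ∈ T) (hs' : s' ∈ T) (he : st P (B ^ g') s = st P (B ^ g') s')
    (h1 : wt P T B g' s < 2 * wt P T B g s) (h2 : wt P T B g' s' < 2 * wt P T B g s') :
    st P (B ^ g) s = st P (B ^ g) s' := by
  by_contra h
  have hw : wt P T B g' s' = wt P T B g' s := by
    unfold wt; rw [he]
  have hd : Disjoint (T.filter fun x => st P (B ^ g) x = st P (B ^ g) s)
      (T.filter fun x => st P (B ^ g) x = st P (B ^ g) s') := by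
    rw [Finset.disjoint_left]
    intro x hx hx'
    rw [Finset.mem_filter] at hx hx'
    exact h (hx.2.symm.trans hx'.2)
  have hsub : (T.filter fun x => st P (B ^ g) x = st P (B ^ g) s) ∪
      (T.filter fun x => st P (B ^ g) x = st P (B ^ g) s') ⊆
      T.filter fun x => st P (B ^ g') x = st P (B ^ g') s := by
    intro x hx
    rw [Finset.mem_union, Finset.mem_filter, Finset.mem_filter] at hx
    rw [Finset.mem_filter]
    rcases hx with ⟨hx, hx2⟩ | ⟨hx, hx2⟩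
    · exact ⟨hx, hr x hx s hs hx2⟩
    · exact ⟨hx, (hr x hx s' hs' hx2).trans he.symm⟩
  have hc := Finset.card_le_card hsub
  rw [Finset.card_union_of_disjoint hd] at hc
  have hc' : wt P T B g s + wt P T B g s' ≤ wt P T B g' s := hc
  omega

theorem gl_step {K k₀ v : ℕ} (hK : 10 ≤ K) : gl K k₀ v + 2 ≤ gl K k₀ (v + 1) := by
  unfold gl
  rw [if_neg (Nat.succ_ne_zero v)]
  split_ifs with h
  · subst h; simp; omega
  · rw [add_mul]; omega

theorem gl_last {K k₀ L : ℕ} (hK : 10 ≤ K) (hL : 1 ≤ L) : L ≤ gl K k₀ L := by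
  unfold gl
  rw [if_neg (by omega)]
  nlinarith

/-- The half of the main claim: an active leaf has a nonempty content. -/
theorem active {P T : Finset ℕ} {B K k₀ L v s s' : ℕ} {y₀ y₁ ε : ℝ} (hWT : SpecWT) (hTP : T ⊆ P)
    (hB : 2 ≤ B) (hK : 10 ≤ K) (hL : 1 ≤ L) (h3 : 3 * ε ≤ y₀) (hv : v < L) (hs : s ∈ T)
    (he : st P (B ^ gl K k₀ (v + 1)) s = st P (B ^ gl K k₀ (v + 1)) s')
    (ha : Ac P T B K k₀ v s) (hp : pc P T B K k₀ v s' < (L : ℝ) ^ (-1 + 3 * ε))
    (t2 : cc P T B K k₀ v s < (1 - y₀) * Real.log L ∨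
      (1 - y₁) * Real.log L ≤ cc P T B K k₀ v s) :
    (Jc P T B K k₀ L y₁ s).Nonempty := by
  obtain ⟨w1, w2, -, -, -, w6, -⟩ := hWT P T B hTP hB
  have hL0 : (0 : ℝ) < L := by exact_mod_cast hL
  have hlog : 0 ≤ Real.log L := Real.log_nonneg (by exact_mod_cast hL)
  have hpe : pc P T B K k₀ v s = pc P T B K k₀ v s' := by
    unfold pc pa wt; rw [he]
  obtain ⟨hp0, hp1⟩ := w6 (gl K k₀ v + 2) (gl K k₀ (v + 1)) (gl_step hK) s hs ha
  have hp0' : 0 < pc P T B K k₀ v s := hp0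
  have h1 : Real.log (pc P T B K k₀ v s) < (-1 + 3 * ε) * Real.log L := by
    rw [← Real.log_rpow hL0]
    exact Real.log_lt_log hp0' (by rw [hpe]; exact hp)
  have h2 : Real.log (1 / pc P T B K k₀ v s) ≤
      co P T B (gl K k₀ v + 2) (gl K k₀ (v + 1)) s := hp1
  rw [one_div, Real.log_inv] at h2
  have h3' : co P T B (gl K k₀ v + 2) (gl K k₀ (v + 1)) s ≤ cc P T B K k₀ v s := by
    have hle := (w2 (gl K k₀ v) (gl K k₀ v + 2) (by omega) s hs).1
    have hpos := (w1 (gl K k₀ v) s hs).1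
    have : Real.log (wt P T B (gl K k₀ v) s) ≤ Real.log (wt P T B (gl K k₀ v + 2) s) := by
      apply Real.log_le_log
      · exact_mod_cast hpos
      · exact_mod_cast hle
    unfold cc co
    linarith
  have h4 : (1 - y₁) * Real.log L ≤ cc P T B K k₀ v s := by
    rcases t2 with h | h
    · exfalso
      have : 3 * ε * Real.log L ≤ y₀ * Real.log L := mul_le_mul_of_nonneg_right h3 hlog
      nlinarith
    · exact h
  refine ⟨v, ?_⟩
  unfold Jc
  rw [Finset.mem_filter]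
  exact ⟨Finset.mem_range.mpr hv, h4⟩

/-- The main claim. -/
theorem sep {P T : Finset ℕ} {B K k₀ L s s' : ℕ} {y₀ y₁ ε : ℝ} (hCMP : SpecCMP) (hWT : SpecWT)
    (hT : ∀ s ∈ T, s ∈ Sta P (B ^ 3) ∧ s < B ^ L)
    (hB : 2 ≤ B) (hK : 10 ≤ K) (hL : 1 ≤ L) (h3 : 3 * ε ≤ y₀) (hs : s ∈ T) (hs' : s' ∈ T)
    (hne : s ≠ s')
    (t0 : ∑ v ∈ Finset.range (L + 1), co P T B (gl K k₀ v) (gl K k₀ v + 2) s ≤ 1 / 2)
    (t0' : ∑ v ∈ Finset.range (L + 1), co P T B (gl K k₀ v) (gl K k₀ v + 2) s' ≤ 1 / 2)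
    (t1 : ∀ v < L, Ac P T B K k₀ v s → pc P T B K k₀ v s' < (L : ℝ) ^ (-1 + 3 * ε))
    (t1' : ∀ v < L, Ac P T B K k₀ v s' → pc P T B K k₀ v s < (L : ℝ) ^ (-1 + 3 * ε))
    (t2 : ∀ v < L, cc P T B K k₀ v s < (1 - y₀) * Real.log L ∨
      (1 - y₁) * Real.log L ≤ cc P T B K k₀ v s)
    (t2' : ∀ v < L, cc P T B K k₀ v s' < (1 - y₀) * Real.log L ∨
      (1 - y₁) * Real.log L ≤ cc P T B K k₀ v s') :
    (Jc P T B K k₀ L y₁ s).Nonempty ∨ (Jc P T B K k₀ L y₁ s').Nonempty := by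
  have hTP : T ⊆ P := T_sub hT
  have hB1 : ∀ g, 1 ≤ B ^ g := fun g => Nat.one_le_pow _ _ (by omega)
  obtain ⟨w1, w2, -⟩ := hWT P T B hTP hB
  have href : ∀ g g', g ≤ g' → ∀ x ∈ T, ∀ y ∈ T, st P (B ^ g) x = st P (B ^ g) y →
      st P (B ^ g') x = st P (B ^ g') y := by
    intro g g' hg x hx y hy h
    exact (hCMP P (B ^ g) (hB1 g)).2.2.2.2.1 (B ^ g') (Nat.pow_le_pow_right (by omega) hg) x
      (hTP hx) y (hTP hy) h
  -- different at level 3
  have h0 : st P (B ^ gl K k₀ 0) s ≠ st P (B ^ gl K k₀ 0) s' := by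
    have hc := (hCMP P (B ^ 3) (hB1 3)).2.2.2.1
    have h0' : gl K k₀ 0 = 3 := by simp [gl]
    rw [h0', hc s (hT s hs).1, hc s' (hT s' hs').1]
    exact hne
  -- equal at the last level
  have hLl : st P (B ^ gl K k₀ L) s = st P (B ^ gl K k₀ L) s' := by
    have hc := (hCMP P (B ^ gl K k₀ L) (hB1 _)).2.1
    have hle : B ^ L ≤ B ^ gl K k₀ L := Nat.pow_le_pow_right (by omega) (gl_last hK hL)
    by_contra h
    rcases le_total s s' with hss | hss
    · have := hc s (hTP hs) s' (hTP hs') hss h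
      have := (hT s' hs').2
      omega
    · have := hc s' (hTP hs') s (hTP hs) hss (Ne.symm h)
      have := (hT s hs).2
      omega
  -- the transition
  obtain ⟨v, hv, hvd, hve⟩ : ∃ v < L, st P (B ^ gl K k₀ v) s ≠ st P (B ^ gl K k₀ v) s' ∧
      st P (B ^ gl K k₀ (v + 1)) s = st P (B ^ gl K k₀ (v + 1)) s' := by
    by_contra hcon
    push Not at hcon
    have : ∀ v ≤ L, st P (B ^ gl K k₀ v) s ≠ st P (B ^ gl K k₀ v) s' := by
      intro v
      induction v with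
      | zero => intro _; exact h0
      | succ v ih =>
        intro hv
        exact hcon v (by omega) (ih (by omega))
    exact this L le_rfl hLl
  -- one of them is active
  have hact : Ac P T B K k₀ v s ∨ Ac P T B K k₀ v s' := by
    by_contra hcon
    push Not at hcon
    obtain ⟨hn1, hn2⟩ := hcon
    have e1 : wt P T B (gl K k₀ (v + 1)) s < 2 * wt P T B (gl K k₀ v + 2) s := not_le.mp hn1
    have e2 : wt P T B (gl K k₀ (v + 1)) s' < 2 * wt P T B (gl K k₀ v + 2) s' := not_le.mp hn2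
    have hsame := half (href _ _ (gl_step hK)) hs hs' hve e1 e2
    have hsmall : ∀ x ∈ T, ∑ v ∈ Finset.range (L + 1),
        co P T B (gl K k₀ v) (gl K k₀ v + 2) x ≤ 1 / 2 →
        wt P T B (gl K k₀ v + 2) x < 2 * wt P T B (gl K k₀ v) x := by
      intro x hx hsum
      have hsing : co P T B (gl K k₀ v) (gl K k₀ v + 2) x ≤ 1 / 2 := by
        refine le_trans ?_ hsum
        refine Finset.single_le_sum (f := fun v => co P T B (gl K k₀ v) (gl K k₀ v + 2) x)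
          (fun i _ => (w2 _ _ (by omega) x hx).2) (Finset.mem_range.mpr (by omega))
      have hl2 : (1 : ℝ) / 2 < Real.log 2 := by
        have := Real.log_two_gt_d9; linarith
      unfold co at hsing
      have hpos : (0 : ℝ) < wt P T B (gl K k₀ v) x := by
        exact_mod_cast (w1 (gl K k₀ v) x hx).1
      have hpos2 : (0 : ℝ) < wt P T B (gl K k₀ v + 2) x := by
        exact_mod_cast (w1 (gl K k₀ v + 2) x hx).1
      have hlt : Real.log (wt P T B (gl K k₀ v + 2) x) <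
          Real.log (2 * wt P T B (gl K k₀ v) x) := by
        rw [Real.log_mul (by norm_num) hpos.ne']
        linarith
      have := (Real.log_lt_log_iff hpos2 (by positivity)).mp hlt
      exact_mod_cast this
    exact hvd (half (href _ _ (by omega)) hs hs' hsame (hsmall s hs t0) (hsmall s' hs' t0'))
  rcases hact with ha | ha
  · exact Or.inl (active hWT hTP hB hK hL h3 hv hs hve ha (t1 v hv ha) (t2 v hv))
  · exact Or.inr (active hWT hTP hB hK hL h3 hv hs' hve.symm ha (t1' v hv ha) (t2' v hv))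

theorem tup_card_le {T : Finset ℕ} (Q : (Fin 2 → ℕ) → Prop) :
    nb (T ×ˢ T) (fun x : ℕ × ℕ => Q ![x.1, x.2]) ≤ nb (tup (1 + 1) T) Q := by
  classical
  unfold nb
  refine Finset.card_le_card_of_injOn (fun x => ![x.1, x.2]) ?_ ?_
  · intro x hx
    simp only [Finset.coe_filter, Finset.mem_product, Set.mem_ofPred_eq] at hx ⊢
    refine ⟨?_, hx.2⟩
    unfold tup
    rw [Fintype.mem_piFinset]
    intro i
    fin_cases i
    · exact hx.1.1
    · exact hx.1.2
  · intro x _ y _ hxy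
    have h0 := congrFun hxy 0
    have h1 := congrFun hxy 1
    simp at h0 h1
    exact Prod.ext h0 h1

theorem zone_card {T : Finset ℕ} {L : ℕ} (z : ℕ → ℕ → Prop) :
    nb T (fun s => ∃ v < L, z v s) ≤
      nb (T ×ˢ Finset.range L) (fun x : ℕ × ℕ => z x.2 x.1) := by
  classical
  unfold nb
  have hsub : (T.filter fun s => ∃ v < L, z v s) ⊆
      ((T ×ˢ Finset.range L).filter fun x : ℕ × ℕ => z x.2 x.1).image Prod.fst := by
    intro s hs
    rw [Finset.mem_filter] at hs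
    obtain ⟨hs, v, hv, hz⟩ := hs
    rw [Finset.mem_image]
    exact ⟨(s, v), Finset.mem_filter.mpr ⟨Finset.mem_product.mpr
      ⟨hs, Finset.mem_range.mpr hv⟩, hz⟩, rfl⟩
  calc _ ≤ _ := Finset.card_le_card (by convert hsub)
    _ ≤ _ := by convert Finset.card_image_le

theorem pair_card {T : Finset ℕ} (z : ℕ → Prop) :
    nb (T ×ˢ T) (fun x : ℕ × ℕ => z x.1 ∨ z x.2) ≤ 2 * (nb T z * T.card) := by
  classical
  unfold nb
  have hsub : ((T ×ˢ T).filter fun x : ℕ × ℕ => z x.1 ∨ z x.2) ⊆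
      (T.filter z ×ˢ T) ∪ (T ×ˢ T.filter z) := by
    intro x hx
    simp only [Finset.mem_filter, Finset.mem_product, Finset.mem_union] at hx ⊢
    tauto
  calc _ ≤ ((T.filter z ×ˢ T) ∪ (T ×ˢ T.filter z)).card := Finset.card_le_card (by convert hsub)
    _ ≤ (T.filter z ×ˢ T).card + (T ×ˢ T.filter z).card := Finset.card_union_le _ _
    _ = _ := by
      rw [Finset.card_product, Finset.card_product]
      have : (T.filter z).card = (@Finset.filter ℕ z (fun a => Classical.propDecidable (z a)) T).card := by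
        congr
      rw [this]
      ring

end CT8M

open CT8M in
theorem specCT8 (hCMP : SpecCMP) (hWT : SpecWT) (hCT0 : SpecCT0) : SpecCT8 := by
  classical
  intro κ ε η hκ hε hε1 hη
  obtain ⟨L₀', hL₀'⟩ := hCT0 κ ε (η / 4) 1 hκ hε hε1 (by positivity)
  refine ⟨max L₀' (⌈4 / η⌉₊ + 1), ?_⟩
  intro P T B K k₀ L y₀ y₁ η₂ hL hT hLT hB hK hy3 hy1 hy10 hy0 hlvl hzone
  have hL1 : L₀' ≤ L := (le_max_left _ _).trans hL
  have hL2 : ⌈4 / η⌉₊ + 1 ≤ L := (le_max_right _ _).trans hL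
  have hL3 : 1 ≤ L := by omega
  have hL4 : 4 / η ≤ L := by
    have h1 : 4 / η ≤ ⌈4 / η⌉₊ := Nat.le_ceil _
    have h2 : ((⌈4 / η⌉₊ : ℕ) : ℝ) ≤ L := by exact_mod_cast (by omega : ⌈4 / η⌉₊ ≤ L)
    linarith
  have hTP : T ⊆ P := T_sub hT
  have hTc : 2 / η ≤ T.card := by
    have : 2 / η = (4 / η) / 2 := by ring
    rw [this]; linarith
  have hTpos : (0 : ℝ) < T.card := lt_of_lt_of_le (by positivity) hTc
  have hTne : T.Nonempty := by
    rw [← Finset.card_pos]; exact_mod_cast hTpos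
  obtain ⟨c0, c1⟩ := hL₀' P T B K k₀ L hL1 hTP hTne hB hK hlvl
  -- the events
  let Q0 : (Fin 2 → ℕ) → Prop := fun ρ => ¬ ∀ i, ∑ v ∈ Finset.range (L + 1),
      co P T B (gl K k₀ v) (gl K k₀ v + 2) (ρ i) ≤ 1 / 2
  let Q1 : (Fin 2 → ℕ) → Prop := fun ρ => ¬ ∀ v < L, ∀ i j, i ≠ j → Ac P T B K k₀ v (ρ i) →
      ¬ Ac P T B K k₀ v (ρ j) ∧ pc P T B K k₀ v (ρ j) < (L : ℝ) ^ (-1 + 3 * ε)
  let z : ℕ → ℕ → Prop := fun v s => (1 - y₀) * Real.log L ≤ cc P T B K k₀ v s ∧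
        cc P T B K k₀ v s < (1 - y₁) * Real.log L
  let zz : ℕ → Prop := fun s => ∃ v < L, z v s
  have b0 : (nb (T ×ˢ T) (fun x : ℕ × ℕ => Q0 ![x.1, x.2]) : ℝ) ≤ η / 4 * (T.card : ℝ) ^ 2 := by
    have h1 := tup_card_le (T := T) Q0
    have h2 : ((nb (tup (1 + 1) T) Q0 : ℕ) : ℝ) ≤ η / 4 * (T.card : ℝ) ^ (1 + 1) := c0
    calc ((nb (T ×ˢ T) (fun x : ℕ × ℕ => Q0 ![x.1, x.2]) : ℕ) : ℝ) ≤
        ((nb (tup (1 + 1) T) Q0 : ℕ) : ℝ) := by exact_mod_cast h1
      _ ≤ _ := h2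
  have b1 : (nb (T ×ˢ T) (fun x : ℕ × ℕ => Q1 ![x.1, x.2]) : ℝ) ≤ η / 4 * (T.card : ℝ) ^ 2 := by
    have h1 := tup_card_le (T := T) Q1
    have h2 : ((nb (tup (1 + 1) T) Q1 : ℕ) : ℝ) ≤ η / 4 * (T.card : ℝ) ^ (1 + 1) := c1
    calc ((nb (T ×ˢ T) (fun x : ℕ × ℕ => Q1 ![x.1, x.2]) : ℕ) : ℝ) ≤
        ((nb (tup (1 + 1) T) Q1 : ℕ) : ℝ) := by exact_mod_cast h1
      _ ≤ _ := h2
  have b2 : (nb (T ×ˢ T) (fun x : ℕ × ℕ => zz x.1 ∨ zz x.2) : ℝ) ≤
      2 * (η₂ * T.card * T.card) := by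
    have h1 := pair_card (T := T) zz
    have h2 : ((nb T zz : ℕ) : ℝ) ≤ η₂ * T.card := by
      refine le_trans ?_ hzone
      exact_mod_cast zone_card (T := T) (L := L) z
    calc ((nb (T ×ˢ T) (fun x : ℕ × ℕ => zz x.1 ∨ zz x.2) : ℕ) : ℝ) ≤
        ((2 * (nb T zz * T.card) : ℕ) : ℝ) := by exact_mod_cast h1
      _ = 2 * ((nb T zz : ℝ) * T.card) := by push_cast; ring
      _ ≤ _ := by
        have := mul_le_mul_of_nonneg_right h2 hTpos.le
        linarith
  -- the set of leaves with empty content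
  set E : Finset ℕ := T.filter (fun s => Jc P T B K k₀ L y₁ s = ∅) with hE
  have hnE : nb T (fun s => Jc P T B K k₀ L y₁ s = ∅) = E.card := by
    unfold nb
    rw [hE]
    congr
  have hcover : E ×ˢ E ⊆ (T.image fun s => (s, s)) ∪
      (((T ×ˢ T).filter fun x : ℕ × ℕ => Q0 ![x.1, x.2]) ∪
        (((T ×ˢ T).filter fun x : ℕ × ℕ => Q1 ![x.1, x.2]) ∪
          ((T ×ˢ T).filter fun x : ℕ × ℕ => zz x.1 ∨ zz x.2))) := by
    rintro ⟨s, s'⟩ hx
    rw [Finset.mem_product, hE, Finset.mem_filter, Finset.mem_filter] at hx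
    obtain ⟨⟨hs, hsJ⟩, hs', hsJ'⟩ := hx
    simp only at hs hsJ hs' hsJ'
    by_contra hcon
    simp only [Finset.mem_union, Finset.mem_filter, Finset.mem_product, Finset.mem_image,
      not_or, not_and] at hcon
    obtain ⟨hd, hq0, hq1, hq2⟩ := hcon
    have hne : s ≠ s' := by
      intro h
      exact hd ⟨s, hs, by rw [h]⟩
    have hq0 := hq0 ⟨hs, hs'⟩
    have hq1 := hq1 ⟨hs, hs'⟩
    have hq2 := hq2 ⟨hs, hs'⟩
    have g0 : ∀ i, ∑ v ∈ Finset.range (L + 1),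
      co P T B (gl K k₀ v) (gl K k₀ v + 2) (![s, s'] i) ≤ 1 / 2 := not_not.mp hq0
    have g1 : ∀ v < L, ∀ i j : Fin 2, i ≠ j → Ac P T B K k₀ v (![s, s'] i) →
      ¬ Ac P T B K k₀ v (![s, s'] j) ∧ pc P T B K k₀ v (![s, s'] j) < (L : ℝ) ^ (-1 + 3 * ε) :=
      not_not.mp hq1
    have g2 : ∀ x, ¬ zz x → ∀ v < L, cc P T B K k₀ v x < (1 - y₀) * Real.log L ∨
        (1 - y₁) * Real.log L ≤ cc P T B K k₀ v x := by
      intro x hx v hv
      by_contra hc
      push Not at hc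
      exact hx ⟨v, hv, hc.1, hc.2⟩
    have := sep hCMP hWT hT hB hK hL3 hy3 hs hs' hne (g0 0) (g0 1)
      (fun v hv h => (g1 v hv 0 1 (by decide) h).2) (fun v hv h => (g1 v hv 1 0 (by decide) h).2)
      (g2 s hq2.1) (g2 s' hq2.2)
    rcases this with h | h
    · rw [hsJ] at h; exact Finset.not_nonempty_empty h
    · rw [hsJ'] at h; exact Finset.not_nonempty_empty h
  have hcard := Finset.card_le_card hcover
  rw [Finset.card_product] at hcard
  have hcard2 : E.card * E.card ≤ T.card + (nb (T ×ˢ T) (fun x : ℕ × ℕ => Q0 ![x.1, x.2]) +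
      (nb (T ×ˢ T) (fun x : ℕ × ℕ => Q1 ![x.1, x.2]) +
        nb (T ×ˢ T) (fun x : ℕ × ℕ => zz x.1 ∨ zz x.2))) := by
    refine hcard.trans ?_
    refine (Finset.card_union_le _ _).trans ?_
    refine add_le_add Finset.card_image_le ?_
    refine (Finset.card_union_le _ _).trans ?_
    refine add_le_add (le_of_eq ?_) ?_
    · unfold nb; congr
    refine (Finset.card_union_le _ _).trans ?_
    refine add_le_add (le_of_eq ?_) (le_of_eq ?_)
    · unfold nb; congr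
    · unfold nb; congr
  have hreal : (E.card : ℝ) * E.card ≤ (2 * η₂ + η) * ((T.card : ℝ) ^ 2) := by
    have h1 : ((E.card * E.card : ℕ) : ℝ) ≤ ((T.card +
      (nb (T ×ˢ T) (fun x : ℕ × ℕ => Q0 ![x.1, x.2]) +
      (nb (T ×ˢ T) (fun x : ℕ × ℕ => Q1 ![x.1, x.2]) +
        nb (T ×ˢ T) (fun x : ℕ × ℕ => zz x.1 ∨ zz x.2))) : ℕ) : ℝ) := by
      exact_mod_cast hcard2
    push_cast at h1
    have h2 : (T.card : ℝ) ≤ η / 2 * (T.card : ℝ) ^ 2 := by
      have h3 : 1 ≤ η / 2 * T.card := by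
        have := mul_le_mul_of_nonneg_left hTc (by positivity : (0 : ℝ) ≤ η / 2)
        have h4 : η / 2 * (2 / η) = 1 := by field_simp
        linarith
      nlinarith
    nlinarith [b0, b1, b2, h1, h2]
  rw [hnE]
  have h5 : (E.card : ℝ) = Real.sqrt ((E.card : ℝ) * E.card) := by
    rw [Real.sqrt_mul_self (Nat.cast_nonneg _)]
  have h6 : Real.sqrt ((2 * η₂ + η) * ((T.card : ℝ) ^ 2)) =
      Real.sqrt (2 * η₂ + η) * T.card := by
    rw [Real.sqrt_mul' _ (sq_nonneg _), Real.sqrt_sq (Nat.cast_nonneg _)]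
  rw [h5, ← h6]
  exact Real.sqrt_le_sqrt hreal

end Pool.Agent.Lib.MP5b6025.EP
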