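import Pool.Agent.Lib.MP_5b6025_nt.EP.SpecI

/-!
# Digit changes beat every power of `log N`: gap series
-/

set_option autoImplicit false

namespace Pool.Agent.Lib.MP5b6025.EP

namespace CorM

theorem tsum_extend (b : ℕ) (n : ℕ → ℕ) (u : ℕ → ℤ) (hn : StrictMono n) :
    ∑' m, ((Function.extend n u 0 m : ℤ) : ℝ) / (b : ℝ) ^ m = ∑' k, (u k : ℝ) / (b : ℝ) ^ n k := by
  have h := hn.injective.tsum_eq
    (f := fun m : ℕ => ((Function.extend n u 0 m : ℤ) : ℝ) / (b : ℝ) ^ m) (by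
      intro m hm
      rw [Function.mem_support] at hm
      by_contra h
      apply hm
      rw [Function.extend_apply' _ _ _ (fun ⟨a, ha⟩ => h ⟨a, ha⟩)]
      simp)
  rw [← h]
  refine tsum_congr fun k => ?_
  rw [hn.injective.extend_apply]

theorem card_le (n : ℕ → ℕ) (u : ℕ → ℤ) (N M : ℕ)
    (h : ∀ k, n k < N → k < M) :
    ((Finset.range N).filter fun m => Function.extend n u 0 m ≠ 0).card ≤ M := by
  have h1 : ((Finset.range N).filter fun m => Function.extend n u 0 m ≠ 0) ⊆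
      (Finset.range M).image n := by
    intro m hm
    rw [Finset.mem_filter, Finset.mem_range] at hm
    by_cases hx : ∃ k, n k = m
    · obtain ⟨k, rfl⟩ := hx
      exact Finset.mem_image.2 ⟨k, Finset.mem_range.2 (h k hm.1), rfl⟩
    · exact absurd (Function.extend_apply' _ _ _ hx) hm.2
  exact (Finset.card_le_card h1).trans (Finset.card_image_le.trans (Finset.card_range M).le)

end CorM

open CorM in
/-- Gap series. -/
theorem gaps (hT : SpecTHM) (b : ℕ) (n : ℕ → ℕ) (u : ℕ → ℤ) (B : ℕ) (ε : ℝ) (hb : 2 ≤ b)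
    (hn : StrictMono n) (hu : ∀ k, |u k| ≤ B) (hε : 0 < ε)
    (hg : ∀ᶠ k : ℕ in Filter.atTop, Real.exp ((k : ℝ) ^ ε) ≤ n k)
    (hirr : Irrational (∑' k, (u k : ℝ) / (b : ℝ) ^ n k)) :
    Transcendental ℚ (∑' k, (u k : ℝ) / (b : ℝ) ^ n k) := by
  intro halg
  obtain ⟨k₀, hk₀⟩ := Filter.eventually_atTop.1 hg
  have hs := tsum_extend b n u hn
  have ht : ∀ m, |Function.extend n u 0 m| ≤ (B : ℤ) := by
    intro m
    by_cases hx : ∃ k, n k = m
    · obtain ⟨k, rfl⟩ := hx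
      rw [hn.injective.extend_apply]
      exact hu k
    · rw [Function.extend_apply' _ _ _ hx]
      simp
  obtain ⟨N₀, hN₀⟩ := hT b (Function.extend n u 0) B hb ht (by rw [DC.bet, hs]; exact halg)
    (by rw [DC.bet, hs]; exact hirr) (1 / ε + 1)
  have hlim : Filter.Tendsto (fun N : ℕ => Real.log N) Filter.atTop Filter.atTop :=
    Real.tendsto_log_atTop.comp tendsto_natCast_atTop_atTop
  obtain ⟨N, hN1, hN2⟩ := ((hlim.eventually_ge_atTop ((k₀ : ℝ) + 4)).and
    (Filter.eventually_ge_atTop N₀)).exists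
  set x := Real.log N with hx
  have hx0 : 0 < x := by have := (Nat.cast_nonneg k₀ : (0 : ℝ) ≤ k₀); linarith
  have hM : ∀ k, n k < N → k < ⌈x ^ (1 / ε)⌉₊ + k₀ := by
    intro k hk
    rcases lt_or_ge k k₀ with h | h
    · omega
    · have h1 := hk₀ k h
      have h2 : Real.exp ((k : ℝ) ^ ε) < N := lt_of_le_of_lt h1 (by exact_mod_cast hk)
      have h3 : (k : ℝ) ^ ε < x := by
        rw [hx]
        rwa [← Real.exp_lt_exp, Real.exp_log (lt_trans (Real.exp_pos _) h2)]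
      have h4 : (k : ℝ) < x ^ (1 / ε) := by
        have h5 := Real.rpow_lt_rpow (by positivity) h3 (one_div_pos.2 hε)
        rwa [← Real.rpow_mul (Nat.cast_nonneg k), mul_one_div_cancel hε.ne', Real.rpow_one] at h5
      have h6 : k < ⌈x ^ (1 / ε)⌉₊ := Nat.lt_ceil.2 h4
      omega
  have h1 := hN₀ N hN2
  have h2 := card_le n u N _ hM
  have h3 : (((Finset.range N).filter fun m => Function.extend n u 0 m ≠ 0).card : ℝ) ≤
      x ^ (1 / ε) + 1 + k₀ := by
    have h4 : (⌈x ^ (1 / ε)⌉₊ : ℝ) ≤ x ^ (1 / ε) + 1 := (Nat.ceil_lt_add_one (by positivity)).le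
    calc (((Finset.range N).filter fun m => Function.extend n u 0 m ≠ 0).card : ℝ) ≤
        ((⌈x ^ (1 / ε)⌉₊ + k₀ : ℕ) : ℝ) := by exact_mod_cast h2
      _ = (⌈x ^ (1 / ε)⌉₊ : ℝ) + k₀ := by push_cast; ring
      _ ≤ _ := by linarith
  have h5 : x ^ (1 / ε + 1) = x ^ (1 / ε) * x := by
    rw [Real.rpow_add hx0, Real.rpow_one]
  have h6 : 1 ≤ x ^ (1 / ε) :=
    Real.one_le_rpow (by linarith [(Nat.cast_nonneg k₀ : (0 : ℝ) ≤ k₀)]) (by positivity)
  have h7 : (0 : ℝ) ≤ k₀ := Nat.cast_nonneg k₀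
  have h8 : x ^ (1 / ε) * x ≤ x ^ (1 / ε) + 1 + k₀ := by
    rw [← h5]
    exact h1.trans h3
  nlinarith

end Pool.Agent.Lib.MP5b6025.EP
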