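import Pool.Agent.Lib.MP_5b6025_nt.DD.Spec

/-!
# Digit changes: every power of `log N` (definitions)

THEOREM. `b ≥ 2`, `t_n` bounded integers, `β = ∑ t_n b^(-n)` irrational algebraic. Then for every
`c` we have `#{n < N : t_n ≠ 0} ≥ (log N)^c` for `N ≥ N₀(c)`.
-/

set_option autoImplicit false

open Polynomial

namespace Pool.Agent.Lib.MP5b6025.EP

/-! ## Chain components -/

/-- The starts of the chain components of `V` at threshold `τ`: the elements `w` of `V` such that no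
smaller element of `V` is at distance `< τ`. -/
def Sta (V : Finset ℕ) (τ : ℕ) : Finset ℕ := V.filter fun w => ∀ u ∈ V, u < w → u + τ ≤ w

/-- The start of the chain component of `x ∈ V` at threshold `τ`. -/
def st (V : Finset ℕ) (τ x : ℕ) : ℕ := ((Sta V τ).filter (· ≤ x)).sup id

/-- The `m`-fold sumset of `V`. -/
def sm : ℕ → Finset ℕ → Finset ℕ
  | 0, _ => {0}
  | m + 1, V => (sm m V ×ˢ V).image fun x => x.1 + x.2

/-- The `m`-tuples of elements of `T`. -/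
def tup (m : ℕ) (T : Finset ℕ) : Finset (Fin m → ℕ) := Fintype.piFinset fun _ => T

open Classical in
/-- The number of elements of `S` with the property `p`. -/
noncomputable def nb {α : Type} (S : Finset α) (p : α → Prop) : ℕ := (S.filter p).card

/-- The size of the class of `s`. -/
def cls (T : Finset ℕ) (f : ℕ → ℕ) (s : ℕ) : ℕ := (T.filter fun x => f x = f s).card

/-! ## The tree of a set `T` of leaves; `P ⊇ T`, node of level `g` = component of `P` at
threshold `B^g` -/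

/-- Number of leaves in the node of level `g` of `s`. -/
def wt (P T : Finset ℕ) (B g s : ℕ) : ℕ := (T.filter fun x => st P (B ^ g) x = st P (B ^ g) s).card

/-- The node of level `g` of `s` contains at most half of the leaves of the node of level `g'`. -/
def Act (P T : Finset ℕ) (B g g' s : ℕ) : Prop := 2 * wt P T B g s ≤ wt P T B g' s

instance (P T : Finset ℕ) (B g g' s : ℕ) : Decidable (Act P T B g g' s) :=
  inferInstanceAs (Decidable (_ ≤ _))

/-- Proportion of the leaves `x` with `Act` in the node of level `g'` of `s`. -/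
noncomputable def pa (P T : Finset ℕ) (B g g' s : ℕ) : ℝ :=
  ((T.filter fun x => st P (B ^ g') x = st P (B ^ g') s ∧ Act P T B g g' x).card : ℝ) /
    wt P T B g' s

/-- The cost of the transition from level `g'` to level `g`. -/
noncomputable def co (P T : Finset ℕ) (B g g' s : ℕ) : ℝ :=
  Real.log (wt P T B g' s) - Real.log (wt P T B g s)

/-- Number of tuples of leaves in the node of level `g` of the sum of `ρ`. -/
def wz (P T : Finset ℕ) (B g : ℕ) {m : ℕ} (ρ : Fin m → ℕ) : ℕ :=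
  ((tup m T).filter fun ρ' =>
    st (sm m P) (B ^ g) (∑ i, ρ' i) = st (sm m P) (B ^ g) (∑ i, ρ i)).card

/-- The cost for the sums. -/
noncomputable def cz (P T : Finset ℕ) (B g g' : ℕ) {m : ℕ} (ρ : Fin m → ℕ) : ℝ :=
  Real.log (wz P T B g' ρ) - Real.log (wz P T B g ρ)

/-! ## Coarse levels -/

/-- The fine level which is the coarse level `v`. -/
def gl (K k₀ v : ℕ) : ℕ := if v = 0 then 3 else k₀ + v * K

/-- `hl (2 v) = gl v`, `hl (2 v + 1) = gl v + 1`. -/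
def hl (K k₀ r : ℕ) : ℕ := gl K k₀ (r / 2) + r % 2

/-- `s` is active at the transition `v` (from the coarse level `v + 1` to the coarse level `v`). -/
def Ac (P T : Finset ℕ) (B K k₀ v s : ℕ) : Prop := Act P T B (gl K k₀ v + 2) (gl K k₀ (v + 1)) s

instance (P T : Finset ℕ) (B K k₀ v s : ℕ) : Decidable (Ac P T B K k₀ v s) :=
  inferInstanceAs (Decidable (Act _ _ _ _ _ _))

/-- Proportion of active leaves at the transition `v`. -/
noncomputable def pc (P T : Finset ℕ) (B K k₀ v s : ℕ) : ℝ :=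
  pa P T B (gl K k₀ v + 2) (gl K k₀ (v + 1)) s

/-- Cost of the transition `v`. -/
noncomputable def cc (P T : Finset ℕ) (B K k₀ v s : ℕ) : ℝ :=
  co P T B (gl K k₀ v) (gl K k₀ (v + 1)) s

open Classical in
/-- The content of `s`: the transitions with high cost. -/
noncomputable def Jc (P T : Finset ℕ) (B K k₀ L : ℕ) (y₁ : ℝ) (s : ℕ) : Finset ℕ :=
  (Finset.range L).filter fun v => (1 - y₁) * Real.log L ≤ cc P T B K k₀ v s

/-- Total difference of the costs of the sum of `ρ` and of `ρ`. -/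
noncomputable def star (P T : Finset ℕ) (B K k₀ L : ℕ) {m : ℕ} (ρ : Fin m → ℕ) : ℝ :=
  ∑ r ∈ Finset.range (2 * L + 1), |cz P T B (hl K k₀ r) (hl K k₀ (r + 1)) ρ -
    ∑ i, co P T B (hl K k₀ r) (hl K k₀ (r + 1)) (ρ i)|

open Classical in
/-- The transitions where the sum of `Y` branches. -/
noncomputable def Br (P T : Finset ℕ) (B K k₀ L : ℕ) (y : ℝ) {m : ℕ} (Y : Fin m → ℕ) : Finset ℕ :=
  (Finset.range L).filter fun v => (wz P T B (gl K k₀ v) Y : ℝ) ≤
    (1 - (L : ℝ) ^ (-(2 * y))) * wz P T B (gl K k₀ (v + 1) + 1) Y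

/-- Same cluster of the sum. -/
def Sz (P : Finset ℕ) (B : ℕ) {m : ℕ} (ρ ρ' : Fin m → ℕ) : Prop :=
  st (sm m P) (B ^ 3) (∑ i, ρ i) = st (sm m P) (B ^ 3) (∑ i, ρ' i)

/-! ## The system of leaves -/

/-- The finite structure obtained from number theory. `P`: support; `T`: leaves (components at
threshold `B^3` with nonzero mass, represented by their starts), `e`: masses, `Z`: the exceptional
clusters of `P + P`. -/
structure Sys {k : Type} [Field k] (L B : ℕ) (κ ε : ℝ) (P T Z : Finset ℕ) (e : ℕ → k) : Prop where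
  cardP : ((P.card : ℝ) + 1) ≤ (L : ℝ) ^ κ
  sub : ∀ s ∈ T, s ∈ Sta P (B ^ 3) ∧ s < B ^ L
  nz : ∀ s ∈ T, e s ≠ 0
  big : (L : ℝ) ≤ 2 * T.card
  spread : ∀ g, 4 ≤ g →
    ((T.filter fun s => Act P T B (g - 1) g s).card : ℝ) ≤ (L : ℝ) ^ (-1 + ε) * T.card
  low : ((T.filter fun s => B ^ (L - 1) ≤ s).card : ℝ) ≤ ε * T.card
  cardZ : (Z.card : ℝ) ≤ (L : ℝ) ^ ε * T.card
  rel : ∀ u ∈ T, ∀ u' ∈ T, u < B ^ (L - 1) → u' < B ^ (L - 1) →
    st (sm 2 P) (B ^ 3) (u + u') ∉ Z →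
    ∑ x ∈ (T ×ˢ T).filter (fun x : ℕ × ℕ =>
      st (sm 2 P) (B ^ 3) (x.1 + x.2) = st (sm 2 P) (B ^ 3) (u + u')), e x.1 * e x.2 = 0

/-- Bounds for the coarse levels. -/
structure Lvl (P T : Finset ℕ) (B K k₀ L : ℕ) (κ ε : ℝ) : Prop where
  act : ∀ v < L, ((T.filter fun s => Ac P T B K k₀ v s).card : ℝ) ≤ (L : ℝ) ^ (-1 + ε) * T.card
  phb : ∑ s ∈ T, ∑ v ∈ Finset.range (L + 1), co P T B (gl K k₀ v) (gl K k₀ v + 2) s ≤
    4 * κ / Real.log L ^ 2 * T.card

/-- Numerical conditions. The tuples have `m + 1` elements. -/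
structure Par (P T : Finset ℕ) (B K k₀ L m : ℕ) (κ y₀ y₁ y b : ℝ) : Prop where
  sub : ∀ s ∈ T, s ∈ Sta P (B ^ 3) ∧ s < B ^ L
  ne : T.Nonempty
  hB : 4 * (m + 2) * (P.card + 1) ^ (m + 2) ≤ B
  hK : 10 ≤ K
  hL : 3 ≤ L
  hT : Real.log T.card ≤ κ * Real.log L
  hb : 0 < b ∧ b ≤ y₀
  hy : 0 < y ∧ 0 ≤ y₁ ∧ y₁ + 4 * y ≤ y₀ ∧ y₀ ≤ 1 / 2
  hyL : 4 * (m + 2) ≤ y * Real.log L

/-- Typical tuples. -/
structure Typ (P T : Finset ℕ) (B K k₀ L : ℕ) (y₀ y₁ y b : ℝ) {m : ℕ} (ρ : Fin (m + 1) → ℕ) :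
    Prop where
  mem : ∀ i, ρ i ∈ T
  t0 : ∀ i, ∑ v ∈ Finset.range (L + 1), co P T B (gl K k₀ v) (gl K k₀ v + 2) (ρ i) ≤ 1 / 2
  t1 : ∀ v < L, ∀ i j, i ≠ j → Ac P T B K k₀ v (ρ i) →
    ¬ Ac P T B K k₀ v (ρ j) ∧ pc P T B K k₀ v (ρ j) < (L : ℝ) ^ (-1 + b)
  t2 : ∀ v < L, ∀ i, cc P T B K k₀ v (ρ i) < (1 - y₀) * Real.log L ∨
    (1 - y₁) * Real.log L ≤ cc P T B K k₀ v (ρ i)
  t3 : star P T B K k₀ L ρ ≤ y * Real.log L
  t4 : ∀ i : Fin (m + 1), star P T B K k₀ L (fun j : Fin m => ρ (i.succAbove j)) ≤ y * Real.log L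
  t5 : ∀ i : Fin (m + 1), ∀ v ∈ Br P T B K k₀ L y (fun j : Fin m => ρ (i.succAbove j)),
    pc P T B K k₀ v (ρ i) < (L : ℝ) ^ (-1 + y₀) ∧ ¬ Ac P T B K k₀ v (ρ i)
  t7 : ∀ i, ρ i < B ^ (L - 1)
  t8 : ∀ i, (Jc P T B K k₀ L y₁ (ρ i)).Nonempty

/-! ## Series -/

/-- What we need about the coefficients `e_v` of `E (F)`, `E` an idempotent modulo `P`. `S` is the
support of `t`. -/
structure Jump {k : Type} [Field k] (S : Set ℕ) (p d D N K : ℕ) (e : ℕ → k) : Prop where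
  sup : ∀ v, e v ≠ 0 → DD.IsSumS S (d - 1) v
  idm : ∀ X : ℕ, X ≤ N → DD.GapS S K D X →
    ∑ v ∈ Finset.range X, ∑ w ∈ Finset.range (X - v), e v * e w = ∑ v ∈ Finset.range X, e v
  fro : ∀ X : ℕ, p * X ≤ N → DD.GapS S K D ((p * X : ℕ) : ℤ) →
    ∑ v ∈ Finset.range (p * X), e v = (∑ v ∈ Finset.range X, e v) ^ p

open Classical in
/-- The support of `e` up to `N`. -/
noncomputable def Pn {k : Type} [Field k] (e : ℕ → k) (N : ℕ) : Finset ℕ :=
  (Finset.range (N + 1)).filter fun v => e v ≠ 0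

/-- The mass of the component with start `c`. -/
noncomputable def mass {k : Type} [Field k] (P : Finset ℕ) (e : ℕ → k) (τ c : ℕ) : k :=
  ∑ v ∈ P.filter (fun v => st P τ v = c), e v

open Classical in
/-- The components at threshold `B^i` with nonzero mass and start `< B^l`. -/
noncomputable def Lf {k : Type} [Field k] (P : Finset ℕ) (e : ℕ → k) (B i l : ℕ) : Finset ℕ :=
  (Sta P (B ^ i)).filter fun c => mass P e (B ^ i) c ≠ 0 ∧ c < B ^ l

/-- Self-similarity: every component at threshold `B^i` with nonzero mass has, for every `j`, a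
component at threshold `B^i'` (`i' < i + j`) with nonzero mass close to its multiple by `B^j`. -/
def Sim {k : Type} [Field k] (P : Finset ℕ) (e : ℕ → k) (B N : ℕ) : Prop :=
  ∀ i j i' c : ℕ, 1 ≤ i → 1 ≤ j → 1 ≤ i' → i' + 1 ≤ i + j → c ∈ Sta P (B ^ i) →
    mass P e (B ^ i) c ≠ 0 → B ^ j * (c + B ^ (i + 1)) ≤ N →
    ∃ c' ∈ Sta P (B ^ i'), mass P e (B ^ i') c' ≠ 0 ∧ 3 * (B ^ j * c) ≤ 3 * c' + B ^ (i + j) ∧
      ∃ u ∈ P, st P (B ^ i) u = c ∧ 3 * c' ≤ 3 * (B ^ j * u) + B ^ (i + j)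

end Pool.Agent.Lib.MP5b6025.EP
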