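import Pool.Agent.Lib.MP_5b6025_nt.EP.EXT

/-!
# Module EXK: the idempotents over the splitting field modulo `p`
-/

set_option autoImplicit false

open Polynomial

namespace Pool.Agent.Lib.MP5b6025.EP

namespace EXKM

/-- enumeration of the roots of a separable split polynomial -/
theorem exists_roots {k : Type} [Field k] (P : k[X]) (hs : P.Splits) (hsep : P.Separable)
    (d : ℕ) (hd : P.natDegree = d) :
    ∃ α : Fin d → k, Function.Injective α ∧ P = C P.leadingCoeff * ∏ i, (X - C (α i)) := by
  classical
  have hnd : P.roots.Nodup := nodup_roots hsep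
  have hcard : P.roots.toFinset.card = d := by
    rw [Multiset.toFinset_card_of_nodup hnd, ← hd]
    exact hs.natDegree_eq_card_roots.symm
  let eq := P.roots.toFinset.equivFinOfCardEq hcard
  refine ⟨fun i => (eq.symm i : k), ?_, ?_⟩
  · intro i j h
    exact eq.symm.injective (Subtype.ext h)
  · have h1 : P = C P.leadingCoeff * (P.roots.map fun a => X - C a).prod := hs.eq_prod_roots
    have h2 : (P.roots.map fun a => X - C a).prod = ∏ a ∈ P.roots.toFinset, (X - C a) := by
      rw [Finset.prod_multiset_map_count]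
      refine Finset.prod_congr rfl fun a ha => ?_
      rw [Multiset.count_eq_one_of_mem hnd (Multiset.mem_toFinset.1 ha), pow_one]
    have h3 : ∏ a ∈ P.roots.toFinset, (X - C a) = ∏ i : Fin d, (X - C ((eq.symm i : _) : k)) := by
      rw [← Finset.prod_coe_sort P.roots.toFinset (fun a => X - C a)]
      exact (Equiv.prod_comp eq.symm (fun a : P.roots.toFinset => (X - C (a : k)))).symm
    rw [h2, h3] at h1
    exact h1

end EXKM

open EXKM EXTM in
theorem specEXK (hEXT : SpecEXT) (hIDE : SpecIDE) (hNNC : SpecNNC) : SpecEXK := by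
  intro b B p _ t P hb hB ht hpb hP hdeg hnat hsep hroot
  set Pb := P.map (Int.castRingHom (ZMod p)) with hPb
  have hpp : 2 ≤ p := (Fact.out : p.Prime).two_le
  have : Finite Pb.SplittingField := Module.finite_of_finite (ZMod p)
  have : CharP Pb.SplittingField p :=
    charP_of_injective_algebraMap (algebraMap (ZMod p) Pb.SplittingField).injective p
  obtain ⟨α, hα, hprod⟩ := exists_roots (Pb.map (algebraMap (ZMod p) Pb.SplittingField))
    (Polynomial.SplittingField.splits Pb) (hsep.map) P.natDegree
    (by rw [Polynomial.natDegree_map, hnat])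
  have hlc : (Pb.map (algebraMap (ZMod p) Pb.SplittingField)).leadingCoeff ≠ 0 := by
    rw [Polynomial.leadingCoeff_ne_zero]
    intro h
    have h2 := Polynomial.natDegree_map (algebraMap (ZMod p) Pb.SplittingField) (p := Pb)
    rw [h, natDegree_zero, hnat] at h2
    omega
  have : Fintype Pb.SplittingField := Fintype.ofFinite _
  obtain ⟨f, hf1, hf2⟩ := FiniteField.card Pb.SplittingField p
  refine ⟨Pb.SplittingField, inferInstance, inferInstance, inferInstance,
    fun i v => PowerSeries.coeff v (aeval (PowerSeries.mk fun n =>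
      algebraMap (ZMod p) Pb.SplittingField (DD.red p b t n)) (Lagrange.basis Finset.univ α i)),
    f, p * P.natDegree, DC.l1 P * (p * ((p * P.natDegree : ℕ) + 1)), f.pos, ?_, ?_, ?_⟩
  · intro x
    rw [← hf2]
    exact FiniteField.pow_card x
  · exact Nat.le_mul_of_pos_left _ (by omega)
  intro N K hDN hK hbig
  have hsupp : DD.supp (DD.red p b t) ⊆ {x | t x ≠ 0} := by
    intro x hx hx0
    apply hx
    unfold DD.red
    rw [hx0]
    simp
  have hsupp' : DD.supp (fun n => algebraMap (ZMod p) Pb.SplittingField (DD.red p b t n)) ⊆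
      {x | t x ≠ 0} := by
    intro x hx
    apply hsupp
    intro h0
    apply hx
    show algebraMap (ZMod p) Pb.SplittingField (DD.red p b t x) = 0
    rw [h0, map_zero]
  have hex : ∀ G : Pb.SplittingField[X],
      ((Pb.map (algebraMap (ZMod p) Pb.SplittingField)) * G).natDegree ≤ p * P.natDegree →
      ∀ X : ℕ, X ≤ N → DD.GapS {x | t x ≠ 0} K (p * P.natDegree) X →
      DD.TT (fun n => algebraMap (ZMod p) Pb.SplittingField (DD.red p b t n))
        ((Pb.map (algebraMap (ZMod p) Pb.SplittingField)) * G) X = 0 := by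
    intro G hG X hX hgap
    by_cases hG0 : G = 0
    · rw [hG0, mul_zero, DD.Basic.TT_zero]
    refine hEXT p b B (p * P.natDegree) N K Pb.SplittingField t P G X hb hB ht hpb ?_ hDN hP ?_
      hbig hX hgap
    · have : 0 < p * P.natDegree := Nat.mul_pos (by omega) (by omega)
      omega
    · rw [Polynomial.natDegree_mul (Polynomial.leadingCoeff_ne_zero.1 hlc) hG0,
        Polynomial.natDegree_map, hnat] at hG
      exact hG
  have h2D : 2 * P.natDegree ≤ p * P.natDegree := Nat.mul_le_mul_right _ hpp
  refine ⟨?_, ?_⟩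
  · intro i
    exact hIDE Pb.SplittingField p P.natDegree (p * P.natDegree) N K _ {x | t x ≠ 0}
      (Pb.map (algebraMap (ZMod p) Pb.SplittingField)) _ α hdeg hlc hprod hα hsupp' le_rfl h2D
      hex i
  · intro K₁ Lg Y hKK hLY hY1 hY4 hgaps
    have hex1 : ∀ G : Pb.SplittingField[X],
        ((Pb.map (algebraMap (ZMod p) Pb.SplittingField)) * G).natDegree ≤ p * P.natDegree →
        ∀ X : ℕ, X ≤ N → DD.GapS {x | t x ≠ 0} K₁ (p * P.natDegree) X →
        DD.TT (fun n => algebraMap (ZMod p) Pb.SplittingField (DD.red p b t n))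
          ((Pb.map (algebraMap (ZMod p) Pb.SplittingField)) * G) X = 0 :=
      fun G hG X hX hgap => hex G hG X hX (DD.Basic.gapS_K hgap hKK)
    refine hNNC (ZMod p) Pb.SplittingField (DD.red p b t) {x | t x ≠ 0} Pb
      (Pb.map (algebraMap (ZMod p) Pb.SplittingField)).leadingCoeff P.natDegree
      (p * P.natDegree) N K₁ Lg Y α hdeg (by omega) hnat hlc hprod hα hroot hsupp (by omega) ?_ hex1
      hgaps hLY hY1 hY4
    intro X hX hgap
    have h1 := hex1 1 (by
      rw [mul_one, Polynomial.natDegree_map, hnat]
      omega) X hX hgap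
    rw [mul_one, TT_map] at h1
    exact (map_eq_zero _).1 h1

end Pool.Agent.Lib.MP5b6025.EP
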