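import Pool.Agent.Lib.MP_5b6025_nt.EP.SpecI
import Pool.Agent.Lib.MP_5b6025_nt.DD.Basic

/-!
# Module EXT: exactness over an extension field
-/

set_option autoImplicit false

open Polynomial

namespace Pool.Agent.Lib.MP5b6025.EP

namespace EXTM

open DD

/-- coefficients of `Q (F)` over an extension -/
theorem coeff_map {k₀ k : Type} [Field k₀] [Field k] [Algebra k₀ k] (t : ℕ → k₀) (Q : k₀[X]) (v : ℕ) :
    PowerSeries.coeff v (aeval (PowerSeries.mk fun n => algebraMap k₀ k (t n))
      (Q.map (algebraMap k₀ k))) =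
    algebraMap k₀ k (PowerSeries.coeff v (aeval (PowerSeries.mk t) Q)) := by
  have h1 : (PowerSeries.mk fun n => algebraMap k₀ k (t n)) =
      PowerSeries.map (algebraMap k₀ k) (PowerSeries.mk t) := by
    ext n
    simp
  rw [h1, ← PowerSeries.coeff_map]
  congr 1
  induction Q using Polynomial.induction_on' with
  | add p q hp hq => rw [Polynomial.map_add, map_add, map_add, map_add, hp, hq]
  | monomial n a =>
    rw [Polynomial.map_monomial, aeval_monomial, aeval_monomial, map_mul, map_pow]
    congr 1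
    ext m
    simp [PowerSeries.coeff_C]

theorem TT_map {k₀ k : Type} [Field k₀] [Field k] [Algebra k₀ k] (t : ℕ → k₀) (Q : k₀[X]) (X : ℤ) :
    TT (fun n => algebraMap k₀ k (t n)) (Q.map (algebraMap k₀ k)) X = algebraMap k₀ k (TT t Q X) := by
  unfold TT
  rw [map_sum]
  exact Finset.sum_congr rfl fun v _ => coeff_map t Q v

end EXTM

open EXTM in
theorem specEXT (hEXA : DD.SpecEXA) : SpecEXT := by
  intro p b B D W K _ k _ _ t P G X hb hB ht hp hD hDW hP hdeg hbig hX hgap
  have key : ∀ i ≤ G.natDegree,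
      DD.TT (DD.red p b t) (P.map (Int.castRingHom (ZMod p)) * Polynomial.X ^ i) X = 0 := by
    intro i hi
    refine hEXA p b B D W K t P (Polynomial.X ^ i) X hb hB ht hp hD hDW hP ?_ hbig hX hgap
    rw [Polynomial.natDegree_X_pow]
    omega
  have hG : (P.map (Int.castRingHom (ZMod p))).map (algebraMap (ZMod p) k) * G =
      ∑ i ∈ Finset.range (G.natDegree + 1), G.coeff i •
        ((P.map (Int.castRingHom (ZMod p)) * Polynomial.X ^ i).map (algebraMap (ZMod p) k)) := by
    conv_lhs => rw [G.as_sum_range_C_mul_X_pow]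
    rw [Finset.mul_sum]
    refine Finset.sum_congr rfl fun i _ => ?_
    rw [Polynomial.map_mul, Polynomial.map_pow, Polynomial.map_X, Polynomial.smul_eq_C_mul]
    ring
  rw [hG, DD.Basic.TT_sum]
  refine Finset.sum_eq_zero fun i hi => ?_
  rw [DD.Basic.TT_smul, TT_map, key i (by rw [Finset.mem_range] at hi; omega), map_zero, mul_zero]

end Pool.Agent.Lib.MP5b6025.EP
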