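import Pool.Agent.Lib.MP_5b6025_nt.EP.Spec

/-!
# Digit changes, every power of `log N`: module specifications, Part I (number theory)

From the series to the system of leaves. `GapS S K D X`: no sum of at most `D` elements of `S` in
`[X, X + K)`. `W(X) = ∑_{v < X} e_v`.
-/

set_option autoImplicit false

open Polynomial

namespace Pool.Agent.Lib.MP5b6025.EP

/-! ## Series modulo `p` -/

/-- Module EXT [150] (from `DD.specEXA`): exactness over an extension field `k` of `F_p`. Proof. Let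
`ω` be a basis of `k` over `ZMod p`; `G = ∑_j ω_j G_j` with `G_j ∈ (ZMod p)[X]`, `deg G_j ≤ deg G`
(coordinates of the coefficients, finitely many `j` occur). `T(P G, X) = ∑_j ω_j T(P G_j, X)`, and
`T` over `k` of `Q.map` is the image of `T` over `ZMod p` of `Q`. -/
def SpecEXT : Prop :=
  ∀ (p b B D W K : ℕ) [Fact p.Prime] (k : Type) [Field k] [Algebra (ZMod p) k] (t : ℕ → ℤ)
    (P : ℤ[X]) (G : k[X]) (X : ℕ), 2 ≤ b → 1 ≤ B → (∀ n, |t n| ≤ B) → ¬ p ∣ b → 1 ≤ D → D ≤ W →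
    aeval (DC.bet b t) P = 0 → P.natDegree + G.natDegree ≤ D →
    DC.l1 P * (p * (D + 1)) * DC.GG B D W < (b : ℝ) ^ K → X ≤ W →
    DD.GapS {x | t x ≠ 0} K D X →
    DD.TT (fun n => algebraMap (ZMod p) k (DD.red p b t n))
      ((P.map (Int.castRingHom (ZMod p))).map (algebraMap (ZMod p) k) * G) X = 0

/-- Module IDE [200] (from DD/Basic.lean): the idempotents. `E_i = Lagrange.basis univ α i` has degree
`≤ d - 1`. `sup`: `DD.Basic.isSumS_of_coeff`. `idm`: `E² - E` vanishes at all `α_j`, so it is `P G`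
(degree `≤ 2d - 2`), hence `T(E², X) = T(E, X)`; convolution formula. `fro`: `E^p - E = P G` (degree
`≤ p (d-1)`), so `T(E, pX) = T(E^p, pX) = T(E, X)^p` (in characteristic `p` the coefficients of `f^p`
are `(f_v)^p` at `p v`; compare `DD/Fro.lean`, `FroM.coeff_pow_char`). -/
def SpecIDE : Prop :=
  ∀ (k : Type) [Field k] (p d D N K : ℕ) [Fact p.Prime] [CharP k p] (t : ℕ → k) (S : Set ℕ)
    (P : k[X]) (c : k) (α : Fin d → k), 2 ≤ d → c ≠ 0 →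
    P = C c * ∏ i, (Polynomial.X - C (α i)) → Function.Injective α → DD.supp t ⊆ S →
    p * d ≤ D → 2 * d ≤ D →
    (∀ G : k[X], (P * G).natDegree ≤ D → ∀ X : ℕ, X ≤ N → DD.GapS S K D X →
      DD.TT t (P * G) X = 0) →
    ∀ i, Jump S p d D N K
      (fun v => PowerSeries.coeff v (aeval (PowerSeries.mk t) (Lagrange.basis Finset.univ α i)))

/-- Module NNC [250]: some idempotent jumps at every scale. Proof. First `DD.SpecNON` with `supp t`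
replaced by any `S ⊇ supp t` in both `GapS` (the same proof, see `DD/Non.lean`), over `k₀`: some
`T(x^j, X₁) ≠ T(x^j, X₂)`, `j ≤ d`. Over `k`: `x^j - ∑_i α_i^j E_i` vanishes at all `α_i`, so it is
`P G` with degree `≤ d ≤ D`, so `T(x^j, X) = ∑_i α_i^j T(E_i, X)` at `X₁`, `X₂`. -/
def SpecNNC : Prop :=
  ∀ (k₀ k : Type) [Field k₀] [Field k] [Algebra k₀ k] (t : ℕ → k₀) (S : Set ℕ) (P : k₀[X]) (c : k)
    (d D N K Lg Y : ℕ) (α : Fin d → k), 2 ≤ d → d ≤ D → P.natDegree = d → c ≠ 0 →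
    P.map (algebraMap k₀ k) = C c * ∏ i, (Polynomial.X - C (α i)) → Function.Injective α →
    (∀ x : k₀, ¬ P.IsRoot x) → DD.supp t ⊆ S → 1 ≤ K →
    (∀ X : ℕ, X ≤ N → DD.GapS S K D X → DD.TT t P X = 0) →
    (∀ G : k[X], (P.map (algebraMap k₀ k) * G).natDegree ≤ D → ∀ X : ℕ, X ≤ N →
      DD.GapS S K D X → DD.TT (fun n => algebraMap k₀ k (t n)) (P.map (algebraMap k₀ k) * G) X = 0) →
    (∀ Z : ℕ, Z + Lg ≤ N → ∃ X : ℕ, Z ≤ X ∧ X + K ≤ Z + Lg ∧ DD.GapS S K (2 * D) X) →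
    Lg ≤ Y → 1 ≤ Y → 4 * Y ≤ N →
    ∃ (i : Fin d) (X₁ X₂ : ℕ), Y ≤ X₁ ∧ X₁ ≤ X₂ ∧ X₂ ≤ 4 * Y ∧ DD.GapS S K D X₁ ∧
      DD.GapS S K D X₂ ∧
      ∑ v ∈ Finset.range X₁, PowerSeries.coeff v
        (aeval (PowerSeries.mk fun n => algebraMap k₀ k (t n)) (Lagrange.basis Finset.univ α i)) ≠
      ∑ v ∈ Finset.range X₂, PowerSeries.coeff v
        (aeval (PowerSeries.mk fun n => algebraMap k₀ k (t n)) (Lagrange.basis Finset.univ α i))

/-- Module EXK [200] (from EXT IDE NNC): all together. `k` = splitting field of `P` modulo `p` over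
`ZMod p`, `x^(p^f) = x` for `p^f = |k|`; `α` = the roots (distinct, `P` separable, degree preserved),
`D = p d`, `C = l1 P · p (D + 1)`. -/
def SpecEXK : Prop :=
  ∀ (b B p : ℕ) [Fact p.Prime] (t : ℕ → ℤ) (P : ℤ[X]), 2 ≤ b → 1 ≤ B → (∀ n, |t n| ≤ B) →
    ¬ p ∣ b → aeval (DC.bet b t) P = 0 → 2 ≤ P.natDegree →
    (P.map (Int.castRingHom (ZMod p))).natDegree = P.natDegree →
    (P.map (Int.castRingHom (ZMod p))).Separable →
    (∀ x : ZMod p, ¬ (P.map (Int.castRingHom (ZMod p))).IsRoot x) →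
    ∃ (k : Type) (_ : Field k) (_ : Finite k) (_ : CharP k p) (e : Fin P.natDegree → ℕ → k)
      (f D : ℕ) (C : ℝ), 1 ≤ f ∧ (∀ x : k, x ^ p ^ f = x) ∧ P.natDegree ≤ D ∧
      ∀ N K : ℕ, D ≤ N → 1 ≤ K → C * DC.GG B D N < (b : ℝ) ^ K →
        (∀ i, Jump {x | t x ≠ 0} p P.natDegree D N K (e i)) ∧
        ∀ K₁ Lg Y : ℕ, K ≤ K₁ → Lg ≤ Y → 1 ≤ Y → 4 * Y ≤ N →
          (∀ Z : ℕ, Z + Lg ≤ N →
            ∃ X : ℕ, Z ≤ X ∧ X + K₁ ≤ Z + Lg ∧ DD.GapS {x | t x ≠ 0} K₁ (2 * D) X) →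
          ∃ (i : Fin P.natDegree) (X₁ X₂ : ℕ), Y ≤ X₁ ∧ X₁ ≤ X₂ ∧ X₂ ≤ 4 * Y ∧
            DD.GapS {x | t x ≠ 0} K₁ D X₁ ∧ DD.GapS {x | t x ≠ 0} K₁ D X₂ ∧
            ∑ v ∈ Finset.range X₁, e i v ≠ ∑ v ∈ Finset.range X₂, e i v

/-! ## Self-similarity -/

/-- Module SIM [350] (from CMP): self-similarity. `P = Pn e N`; `|P| ≤ (A+1)^(d-1)` (sums of at most
`d - 1` elements of `S`, see `DD/Gap.lean`). Let `c_end` be the last element of the component `C` of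
`c`; `c_end < c + |P| B^i`. Choose `X₂ ∈ (c_end, c_end + B^i/3]` such that
(a) `p^s X₂` is a `K`-gap of order `D` for `1 ≤ s ≤ f u j`, and (b) no element of `P` is in
`[B^j X₂ - B^i', B^j X₂ + B^i']`. Excluded values: (a) at most `log₂ N · (A+1)^D · (K+1)`; (b) at most
`|P| (2 B^(i'-j) + 1) ≤ 3 |P| B^(i-1)`; less than `B^i/3 - 1`. Similarly `X₁ ∈ (c - B^i/3, c]`, or
`X₁ = 0` if `3 c < B^i`. By `fro`, `W(B^j X) = W(X)^(p^(f u j)) = W(X)` for `X = X₁, X₂`, so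
`∑_{B^j X₁ ≤ v < B^j X₂} e_v = W(X₂) - W(X₁) = ∑_{v ∈ C} e_v ≠ 0` (no element of `P` outside `C` in
`[X₁, X₂)`). By (b) `P ∩ [B^j X₁, B^j X₂)` is a union of components at threshold `B^i'`: one of them
has nonzero mass. -/
def SpecSIM : Prop :=
  ∀ (k : Type) [Field k] (S : Set ℕ) (p f u d D N K A B : ℕ) (e : ℕ → k), 2 ≤ p → 1 ≤ f → 1 ≤ u →
    1 ≤ d → d ≤ D → 1 ≤ K → Jump S p d D N K e → (∀ x : k, x ^ p ^ f = x) → B = p ^ (f * u) →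
    DD.cnt S N ≤ A → 24 * (Nat.log 2 N + 2) * (A + 1) ^ D * (K + 2) ≤ B → Sim (Pn e N) e B N

/-- Module LF0 [120] (from CMP): comparison of the sets of leaves. `Sim` with `i = 1, j = 3, i' = 3`: the
intervals `[B^3 (c - B/3), B^3 (c_end + B/3)]` are disjoint for different `c ∈ Lf 1 l`. -/
def SpecLF0 : Prop :=
  ∀ (k : Type) [Field k] (P : Finset ℕ) (e : ℕ → k) (B N : ℕ), 8 * (P.card + 1) ≤ B →
    Sim P e B N → ∀ l : ℕ, 1 ≤ l → B ^ (l + 6) ≤ N →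
      (Lf P e B 1 l).card ≤ (Lf P e B 3 (l + 4)).card

/-- Module GRO [150] (from CMP): growth of the number of leaves. `Sim` with `i = i' = 3` and all
`j ≥ 1` with `j + 6 ≤ l`: leaves `c_j` with `B^j (c - B^3) < c_j < B^j (c + B^4)`; they are different and
`< B^(j+6)`. -/
def SpecGRO : Prop :=
  ∀ (k : Type) [Field k] (P : Finset ℕ) (e : ℕ → k) (B N c : ℕ), 8 * (P.card + 1) ≤ B →
    Sim P e B N → c ∈ Sta P (B ^ 3) → mass P e (B ^ 3) c ≠ 0 → B ^ 5 ≤ c → c + B ^ 4 ≤ B ^ 6 →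
    ∀ l : ℕ, B ^ (l + 1) ≤ N → l ≤ (Lf P e B 3 l).card + 6

/-- Module SPR [350] (from CMP): spread. `T = Lf 3 L`, `T' = Lf 1 (2L+3)`, `g ≥ 4`. For
`1 ≤ j ≤ L` let `Φ s ∈ T'` (`s ∈ T`) be the component given by `Sim` (`i = 3`, `i' = 1`):
`B^j s - B^(3+j)/3 ≤ Φ s ≤ B^j s_end + B^(3+j)/3`. (i) `s, s'` in the same node at level `g` implies
`Φ s, Φ s'` in the same node at level `g + 1 + j` (`|Φ s - Φ s'| < B^(g+1+j)`, CMP (2)). (ii) `s < s'` in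
different nodes at level `g - 1 ≥ 3` implies `Φ s' - Φ s ≥ B^(g-1+j)/3 ≥ |P| B^(g-2+j)`, so `Φ s, Φ s'` are
in different nodes at level `g - 2 + j` (CMP (3)); in particular `Φ` is injective. Claim:
`#{s ∈ T : Act T (g-1) g s} ≤ 2 #{t ∈ T' : Act T' (g-2+j) (g+1+j) t}`. Let `ν'` be a node of level
`g + 1 + j`. If all leaves `t ∈ ν'` are active, clear. Otherwise there is a node `c*` of level
`g - 2 + j` in `ν'` with `2 |c*| > |ν'|`, and the active leaves of `ν'` are those outside `c*`. The `s`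
with `Φ s ∈ c*` are in one node `c₀` of level `g - 1` (by (ii)), in a node `ν₀` of level `g`; if they are
active then their number is at most `|c₀| ≤ |ν₀| - |c₀| ≤ #{s : Φ s ∈ ν' - c*}` (by (i), (ii)). So
`#{s active, Φ s ∈ ν'} ≤ 2 #{s : Φ s ∈ ν' - c*}`. Sum over `j = 1..L`; for fixed `t` at most
`3 log₂ |T'|` of the `j` have `Act T' (g-2+j) (g+1+j) t` (for `j` in one class modulo 3 the number
`wt` doubles each time). -/
def SpecSPR : Prop :=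
  ∀ (k : Type) [Field k] (P : Finset ℕ) (e : ℕ → k) (B N L : ℕ), 16 * (P.card + 1) ≤ B →
    Sim P e B N → 6 ≤ L → B ^ (2 * L + 5) ≤ N → ∀ g : ℕ, 4 ≤ g →
    L * ((Lf P e B 3 L).filter fun s => Act P (Lf P e B 3 L) B (g - 1) g s).card ≤
      6 * Nat.log 2 (Lf P e B 1 (2 * L + 3)).card * (Lf P e B 1 (2 * L + 3)).card

/-- Module REL [350] (from CMP SUM): the relation for pairs. `P = Pn e N`, `V = sm 2 P`. Let
`z = st V (B^3) (u + u')`, `z_end` the last element of this component of `V`. Choose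
`X₂ ∈ (z_end, z_end + B^3/3]` and `X₁ ∈ (z - B^3/3, z]` (or `X₁ = 0` if `3 z < B^3`) which are `K`-gaps of
order `D` and have no element of `P` at distance `≤ B` (if not `0`). By `idm` at `X₁` and `X₂`:
`∑_{X₁ ≤ v + w < X₂} e_v e_w = ∑_{X₁ ≤ v < X₂} e_v`. The left side is the sum over the pairs in `P × P`
with `v + w` in the component `z` of `V`. Group by the components at threshold `B^3` of `P`
(`st V (B^3) (v + w) = st V (B^3) (st P (B^3) v + st P (B^3) w)`, SUM (3)): it is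
`∑ mass c · mass c'` over the starts `c, c'` with `c + c'` in the component `z`; those with nonzero
masses are leaves `< B^L` because `v + w ≤ u + u' + |V| B^3 < B^L`. The right side is `0` unless
`[X₁, X₂)` contains a component of `P` at threshold `B` with nonzero mass. `Z` = the starts `z` such
that there is such a component in `[z - B^3/3, z_end + B^3/3]` with start `< B^(L+2)`; these intervals
are disjoint. -/
def SpecREL : Prop :=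
  ∀ (k : Type) [Field k] (S : Set ℕ) (p d D N K A B L : ℕ) (e : ℕ → k), 1 ≤ d → d ≤ D → 1 ≤ K →
    Jump S p d D N K e → DD.cnt S N ≤ A → 24 * (A + 1) ^ (2 * D) * (K + 2) ≤ B → 6 ≤ L →
    B ^ (L + 3) ≤ N →
    ∃ Z : Finset ℕ, Z.card ≤ (Lf (Pn e N) e B 1 (L + 2)).card ∧
      ∀ u ∈ Lf (Pn e N) e B 3 L, ∀ u' ∈ Lf (Pn e N) e B 3 L, u < B ^ (L - 1) → u' < B ^ (L - 1) →
        st (sm 2 (Pn e N)) (B ^ 3) (u + u') ∉ Z →
        ∑ x ∈ (Lf (Pn e N) e B 3 L ×ˢ Lf (Pn e N) e B 3 L).filter (fun x : ℕ × ℕ =>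
          st (sm 2 (Pn e N)) (B ^ 3) (x.1 + x.2) = st (sm 2 (Pn e N)) (B ^ 3) (u + u')),
          mass (Pn e N) e (B ^ 3) x.1 * mass (Pn e N) e (B ^ 3) x.2 = 0

/-! ## Choice of the parameters -/

/-- Module PGN [250] (self-contained): pigeonhole. Proof. If `φ (4 l) > l^(ε/2) φ (l/4)` for all
`l = 16^s` with `√Λ ≤ l ≤ Λ/8` then `φ Λ` is larger than every power of `Λ` (there are `≥ c log Λ` such
`s`, each with a factor `≥ Λ^(ε/4)`). So there is such an `l` with `φ (4 l) ≤ l^(ε/2) φ (l/4)`. If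
`ψ (L - 1) < (1 - ε) ψ L` for all `L` with `l/2 < L ≤ l` then `ψ l ≥ (1 - ε)^(-l/2)`, too large
(`ψ ≤ φ`). Take such an `L` in `(l/2, l]`: `φ (2L+3) ≤ φ (4l) ≤ l^(ε/2) φ (l/4) ≤ l^(ε/2) ψ (l/4 + 4) ≤
l^(ε/2) ψ L ≤ L^ε ψ L`. -/
def SpecPGN : Prop :=
  ∀ (κ ε : ℝ) (L₀ : ℕ), 0 < κ → 0 < ε → ∃ Λ₀ : ℕ, ∀ Λ : ℕ, Λ₀ ≤ Λ → ∀ φ ψ : ℕ → ℕ,
    Monotone φ → Monotone ψ → ((φ Λ : ℝ) ≤ (Λ : ℝ) ^ κ) → ((ψ Λ : ℝ) ≤ (Λ : ℝ) ^ κ) →
    (∀ l, 1 ≤ l → l + 4 ≤ Λ → φ l ≤ ψ (l + 4)) → (∀ l ≤ Λ, l ≤ ψ l + 6) →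
    ∃ L : ℕ, L₀ ≤ L ∧ Λ ≤ L ^ 2 * 16 ∧ 2 * L + 3 ≤ Λ ∧ (φ (2 * L + 3) : ℝ) ≤ (L : ℝ) ^ ε * ψ L ∧
      (ψ L : ℝ) - ψ (L - 1) ≤ ε * ψ L

/-- Module PRM [200] (self-contained): parameters. `K = ⌈(log N)²⌉`, `u` the least integer with
`q^u ≥ (log N)^(C')`, `C'` large; `Λ = ⌊log N / (u log q)⌋ - 8 ≥ (log N)^(3/4)`. -/
def SpecPRM : Prop :=
  ∀ (κ₀ C₁ : ℝ) (b B d D q C Λ₀ : ℕ), 1 ≤ κ₀ → 2 ≤ b → 1 ≤ B → 2 ≤ d → d ≤ D → 2 ≤ q →
    ∃ N₀ : ℕ, ∀ N : ℕ, N₀ ≤ N → ∀ A : ℕ, (A : ℝ) + 1 ≤ Real.log N ^ κ₀ →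
      ∃ K u Λ : ℕ, 1 ≤ K ∧ 1 ≤ u ∧ D ≤ N ∧ C₁ * DC.GG B D N < (b : ℝ) ^ K ∧
        24 * (Nat.log 2 N + 2) * (A + 1) ^ (2 * D) * (K + 2) ≤ q ^ u ∧ (q ^ u) ^ (Λ + 8) ≤ N ∧
        Λ₀ ≤ Λ ∧ ((A : ℝ) + 1) ^ d + 1 ≤ (Λ : ℝ) ^ (2 * κ₀ * d) ∧ Λ ^ C ≤ q ^ u

/-- Module PI [350] (from EXK SIM LF0 GRO SPR REL PGN PRM, `DD.SpecGAP` (1)): existence of systems of
leaves. Given `N` with few elements of `S`: PRM. With `K₁ = 2 B^3 + K`, `Lg = K₁ ((A+1)^(2D) + 1)`,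
`Y = B^5` the second part of EXK gives `i`, `X₁`, `X₂`; `e = e_i`. Then `W (X_l + B^3) = W(X_l)` and there
is no element of `P` at distance `< B^3` of `X_l + B^3`, so there is a component at threshold `B^3` with
nonzero mass and start in `[B^5, 4 B^5 + 2 B^3]`: GRO. `φ l = |Lf 1 l|`, `ψ l = |Lf 3 l|`, PGN gives `L`
(with `ε/4`; `|P| + 1 ≤ Λ^(2 κ₀ d) ≤ L^(5 κ₀ d)` as `Λ ≤ 16 L²`). `T = Lf 3 L`, masses `e s`, SPR gives
`spread`: `6 log₂ |T'| |T'| / L ≤ L^(-1+ε) |T|`. `low`: `ψ L - ψ (L-1) ≤ ε ψ L`. REL gives `Z`. -/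
def SpecPI : Prop :=
  ∀ (b B p : ℕ) [Fact p.Prime] (t : ℕ → ℤ) (P : ℤ[X]) (κ₀ : ℝ), 2 ≤ b → 1 ≤ B →
    (∀ n, |t n| ≤ B) → ¬ p ∣ b → aeval (DC.bet b t) P = 0 → 2 ≤ P.natDegree →
    (P.map (Int.castRingHom (ZMod p))).natDegree = P.natDegree →
    (P.map (Int.castRingHom (ZMod p))).Separable →
    (∀ x : ZMod p, ¬ (P.map (Int.castRingHom (ZMod p))).IsRoot x) → 1 ≤ κ₀ →
    (∀ N₀ : ℕ, ∃ N : ℕ, N₀ ≤ N ∧ (DD.cnt {x | t x ≠ 0} N : ℝ) + 1 ≤ Real.log N ^ κ₀) →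
    ∃ (k : Type) (_ : Field k) (_ : Finite k) (_ : CharP k p), ∀ (ε : ℝ) (C L₀ : ℕ), 0 < ε →
      ∃ (L B' : ℕ) (V T Z : Finset ℕ) (e : ℕ → k), L₀ ≤ L ∧ L ^ C ≤ B' ∧
        Sys L B' (5 * κ₀ * P.natDegree) ε V T Z e

/-! ## The theorem -/

/-- Module THM [200] (from PI PII, `DD.specRLS`, `DD.specSPL`): the theorem. Let `P` be the primitive
integral minimal polynomial of `β`, `d = deg P ≥ 2`. Suppose the claim is false for `c`; then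
`cnt S N + 1 ≤ (log N)^κ₀` for arbitrarily large `N`, `κ₀ = max(c, 1) + 1`. `κ = 5 κ₀ d`; choose a prime
`p` without roots of `P`, larger than `b`, `C(2⌊2κ⌋, ⌊2κ⌋)` and the bound of `SpecSPL`. In
characteristic `p` the numbers `1 ≤ j < p` are not `0`. PI and PII contradict each other. -/
def SpecTHM : Prop :=
  ∀ (b : ℕ) (t : ℕ → ℤ) (B : ℕ), 2 ≤ b → (∀ n, |t n| ≤ B) → IsAlgebraic ℚ (DC.bet b t) →
    Irrational (DC.bet b t) → ∀ c : ℝ, ∃ N₀ : ℕ, ∀ N : ℕ, N₀ ≤ N →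
      Real.log N ^ c ≤ ((Finset.range N).filter fun i => t i ≠ 0).card

/-- Module FIN [100] (from THM): linear relations between consecutive digits, digit changes. Proof as
`DC.relations` (`DC/Final.lean`) and `DC.specDIG` (`DC/Dig.lean`), see also `DD/FIN.lean`. -/
def SpecFIN : Prop :=
  (∀ (b : ℕ) (x : ℝ), 2 ≤ b → IsAlgebraic ℚ x → Irrational x →
      ∀ q : ℤ[X], q.eval (b : ℤ) ≠ 0 → ∀ c : ℝ,
      ∃ N₀ : ℕ, ∀ N : ℕ, N₀ ≤ N → Real.log N ^ c ≤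
          ((Finset.range N).filter fun n =>
            q.sum (fun j a => a * DC.digit b x (n + j)) ≠ 0).card) ∧
    (∀ (b : ℕ) (x : ℝ), 2 ≤ b → IsAlgebraic ℚ x → Irrational x → ∀ c : ℝ,
      ∃ N₀ : ℕ, ∀ N : ℕ, N₀ ≤ N → Real.log N ^ c ≤
          ((Finset.range N).filter fun n => DC.digit b x n ≠ DC.digit b x (n + 1)).card)

end Pool.Agent.Lib.MP5b6025.EP
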