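import Pool.Agent.Lib.MP_5b6025_nt.DD.FIN
import Pool.Agent.Lib.MP_5b6025_nt.EP.SpecI

/-!
# Module FIN: linear relations between consecutive digits, digit changes (every power of `log N`)
-/

set_option autoImplicit false

open Polynomial

namespace Pool.Agent.Lib.MP5b6025.EP

namespace FINM

open DC

/-- Linear relations between consecutive digits fail often. -/
theorem relations (hT : SpecTHM) (b : ℕ) (x : ℝ) (hb : 2 ≤ b) (halg : IsAlgebraic ℚ x)
    (hirr : Irrational x) (q : ℤ[X]) (hq : q.eval (b : ℤ) ≠ 0) (c : ℝ) :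
    ∃ N₀ : ℕ, ∀ N : ℕ, N₀ ≤ N → Real.log N ^ c ≤
        ((Finset.range N).filter fun n => q.sum (fun j a => a * digit b x (n + j)) ≠ 0).card := by
  have hb0 : (b : ℤ) ≠ 0 := by positivity
  have hne : (b : ℤ) * q.eval (b : ℤ) ≠ 0 := mul_ne_zero hb0 hq
  have hbet := DD.FINM.bet_rel b x hb q
  have hbound : ∀ n, |q.sum fun j a => a * digit b x (n + j)| ≤
      ((∑ j ∈ q.support, (q.coeff j).natAbs * b : ℕ) : ℤ) := by
    intro n
    rw [Polynomial.sum_def]
    refine (Finset.abs_sum_le_sum_abs _ _).trans ?_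
    push_cast
    refine Finset.sum_le_sum fun j _ => ?_
    rw [abs_mul]
    have h1 := DigM.digit_nonneg b x hb (n + j)
    have h2 := DigM.digit_lt b x hb (n + j)
    rw [abs_of_nonneg h1]
    exact mul_le_mul_of_nonneg_left h2.le (abs_nonneg _)
  refine hT b _ _ hb hbound ?_ ?_ c
  · rw [hbet]
    exact ((isAlgebraic_intCast _).mul halg).sub (isAlgebraic_intCast _)
  · rw [hbet]
    exact (hirr.intCast_mul hne).sub_intCast _

/-- Digit changes. -/
theorem changes (hT : SpecTHM) (b : ℕ) (x : ℝ) (hb : 2 ≤ b) (halg : IsAlgebraic ℚ x)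
    (hirr : Irrational x) (c : ℝ) :
    ∃ N₀ : ℕ, ∀ N : ℕ, N₀ ≤ N → Real.log N ^ c ≤
        ((Finset.range N).filter fun n => digit b x n ≠ digit b x (n + 1)).card := by
  have hbet := DigM.bet_eq b x hb
  have hbound : ∀ n, |digit b x (n + 1) - digit b x n| ≤ b := by
    intro n
    have h1 := DigM.digit_nonneg b x hb n
    have h2 := DigM.digit_nonneg b x hb (n + 1)
    have h3 := DigM.digit_lt b x hb n
    have h4 := DigM.digit_lt b x hb (n + 1)
    rw [abs_le]
    constructor <;> linarith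
  have hcast : ((b : ℝ) ^ 2 - b) * x - (((b : ℝ) ^ 2 - b) * ⌊x⌋ + b * digit b x 0) =
      (((b : ℤ) ^ 2 - b : ℤ) : ℝ) * x - ((((b : ℤ) ^ 2 - b) * ⌊x⌋ + b * digit b x 0 : ℤ) : ℝ) := by
    push_cast
    ring
  have hne : ((b : ℤ) ^ 2 - b : ℤ) ≠ 0 := by
    have : (2 : ℤ) ≤ b := by exact_mod_cast hb
    nlinarith
  have halg' : IsAlgebraic ℚ (bet b (fun n => digit b x (n + 1) - digit b x n)) := by
    rw [hbet, hcast]
    exact ((isAlgebraic_intCast _).mul halg).sub (isAlgebraic_intCast _)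
  have hirr' : Irrational (bet b (fun n => digit b x (n + 1) - digit b x n)) := by
    rw [hbet, hcast]
    exact (hirr.intCast_mul hne).sub_intCast _
  obtain ⟨N₀, h⟩ := hT b _ b hb hbound halg' hirr' c
  refine ⟨N₀, fun N hN => (h N hN).trans (le_of_eq ?_)⟩
  congr 2
  refine Finset.filter_congr fun i _ => ?_
  rw [ne_eq, ne_eq, sub_eq_zero]
  exact not_congr eq_comm

end FINM

theorem specFIN (hT : SpecTHM) : SpecFIN :=
  ⟨fun b x hb halg hirr q hq c => FINM.relations hT b x hb halg hirr q hq c,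
    fun b x hb halg hirr c => FINM.changes hT b x hb halg hirr c⟩

end Pool.Agent.Lib.MP5b6025.EP
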