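import Pool.Agent.Lib.MP_5b6025_nt.EP.Spec

/-!
# Digit changes: module FNS (the maximal word)
-/

set_option autoImplicit false

namespace Pool.Agent.Lib.MP5b6025.EP

namespace FNSM

/-! ### ranks -/

section Rank

variable {α : Type} [LinearOrder α]

/-- the rank of `x` in `A` -/
def rk (A : Finset α) (x : α) : ℕ := (A.filter (· < x)).card

theorem rk_lt {A : Finset α} {x : α} (hx : x ∈ A) : rk A x < A.card :=
  Finset.card_lt_card (Finset.filter_ssubset.2 ⟨x, hx, lt_irrefl x⟩)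

theorem rk_strict {A : Finset α} {x y : α} (hx : x ∈ A) (h : x < y) : rk A x < rk A y := by
  refine Finset.card_lt_card ⟨fun z hz => ?_, fun hs => ?_⟩
  · have hz' := Finset.mem_filter.1 hz
    exact Finset.mem_filter.2 ⟨hz'.1, hz'.2.trans h⟩
  · have h1 := hs (Finset.mem_filter.2 ⟨hx, h⟩)
    exact lt_irrefl x (Finset.mem_filter.1 h1).2

theorem rk_inj {A : Finset α} {x y : α} (hx : x ∈ A) (hy : y ∈ A) (h : rk A x = rk A y) :
    x = y := by
  rcases lt_trichotomy x y with h1 | h1 | h1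
  · exact absurd h (rk_strict hx h1).ne
  · exact h1
  · exact absurd h (rk_strict hy h1).ne'

/-- the rank in a set given as the image of a strictly increasing function -/
theorem rk_of_mono {r : ℕ} {A : Finset α} {g : Fin r → α} (hg : StrictMono g)
    (hA : ∀ x, x ∈ A ↔ ∃ a, g a = x) (a : Fin r) : rk A (g a) = a := by
  have h1 : A.filter (· < g a) = (Finset.Iio a).map ⟨g, hg.injective⟩ := by
    ext x
    rw [Finset.mem_filter, hA, Finset.mem_map]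
    constructor
    · rintro ⟨⟨b, rfl⟩, hb⟩
      exact ⟨b, Finset.mem_Iio.2 (hg.lt_iff_lt.1 hb), rfl⟩
    · rintro ⟨b, hb, rfl⟩
      exact ⟨⟨b, rfl⟩, hg (Finset.mem_Iio.1 hb)⟩
  unfold rk
  rw [h1, Finset.card_map, Fin.card_Iio]

theorem card_of_mono {r : ℕ} {A : Finset α} {g : Fin r → α} (hg : StrictMono g)
    (hA : ∀ x, x ∈ A ↔ ∃ a, g a = x) : A.card = r := by
  have h1 : A = Finset.univ.map ⟨g, hg.injective⟩ := by
    ext x
    rw [hA, Finset.mem_map]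
    constructor
    · rintro ⟨b, rfl⟩
      exact ⟨b, Finset.mem_univ b, rfl⟩
    · rintro ⟨b, _, rfl⟩
      exact ⟨b, rfl⟩
  rw [h1, Finset.card_map, Finset.card_univ, Fintype.card_fin]

/-- the increasing enumeration of a finite set -/
theorem exists_enum (A : Finset α) {r : ℕ} (h : A.card = r) :
    ∃ g : Fin r → α, StrictMono g ∧ ∀ x, x ∈ A ↔ ∃ a, g a = x := by
  refine ⟨A.orderEmbOfFin h, (A.orderEmbOfFin h).strictMono, fun x => ?_⟩
  have h1 := A.range_orderEmbOfFin h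
  constructor
  · intro hx
    have h2 : x ∈ Set.range (A.orderEmbOfFin h) := by
      rw [h1]
      exact hx
    exact h2
  · rintro ⟨a, rfl⟩
    exact A.orderEmbOfFin_mem h a

end Rank

/-! ### blocks and words -/

section Word

variable {n : ℕ}

/-- the blocks of `T` -/
def blk (Q : Fin n → Finset ℕ) (T : Finset ℕ) : Finset (Fin n) :=
  Finset.univ.filter fun i => (T ∩ Q i).Nonempty

/-- the letter of `T` at the block `i` -/
def lte (en : Finset ℕ → ℕ) (Q : Fin n → Finset ℕ) (T : Finset ℕ) (i : Fin n) : ℕ :=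
  en ((T ∩ Q i).image (rk (Q i)))

/-- the word of `T` -/
def wrd (en : Finset ℕ → ℕ) (c : ℕ) (Q : Fin n → Finset ℕ) (T : Finset ℕ) : Fin c → ℕ := fun a =>
  ∑ i ∈ (blk Q T).filter (fun i => rk (blk Q T) i = a), lte en Q T i

variable {en : Finset ℕ → ℕ} {c : ℕ} {Q : Fin n → Finset ℕ} {T T' : Finset ℕ}

theorem mem_blk {i : Fin n} : i ∈ blk Q T ↔ (T ∩ Q i).Nonempty := by
  unfold blk
  rw [Finset.mem_filter]
  exact ⟨fun h => h.2, fun h => ⟨Finset.mem_univ _, h⟩⟩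

theorem blk_union : blk Q (T ∪ T') = blk Q T ∪ blk Q T' := by
  ext i
  rw [Finset.mem_union, mem_blk, mem_blk, mem_blk, Finset.union_inter_distrib_right,
    Finset.union_nonempty]

theorem wrd_eq {i : Fin n} {a : Fin c} (hi : i ∈ blk Q T) (ha : rk (blk Q T) i = a) :
    wrd en c Q T a = lte en Q T i := by
  have h1 : (blk Q T).filter (fun i => rk (blk Q T) i = a) = {i} := by
    ext j
    rw [Finset.mem_filter, Finset.mem_singleton]
    constructor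
    · rintro ⟨hj, hj'⟩
      exact rk_inj hj hi (hj'.trans ha.symm)
    · rintro rfl
      exact ⟨hi, ha⟩
  unfold wrd
  rw [h1, Finset.sum_singleton]

theorem wrd_zero {a : Fin c} (ha : (blk Q T).card ≤ a) : wrd en c Q T a = 0 := by
  have h1 : (blk Q T).filter (fun i => rk (blk Q T) i = a) = ∅ := by
    ext j
    rw [Finset.mem_filter]
    constructor
    · rintro ⟨hj, hj'⟩
      have := rk_lt hj
      omega
    · intro h
      exact absurd h (Finset.notMem_empty _)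
  unfold wrd
  rw [h1, Finset.sum_empty]

theorem lte_union_left {i : Fin n} (hi : i ∉ blk Q T') : lte en Q (T ∪ T') i = lte en Q T i := by
  rw [mem_blk, Finset.not_nonempty_iff_eq_empty] at hi
  unfold lte
  rw [Finset.union_inter_distrib_right, hi, Finset.union_empty]

theorem lte_union_right {i : Fin n} (hi : i ∉ blk Q T) : lte en Q (T ∪ T') i = lte en Q T' i := by
  rw [Finset.union_comm]
  exact lte_union_left hi

/-- the word of `T` from an enumeration of its blocks -/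
theorem wrd_enum {r : ℕ} (hr : r ≤ c) {g : Fin r → Fin n} (hg : StrictMono g)
    (hA : ∀ i, i ∈ blk Q T ↔ ∃ a, g a = i) (a : Fin r) :
    wrd en c Q T (Fin.castLE hr a) = lte en Q T (g a) :=
  wrd_eq ((hA _).2 ⟨a, rfl⟩) (rk_of_mono hg hA a)

theorem card_blk (hQ : ∀ i j, i ≠ j → Disjoint (Q i) (Q j)) : (blk Q T).card ≤ T.card := by
  have h1 : ((blk Q T).biUnion fun i => T ∩ Q i) ⊆ T := by
    intro x hx
    obtain ⟨i, _, hi⟩ := Finset.mem_biUnion.1 hx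
    exact (Finset.mem_inter.1 hi).1
  have h2 : ((blk Q T).biUnion fun i => T ∩ Q i).card = ∑ i ∈ blk Q T, (T ∩ Q i).card := by
    refine Finset.card_biUnion fun i _ j _ hij => ?_
    exact Finset.disjoint_of_subset_left Finset.inter_subset_right
      (Finset.disjoint_of_subset_right Finset.inter_subset_right (hQ i j hij))
  calc (blk Q T).card = ∑ i ∈ blk Q T, 1 := by rw [Finset.sum_const, smul_eq_mul, mul_one]
    _ ≤ ∑ i ∈ blk Q T, (T ∩ Q i).card :=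
        Finset.sum_le_sum fun i hi => Finset.card_pos.2 (mem_blk.1 hi)
    _ ≤ T.card := by
        rw [← h2]
        exact Finset.card_le_card h1

theorem det_set (hen : Function.Injective en) (hT : T ⊆ Finset.univ.biUnion Q)
    (hT' : T' ⊆ Finset.univ.biUnion Q) (hb : blk Q T = blk Q T') (hc : (blk Q T).card ≤ c)
    (hw : wrd en c Q T = wrd en c Q T') : T = T' := by
  have key : ∀ i, T ∩ Q i = T' ∩ Q i := by
    intro i
    by_cases hi : i ∈ blk Q T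
    · have hi' : i ∈ blk Q T' := hb ▸ hi
      have h1 : rk (blk Q T) i < c := (rk_lt hi).trans_le hc
      have h2 := wrd_eq (en := en) (a := ⟨rk (blk Q T) i, h1⟩) hi rfl
      have h3 := wrd_eq (en := en) (a := ⟨rk (blk Q T) i, h1⟩) hi' (by rw [← hb])
      have h4 : lte en Q T i = lte en Q T' i := by rw [← h2, ← h3, hw]
      have h5 := hen h4
      ext x
      constructor
      · intro hx
        have h6 : rk (Q i) x ∈ (T ∩ Q i).image (rk (Q i)) := Finset.mem_image_of_mem _ hx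
        rw [h5] at h6
        obtain ⟨y, hy, hy'⟩ := Finset.mem_image.1 h6
        have h7 : y = x := rk_inj (Finset.mem_inter.1 hy).2 (Finset.mem_inter.1 hx).2 hy'
        exact h7 ▸ hy
      · intro hx
        have h6 : rk (Q i) x ∈ (T' ∩ Q i).image (rk (Q i)) := Finset.mem_image_of_mem _ hx
        rw [← h5] at h6
        obtain ⟨y, hy, hy'⟩ := Finset.mem_image.1 h6
        have h7 : y = x := rk_inj (Finset.mem_inter.1 hy).2 (Finset.mem_inter.1 hx).2 hy'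
        exact h7 ▸ hy
    · have hi' : i ∉ blk Q T' := hb ▸ hi
      rw [mem_blk, Finset.not_nonempty_iff_eq_empty] at hi hi'
      rw [hi, hi']
  ext x
  constructor
  · intro hx
    obtain ⟨i, _, hi⟩ := Finset.mem_biUnion.1 (hT hx)
    have h1 : x ∈ T ∩ Q i := Finset.mem_inter.2 ⟨hx, hi⟩
    rw [key i] at h1
    exact (Finset.mem_inter.1 h1).1
  · intro hx
    obtain ⟨i, _, hi⟩ := Finset.mem_biUnion.1 (hT' hx)
    have h1 : x ∈ T' ∩ Q i := Finset.mem_inter.2 ⟨hx, hi⟩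
    rw [← key i] at h1
    exact (Finset.mem_inter.1 h1).1

/-- the finite set of the letters -/
def Lt (en : Finset ℕ → ℕ) (c : ℕ) : Set ℕ := insert 0 (en '' {S | S ⊆ Finset.range c})

theorem Lt_finite : (Lt en c).Finite := by
  refine Set.Finite.insert 0 (Set.Finite.image _ ?_)
  have h : {S : Finset ℕ | S ⊆ Finset.range c} = ((Finset.range c).powerset : Set (Finset ℕ)) := by
    ext S
    rw [Finset.mem_coe, Finset.mem_powerset]
    rfl
  rw [h]
  exact Finset.finite_toSet _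

/-- the finite set of the words -/
def Wd (en : Finset ℕ → ℕ) (c : ℕ) : Set (Fin c → ℕ) := Set.univ.pi fun _ => Lt en c

theorem Wd_finite : (Wd en c).Finite := Set.Finite.pi fun _ => Lt_finite

theorem lte_mem (hQ : ∀ i, (Q i).card ≤ c) (i : Fin n) : lte en Q T i ∈ Lt en c := by
  refine Set.mem_insert_of_mem _ ⟨_, ?_, rfl⟩
  intro x hx
  obtain ⟨y, hy, rfl⟩ := Finset.mem_image.1 hx
  exact Finset.mem_range.2 ((rk_lt (Finset.mem_inter.1 hy).2).trans_le (hQ i))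

theorem wrd_mem (hQ : ∀ i, (Q i).card ≤ c) : wrd en c Q T ∈ Wd en c := by
  intro a _
  by_cases h : ∃ i ∈ blk Q T, rk (blk Q T) i = a
  · obtain ⟨i, hi, hi'⟩ := h
    rw [wrd_eq hi hi']
    exact lte_mem hQ i
  · have h1 : wrd en c Q T a = 0 := by
      unfold wrd
      rw [Finset.filter_eq_empty_iff.2 fun i hi hi' => h ⟨i, hi, hi'⟩, Finset.sum_empty]
    rw [h1]
    exact Set.mem_insert _ _

end Word

/-- restriction of the lexicographic order -/
theorem lex_restrict {c r : ℕ} (hr : r ≤ c) {W W' : Fin c → ℕ} (h : toLex W ≤ toLex W') :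
    toLex (fun a : Fin r => W (Fin.castLE hr a)) ≤
      toLex (fun a : Fin r => W' (Fin.castLE hr a)) := by
  by_contra hcon
  rw [not_le] at hcon
  obtain ⟨a, ha, ha'⟩ := hcon
  refine absurd h (not_le.2 ⟨Fin.castLE hr a, fun b hb => ?_, ha'⟩)
  have hb' : (b : ℕ) < a := hb
  have h1 := ha ⟨b, by omega⟩ hb'
  exact h1

/-- Ramsey's theorem for colourings of the subsets of `Fin (m + 1)` with colours in a finite set -/
theorem ramF (hRAM : SpecRAM) {C : Type} (S : Set C) (hS : S.Finite) (R N : ℕ) :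
    ∃ m : ℕ, ∀ χ : Finset (Fin (m + 1)) → C, (∀ A, A.card ≤ R → χ A ∈ S) →
      ∃ H : Finset (Fin (m + 1)), N ≤ H.card ∧
        ∀ A ⊆ H, ∀ A' ⊆ H, A.card = A'.card → A.card ≤ R → χ A = χ A' := by
  classical
  obtain ⟨M, hM⟩ := hRAM R hS.toFinset.card N
  refine ⟨M, fun χ hχ => ?_⟩
  let ind : C → Fin (hS.toFinset.card + 1) := fun x =>
    if h : x ∈ hS.toFinset then (hS.toFinset.equivFin ⟨x, h⟩).castSucc else Fin.last _
  have hind : ∀ x ∈ S, ∀ y ∈ S, ind x = ind y → x = y := by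
    intro x hx y hy hxy
    have hx' : x ∈ hS.toFinset := hS.mem_toFinset.2 hx
    have hy' : y ∈ hS.toFinset := hS.mem_toFinset.2 hy
    simp only [ind, dif_pos hx', dif_pos hy'] at hxy
    have h1 := hS.toFinset.equivFin.injective (Fin.castSucc_injective _ hxy)
    exact congrArg Subtype.val h1
  let toF : Finset ℕ → Finset (Fin (M + 1)) := fun A => Finset.univ.filter fun i => (i : ℕ) ∈ A
  obtain ⟨H, hH, hHc, hHh⟩ := hM fun A => ind (χ (toF A))
  have hmem : ∀ (A : Finset ℕ) (i : Fin (M + 1)), i ∈ toF A ↔ (i : ℕ) ∈ A := by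
    intro A i
    simp [toF]
  have hback : ∀ A : Finset (Fin (M + 1)), toF (A.map Fin.valEmbedding) = A := by
    intro A
    ext i
    rw [hmem, Finset.mem_map]
    constructor
    · rintro ⟨j, hj, hji⟩
      have : j = i := Fin.ext hji
      exact this ▸ hj
    · intro hi
      exact ⟨i, hi, rfl⟩
  have hfwd : (toF H).map Fin.valEmbedding = H := by
    ext x
    rw [Finset.mem_map]
    constructor
    · rintro ⟨j, hj, rfl⟩
      exact (hmem H j).1 hj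
    · intro hx
      have h1 : x < M := Finset.mem_range.1 (hH hx)
      exact ⟨⟨x, by omega⟩, (hmem H _).2 hx, rfl⟩
  refine ⟨toF H, ?_, ?_⟩
  · rw [← Finset.card_map Fin.valEmbedding, hfwd]
    exact hHc
  · intro A hA A' hA' hcard hR
    have hsub : ∀ A ⊆ toF H, A.map Fin.valEmbedding ⊆ H := by
      intro A hA
      rw [← hfwd]
      exact Finset.map_subset_map.2 hA
    have h1 := hHh (A.map Fin.valEmbedding) (hsub A hA) (A'.map Fin.valEmbedding) (hsub A' hA')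
      (by rw [Finset.card_map, Finset.card_map, hcard]) (by rw [Finset.card_map]; exact hR)
    simp only [hback] at h1
    exact hind _ (hχ A hR) _ (hχ A' (hcard ▸ hR)) h1

/-! ### pigeonhole -/

/-- an increasing chain of subsets of a finite set stabilises -/
theorem exists_stable {β : Type} {F : Set β} (hF : F.Finite) (K : ℕ → Set β)
    (hK : ∀ t, t ≤ F.ncard + 1 → K t ⊆ F) (hmono : ∀ t, t < F.ncard + 1 → K t ⊆ K (t + 1)) :
    ∃ t, t < F.ncard + 1 ∧ K (t + 1) ⊆ K t := by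
  by_contra hcon
  push Not at hcon
  have h1 : ∀ t, t ≤ F.ncard + 1 → t ≤ (K t).ncard := by
    intro t
    induction t with
    | zero => exact fun _ => Nat.zero_le _
    | succ t ih =>
      intro ht
      have h2 := ih (by omega)
      have h3 : K t ⊂ K (t + 1) := ⟨hmono t (by omega), hcon t (by omega)⟩
      have h4 := Set.ncard_lt_ncard h3 (hF.subset (hK (t + 1) ht))
      omega
  have h2 := h1 _ le_rfl
  have h3 := Set.ncard_le_ncard (hK _ le_rfl) hF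
  omega

/-! ### leaves -/

/-- the hypotheses of FNS -/
structure Hyp {k : Type} [Field k] (c n δ : ℕ) (s : Fin n → ℕ) (J : ℕ → Finset ℕ) (e : ℕ → k)
    (𝓡 : Finset (Fin n) → Set (Fin n → ℕ)) : Prop where
  card : ∀ i, (J (s i)).card = δ
  self : ∀ I, s ∈ 𝓡 I
  off : ∀ I, ∀ ρ ∈ 𝓡 I, ∀ i ∉ I, ρ i = s i
  comb : ∀ I I', Disjoint I I' → ∀ ρ ∈ 𝓡 I, ∀ ρ' ∈ 𝓡 I',
      (fun i => if i ∈ I then ρ i else ρ' i) ∈ 𝓡 (I ∪ I')
  leaf : ∀ I, ∀ ρ ∈ 𝓡 I, (∀ i, (J (ρ i)).Nonempty ∧ (J (ρ i)).card ≤ c ∧ e (ρ i) ≠ 0) ∧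
      (∀ i j, i ≠ j → Disjoint (J (ρ i)) (J (ρ j))) ∧
      (Finset.univ.biUnion fun i => J (ρ i)) = Finset.univ.biUnion fun i => J (s i)
  uniq : ∀ I, ∀ ρ ∈ 𝓡 I, ∀ I', ∀ ρ' ∈ 𝓡 I', ∀ i j, J (ρ i) = J (ρ' j) → ρ i = ρ' j
  rel : ∀ I, ∀ ρ ∈ 𝓡 I, ∀ i ∈ I, ∀ j ∈ I, i ≠ j → ∃ R : Finset (ℕ × ℕ), (ρ i, ρ j) ∈ R ∧
      (∀ x ∈ R, Function.update (Function.update ρ i x.1) j x.2 ∈ 𝓡 I) ∧
      ∑ x ∈ R, e x.1 * e x.2 = 0

/-- `v` occurs in `I` -/
def Oc {n : ℕ} (𝓡 : Finset (Fin n) → Set (Fin n → ℕ)) (I : Finset (Fin n)) (v : ℕ) : Prop :=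
  ∃ ρ ∈ 𝓡 I, ∃ i ∈ I, ρ i = v

section Leaves

variable {k : Type} [Field k] {c n δ : ℕ} {s : Fin n → ℕ} {J : ℕ → Finset ℕ} {e : ℕ → k}
  {𝓡 : Finset (Fin n) → Set (Fin n → ℕ)}

theorem Hyp.mono (h : Hyp c n δ s J e 𝓡) {I I' : Finset (Fin n)} (hI : I ⊆ I') {v : ℕ}
    (hv : Oc 𝓡 I v) : Oc 𝓡 I' v := by
  obtain ⟨ρ, hρ, i, hi, rfl⟩ := hv
  have h1 := h.comb I (I' \ I) Finset.disjoint_sdiff ρ hρ s (h.self _)
  have h2 : (fun i => if i ∈ I then ρ i else s i) = ρ := by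
    funext j
    split_ifs with hj
    · rfl
    · exact (h.off I ρ hρ j hj).symm
  rw [h2, Finset.union_sdiff_of_subset hI] at h1
  exact ⟨ρ, h1, i, hI hi, rfl⟩

theorem Hyp.disj (h : Hyp c n δ s J e 𝓡) (i j : Fin n) (hij : i ≠ j) :
    Disjoint (J (s i)) (J (s j)) := (h.leaf ∅ s (h.self _)).2.1 i j hij

theorem Hyp.cardle (h : Hyp c n δ s J e 𝓡) (i : Fin n) : (J (s i)).card ≤ c :=
  ((h.leaf ∅ s (h.self _)).1 i).2.1

/-- the content of a leaf which occurs in `I` -/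
theorem Hyp.sub (h : Hyp c n δ s J e 𝓡) {I : Finset (Fin n)} {v : ℕ} (hv : Oc 𝓡 I v) :
    J v ⊆ I.biUnion fun i => J (s i) := by
  obtain ⟨ρ, hρ, i, hi, rfl⟩ := hv
  intro x hx
  have h1 := (h.leaf I ρ hρ).2.2
  have h2 : x ∈ Finset.univ.biUnion fun i => J (ρ i) :=
    Finset.mem_biUnion.2 ⟨i, Finset.mem_univ i, hx⟩
  rw [h1] at h2
  obtain ⟨j, _, hj⟩ := Finset.mem_biUnion.1 h2
  by_cases hjI : j ∈ I
  · exact Finset.mem_biUnion.2 ⟨j, hjI, hj⟩
  · exfalso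
    rw [← h.off I ρ hρ j hjI] at hj
    have hij : i ≠ j := fun hh => hjI (hh ▸ hi)
    exact Finset.disjoint_left.1 ((h.leaf I ρ hρ).2.1 i j hij) hx hj

theorem Hyp.sub' (h : Hyp c n δ s J e 𝓡) {I : Finset (Fin n)} {v : ℕ} (hv : Oc 𝓡 I v) :
    J v ⊆ Finset.univ.biUnion fun i => J (s i) :=
  (h.sub hv).trans (Finset.biUnion_subset_biUnion_of_subset_left _ (Finset.subset_univ I))

theorem Hyp.blk_sub (h : Hyp c n δ s J e 𝓡) {I : Finset (Fin n)} {v : ℕ} (hv : Oc 𝓡 I v) :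
    blk (fun i => J (s i)) (J v) ⊆ I := by
  intro i hi
  obtain ⟨x, hx⟩ := mem_blk.1 hi
  obtain ⟨hx1, hx2⟩ := Finset.mem_inter.1 hx
  obtain ⟨j, hj, hj'⟩ := Finset.mem_biUnion.1 (h.sub hv hx1)
  by_contra hiI
  have hij : i ≠ j := fun hh => hiI (hh ▸ hj)
  exact Finset.disjoint_left.1 (h.disj i j hij) hx2 hj'

theorem Hyp.blk_card (h : Hyp c n δ s J e 𝓡) {I : Finset (Fin n)} {v : ℕ} (hv : Oc 𝓡 I v) :
    (blk (fun i => J (s i)) (J v)).card ≤ c := by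
  refine (card_blk h.disj).trans ?_
  obtain ⟨ρ, hρ, i, hi, rfl⟩ := hv
  exact ((h.leaf I ρ hρ).1 i).2.1

theorem Hyp.ne (h : Hyp c n δ s J e 𝓡) {I : Finset (Fin n)} {v : ℕ} (hv : Oc 𝓡 I v) :
    e v ≠ 0 := by
  obtain ⟨ρ, hρ, i, hi, rfl⟩ := hv
  exact ((h.leaf I ρ hρ).1 i).2.2

/-- a leaf is determined by its blocks and its word -/
theorem Hyp.det (h : Hyp c n δ s J e 𝓡) {en : Finset ℕ → ℕ} (hen : Function.Injective en)
    {I I' : Finset (Fin n)} {v v' : ℕ} (hv : Oc 𝓡 I v) (hv' : Oc 𝓡 I' v')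
    (hb : blk (fun i => J (s i)) (J v) = blk (fun i => J (s i)) (J v'))
    (hw : wrd en c (fun i => J (s i)) (J v) = wrd en c (fun i => J (s i)) (J v')) : v = v' := by
  have h1 := det_set hen (h.sub' hv) (h.sub' hv') hb (h.blk_card hv) hw
  obtain ⟨ρ, hρ, i, hi, rfl⟩ := hv
  obtain ⟨ρ', hρ', i', hi', rfl⟩ := hv'
  exact h.uniq I ρ hρ I' ρ' hρ' i i' h1

/-- the relative positions of the blocks, with the word -/
def FF (en : Finset ℕ → ℕ) (c : ℕ) (s : Fin n → ℕ) (J : ℕ → Finset ℕ)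
    (𝓡 : Finset (Fin n) → Set (Fin n → ℕ)) (A : Finset (Fin n)) :
    Set (Finset ℕ × (Fin c → ℕ)) :=
  {y | ∃ v, Oc 𝓡 A v ∧ y = ((blk (fun i => J (s i)) (J v)).image (rk A),
    wrd en c (fun i => J (s i)) (J v))}

/-- the words and masses of the leaves with blocks `A` -/
def GG (en : Finset ℕ → ℕ) (c : ℕ) (s : Fin n → ℕ) (J : ℕ → Finset ℕ) (e : ℕ → k)
    (𝓡 : Finset (Fin n) → Set (Fin n → ℕ)) (A : Finset (Fin n)) :
    Set ((Fin c → ℕ) × k) :=
  {y | ∃ v, Oc 𝓡 Finset.univ v ∧ blk (fun i => J (s i)) (J v) = A ∧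
    y = (wrd en c (fun i => J (s i)) (J v), e v)}

/-- the keys of the leaves which occur in `A` -/
def KK (en : Finset ℕ → ℕ) (c : ℕ) (s : Fin n → ℕ) (J : ℕ → Finset ℕ)
    (𝓡 : Finset (Fin n) → Set (Fin n → ℕ)) (A : Finset (Fin n)) :
    Set (ℕ ×ₗ Lex (Fin c → ℕ)) :=
  {y | ∃ v, Oc 𝓡 A v ∧ y = toLex ((blk (fun i => J (s i)) (J v)).card,
    toLex (wrd en c (fun i => J (s i)) (J v)))}

theorem Hyp.KK_mono (h : Hyp c n δ s J e 𝓡) (en : Finset ℕ → ℕ) {A A' : Finset (Fin n)}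
    (hA : A ⊆ A') : KK en c s J 𝓡 A ⊆ KK en c s J 𝓡 A' := by
  rintro y ⟨v, hv, rfl⟩
  exact ⟨v, h.mono hA hv, rfl⟩

theorem card_image_rk {A B : Finset (Fin n)} (hB : B ⊆ A) : (B.image (rk A)).card = B.card :=
  Finset.card_image_of_injOn fun _ hx _ hy hxy => rk_inj (hB hx) (hB hy) hxy

theorem Hyp.KK_of_FF (h : Hyp c n δ s J e 𝓡) (en : Finset ℕ → ℕ) {A A' : Finset (Fin n)}
    (hF : FF en c s J 𝓡 A = FF en c s J 𝓡 A') : KK en c s J 𝓡 A ⊆ KK en c s J 𝓡 A' := by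
  rintro y ⟨v, hv, rfl⟩
  have h1 : ((blk (fun i => J (s i)) (J v)).image (rk A),
    wrd en c (fun i => J (s i)) (J v)) ∈ FF en c s J 𝓡 A := ⟨v, hv, rfl⟩
  rw [hF] at h1
  obtain ⟨v', hv', hvv⟩ := h1
  have h2 := congrArg Prod.fst hvv
  have h3 := congrArg Prod.snd hvv
  simp only at h2 h3
  refine ⟨v', hv', ?_⟩
  rw [← h3, ← card_image_rk (h.blk_sub hv), h2, card_image_rk (h.blk_sub hv')]

theorem Hyp.KK_sub (h : Hyp c n δ s J e 𝓡) (en : Finset ℕ → ℕ) (A : Finset (Fin n)) :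
    KK en c s J 𝓡 A ⊆ toLex '' (Set.Iic c ×ˢ (toLex '' Wd en c)) := by
  rintro y ⟨v, hv, rfl⟩
  exact ⟨((blk (fun i => J (s i)) (J v)).card, toLex (wrd en c (fun i => J (s i)) (J v))),
    ⟨Set.mem_Iic.2 (h.blk_card hv), ⟨_, wrd_mem h.cardle, rfl⟩⟩, rfl⟩

theorem Hyp.KK_finite (h : Hyp c n δ s J e 𝓡) (en : Finset ℕ → ℕ) (A : Finset (Fin n)) :
    (KK en c s J 𝓡 A).Finite :=
  Set.Finite.subset (((Set.finite_Iic c).prod (Wd_finite.image _)).image _) (h.KK_sub en A)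

theorem Hyp.union_sub (h : Hyp c n δ s J e 𝓡) {I : Finset (Fin n)} {ρ ρ' : Fin n → ℕ}
    (hρ : ρ ∈ 𝓡 I) (hρ' : ρ' ∈ 𝓡 I) {i j : Fin n} (hoff : ∀ l, l ≠ i → l ≠ j → ρ' l = ρ l) :
    J (ρ' i) ∪ J (ρ' j) ⊆ J (ρ i) ∪ J (ρ j) := by
  have h1 := (h.leaf I ρ hρ).2.2
  have h2 := h.leaf I ρ' hρ'
  have key : ∀ l, (l = i ∨ l = j) → J (ρ' l) ⊆ J (ρ i) ∪ J (ρ j) := by
    intro l hl y hy
    have h3 : y ∈ Finset.univ.biUnion fun i => J (ρ' i) :=
      Finset.mem_biUnion.2 ⟨l, Finset.mem_univ l, hy⟩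
    rw [h2.2.2, ← h1] at h3
    obtain ⟨t, _, ht⟩ := Finset.mem_biUnion.1 h3
    by_cases hti : t = i
    · exact Finset.mem_union_left _ (hti ▸ ht)
    · by_cases htj : t = j
      · exact Finset.mem_union_right _ (htj ▸ ht)
      · exfalso
        rw [← hoff t hti htj] at ht
        have hlt : l ≠ t := by
          rintro rfl
          rcases hl with hl | hl
          · exact hti hl
          · exact htj hl
        exact Finset.disjoint_left.1 (h2.2.1 l t hlt) hy ht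
  exact Finset.union_subset (key i (Or.inl rfl)) (key j (Or.inr rfl))

/-! ### interleaved positions -/

/-- the zone of `x` -/
def Zf {r : ℕ} (β : Fin r → ℕ) (z : Fin r → Fin (2 * r)) (x : ℕ) : ℕ :=
  (Finset.univ.filter fun a => β a ≤ x).sup fun a => (z a : ℕ) + 1

theorem Zf_mono {r : ℕ} (β : Fin r → ℕ) (z : Fin r → Fin (2 * r)) {x y : ℕ} (h : x ≤ y) :
    Zf β z x ≤ Zf β z y := by
  refine Finset.sup_mono fun a ha => ?_
  rw [Finset.mem_filter] at ha ⊢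
  exact ⟨ha.1, ha.2.trans h⟩

theorem Zf_le {r : ℕ} (β : Fin r → ℕ) (z : Fin r → Fin (2 * r)) (x : ℕ) :
    Zf β z x ≤ 2 * r := Finset.sup_le fun a _ => (z a).2

theorem Zf_mark {r : ℕ} {β : Fin r → ℕ} {z : Fin r → Fin (2 * r)} (hβ : StrictMono β)
    (hz : StrictMono z) (a : Fin r) : Zf β z (β a) = z a + 1 := by
  refine le_antisymm (Finset.sup_le fun a' ha' => ?_) ?_
  · rw [Finset.mem_filter] at ha'
    have h1 : a' ≤ a := hβ.le_iff_le.1 ha'.2
    have h2 : z a' ≤ z a := hz.monotone h1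
    have h3 : (z a' : ℕ) ≤ z a := h2
    omega
  · exact Finset.le_sup (f := fun a => (z a : ℕ) + 1)
      (Finset.mem_filter.2 ⟨Finset.mem_univ a, le_rfl⟩)

/-- the position of `x` -/
def pos (m' : ℕ) {r : ℕ} (β : Fin r → ℕ) (z : Fin r → Fin (2 * r)) (ε x : ℕ) : ℕ :=
  (2 * m' + 2) * Zf β z x + 2 * x + ε

theorem pos_strict (m' : ℕ) {r : ℕ} (β : Fin r → ℕ) (z : Fin r → Fin (2 * r)) (ε : ℕ) {x y : ℕ}
    (h : x < y) : pos m' β z ε x < pos m' β z ε y := by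
  have h1 : (2 * m' + 2) * Zf β z x ≤ (2 * m' + 2) * Zf β z y :=
    Nat.mul_le_mul_left _ (Zf_mono β z h.le)
  unfold pos
  omega

theorem pos_bound {m' c r : ℕ} (hr : r ≤ c) (β : Fin r → ℕ) (z : Fin r → Fin (2 * r)) {ε x : ℕ}
    (hε : ε ≤ 1) (hx : x < m') : pos m' β z ε x < (2 * m' + 2) * (2 * c + 2) := by
  have h1 : (2 * m' + 2) * Zf β z x ≤ (2 * m' + 2) * (2 * c) :=
    Nat.mul_le_mul_left _ ((Zf_le β z x).trans (by omega))
  have h2 : (2 * m' + 2) * (2 * c + 2) = (2 * m' + 2) * (2 * c) + (2 * m' + 2) * 2 := by ring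
  unfold pos
  rw [h2]
  omega

theorem pos_mod (m' : ℕ) {r : ℕ} (β : Fin r → ℕ) (z : Fin r → Fin (2 * r)) {ε : ℕ} (hε : ε ≤ 1)
    (x : ℕ) : pos m' β z ε x % 2 = ε := by
  have h1 : pos m' β z ε x = 2 * ((m' + 1) * Zf β z x + x) + ε := by
    unfold pos
    ring
  rw [h1]
  omega

/-- a leaf with given word and given relative positions of its blocks -/
theorem Hyp.place (h : Hyp c n δ s J e 𝓡) {en : Finset ℕ → ℕ}
    {H : Finset (Fin n)} {m' r : ℕ} (hr : r ≤ c)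
    (hH : (2 * m' + 2) * (2 * c + 2) ≤ H.card) {hh : Fin H.card → Fin n} (hhm : StrictMono hh)
    (hhr : ∀ x, x ∈ H ↔ ∃ a, hh a = x) {b : Finset ℕ} {β : Fin r → ℕ} (hβ : StrictMono β)
    (hβr : ∀ x, x ∈ b ↔ ∃ a, β a = x) (hb : ∀ x ∈ b, x < m') {W : Fin c → ℕ}
    (hF : ∀ A ⊆ H, A.card = m' → (b, W) ∈ FF en c s J 𝓡 A)
    {z : Fin r → Fin (2 * r)} (hz : StrictMono z) {ε : ℕ} (hε : ε ≤ 1) :
    ∃ (I : Finset (Fin n)) (v : ℕ) (g : Fin r → Fin n), I ⊆ H ∧ I.card = m' ∧ Oc 𝓡 I v ∧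
      StrictMono g ∧ (∀ i, i ∈ blk (fun i => J (s i)) (J v) ↔ ∃ a, g a = i) ∧
      wrd en c (fun i => J (s i)) (J v) = W ∧
      (∀ x ∈ I, ∃ p : Fin H.card, x = hh p ∧ (p : ℕ) % 2 = ε) ∧
      ∀ a, ∃ p : Fin H.card, g a = hh p ∧ (p : ℕ) = (2 * m' + 2) * (z a + 1) + 2 * β a + ε := by
  have hpos : ∀ x : Fin m', pos m' β z ε x < H.card := fun x =>
    (pos_bound hr β z hε x.2).trans_le hH
  set G : Fin m' → Fin n := fun x => hh ⟨pos m' β z ε x, hpos x⟩ with hG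
  have hGm : StrictMono G := fun x y hxy => hhm (pos_strict m' β z ε hxy)
  set I : Finset (Fin n) := Finset.univ.map ⟨G, hGm.injective⟩ with hI
  have hIr : ∀ x, x ∈ I ↔ ∃ a, G a = x := by
    intro x
    rw [hI, Finset.mem_map]
    constructor
    · rintro ⟨a, _, rfl⟩
      exact ⟨a, rfl⟩
    · rintro ⟨a, rfl⟩
      exact ⟨a, Finset.mem_univ a, rfl⟩
  have hIH : I ⊆ H := by
    intro x hx
    obtain ⟨a, rfl⟩ := (hIr x).1 hx
    exact (hhr _).2 ⟨_, rfl⟩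
  have hIc : I.card = m' := card_of_mono hGm hIr
  obtain ⟨v, hv, hvW⟩ := hF I hIH hIc
  have h1 : b = (blk (fun i => J (s i)) (J v)).image (rk I) := congrArg Prod.fst hvW
  have h2 : W = wrd en c (fun i => J (s i)) (J v) := congrArg Prod.snd hvW
  have hβm : ∀ a, β a < m' := fun a => hb _ ((hβr _).2 ⟨a, rfl⟩)
  refine ⟨I, v, fun a => G ⟨β a, hβm a⟩, hIH, hIc, hv, fun a a' haa => hGm (hβ haa), ?_, h2.symm,
    ?_, ?_⟩
  · intro i
    constructor
    · intro hi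
      have hiI := h.blk_sub hv hi
      obtain ⟨x, rfl⟩ := (hIr i).1 hiI
      have h3 : rk I (G x) ∈ b := by
        rw [h1]
        exact Finset.mem_image_of_mem _ hi
      rw [rk_of_mono hGm hIr x, hβr] at h3
      obtain ⟨a, ha⟩ := h3
      exact ⟨a, congrArg G (Fin.ext ha)⟩
    · rintro ⟨a, rfl⟩
      have h3 : β a ∈ b := (hβr _).2 ⟨a, rfl⟩
      rw [h1, Finset.mem_image] at h3
      obtain ⟨j, hj, hj'⟩ := h3
      have h4 : rk I (G ⟨β a, hβm a⟩) = β a := rk_of_mono hGm hIr _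
      have h5 : j = G ⟨β a, hβm a⟩ :=
        rk_inj (h.blk_sub hv hj) ((hIr _).2 ⟨_, rfl⟩) (hj'.trans h4.symm)
      rw [h5] at hj
      exact hj
  · intro x hx
    obtain ⟨y, rfl⟩ := (hIr x).1 hx
    exact ⟨⟨pos m' β z ε y, hpos y⟩, rfl, pos_mod m' β z hε y⟩
  · intro a
    refine ⟨⟨pos m' β z ε (β a), hpos ⟨β a, hβm a⟩⟩, rfl, ?_⟩
    change pos m' β z ε (β a) = _
    unfold pos
    rw [Zf_mark hβ hz]

theorem Hyp.core (h : Hyp c n δ s J e 𝓡) (hSHU : SpecSHU) {en : Finset ℕ → ℕ}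
    (hen : Function.Injective en)
    (hch : ∀ j : ℕ, 1 ≤ j → j ≤ (2 * c).choose c → (j : k) ≠ 0)
    {H : Finset (Fin n)} {R m' : ℕ} (hm' : 1 ≤ m') (hmR : m' ≤ R) (hcR : c ≤ R)
    (hH : (2 * m' + 2) * (2 * c + 2) ≤ H.card)
    (hF : ∀ A ⊆ H, ∀ A' ⊆ H, A.card = A'.card → A.card ≤ R →
      FF en c s J 𝓡 A = FF en c s J 𝓡 A')
    (hG : ∀ A ⊆ H, ∀ A' ⊆ H, A.card = A'.card → A.card ≤ R →
      GG en c s J e 𝓡 A = GG en c s J e 𝓡 A')
    (hK : ∀ A ⊆ H, ∀ A' ⊆ H, A.card = m' → A'.card = 2 * m' →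
      KK en c s J 𝓡 A' ⊆ KK en c s J 𝓡 A) : False := by
  classical
  set Q : Fin n → Finset ℕ := fun i => J (s i) with hQ
  have hmH : m' ≤ H.card := by nlinarith
  obtain ⟨A₀, hA₀, hA₀c⟩ := Finset.exists_subset_card_eq hmH
  have hne : (KK en c s J 𝓡 A₀).Nonempty := by
    obtain ⟨i, hi⟩ := Finset.card_pos.1 (by omega : 0 < A₀.card)
    exact ⟨_, s i, ⟨s, h.self A₀, i, hi, rfl⟩, rfl⟩
  obtain ⟨μ, ⟨v₀, hv₀, rfl⟩, hmax⟩ := Set.exists_max_image _ id (h.KK_finite en A₀) hne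
  set W : Fin c → ℕ := wrd en c Q (J v₀) with hW
  obtain ⟨r, hr⟩ : ∃ r, (blk Q (J v₀)).card = r := ⟨_, rfl⟩
  have hrc : r ≤ c := hr ▸ h.blk_card hv₀
  -- maximality
  have hmx : ∀ I ⊆ H, I.card = 2 * m' → ∀ x, Oc 𝓡 I x → (blk Q (J x)).card ≤ r ∧
      ((blk Q (J x)).card = r → toLex (wrd en c Q (J x)) ≤ toLex W) := by
    intro I hI hIc x hx
    have h1 : toLex ((blk Q (J x)).card, toLex (wrd en c Q (J x))) ∈ KK en c s J 𝓡 I :=
      ⟨x, hx, rfl⟩
    have h2 := hmax _ (hK A₀ hA₀ I hI hA₀c hIc h1)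
    simp only [id] at h2
    rw [Prod.Lex.toLex_le_toLex] at h2
    simp only at h2
    rw [← hQ, hr] at h2
    rcases h2 with h2 | ⟨h2, h3⟩
    · exact ⟨h2.le, fun h4 => absurd h4 h2.ne⟩
    · exact ⟨h2.le, fun _ => h3⟩
  -- relative positions
  set b : Finset ℕ := (blk Q (J v₀)).image (rk A₀) with hb
  have hbc : b.card = r := by rw [hb, card_image_rk (h.blk_sub hv₀), hr]
  have hbm : ∀ x ∈ b, x < m' := by
    intro x hx
    obtain ⟨y, hy, rfl⟩ := Finset.mem_image.1 hx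
    rw [← hA₀c]
    exact rk_lt (h.blk_sub hv₀ hy)
  obtain ⟨β, hβ, hβr⟩ := exists_enum b hbc
  have hβm : ∀ a, β a < m' := fun a => hbm _ ((hβr _).2 ⟨a, rfl⟩)
  have hFb : ∀ A ⊆ H, A.card = m' → (b, W) ∈ FF en c s J 𝓡 A := by
    intro A hA hAc
    rw [← hF A₀ hA₀ A hA (hA₀c.trans hAc.symm) (by omega)]
    exact ⟨v₀, hv₀, rfl⟩
  -- the shuffle
  obtain ⟨D, hD, hS⟩ := hSHU r fun a => W (Fin.castLE hrc a)
  have hDc : (Dᶜ).card = r := by
    rw [Finset.card_compl, Fintype.card_fin, hD]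
    omega
  obtain ⟨z₁, hz₁, hz₁r⟩ := exists_enum D hD
  obtain ⟨z₂, hz₂, hz₂r⟩ := exists_enum Dᶜ hDc
  obtain ⟨hh, hhm, hhr⟩ := exists_enum H rfl
  obtain ⟨I₁, v₁, g₁, hI₁, hI₁c, hv₁, hg₁, hg₁r, hW₁, hp₁, hq₁⟩ :=
    h.place hrc hH hhm hhr hβ hβr hbm hFb hz₁ (ε := 0) (by omega)
  obtain ⟨I₂, v₂, g₂, hI₂, hI₂c, hv₂, hg₂, hg₂r, hW₂, hp₂, hq₂⟩ :=
    h.place hrc hH hhm hhr hβ hβr hbm hFb hz₂ (ε := 1) (by omega)
  have hdisj : Disjoint I₁ I₂ := by
    rw [Finset.disjoint_left]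
    intro x hx1 hx2
    obtain ⟨p, hp, hp'⟩ := hp₁ x hx1
    obtain ⟨p', hpp, hpp'⟩ := hp₂ x hx2
    have h1 : p = p' := hhm.injective (hp.symm.trans hpp)
    rw [h1] at hp'
    omega
  -- the enumeration of the `2 r` blocks
  have hcase : ∀ d : Fin (2 * r), (∃ a, z₁ a = d) ∨ ∃ a, z₂ a = d := by
    intro d
    by_cases hd : d ∈ D
    · exact Or.inl ((hz₁r d).1 hd)
    · exact Or.inr ((hz₂r d).1 (Finset.mem_compl.2 hd))
  have hz₁D : ∀ a, z₁ a ∈ D := fun a => (hz₁r _).2 ⟨a, rfl⟩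
  have hz₂D : ∀ a, z₂ a ∉ D := fun a => Finset.mem_compl.1 ((hz₂r _).2 ⟨a, rfl⟩)
  have hex : ∀ d : Fin (2 * r), ∃ p : Fin H.card, (∀ a, z₁ a = d → g₁ a = hh p) ∧
      (∀ a, z₂ a = d → g₂ a = hh p) ∧ (2 * m' + 2) * (d + 1) ≤ p ∧
      (p : ℕ) < (2 * m' + 2) * (d + 2) := by
    intro d
    have e1 : (2 * m' + 2) * ((d : ℕ) + 2) = (2 * m' + 2) * (d + 1) + (2 * m' + 2) := by ring
    rcases hcase d with ⟨a, rfl⟩ | ⟨a, rfl⟩
    · obtain ⟨p, hp, hp'⟩ := hq₁ a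
      refine ⟨p, fun a' ha' => (congrArg g₁ (hz₁.injective ha')).trans hp,
        fun a' ha' => absurd (hz₁D a) (ha' ▸ hz₂D a'), ?_, ?_⟩
      · omega
      · have := hβm a
        omega
    · obtain ⟨p, hp, hp'⟩ := hq₂ a
      refine ⟨p, fun a' ha' => absurd (hz₁D a') (ha' ▸ hz₂D a),
        fun a' ha' => (congrArg g₂ (hz₂.injective ha')).trans hp, ?_, ?_⟩
      · omega
      · have := hβm a
        omega
  choose p hpa hpb hpc hpd using hex
  have hpm : StrictMono p := by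
    intro d d' hdd
    have h1 : (d : ℕ) + 2 ≤ d' + 1 := by
      have : (d : ℕ) < d' := hdd
      omega
    have h2 := hpd d
    have h3 := hpc d'
    have h4 : (2 * m' + 2) * ((d : ℕ) + 2) ≤ (2 * m' + 2) * (d' + 1) := Nat.mul_le_mul_left _ h1
    exact Fin.lt_def.2 (by omega)
  set q : Fin (2 * r) → Fin n := fun d => hh (p d) with hq
  have hqm : StrictMono q := fun d d' hdd => hhm (hpm hdd)
  have hqz₁ : ∀ a, q (z₁ a) = g₁ a := fun a => (hpa _ a rfl).symm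
  have hqz₂ : ∀ a, q (z₂ a) = g₂ a := fun a => (hpb _ a rfl).symm
  set U : Finset (Fin n) := blk Q (J v₁ ∪ J v₂) with hU
  have hUr : ∀ i, i ∈ U ↔ ∃ d, q d = i := by
    intro i
    rw [hU, blk_union, Finset.mem_union, hg₁r, hg₂r]
    constructor
    · rintro (⟨a, rfl⟩ | ⟨a, rfl⟩)
      · exact ⟨z₁ a, hqz₁ a⟩
      · exact ⟨z₂ a, hqz₂ a⟩
    · rintro ⟨d, rfl⟩
      rcases hcase d with ⟨a, rfl⟩ | ⟨a, rfl⟩
      · exact Or.inl ⟨a, (hqz₁ a).symm⟩
      · exact Or.inr ⟨a, (hqz₂ a).symm⟩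
  have hUc : U.card = 2 * r := card_of_mono hqm hUr
  have hUH : U ⊆ H := by
    intro i hi
    obtain ⟨d, rfl⟩ := (hUr i).1 hi
    exact (hhr _).2 ⟨_, rfl⟩
  have hb₁ : (blk Q (J v₁)).card = r := card_of_mono hg₁ hg₁r
  -- the letters
  set f : Fin (2 * r) → ℕ := fun d => lte en Q (J v₁ ∪ J v₂) (q d) with hf
  have hf₁ : ∀ a, f (z₁ a) = W (Fin.castLE hrc a) := by
    intro a
    have h1 : g₁ a ∉ blk Q (J v₂) := fun h2 =>
      Finset.disjoint_left.1 hdisj (h.blk_sub hv₁ ((hg₁r _).2 ⟨a, rfl⟩)) (h.blk_sub hv₂ h2)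
    change lte en Q (J v₁ ∪ J v₂) (q (z₁ a)) = _
    rw [hqz₁, lte_union_left h1, ← wrd_enum hrc hg₁ hg₁r a, hW₁]
  have hf₂ : ∀ a, f (z₂ a) = W (Fin.castLE hrc a) := by
    intro a
    have h1 : g₂ a ∉ blk Q (J v₁) := fun h2 =>
      Finset.disjoint_left.1 hdisj (h.blk_sub hv₁ h2) (h.blk_sub hv₂ ((hg₂r _).2 ⟨a, rfl⟩))
    change lte en Q (J v₁ ∪ J v₂) (q (z₂ a)) = _
    rw [hqz₂, lte_union_right h1, ← wrd_enum hrc hg₂ hg₂r a, hW₂]
  -- the combined tuple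
  obtain ⟨ρ₁, hρ₁, i₁, hi₁, hρi₁⟩ := id hv₁
  obtain ⟨ρ₂, hρ₂, i₂, hi₂, hρi₂⟩ := id hv₂
  have hρ := h.comb I₁ I₂ hdisj ρ₁ hρ₁ ρ₂ hρ₂
  set ρ : Fin n → ℕ := fun i => if i ∈ I₁ then ρ₁ i else ρ₂ i with hρdef
  have hi₂' : i₂ ∉ I₁ := fun h1 => Finset.disjoint_left.1 hdisj h1 hi₂
  have hρv₁ : ρ i₁ = v₁ := (if_pos hi₁).trans hρi₁
  have hρv₂ : ρ i₂ = v₂ := (if_neg hi₂').trans hρi₂
  have hii : i₁ ≠ i₂ := fun h1 => hi₂' (h1 ▸ hi₁)
  have hIIH : I₁ ∪ I₂ ⊆ H := Finset.union_subset hI₁ hI₂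
  have hIIc : (I₁ ∪ I₂).card = 2 * m' := by
    rw [Finset.card_union_of_disjoint hdisj, hI₁c, hI₂c]
    ring
  obtain ⟨RR, hmem, hup, hsum⟩ := h.rel (I₁ ∪ I₂) ρ hρ i₁ (Finset.mem_union_left _ hi₁) i₂
    (Finset.mem_union_right _ hi₂) hii
  -- the leaves in `RR`
  have key : ∀ x ∈ RR, (Oc 𝓡 Finset.univ x.1 ∧ Oc 𝓡 Finset.univ x.2) ∧
      (wrd en c Q (J x.1) = W ∧ wrd en c Q (J x.2) = W) ∧ (e x.1 = e v₁ ∧ e x.2 = e v₁) ∧
      (blk Q (J x.1) ⊆ U ∧ (blk Q (J x.1)).card = r ∧ blk Q (J x.2) = U \ blk Q (J x.1)) := by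
    intro x hx
    have hρ' := hup x hx
    set ρ' : Fin n → ℕ := Function.update (Function.update ρ i₁ x.1) i₂ x.2 with hρ'def
    have e1 : ρ' i₁ = x.1 := by
      rw [hρ'def, Function.update_of_ne hii, Function.update_self]
    have e2 : ρ' i₂ = x.2 := by rw [hρ'def, Function.update_self]
    have e3 : ∀ l, l ≠ i₁ → l ≠ i₂ → ρ' l = ρ l := by
      intro l h1 h2
      rw [hρ'def, Function.update_of_ne h2, Function.update_of_ne h1]
    have hJ : J x.1 ∪ J x.2 = J v₁ ∪ J v₂ := by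
      have h1 := h.union_sub hρ hρ' e3
      have h2 := h.union_sub hρ' hρ fun l h1 h2 => (e3 l h1 h2).symm
      rw [e1, e2, hρv₁, hρv₂] at h1 h2
      exact Finset.Subset.antisymm h1 h2
    have ho1 : Oc 𝓡 (I₁ ∪ I₂) x.1 := ⟨ρ', hρ', i₁, Finset.mem_union_left _ hi₁, e1⟩
    have ho2 : Oc 𝓡 (I₁ ∪ I₂) x.2 := ⟨ρ', hρ', i₂, Finset.mem_union_right _ hi₂, e2⟩
    have hu1 := h.mono (Finset.subset_univ _) ho1
    have hu2 := h.mono (Finset.subset_univ _) ho2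
    obtain ⟨c1, m1⟩ := hmx _ hIIH hIIc x.1 ho1
    obtain ⟨c2, m2⟩ := hmx _ hIIH hIIc x.2 ho2
    have hUU : blk Q (J x.1) ∪ blk Q (J x.2) = U := by rw [← blk_union, hJ]
    have hci := Finset.card_union_add_card_inter (blk Q (J x.1)) (blk Q (J x.2))
    rw [hUU, hUc] at hci
    have hc1 : (blk Q (J x.1)).card = r := by omega
    have hc2 : (blk Q (J x.2)).card = r := by omega
    have hint : blk Q (J x.1) ∩ blk Q (J x.2) = ∅ := Finset.card_eq_zero.1 (by omega)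
    have hdj : Disjoint (blk Q (J x.1)) (blk Q (J x.2)) := Finset.disjoint_iff_inter_eq_empty.2 hint
    have hs1 : blk Q (J x.1) ⊆ U := hUU ▸ Finset.subset_union_left
    have hs2 : blk Q (J x.2) ⊆ U := hUU ▸ Finset.subset_union_right
    have hb2 : blk Q (J x.2) = U \ blk Q (J x.1) := by
      rw [← hUU, Finset.union_sdiff_left]
      exact (Finset.sdiff_eq_self_of_disjoint hdj.symm).symm
    -- the places of the blocks of `x.1`
    set D' : Finset (Fin (2 * r)) := Finset.univ.filter fun d => q d ∈ blk Q (J x.1) with hD'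
    have hD'm : ∀ d, d ∈ D' ↔ q d ∈ blk Q (J x.1) := by
      intro d
      rw [hD', Finset.mem_filter]
      exact ⟨fun h1 => h1.2, fun h1 => ⟨Finset.mem_univ d, h1⟩⟩
    have hD'i : D'.image q = blk Q (J x.1) := by
      ext i
      rw [Finset.mem_image]
      constructor
      · rintro ⟨d, hd, rfl⟩
        exact (hD'm d).1 hd
      · intro hi
        obtain ⟨d, rfl⟩ := (hUr i).1 (hs1 hi)
        exact ⟨d, (hD'm d).2 hi, rfl⟩
    have hD'c : D'.card = r := by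
      have h1 : (D'.image q).card = D'.card := Finset.card_image_of_injective _ hqm.injective
      rw [← h1, hD'i, hc1]
    have hD''c : (D'ᶜ).card = r := by
      rw [Finset.card_compl, Fintype.card_fin, hD'c]
      omega
    obtain ⟨i', hi', hi'r⟩ := exists_enum D' hD'c
    obtain ⟨j', hj', hj'r⟩ := exists_enum D'ᶜ hD''c
    have hi'D : ∀ a, i' a ∈ D' := fun a => (hi'r _).2 ⟨a, rfl⟩
    have hj'D : ∀ a, j' a ∉ D' := fun a => Finset.mem_compl.1 ((hj'r _).2 ⟨a, rfl⟩)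
    have hx1 : ∀ y, y ∈ blk Q (J x.1) ↔ ∃ a, q (i' a) = y := by
      intro y
      constructor
      · intro hy
        obtain ⟨d, rfl⟩ := (hUr y).1 (hs1 hy)
        obtain ⟨a, rfl⟩ := (hi'r d).1 ((hD'm d).2 hy)
        exact ⟨a, rfl⟩
      · rintro ⟨a, rfl⟩
        exact (hD'm _).1 (hi'D a)
    have hx2 : ∀ y, y ∈ blk Q (J x.2) ↔ ∃ a, q (j' a) = y := by
      intro y
      rw [hb2, Finset.mem_sdiff]
      constructor
      · rintro ⟨hy, hy'⟩
        obtain ⟨d, rfl⟩ := (hUr y).1 hy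
        obtain ⟨a, rfl⟩ := (hj'r d).1 (Finset.mem_compl.2 fun h1 => hy' ((hD'm d).1 h1))
        exact ⟨a, rfl⟩
      · rintro ⟨a, rfl⟩
        exact ⟨(hUr _).2 ⟨_, rfl⟩, fun h1 => hj'D a ((hD'm _).2 h1)⟩
    have w1 : ∀ a : Fin r, f (i' a) = wrd en c Q (J x.1) (Fin.castLE hrc a) := by
      intro a
      have h1 : q (i' a) ∉ blk Q (J x.2) := fun h2 =>
        Finset.disjoint_left.1 hdj ((hx1 _).2 ⟨a, rfl⟩) h2
      rw [wrd_enum hrc (g := fun a => q (i' a)) (hqm.comp hi') hx1 a]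
      change lte en Q (J v₁ ∪ J v₂) (q (i' a)) = _
      rw [← hJ, lte_union_left h1]
    have w2 : ∀ a : Fin r, f (j' a) = wrd en c Q (J x.2) (Fin.castLE hrc a) := by
      intro a
      have h1 : q (j' a) ∉ blk Q (J x.1) := fun h2 =>
        Finset.disjoint_left.1 hdj h2 ((hx2 _).2 ⟨a, rfl⟩)
      rw [wrd_enum hrc (g := fun a => q (j' a)) (hqm.comp hj') hx2 a]
      change lte en Q (J v₁ ∪ J v₂) (q (j' a)) = _
      rw [← hJ, lte_union_right h1]
    have l1 : toLex (fun a => f (i' a)) ≤ toLex fun a => W (Fin.castLE hrc a) := by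
      have h1 := lex_restrict hrc (m1 hc1)
      rw [funext w1]
      exact h1
    have l2 : toLex (fun a => f (j' a)) ≤ toLex fun a => W (Fin.castLE hrc a) := by
      have h1 := lex_restrict hrc (m2 hc2)
      rw [funext w2]
      exact h1
    obtain ⟨s1, s2⟩ := hS f z₁ z₂ hz₁ hz₂ hz₁D hz₂D hf₁ hf₂ D' i' j' hi' hj' hi'D hj'D l1 l2
    have hW1 : wrd en c Q (J x.1) = W := by
      funext a
      by_cases ha : (a : ℕ) < r
      · have h1 := w1 ⟨a, ha⟩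
        rw [s1 ⟨a, ha⟩] at h1
        exact h1.symm
      · rw [wrd_zero (by omega), hW, wrd_zero (by omega)]
    have hW2 : wrd en c Q (J x.2) = W := by
      funext a
      by_cases ha : (a : ℕ) < r
      · have h1 := w2 ⟨a, ha⟩
        rw [s2 ⟨a, ha⟩] at h1
        exact h1.symm
      · rw [wrd_zero (by omega), hW, wrd_zero (by omega)]
    -- the masses
    have hmass : ∀ y, Oc 𝓡 Finset.univ y → wrd en c Q (J y) = W → blk Q (J y) ⊆ U →
        (blk Q (J y)).card = r → e y = e v₁ := by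
      intro y hy hyW hyU hyc
      have h1 : (W, e v₁) ∈ GG en c s J e 𝓡 (blk Q (J v₁)) :=
        ⟨v₁, h.mono (Finset.subset_univ _) hv₁, rfl, by rw [← hW₁]⟩
      have h2 : blk Q (J v₁) ⊆ H := (h.blk_sub hv₁).trans hI₁
      rw [hG _ h2 _ (hyU.trans hUH) (hb₁.trans hyc.symm) (by omega)] at h1
      obtain ⟨u, hu, hub, huw⟩ := h1
      have h3 : wrd en c Q (J u) = W := (congrArg Prod.fst huw).symm
      have h4 : e u = e v₁ := (congrArg Prod.snd huw).symm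
      have h5 : u = y := h.det hen hu hy hub (h3.trans hyW.symm)
      rw [← h5, h4]
    exact ⟨⟨hu1, hu2⟩, ⟨hW1, hW2⟩, ⟨hmass _ hu1 hW1 hs1 hc1, hmass _ hu2 hW2 hs2 hc2⟩,
      hs1, hc1, hb2⟩
  -- the number of pairs
  have hsum' : (RR.card : k) * (e v₁ * e v₁) = 0 := by
    rw [← hsum, Finset.sum_congr rfl fun x hx => by
      rw [(key x hx).2.2.1.1, (key x hx).2.2.1.2], Finset.sum_const, nsmul_eq_mul]
  have hRle : RR.card ≤ (2 * c).choose c := by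
    have h1 : RR.card ≤ (Finset.powersetCard r U).card := by
      refine Finset.card_le_card_of_injOn (fun x => blk Q (J x.1)) (fun x hx => ?_) ?_
      · exact Finset.mem_powersetCard.2 ⟨(key x hx).2.2.2.1, (key x hx).2.2.2.2.1⟩
      · intro x hx y hy hxy
        obtain ⟨⟨a1, a2⟩, ⟨a3, a4⟩, _, _, _, a5⟩ := key x hx
        obtain ⟨⟨b1, b2⟩, ⟨b3, b4⟩, _, _, _, b5⟩ := key y hy
        have hxy' : blk Q (J x.1) = blk Q (J y.1) := hxy
        refine Prod.ext (h.det hen a1 b1 hxy' (a3.trans b3.symm)) ?_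
        exact h.det hen a2 b2 (by rw [← hQ, a5, b5, hxy']) (a4.trans b4.symm)
    rw [Finset.card_powersetCard, hUc] at h1
    calc RR.card ≤ (2 * r).choose r := h1
      _ ≤ (2 * c).choose r := Nat.choose_le_choose r (by omega)
      _ ≤ (2 * c).choose c := Nat.choose_le_centralBinom r c
  have hRpos : 1 ≤ RR.card := Finset.card_pos.2 ⟨_, hmem⟩
  exact mul_ne_zero (hch _ hRpos hRle) (mul_ne_zero (h.ne hv₁) (h.ne hv₁)) hsum'

end Leaves

end FNSM

open FNSM in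
theorem specFNS (hRAM : SpecRAM) (hSHU : SpecSHU) : SpecFNS := by
  classical
  intro k _ _ c hch
  obtain ⟨en, hen⟩ := exists_injective_nat (Finset ℕ)
  set 𝓕 : Set (ℕ ×ₗ Lex (Fin c → ℕ)) := toLex '' (Set.Iic c ×ˢ (toLex '' Wd en c)) with h𝓕
  have h𝓕f : 𝓕.Finite := ((Set.finite_Iic c).prod (Wd_finite.image _)).image _
  set ℓ : ℕ := 𝓕.ncard + 1 with hℓ
  set R : ℕ := 2 ^ ℓ + c with hR
  set N : ℕ := (2 * 2 ^ ℓ + 2) * (2 * c + 2) with hN
  -- the colours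
  set S : Set (Set (Finset ℕ × (Fin c → ℕ)) × Set ((Fin c → ℕ) × k)) :=
    {t | t ⊆ {B : Finset ℕ | B ⊆ Finset.range R} ×ˢ Wd en c} ×ˢ
      {t | t ⊆ Wd en c ×ˢ (Set.univ : Set k)} with hS
  have hSf : S.Finite := by
    have h1 : {B : Finset ℕ | B ⊆ Finset.range R}.Finite := by
      have h : {S : Finset ℕ | S ⊆ Finset.range R} =
          ((Finset.range R).powerset : Set (Finset ℕ)) := by
        ext S
        rw [Finset.mem_coe, Finset.mem_powerset]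
        rfl
      rw [h]
      exact Finset.finite_toSet _
    exact ((h1.prod Wd_finite).finite_subsets).prod
      ((Wd_finite.prod Set.finite_univ).finite_subsets)
  obtain ⟨m, hm⟩ := ramF hRAM S hSf R N
  refine ⟨m, ?_⟩
  intro δ s J e 𝓡 h1 h2 h3 h4 h5 h6 h7
  have h : Hyp c (m + 1) δ s J e 𝓡 := ⟨h1, h2, h3, h4, h5, h6, h7⟩
  obtain ⟨H, hHN, hHh⟩ := hm (fun A => (FF en c s J 𝓡 A, GG en c s J e 𝓡 A)) (by
    intro A hA
    refine ⟨?_, ?_⟩
    · rintro _ ⟨v, hv, rfl⟩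
      refine ⟨?_, wrd_mem h.cardle⟩
      intro x hx
      obtain ⟨y, hy, rfl⟩ := Finset.mem_image.1 hx
      exact Finset.mem_range.2 ((rk_lt (h.blk_sub hv hy)).trans_le hA)
    · rintro _ ⟨v, _, _, rfl⟩
      exact ⟨wrd_mem h.cardle, Set.mem_univ _⟩)
  have hF : ∀ A ⊆ H, ∀ A' ⊆ H, A.card = A'.card → A.card ≤ R →
      FF en c s J 𝓡 A = FF en c s J 𝓡 A' := fun A hA A' hA' hc hR =>
    congrArg Prod.fst (hHh A hA A' hA' hc hR)
  have hG : ∀ A ⊆ H, ∀ A' ⊆ H, A.card = A'.card → A.card ≤ R →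
      GG en c s J e 𝓡 A = GG en c s J e 𝓡 A' := fun A hA A' hA' hc hR =>
    congrArg Prod.snd (hHh A hA A' hA' hc hR)
  have hNle : 2 ^ ℓ ≤ N := by
    rw [hN]
    nlinarith [Nat.zero_le (2 ^ ℓ)]
  have hexA : ∀ t : ℕ, ∃ A ⊆ H, t ≤ ℓ → A.card = 2 ^ t := by
    intro t
    by_cases ht : t ≤ ℓ
    · have h8 : 2 ^ t ≤ H.card :=
        (Nat.pow_le_pow_right (by norm_num) ht).trans (hNle.trans hHN)
      obtain ⟨A, hA, hAc⟩ := Finset.exists_subset_card_eq h8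
      exact ⟨A, hA, fun _ => hAc⟩
    · exact ⟨∅, Finset.empty_subset H, fun h9 => absurd h9 ht⟩
  choose A hAH hAc using hexA
  have hpow : ∀ t ≤ ℓ, 2 ^ t ≤ R := by
    intro t ht
    have := Nat.pow_le_pow_right (show 0 < 2 by norm_num) ht
    omega
  obtain ⟨t, ht, htK⟩ := exists_stable h𝓕f (fun t => KK en c s J 𝓡 (A t))
    (fun t _ => h.KK_sub en (A t)) (by
      intro t ht
      have h8 := hAc t (by omega)
      have h9 := hAc (t + 1) (by omega)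
      have h10 : 2 ^ t ≤ (A (t + 1)).card := by
        rw [h9]
        exact Nat.pow_le_pow_right (by norm_num) (Nat.le_succ t)
      obtain ⟨A', hA', hA'c⟩ := Finset.exists_subset_card_eq h10
      have h11 := h.KK_of_FF en (hF (A t) (hAH t) A' (hA'.trans (hAH (t + 1)))
        (h8.trans hA'c.symm) (by rw [h8]; exact hpow t (by omega)))
      exact h11.trans (h.KK_mono en hA'))
  refine h.core hSHU hen hch (H := H) (R := R) (m' := 2 ^ t) Nat.one_le_two_pow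
    (hpow t (by omega)) (hR ▸ Nat.le_add_left c (2 ^ ℓ)) ?_ hF hG ?_
  · refine le_trans ?_ hHN
    rw [hN]
    have h8 : 2 ^ t ≤ 2 ^ ℓ := Nat.pow_le_pow_right (by norm_num) (by omega)
    exact Nat.mul_le_mul_right _ (by omega)
  · intro B hB B' hB' hBc hB'c
    have h8 := hAc t (by omega)
    have h9 := hAc (t + 1) (by omega)
    have h10 : B'.card = (A (t + 1)).card := by
      rw [hB'c, h9, pow_succ]
      ring
    have h11 := h.KK_of_FF en (hF B' hB' (A (t + 1)) (hAH _) h10 (by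
      rw [hB'c]
      have := hpow (t + 1) (by omega)
      rw [pow_succ] at this
      omega))
    have h12 := h.KK_of_FF en (hF (A t) (hAH t) B hB (h8.trans hBc.symm) (by
      rw [h8]
      exact hpow t (by omega)))
    exact h11.trans (htK.trans h12)

end Pool.Agent.Lib.MP5b6025.EP
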