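import Pool.Agent.Lib.MP_5b6025_nt.EP.Spec

/-!
Module GOD (helper91): a good tuple with all contents of the same size.
-/

set_option autoImplicit false

namespace Pool.Agent.Lib.MP5b6025.EP

namespace GODM

open Finset

/-- Tuples with disjoint contents and a common union of contents, determined by their contents. -/
lemma card_class {m c : ℕ} (J : ℕ → Finset ℕ) (F : Finset (Fin (m + 1) → ℕ)) (U : Finset ℕ)
    (hU : ∀ ρ ∈ F, (Finset.univ.biUnion fun i => J (ρ i)) = U)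
    (hJ : ∀ ρ ∈ F, ∀ i, (J (ρ i)).card ≤ c)
    (hd : ∀ ρ ∈ F, ∀ i j, i ≠ j → Disjoint (J (ρ i)) (J (ρ j)))
    (hinj : ∀ ρ ∈ F, ∀ ρ' ∈ F, (∀ i, J (ρ i) = J (ρ' i)) → ρ = ρ') :
    F.card ≤ (m + 1) ^ (c * (m + 1)) := by
  classical
  rcases F.eq_empty_or_nonempty with rfl | ⟨ρ₀, hρ₀⟩
  · simp
  have hUc : U.card ≤ c * (m + 1) := by
    rw [← hU ρ₀ hρ₀]
    refine (Finset.card_biUnion_le_card_mul _ _ c (fun i _ => hJ ρ₀ hρ₀ i)).trans ?_
    simp [mul_comm]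
  let g : (Fin (m + 1) → ℕ) → (U → Fin (m + 1)) := fun ρ x =>
    if h : ∃ i, (x : ℕ) ∈ J (ρ i) then h.choose else 0
  have key : ∀ ρ ∈ F, ∀ ρ' ∈ F, g ρ = g ρ' → ∀ i, J (ρ i) ⊆ J (ρ' i) := by
    intro ρ hρ ρ' hρ' hg i v hv
    have hvU : v ∈ U := by
      rw [← hU ρ hρ]
      exact Finset.mem_biUnion.2 ⟨i, Finset.mem_univ _, hv⟩
    have h1 : ∃ i, v ∈ J (ρ i) := ⟨i, hv⟩
    have h2 : ∃ i, v ∈ J (ρ' i) := by
      rw [← hU ρ' hρ'] at hvU
      obtain ⟨j, _, hj⟩ := Finset.mem_biUnion.1 hvU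
      exact ⟨j, hj⟩
    have e1 : g ρ ⟨v, hvU⟩ = h1.choose := by
      simp only [g]
      rw [dif_pos h1]
    have e2 : g ρ' ⟨v, hvU⟩ = h2.choose := by
      simp only [g]
      rw [dif_pos h2]
    have e3 : h1.choose = i := by
      by_contra hne
      exact (Finset.disjoint_left.1 (hd ρ hρ _ _ hne) h1.choose_spec) hv
    have e4 : h2.choose = i := by
      rw [← e2, ← hg, e1, e3]
    have := h2.choose_spec
    rwa [e4] at this
  have h1 : F.card ≤ (Finset.univ : Finset (U → Fin (m + 1))).card := by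
    apply Finset.card_le_card_of_injOn g (fun _ _ => Finset.mem_coe.2 (Finset.mem_univ _))
    intro ρ hρ ρ' hρ' hg
    exact hinj ρ hρ ρ' hρ' fun i => (key ρ hρ ρ' hρ' hg i).antisymm (key ρ' hρ' ρ hρ hg.symm i)
  have h2 : (Finset.univ : Finset (U → Fin (m + 1))).card = (m + 1) ^ U.card := by
    rw [Finset.card_univ, Fintype.card_fun, Fintype.card_fin, Fintype.card_coe]
  rw [h2] at h1
  exact h1.trans (Nat.pow_le_pow_right (by omega) hUc)

/-- counting by fibres -/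
lemma card_fib {α β : Type} [DecidableEq β] (S : Finset α) (f : α → β) (W : Finset β) (n : ℕ)
    (hW : ∀ x ∈ S, f x ∈ W) (hn : ∀ b ∈ W, (S.filter fun x => f x = b).card ≤ n) :
    S.card ≤ n * W.card := by
  have h1 : S.card ≤ n * (S.image f).card := by
    apply Finset.card_le_mul_card_image
    intro b hb
    obtain ⟨x, hx, rfl⟩ := Finset.mem_image.1 hb
    exact hn _ (hW x hx)
  refine h1.trans (Nat.mul_le_mul_left _ (Finset.card_le_card ?_))
  intro b hb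
  obtain ⟨x, hx, rfl⟩ := Finset.mem_image.1 hb
  exact hW x hx

/-- Typical tuples with a pair in `Z`. -/
lemma card_pair {m : ℕ} (T Z : Finset ℕ) (F : Finset (Fin (m + 1) → ℕ)) (C₀ : ℕ)
    (z2 : ℕ → ℕ) (i j : Fin (m + 1)) (hij : i ≠ j) (hF : ∀ ρ ∈ F, ρ ∈ tup (m + 1) T)
    (hZ : ∀ ρ ∈ F, z2 (ρ i + ρ j) ∈ Z)
    (hC : ∀ ρ₀ ∈ F, (F.filter fun ρ => z2 (ρ i + ρ j) = z2 (ρ₀ i + ρ₀ j) ∧
      ∀ l, l ≠ i → l ≠ j → ρ l = ρ₀ l).card ≤ C₀) :
    F.card ≤ C₀ * (Z.card * T.card ^ (m - 1)) := by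
  classical
  rcases F.eq_empty_or_nonempty with rfl | ⟨ρ₁, hρ₁⟩
  · simp
  have ht : ∃ t, t ∈ T := ⟨ρ₁ 0, by
    have := hF ρ₁ hρ₁
    rw [tup, Fintype.mem_piFinset] at this
    exact this 0⟩
  obtain ⟨t, ht⟩ := ht
  let f : (Fin (m + 1) → ℕ) → ℕ × (Fin (m + 1) → ℕ) := fun ρ =>
    (z2 (ρ i + ρ j), fun l => if l = i ∨ l = j then t else ρ l)
  let W : Finset (ℕ × (Fin (m + 1) → ℕ)) :=
    Z ×ˢ Fintype.piFinset (fun l : Fin (m + 1) => if l = i ∨ l = j then {t} else T)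
  have hWc : W.card = Z.card * T.card ^ (m - 1) := by
    simp only [W]
    rw [Finset.card_product, Fintype.card_piFinset]
    congr 1
    have h1 : ∀ l : Fin (m + 1), (if l = i ∨ l = j then ({t} : Finset ℕ) else T).card =
        if l ∈ ({i, j} : Finset (Fin (m + 1))) then 1 else T.card := by
      intro l
      by_cases h : l = i ∨ l = j
      · simp [h]
      · simp [h]
    simp_rw [h1]
    rw [Finset.prod_ite]
    simp only [Finset.prod_const_one, one_mul, Finset.prod_const]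
    congr 1
    have h2 : (Finset.univ.filter fun l : Fin (m + 1) => l ∉ ({i, j} : Finset (Fin (m + 1)))) =
        ({i, j} : Finset (Fin (m + 1)))ᶜ := by
      ext l
      simp
    rw [h2, Finset.card_compl, Fintype.card_fin, Finset.card_pair hij]
    omega
  rw [← hWc]
  apply card_fib F f W C₀
  · intro ρ hρ
    simp only [W, f, Finset.mem_product, Fintype.mem_piFinset]
    refine ⟨hZ ρ hρ, fun l => ?_⟩
    have := hF ρ hρ
    rw [tup, Fintype.mem_piFinset] at this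
    by_cases h : l = i ∨ l = j
    · simp [h]
    · simp only [h, if_false]
      exact this l
  · intro b _
    rcases (F.filter fun x => f x = b).eq_empty_or_nonempty with h | ⟨ρ₀, hρ₀⟩
    · rw [h]; simp
    · rw [Finset.mem_filter] at hρ₀
      refine (Finset.card_le_card ?_).trans (hC ρ₀ hρ₀.1)
      intro ρ hρ
      rw [Finset.mem_filter] at hρ ⊢
      refine ⟨hρ.1, ?_⟩
      have h1 : f ρ = f ρ₀ := hρ.2.trans hρ₀.2.symm
      refine ⟨congrArg Prod.fst h1, fun l hi hj => ?_⟩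
      have h2 := congrFun (congrArg Prod.snd h1) l
      simpa [f, hi, hj] using h2

lemma nb_eq {α : Type} (S : Finset α) (p : α → Prop) [DecidablePred p] :
    nb S p = (S.filter p).card := by
  unfold nb
  congr 1
  ext x
  simp

lemma nb_mono {α : Type} (S : Finset α) (p q : α → Prop) (h : ∀ x ∈ S, p x → q x) :
    nb S p ≤ nb S q := by
  classical
  rw [nb_eq, nb_eq]
  apply Finset.card_le_card
  intro x hx
  rw [Finset.mem_filter] at hx ⊢
  exact ⟨hx.1, h x hx.1 hx.2⟩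

lemma nb_or {α : Type} (S : Finset α) (p q : α → Prop) :
    nb S (fun x => p x ∨ q x) ≤ nb S p + nb S q := by
  classical
  rw [nb_eq, nb_eq, nb_eq, Finset.filter_or]
  exact Finset.card_union_le _ _

/-- The abstract counting argument. -/
lemma main {m : ℕ} (T Z : Finset ℕ) (hT : T.Nonempty) (c C₀ : ℕ) (η₁ : ℝ) (J : ℕ → Finset ℕ)
    (Ty : (Fin (m + 1) → ℕ) → Prop) (z : (Fin (m + 1) → ℕ) → ℕ) (z2 : ℕ → ℕ)
    (hJ : ∀ s ∈ T, (J s).card ≤ c)
    (hη : 2 * η₁ * (1 + (C₀ : ℝ)) * ((c : ℝ) + 1) ^ (m + 1) < 1)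
    (hcl : ∀ ρ₀ ∈ tup (m + 1) T, Ty ρ₀ →
      nb (tup (m + 1) T) (fun ρ => Ty ρ ∧ z ρ = z ρ₀) ≤ C₀)
    (hz : ∀ ρ ∈ tup (m + 1) T, ∀ ρ' ∈ tup (m + 1) T, ∀ i j, i ≠ j →
      z2 (ρ i + ρ j) = z2 (ρ' i + ρ' j) → (∀ l, l ≠ i → l ≠ j → ρ l = ρ' l) → z ρ = z ρ')
    (hty : (nb (tup (m + 1) T) (fun ρ => ¬ Ty ρ) : ℝ) ≤ η₁ * (T.card : ℝ) ^ (m + 1))
    (hη0 : 0 ≤ η₁)
    (hZ : 1 ≤ m → ((m : ℝ) + 1) ^ 2 * (C₀ * (Z.card * (T.card : ℝ) ^ (m - 1))) ≤
      η₁ * (T.card : ℝ) ^ (m + 1)) :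
    ∃ (δ : ℕ) (s : Fin (m + 1) → ℕ), s ∈ tup (m + 1) T ∧ (∀ i, (J (s i)).card = δ) ∧
      ∀ ρ ∈ tup (m + 1) T, z s = z ρ → Ty ρ ∧ ∀ i j, i ≠ j → z2 (ρ i + ρ j) ∉ Z := by
  classical
  have hTc : 0 < (T.card : ℝ) := by exact_mod_cast hT.card_pos
  -- nice tuples
  set nice : (Fin (m + 1) → ℕ) → Prop := fun ρ => Ty ρ ∧ ∀ i j, i ≠ j → z2 (ρ i + ρ j) ∉ Z
    with hnice
  -- tuples with a pair in `Z`
  have hA : (nb (tup (m + 1) T) (fun ρ => Ty ρ ∧ ∃ i j, i ≠ j ∧ z2 (ρ i + ρ j) ∈ Z) : ℝ) ≤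
      η₁ * (T.card : ℝ) ^ (m + 1) := by
    rcases Nat.eq_zero_or_pos m with hm0 | hm1
    · have h0 : nb (tup (m + 1) T) (fun ρ => Ty ρ ∧ ∃ i j, i ≠ j ∧ z2 (ρ i + ρ j) ∈ Z) = 0 := by
        rw [nb_eq, Finset.card_eq_zero, Finset.filter_eq_empty_iff]
        rintro ρ _ ⟨_, i, j, hij, _⟩
        apply hij
        apply Fin.ext
        have := i.isLt
        have := j.isLt
        omega
      rw [h0]
      simp only [Nat.cast_zero]
      positivity
    refine le_trans ?_ (hZ hm1)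
    have h1 : nb (tup (m + 1) T) (fun ρ => Ty ρ ∧ ∃ i j, i ≠ j ∧ z2 (ρ i + ρ j) ∈ Z) ≤
        ∑ x : Fin (m + 1) × Fin (m + 1), C₀ * (Z.card * T.card ^ (m - 1)) := by
      rw [nb_eq]
      calc ((tup (m + 1) T).filter fun ρ => Ty ρ ∧ ∃ i j, i ≠ j ∧ z2 (ρ i + ρ j) ∈ Z).card
          ≤ ((Finset.univ : Finset (Fin (m + 1) × Fin (m + 1))).biUnion fun x =>
            (tup (m + 1) T).filter fun ρ => Ty ρ ∧ x.1 ≠ x.2 ∧ z2 (ρ x.1 + ρ x.2) ∈ Z).card := by
            apply Finset.card_le_card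
            intro ρ hρ
            rw [Finset.mem_filter] at hρ
            obtain ⟨hρ, hTy, i, j, hij, hz'⟩ := hρ
            rw [Finset.mem_biUnion]
            exact ⟨(i, j), Finset.mem_univ _, Finset.mem_filter.2 ⟨hρ, hTy, hij, hz'⟩⟩
        _ ≤ ∑ x : Fin (m + 1) × Fin (m + 1), ((tup (m + 1) T).filter fun ρ =>
            Ty ρ ∧ x.1 ≠ x.2 ∧ z2 (ρ x.1 + ρ x.2) ∈ Z).card := Finset.card_biUnion_le
        _ ≤ _ := by
            apply Finset.sum_le_sum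
            rintro ⟨i, j⟩ _
            by_cases hij : i = j
            · subst hij
              simp
            apply card_pair T Z _ C₀ z2 i j hij
            · intro ρ hρ
              exact (Finset.mem_filter.1 hρ).1
            · intro ρ hρ
              exact (Finset.mem_filter.1 hρ).2.2.2
            · intro ρ₀ hρ₀
              rw [Finset.mem_filter] at hρ₀
              refine le_trans (Finset.card_le_card ?_)
                (le_of_eq_of_le (nb_eq _ _).symm (hcl ρ₀ hρ₀.1 hρ₀.2.1))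
              intro ρ hρ
              rw [Finset.mem_filter, Finset.mem_filter] at hρ
              rw [Finset.mem_filter]
              exact ⟨hρ.1.1, hρ.1.2.1, hz ρ hρ.1.1 ρ₀ hρ₀.1 i j hij hρ.2.1 hρ.2.2⟩
    have h2 : (nb (tup (m + 1) T) (fun ρ => Ty ρ ∧ ∃ i j, i ≠ j ∧ z2 (ρ i + ρ j) ∈ Z) : ℝ) ≤
        ((∑ x : Fin (m + 1) × Fin (m + 1), C₀ * (Z.card * T.card ^ (m - 1)) : ℕ) : ℝ) := by
      exact_mod_cast h1
    refine h2.trans (le_of_eq ?_)
    rw [Finset.sum_const, Finset.card_univ, Fintype.card_prod, Fintype.card_fin, smul_eq_mul]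
    push_cast
    ring
  -- tuples which are not nice
  have hB : (nb (tup (m + 1) T) (fun ρ => ¬ nice ρ) : ℝ) ≤ 2 * η₁ * (T.card : ℝ) ^ (m + 1) := by
    have h1 : nb (tup (m + 1) T) (fun ρ => ¬ nice ρ) ≤ nb (tup (m + 1) T) (fun ρ => ¬ Ty ρ) +
        nb (tup (m + 1) T) (fun ρ => Ty ρ ∧ ∃ i j, i ≠ j ∧ z2 (ρ i + ρ j) ∈ Z) := by
      refine le_trans (nb_mono _ _ _ ?_) (nb_or _ _ _)
      intro ρ _ hρ
      by_cases hTy : Ty ρ
      · right
        refine ⟨hTy, ?_⟩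
        by_contra hcon
        push Not at hcon
        exact hρ ⟨hTy, fun i j hij => hcon i j hij⟩
      · exact Or.inl hTy
    have h2 : (nb (tup (m + 1) T) (fun ρ => ¬ nice ρ) : ℝ) ≤
        nb (tup (m + 1) T) (fun ρ => ¬ Ty ρ) +
        nb (tup (m + 1) T) (fun ρ => Ty ρ ∧ ∃ i j, i ≠ j ∧ z2 (ρ i + ρ j) ∈ Z) := by
      exact_mod_cast h1
    linarith
  -- tuples in a bad cluster
  set bad : (Fin (m + 1) → ℕ) → Prop := fun ρ => ∃ ρ' ∈ tup (m + 1) T, z ρ = z ρ' ∧ ¬ nice ρ'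
    with hbad
  have hD : nb (tup (m + 1) T) bad ≤ (1 + C₀) * nb (tup (m + 1) T) (fun ρ => ¬ nice ρ) := by
    have h1 : nb (tup (m + 1) T) bad ≤ nb (tup (m + 1) T) (fun ρ => ¬ nice ρ) +
        nb (tup (m + 1) T) (fun ρ => nice ρ ∧ bad ρ) := by
      refine le_trans (nb_mono _ _ _ ?_) (nb_or _ _ _)
      intro ρ _ hρ
      by_cases hn : nice ρ
      · exact Or.inr ⟨hn, hρ⟩
      · exact Or.inl hn
    have h2 : nb (tup (m + 1) T) (fun ρ => nice ρ ∧ bad ρ) ≤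
        C₀ * nb (tup (m + 1) T) (fun ρ => ¬ nice ρ) := by
      rw [nb_eq]
      have h3 : (((tup (m + 1) T).filter fun ρ => ¬ nice ρ).image z).card ≤
          nb (tup (m + 1) T) (fun ρ => ¬ nice ρ) := by
        rw [nb_eq]
        exact Finset.card_image_le
      refine le_trans (card_fib _ z (((tup (m + 1) T).filter fun ρ => ¬ nice ρ).image z) C₀ ?_ ?_)
        (Nat.mul_le_mul_left _ h3)
      · intro ρ hρ
        rw [Finset.mem_filter] at hρ
        obtain ⟨ρ', hρ', hz', hn'⟩ := hρ.2.2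
        rw [hz']
        exact Finset.mem_image_of_mem _ (Finset.mem_filter.2 ⟨hρ', hn'⟩)
      · intro w _
        rcases (((tup (m + 1) T).filter fun ρ => nice ρ ∧ bad ρ).filter
          fun x => z x = w).eq_empty_or_nonempty with h | ⟨ρ₀, hρ₀⟩
        · rw [h]; simp
        · rw [Finset.mem_filter, Finset.mem_filter] at hρ₀
          refine le_trans (Finset.card_le_card ?_)
            (le_of_eq_of_le (nb_eq _ _).symm (hcl ρ₀ hρ₀.1.1 hρ₀.1.2.1.1))
          intro ρ hρ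
          rw [Finset.mem_filter, Finset.mem_filter] at hρ
          rw [Finset.mem_filter]
          exact ⟨hρ.1.1, hρ.1.2.1.1, hρ.2.trans hρ₀.2.symm⟩
    calc nb (tup (m + 1) T) bad ≤ _ := h1
      _ ≤ nb (tup (m + 1) T) (fun ρ => ¬ nice ρ) +
          C₀ * nb (tup (m + 1) T) (fun ρ => ¬ nice ρ) := by omega
      _ = _ := by ring
  have hE : (nb (tup (m + 1) T) bad : ℝ) * ((c : ℝ) + 1) ^ (m + 1) < (T.card : ℝ) ^ (m + 1) := by
    have h1 : (nb (tup (m + 1) T) bad : ℝ) ≤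
        (1 + (C₀ : ℝ)) * nb (tup (m + 1) T) (fun ρ => ¬ nice ρ) := by
      exact_mod_cast hD
    have h2 : (nb (tup (m + 1) T) bad : ℝ) ≤
        (1 + (C₀ : ℝ)) * (2 * η₁ * (T.card : ℝ) ^ (m + 1)) :=
      h1.trans (mul_le_mul_of_nonneg_left hB (by positivity))
    calc (nb (tup (m + 1) T) bad : ℝ) * ((c : ℝ) + 1) ^ (m + 1)
        ≤ (1 + (C₀ : ℝ)) * (2 * η₁ * (T.card : ℝ) ^ (m + 1)) * ((c : ℝ) + 1) ^ (m + 1) :=
          mul_le_mul_of_nonneg_right h2 (by positivity)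
      _ = 2 * η₁ * (1 + (C₀ : ℝ)) * ((c : ℝ) + 1) ^ (m + 1) * (T.card : ℝ) ^ (m + 1) := by ring
      _ < 1 * (T.card : ℝ) ^ (m + 1) := mul_lt_mul_of_pos_right hη (by positivity)
      _ = _ := one_mul _
  -- a popular size
  obtain ⟨δ, hδ⟩ : ∃ δ : ℕ, T.card ≤ (T.filter fun s => (J s).card = δ).card * (c + 1) := by
    by_contra hcon
    push Not at hcon
    have h1 : T.card = ∑ δ ∈ Finset.range (c + 1), (T.filter fun s => (J s).card = δ).card := by
      apply Finset.card_eq_sum_card_fiberwise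
      intro s hs
      rw [Finset.coe_range, Set.mem_Iio]
      exact Nat.lt_succ_of_le (hJ s hs)
    have h2 : (∑ δ ∈ Finset.range (c + 1), (T.filter fun s => (J s).card = δ).card) * (c + 1) <
        ∑ δ ∈ Finset.range (c + 1), T.card := by
      rw [Finset.sum_mul]
      apply Finset.sum_lt_sum_of_nonempty
      · exact ⟨0, Finset.mem_range.2 (by omega)⟩
      · intro δ _
        exact hcon δ
    rw [← h1, Finset.sum_const, Finset.card_range, smul_eq_mul, mul_comm] at h2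
    exact lt_irrefl _ h2
  set Td := T.filter fun s => (J s).card = δ with hTd
  obtain ⟨s, hs, hsb⟩ : ∃ s ∈ tup (m + 1) Td, ¬ bad s := by
    by_contra hcon
    push Not at hcon
    have hsub : tup (m + 1) Td ⊆ tup (m + 1) T := by
      intro ρ hρ
      rw [tup, Fintype.mem_piFinset] at hρ ⊢
      exact fun i => (Finset.mem_filter.1 (hρ i)).1
    have h1 : (tup (m + 1) Td).card ≤ nb (tup (m + 1) T) bad := by
      rw [nb_eq]
      apply Finset.card_le_card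
      intro ρ hρ
      exact Finset.mem_filter.2 ⟨hsub hρ, hcon ρ hρ⟩
    have h2 : (tup (m + 1) Td).card = Td.card ^ (m + 1) := by
      rw [tup, Fintype.card_piFinset]
      simp
    have h3 : ((Td.card : ℝ)) ^ (m + 1) ≤ nb (tup (m + 1) T) bad := by
      rw [h2] at h1
      exact_mod_cast h1
    have h4 : (T.card : ℝ) ≤ Td.card * ((c : ℝ) + 1) := by exact_mod_cast hδ
    have h5 : (T.card : ℝ) ^ (m + 1) ≤ (Td.card : ℝ) ^ (m + 1) * ((c : ℝ) + 1) ^ (m + 1) := by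
      rw [← mul_pow]
      exact pow_le_pow_left₀ hTc.le h4 _
    have h6 := mul_le_mul_of_nonneg_right h3 (show (0 : ℝ) ≤ ((c : ℝ) + 1) ^ (m + 1) by positivity)
    linarith
  have hs' := hs
  rw [tup, Fintype.mem_piFinset] at hs'
  refine ⟨δ, s, ?_, fun i => (Finset.mem_filter.1 (hs' i)).2, ?_⟩
  · rw [tup, Fintype.mem_piFinset]
    exact fun i => (Finset.mem_filter.1 (hs' i)).1
  · intro ρ hρ hzρ
    by_contra hn
    exact hsb ⟨ρ, hρ, hzρ, hn⟩

end GODM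

open GODM in
/-- Module GOD. -/
theorem specGOD (hSUM : SpecSUM) : SpecGOD := by
  classical
  intro κ ε η₁ m hκ hε hε' hη hc
  set c := ⌊2 * κ⌋₊ with hcdef
  set C₀ : ℕ := (m + 1) ^ (c * (m + 1)) with hC₀
  have hC₀r : (C₀ : ℝ) = ((m : ℝ) + 1) ^ (c * (m + 1)) := by
    rw [hC₀]
    push_cast
    ring
  obtain ⟨L₀, hL₀, hL₀'⟩ : ∃ L₀ : ℕ, 1 ≤ L₀ ∧ ∀ L : ℕ, L₀ ≤ L →
      2 * ((m : ℝ) + 1) ^ 2 * C₀ * (L : ℝ) ^ (-(1 - ε)) ≤ η₁ := by
    have h1 : Filter.Tendsto (fun L : ℕ => 2 * ((m : ℝ) + 1) ^ 2 * C₀ * (L : ℝ) ^ (-(1 - ε)))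
        Filter.atTop (nhds (2 * ((m : ℝ) + 1) ^ 2 * C₀ * 0)) := by
      apply Filter.Tendsto.const_mul
      exact (tendsto_rpow_neg_atTop (by linarith)).comp tendsto_natCast_atTop_atTop
    rw [mul_zero] at h1
    obtain ⟨N, hN⟩ := Filter.eventually_atTop.1 (h1.eventually (ge_mem_nhds hη))
    exact ⟨max N 1, le_max_right _ _, fun L hL => hN L (le_trans (le_max_left _ _) hL)⟩
  refine ⟨L₀, ?_⟩
  intro P T Z B K k₀ L y₀ y₁ y b hL hPar hLT hZ hJ hdis hcns hty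
  have hB : 1 ≤ B := by
    have := hPar.hB
    have h2 : 0 < 4 * (m + 2) * (P.card + 1) ^ (m + 2) := by positivity
    omega
  have hB3 : 1 ≤ B ^ 3 := Nat.one_le_pow _ _ hB
  have hTP : ∀ s ∈ T, s ∈ P := fun s hs => (Finset.mem_filter.1 (hPar.sub s hs).1).1
  have hLr : (0 : ℝ) < L := by
    have : 1 ≤ L := hL₀.trans hL
    exact_mod_cast this
  have hTc : 0 < (T.card : ℝ) := by exact_mod_cast hPar.ne.card_pos
  have hJ' : ∀ s ∈ T, (Jc P T B K k₀ L y₁ s).card ≤ c := fun s hs => Nat.le_floor (hJ s hs)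
  obtain ⟨δ, s, hs, hs1, hs2⟩ := main T Z hPar.ne c C₀ η₁ (fun s => Jc P T B K k₀ L y₁ s)
    (fun ρ => Typ P T B K k₀ L y₀ y₁ y b ρ)
    (fun ρ => st (sm (m + 1) P) (B ^ 3) (∑ i, ρ i)) (fun x => st (sm 2 P) (B ^ 3) x) hJ'
    (by rw [hC₀r]; exact hc)
    (by
      intro ρ₀ _ hρ₀
      rw [nb_eq]
      apply card_class (fun s => Jc P T B K k₀ L y₁ s) _
        (Finset.univ.biUnion fun i => Jc P T B K k₀ L y₁ (ρ₀ i))
      · intro ρ hρ
        have hρ := (Finset.mem_filter.1 hρ).2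
        exact (hcns ρ ρ₀ hρ.1 hρ₀ hρ.2).1
      · intro ρ hρ i
        have hρ := (Finset.mem_filter.1 hρ).2
        exact hJ' _ (hρ.1.mem i)
      · intro ρ hρ
        have hρ := (Finset.mem_filter.1 hρ).2
        exact hdis ρ hρ.1
      · intro ρ hρ ρ' hρ'
        have hρ := (Finset.mem_filter.1 hρ).2
        have hρ' := (Finset.mem_filter.1 hρ').2
        exact (hcns ρ ρ' hρ.1 hρ'.1 (hρ.2.trans hρ'.2.symm)).2)
    (by
      intro ρ hρ ρ' hρ' i j hij h2 hl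
      rw [tup, Fintype.mem_piFinset] at hρ hρ'
      have h4 := ((hSUM P (B ^ 3) (m + 1) hB3).2.2.2) ρ ρ' (fun i => hTP _ (hρ i))
        (fun i => hTP _ (hρ' i)) {i, j} Finset.univ (Finset.subset_univ _)
        (fun l _ hl' => by
          have h5 : l ≠ i ∧ l ≠ j := by simpa using hl'
          exact hl l h5.1 h5.2)
      rw [Finset.card_pair hij, Finset.sum_pair hij, Finset.sum_pair hij, Finset.card_univ,
        Fintype.card_fin] at h4
      exact h4 h2)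
    hty hη.le
    (by
      intro hm
      have h3 : (L : ℝ) ^ ε = (L : ℝ) ^ (-(1 - ε)) * L := by
        rw [← Real.rpow_add_one hLr.ne']
        congr 1; ring
      have h4 : 0 ≤ (L : ℝ) ^ (-(1 - ε)) := by positivity
      have h5 : (Z.card : ℝ) ≤ 2 * (L : ℝ) ^ (-(1 - ε)) * (T.card : ℝ) ^ 2 := by
        calc (Z.card : ℝ) ≤ (L : ℝ) ^ ε * T.card := hZ
          _ = (L : ℝ) ^ (-(1 - ε)) * T.card * L := by rw [h3]; ring
          _ ≤ (L : ℝ) ^ (-(1 - ε)) * T.card * (2 * T.card) :=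
            mul_le_mul_of_nonneg_left hLT (mul_nonneg h4 hTc.le)
          _ = _ := by ring
      have h6 : ((T.card : ℝ)) ^ 2 * (T.card : ℝ) ^ (m - 1) = (T.card : ℝ) ^ (m + 1) := by
        rw [← pow_add]
        congr 1
        omega
      calc ((m : ℝ) + 1) ^ 2 * (C₀ * (Z.card * (T.card : ℝ) ^ (m - 1)))
          ≤ ((m : ℝ) + 1) ^ 2 * (C₀ * (2 * (L : ℝ) ^ (-(1 - ε)) * (T.card : ℝ) ^ 2 *
            (T.card : ℝ) ^ (m - 1))) := by gcongr
        _ = (2 * ((m : ℝ) + 1) ^ 2 * C₀ * (L : ℝ) ^ (-(1 - ε))) *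
            ((T.card : ℝ) ^ 2 * (T.card : ℝ) ^ (m - 1)) := by ring
        _ ≤ η₁ * (T.card : ℝ) ^ (m + 1) := by
            rw [h6]
            exact mul_le_mul_of_nonneg_right (hL₀' L hL) (by positivity))
  exact ⟨δ, s, hs, hs1, hs2⟩

end Pool.Agent.Lib.MP5b6025.EP
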