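import Pool.Agent.Lib.MP_5b6025_nt.EP.LF0

/-!
# Module GRO: growth of the number of leaves
-/

set_option autoImplicit false

namespace Pool.Agent.Lib.MP5b6025.EP

open LF0M in
theorem specGRO (hC : SpecCMP) : SpecGRO := by
  intro k _ P e B N c hB hSim hc hmass hc5 hc6 l hN
  by_cases hl : l ≤ 6
  · omega
  have hB1 : 1 ≤ B := by omega
  have hpow : ∀ i, 1 ≤ B ^ i := fun i => Nat.one_le_pow _ _ hB1
  have hcm := hC P (B ^ 3) (hpow 3)
  have hst : st P (B ^ 3) c = c := hcm.2.2.2.1 c hc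
  have hBl : B ^ l ≤ N := (Nat.pow_le_pow_right hB1 (by omega)).trans hN
  have ex : ∀ j ∈ Finset.Icc 1 (l - 6), ∃ c' u : ℕ, c' ∈ Sta P (B ^ 3) ∧
      mass P e (B ^ 3) c' ≠ 0 ∧ 3 * (B ^ j * c) ≤ 3 * c' + B ^ (3 + j) ∧ u ∈ P ∧
      st P (B ^ 3) u = c ∧ 3 * c' ≤ 3 * (B ^ j * u) + B ^ (3 + j) := by
    intro j hj
    rw [Finset.mem_Icc] at hj
    have hb : B ^ j * (c + B ^ (3 + 1)) ≤ N := by
      calc B ^ j * (c + B ^ (3 + 1)) ≤ B ^ j * B ^ 6 := Nat.mul_le_mul_left _ hc6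
        _ = B ^ (j + 6) := (pow_add _ _ _).symm
        _ ≤ B ^ l := Nat.pow_le_pow_right hB1 (by omega)
        _ ≤ N := hBl
    obtain ⟨c', h1, h2, h3, u, h4, h5, h6⟩ :=
      hSim 3 j 3 c (by omega) hj.1 (by omega) (by omega) hc hmass hb
    exact ⟨c', u, h1, h2, h3, h4, h5, h6⟩
  choose! Φ U h1 h2 h3 h4 h5 h6 using ex
  -- upper bound
  have up : ∀ j ∈ Finset.Icc 1 (l - 6), 8 * Φ j ≤ B ^ j * (8 * c + B ^ 4) := by
    intro j hj
    have hu : U j < c + P.card * B ^ 3 := hcm.2.2.1 (U j) (h4 j hj) c (sta_sub hc)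
      (by rw [h5 j hj, hst])
    have h7 : B ^ j * (U j) ≤ B ^ j * (c + P.card * B ^ 3) := Nat.mul_le_mul_left _ hu.le
    have h8 : B ^ j * (8 * (c + P.card * B ^ 3) + 8 * B ^ 3) ≤ B ^ j * (8 * c + B ^ 4) := by
      refine Nat.mul_le_mul_left _ ?_
      calc 8 * (c + P.card * B ^ 3) + 8 * B ^ 3 = 8 * c + B ^ 3 * (8 * (P.card + 1)) := by ring
        _ ≤ 8 * c + B ^ 3 * B := by
          have := Nat.mul_le_mul_left (B ^ 3) hB
          omega
        _ = 8 * c + B ^ 4 := by ring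
    have h9 : B ^ j * (8 * (c + P.card * B ^ 3) + 8 * B ^ 3) =
        8 * (B ^ j * (c + P.card * B ^ 3)) + 8 * (B ^ j * B ^ 3) := by ring
    have h10 : B ^ (3 + j) = B ^ j * B ^ 3 := by ring
    have h11 := h6 j hj
    rw [h10] at h11
    omega
  -- lower bound
  have low : ∀ j ∈ Finset.Icc 1 (l - 6), B ^ j * (3 * c - B ^ 3) ≤ 3 * Φ j := by
    intro j hj
    have h7 := h3 j hj
    have h10 : B ^ (3 + j) = B ^ j * B ^ 3 := by ring
    rw [h10] at h7
    rw [Nat.mul_sub]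
    have h8 : B ^ j * (3 * c) = 3 * (B ^ j * c) := by ring
    omega
  have e34 : B ^ 3 * B = B ^ 4 := by ring
  have e45 : B ^ 4 * B = B ^ 5 := by ring
  have hB8 : 8 ≤ B := by omega
  have e3 : 8 * B ^ 3 ≤ B ^ 4 := by
    rw [← e34]
    have := Nat.mul_le_mul_left (B ^ 3) hB8
    omega
  have e4 : 8 * B ^ 4 ≤ B ^ 5 := by
    rw [← e45]
    have := Nat.mul_le_mul_left (B ^ 4) hB8
    omega
  have mono : ∀ i ∈ Finset.Icc 1 (l - 6), ∀ j ∈ Finset.Icc 1 (l - 6), i < j → Φ i < Φ j := by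
    intro i hi j hj hij
    have h7 := up i hi
    have h8 := low j hj
    have h9 : B ^ i * B ≤ B ^ j := by
      rw [← pow_succ]
      exact Nat.pow_le_pow_right hB1 (by omega)
    have h10 : B ^ i * (8 * (3 * c - B ^ 3)) ≤ B ^ i * B * (3 * c - B ^ 3) := by
      rw [mul_assoc]
      exact Nat.mul_le_mul_left _ (Nat.mul_le_mul_right _ hB8)
    have h11 : B ^ i * B * (3 * c - B ^ 3) ≤ B ^ j * (3 * c - B ^ 3) := Nat.mul_le_mul_right _ h9
    have h12 : B ^ i * (3 * (8 * c + B ^ 4)) < B ^ i * (8 * (8 * (3 * c - B ^ 3))) := by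
      refine Nat.mul_lt_mul_of_pos_left ?_ (hpow i)
      have h13 := hpow 4
      omega
    have h14 : B ^ i * (3 * (8 * c + B ^ 4)) = 3 * (B ^ i * (8 * c + B ^ 4)) := by ring
    have h15 : B ^ i * (8 * (8 * (3 * c - B ^ 3))) = 8 * (B ^ i * (8 * (3 * c - B ^ 3))) := by ring
    omega
  have hinj : Set.InjOn Φ (Finset.Icc 1 (l - 6) : Finset ℕ) := by
    intro x hx y hy hxy
    rw [Finset.mem_coe] at hx hy
    rcases lt_trichotomy x y with h | h | h
    · have := mono x hx y hy h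
      omega
    · exact h
    · have := mono y hy x hx h
      omega
  have hmaps : Set.MapsTo Φ (Finset.Icc 1 (l - 6) : Finset ℕ) (Lf P e B 3 l : Finset ℕ) := by
    intro j hj
    rw [Finset.mem_coe] at hj ⊢
    refine lf_mem.2 ⟨h1 j hj, h2 j hj, ?_⟩
    have h7 := up j hj
    have hj' := Finset.mem_Icc.1 hj
    have h8 : B ^ j * (8 * c + B ^ 4) < B ^ j * (8 * B ^ 6) := by
      refine Nat.mul_lt_mul_of_pos_left ?_ (hpow j)
      have := hpow 4
      omega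
    have h9 : B ^ j * B ^ 6 ≤ B ^ l := by
      rw [← pow_add]
      exact Nat.pow_le_pow_right hB1 (by omega)
    have h10 : B ^ j * (8 * B ^ 6) = 8 * (B ^ j * B ^ 6) := by ring
    omega
  have := Finset.card_le_card_of_injOn Φ hmaps hinj
  rw [Nat.card_Icc] at this
  omega

end Pool.Agent.Lib.MP5b6025.EP
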