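import Pool.Agent.Lib.MP_5b6025_nt.EP.SpecI
import Pool.Agent.Lib.MP_5b6025_nt.DD.Basic

/-!
# Module IDE: the idempotents
-/

set_option autoImplicit false

open Polynomial

namespace Pool.Agent.Lib.MP5b6025.EP

namespace IDEM

open DD.Basic

variable {k : Type} [Field k]

/-- Coefficients of the `p`-th power in characteristic `p`. -/
theorem coeff_pow_char (p : ℕ) [Fact p.Prime] [CharP k p] (f : PowerSeries k) (v : ℕ) :
    PowerSeries.coeff v (f ^ p) = if p ∣ v then PowerSeries.coeff (v / p) f ^ p else 0 := by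
  have hl : 0 < p := (Fact.out : p.Prime).pos
  have h1 : PowerSeries.coeff v (f ^ p) =
      (PowerSeries.trunc (v + 1) (f ^ p)).coeff v := by
    rw [PowerSeries.coeff_trunc, if_pos (Nat.lt_succ_self v)]
  rw [h1, ← PowerSeries.trunc_trunc_pow, PowerSeries.coeff_trunc, if_pos (Nat.lt_succ_self v),
    ← Polynomial.coe_pow, ← Polynomial.map_frobenius_expand, Polynomial.coeff_coe,
    Polynomial.coeff_map, coeff_expand hl]
  by_cases h : p ∣ v
  · rw [if_pos h, if_pos h, PowerSeries.coeff_trunc, if_pos, frobenius_def]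
    exact Nat.lt_succ_of_le (Nat.div_le_self v p)
  · rw [if_neg h, if_neg h, map_zero]

theorem sum_mult {l : ℕ} (hl : 0 < l) (a : ℕ → k) (Y : ℕ) :
    ∑ v ∈ Finset.range (l * Y), (if l ∣ v then a (v / l) else 0) = ∑ u ∈ Finset.range Y, a u := by
  rw [← Finset.sum_filter]
  refine Finset.sum_bij' (fun v _ => v / l) (fun u _ => l * u) ?_ ?_ ?_ ?_ ?_
  · intro v hv
    rw [Finset.mem_filter, Finset.mem_range] at hv
    rw [Finset.mem_range]
    exact Nat.div_lt_of_lt_mul hv.1
  · intro u hu
    rw [Finset.mem_range] at hu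
    rw [Finset.mem_filter, Finset.mem_range]
    exact ⟨Nat.mul_lt_mul_of_pos_left hu hl, dvd_mul_right _ _⟩
  · intro v hv
    rw [Finset.mem_filter] at hv
    exact Nat.mul_div_cancel' hv.2
  · intro u _
    exact Nat.mul_div_cancel_left u hl
  · intro v _
    rfl

theorem sum_pow (p : ℕ) [Fact p.Prime] [CharP k p] (f : PowerSeries k) (Y : ℕ) :
    ∑ v ∈ Finset.range (p * Y), PowerSeries.coeff v (f ^ p) =
      (∑ v ∈ Finset.range Y, PowerSeries.coeff v f) ^ p := by
  have hl : 0 < p := (Fact.out : p.Prime).pos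
  rw [sum_pow_char p (Finset.range Y) (fun v => PowerSeries.coeff v f),
    ← sum_mult hl (fun v => PowerSeries.coeff v f ^ p) Y]
  exact Finset.sum_congr rfl fun v _ => coeff_pow_char p f v

/-- A polynomial that vanishes at all `α_i` is a multiple of `c ∏ (X - α_i)`. -/
theorem dvd_of_eval {d : ℕ} {P : k[X]} {c : k} {α : Fin d → k} (hc : c ≠ 0)
    (hP : P = C c * ∏ i, (Polynomial.X - C (α i))) (hα : Function.Injective α) {f : k[X]}
    (hf : ∀ i, f.eval (α i) = 0) : P ∣ f := by
  rw [hP]
  have h1 : (∏ i, (Polynomial.X - C (α i))) ∣ f := by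
    apply Finset.prod_dvd_of_coprime
    · intro i _ j _ hij
      exact pairwise_coprime_X_sub_C hα hij
    · intro i _
      rw [dvd_iff_isRoot, IsRoot.def]
      exact hf i
  exact (IsUnit.mul_left_dvd (isUnit_C.2 hc.isUnit)).2 h1

theorem natDegree_basis {d : ℕ} {α : Fin d → k} (hα : Function.Injective α) (i : Fin d) :
    (Lagrange.basis Finset.univ α i).natDegree = d - 1 := by
  have h := Lagrange.natDegree_basis (s := Finset.univ) (v := α) (hα.injOn) (Finset.mem_univ i)
  rw [h, Finset.card_univ, Fintype.card_fin]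

theorem eval_basis {d : ℕ} {α : Fin d → k} (hα : Function.Injective α) (i j : Fin d) :
    (Lagrange.basis Finset.univ α i).eval (α j) = if i = j then 1 else 0 := by
  by_cases h : i = j
  · subst h
    rw [if_pos rfl]
    exact Lagrange.eval_basis_self hα.injOn (Finset.mem_univ i)
  · rw [if_neg h]
    exact Lagrange.eval_basis_of_ne h (Finset.mem_univ j)

end IDEM

open IDEM DD.Basic in
theorem specIDE : SpecIDE := by
  intro k _ p d D N K _ _ t S P c α hd hc hP hα hS hpd h2d hex i
  have hp : p.Prime := Fact.out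
  have hp0 : 0 < p := hp.pos
  set E := Lagrange.basis Finset.univ α i with hE
  have hdeg : E.natDegree = d - 1 := natDegree_basis hα i
  refine ⟨?_, ?_, ?_⟩
  · intro v hv
    exact isSumS_set (isSumS_of_coeff t E hdeg.le hv) hS
  · intro X hX hg
    have hdvd : P ∣ E * E - E := by
      apply dvd_of_eval hc hP hα
      intro j
      rw [eval_sub, eval_mul, hE, eval_basis hα]
      split_ifs <;> simp
    obtain ⟨G, hG⟩ := hdvd
    have h1 : DD.TT t (P * G) X = 0 := by
      refine hex G ?_ X hX hg
      rw [← hG]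
      refine (natDegree_sub_le _ _).trans (max_le ?_ ?_)
      · refine natDegree_mul_le.trans ?_
        omega
      · omega
    rw [← hG, TT_sub, sub_eq_zero, TT_mul t E E X (N := X) le_rfl] at h1
    have h2 : DD.TT t E (X : ℤ) = ∑ v ∈ Finset.range X,
        PowerSeries.coeff v (aeval (PowerSeries.mk t) E) := by
      unfold DD.TT
      rw [Int.toNat_natCast]
    rw [h2] at h1
    rw [← h1]
    refine Finset.sum_congr rfl fun v hv => ?_
    rw [Finset.mem_range] at hv
    rw [← Finset.mul_sum]
    congr 1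
    unfold DD.TT
    congr 2
    omega
  · intro X hX hg
    have hdvd : P ∣ E ^ p - E := by
      apply dvd_of_eval hc hP hα
      intro j
      rw [eval_sub, eval_pow, hE, eval_basis hα]
      split_ifs
      · simp
      · simp [hp0.ne']
    obtain ⟨G, hG⟩ := hdvd
    have hle : p * (d - 1) ≤ p * d := Nat.mul_le_mul_left p (by omega)
    have h1 : DD.TT t (P * G) ((p * X : ℕ) : ℤ) = 0 := by
      refine hex G ?_ (p * X) hX hg
      rw [← hG]
      refine (natDegree_sub_le _ _).trans (max_le ?_ ?_)
      · refine natDegree_pow_le.trans ?_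
        rw [hdeg]
        omega
      · omega
    rw [← hG, TT_sub, sub_eq_zero] at h1
    have h2 : DD.TT t (E ^ p) ((p * X : ℕ) : ℤ) =
        (∑ v ∈ Finset.range X, PowerSeries.coeff v (aeval (PowerSeries.mk t) E)) ^ p := by
      unfold DD.TT
      rw [Int.toNat_natCast, map_pow, sum_pow]
    rw [h2] at h1
    rw [h1]
    unfold DD.TT
    rw [Int.toNat_natCast]

end Pool.Agent.Lib.MP5b6025.EP
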