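import Pool.Agent.Lib.MP_5b6025_nt.EP.SpecI

/-!
# Module LF0: comparison of the sets of leaves
-/

set_option autoImplicit false

namespace Pool.Agent.Lib.MP5b6025.EP

namespace LF0M

open Finset

theorem sta_sub {P : Finset ℕ} {τ x : ℕ} (h : x ∈ Sta P τ) : x ∈ P := (mem_filter.1 h).1

theorem sta_le {V : Finset ℕ} {τ x u : ℕ} (hx : x ∈ Sta V τ) (hu : u ∈ V) (h : u < x) :
    u + τ ≤ x := (Finset.mem_filter.1 hx).2 u hu h

theorem lf_mem {k : Type} [Field k] {P : Finset ℕ} {e : ℕ → k} {B i l c : ℕ} :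
    c ∈ Lf P e B i l ↔ c ∈ Sta P (B ^ i) ∧ mass P e (B ^ i) c ≠ 0 ∧ c < B ^ l := by
  classical
  unfold Lf
  rw [mem_filter]

end LF0M

open LF0M in
theorem specLF0 (hC : SpecCMP) : SpecLF0 := by
  intro k _ P e B N hB hSim l hl hN
  have hB1 : 1 ≤ B := by omega
  have hpow : ∀ i, 1 ≤ B ^ i := fun i => Nat.one_le_pow _ _ hB1
  have e5 : B ^ 5 ≤ B ^ (l + 4) := Nat.pow_le_pow_right hB1 (by omega)
  have e45 : B ^ 4 * B = B ^ 5 := by ring
  have e34 : B ^ 3 * B = B ^ 4 := by ring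
  have el : B ^ 3 * B ^ l * B = B ^ (l + 4) := by ring
  have h8 : 8 * (P.card * B ^ 4 + B ^ 4) ≤ B ^ (l + 4) := by
    calc 8 * (P.card * B ^ 4 + B ^ 4) = B ^ 4 * (8 * (P.card + 1)) := by ring
      _ ≤ B ^ 4 * B := Nat.mul_le_mul_left _ hB
      _ ≤ B ^ (l + 4) := by rw [e45]; exact e5
  have hl8 : 8 * (B ^ 3 * B ^ l) ≤ B ^ (l + 4) := by
    calc 8 * (B ^ 3 * B ^ l) = B ^ 3 * B ^ l * 8 := by ring
      _ ≤ B ^ 3 * B ^ l * B := Nat.mul_le_mul_left _ (by omega)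
      _ = B ^ (l + 4) := el
  have ex : ∀ c ∈ Lf P e B 1 l, ∃ c' u : ℕ, c' ∈ Sta P (B ^ 3) ∧ mass P e (B ^ 3) c' ≠ 0 ∧
      3 * (B ^ 3 * c) ≤ 3 * c' + B ^ 4 ∧ u ∈ P ∧ st P (B ^ 1) u = c ∧
      3 * c' ≤ 3 * (B ^ 3 * u) + B ^ 4 := by
    intro c hc
    obtain ⟨hc1, hc2, hc3⟩ := lf_mem.1 hc
    have hb : B ^ 3 * (c + B ^ (1 + 1)) ≤ N := by
      have h1 : B ^ 3 * (c + B ^ (1 + 1)) ≤ B ^ 3 * (B ^ l + B ^ 2) :=
        Nat.mul_le_mul_left _ (by have : B ^ (1 + 1) = B ^ 2 := rfl; omega)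
      have h2 : B ^ 3 * (B ^ l + B ^ 2) = B ^ 3 * B ^ l + B ^ 5 := by ring
      have h3 : B ^ (l + 4) * 2 ≤ B ^ (l + 4) * B ^ 2 := by
        refine Nat.mul_le_mul_left _ ?_
        have : B ≤ B ^ 2 := Nat.le_self_pow (by omega) B
        omega
      have h4 : B ^ (l + 4) * B ^ 2 = B ^ (l + 6) := by ring
      omega
    obtain ⟨c', h1, h2, h3, u, h4, h5, h6⟩ :=
      hSim 1 3 3 c (by omega) (by omega) (by omega) (by omega) hc1 hc2 hb
    exact ⟨c', u, h1, h2, h3, h4, h5, h6⟩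
  choose! Φ U h1 h2 h3 h4 h5 h6 using ex
  have hcm := hC P (B ^ 1) (hpow 1)
  have hst : ∀ c ∈ Lf P e B 1 l, st P (B ^ 1) c = c := fun c hc => hcm.2.2.2.1 c (lf_mem.1 hc).1
  refine Finset.card_le_card_of_injOn Φ ?_ ?_
  · intro c hc
    rw [Finset.mem_coe] at hc ⊢
    obtain ⟨hc1, hc2, hc3⟩ := lf_mem.1 hc
    refine lf_mem.2 ⟨h1 c hc, h2 c hc, ?_⟩
    have hu : U c < c + P.card * B ^ 1 := by
      refine hcm.2.2.1 (U c) (h4 c hc) c (sta_sub hc1) ?_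
      rw [h5 c hc, hst c hc]
    have h7 : B ^ 3 * U c ≤ B ^ 3 * (B ^ l + P.card * B) := by
      refine Nat.mul_le_mul_left _ ?_
      rw [pow_one] at hu
      omega
    have h8' : B ^ 3 * (B ^ l + P.card * B) = B ^ 3 * B ^ l + P.card * B ^ 4 := by ring
    have h9 := h6 c hc
    have h10 := hpow 4
    omega
  · have mono : ∀ x ∈ Lf P e B 1 l, ∀ y ∈ Lf P e B 1 l, x < y → Φ x < Φ y := by
      intro x hx y hy hxy
      have hy1 := (lf_mem.1 hy).1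
      have hUy : U x < y := by
        by_contra hn
        have h7 := hcm.2.2.2.2.2.2 y (U x) (by omega)
        rw [h5 x hx, hst y hy] at h7
        omega
      have h7 := sta_le hy1 (h4 x hx) hUy
      have h8' : B ^ 3 * (U x + B ^ 1) ≤ B ^ 3 * y := Nat.mul_le_mul_left _ h7
      have h9 : B ^ 3 * (U x + B ^ 1) = B ^ 3 * U x + B ^ 4 := by ring
      have h10 := h6 x hx
      have h11 := h3 y hy
      have h12 := hpow 4
      omega
    intro x hx y hy hxy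
    rw [Finset.mem_coe] at hx hy
    rcases lt_trichotomy x y with h | h | h
    · have := mono x hx y hy h
      omega
    · exact h
    · have := mono y hy x hx h
      omega

end Pool.Agent.Lib.MP5b6025.EP
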