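import Pool.Agent.Lib.MP_5b6025_nt.EP.Spec

/-!
Module LVL: choice of the coarse levels.
-/

set_option autoImplicit false

open Finset

namespace Pool.Agent.Lib.MP5b6025.EP

namespace LVLM

/-- asymptotics -/
theorem asym (ε : ℝ) (hε : 0 < ε) : ∃ L₀ : ℕ, ∀ L : ℕ, L₀ ≤ L →
    3 ≤ Real.log L ∧ 4 * Real.log L ^ 3 + 4 ≤ (L : ℝ) ^ ε := by
  have h1 : ∀ᶠ x : ℝ in Filter.atTop, 3 ≤ Real.log x :=
    Real.tendsto_log_atTop.eventually_ge_atTop 3
  have h2 : ∀ᶠ x : ℝ in Filter.atTop, ‖Real.log x ^ (3 : ℝ)‖ ≤ (1 / 5) * ‖x ^ ε‖ :=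
    (isLittleO_log_rpow_rpow_atTop 3 hε).bound (by norm_num)
  have h3 : ∀ᶠ x : ℝ in Filter.atTop, (0 : ℝ) < x := Filter.eventually_gt_atTop 0
  have h4 := (h1.and (h2.and h3))
  rw [Filter.eventually_atTop] at h4
  obtain ⟨a, ha⟩ := h4
  obtain ⟨L₀, hL₀⟩ := exists_nat_ge a
  refine ⟨L₀, fun L hL => ?_⟩
  obtain ⟨q1, q2, q3⟩ := ha L (hL₀.trans (by exact_mod_cast hL))
  refine ⟨q1, ?_⟩
  have q4 : Real.log (L : ℝ) ^ (3 : ℝ) = Real.log (L : ℝ) ^ 3 := by
    rw [← Real.rpow_natCast]; norm_num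
  rw [q4, Real.norm_of_nonneg (by positivity), Real.norm_of_nonneg (by positivity)] at q2
  have q5 : (27 : ℝ) ≤ Real.log (L : ℝ) ^ 3 := by
    have : (3 : ℝ) ^ 3 ≤ Real.log (L : ℝ) ^ 3 := by gcongr
    linarith
  linarith

theorem co_add (P T : Finset ℕ) (B g g' g'' s : ℕ) :
    co P T B g g'' s = co P T B g g' s + co P T B g' g'' s := by
  unfold co
  ring

theorem sum_mul (F : ℕ → ℝ) (K L : ℕ) :
    ∑ n ∈ range (L * K), F n = ∑ v ∈ range L, ∑ k ∈ range K, F (v * K + k) := by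
  induction L with
  | zero => simp
  | succ L ih =>
    rw [Nat.succ_mul, Finset.sum_range_add, ih, Finset.sum_range_succ]

section

variable {k : Type} [Field k] {L B : ℕ} {κ ε : ℝ} {P T Z : Finset ℕ} {e : ℕ → k}

theorem T_sub (hS : Sys L B κ ε P T Z e) : T ⊆ P := fun s hs =>
  Finset.filter_subset _ _ (hS.sub s hs).1

theorem log_T (hL : 1 ≤ L) (hS : Sys L B κ ε P T Z e) :
    Real.log T.card ≤ κ * Real.log L := by
  have h1 : T.card ≤ P.card := Finset.card_le_card (T_sub hS)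
  have h2 : (T.card : ℝ) ≤ (L : ℝ) ^ κ := by
    have h3 : (T.card : ℝ) ≤ P.card := by exact_mod_cast h1
    have h4 := hS.cardP
    linarith
  have hL' : (1 : ℝ) ≤ L := by exact_mod_cast hL
  have h5 : 1 ≤ 2 * T.card := by
    have : (1 : ℝ) ≤ 2 * T.card := hL'.trans hS.big
    exact_mod_cast this
  have h6 : (0 : ℝ) < T.card := by
    have : 0 < T.card := by omega
    exact_mod_cast this
  calc Real.log T.card ≤ Real.log ((L : ℝ) ^ κ) := Real.log_le_log h6 h2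
    _ = κ * Real.log L := Real.log_rpow (by linarith) _

theorem act_le (hWT : SpecWT) (hB : 2 ≤ B) (hS : Sys L B κ ε P T Z e) (g g' : ℕ) (hg : 3 ≤ g)
    (hgg : g ≤ g') : ((T.filter fun s => Act P T B g g' s).card : ℝ) ≤
      2 * ((g' - g : ℕ) : ℝ) * ((L : ℝ) ^ (-1 + ε) * T.card) := by
  obtain ⟨-, -, -, -, -, -, -, -, h9⟩ := hWT P T B (T_sub hS) hB
  have h1 : ((T.filter fun s => Act P T B g g' s).card : ℝ) ≤
      2 * ∑ i ∈ Finset.Ioc g g', ((T.filter fun s => Act P T B (i - 1) i s).card : ℝ) := by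
    exact_mod_cast h9 g g' hgg
  have h2 : ∑ i ∈ Finset.Ioc g g', ((T.filter fun s => Act P T B (i - 1) i s).card : ℝ) ≤
      ∑ i ∈ Finset.Ioc g g', ((L : ℝ) ^ (-1 + ε) * T.card) := by
    refine Finset.sum_le_sum fun i hi => ?_
    rw [Finset.mem_Ioc] at hi
    exact hS.spread i (by omega)
  rw [Finset.sum_const, Nat.card_Ioc, nsmul_eq_mul] at h2
  calc _ ≤ _ := h1
    _ ≤ 2 * (((g' - g : ℕ) : ℝ) * ((L : ℝ) ^ (-1 + ε) * T.card)) := by linarith
    _ = _ := by ring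

end

end LVLM

set_option maxHeartbeats 1000000 in
open LVLM in
theorem specLVL (hWT : SpecWT) : SpecLVL := by
  intro κ ε hκ hε hε'
  obtain ⟨L₀, hL₀⟩ := asym ε hε
  refine ⟨max L₀ 1, ?_⟩
  intro k _ L B P T Z e hL hB hS
  obtain ⟨hx3, hxe⟩ := hL₀ L (le_trans (le_max_left _ _) hL)
  have hL1 : 1 ≤ L := le_trans (le_max_right _ _) hL
  have hLr : (1 : ℝ) ≤ L := by exact_mod_cast hL1
  have hL0 : (0 : ℝ) < L := by linarith
  set x := Real.log (L : ℝ) with hx
  have hTP := T_sub hS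
  have hlogT := log_T hL1 hS
  rw [← hx] at hlogT
  obtain ⟨w1, w2, -, w4, -, -, -, w8, -⟩ := hWT P T B hTP hB
  set K := ⌈x ^ 3⌉₊ with hK
  have hKl : x ^ 3 ≤ K := Nat.le_ceil _
  have hKu : (K : ℝ) < x ^ 3 + 1 := Nat.ceil_lt_add_one (by positivity)
  have hx27 : (27 : ℝ) ≤ x ^ 3 := by
    have : (3 : ℝ) ^ 3 ≤ x ^ 3 := by gcongr
    linarith
  have hK10 : 10 ≤ K := by
    have : (10 : ℝ) ≤ K := by linarith
    exact_mod_cast this
  have hKpos : (0 : ℝ) < K := by linarith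
  have hT0 : (0 : ℝ) ≤ T.card := Nat.cast_nonneg _
  have h4K : 4 * (K : ℝ) ≤ (L : ℝ) ^ ε := by linarith
  -- averaging
  set F : ℕ → ℕ → ℝ := fun n s => co P T B (K + n) (K + n + 2) s with hF
  have hsum : ∑ k₀ ∈ range K, ∑ s ∈ T, ∑ v ∈ range L, F (v * K + k₀) s ≤
      2 * Real.log T.card * T.card := by
    have e1 : ∑ k₀ ∈ range K, ∑ s ∈ T, ∑ v ∈ range L, F (v * K + k₀) s =
        ∑ s ∈ T, ∑ n ∈ range (L * K), F n s := by
      rw [Finset.sum_comm]
      refine Finset.sum_congr rfl fun s _ => ?_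
      rw [Finset.sum_comm, sum_mul (fun n => F n s) K L]
    rw [e1]
    have e2 : ∀ s ∈ T, ∑ n ∈ range (L * K), F n s ≤ 2 * Real.log T.card := by
      intro s hs
      have m1 : Monotone (fun r : ℕ => K + r) := fun a b hab => by simpa using hab
      have m2 : Monotone (fun r : ℕ => K + 1 + r) := fun a b hab => by simpa using hab
      have a1 := w4 (L * K) _ m1 s hs
      have a2 := w4 (L * K) _ m2 s hs
      have e3 : ∑ n ∈ range (L * K), F n s =
          ∑ r ∈ range (L * K), co P T B (K + r) (K + (r + 1)) s +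
          ∑ r ∈ range (L * K), co P T B (K + 1 + r) (K + 1 + (r + 1)) s := by
        rw [← Finset.sum_add_distrib]
        refine Finset.sum_congr rfl fun n _ => ?_
        have i1 : K + (n + 1) = K + 1 + n := by omega
        have i2 : K + 1 + (n + 1) = K + n + 2 := by omega
        rw [i1, i2, ← co_add]
      rw [e3]
      linarith
    calc ∑ s ∈ T, ∑ n ∈ range (L * K), F n s ≤ ∑ s ∈ T, 2 * Real.log T.card :=
          Finset.sum_le_sum e2
      _ = 2 * Real.log T.card * T.card := by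
          rw [Finset.sum_const, nsmul_eq_mul]; ring
  obtain ⟨k₀, hk₀, hkk⟩ : ∃ k₀ ∈ range K, ∑ s ∈ T, ∑ v ∈ range L, F (v * K + k₀) s ≤
      2 * Real.log T.card * T.card / K := by
    apply Finset.exists_le_of_sum_le (by rw [Finset.nonempty_range_iff]; omega)
    refine hsum.trans (le_of_eq ?_)
    rw [Finset.sum_const, Finset.card_range, nsmul_eq_mul]
    field_simp
  rw [Finset.mem_range] at hk₀
  refine ⟨K, k₀, hK10, ?_, ?_⟩
  · intro v hv
    have hgl : 3 ≤ gl K k₀ v ∧ gl K k₀ v + 2 ≤ gl K k₀ (v + 1) ∧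
        gl K k₀ (v + 1) - (gl K k₀ v + 2) ≤ 2 * K := by
      unfold gl
      by_cases h0 : v = 0
      · subst h0
        simp only [if_true, zero_add, one_mul, one_ne_zero, if_false]
        omega
      · rw [if_neg h0, if_neg (by omega)]
        have : (v + 1) * K = v * K + K := by ring
        have h1 : K ≤ v * K := Nat.le_mul_of_pos_left _ (by omega)
        omega
    obtain ⟨g1, g2, g3⟩ := hgl
    have h1 := act_le hWT hB hS (gl K k₀ v + 2) (gl K k₀ (v + 1)) (by omega) g2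
    have h2 : (((gl K k₀ (v + 1) - (gl K k₀ v + 2) : ℕ)) : ℝ) ≤ 2 * K := by exact_mod_cast g3
    have h3 : (0 : ℝ) ≤ (L : ℝ) ^ (-1 + ε) * T.card := by positivity
    calc ((T.filter fun s => Ac P T B K k₀ v s).card : ℝ) ≤ _ := h1
      _ ≤ 2 * (2 * K) * ((L : ℝ) ^ (-1 + ε) * T.card) := by gcongr
      _ = (4 * K) * ((L : ℝ) ^ (-1 + ε) * T.card) := by ring
      _ ≤ (L : ℝ) ^ ε * ((L : ℝ) ^ (-1 + ε) * T.card) := by gcongr
      _ = (L : ℝ) ^ (-1 + 2 * ε) * T.card := by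
        rw [← mul_assoc, ← Real.rpow_add hL0]
        ring_nf
  · have e1 : ∀ s, ∑ v ∈ range (L + 1), co P T B (gl K k₀ v) (gl K k₀ v + 2) s =
        ∑ v ∈ range L, F (v * K + k₀) s + co P T B 3 5 s := by
      intro s
      rw [Finset.sum_range_succ']
      congr 1
      refine Finset.sum_congr rfl fun v _ => ?_
      have : gl K k₀ (v + 1) = K + (v * K + k₀) := by
        unfold gl
        rw [if_neg (by omega)]
        ring
      rw [this]
    simp only [e1, Finset.sum_add_distrib]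
    have a1 : ∑ s ∈ T, co P T B 3 5 s ≤ (1 + κ * x) * (4 * ((L : ℝ) ^ (-1 + ε) * T.card)) := by
      have b1 := w8 3 5 (by omega)
      have b2 := act_le hWT hB hS 3 5 (by omega) (by omega)
      norm_num at b2
      have b3 : (0 : ℝ) ≤ 1 + Real.log T.card := by
        have : (0 : ℝ) ≤ Real.log T.card := Real.log_natCast_nonneg _
        linarith
      calc ∑ s ∈ T, co P T B 3 5 s ≤ _ := b1
        _ ≤ (1 + Real.log T.card) * (4 * ((L : ℝ) ^ (-1 + ε) * T.card)) := by gcongr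
        _ ≤ (1 + κ * x) * (4 * ((L : ℝ) ^ (-1 + ε) * T.card)) := by gcongr
    have a2 : 2 * Real.log T.card * T.card / K ≤ 2 * κ / x ^ 2 * T.card := by
      have hx0 : 0 < x := by linarith
      calc 2 * Real.log T.card * T.card / K ≤ 2 * (κ * x) * T.card / x ^ 3 := by gcongr
        _ = 2 * κ / x ^ 2 * T.card := by field_simp
    have a3 : (1 + κ * x) * (4 * ((L : ℝ) ^ (-1 + ε) * T.card)) ≤ 2 * κ / x ^ 2 * T.card := by
      have hx0 : 0 < x := by linarith
      have c1 : 2 * (1 + x) * x ^ 2 ≤ (L : ℝ) ^ ε := by nlinarith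
      have c2 : (L : ℝ) ^ ε ≤ (L : ℝ) ^ (1 - ε) :=
        Real.rpow_le_rpow_of_exponent_le hLr (by linarith)
      have c3 : (1 + κ * x) * 4 * (L : ℝ) ^ (-1 + ε) ≤ 2 * κ / x ^ 2 := by
        rw [le_div_iff₀ (by positivity)]
        have c4 : (L : ℝ) ^ (-1 + ε) * (L : ℝ) ^ (1 - ε) = 1 := by
          rw [← Real.rpow_add hL0]
          ring_nf
          exact Real.rpow_zero _
        have c5 : (1 + κ * x) * 4 * x ^ 2 ≤ 2 * κ * (L : ℝ) ^ (1 - ε) := by
          have : (1 + κ * x) ≤ κ * (1 + x) := by nlinarith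
          calc (1 + κ * x) * 4 * x ^ 2 ≤ κ * (1 + x) * 4 * x ^ 2 := by gcongr
            _ = 2 * κ * (2 * (1 + x) * x ^ 2) := by ring
            _ ≤ 2 * κ * (L : ℝ) ^ (1 - ε) := by gcongr; linarith
        calc (1 + κ * x) * 4 * (L : ℝ) ^ (-1 + ε) * x ^ 2
            = ((1 + κ * x) * 4 * x ^ 2) * (L : ℝ) ^ (-1 + ε) := by ring
          _ ≤ (2 * κ * (L : ℝ) ^ (1 - ε)) * (L : ℝ) ^ (-1 + ε) := by gcongr
          _ = 2 * κ * ((L : ℝ) ^ (-1 + ε) * (L : ℝ) ^ (1 - ε)) := by ring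
          _ = 2 * κ := by rw [c4, mul_one]
      calc (1 + κ * x) * (4 * ((L : ℝ) ^ (-1 + ε) * T.card))
          = ((1 + κ * x) * 4 * (L : ℝ) ^ (-1 + ε)) * T.card := by ring
        _ ≤ 2 * κ / x ^ 2 * T.card := by gcongr
    calc ∑ s ∈ T, ∑ v ∈ range L, F (v * K + k₀) s + ∑ s ∈ T, co P T B 3 5 s
        ≤ 2 * κ / x ^ 2 * T.card + 2 * κ / x ^ 2 * T.card := by linarith
      _ = 4 * κ / x ^ 2 * T.card := by ring

end Pool.Agent.Lib.MP5b6025.EP
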