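import Pool.Agent.Lib.MP_5b6025_nt.EP.SpecI
import Pool.Agent.Lib.MP_5b6025_nt.EP.IDE
import Pool.Agent.Lib.MP_5b6025_nt.DD.Basic

/-!
# Module NNC: some idempotent jumps at every scale
-/

set_option autoImplicit false

open Polynomial

namespace Pool.Agent.Lib.MP5b6025.EP

namespace NNCM

open DD DD.Basic

theorem step {k : Type} [Field k] {t : ℕ → k} {S : Set ℕ} (hS : supp t ⊆ S)
    {κ m M Y X Z j : ℕ} {c1 cj : k}
    (hm : m + j ≤ M) (hM1 : m + 1 ≤ M) (hZY : Y ≤ Z) (hZX : Z + Y ≤ X) (hX : X ≤ 4 * Y)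
    (hZg : GapS S κ M Z) (hXg : GapS S κ M X)
    (h1 : ∀ X' : ℤ, GapS S κ m X' → (Y : ℤ) ≤ X' → X' ≤ 4 * Y →
      TT t (Polynomial.X : k[X]) X' = c1)
    (hj : ∀ X' : ℤ, GapS S κ m X' → (Y : ℤ) ≤ X' → X' ≤ 4 * Y →
      TT t ((Polynomial.X : k[X]) ^ j) X' = cj) :
    TT t ((Polynomial.X : k[X]) ^ (j + 1)) X = c1 * cj := by
  have hTT : ∀ (Q : k[X]) (u : ℕ), TT t Q ((X : ℤ) - u) = ∑ w ∈ Finset.range X,
      if (u : ℤ) + w < X then PowerSeries.coeff w (aeval (PowerSeries.mk t) Q) else 0 := by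
    intro Q u
    rw [TT_eq]
    exact tau_eq_sum _ _ _ (by omega)
  have hg : aeval (PowerSeries.mk t) ((Polynomial.X : k[X]) ^ j) = PowerSeries.mk t ^ j := by
    rw [map_pow, aeval_X]
  rw [TT_pow_succ' t j X (N := X) le_rfl, ← Finset.sum_range_add_sum_Ico _ (by omega : Z ≤ X)]
  have hpart1 : ∑ w ∈ Finset.range Z, PowerSeries.coeff w (PowerSeries.mk t ^ j) *
      TT t (Polynomial.X : k[X]) ((X : ℤ) - w) = c1 * cj := by
    have e1 : ∀ w ∈ Finset.range Z, PowerSeries.coeff w (PowerSeries.mk t ^ j) *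
        TT t (Polynomial.X : k[X]) ((X : ℤ) - w) = c1 * PowerSeries.coeff w (PowerSeries.mk t ^ j) := by
      intro w hw
      rw [Finset.mem_range] at hw
      by_cases h0 : PowerSeries.coeff w (PowerSeries.mk t ^ j) = 0
      · rw [h0, zero_mul, mul_zero]
      · have h2 : IsSumS S j w := by
          rw [← hg] at h0
          exact isSumS_set (isSumS_of_coeff t _ (natDegree_X_pow_le j) h0) hS
        have h3 : GapS S κ m ((X : ℤ) - w) := gapS_sub (gapS_mono hXg hm) h2
        rw [h1 _ h3 (by omega) (by omega), mul_comm]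
    rw [Finset.sum_congr rfl e1, ← Finset.mul_sum]
    congr 1
    have h4 := hj (Z : ℤ) (gapS_mono hZg (by omega)) (by omega) (by omega)
    rw [← h4, TT_eq, hg]
    unfold tau
    rw [Int.toNat_natCast]
  have hpart2 : ∑ w ∈ Finset.Ico Z X, PowerSeries.coeff w (PowerSeries.mk t ^ j) *
      TT t (Polynomial.X : k[X]) ((X : ℤ) - w) = 0 := by
    have e1 : ∀ w ∈ Finset.Ico Z X, PowerSeries.coeff w (PowerSeries.mk t ^ j) *
        TT t (Polynomial.X : k[X]) ((X : ℤ) - w) = ∑ u ∈ Finset.range X,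
          t u * (if (u : ℤ) + w < X then PowerSeries.coeff w (PowerSeries.mk t ^ j) else 0) := by
      intro w _
      rw [hTT, Finset.mul_sum]
      refine Finset.sum_congr rfl fun u _ => ?_
      rw [aeval_X, PowerSeries.coeff_mk, add_comm (w : ℤ) u]
      split_ifs
      · ring
      · rw [mul_zero, mul_zero]
    rw [Finset.sum_congr rfl e1, Finset.sum_comm]
    refine Finset.sum_eq_zero fun u _ => ?_
    rw [← Finset.mul_sum]
    by_cases h0 : t u = 0
    · rw [h0, zero_mul]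
    · have h2 : ∑ w ∈ Finset.Ico Z X, (if (u : ℤ) + w < X then
          PowerSeries.coeff w (PowerSeries.mk t ^ j) else 0) = 0 := by
        by_cases huZ : (u : ℤ) + Z < X
        · have h3 : GapS S κ m ((X : ℤ) - u) :=
            gapS_sub (gapS_mono hXg hM1) (isSumS_one (hS h0) le_rfl)
          have h4 := hj _ h3 (by omega) (by omega)
          have h5 := hj (Z : ℤ) (gapS_mono hZg (by omega)) (by omega) (by omega)
          rw [hTT, hg, ← Finset.sum_range_add_sum_Ico _ (by omega : Z ≤ X)] at h4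
          have h6 : ∑ w ∈ Finset.range Z, (if (u : ℤ) + w < X then
              PowerSeries.coeff w (PowerSeries.mk t ^ j) else 0) = cj := by
            rw [← h5, TT_eq, hg]
            unfold tau
            rw [Int.toNat_natCast]
            refine Finset.sum_congr rfl fun w hw => ?_
            rw [Finset.mem_range] at hw
            rw [if_pos (by omega)]
          rw [h6] at h4
          exact add_eq_left.1 h4
        · refine Finset.sum_eq_zero fun w hw => ?_
          rw [Finset.mem_Ico] at hw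
          rw [if_neg (by omega)]
      rw [h2, mul_zero]
  rw [hpart1, hpart2, add_zero]

/-- `DD.SpecNON` with a larger set `S` in the gaps. -/
theorem non {k : Type} [Field k] {P : k[X]} {t : ℕ → k} {S : Set ℕ} (hS : supp t ⊆ S)
    {d κ m M L Y W : ℕ} (hd : P.natDegree = d) (hd1 : 1 ≤ d) (hroot : ∀ x : k, ¬ P.IsRoot x)
    (hmM : m + d ≤ M) (hex : ∀ X : ℕ, X ≤ W → GapS S κ m X → TT t P X = 0)
    (hgap : ∀ Z : ℕ, Z + L ≤ W → ∃ X : ℕ, Z ≤ X ∧ X + κ ≤ Z + L ∧ GapS S κ M X)
    (hLY : L ≤ Y) (hY1 : 1 ≤ Y) (h4Y : 4 * Y ≤ W) :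
    ∃ (j X₁ X₂ : ℕ), j ≤ d ∧ Y ≤ X₁ ∧ X₁ ≤ X₂ ∧ X₂ ≤ 4 * Y ∧ GapS S κ m X₁ ∧
      GapS S κ m X₂ ∧ TT t ((Polynomial.X : k[X]) ^ j) X₁ ≠ TT t (Polynomial.X ^ j) X₂ := by
  by_contra hcon
  push Not at hcon
  obtain ⟨Z, hZ1, hZ2, hZg⟩ := hgap Y (by omega)
  obtain ⟨X, hX1, hX2, hXg⟩ := hgap (3 * Y) (by omega)
  have hcst : ∀ j ≤ d, ∀ X' : ℤ, GapS S κ m X' → (Y : ℤ) ≤ X' → X' ≤ 4 * Y →
      TT t ((Polynomial.X : k[X]) ^ j) X' = TT t ((Polynomial.X : k[X]) ^ j) X := by
    intro j hj X' hg' h1 h2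
    obtain ⟨n, rfl⟩ := Int.eq_ofNat_of_zero_le (by omega : 0 ≤ X')
    have hXg' : GapS S κ m X := gapS_mono hXg (by omega)
    rcases le_total n X with h | h
    · exact hcon j n X hj (by omega) h (by omega) hg' hXg'
    · exact (hcon j X n hj (by omega) h (by omega) hXg' hg').symm
  have hstep : ∀ j < d, TT t ((Polynomial.X : k[X]) ^ (j + 1)) X =
      TT t (Polynomial.X : k[X]) X * TT t ((Polynomial.X : k[X]) ^ j) X := by
    intro j hj
    refine step hS (κ := κ) (m := m) (M := M) (Y := Y) (Z := Z) (by omega) (by omega) hZ1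
      (by omega) (by omega) hZg hXg (fun X' h1 h2 h3 => ?_)
      fun X' h1 h2 h3 => hcst j hj.le X' h1 h2 h3
    have := hcst 1 hd1 X' h1 h2 h3
    rwa [pow_one] at this
  have hpow : ∀ j ≤ d, TT t ((Polynomial.X : k[X]) ^ j) X = TT t (Polynomial.X : k[X]) X ^ j := by
    intro j
    induction j with
    | zero =>
      intro _
      rw [pow_zero, pow_zero, TT_one t (by omega)]
    | succ j ih =>
      intro hj
      rw [hstep j (by omega), ih (by omega), pow_succ]
      ring
  refine hroot (TT t (Polynomial.X : k[X]) X) ?_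
  have h1 := hex X (by omega) (gapS_mono hXg (by omega))
  rw [TT_eq_sum t P X (N := d + 1) (by omega)] at h1
  rw [Polynomial.IsRoot.def, Polynomial.eval_eq_sum_range' (n := d + 1) (by omega), ← h1]
  refine Finset.sum_congr rfl fun j hj => ?_
  rw [Finset.mem_range] at hj
  rw [hpow j (by omega)]

theorem coeff_map_aeval {k₀ k : Type} [Field k₀] [Field k] [Algebra k₀ k] (t : ℕ → k₀)
    (j v : ℕ) : PowerSeries.coeff v (aeval (PowerSeries.mk fun n => algebraMap k₀ k (t n))
      ((Polynomial.X : k[X]) ^ j)) =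
    algebraMap k₀ k (PowerSeries.coeff v (aeval (PowerSeries.mk t) ((Polynomial.X : k₀[X]) ^ j))) := by
  rw [map_pow (aeval _), map_pow (aeval _), aeval_X, aeval_X]
  have h1 : (PowerSeries.mk fun n => algebraMap k₀ k (t n)) =
      PowerSeries.map (algebraMap k₀ k) (PowerSeries.mk t) := by
    ext n
    rw [PowerSeries.coeff_map, PowerSeries.coeff_mk, PowerSeries.coeff_mk]
  rw [h1, ← map_pow, PowerSeries.coeff_map]

theorem TT_map {k₀ k : Type} [Field k₀] [Field k] [Algebra k₀ k] (t : ℕ → k₀)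
    (j : ℕ) (X : ℤ) : TT (fun n => algebraMap k₀ k (t n)) ((Polynomial.X : k[X]) ^ j) X =
      algebraMap k₀ k (TT t ((Polynomial.X : k₀[X]) ^ j) X) := by
  unfold TT
  rw [map_sum]
  exact Finset.sum_congr rfl fun v _ => coeff_map_aeval t j v

end NNCM

open NNCM IDEM DD DD.Basic in
theorem specNNC : SpecNNC := by
  intro k₀ k _ _ _ t S P c d D N K Lg Y α hd hdD hPd hc hPk hα hroot hS hK hex₀ hex hgap hLY hY1 h4Y
  obtain ⟨j, X₁, X₂, hj, h1, h2, h3, hg1, hg2, hne⟩ := non hS hPd (by omega) hroot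
    (M := 2 * D) (m := D) (by omega) hex₀ hgap hLY hY1 h4Y
  by_contra hcon
  push Not at hcon
  apply hne
  apply (algebraMap k₀ k).injective
  rw [← TT_map, ← TT_map]
  set τ : ℕ → k := fun n => algebraMap k₀ k (t n) with hτ
  -- the decomposition of `x^j`
  have hdvd : P.map (algebraMap k₀ k) ∣
      (Polynomial.X : k[X]) ^ j - ∑ i, C (α i ^ j) * Lagrange.basis Finset.univ α i := by
    apply dvd_of_eval hc hPk hα
    intro l
    rw [eval_sub, eval_pow, eval_X, eval_finsetSum, Finset.sum_eq_single l]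
    · rw [eval_mul, eval_C, eval_basis hα, if_pos rfl, mul_one, sub_self]
    · intro i _ hi
      rw [eval_mul, eval_basis hα, if_neg hi, mul_zero]
    · intro h
      exact absurd (Finset.mem_univ l) h
  obtain ⟨G, hG⟩ := hdvd
  have hdegG : (P.map (algebraMap k₀ k) * G).natDegree ≤ D := by
    rw [← hG]
    refine (natDegree_sub_le _ _).trans (max_le ?_ ?_)
    · exact (natDegree_X_pow_le j).trans (hj.trans hdD)
    · refine natDegree_sum_le_of_forall_le _ _ fun i _ => ?_
      refine (natDegree_C_mul_le _ _).trans ?_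
      rw [natDegree_basis hα]
      omega
  have key : ∀ X : ℕ, X ≤ N → GapS S K D X → TT τ ((Polynomial.X : k[X]) ^ j) X =
      ∑ i, α i ^ j * ∑ v ∈ Finset.range X, PowerSeries.coeff v
        (aeval (PowerSeries.mk τ) (Lagrange.basis Finset.univ α i)) := by
    intro X hX hg
    have h4 := hex G hdegG X hX hg
    rw [← hG, TT_sub, sub_eq_zero, TT_sum] at h4
    rw [h4]
    refine Finset.sum_congr rfl fun i _ => ?_
    rw [TT_C_mul]
    unfold TT
    rw [Int.toNat_natCast]
  rw [key X₁ (by omega) hg1, key X₂ (by omega) hg2]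
  refine Finset.sum_congr rfl fun i _ => ?_
  rw [hcon i X₁ X₂ h1 h2 h3 hg1 hg2]

end Pool.Agent.Lib.MP5b6025.EP
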