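import Pool.Agent.Lib.MP_5b6025_nt.EP.SpecI

/-!
# Digit changes, every power of `log N`: module PGN (pigeonhole)
-/

set_option autoImplicit false

namespace Pool.Agent.Lib.MP5b6025.EP

namespace PGNM

/-- growth of `φ` -/
lemma stepA {κ ε : ℝ} (hκ : 0 < κ) (hε : 0 < ε) {s₀ s₁ Λ : ℕ} (hs : s₀ ≤ s₁)
    (hΛ1 : 4 * 16 ^ s₁ ≤ Λ) (hΛ2 : Λ ≤ 16 ^ (s₁ + 2))
    (hbig : κ * (s₁ + 2) < ((s₁ - s₀ : ℕ) : ℝ) * (s₀ * (ε / 2))) {φ : ℕ → ℕ} (hφ : Monotone φ)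
    (hφΛ : (φ Λ : ℝ) ≤ (Λ : ℝ) ^ κ) :
    ∃ s, s₀ ≤ s ∧ s ≤ s₁ ∧
      (φ (4 * 16 ^ s) : ℝ) ≤ ((16 : ℝ) ^ s) ^ (ε / 2) * φ (4 * 16 ^ (s - 1)) := by
  by_contra hcon
  push Not at hcon
  set q : ℝ := ((16 : ℝ) ^ s₀) ^ (ε / 2) with hq
  have hq1 : 0 < q := by positivity
  have hind : ∀ k, s₀ + k ≤ s₁ → q ^ k ≤ φ (4 * 16 ^ (s₀ + k)) := by
    intro k
    induction k with
    | zero =>
      intro _
      have h1 := hcon s₀ le_rfl hs
      have h2 : (0 : ℝ) ≤ ((16 : ℝ) ^ s₀) ^ (ε / 2) * φ (4 * 16 ^ (s₀ - 1)) := by positivity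
      have h3 : (0 : ℝ) < φ (4 * 16 ^ s₀) := h2.trans_lt h1
      have h4 : 0 < φ (4 * 16 ^ s₀) := by exact_mod_cast h3
      rw [pow_zero, Nat.add_zero]
      exact_mod_cast h4
    | succ k ih =>
      intro hk
      have h1 := hcon (s₀ + k + 1) (by omega) (by omega)
      rw [Nat.add_sub_cancel] at h1
      have h2 := ih (by omega)
      have h3 : q ≤ ((16 : ℝ) ^ (s₀ + k + 1)) ^ (ε / 2) := by
        apply Real.rpow_le_rpow (by positivity) _ (by positivity)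
        exact pow_le_pow_right₀ (by norm_num) (by omega)
      calc q ^ (k + 1) = q * q ^ k := by ring
        _ ≤ ((16 : ℝ) ^ (s₀ + k + 1)) ^ (ε / 2) * φ (4 * 16 ^ (s₀ + k)) :=
            mul_le_mul h3 h2 (by positivity) (by positivity)
        _ ≤ _ := h1.le
  have h1 := hind (s₁ - s₀) (by omega)
  rw [show s₀ + (s₁ - s₀) = s₁ by omega] at h1
  have h2 : (φ (4 * 16 ^ s₁) : ℝ) ≤ φ Λ := by exact_mod_cast hφ hΛ1
  have h3 : (Λ : ℝ) ^ κ ≤ ((16 : ℝ) ^ (s₁ + 2)) ^ κ := by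
    apply Real.rpow_le_rpow (by positivity) _ hκ.le
    exact_mod_cast hΛ2
  have h4 : q ^ (s₁ - s₀) ≤ ((16 : ℝ) ^ (s₁ + 2)) ^ κ := h1.trans (h2.trans (hφΛ.trans h3))
  have h5 := Real.log_le_log (by positivity) h4
  rw [Real.log_pow, hq, Real.log_rpow (by positivity), Real.log_pow, Real.log_rpow (by positivity),
    Real.log_pow] at h5
  have hlog : 0 < Real.log 16 := Real.log_pos (by norm_num)
  have h6 : ((s₁ - s₀ : ℕ) : ℝ) * (s₀ * (ε / 2)) * Real.log 16 ≤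
      κ * (s₁ + 2) * Real.log 16 := by
    have e1 : ((s₁ - s₀ : ℕ) : ℝ) * (ε / 2 * (s₀ * Real.log 16)) =
      ((s₁ - s₀ : ℕ) : ℝ) * (s₀ * (ε / 2)) * Real.log 16 := by ring
    have e2 : κ * (((s₁ + 2 : ℕ) : ℝ) * Real.log 16) = κ * (s₁ + 2) * Real.log 16 := by
      push_cast
      ring
    rw [e1, e2] at h5
    exact h5
  have h7 := le_of_mul_le_mul_right h6 hlog
  linarith

/-- growth of `ψ` -/
lemma stepB {κ ε : ℝ} (hκ : 0 < κ) (hε : 0 < ε) {l Λ : ℕ} (hl : 14 ≤ l)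
    (hl2 : (16 * κ / ε) ^ 2 < l) (hΛ1 : l ≤ Λ) (hΛ2 : Λ ≤ 16 * l ^ 2)
    {ψ : ℕ → ℕ} (hψ : Monotone ψ) (hψΛ : (ψ Λ : ℝ) ≤ (Λ : ℝ) ^ κ)
    (hψl : ∀ l ≤ Λ, l ≤ ψ l + 6) :
    ∃ L, l / 2 < L ∧ L ≤ l ∧ (1 - ε) * (ψ L : ℝ) ≤ ψ (L - 1) := by
  by_contra hcon
  push Not at hcon
  have hind : ∀ k, l / 2 + k ≤ l → Real.exp ε ^ k ≤ ψ (l / 2 + k) := by
    intro k
    induction k with
    | zero =>
      intro _
      have h1 := hψl (l / 2) (by omega)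
      have h2 : 1 ≤ ψ (l / 2) := by omega
      rw [pow_zero, Nat.add_zero]
      exact_mod_cast h2
    | succ k ih =>
      intro hk
      have h1 := hcon (l / 2 + k + 1) (by omega) (by omega)
      rw [Nat.add_sub_cancel] at h1
      have h2 := ih (by omega)
      have h3 : 1 - ε ≤ Real.exp (-ε) := by
        have := Real.add_one_le_exp (-ε)
        linarith
      have h4 : (0 : ℝ) ≤ ψ (l / 2 + k + 1) := Nat.cast_nonneg _
      have h5 : (ψ (l / 2 + k) : ℝ) ≤ Real.exp (-ε) * ψ (l / 2 + k + 1) :=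
        h1.le.trans (mul_le_mul_of_nonneg_right h3 h4)
      have h6 : Real.exp ε * Real.exp (-ε) = 1 := by rw [← Real.exp_add]; simp
      calc Real.exp ε ^ (k + 1) = Real.exp ε * Real.exp ε ^ k := by ring
        _ ≤ Real.exp ε * ψ (l / 2 + k) := mul_le_mul_of_nonneg_left h2 (Real.exp_pos _).le
        _ ≤ Real.exp ε * (Real.exp (-ε) * ψ (l / 2 + k + 1)) :=
            mul_le_mul_of_nonneg_left h5 (Real.exp_pos _).le
        _ = ψ (l / 2 + k + 1) := by rw [← mul_assoc, h6, one_mul]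
  have h1 := hind (l - l / 2) (by omega)
  rw [show l / 2 + (l - l / 2) = l by omega, ← Real.exp_nat_mul] at h1
  have hlpos : (0 : ℝ) < l := by
    have : 0 < l := by omega
    exact_mod_cast this
  have h2 : (ψ l : ℝ) ≤ ψ Λ := by exact_mod_cast hψ hΛ1
  have h3 : (Λ : ℝ) ^ κ ≤ ((4 * l : ℝ) ^ 2) ^ κ := by
    apply Real.rpow_le_rpow (by positivity) _ hκ.le
    have : (Λ : ℝ) ≤ 16 * (l : ℝ) ^ 2 := by exact_mod_cast hΛ2
    nlinarith
  have h4 : Real.exp (((l - l / 2 : ℕ) : ℝ) * ε) ≤ ((4 * l : ℝ) ^ 2) ^ κ :=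
    h1.trans (h2.trans (hψΛ.trans h3))
  have h5 := Real.log_le_log (Real.exp_pos _) h4
  rw [Real.log_exp, Real.log_rpow (by positivity), Real.log_pow] at h5
  have h6 : (l : ℝ) / 2 ≤ ((l - l / 2 : ℕ) : ℝ) := by
    have h7 : l ≤ 2 * (l - l / 2) := by omega
    have h8 : (l : ℝ) ≤ 2 * ((l - l / 2 : ℕ) : ℝ) := by exact_mod_cast h7
    linarith
  -- log (4 l) ≤ 4 √l
  have h9 : Real.log (4 * l) ≤ 4 * Real.sqrt l := by
    have e1 : (4 * l : ℝ) = (2 * Real.sqrt l) ^ 2 := by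
      rw [mul_pow, Real.sq_sqrt hlpos.le]
      norm_num
    have e2 : 0 < 2 * Real.sqrt l := by positivity
    rw [e1, Real.log_pow]
    have e3 := Real.log_le_sub_one_of_pos e2
    push_cast
    linarith
  have hs : 16 * κ / ε < Real.sqrt l := Real.lt_sqrt_of_sq_lt hl2
  have hsl : Real.sqrt l * Real.sqrt l = l := Real.mul_self_sqrt hlpos.le
  have hspos : 0 < Real.sqrt l := Real.sqrt_pos.2 hlpos
  have h10 : (l : ℝ) / 2 * ε ≤ κ * (2 * (4 * Real.sqrt l)) := by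
    have e1 : (l : ℝ) / 2 * ε ≤ ((l - l / 2 : ℕ) : ℝ) * ε := mul_le_mul_of_nonneg_right h6 hε.le
    have e2 : κ * (((2 : ℕ) : ℝ) * Real.log (4 * l)) ≤ κ * (2 * (4 * Real.sqrt l)) := by
      push_cast
      exact mul_le_mul_of_nonneg_left (by linarith) hκ.le
    exact e1.trans (h5.trans e2)
  have h11 : 16 * κ < Real.sqrt l * ε := by rwa [div_lt_iff₀ hε] at hs
  have h12 : Real.sqrt l * (16 * κ) < Real.sqrt l * (Real.sqrt l * ε) :=
    mul_lt_mul_of_pos_left h11 hspos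
  rw [← mul_assoc (Real.sqrt l) (Real.sqrt l) ε, hsl] at h12
  linarith

end PGNM

open PGNM in
theorem specPGN : SpecPGN := by
  intro κ ε L₀ hκ hε
  obtain ⟨A, hA⟩ := exists_nat_gt (14 * κ / ε)
  obtain ⟨A', hA'⟩ := exists_nat_gt ((16 * κ / ε) ^ 2)
  set T₀ : ℕ := A + A' + L₀ + 10 with hT₀
  refine ⟨8 * 16 ^ (2 * T₀), fun Λ hΛ φ ψ hφ hψ hφΛ hψΛ hφψ hψl => ?_⟩
  set s₁ : ℕ := Nat.log 16 (Λ / 8) with hs₁
  have hΛ8 : 16 ^ (2 * T₀) ≤ Λ / 8 := by omega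
  have hΛ80 : Λ / 8 ≠ 0 := by
    have : 0 < 16 ^ (2 * T₀) := by positivity
    omega
  have h16 : 16 ^ s₁ ≤ Λ / 8 := Nat.pow_log_le_self 16 hΛ80
  have hlt : Λ / 8 < 16 ^ (s₁ + 1) := Nat.lt_pow_succ_log_self (by norm_num) _
  have hs₁T : 2 * T₀ ≤ s₁ := by
    rw [hs₁]
    calc 2 * T₀ = Nat.log 16 (16 ^ (2 * T₀)) := (Nat.log_pow (by norm_num) _).symm
      _ ≤ _ := Nat.log_mono_right hΛ8
  set s₀ : ℕ := s₁ / 2 + 2 with hs₀
  have hs : s₀ ≤ s₁ := by omega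
  have hΛ16 : Λ ≤ 16 ^ (s₁ + 2) := by
    have : 16 ^ (s₁ + 2) = 16 * 16 ^ (s₁ + 1) := by ring
    omega
  -- the first condition
  have hbig : κ * (s₁ + 2) < ((s₁ - s₀ : ℕ) : ℝ) * (s₀ * (ε / 2)) := by
    set t : ℕ := s₁ / 2 with ht
    have ht1 : T₀ ≤ t := by omega
    have e1 : t - 2 ≤ s₁ - s₀ := by omega
    have e2 : s₁ ≤ 2 * t + 1 := by omega
    have ht2 : 14 * κ / ε < t := by
      have : (A : ℝ) ≤ t := by
        have : A ≤ t := by omega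
        exact_mod_cast this
      linarith
    have ht3 : 14 * κ < t * ε := by rwa [div_lt_iff₀ hε] at ht2
    have ht4 : (10 : ℝ) ≤ t := by
      have : 10 ≤ t := by omega
      exact_mod_cast this
    have e3 : (t : ℝ) - 2 ≤ ((s₁ - s₀ : ℕ) : ℝ) := by
      have h1 : ((t - 2 : ℕ) : ℝ) ≤ ((s₁ - s₀ : ℕ) : ℝ) := by exact_mod_cast e1
      rw [Nat.cast_sub (by omega)] at h1
      push_cast at h1
      exact h1
    have e4 : (s₁ : ℝ) ≤ 2 * t + 1 := by exact_mod_cast e2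
    have e5 : (s₀ : ℝ) = t + 2 := by
      rw [hs₀]
      push_cast
      ring
    rw [e5]
    have e6 : ((t : ℝ) - 2) * ((t + 2) * (ε / 2)) ≤
        ((s₁ - s₀ : ℕ) : ℝ) * ((t + 2) * (ε / 2)) :=
      mul_le_mul_of_nonneg_right e3 (by positivity)
    have e7 : κ * (s₁ + 2) ≤ κ * (2 * t + 3) := mul_le_mul_of_nonneg_left (by linarith) hκ.le
    have e8 : κ * (2 * t + 3) ≤ κ * (3 * t) := mul_le_mul_of_nonneg_left (by linarith) hκ.le
    have e9 : 14 * κ * t < t * ε * t := mul_lt_mul_of_pos_right ht3 (by linarith)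
    have e10 : ((t : ℝ) - 2) * ((t + 2) * (ε / 2)) = (t * ε * t - 4 * ε) / 2 := by ring
    have e11 : 0 < κ * t := by positivity
    have e12 : 4 * ε ≤ t * ε * t / 2 := by nlinarith [mul_pos hε hε, mul_self_nonneg ((t : ℝ) - 10)]
    rw [e10] at e6
    linarith
  obtain ⟨s, hs1, hs2, hsφ⟩ := stepA hκ hε hs (by omega) hΛ16 hbig hφ hφΛ
  set l : ℕ := 16 ^ s with hl
  have hspos : 1 ≤ s := by omega
  have hl16 : l = 16 * 16 ^ (s - 1) := by
    rw [hl, ← pow_succ']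
    congr 1
    omega
  have hls : s < l := Nat.lt_pow_self (by norm_num)
  have h2T : 2 * T₀ ≤ l := by
    have h1 : 16 ^ 1 ≤ 16 ^ (s - 1) * 16 ^ (0 : ℕ) * 16 := by
      have : 0 < 16 ^ (s - 1) := by positivity
      omega
    have h2 : s - 1 < 16 ^ (s - 1) := Nat.lt_pow_self (by norm_num)
    omega
  have hl8 : 8 * l ≤ Λ := by
    have : l ≤ 16 ^ s₁ := Nat.pow_le_pow_right (by norm_num) hs2
    omega
  have hΛl : Λ ≤ 4 * l ^ 2 := by
    have h1 : 16 ^ (s₁ + 2) ≤ l ^ 2 := by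
      rw [hl, ← pow_mul]
      exact Nat.pow_le_pow_right (by norm_num) (by omega)
    omega
  have hll : (16 * κ / ε) ^ 2 < l := by
    have : (A' : ℝ) ≤ l := by
      have : A' ≤ l := by omega
      exact_mod_cast this
    linarith
  obtain ⟨L, hL1, hL2, hL3⟩ := stepB hκ hε (by omega) hll (by omega) (by omega) hψ hψΛ hψl
  refine ⟨L, by omega, ?_, by omega, ?_, by linarith⟩
  · have h1 : l ≤ 2 * L := by omega
    have h2 : l ^ 2 ≤ (2 * L) ^ 2 := Nat.pow_le_pow_left h1 2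
    have h3 : (2 * L) ^ 2 = 4 * L ^ 2 := by ring
    omega
  · have e1 : (φ (2 * L + 3) : ℝ) ≤ φ (4 * 16 ^ s) := by
      exact_mod_cast hφ (by omega)
    have e2 : φ (4 * 16 ^ (s - 1)) ≤ ψ L := by
      refine (hφψ (4 * 16 ^ (s - 1)) ?_ ?_).trans (hψ ?_)
      · have : 0 < 16 ^ (s - 1) := by positivity
        omega
      · omega
      · omega
    have e3 : ((16 : ℝ) ^ s) ^ (ε / 2) ≤ (L : ℝ) ^ ε := by
      have h1 : (16 : ℝ) ^ s ≤ (L : ℝ) ^ (2 : ℕ) := by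
        have h2 : l ≤ L ^ 2 := by
          have h3 : l ≤ 2 * L := by omega
          have h4 : 2 ≤ L := by omega
          calc l ≤ 2 * L := h3
            _ ≤ L * L := Nat.mul_le_mul_right _ h4
            _ = L ^ 2 := by ring
        have h3 : ((16 ^ s : ℕ) : ℝ) ≤ ((L ^ 2 : ℕ) : ℝ) := by exact_mod_cast h2
        push_cast at h3
        exact h3
      calc ((16 : ℝ) ^ s) ^ (ε / 2) ≤ ((L : ℝ) ^ (2 : ℕ)) ^ (ε / 2) :=
            Real.rpow_le_rpow (by positivity) h1 (by positivity)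
        _ = (L : ℝ) ^ ε := by
            rw [← Real.rpow_natCast, ← Real.rpow_mul (Nat.cast_nonneg _)]
            congr 1
            push_cast
            ring
    calc (φ (2 * L + 3) : ℝ) ≤ φ (4 * 16 ^ s) := e1
      _ ≤ ((16 : ℝ) ^ s) ^ (ε / 2) * φ (4 * 16 ^ (s - 1)) := hsφ
      _ ≤ (L : ℝ) ^ ε * ψ L := by
          apply mul_le_mul e3 _ (Nat.cast_nonneg _) (by positivity)
          exact_mod_cast e2

end Pool.Agent.Lib.MP5b6025.EP
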