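import Pool.Agent.Lib.MP_5b6025_nt.EP.SpecI
import Pool.Agent.Lib.MP_5b6025_nt.DD.Gap

/-!
# Module PI: existence of systems of leaves
-/

set_option autoImplicit false

open Polynomial Filter

namespace Pool.Agent.Lib.MP5b6025.EP

namespace PIM

theorem isSumS_mono {S : Set ℕ} {m m' v : ℕ} (h : m ≤ m') (hv : DD.IsSumS S m v) :
    DD.IsSumS S m' v := by
  obtain ⟨ν, h1, h2, h3⟩ := hv
  exact ⟨ν, h1.trans h, h2, h3⟩

theorem le_st {V : Finset ℕ} {τ w x : ℕ} (hw : w ∈ V) (hwx : w ≤ x)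
    (h : ∀ u ∈ V, u < w → u + τ ≤ w) : w ≤ st V τ x := by
  unfold st
  have : w ∈ (Sta V τ).filter (· ≤ x) := by
    rw [Finset.mem_filter]
    exact ⟨by unfold Sta; exact Finset.mem_filter.mpr ⟨hw, h⟩, hwx⟩
  exact Finset.le_sup (f := id) this

/-- A gap cuts the components. -/
theorem cut {V : Finset ℕ} {τ X : ℕ} (h : ∀ v ∈ V, v < X ∨ X + 2 * τ ≤ v) :
    ∀ v ∈ V, X + τ ≤ v → X + τ ≤ st V τ v := by
  intro v hv hXv
  have hne : (V.filter fun w => X + τ ≤ w).Nonempty := ⟨v, Finset.mem_filter.mpr ⟨hv, hXv⟩⟩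
  set w := (V.filter fun w => X + τ ≤ w).min' hne with hw
  have hwm := Finset.min'_mem _ hne
  rw [← hw, Finset.mem_filter] at hwm
  have hwv : w ≤ v := Finset.min'_le _ _ (Finset.mem_filter.mpr ⟨hv, hXv⟩)
  refine hwm.2.trans (le_st hwm.1 hwv ?_)
  intro u hu huw
  have h1 : ¬ X + τ ≤ u := by
    intro h2
    have := Finset.min'_le (V.filter fun w => X + τ ≤ w) u (Finset.mem_filter.mpr ⟨hu, h2⟩)
    omega
  have h3 := hwm.2
  rcases h u hu with h2 | h2 <;> omega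

theorem sum_zero {k : Type} [Field k] (hCMP : SpecCMP) {V : Finset ℕ} {τ Z₁ Z₂ : ℕ} {e : ℕ → k}
    (hτ : 1 ≤ τ) (h1 : ∀ v ∈ V, Z₁ ≤ v → Z₁ ≤ st V τ v) (h2 : ∀ v ∈ V, Z₂ ≤ v → Z₂ ≤ st V τ v)
    (hz : ∀ c ∈ Sta V τ, Z₁ ≤ c → c < Z₂ → mass V e τ c = 0) :
    ∑ v ∈ V.filter (fun v => Z₁ ≤ v ∧ v < Z₂), e v = 0 := by
  classical
  obtain ⟨c1, -⟩ := hCMP V τ hτ
  have hmaps : ∀ v ∈ V.filter (fun v => Z₁ ≤ v ∧ v < Z₂),
      st V τ v ∈ (Sta V τ).filter (fun c => Z₁ ≤ c ∧ c < Z₂) := by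
    intro v hv
    rw [Finset.mem_filter] at hv ⊢
    obtain ⟨hvV, hv1, hv2⟩ := hv
    obtain ⟨h3, h4⟩ := c1 v hvV
    exact ⟨h3, h1 v hvV hv1, by omega⟩
  rw [← Finset.sum_fiberwise_of_maps_to hmaps]
  refine Finset.sum_eq_zero fun c hc => ?_
  rw [Finset.mem_filter] at hc
  obtain ⟨hcS, hc1, hc2⟩ := hc
  have : (V.filter (fun v => Z₁ ≤ v ∧ v < Z₂)).filter (fun v => st V τ v = c) =
      V.filter (fun v => st V τ v = c) := by
    ext v
    simp only [Finset.mem_filter]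
    constructor
    · rintro ⟨⟨hv, -⟩, hvc⟩
      exact ⟨hv, hvc⟩
    · rintro ⟨hv, hvc⟩
      refine ⟨⟨hv, ?_, ?_⟩, hvc⟩
      · have := (c1 v hv).2
        omega
      · by_contra hcon
        have := h2 v hv (by omega)
        omega
  rw [this]
  exact hz c hcS hc1 hc2

theorem mem_Pn {k : Type} [Field k] {e : ℕ → k} {N v : ℕ} :
    v ∈ Pn e N ↔ v ≤ N ∧ e v ≠ 0 := by
  classical
  unfold Pn
  rw [Finset.mem_filter, Finset.mem_range, Nat.lt_succ_iff]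

theorem Ico_sum {k : Type} [Field k] {e : ℕ → k} {N Z₁ Z₂ : ℕ} (h : Z₂ ≤ N + 1) :
    ∑ v ∈ Finset.Ico Z₁ Z₂, e v = ∑ v ∈ (Pn e N).filter (fun v => Z₁ ≤ v ∧ v < Z₂), e v := by
  symm
  refine Finset.sum_subset ?_ ?_
  · intro v hv
    rw [Finset.mem_filter] at hv
    exact Finset.mem_Ico.mpr hv.2
  · intro v hv hv'
    rw [Finset.mem_Ico] at hv
    by_contra h0
    exact hv' (Finset.mem_filter.mpr ⟨mem_Pn.mpr ⟨by omega, h0⟩, hv⟩)

theorem Pn_card {k : Type} [Field k] {S : Set ℕ} {p d D N K A : ℕ} {e : ℕ → k}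
    (hJ : Jump S p d D N K e) (hA : DD.cnt S N ≤ A) : (Pn e N).card ≤ (A + 1) ^ (d - 1) := by
  classical
  have hsub : Pn e N ⊆ DC.GapsM.T ((Finset.range (N + 1)).filter (· ∈ S)) (d - 1) := by
    intro v hv
    rw [mem_Pn] at hv
    exact DD.GapM.mem_T (hJ.sup v hv.2) hv.1
  refine (Finset.card_le_card hsub).trans ?_
  refine DC.GapsM.card_T _ A ?_ (d - 1)
  unfold DD.cnt at hA
  convert hA

/-- A start with nonzero mass in the first block. -/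
theorem start {k : Type} [Field k] (hCMP : SpecCMP) {S : Set ℕ} {p d D N K K₁ X₁ X₂ τ : ℕ}
    {e : ℕ → k} (hJ : Jump S p d D N K e) (hdD : d ≤ D) (hτ : 1 ≤ τ) (hK₁ : 2 * τ ≤ K₁)
    (hX : X₁ ≤ X₂) (hN : X₂ + τ ≤ N) (g1 : DD.GapS S K₁ D X₁) (g2 : DD.GapS S K₁ D X₂)
    (hne : ∑ v ∈ Finset.range X₁, e v ≠ ∑ v ∈ Finset.range X₂, e v) :
    ∃ c ∈ Sta (Pn e N) τ, X₁ + τ ≤ c ∧ c < X₂ + τ ∧ mass (Pn e N) e τ c ≠ 0 := by
  have hgap : ∀ X : ℕ, DD.GapS S K₁ D X → ∀ v, e v ≠ 0 → v < X ∨ X + 2 * τ ≤ v := by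
    intro X hg v hv
    have h1 : DD.IsSumS S D v := isSumS_mono (by omega) (hJ.sup v hv)
    rcases hg v h1 with h | h
    · left; exact_mod_cast h
    · right
      have : X + K₁ ≤ v := by exact_mod_cast h
      omega
  have hrange : ∀ X : ℕ, DD.GapS S K₁ D X →
      ∑ v ∈ Finset.range (X + τ), e v = ∑ v ∈ Finset.range X, e v := by
    intro X hg
    symm
    refine Finset.sum_subset ?_ ?_
    · intro v hv
      rw [Finset.mem_range] at hv ⊢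
      omega
    · intro v hv hv'
      rw [Finset.mem_range] at hv hv'
      by_contra h0
      rcases hgap X hg v h0 with h | h <;> omega
  by_contra hcon
  push Not at hcon
  apply hne
  have hcut : ∀ X : ℕ, DD.GapS S K₁ D X → ∀ v ∈ Pn e N, X + τ ≤ v → X + τ ≤ st (Pn e N) τ v := by
    intro X hg
    refine cut ?_
    intro v hv
    exact hgap X hg v (mem_Pn.mp hv).2
  have h0 := sum_zero (e := e) hCMP hτ (hcut X₁ g1) (hcut X₂ g2) hcon
  rw [← Ico_sum (by omega)] at h0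
  rw [← hrange X₁ g1, ← hrange X₂ g2]
  have h1 := Finset.sum_range_add_sum_Ico e (show X₁ + τ ≤ X₂ + τ by omega)
  rw [h0, add_zero] at h1
  exact h1

theorem mem_Lf {k : Type} [Field k] {P : Finset ℕ} {e : ℕ → k} {B i l c : ℕ} :
    c ∈ Lf P e B i l ↔ c ∈ Sta P (B ^ i) ∧ mass P e (B ^ i) c ≠ 0 ∧ c < B ^ l := by
  classical
  unfold Lf
  rw [Finset.mem_filter]

theorem Lf_mono {k : Type} [Field k] {P : Finset ℕ} {e : ℕ → k} {B i : ℕ} (hB : 1 ≤ B) :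
    Monotone fun l => (Lf P e B i l).card := by
  intro l l' h
  refine Finset.card_le_card ?_
  intro c hc
  rw [mem_Lf] at hc ⊢
  exact ⟨hc.1, hc.2.1, lt_of_lt_of_le hc.2.2 (Nat.pow_le_pow_right hB h)⟩

theorem Lf_card_le {k : Type} [Field k] {P : Finset ℕ} {e : ℕ → k} {B i l : ℕ} :
    (Lf P e B i l).card ≤ P.card := by
  refine Finset.card_le_card ?_
  intro c hc
  rw [mem_Lf] at hc
  have h := hc.1
  unfold Sta at h
  exact (Finset.mem_filter.mp h).1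

theorem natLog_le (n : ℕ) : (Nat.log 2 n : ℝ) ≤ 2 * Real.log n := by
  rcases Nat.eq_zero_or_pos n with h | h
  · subst h; simp
  · have h1 : 2 ^ Nat.log 2 n ≤ n := Nat.pow_log_le_self 2 (by omega)
    have h2 : ((2 : ℝ)) ^ Nat.log 2 n ≤ n := by exact_mod_cast h1
    have h3 : Real.log ((2 : ℝ) ^ Nat.log 2 n) ≤ Real.log n :=
      Real.log_le_log (by positivity) h2
    rw [Real.log_pow] at h3
    have h4 : (1 : ℝ) / 2 < Real.log 2 := by
      have := Real.log_two_gt_d9; linarith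
    have h5 : (0 : ℝ) ≤ (Nat.log 2 n : ℝ) := Nat.cast_nonneg _
    nlinarith

theorem log_small (c ε : ℝ) (hε : 0 < ε) :
    ∃ L₁ : ℕ, ∀ L : ℕ, L₁ ≤ L → c * Real.log L ≤ (L : ℝ) ^ ε := by
  have h1 : (fun x : ℝ => c * Real.log x) =o[atTop] fun x => x ^ ε :=
    (isLittleO_log_rpow_atTop hε).const_mul_left c
  have h2 := h1.bound (show (0 : ℝ) < 1 by norm_num)
  have h3 := (tendsto_natCast_atTop_atTop (R := ℝ)).eventually h2
  obtain ⟨L₁, hL₁⟩ := eventually_atTop.mp h3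
  refine ⟨L₁, fun L hL => ?_⟩
  have h4 := hL₁ L hL
  rw [one_mul, Real.norm_eq_abs, Real.norm_eq_abs] at h4
  have h5 : |(L : ℝ) ^ ε| = (L : ℝ) ^ ε := abs_of_nonneg (by positivity)
  rw [h5] at h4
  exact (le_abs_self _).trans h4

/-- The spread inequality, in numbers. -/
theorem spread_num {x ε m a t' t : ℝ} (hx : 1 ≤ x) (hε : 0 < ε) (h2 : x * m ≤ a * t')
    (h4 : a ≤ x ^ (ε / 4)) (ht' : t' ≤ x ^ (ε / 4) * t) (ht0 : 0 ≤ t') :
    m ≤ x ^ (-1 + ε) * t := by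
  have hx0 : 0 < x := by linarith
  have hp : 0 < x ^ (ε / 4) := Real.rpow_pos_of_pos hx0 _
  have ht : 0 ≤ t := by
    by_contra hneg
    push Not at hneg
    have : x ^ (ε / 4) * t < 0 := mul_neg_of_pos_of_neg hp hneg
    linarith
  have h5 : x * m ≤ x ^ ε * t := by
    calc x * m ≤ a * t' := h2
      _ ≤ x ^ (ε / 4) * t' := mul_le_mul_of_nonneg_right h4 ht0
      _ ≤ x ^ (ε / 4) * (x ^ (ε / 4) * t) := mul_le_mul_of_nonneg_left ht' hp.le
      _ = x ^ (ε / 4 + ε / 4) * t := by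
        rw [Real.rpow_add hx0]; ring
      _ ≤ x ^ ε * t := mul_le_mul_of_nonneg_right
        (Real.rpow_le_rpow_of_exponent_le hx (by linarith)) ht
  have h6 : x ^ (-1 + ε) = x ^ ε / x := by
    rw [Real.rpow_add hx0, Real.rpow_neg_one]
    field_simp
  rw [h6, div_mul_eq_mul_div, le_div_iff₀ hx0]
  linarith [mul_comm x m]

theorem core (hCMP : SpecCMP) (hSIM : SpecSIM) (hLF0 : SpecLF0)
    (hGRO : SpecGRO) (hSPR : SpecSPR) (hREL : SpecREL) (hPGN : SpecPGN) (hPRM : SpecPRM)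
    {k : Type} [Field k] {b B p d f D : ℕ} {S : Set ℕ} {e : Fin d → ℕ → k} {C₁ κ₀ : ℝ}
    (hp2 : 2 ≤ p) (hb : 2 ≤ b) (hB : 1 ≤ B) (hd : 2 ≤ d) (hκ₀ : 1 ≤ κ₀)
    (hN : ∀ N₀ : ℕ, ∃ N : ℕ, N₀ ≤ N ∧ (DD.cnt S N : ℝ) + 1 ≤ Real.log N ^ κ₀)
    (hf : 1 ≤ f) (hfr : ∀ x : k, x ^ p ^ f = x) (hdD : d ≤ D)
    (hE : ∀ N K : ℕ, D ≤ N → 1 ≤ K → C₁ * DC.GG B D N < (b : ℝ) ^ K →
        (∀ i, Jump S p d D N K (e i)) ∧
        ∀ K₁ Lg Y : ℕ, K ≤ K₁ → Lg ≤ Y → 1 ≤ Y → 4 * Y ≤ N →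
          (∀ Z : ℕ, Z + Lg ≤ N →
            ∃ X : ℕ, Z ≤ X ∧ X + K₁ ≤ Z + Lg ∧ DD.GapS S K₁ (2 * D) X) →
          ∃ (i : Fin d) (X₁ X₂ : ℕ), Y ≤ X₁ ∧ X₁ ≤ X₂ ∧ X₂ ≤ 4 * Y ∧
            DD.GapS S K₁ D X₁ ∧ DD.GapS S K₁ D X₂ ∧
            ∑ v ∈ Finset.range X₁, e i v ≠ ∑ v ∈ Finset.range X₂, e i v)
    (ε : ℝ) (C L₀ : ℕ) (hε : 0 < ε) :
    ∃ (L B' : ℕ) (V T Z : Finset ℕ) (e : ℕ → k), L₀ ≤ L ∧ L ^ C ≤ B' ∧
        Sys L B' (5 * κ₀ * d) ε V T Z e := by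
  classical
  have hq2 : 2 ≤ p ^ f := by
    calc 2 ≤ p := hp2
      _ = p ^ 1 := (pow_one p).symm
      _ ≤ p ^ f := Nat.pow_le_pow_right (by omega) hf
  have hd0 : (0 : ℝ) < d := by
    have : 0 < d := by omega
    exact_mod_cast this
  have hκd : 0 < 2 * κ₀ * (d : ℝ) := by positivity
  obtain ⟨L₁, hL₁⟩ := log_small (6 * (2 * (5 * κ₀ * d))) (ε / 4) (by positivity)
  obtain ⟨Λ₀, hΛ₀⟩ := hPGN (2 * κ₀ * d) (ε / 4) (max L₀ (max 256 L₁)) hκd (by positivity)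
  obtain ⟨N₀, hN₀⟩ := hPRM κ₀ C₁ b B d D (p ^ f) C Λ₀ hκ₀ hb hB hd hdD hq2
  obtain ⟨N, hNN, hcnt⟩ := hN N₀
  obtain ⟨K, u, Λ, hK, hu, hDN, hC₁, hB24, hpowN, hΛΛ, hAΛ, hΛC⟩ :=
    hN₀ N hNN (DD.cnt S N) hcnt
  set A := DD.cnt S N with hA
  set q := (p ^ f) ^ u with hq
  -- numbers
  set a := (A + 1) ^ (2 * D) with ha
  have ha1 : 1 ≤ a := Nat.one_le_pow _ _ (by omega)
  have hq144 : 144 * a ≤ q := by
    have h1 : 24 * 2 * a * 3 ≤ 24 * (Nat.log 2 N + 2) * a * (K + 2) := by gcongr <;> omega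
    omega
  have hKq : K ≤ q := by
    have h1 : 24 * 2 * 1 * (K + 2) ≤ 24 * (Nat.log 2 N + 2) * a * (K + 2) := by gcongr; omega
    omega
  have hq1 : 144 ≤ q := by omega
  have hq0 : 1 ≤ q := by omega
  have hpw : ∀ l, l ≤ Λ + 8 → q ^ l ≤ N := fun l hl =>
    (Nat.pow_le_pow_right hq0 hl).trans hpowN
  obtain ⟨hJ, hE2⟩ := hE N K hDN hK hC₁
  -- the jump
  have hq3 : 1 ≤ q ^ 3 := Nat.one_le_pow _ _ hq0
  have hqq3 : q ≤ q ^ 3 := by
    calc q = q ^ 1 := (pow_one q).symm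
      _ ≤ q ^ 3 := Nat.pow_le_pow_right hq0 (by norm_num)
  have hLgY : (2 * q ^ 3 + K) * (a + 1) ≤ q ^ 5 := by
    have h1 : 2 * q ^ 3 + K ≤ 3 * q ^ 3 := by omega
    have h2 : a + 1 ≤ 2 * a := by omega
    calc (2 * q ^ 3 + K) * (a + 1) ≤ (3 * q ^ 3) * (2 * a) := Nat.mul_le_mul h1 h2
      _ = q ^ 3 * (6 * a) := by ring
      _ ≤ q ^ 3 * q := Nat.mul_le_mul_left _ (by omega)
      _ = q ^ 4 := by ring
      _ ≤ q ^ 5 := Nat.pow_le_pow_right hq0 (by norm_num)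
  have h4Y : 4 * q ^ 5 ≤ N := by
    calc 4 * q ^ 5 ≤ q * q ^ 5 := Nat.mul_le_mul_right _ (by omega)
      _ = q ^ 6 := by ring
      _ ≤ N := hpw 6 (by omega)
  obtain ⟨i, X₁, X₂, hX1, hX12, hX2, g1, g2, hne⟩ :=
    hE2 (2 * q ^ 3 + K) ((2 * q ^ 3 + K) * (a + 1)) (q ^ 5) (by omega) hLgY
      (Nat.one_le_pow _ _ hq0) h4Y
      (fun Z hZ => (DD.specGAP S N A (2 * D) le_rfl).1 (2 * q ^ 3 + K) Z (by omega) hZ)
  have hJi := hJ i
  have hX2N : X₂ + q ^ 3 ≤ N := by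
    have h1 : 4 * q ^ 5 + q ^ 3 ≤ q ^ 6 := by
      have h2 : q ^ 3 ≤ q ^ 5 := Nat.pow_le_pow_right hq0 (by norm_num)
      calc 4 * q ^ 5 + q ^ 3 ≤ 5 * q ^ 5 := by omega
        _ ≤ q * q ^ 5 := Nat.mul_le_mul_right _ (by omega)
        _ = q ^ 6 := by ring
    have h3 := hpw 6 (by omega)
    omega
  obtain ⟨c, hcS, hc1, hc2, hcm⟩ := start hCMP hJi hdD hq3 (by omega) hX12 hX2N g1 g2 hne
  set V := Pn (e i) N with hV
  have hVc : V.card ≤ (A + 1) ^ (d - 1) := Pn_card hJi le_rfl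
  have hVa : V.card ≤ a := hVc.trans (Nat.pow_le_pow_right (by omega) (by omega))
  have hV16 : 16 * (V.card + 1) ≤ q := by omega
  have hV8 : 8 * (V.card + 1) ≤ q := by omega
  -- self-similarity
  have hADle : (A + 1) ^ D ≤ a := Nat.pow_le_pow_right (by omega) (by omega)
  have hSim : Sim V (e i) q N := by
    refine hSIM k S p f u d D N K A q (e i) hp2 hf hu (by omega) hdD hK hJi hfr ?_ le_rfl ?_
    · rw [hq, pow_mul]
    · refine le_trans ?_ hB24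
      gcongr
  have hcB5 : q ^ 5 ≤ c := by omega
  have hcB6 : c + q ^ 4 ≤ q ^ 6 := by
    have h2 : q ^ 3 ≤ q ^ 5 := Nat.pow_le_pow_right hq0 (by norm_num)
    have h3 : q ^ 4 ≤ q ^ 5 := Nat.pow_le_pow_right hq0 (by norm_num)
    have h4 : 6 * q ^ 5 ≤ q ^ 6 := by
      calc 6 * q ^ 5 ≤ q * q ^ 5 := Nat.mul_le_mul_right _ (by omega)
        _ = q ^ 6 := by ring
    omega
  have hgro := hGRO k V (e i) q N c hV8 hSim hcS hcm hcB5 hcB6
  have hlf0 := hLF0 k V (e i) q N hV8 hSim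
  -- the cardinality of `V`
  have hVreal : (V.card : ℝ) + 1 ≤ (Λ : ℝ) ^ (2 * κ₀ * (d : ℝ)) := by
    refine le_trans ?_ hAΛ
    have h1 : V.card ≤ (A + 1) ^ d := hVc.trans (Nat.pow_le_pow_right (by omega) (by omega))
    have h2 : (V.card : ℝ) ≤ ((A : ℝ) + 1) ^ d := by exact_mod_cast h1
    linarith
  -- pigeonhole
  obtain ⟨L, hL0, hΛL, hLΛ, hφ, hψ⟩ := hΛ₀ Λ hΛΛ (fun l => (Lf V (e i) q 1 l).card)
    (fun l => (Lf V (e i) q 3 l).card) (Lf_mono hq0) (Lf_mono hq0)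
    (by
      have h1 : ((Lf V (e i) q 1 Λ).card : ℝ) ≤ V.card := by exact_mod_cast Lf_card_le
      show ((Lf V (e i) q 1 Λ).card : ℝ) ≤ _
      linarith)
    (by
      have h1 : ((Lf V (e i) q 3 Λ).card : ℝ) ≤ V.card := by exact_mod_cast Lf_card_le
      show ((Lf V (e i) q 3 Λ).card : ℝ) ≤ _
      linarith)
    (fun l hl1 hl2 => hlf0 l hl1 (hpw (l + 6) (by omega)))
    (fun l hl => hgro l (hpw (l + 1) (by omega)))
  have hL00 : L₀ ≤ L := (le_max_left _ _).trans hL0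
  have hL256 : 256 ≤ L := ((le_max_left _ _).trans (le_max_right _ _)).trans hL0
  have hL1 : L₁ ≤ L := ((le_max_right _ _).trans (le_max_right _ _)).trans hL0
  have hLr : (256 : ℝ) ≤ L := by exact_mod_cast hL256
  have hLpos : (0 : ℝ) < L := by linarith
  have hLone : (1 : ℝ) ≤ L := by linarith
  obtain ⟨Z, hZc, hZ⟩ := hREL k S p d D N K A q L (e i) (by omega) hdD hK hJi le_rfl
    (by
      refine le_trans ?_ hB24
      have h1 : 24 * 1 * a * (K + 2) ≤ 24 * (Nat.log 2 N + 2) * a * (K + 2) := by gcongr; omega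
      rw [mul_one] at h1
      exact h1) (by omega) (hpw (L + 3) (by omega))
  set T := Lf V (e i) q 3 L with hT
  have hTcard : (L : ℝ) ≤ 2 * T.card := by
    have h1 : L ≤ T.card + 6 := hgro L (hpw (L + 1) (by omega))
    have h2 : (L : ℝ) ≤ T.card + 6 := by exact_mod_cast h1
    linarith
  have hTnn : (0 : ℝ) ≤ T.card := Nat.cast_nonneg _
  have hcardP : (V.card : ℝ) + 1 ≤ (L : ℝ) ^ (5 * κ₀ * (d : ℝ)) := by
    refine hVreal.trans ?_
    have h1 : (Λ : ℝ) ≤ (L : ℝ) ^ (5 / 2 : ℝ) := by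
      have h2 : (Λ : ℝ) ≤ (L : ℝ) ^ 2 * 16 := by exact_mod_cast hΛL
      have h3 : (16 : ℝ) ≤ (L : ℝ) ^ (1 / 2 : ℝ) := by
        have h4 : (16 : ℝ) = (256 : ℝ) ^ (1 / 2 : ℝ) := by
          rw [← Real.sqrt_eq_rpow]
          rw [show (256 : ℝ) = 16 ^ 2 by norm_num, Real.sqrt_sq (by norm_num)]
        rw [h4]
        exact Real.rpow_le_rpow (by norm_num) hLr (by norm_num)
      calc (Λ : ℝ) ≤ (L : ℝ) ^ 2 * 16 := h2
        _ ≤ (L : ℝ) ^ 2 * (L : ℝ) ^ (1 / 2 : ℝ) := by gcongr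
        _ = (L : ℝ) ^ (5 / 2 : ℝ) := by
          rw [← Real.rpow_natCast, ← Real.rpow_add hLpos]
          norm_num
    calc (Λ : ℝ) ^ (2 * κ₀ * (d : ℝ)) ≤ ((L : ℝ) ^ (5 / 2 : ℝ)) ^ (2 * κ₀ * (d : ℝ)) :=
          Real.rpow_le_rpow (Nat.cast_nonneg _) h1 hκd.le
      _ = (L : ℝ) ^ (5 * κ₀ * (d : ℝ)) := by
          rw [← Real.rpow_mul hLpos.le]
          congr 1
          ring
  have hεL : (L : ℝ) ^ (ε / 4) ≤ (L : ℝ) ^ ε :=
    Real.rpow_le_rpow_of_exponent_le hLone (by linarith)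
  have hφ' : ((Lf V (e i) q 1 (2 * L + 3)).card : ℝ) ≤ (L : ℝ) ^ (ε / 4) * T.card := hφ
  refine ⟨L, q, V, T, Z, fun s => mass V (e i) (q ^ 3) s, hL00, ?_, ?_⟩
  · exact (Nat.pow_le_pow_left (by omega : L ≤ Λ) C).trans hΛC
  · refine ⟨hcardP, ?_, ?_, hTcard, ?_, ?_, ?_, ?_⟩
    · intro s hs
      rw [hT, mem_Lf] at hs
      exact ⟨hs.1, hs.2.2⟩
    · intro s hs
      rw [hT, mem_Lf] at hs
      exact hs.2.1
    · intro g hg
      have h1 := hSPR k V (e i) q N L hV16 hSim (by omega) (hpw (2 * L + 5) (by omega)) g hg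
      rw [← hT] at h1
      set T' := Lf V (e i) q 1 (2 * L + 3) with hT'
      set n := (T.filter fun s => Act V T q (g - 1) g s).card with hn
      have h2 : (L : ℝ) * n ≤ 6 * (Nat.log 2 T'.card : ℝ) * T'.card := by exact_mod_cast h1
      have h3 : (Nat.log 2 T'.card : ℝ) ≤ 2 * (5 * κ₀ * d * Real.log L) := by
        rcases Nat.eq_zero_or_pos T'.card with h0 | h0
        · rw [h0]
          simp only [Nat.log_zero_right, Nat.cast_zero]
          have : 0 ≤ Real.log L := Real.log_nonneg hLone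
          positivity
        · refine (natLog_le _).trans ?_
          have h4 : Real.log T'.card ≤ Real.log ((L : ℝ) ^ (5 * κ₀ * (d : ℝ))) := by
            apply Real.log_le_log
            · exact_mod_cast h0
            · have h5 : (T'.card : ℝ) ≤ V.card := by exact_mod_cast Lf_card_le
              linarith
          rw [Real.log_rpow hLpos] at h4
          linarith
      have h4 : 6 * (Nat.log 2 T'.card : ℝ) ≤ (L : ℝ) ^ (ε / 4) := by
        have h5 := hL₁ L hL1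
        have h6 : 6 * (2 * (5 * κ₀ * (d : ℝ))) * Real.log L = 6 * (2 * (5 * κ₀ * d * Real.log L)) := by
          ring
        linarith
      exact spread_num hLone hε h2 h4 hφ' (Nat.cast_nonneg _)
    · have hψ' : (T.card : ℝ) - (Lf V (e i) q 3 (L - 1)).card ≤ ε / 4 * T.card := hψ
      have h1 : Lf V (e i) q 3 (L - 1) = T.filter fun s => ¬ q ^ (L - 1) ≤ s := by
        rw [hT]
        ext s
        simp only [Finset.mem_filter, mem_Lf, not_le]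
        constructor
        · rintro ⟨h1, h2, h3⟩
          exact ⟨⟨h1, h2, lt_of_lt_of_le h3 (Nat.pow_le_pow_right hq0 (by omega))⟩, h3⟩
        · rintro ⟨⟨h1, h2, -⟩, h3⟩
          exact ⟨h1, h2, h3⟩
      have h2 := Finset.card_filter_add_card_filter_not (s := T) (fun s => q ^ (L - 1) ≤ s)
      rw [← h1] at h2
      have h3 : ((T.filter fun s => q ^ (L - 1) ≤ s).card : ℝ) +
          (Lf V (e i) q 3 (L - 1)).card = T.card := by exact_mod_cast h2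
      have h4 : ε / 4 * T.card ≤ ε * T.card := by
        apply mul_le_mul_of_nonneg_right _ hTnn
        linarith
      linarith
    · have h1 : Z.card ≤ (Lf V (e i) q 1 (2 * L + 3)).card :=
        hZc.trans (Lf_mono hq0 (by omega : L + 2 ≤ 2 * L + 3))
      have h2 : (Z.card : ℝ) ≤ (Lf V (e i) q 1 (2 * L + 3)).card := by exact_mod_cast h1
      refine (h2.trans hφ').trans ?_
      exact mul_le_mul_of_nonneg_right hεL hTnn
    · intro x hx x' hx' h1 h2 h3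
      exact hZ x hx x' hx' h1 h2 h3

end PIM

open PIM in
theorem specPI (hCMP : SpecCMP) (hEXK : SpecEXK) (hSIM : SpecSIM) (hLF0 : SpecLF0)
    (hGRO : SpecGRO) (hSPR : SpecSPR) (hREL : SpecREL) (hPGN : SpecPGN) (hPRM : SpecPRM) :
    SpecPI := by
  intro b B p hp t P κ₀ hb hB ht hpb hPβ hd hdeg hsep hroot hκ₀ hN
  obtain ⟨k, iF, iFin, iC, e, f, D, C₁, hf, hfr, hdD, hE⟩ :=
    hEXK b B p t P hb hB ht hpb hPβ hd hdeg hsep hroot
  refine ⟨k, iF, iFin, iC, fun ε C L₀ hε => ?_⟩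
  exact core hCMP hSIM hLF0 hGRO hSPR hREL hPGN hPRM hp.out.two_le hb hB hd hκ₀ hN hf hfr hdD hE
    ε C L₀ hε

end Pool.Agent.Lib.MP5b6025.EP
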