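import Pool.Agent.Lib.MP_5b6025_nt.EP.SpecI

/-!
Module PRM (helper91): the parameters.
-/

set_option autoImplicit false

open Polynomial

namespace Pool.Agent.Lib.MP5b6025.EP

namespace PRMM

open Filter

lemma ev4 (lq : ℝ) (hlq : 0 ≤ lq) (E : ℕ) : ∀ᶠ x : ℝ in atTop,
    (x ^ (2 / 3 : ℝ) + 9) * (lq + E * Real.log x) ≤ x := by
  have h1 : Tendsto (fun x : ℝ => x ^ (1 / 6 : ℝ)) atTop atTop := tendsto_rpow_atTop (by norm_num)
  filter_upwards [h1.eventually_ge_atTop (10 * (lq + 6 * E)), eventually_ge_atTop (1 : ℝ)]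
    with x hx hx1
  have hx0 : 0 < x := by linarith
  have h2 : Real.log x ≤ 6 * x ^ (1 / 6 : ℝ) := by
    have := Real.log_le_rpow_div hx0.le (show (0 : ℝ) < 1 / 6 by norm_num)
    linarith
  have h3 : 1 ≤ x ^ (1 / 6 : ℝ) := Real.one_le_rpow hx1 (by norm_num)
  have h4 : 1 ≤ x ^ (2 / 3 : ℝ) := Real.one_le_rpow hx1 (by norm_num)
  have h5 : lq + E * Real.log x ≤ (lq + 6 * E) * x ^ (1 / 6 : ℝ) := by
    have h6 : (E : ℝ) * Real.log x ≤ E * (6 * x ^ (1 / 6 : ℝ)) :=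
      mul_le_mul_of_nonneg_left h2 (Nat.cast_nonneg E)
    have h7 : lq ≤ lq * x ^ (1 / 6 : ℝ) := le_mul_of_one_le_right hlq h3
    linarith
  have h8 : x ^ (2 / 3 : ℝ) * (x ^ (1 / 6 : ℝ) * x ^ (1 / 6 : ℝ)) = x := by
    rw [← Real.rpow_add hx0, ← Real.rpow_add hx0]
    norm_num
  have h9 : 0 ≤ lq + 6 * (E : ℝ) := by positivity
  calc (x ^ (2 / 3 : ℝ) + 9) * (lq + E * Real.log x)
      ≤ (10 * x ^ (2 / 3 : ℝ)) * ((lq + 6 * E) * x ^ (1 / 6 : ℝ)) := by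
        apply mul_le_mul (by linarith) h5
        · have := Real.log_nonneg hx1
          positivity
        · positivity
    _ = x ^ (2 / 3 : ℝ) * ((10 * (lq + 6 * E)) * x ^ (1 / 6 : ℝ)) := by ring
    _ ≤ x ^ (2 / 3 : ℝ) * (x ^ (1 / 6 : ℝ) * x ^ (1 / 6 : ℝ)) := by gcongr
    _ = x := h8

lemma e2 (C₁ M x : ℝ) (D : ℕ) (B : ℝ) (hM : C₁ * 2 * (2 * B) ^ (D + 1) ≤ M) (hM0 : 0 ≤ M)
    (hx : 2 * (M + D + 1) + 1 ≤ x) :
    C₁ * 2 * (2 * B) ^ (D + 1) * Real.exp x ^ (D + 1) < (2 : ℝ) ^ (x ^ 2) := by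
  have h1 : Real.exp x ^ (D + 1) = Real.exp ((D + 1) * x) := by
    rw [← Real.exp_nat_mul]
    push_cast
    ring_nf
  have h2 : (2 : ℝ) ^ (x ^ 2) = Real.exp (Real.log 2 * x ^ 2) := by
    rw [Real.rpow_def_of_pos (by norm_num)]
  have h3 : M ≤ Real.exp M := by linarith [Real.add_one_le_exp M]
  rw [h1, h2]
  calc C₁ * 2 * (2 * B) ^ (D + 1) * Real.exp ((D + 1) * x)
      ≤ M * Real.exp ((D + 1) * x) := mul_le_mul_of_nonneg_right hM (Real.exp_pos _).le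
    _ ≤ Real.exp M * Real.exp ((D + 1) * x) := mul_le_mul_of_nonneg_right h3 (Real.exp_pos _).le
    _ = Real.exp (M + (D + 1) * x) := by rw [← Real.exp_add]
    _ < Real.exp (Real.log 2 * x ^ 2) := by
        apply Real.exp_lt_exp.2
        have hD : (0 : ℝ) ≤ D := Nat.cast_nonneg D
        have hx1 : 1 ≤ x := by linarith
        have hl := Real.log_two_gt_d9
        have h5 : 1 / 2 * x ^ 2 ≤ Real.log 2 * x ^ 2 := by
          apply mul_le_mul_of_nonneg_right (by linarith) (by positivity)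
        have h6 : M ≤ M * x := le_mul_of_one_le_right hM0 hx1
        have h7 : (2 * (M + D + 1) + 1) * x ≤ x * x := mul_le_mul_of_nonneg_right hx (by linarith)
        nlinarith

lemma e3 (x κ₀ : ℝ) (D C : ℕ) (hx : 8 ≤ x) :
    24 * (2 * x + 2) * (x ^ κ₀) ^ (2 * D) * (x ^ 2 + 3) ≤ x ^ (⌈2 * κ₀ * D⌉₊ + 7 + C) := by
  have hx0 : 0 < x := by linarith
  have h1 : (x ^ κ₀) ^ (2 * D) ≤ x ^ ⌈2 * κ₀ * D⌉₊ := by
    rw [← Real.rpow_natCast, ← Real.rpow_mul hx0.le, ← Real.rpow_natCast x]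
    apply Real.rpow_le_rpow_of_exponent_le (by linarith)
    refine le_trans (le_of_eq ?_) (Nat.le_ceil _)
    push_cast
    ring
  have h2 : 24 * (2 * x + 2) ≤ x ^ 4 := by
    have h3 : 24 ≤ x ^ 2 := by nlinarith
    have h4 : 2 * x + 2 ≤ x ^ 2 := by nlinarith
    calc 24 * (2 * x + 2) ≤ x ^ 2 * x ^ 2 := by
          apply mul_le_mul h3 h4 (by linarith) (by positivity)
      _ = x ^ 4 := by ring
  have h3 : x ^ 2 + 3 ≤ x ^ 3 := by
    have : x ^ 2 * 8 ≤ x ^ 2 * x := mul_le_mul_of_nonneg_left hx (by positivity)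
    nlinarith
  have h4 : (1 : ℝ) ≤ x ^ C := one_le_pow₀ (by linarith)
  calc 24 * (2 * x + 2) * (x ^ κ₀) ^ (2 * D) * (x ^ 2 + 3)
      ≤ x ^ 4 * x ^ ⌈2 * κ₀ * D⌉₊ * x ^ 3 := by
        apply mul_le_mul _ h3 (by positivity) (by positivity)
        exact mul_le_mul h2 h1 (by positivity) (by positivity)
    _ ≤ x ^ 4 * x ^ ⌈2 * κ₀ * D⌉₊ * x ^ 3 * x ^ C := le_mul_of_one_le_right (by positivity) h4
    _ = x ^ (⌈2 * κ₀ * D⌉₊ + 7 + C) := by ring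

end PRMM

open PRMM in
/-- Module PRM. -/
theorem specPRM : SpecPRM := by
  intro κ₀ C₁ b B d D q C Λ₀ hκ hb hB hd hdD hq
  set E := ⌈2 * κ₀ * D⌉₊ + 7 + C with hE
  set M : ℝ := |C₁| * 2 * (2 * B) ^ (D + 1) with hM
  have hM0 : 0 ≤ M := by positivity
  have hM1 : C₁ * 2 * (2 * (B : ℝ)) ^ (D + 1) ≤ M := by
    rw [hM]
    have := le_abs_self C₁
    gcongr
  have hq1 : (1 : ℝ) < q := by exact_mod_cast hq
  have hlq : 0 ≤ Real.log q := Real.log_nonneg hq1.le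
  have hlim : Filter.Tendsto (fun N : ℕ => Real.log N) Filter.atTop Filter.atTop :=
    Real.tendsto_log_atTop.comp tendsto_natCast_atTop_atTop
  have h1 : Filter.Tendsto (fun x : ℝ => x ^ (2 / 3 : ℝ)) Filter.atTop Filter.atTop :=
    tendsto_rpow_atTop (by norm_num)
  have hev : ∀ᶠ x : ℝ in Filter.atTop, 8 ≤ x ∧ 2 * (M + D + 1) + 1 ≤ x ∧
      (x ^ (2 / 3 : ℝ) + 9) * (Real.log q + E * Real.log x) ≤ x ∧ (Λ₀ : ℝ) ≤ x ^ (2 / 3 : ℝ) := by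
    filter_upwards [Filter.eventually_ge_atTop (8 : ℝ),
      Filter.eventually_ge_atTop (2 * (M + D + 1) + 1), ev4 (Real.log q) hlq E,
      h1.eventually_ge_atTop (Λ₀ : ℝ)] with x a1 a2 a3 a4
    exact ⟨a1, a2, a3, a4⟩
  obtain ⟨N₀, hN₀⟩ := Filter.eventually_atTop.1 (hlim.eventually hev)
  refine ⟨max N₀ 1, fun N hN A hA => ?_⟩
  obtain ⟨a1, a2, a3, a4⟩ := hN₀ N (le_trans (le_max_left _ _) hN)
  have hN1 : 1 ≤ N := le_trans (le_max_right _ _) hN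
  have hN1r : (1 : ℝ) ≤ N := by exact_mod_cast hN1
  set x := Real.log N with hx
  have hx0 : 0 < x := by linarith
  have hexp : Real.exp x = N := Real.exp_log (by linarith)
  have hxN : x ≤ N := by
    rw [← hexp]
    linarith [Real.add_one_le_exp x]
  have hD0 : (0 : ℝ) ≤ D := Nat.cast_nonneg D
  have hx23 : x ^ (2 / 3 : ℝ) * 2 ≤ x := by
    have h2 : (2 : ℝ) ≤ x ^ (1 / 3 : ℝ) := by
      calc (2 : ℝ) = 8 ^ (1 / 3 : ℝ) := by
            rw [show (8 : ℝ) = 2 ^ (3 : ℝ) by norm_num, ← Real.rpow_mul (by norm_num)]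
            norm_num
        _ ≤ _ := Real.rpow_le_rpow (by norm_num) a1 (by norm_num)
    calc x ^ (2 / 3 : ℝ) * 2 ≤ x ^ (2 / 3 : ℝ) * x ^ (1 / 3 : ℝ) := by gcongr
      _ = x := by
        rw [← Real.rpow_add hx0]
        norm_num
  have hx231 : 1 ≤ x ^ (2 / 3 : ℝ) := Real.one_le_rpow (by linarith) (by norm_num)
  have hceil : (⌈x ^ (2 / 3 : ℝ)⌉₊ : ℝ) < x ^ (2 / 3 : ℝ) + 1 := Nat.ceil_lt_add_one (by positivity)
  -- the exponent `u`
  set u := Nat.clog q ⌈x ^ E⌉₊ with hu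
  have hxE : (1 : ℝ) < x ^ E := one_lt_pow₀ (by linarith) (by omega)
  have hcE : 1 < ⌈x ^ E⌉₊ := Nat.lt_ceil.2 (by exact_mod_cast hxE)
  have hu1 : 1 ≤ u := Nat.clog_pos (by omega) hcE
  have huE : x ^ E ≤ (q : ℝ) ^ u := by
    have h2 : ⌈x ^ E⌉₊ ≤ q ^ u := Nat.le_pow_clog (by omega) _
    calc x ^ E ≤ ⌈x ^ E⌉₊ := Nat.le_ceil _
      _ ≤ ((q ^ u : ℕ) : ℝ) := by exact_mod_cast h2
      _ = _ := by push_cast; rfl
  have huE' : (q : ℝ) ^ u ≤ q * x ^ E := by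
    have h2 : q ^ (u - 1) < ⌈x ^ E⌉₊ := by
      have := Nat.pow_pred_clog_lt_self (b := q) (by omega) hcE
      simpa using this
    have h3 : ((q ^ (u - 1) : ℕ) : ℝ) < x ^ E := Nat.lt_ceil.1 h2
    push_cast at h3
    calc (q : ℝ) ^ u = q * q ^ (u - 1) := by
          rw [← pow_succ']
          congr 1
          omega
      _ ≤ q * x ^ E := by gcongr
  have hul : u * Real.log q ≤ Real.log q + E * Real.log x := by
    have h2 : Real.log ((q : ℝ) ^ u) ≤ Real.log (q * x ^ E) :=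
      Real.log_le_log (by positivity) huE'
    rwa [Real.log_pow, Real.log_mul (by positivity) (by positivity), Real.log_pow] at h2
  refine ⟨⌈x ^ 2⌉₊, u, ⌈x ^ (2 / 3 : ℝ)⌉₊, ?_, hu1, ?_, ?_, ?_, ?_, ?_, ?_, ?_⟩
  · exact Nat.one_le_iff_ne_zero.2 (Nat.pos_iff_ne_zero.1 (Nat.ceil_pos.2 (by positivity)))
  · have : (D : ℝ) ≤ N := by linarith
    exact_mod_cast this
  · have h2 := e2 C₁ M x D B hM1 hM0 a2
    rw [hexp] at h2
    have h3 : (b : ℝ) ^ (⌈x ^ 2⌉₊) ≥ (2 : ℝ) ^ (x ^ 2) := by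
      have hb' : (2 : ℝ) ≤ b := by exact_mod_cast hb
      calc (2 : ℝ) ^ (x ^ 2) ≤ (2 : ℝ) ^ ((⌈x ^ 2⌉₊ : ℕ) : ℝ) :=
            Real.rpow_le_rpow_of_exponent_le (by norm_num) (Nat.le_ceil _)
        _ = (2 : ℝ) ^ ⌈x ^ 2⌉₊ := Real.rpow_natCast _ _
        _ ≤ (b : ℝ) ^ ⌈x ^ 2⌉₊ := pow_le_pow_left₀ (by norm_num) hb' _
    have h4 : DC.GG B D N ≤ 2 * (2 * (B : ℝ)) ^ (D + 1) * (N : ℝ) ^ (D + 1) := by
      unfold DC.GG
      rw [mul_assoc, ← mul_pow]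
      have hB0 : (0 : ℝ) ≤ B := Nat.cast_nonneg B
      have h5 : (B : ℝ) * (N + 1) ≤ 2 * B * N := by nlinarith
      have h6 : ((B : ℝ) * (N + 1)) ^ (D + 1) ≤ (2 * B * N) ^ (D + 1) :=
        pow_le_pow_left₀ (by positivity) h5 _
      linarith
    rcases le_or_gt 0 C₁ with hC | hC
    · calc C₁ * DC.GG B D N ≤ C₁ * (2 * (2 * (B : ℝ)) ^ (D + 1) * (N : ℝ) ^ (D + 1)) :=
            mul_le_mul_of_nonneg_left h4 hC
        _ = C₁ * 2 * (2 * (B : ℝ)) ^ (D + 1) * (N : ℝ) ^ (D + 1) := by ring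
        _ < (2 : ℝ) ^ (x ^ 2) := h2
        _ ≤ _ := h3
    · have h5 : 0 ≤ DC.GG B D N := by unfold DC.GG; positivity
      have h6 : C₁ * DC.GG B D N ≤ 0 := mul_nonpos_of_nonpos_of_nonneg hC.le h5
      have h7 : (0 : ℝ) < (b : ℝ) ^ (⌈x ^ 2⌉₊) := by
        have : (0 : ℝ) < b := by
          have : (2 : ℝ) ≤ b := by exact_mod_cast hb
          linarith
        positivity
      linarith
  · have h2 := e3 x κ₀ D C a1
    have hlog2 : (Nat.log 2 N : ℝ) ≤ 2 * x := by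
      have h3 : 2 ^ (Nat.log 2 N) ≤ N := Nat.pow_log_le_self 2 (by omega)
      have h4 : ((2 : ℝ)) ^ (Nat.log 2 N) ≤ N := by exact_mod_cast h3
      have h5 := Real.log_le_log (by positivity) h4
      rw [Real.log_pow] at h5
      have h6 := Real.log_two_gt_d9
      have h7 : (0 : ℝ) ≤ (Nat.log 2 N : ℝ) := Nat.cast_nonneg _
      nlinarith
    have hc2 : (⌈x ^ 2⌉₊ : ℝ) < x ^ 2 + 1 := Nat.ceil_lt_add_one (by positivity)
    have h3 : ((24 * (Nat.log 2 N + 2) * (A + 1) ^ (2 * D) * (⌈x ^ 2⌉₊ + 2) : ℕ) : ℝ) ≤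
        ((q ^ u : ℕ) : ℝ) := by
      push_cast
      calc 24 * ((Nat.log 2 N : ℝ) + 2) * ((A : ℝ) + 1) ^ (2 * D) * ((⌈x ^ 2⌉₊ : ℝ) + 2)
          ≤ 24 * (2 * x + 2) * (x ^ κ₀) ^ (2 * D) * (x ^ 2 + 3) := by
            have h4 : ((A : ℝ) + 1) ^ (2 * D) ≤ (x ^ κ₀) ^ (2 * D) :=
              pow_le_pow_left₀ (by positivity) hA _
            apply mul_le_mul _ (by linarith) (by positivity) (by positivity)
            apply mul_le_mul _ h4 (by positivity) (by positivity)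
            linarith
        _ ≤ x ^ E := h2
        _ ≤ (q : ℝ) ^ u := huE
    exact_mod_cast h3
  · have h2 : (((q ^ u) ^ (⌈x ^ (2 / 3 : ℝ)⌉₊ + 8) : ℕ) : ℝ) ≤ N := by
      push_cast
      rw [← hexp, ← Real.log_le_iff_le_exp (by positivity), Real.log_pow, Real.log_pow]
      push_cast
      calc ((⌈x ^ (2 / 3 : ℝ)⌉₊ : ℝ) + 8) * (u * Real.log q)
          ≤ (x ^ (2 / 3 : ℝ) + 9) * (Real.log q + E * Real.log x) := by
            apply mul_le_mul (by linarith) hul (by positivity) (by positivity)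
        _ ≤ x := a3
    exact_mod_cast h2
  · have h2 : (Λ₀ : ℝ) ≤ ⌈x ^ (2 / 3 : ℝ)⌉₊ := a4.trans (Nat.le_ceil _)
    exact_mod_cast h2
  · have hd2 : (2 : ℝ) ≤ d := by exact_mod_cast hd
    have h2 : ((A : ℝ) + 1) ^ d ≤ x ^ (κ₀ * d) := by
      calc ((A : ℝ) + 1) ^ d ≤ (x ^ κ₀) ^ d := pow_le_pow_left₀ (by positivity) hA _
        _ = x ^ (κ₀ * d) := by
          rw [← Real.rpow_natCast, ← Real.rpow_mul hx0.le]
    have h3 : (1 : ℝ) ≤ x ^ (κ₀ * d) := Real.one_le_rpow (by linarith) (by positivity)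
    have h4 : (x ^ (2 / 3 : ℝ)) ^ (2 * κ₀ * d) ≤ (⌈x ^ (2 / 3 : ℝ)⌉₊ : ℝ) ^ (2 * κ₀ * d) :=
      Real.rpow_le_rpow (by positivity) (Nat.le_ceil _) (by positivity)
    have h5 : (x ^ (2 / 3 : ℝ)) ^ (2 * κ₀ * d) = x ^ (κ₀ * d) * x ^ (κ₀ * d * (1 / 3)) := by
      rw [← Real.rpow_mul hx0.le, ← Real.rpow_add hx0]
      congr 1
      ring
    have h6 : (2 : ℝ) ≤ x ^ (κ₀ * d * (1 / 3)) := by
      have h7 : (1 / 3 : ℝ) ≤ κ₀ * d * (1 / 3) := by nlinarith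
      calc (2 : ℝ) = 8 ^ (1 / 3 : ℝ) := by
            rw [show (8 : ℝ) = 2 ^ (3 : ℝ) by norm_num, ← Real.rpow_mul (by norm_num)]
            norm_num
        _ ≤ x ^ (1 / 3 : ℝ) := Real.rpow_le_rpow (by norm_num) a1 (by norm_num)
        _ ≤ _ := Real.rpow_le_rpow_of_exponent_le (by linarith) h7
    have h7 : x ^ (κ₀ * d) * 2 ≤ x ^ (κ₀ * d) * x ^ (κ₀ * d * (1 / 3)) := by gcongr
    linarith
  · have h2 : ((⌈x ^ (2 / 3 : ℝ)⌉₊ ^ C : ℕ) : ℝ) ≤ ((q ^ u : ℕ) : ℝ) := by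
      push_cast
      calc (⌈x ^ (2 / 3 : ℝ)⌉₊ : ℝ) ^ C ≤ x ^ C := by
            apply pow_le_pow_left₀ (by positivity)
            linarith
        _ ≤ x ^ E := pow_le_pow_right₀ (by linarith) (by omega)
        _ ≤ _ := huE
    exact_mod_cast h2

end Pool.Agent.Lib.MP5b6025.EP
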