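import Pool.Agent.Lib.MP_5b6025_nt.EP.Spec

/-!
# Digit changes: module RAM (Ramsey's theorem)
-/

set_option autoImplicit false

namespace Pool.Agent.Lib.MP5b6025.EP

namespace RAMM

variable {q : ℕ}

/-- `χ` is constant on the `r`-subsets of `H` -/
def Hom (χ : Finset ℕ → Fin (q + 1)) (r : ℕ) (H : Finset ℕ) : Prop :=
  ∀ A ⊆ H, ∀ A' ⊆ H, A.card = r → A'.card = r → χ A = χ A'

theorem Hom.mono {χ : Finset ℕ → Fin (q + 1)} {r : ℕ} {H H' : Finset ℕ} (h : Hom χ r H)
    (hs : H' ⊆ H) : Hom χ r H' :=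
  fun A hA A' hA' => h A (hA.trans hs) A' (hA'.trans hs)

/-- Ramsey's theorem for `r`-subsets -/
def Ram (q r : ℕ) : Prop :=
  ∀ N : ℕ, ∃ M : ℕ, ∀ X : Finset ℕ, M ≤ X.card → ∀ χ : Finset ℕ → Fin (q + 1),
    ∃ H ⊆ X, N ≤ H.card ∧ Hom χ r H

theorem ram_zero : Ram q 0 := by
  intro N
  refine ⟨N, fun X hX χ => ⟨X, Finset.Subset.refl X, hX, ?_⟩⟩
  intro A _ A' _ hA hA'
  rw [Finset.card_eq_zero.1 hA, Finset.card_eq_zero.1 hA']

/-- end-homogeneous sets -/
theorem endhom {r : ℕ} (hr : Ram q r) (t : ℕ) : ∃ M : ℕ, ∀ X : Finset ℕ, M ≤ X.card →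
    ∀ χ : Finset ℕ → Fin (q + 1), ∃ H ⊆ X, t ≤ H.card ∧ ∃ c : ℕ → Fin (q + 1),
      ∀ A ⊆ H, A.card = r + 1 → ∀ a ∈ A, (∀ b ∈ A, a ≤ b) → χ A = c a := by
  induction t with
  | zero =>
    refine ⟨0, fun X _ χ => ⟨∅, Finset.empty_subset X, Nat.zero_le _, fun _ => 0, ?_⟩⟩
    intro A hA hcard
    rw [Finset.subset_empty.1 hA, Finset.card_empty] at hcard
    omega
  | succ t ih =>
    obtain ⟨M, hM⟩ := ih
    obtain ⟨M', hM'⟩ := hr M
    refine ⟨M' + 1, fun X hX χ => ?_⟩
    have hne : X.Nonempty := Finset.card_pos.1 (by omega)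
    set x := X.min' hne with hx
    have hxX : x ∈ X := X.min'_mem hne
    have hcard : M' ≤ (X.erase x).card := by
      rw [Finset.card_erase_of_mem hxX]
      omega
    obtain ⟨Y, hY, hYc, hYh⟩ := hM' (X.erase x) hcard fun B => χ (insert x B)
    obtain ⟨H, hH, hHc, c, hc⟩ := hM Y hYc χ
    have hxH : x ∉ H := fun h => Finset.notMem_erase x X (hY (hH h))
    have hlt : ∀ b ∈ H, x < b := by
      intro b hb
      have h1 := hY (hH hb)
      rw [Finset.mem_erase] at h1
      exact lt_of_le_of_ne (X.min'_le b h1.2) (Ne.symm h1.1)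
    classical
    -- the colour of `x`
    obtain ⟨cx, hcx⟩ : ∃ cx : Fin (q + 1), ∀ B ⊆ Y, B.card = r → χ (insert x B) = cx := by
      by_cases h : ∃ B ⊆ Y, B.card = r
      · obtain ⟨B, hB, hBc⟩ := h
        exact ⟨χ (insert x B), fun B' hB' hB'c => hYh B' hB' B hB hB'c hBc⟩
      · exact ⟨0, fun B hB hBc => absurd ⟨B, hB, hBc⟩ h⟩
    refine ⟨insert x H, ?_, ?_, Function.update c x cx, ?_⟩
    · intro y hy
      rcases Finset.mem_insert.1 hy with rfl | hy
      · exact hxX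
      · exact Finset.mem_of_mem_erase (hY (hH hy))
    · rw [Finset.card_insert_of_notMem hxH]
      omega
    · intro A hA hAc a ha hmin
      by_cases hxA : x ∈ A
      · have hax : a = x := by
          rcases Finset.mem_insert.1 (hA ha) with h | h
          · exact h
          · exact absurd (hmin x hxA) (not_le.2 (hlt a h))
        rw [hax, Function.update_self]
        have h1 : A = insert x (A.erase x) := (Finset.insert_erase hxA).symm
        rw [h1]
        refine hcx _ (fun b hb => ?_) ?_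
        · have h2 := Finset.mem_erase.1 hb
          exact hH ((Finset.mem_insert.1 (hA h2.2)).resolve_left h2.1)
        · rw [Finset.card_erase_of_mem hxA, hAc]
          rfl
      · have hAH : A ⊆ H := fun b hb =>
          (Finset.mem_insert.1 (hA hb)).resolve_left fun h => hxA (h ▸ hb)
        have hax : a ≠ x := fun h => hxA (h ▸ ha)
        rw [Function.update_of_ne hax]
        exact hc A hAH hAc a ha hmin

theorem ram_succ {r : ℕ} (hr : Ram q r) : Ram q (r + 1) := by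
  intro N
  obtain ⟨M, hM⟩ := endhom hr ((q + 1) * N + 1)
  refine ⟨M, fun X hX χ => ?_⟩
  obtain ⟨H, hH, hHc, c, hc⟩ := hM X hX χ
  have hlt : (Finset.univ : Finset (Fin (q + 1))).card * N < H.card := by
    rw [Finset.card_univ, Fintype.card_fin]
    omega
  obtain ⟨y, _, hy⟩ := Finset.exists_lt_card_fiber_of_mul_lt_card_of_maps_to
    (s := H) (t := Finset.univ) (f := c) (fun a _ => Finset.mem_univ _) hlt
  refine ⟨H.filter fun x => c x = y, (Finset.filter_subset _ _).trans hH, hy.le, ?_⟩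
  have key : ∀ A ⊆ H.filter (fun x => c x = y), A.card = r + 1 → χ A = y := by
    intro A hA hAc
    have hne : A.Nonempty := Finset.card_pos.1 (by omega)
    have h1 := hc A (hA.trans (Finset.filter_subset _ _)) hAc (A.min' hne) (A.min'_mem hne)
      fun b hb => A.min'_le b hb
    rw [h1]
    exact (Finset.mem_filter.1 (hA (A.min'_mem hne))).2
  intro A hA A' hA' hAc hAc'
  rw [key A hA hAc, key A' hA' hAc']

theorem ram (r : ℕ) : Ram q r := by
  induction r with
  | zero => exact ram_zero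
  | succ r ih => exact ram_succ ih

theorem ram_all (R : ℕ) : ∀ N : ℕ, ∃ M : ℕ, ∀ X : Finset ℕ, M ≤ X.card →
    ∀ χ : Finset ℕ → Fin (q + 1), ∃ H ⊆ X, N ≤ H.card ∧ ∀ r ≤ R, Hom χ r H := by
  induction R with
  | zero =>
    intro N
    obtain ⟨M, hM⟩ := ram (q := q) 0 N
    refine ⟨M, fun X hX χ => ?_⟩
    obtain ⟨H, h1, h2, h3⟩ := hM X hX χ
    exact ⟨H, h1, h2, fun r hr => (Nat.le_zero.1 hr) ▸ h3⟩
  | succ R ih =>
    intro N
    obtain ⟨M, hM⟩ := ih N
    obtain ⟨M', hM'⟩ := ram (q := q) (R + 1) M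
    refine ⟨M', fun X hX χ => ?_⟩
    obtain ⟨Y, hY, hYc, hYh⟩ := hM' X hX χ
    obtain ⟨H, hH, hHc, hHh⟩ := hM Y hYc χ
    refine ⟨H, hH.trans hY, hHc, fun r hr => ?_⟩
    rcases Nat.lt_or_ge r (R + 1) with h | h
    · exact hHh r (by omega)
    · have h1 : r = R + 1 := le_antisymm hr h
      rw [h1]
      exact hYh.mono hH

end RAMM

open RAMM in
theorem specRAM : SpecRAM := by
  intro R q N
  obtain ⟨M, hM⟩ := ram_all (q := q) R N
  refine ⟨M, fun χ => ?_⟩
  obtain ⟨H, h1, h2, h3⟩ := hM (Finset.range M) (by rw [Finset.card_range]) χ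
  exact ⟨H, h1, h2, fun A hA A' hA' he hR => h3 A.card hR A hA A' hA' rfl he.symm⟩

end Pool.Agent.Lib.MP5b6025.EP
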