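import Pool.Agent.Lib.MP_5b6025_nt.EP.CMP
import Pool.Agent.Lib.MP_5b6025_nt.EP.LF0
import Pool.Agent.Lib.MP_5b6025_nt.DD.Basic
import Pool.Agent.Lib.MP_5b6025_nt.DC.Gaps

/-!
# Module REL: the relation for pairs
-/

set_option autoImplicit false

namespace Pool.Agent.Lib.MP5b6025.EP

namespace RELM

open Finset DD

open Classical in
/-- number of elements of the support -/
theorem card_P {k : Type} [Field k] {S : Set ℕ} {m N A : ℕ} {e : ℕ → k}
    (hsup : ∀ v, e v ≠ 0 → IsSumS S m v) (hA : cnt S N ≤ A) : (Pn e N).card ≤ (A + 1) ^ m := by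
  have h1 : Pn e N ⊆ DC.GapsM.T ((range (N + 1)).filter (· ∈ S)) m := by
    intro v hv
    unfold Pn at hv
    rw [mem_filter, mem_range] at hv
    obtain ⟨ν, h2, h3, h4⟩ := hsup v hv.2
    rw [← h4]
    refine DC.GapsM.mem_T _ m ν h2 fun x hx => ?_
    rw [mem_filter, mem_range]
    have h5 : x ≤ ν.sum := Multiset.le_sum_of_mem hx
    exact ⟨by omega, h3 x hx⟩
  exact (card_le_card h1).trans (DC.GapsM.card_T _ A hA m)

theorem mem_Pn {k : Type} [Field k] {N v : ℕ} {e : ℕ → k} : v ∈ Pn e N ↔ v ≤ N ∧ e v ≠ 0 := by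
  classical
  unfold Pn
  rw [mem_filter, mem_range]
  constructor
  · rintro ⟨h1, h2⟩; exact ⟨by omega, h2⟩
  · rintro ⟨h1, h2⟩; exact ⟨by omega, h2⟩

/-- good end points -/
theorem good (hGAP : SpecGAP) {S : Set ℕ} {A D K B N : ℕ} (hcnt : cnt S N ≤ A) (hK : 1 ≤ K)
    (hB : 24 * (A + 1) ^ D * (K + 2) ≤ B) (Y : ℕ) (hY : Y + B ^ 2 ≤ N) :
    ∃ X : ℕ, Y ≤ X ∧ X < Y + B ^ 2 ∧ GapS S K D X ∧
      ∀ v : ℕ, IsSumS S D v → v + B ≤ X ∨ X + B ≤ v := by
  set a := (A + 1) ^ D with ha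
  have ha1 : 1 ≤ a := Nat.one_le_pow _ _ (by omega)
  have h1 : 72 * a ≤ B := by nlinarith
  have h2 : 24 * (a * K) ≤ B := by nlinarith
  have h3 : (2 * B + K) * (a + 1) ≤ B ^ 2 := by nlinarith
  obtain ⟨X, hX1, hX2, hX3⟩ := (hGAP S N A D hcnt).1 (2 * B + K) Y (by omega)
    (by rw [← ha]; omega)
  rw [← ha] at hX2
  refine ⟨X + B, by omega, by omega, ?_, ?_⟩
  · intro v hv
    rcases hX3 v hv with h | h
    · left
      push_cast
      omega
    · right
      push_cast at h ⊢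
      omega
  · intro v hv
    rcases hX3 v hv with h | h
    · left
      omega
    · right
      push_cast at h
      omega

/-- the double sum over the support -/
theorem double {k : Type} [Field k] {N X : ℕ} {e : ℕ → k} (hX : X ≤ N + 1) :
    ∑ v ∈ range X, ∑ w ∈ range (X - v), e v * e w =
      ∑ x ∈ (Pn e N ×ˢ Pn e N).filter (fun x : ℕ × ℕ => x.1 + x.2 < X), e x.1 * e x.2 := by
  have h1 : ∀ v ∈ range X, ∑ w ∈ range (X - v), e v * e w =
      ∑ w ∈ range X, if v + w < X then e v * e w else 0 := by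
    intro v hv
    rw [mem_range] at hv
    rw [← sum_filter]
    refine sum_congr ?_ fun _ _ => rfl
    ext w
    rw [mem_filter, mem_range, mem_range]
    omega
  rw [sum_congr rfl h1, ← sum_product', ← sum_filter]
  symm
  refine sum_subset ?_ ?_
  · intro x hx
    rw [mem_filter, mem_product] at hx ⊢
    rw [mem_range, mem_range]
    obtain ⟨_, h2⟩ := hx
    exact ⟨⟨by omega, by omega⟩, h2⟩
  · intro x hx hx'
    rw [mem_filter, mem_product, mem_range, mem_range] at hx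
    rw [mem_filter, mem_product] at hx'
    by_contra hne
    apply hx'
    refine ⟨⟨mem_Pn.2 ⟨by omega, left_ne_zero_of_mul hne⟩,
      mem_Pn.2 ⟨by omega, right_ne_zero_of_mul hne⟩⟩, hx.2⟩

/-- the sum over the support -/
theorem single {k : Type} [Field k] {N X : ℕ} {e : ℕ → k} (hX : X ≤ N + 1) :
    ∑ v ∈ range X, e v = ∑ v ∈ (Pn e N).filter (fun v => v < X), e v := by
  symm
  refine sum_subset ?_ ?_
  · intro v hv
    rw [mem_filter] at hv
    exact mem_range.2 hv.2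
  · intro v hv hv'
    rw [mem_range] at hv
    by_contra hne
    exact hv' (mem_filter.2 ⟨mem_Pn.2 ⟨by omega, hne⟩, hv⟩)

/-- masses of the components between two good points -/
theorem masses {k : Type} [Field k] {P : Finset ℕ} {e : ℕ → k} {τ X₁ X₂ : ℕ}
    (h1 : X₁ = 0 ∨ ∀ v ∈ P, v + τ ≤ X₁ ∨ X₁ ≤ v)
    (h2 : ∀ v ∈ P, v + τ ≤ X₂ ∨ X₂ ≤ v) :
    ∑ v ∈ P.filter (fun v => X₁ ≤ v ∧ v < X₂), e v =
      ∑ c ∈ (Sta P τ).filter (fun c => X₁ ≤ c ∧ c < X₂), mass P e τ c := by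
  -- a good point separates components
  have sep : ∀ X : ℕ, (∀ v ∈ P, v + τ ≤ X ∨ X ≤ v) → ∀ v ∈ P, X ≤ v → X ≤ st P τ v := by
    intro X hX v hv hXv
    have hne : (P.filter fun u => X ≤ u).Nonempty := ⟨v, mem_filter.2 ⟨hv, hXv⟩⟩
    set w := (P.filter fun u => X ≤ u).min' hne with hw
    have hw1 : w ∈ P.filter fun u => X ≤ u := min'_mem _ _
    rw [mem_filter] at hw1
    have hw2 : w ∈ Sta P τ := by
      unfold Sta
      rw [mem_filter]
      refine ⟨hw1.1, fun u hu hlt => ?_⟩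
      rcases hX u hu with h | h
      · omega
      · have := min'_le (P.filter fun u => X ≤ u) u (mem_filter.2 ⟨hu, h⟩)
        omega
    have hw3 : w ≤ v := min'_le _ _ (mem_filter.2 ⟨hv, hXv⟩)
    exact hw1.2.trans (CMPM.le_st hw2 hw3)
  have hmap : ∀ v ∈ P.filter (fun v => X₁ ≤ v ∧ v < X₂),
      st P τ v ∈ (Sta P τ).filter (fun c => X₁ ≤ c ∧ c < X₂) := by
    intro v hv
    rw [mem_filter] at hv ⊢
    refine ⟨CMPM.st_mem hv.1, ?_, (CMPM.st_le _ _ _).trans_lt hv.2.2⟩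
    rcases h1 with h1 | h1
    · omega
    · exact sep X₁ h1 v hv.1 hv.2.1
  rw [← sum_fiberwise_of_maps_to hmap]
  refine sum_congr rfl fun c hc => ?_
  unfold mass
  refine sum_congr ?_ fun _ _ => rfl
  ext v
  rw [mem_filter, mem_filter, mem_filter]
  rw [mem_filter] at hc
  constructor
  · rintro ⟨⟨a1, _⟩, a3⟩
    exact ⟨a1, a3⟩
  · rintro ⟨a1, a3⟩
    refine ⟨⟨a1, ?_, ?_⟩, a3⟩
    · have := CMPM.st_le P τ v
      omega
    · by_contra hn
      have := sep X₂ h2 v a1 (by omega)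
      omega

/-- grouping of the pairs by components -/
theorem group {k : Type} [Field k] {P V : Finset ℕ} {e : ℕ → k} {τ z : ℕ}
    (hst : ∀ v ∈ P, ∀ w ∈ P, st V τ (v + w) = st V τ (st P τ v + st P τ w)) :
    ∑ x ∈ (P ×ˢ P).filter (fun x : ℕ × ℕ => st V τ (x.1 + x.2) = z), e x.1 * e x.2 =
      ∑ x ∈ (Sta P τ ×ˢ Sta P τ).filter (fun x : ℕ × ℕ => st V τ (x.1 + x.2) = z),
        mass P e τ x.1 * mass P e τ x.2 := by
  have hmap : ∀ x ∈ (P ×ˢ P).filter (fun x : ℕ × ℕ => st V τ (x.1 + x.2) = z),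
      ((st P τ x.1, st P τ x.2) : ℕ × ℕ) ∈
        (Sta P τ ×ˢ Sta P τ).filter (fun x : ℕ × ℕ => st V τ (x.1 + x.2) = z) := by
    intro x hx
    rw [mem_filter, mem_product] at hx ⊢
    exact ⟨⟨CMPM.st_mem hx.1.1, CMPM.st_mem hx.1.2⟩, (hst _ hx.1.1 _ hx.1.2) ▸ hx.2⟩
  rw [← sum_fiberwise_of_maps_to hmap]
  refine sum_congr rfl fun y hy => ?_
  rw [mem_filter, mem_product] at hy
  unfold mass
  rw [sum_mul_sum, ← sum_product']
  refine sum_congr ?_ fun _ _ => rfl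
  ext x
  rw [mem_filter, mem_filter, mem_product, mem_product, mem_filter, mem_filter]
  constructor
  · rintro ⟨⟨⟨a1, a2⟩, _⟩, a4⟩
    exact ⟨⟨a1, congrArg Prod.fst a4⟩, ⟨a2, congrArg Prod.snd a4⟩⟩
  · rintro ⟨⟨a1, a2⟩, ⟨a3, a4⟩⟩
    refine ⟨⟨⟨a1, a3⟩, ?_⟩, Prod.ext a2 a4⟩
    rw [hst _ a1 _ a3, a2, a4]
    exact hy.2

end RELM

open RELM LF0M Finset in
theorem specREL (hGAP : DD.SpecGAP) (hC : SpecCMP) (hS : SpecSUM) : SpecREL := by
  classical
  intro k _ S p d D N K A B L e hd hdD hK hJ hcnt hB hL hN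
  set P := Pn e N with hP
  set V := sm 2 P with hV
  -- numerical facts
  have hA1 : 1 ≤ A + 1 := by omega
  have hpa : ∀ i, 1 ≤ (A + 1) ^ i := fun i => Nat.one_le_pow _ _ hA1
  have hB' : 24 * (A + 1) ^ D * (K + 2) ≤ B := by
    refine le_trans (Nat.mul_le_mul_right _ (Nat.mul_le_mul_left _ ?_)) hB
    exact Nat.pow_le_pow_right hA1 (by omega)
  have hV1 : V.card ≤ (A + 1) ^ (2 * D) := by
    refine (hS P 1 2 le_rfl).2.1.trans ?_
    calc P.card ^ 2 ≤ ((A + 1) ^ (d - 1)) ^ 2 := Nat.pow_le_pow_left (card_P hJ.sup hcnt) 2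
      _ = (A + 1) ^ ((d - 1) * 2) := (pow_mul _ _ _).symm
      _ ≤ (A + 1) ^ (2 * D) := Nat.pow_le_pow_right hA1 (by omega)
  have hVB : 72 * V.card ≤ B := by
    have h1 : 24 * (A + 1) ^ (2 * D) * 3 ≤ 24 * (A + 1) ^ (2 * D) * (K + 2) :=
      Nat.mul_le_mul_left _ (by omega)
    have h2 : 24 * (A + 1) ^ (2 * D) * 3 = 72 * (A + 1) ^ (2 * D) := by ring
    have h3 : 72 * V.card ≤ 72 * (A + 1) ^ (2 * D) := Nat.mul_le_mul_left _ hV1
    omega
  have hB72 : 72 ≤ B := by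
    have h1 : 24 * 1 * 3 ≤ 24 * (A + 1) ^ (2 * D) * (K + 2) :=
      Nat.mul_le_mul (Nat.mul_le_mul_left _ (hpa _)) (by omega)
    omega
  have hB1 : 1 ≤ B := by omega
  have hpow : ∀ i, 1 ≤ B ^ i := fun i => Nat.one_le_pow _ _ hB1
  have e12 : 72 * B ≤ B ^ 2 := by
    calc 72 * B ≤ B * B := Nat.mul_le_mul_right _ hB72
      _ = B ^ 2 := by ring
  have e23 : 72 * B ^ 2 ≤ B ^ 3 := by
    calc 72 * B ^ 2 ≤ B * B ^ 2 := Nat.mul_le_mul_right _ hB72
      _ = B ^ 3 := by ring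
  have e34 : 72 * B ^ 3 ≤ B ^ 4 := by
    calc 72 * B ^ 3 ≤ B * B ^ 3 := Nat.mul_le_mul_right _ hB72
      _ = B ^ 4 := by ring
  have eV : 72 * (V.card * B ^ 3) ≤ B ^ 4 := by
    calc 72 * (V.card * B ^ 3) = (72 * V.card) * B ^ 3 := by ring
      _ ≤ B * B ^ 3 := Nat.mul_le_mul_right _ hVB
      _ = B ^ 4 := by ring
  have eL : 72 * B ^ (L - 1) ≤ B ^ L := by
    calc 72 * B ^ (L - 1) ≤ B * B ^ (L - 1) := Nat.mul_le_mul_right _ hB72
      _ = B ^ (L - 1 + 1) := by ring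
      _ = B ^ L := by congr 1; omega
  have e4L : B ^ 4 ≤ B ^ (L - 1) := Nat.pow_le_pow_right hB1 (by omega)
  have eLN : B ^ L ≤ N := (Nat.pow_le_pow_right hB1 (by omega)).trans hN
  have hLL : B ^ L ≤ B ^ (L + 2) := Nat.pow_le_pow_right hB1 (by omega)
  have hcm := hC V (B ^ 3) (hpow 3)
  have hPV : ∀ v ∈ P, ∀ w ∈ P, v + w ∈ V := by
    intro v hv w hw
    rw [hV]
    unfold sm
    refine mem_image.2 ⟨(v, w), mem_product.2 ⟨?_, hw⟩, rfl⟩
    unfold sm
    exact mem_image.2 ⟨(0, v), mem_product.2 ⟨by unfold sm; exact mem_singleton_self 0, hv⟩,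
      zero_add v⟩
  have hst2 : ∀ v ∈ P, ∀ w ∈ P, st V (B ^ 3) (v + w) =
      st V (B ^ 3) (st P (B ^ 3) v + st P (B ^ 3) w) := by
    intro v hv w hw
    have hcP := hC P (B ^ 3) (hpow 3)
    have h1 := (hS P (B ^ 3) 2 (hpow 3)).2.2.1 ![v, w] ![st P (B ^ 3) v, st P (B ^ 3) w]
      (by intro i; fin_cases i <;> simp [hv, hw])
      (by
        intro i
        fin_cases i
        · exact sta_sub (hcP.1 v hv).1
        · exact sta_sub (hcP.1 w hw).1)
      (by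
        intro i
        fin_cases i
        · exact (hcP.2.2.2.1 _ (hcP.1 v hv).1).symm
        · exact (hcP.2.2.2.1 _ (hcP.1 w hw).1).symm)
    simpa [Fin.sum_univ_two] using h1
  refine ⟨(Lf P e B 1 (L + 2)).image fun c => st V (B ^ 3) (c + B ^ 2), card_image_le, ?_⟩
  intro u hu u' hu' huL hu'L hz
  obtain ⟨hu1, hu2, hu3⟩ := lf_mem.1 hu
  obtain ⟨hu1', hu2', hu3'⟩ := lf_mem.1 hu'
  have hy : u + u' ∈ V := hPV u (sta_sub hu1) u' (sta_sub hu1')
  set z := st V (B ^ 3) (u + u') with hzdef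
  have hzS : z ∈ Sta V (B ^ 3) := (hcm.1 _ hy).1
  have hzle : z ≤ u + u' := (hcm.1 _ hy).2
  have hzV : z ∈ V := sta_sub hzS
  have hzz : st V (B ^ 3) z = z := hcm.2.2.2.1 z hzS
  -- the last element
  obtain ⟨ze, hze, hzmax⟩ : ∃ ze ∈ V.filter (fun x => st V (B ^ 3) x = z),
      ∀ x ∈ V.filter (fun x => st V (B ^ 3) x = z), x ≤ ze :=
    exists_max_image (V.filter fun x => st V (B ^ 3) x = z) id
      ⟨z, mem_filter.2 ⟨hzV, hzz⟩⟩
  rw [mem_filter] at hze
  have hzze : z ≤ ze := hzmax z (mem_filter.2 ⟨hzV, hzz⟩)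
  have hzeb : ze < z + V.card * B ^ 3 := hcm.2.2.1 ze hze.1 z hzV (by rw [hze.2, hzz])
  have hzeL : 2 * ze + 2 * B ^ 2 ≤ B ^ L := by omega
  -- the end points
  obtain ⟨X₂, hX21, hX22, hX2g, hX2s⟩ := good hGAP hcnt hK hB' (ze + 1) (by omega)
  obtain ⟨X₁, hX11, hX12, hX1g⟩ : ∃ X₁ : ℕ, X₁ ≤ z ∧ z ≤ X₁ + B ^ 2 ∧ (X₁ = 0 ∨
      (DD.GapS S K D X₁ ∧ ∀ v : ℕ, DD.IsSumS S D v → v + B ≤ X₁ ∨ X₁ + B ≤ v)) := by
    by_cases h : z < B ^ 2
    · exact ⟨0, by omega, by omega, Or.inl rfl⟩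
    · obtain ⟨X, h1, h2, h3, h4⟩ := good hGAP hcnt hK hB' (z - B ^ 2) (by omega)
      exact ⟨X, by omega, by omega, Or.inr ⟨h3, h4⟩⟩
  have hX12' : X₁ ≤ X₂ := by omega
  have hX2N : X₂ ≤ N := by omega
  have hX1N : X₁ ≤ N := by omega
  -- the elements of `V` between the end points
  have hcomp : ∀ x ∈ V, (X₁ ≤ x ∧ x < X₂) ↔ st V (B ^ 3) x = z := by
    intro x hx
    constructor
    · rintro ⟨h1, h2⟩
      have h3 : z ≤ x := by
        by_contra hn
        have := sta_le hzS hx (by omega)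
        omega
      rcases le_or_gt x ze with h4 | h4
      · have h5 := CMPM.st_mono V (B ^ 3) h3
        have h6 := CMPM.st_mono V (B ^ 3) h4
        rw [hzz] at h5
        rw [hze.2] at h6
        omega
      · by_contra hne
        have h5 := hcm.2.1 ze hze.1 x hx h4.le (by rw [hze.2]; exact fun h => hne h.symm)
        omega
    · intro h
      have h1 := hzmax x (mem_filter.2 ⟨hx, h⟩)
      have h2 := (hcm.1 x hx).2
      rw [h] at h2
      omega
  -- the identity at the end points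
  have hid : ∀ X : ℕ, X ≤ N → (X = 0 ∨ DD.GapS S K D X) →
      ∑ x ∈ (P ×ˢ P).filter (fun x : ℕ × ℕ => x.1 + x.2 < X), e x.1 * e x.2 =
        ∑ v ∈ P.filter (fun v => v < X), e v := by
    intro X hX hg
    rw [← double (by omega), ← single (by omega)]
    rcases hg with hg | hg
    · subst hg
      simp
    · exact hJ.idm X hX hg
  have hid1 := hid X₁ hX1N (hX1g.imp id fun h => h.1)
  have hid2 := hid X₂ hX2N (Or.inr hX2g)
  have hL1 : ∑ x ∈ (P ×ˢ P).filter (fun x : ℕ × ℕ => x.1 + x.2 < X₂), e x.1 * e x.2 =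
      ∑ x ∈ (P ×ˢ P).filter (fun x : ℕ × ℕ => x.1 + x.2 < X₁), e x.1 * e x.2 +
      ∑ x ∈ (P ×ˢ P).filter (fun x : ℕ × ℕ => st V (B ^ 3) (x.1 + x.2) = z),
        e x.1 * e x.2 := by
    rw [← sum_union]
    · refine sum_congr ?_ fun _ _ => rfl
      ext x
      rw [mem_union, mem_filter, mem_filter, mem_filter, mem_product]
      constructor
      · rintro ⟨h1, h2⟩
        by_cases h3 : x.1 + x.2 < X₁
        · exact Or.inl ⟨h1, h3⟩
        · exact Or.inr ⟨h1, (hcomp _ (hPV _ h1.1 _ h1.2)).1 ⟨by omega, h2⟩⟩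
      · rintro (⟨h1, h2⟩ | ⟨h1, h2⟩)
        · exact ⟨h1, by omega⟩
        · exact ⟨h1, ((hcomp _ (hPV _ h1.1 _ h1.2)).2 h2).2⟩
    · rw [disjoint_left]
      intro x hx hx'
      rw [mem_filter, mem_product] at hx hx'
      have := ((hcomp _ (hPV _ hx.1.1 _ hx.1.2)).2 hx'.2).1
      omega
  have hL2 : ∑ v ∈ P.filter (fun v => v < X₂), e v =
      ∑ v ∈ P.filter (fun v => v < X₁), e v +
      ∑ v ∈ P.filter (fun v => X₁ ≤ v ∧ v < X₂), e v := by
    rw [← sum_union]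
    · refine sum_congr ?_ fun _ _ => rfl
      ext x
      rw [mem_union, mem_filter, mem_filter, mem_filter]
      constructor
      · rintro ⟨h1, h2⟩
        by_cases h3 : x < X₁
        · exact Or.inl ⟨h1, h3⟩
        · exact Or.inr ⟨h1, by omega, h2⟩
      · rintro (⟨h1, h2⟩ | ⟨h1, h2, h3⟩)
        · exact ⟨h1, by omega⟩
        · exact ⟨h1, h3⟩
    · rw [disjoint_left]
      intro x hx hx'
      rw [mem_filter] at hx hx'
      omega
  have hmain : ∑ x ∈ (P ×ˢ P).filter (fun x : ℕ × ℕ => st V (B ^ 3) (x.1 + x.2) = z),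
      e x.1 * e x.2 = ∑ v ∈ P.filter (fun v => X₁ ≤ v ∧ v < X₂), e v := by
    rw [hid1, hid2, hL2] at hL1
    exact (add_left_cancel hL1).symm
  -- the right side vanishes
  have hPs : ∀ v ∈ P, DD.IsSumS S D v := fun v hv =>
    DD.Basic.isSumS_mono (hJ.sup v (mem_Pn.1 hv).2) (by omega)
  have hright : ∑ v ∈ P.filter (fun v => X₁ ≤ v ∧ v < X₂), e v = 0 := by
    rw [masses (τ := B ^ 1)]
    · refine sum_eq_zero fun c hc => ?_
      rw [mem_filter] at hc
      by_contra hne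
      apply hz
      refine mem_image.2 ⟨c, lf_mem.2 ⟨hc.1, hne, by omega⟩, ?_⟩
      have h1 : z ≤ st V (B ^ 3) (c + B ^ 2) := CMPM.le_st hzS (by omega)
      by_contra hne2
      -- the start of `c + B ^ 2`
      have hgt : z < st V (B ^ 3) (c + B ^ 2) := lt_of_le_of_ne h1 (fun h => hne2 h.symm)
      have hs : st V (B ^ 3) (c + B ^ 2) ∈ Sta V (B ^ 3) := by
        have hne3 : ((Sta V (B ^ 3)).filter (· ≤ c + B ^ 2)).Nonempty :=
          ⟨z, mem_filter.2 ⟨hzS, by omega⟩⟩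
        obtain ⟨w, hw, hw'⟩ := exists_mem_eq_sup _ hne3 id
        unfold st
        rw [hw']
        exact (mem_filter.1 hw).1
      have hle := CMPM.st_le V (B ^ 3) (c + B ^ 2)
      rcases le_or_gt (st V (B ^ 3) (c + B ^ 2)) ze with h4 | h4
      · have h5 := CMPM.le_st hs h4
        rw [hze.2] at h5
        omega
      · have h5 := sta_le hs hze.1 h4
        omega
    · rcases hX1g with h | h
      · exact Or.inl h
      · refine Or.inr fun v hv => ?_
        rcases h.2 v (hPs v hv) with h1 | h1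
        · left; rw [pow_one]; exact h1
        · right; omega
    · intro v hv
      rcases hX2s v (hPs v hv) with h1 | h1
      · left; rw [pow_one]; exact h1
      · right; omega
  rw [hright, group hst2] at hmain
  rw [← hmain]
  refine sum_subset ?_ ?_
  · intro x hx
    rw [mem_filter, mem_product] at hx ⊢
    exact ⟨⟨(lf_mem.1 hx.1.1).1, (lf_mem.1 hx.1.2).1⟩, hx.2⟩
  · intro x hx hx'
    rw [mem_filter, mem_product] at hx
    by_contra hne
    apply hx'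
    have h1 := ((hcomp _ (hPV _ (sta_sub hx.1.1) _ (sta_sub hx.1.2))).2 hx.2).2
    rw [mem_filter, mem_product]
    exact ⟨⟨lf_mem.2 ⟨hx.1.1, left_ne_zero_of_mul hne, by omega⟩,
      lf_mem.2 ⟨hx.1.2, right_ne_zero_of_mul hne, by omega⟩⟩, hx.2⟩

end Pool.Agent.Lib.MP5b6025.EP
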