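import Pool.Agent.Lib.MP_5b6025_nt.EP.Spec

/-!
Problem MP_5b6025_nt, project EP, module SHU: lexicographic shuffles.
-/

set_option autoImplicit false

namespace Pool.Agent.Lib.MP5b6025.EP.SHUM

open Finset

/-- a strictly increasing enumeration of a set of `r` elements is onto -/
lemma eq_image {r n : ℕ} {D : Finset (Fin n)} (hD : D.card = r) {i : Fin r → Fin n}
    (hi : StrictMono i) (hiD : ∀ a, i a ∈ D) : D = univ.image i := by
  symm
  apply Finset.eq_of_subset_of_card_le
  · intro x hx
    obtain ⟨a, -, rfl⟩ := Finset.mem_image.1 hx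
    exact hiD a
  · rw [Finset.card_image_of_injective _ hi.injective, Finset.card_univ, Fintype.card_fin, hD]

/-- the rank of `i a` is `a` -/
lemma rank_eq {r n : ℕ} {D : Finset (Fin n)} (hD : D.card = r) {i : Fin r → Fin n}
    (hi : StrictMono i) (hiD : ∀ a, i a ∈ D) (a : Fin r) :
    (D.filter (· < i a)).card = a := by
  have h : D.filter (· < i a) = (Finset.Iio a).image i := by
    ext x
    simp only [Finset.mem_filter, Finset.mem_image, Finset.mem_Iio]
    constructor
    · rintro ⟨hx, hxa⟩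
      rw [eq_image hD hi hiD] at hx
      obtain ⟨b, -, rfl⟩ := Finset.mem_image.1 hx
      exact ⟨b, hi.lt_iff_lt.1 hxa, rfl⟩
    · rintro ⟨b, hb, rfl⟩
      exact ⟨hiD b, hi hb⟩
  rw [h, Finset.card_image_of_injective _ hi.injective, Fin.card_Iio]

/-- `w` extended by `0` -/
def ex {r : ℕ} (w : Fin r → ℕ) (n : ℕ) : ℕ := if h : n < r then w ⟨n, h⟩ else 0

/-- the shuffle of `w` and `w` with pattern `D` -/
def sh {r n : ℕ} (w : Fin r → ℕ) (D : Finset (Fin n)) (x : Fin n) : ℕ :=
  if x ∈ D then ex w (D.filter (· < x)).card else ex w (Dᶜ.filter (· < x)).card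

lemma sh_in {r n : ℕ} (w : Fin r → ℕ) {D : Finset (Fin n)} (hD : D.card = r) {i : Fin r → Fin n}
    (hi : StrictMono i) (hiD : ∀ a, i a ∈ D) (a : Fin r) : sh w D (i a) = w a := by
  rw [sh, if_pos (hiD a), rank_eq hD hi hiD a, ex, dif_pos a.2]

lemma sh_out {r n : ℕ} (w : Fin r → ℕ) {D : Finset (Fin n)} (hD : Dᶜ.card = r) {j : Fin r → Fin n}
    (hj : StrictMono j) (hjD : ∀ a, j a ∉ D) (a : Fin r) : sh w D (j a) = w a := by
  rw [sh, if_neg (hjD a), rank_eq hD hj (fun a => Finset.mem_compl.2 (hjD a)) a, ex, dif_pos a.2]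

/-- if `f' < f` at the place `i a` for the first time then `w < f ∘ i` -/
lemma lex_lt {r n : ℕ} {w : Fin r → ℕ} {f f' : Fin n → ℕ} {i : Fin r → Fin n} (hi : StrictMono i)
    (hf : ∀ a, f' (i a) = w a) {a : Fin r} (h1 : ∀ y, y < i a → f' y = f y)
    (h2 : f' (i a) < f (i a)) : toLex w < toLex (fun a => f (i a)) := by
  refine ⟨a, fun b hb => ?_, ?_⟩
  · change w b = f (i b)
    rw [← hf b, h1 _ (hi hb)]
  · change w a < f (i a)
    rw [← hf a]; exact h2

end Pool.Agent.Lib.MP5b6025.EP.SHUM

namespace Pool.Agent.Lib.MP5b6025.EP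

open Finset SHUM

theorem specSHU : SpecSHU := by
  intro r w
  have hne : (Finset.powersetCard r (univ : Finset (Fin (2 * r)))).Nonempty := by
    rw [Finset.powersetCard_nonempty, Finset.card_univ, Fintype.card_fin]
    omega
  obtain ⟨D, hD, hmax⟩ := Finset.exists_max_image _
    (fun D : Finset (Fin (2 * r)) => toLex (sh w D)) hne
  have hDc : D.card = r := (Finset.mem_powersetCard.1 hD).2
  have hcc : ∀ E : Finset (Fin (2 * r)), E.card + Eᶜ.card = 2 * r := by
    intro E
    rw [Finset.card_add_card_compl, Fintype.card_fin]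
  refine ⟨D, hDc, ?_⟩
  intro f i j hi hj hiD hjD hfi hfj D' i' j' hi' hj' hiD' hjD' hle1 hle2
  have hD'1 : r ≤ D'.card := by
    have := Finset.card_le_card (s := univ.image i') (t := D') (by
      intro x hx
      obtain ⟨a, -, rfl⟩ := Finset.mem_image.1 hx
      exact hiD' a)
    rwa [Finset.card_image_of_injective _ hi'.injective, Finset.card_univ,
      Fintype.card_fin] at this
  have hD'2 : r ≤ D'ᶜ.card := by
    have := Finset.card_le_card (s := univ.image j') (t := D'ᶜ) (by
      intro x hx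
      obtain ⟨a, -, rfl⟩ := Finset.mem_image.1 hx
      exact Finset.mem_compl.2 (hjD' a))
    rwa [Finset.card_image_of_injective _ hj'.injective, Finset.card_univ,
      Fintype.card_fin] at this
  have e1 := hcc D'
  have e2 := hcc D
  have hD'c : D'.card = r := by omega
  have hD'cc : D'ᶜ.card = r := by omega
  have hDcc : Dᶜ.card = r := by omega
  -- f is the shuffle with pattern D
  have hf : f = sh w D := by
    funext x
    by_cases hx : x ∈ D
    · rw [eq_image hDc hi hiD] at hx
      obtain ⟨a, -, rfl⟩ := Finset.mem_image.1 hx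
      rw [hfi, sh_in w hDc hi hiD]
    · have hx' := Finset.mem_compl.2 hx
      rw [eq_image hDcc hj (fun a => Finset.mem_compl.2 (hjD a))] at hx'
      obtain ⟨a, -, rfl⟩ := Finset.mem_image.1 hx'
      rw [hfj, sh_out w hDcc hj hjD]
  have hge : toLex (sh w D') ≤ toLex f := by
    rw [hf]
    exact hmax D' (Finset.mem_powersetCard.2 ⟨Finset.subset_univ _, hD'c⟩)
  have hin := sh_in w hD'c hi' hiD'
  have hout := sh_out w hD'cc hj' hjD'
  rcases hge.lt_or_eq with hlt | heq
  · exfalso
    obtain ⟨x, hx1, hx2⟩ := hlt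
    have hx1' : ∀ y, y < x → sh w D' y = f y := hx1
    have hx2' : sh w D' x < f x := hx2
    by_cases hx : x ∈ D'
    · rw [eq_image hD'c hi' hiD'] at hx
      obtain ⟨a, -, rfl⟩ := Finset.mem_image.1 hx
      exact absurd hle1 (not_le.2 (lex_lt hi' hin hx1' hx2'))
    · have hx' := Finset.mem_compl.2 hx
      rw [eq_image hD'cc hj' (fun a => Finset.mem_compl.2 (hjD' a))] at hx'
      obtain ⟨a, -, rfl⟩ := Finset.mem_image.1 hx'
      exact absurd hle2 (not_le.2 (lex_lt hj' hout hx1' hx2'))
  · have heq' : sh w D' = f := toLex.injective heq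
    rw [heq'] at hin hout
    exact ⟨hin, hout⟩

end Pool.Agent.Lib.MP5b6025.EP
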