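import Pool.Agent.Lib.MP_5b6025_nt.EP.SpecI
import Pool.Agent.Lib.MP_5b6025_nt.EP.CMP
import Pool.Agent.Lib.MP_5b6025_nt.DD.Basic
import Pool.Agent.Lib.MP_5b6025_nt.DD.Gap

/-!
# Module SIM: self-similarity
-/

set_option autoImplicit false

namespace Pool.Agent.Lib.MP5b6025.EP

namespace SIMM

open DD DD.Basic CMPM

/-- Good points in a finite set of candidates (compare `DD.GapM.exists_good`). -/
theorem exists_good {S : Set ℕ} {N A m : ℕ} (hA : cnt S N ≤ A) (K : ℕ) (M Ys : Finset ℕ)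
    (hM : ∀ μ ∈ M, 1 ≤ μ ∧ ∀ Y ∈ Ys, μ * Y + K ≤ N)
    (hG : M.card * ((A + 1) ^ m * K) < Ys.card) :
    ∃ Y ∈ Ys, ∀ μ ∈ M, GapS S K m ((μ * Y : ℕ) : ℤ) := by
  classical
  by_contra hcon
  push Not at hcon
  have h1 : ∀ Y : ℕ, ∃ p : ℕ × ℕ, Y ∈ Ys →
      p.1 ∈ M ∧ IsSumS S m p.2 ∧ p.1 * Y ≤ p.2 ∧ p.2 < p.1 * Y + K := by
    intro Y
    by_cases h : Y ∈ Ys
    · obtain ⟨μ, hμ, hg⟩ := hcon Y h
      unfold GapS at hg
      push Not at hg
      obtain ⟨v, hv, h2, h3⟩ := hg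
      refine ⟨(μ, v), fun _ => ⟨hμ, hv, ?_, ?_⟩⟩
      · exact_mod_cast h2
      · exact_mod_cast h3
    · exact ⟨(0, 0), fun h1 => absurd h1 h⟩
  choose p hp using h1
  set S' := (Finset.range (N + 1)).filter (· ∈ S) with hS'
  have hmaps : ∀ Y ∈ Ys, ((p Y).1, (p Y).2, (p Y).2 - (p Y).1 * Y) ∈
      M ×ˢ (DC.GapsM.T S' m ×ˢ Finset.range K) := by
    intro Y hY
    obtain ⟨h1, h2, h3, h4⟩ := hp Y hY
    obtain ⟨h5, h6⟩ := hM _ h1
    have h7 := h6 Y hY
    rw [Finset.mem_product, Finset.mem_product, Finset.mem_range]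
    refine ⟨h1, GapM.mem_T h2 ?_, ?_⟩
    · change (p Y).2 ≤ N
      omega
    · change (p Y).2 - (p Y).1 * Y < K
      omega
  have hinj : Set.InjOn (fun Y => ((p Y).1, (p Y).2, (p Y).2 - (p Y).1 * Y))
      (Ys : Set ℕ) := by
    intro Y hY Z hZ h
    obtain ⟨h1, -, h3, -⟩ := hp Y (Finset.mem_coe.1 hY)
    obtain ⟨h1', -, h3', -⟩ := hp Z (Finset.mem_coe.1 hZ)
    simp only [Prod.mk.injEq] at h
    obtain ⟨e1, e2, e3⟩ := h
    have h4 : (p Y).1 * Y = (p Z).1 * Z := by omega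
    rw [← e1] at h4
    exact Nat.eq_of_mul_eq_mul_left (hM _ h1).1 h4
  have hc := Finset.card_le_card_of_injOn _ hmaps hinj
  rw [Finset.card_product, Finset.card_product, Finset.card_range] at hc
  have hT : (DC.GapsM.T S' m).card ≤ (A + 1) ^ m := DC.GapsM.card_T S' A hA m
  have h9 : M.card * ((DC.GapsM.T S' m).card * K) ≤ M.card * ((A + 1) ^ m * K) :=
    Nat.mul_le_mul_left _ (Nat.mul_le_mul_right _ hT)
  omega

variable {k : Type} [Field k]

theorem mem_Pn {e : ℕ → k} {N v : ℕ} : v ∈ Pn e N ↔ v ≤ N ∧ e v ≠ 0 := by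
  classical
  unfold Pn
  rw [Finset.mem_filter, Finset.mem_range, Nat.lt_succ_iff]

theorem card_Pn {S : Set ℕ} {N A m : ℕ} (hA : cnt S N ≤ A) {e : ℕ → k}
    (he : ∀ v, e v ≠ 0 → IsSumS S m v) : (Pn e N).card ≤ (A + 1) ^ m := by
  classical
  have h1 : Pn e N ⊆ DC.GapsM.T ((Finset.range (N + 1)).filter (· ∈ S)) m := by
    intro v hv
    rw [mem_Pn] at hv
    exact GapM.mem_T (he v hv.2) hv.1
  exact (Finset.card_le_card h1).trans (DC.GapsM.card_T _ A hA m)

/-- Partial sums as sums over `Pn`. -/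
theorem sum_range_eq (e : ℕ → k) {N X : ℕ} (hX : X ≤ N + 1) :
    ∑ v ∈ Finset.range X, e v = ∑ v ∈ (Pn e N).filter (· < X), e v := by
  classical
  symm
  apply Finset.sum_subset_zero_on_sdiff
  · intro v hv
    rw [Finset.mem_filter] at hv
    exact Finset.mem_range.2 hv.2
  · intro v hv
    rw [Finset.mem_sdiff, Finset.mem_range, Finset.mem_filter, mem_Pn] at hv
    by_contra h
    exact hv.2 ⟨⟨by omega, h⟩, hv.1⟩
  · intro v _
    rfl

theorem sum_sub_eq (e : ℕ → k) {N X Y : ℕ} (hXY : X ≤ Y) (hY : Y ≤ N + 1) :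
    ∑ v ∈ Finset.range Y, e v - ∑ v ∈ Finset.range X, e v =
      ∑ v ∈ (Pn e N).filter (fun v => X ≤ v ∧ v < Y), e v := by
  classical
  rw [sum_range_eq e hY, sum_range_eq e (hXY.trans hY), sub_eq_iff_eq_add,
    ← Finset.sum_union]
  · apply Finset.sum_congr _ fun _ _ => rfl
    ext v
    simp only [Finset.mem_filter, Finset.mem_union]
    constructor
    · rintro ⟨h1, h2⟩
      by_cases h : X ≤ v
      · exact Or.inl ⟨h1, h, h2⟩
      · exact Or.inr ⟨h1, by omega⟩
    · rintro (⟨h1, h2, h3⟩ | ⟨h1, h2⟩)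
      · exact ⟨h1, h3⟩
      · exact ⟨h1, by omega⟩
  · rw [Finset.disjoint_left]
    intro v h1 h2
    rw [Finset.mem_filter] at h1 h2
    omega

theorem pow_fix {p f : ℕ} (h : ∀ x : k, x ^ p ^ f = x) (x : k) (m : ℕ) :
    x ^ p ^ (f * m) = x := by
  induction m with
  | zero => simp
  | succ m ih =>
    rw [Nat.mul_succ, pow_add, pow_mul, ih, h]

/-- Iterated Frobenius. -/
theorem fro_iter {S : Set ℕ} {p d D N K : ℕ} {e : ℕ → k} (hJ : Jump S p d D N K e) (hp : 1 ≤ p)
    {X : ℕ} : ∀ n : ℕ, p ^ n * X ≤ N →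
      (∀ s, 1 ≤ s → s ≤ n → GapS S K D ((p ^ s * X : ℕ) : ℤ)) →
      ∑ v ∈ Finset.range (p ^ n * X), e v = (∑ v ∈ Finset.range X, e v) ^ p ^ n := by
  intro n
  induction n with
  | zero => intro _ _; simp
  | succ n ih =>
    intro h1 h2
    have e1 : p ^ (n + 1) * X = p * (p ^ n * X) := by rw [pow_succ]; ring
    have h3 : p ^ n * X ≤ p * (p ^ n * X) := Nat.le_mul_of_pos_left _ hp
    have h4 := hJ.fro (p ^ n * X) (by rw [← e1]; exact h1) (by
      rw [← e1]
      exact h2 (n + 1) (by omega) le_rfl)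
    rw [e1, h4, ih (by omega) fun s hs1 hs2 => h2 s hs1 (by omega), ← pow_mul, ← pow_succ]

/-- Two elements on different sides of an empty interval are in different components. -/
theorem sep {V : Finset ℕ} {τ x y Y : ℕ} (hy : y ∈ V) (hxY : x < Y) (hYy : Y ≤ y)
    (h : ∀ w ∈ V, w < Y → w + τ ≤ Y) : st V τ x ≠ st V τ y := by
  intro heq
  have hne : (V.filter fun u => Y ≤ u).Nonempty := ⟨y, Finset.mem_filter.2 ⟨hy, hYy⟩⟩
  set u' := (V.filter fun u => Y ≤ u).min' hne with hu'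
  have hm := Finset.min'_mem _ hne
  rw [← hu', Finset.mem_filter] at hm
  have hle : u' ≤ y := Finset.min'_le _ _ (Finset.mem_filter.2 ⟨hy, hYy⟩)
  refine no_start (w := u') heq ?_ (by omega) hle
  unfold Sta
  rw [Finset.mem_filter]
  refine ⟨hm.1, fun u hu hlt => ?_⟩
  have h1 : u < Y := by
    by_contra h1
    have h2 : u ∈ V.filter fun u => Y ≤ u := Finset.mem_filter.2 ⟨hu, by omega⟩
    have := Finset.min'_le _ _ h2
    rw [← hu'] at this
    omega
  have := h u hu h1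
  omega

/-- Few multiples of `b` are close to `P`. -/
theorem card_bad (P Ys : Finset ℕ) (b τ ρ : ℕ) (hb : 1 ≤ b) (hτ : τ ≤ b * ρ) :
    (Ys.filter fun Y => ∃ w ∈ P, w < b * Y ∧ b * Y < w + τ).card ≤ P.card * ρ := by
  classical
  have h1 : (Ys.filter fun Y => ∃ w ∈ P, w < b * Y ∧ b * Y < w + τ) ⊆
      P.biUnion fun w => Finset.Ioc (w / b) (w / b + ρ) := by
    intro Y hY
    rw [Finset.mem_filter] at hY
    obtain ⟨_, w, hw, h2, h3⟩ := hY
    rw [Finset.mem_biUnion]
    refine ⟨w, hw, ?_⟩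
    rw [Finset.mem_Ioc]
    have h4 := Nat.div_add_mod w b
    have h5 := Nat.mod_lt w (by omega : b > 0)
    constructor
    · exact (Nat.div_lt_iff_lt_mul (by omega)).2 (by rw [mul_comm]; exact h2)
    · have h6 : b * Y < b * (w / b + ρ + 1) := by
        have : b * (w / b + ρ + 1) = b * (w / b) + b * ρ + b := by ring
        omega
      have h7 := Nat.lt_of_mul_lt_mul_left h6
      omega
  refine (Finset.card_le_card h1).trans ?_
  refine (Finset.card_biUnion_le_card_mul _ _ ρ fun w _ => ?_)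
  rw [Nat.card_Ioc]
  omega

end SIMM

open SIMM DD DD.Basic CMPM in
theorem specSIM : SpecSIM := by
  intro k _ S p f u d D N K A B e hp hf hu hd hdD hK hJ hpf hB hA hbig
  classical
  intro i j i' c hi hj hi' hij hc hmass hN
  set P := Pn e N with hP
  set a := (A + 1) ^ D with ha
  have hcard : P.card ≤ a := by
    refine (card_Pn (N := N) hA hJ.sup).trans ?_
    exact Nat.pow_le_pow_right (by omega) (by omega)
  have ha1 : 1 ≤ a := Nat.one_le_pow _ _ (by omega)
  set Lg := Nat.log 2 N with hLg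
  have hB1 : 24 * (Lg + 2) * a * (K + 2) ≤ B := hbig
  have hB2 : 24 ≤ B := by
    refine le_trans ?_ hB1
    have h1 : 1 ≤ (Lg + 2) * a * (K + 2) := Nat.mul_pos (Nat.mul_pos (by omega) ha1) (by omega)
    calc 24 = 24 * 1 := rfl
      _ ≤ 24 * ((Lg + 2) * a * (K + 2)) := Nat.mul_le_mul_left _ h1
      _ = 24 * (Lg + 2) * a * (K + 2) := by ring
  have hB0 : 0 < B := by omega
  have hcP : c ∈ P := sta_mem hc
  -- powers of `B`
  obtain ⟨i₁, rfl⟩ : ∃ i₁, i = i₁ + 1 := ⟨i - 1, by omega⟩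
  set b := B ^ i₁ with hb
  have hb1 : 1 ≤ b := Nat.one_le_pow _ _ hB0
  have hbi : B ^ (i₁ + 1) = B * b := by rw [pow_succ]; ring
  have hbi2 : B ^ (i₁ + 1 + 1) = B * (B * b) := by rw [pow_succ, pow_succ]; ring
  set β := B ^ j with hβ
  have hβ1 : B ≤ β := by
    have := Nat.pow_le_pow_right hB0 hj
    rwa [pow_one] at this
  have hi'2 : B ^ i' ≤ β * b := by
    rw [hβ, hb, ← pow_add]
    exact Nat.pow_le_pow_right hB0 (by omega)
  have hij2 : B ^ (i₁ + 1 + j) = β * (B * b) := by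
    rw [pow_add, hbi]
    ring
  rw [hij2]
  rw [hbi2] at hN
  -- the component and its last element
  set Cc := P.filter (fun v => st P (B ^ (i₁ + 1)) v = c) with hCc
  have hstc : st P (B ^ (i₁ + 1)) c = c :=
    le_antisymm (st_le _ _ _) (le_st hc le_rfl)
  have hCne : Cc.Nonempty := ⟨c, by rw [hCc, Finset.mem_filter]; exact ⟨hcP, hstc⟩⟩
  set ce := Cc.max' hCne with hce
  have hcem : ce ∈ Cc := Finset.max'_mem _ _
  rw [hCc, Finset.mem_filter] at hcem
  have hcce : c ≤ ce := by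
    apply Finset.le_max'
    rw [hCc, Finset.mem_filter]
    exact ⟨hcP, hstc⟩
  have hspec := specCMP P (B ^ (i₁ + 1)) (Nat.one_le_pow _ _ hB0)
  have hce2 : ce < c + P.card * (B * b) := by
    have := hspec.2.2.1 ce hcem.1 c hcP (by rw [hcem.2, hstc])
    rwa [hbi] at this
  have hkey : 24 * (Lg + 2) * a * (K + 2) * b ≤ B * b := Nat.mul_le_mul_right b hB1
  have hPb : P.card * b ≤ a * b := Nat.mul_le_mul_right b hcard
  -- number of steps
  set n := f * (u * j) with hn
  have hβn : β = p ^ n := by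
    rw [hβ, hB, ← pow_mul, hn]
    congr 1
    ring
  have hβN : β ≤ N := by
    refine le_trans ?_ hN
    refine Nat.le_mul_of_pos_right _ ?_
    have : 0 < B * (B * b) := Nat.mul_pos hB0 (Nat.mul_pos hB0 hb1)
    omega
  have hnL : n ≤ Lg := by
    have h1 : 2 ^ n ≤ N := (Nat.pow_le_pow_left hp n).trans (hβn ▸ hβN)
    exact Nat.le_log_of_pow_le (by omega) h1
  have hN0 : N ≠ 0 := by
    have : 24 ≤ β := hB2.trans hβ1
    omega
  -- choice of good points
  have hgood : ∀ y G : ℕ, G = B * b / 3 → y + G ≤ ce + B * b →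
      ∃ X : ℕ, y < X ∧ X ≤ y + G ∧ (∀ s, 1 ≤ s → s ≤ n → GapS S K D ((p ^ s * X : ℕ) : ℤ)) ∧
        ∀ w ∈ P, w < β * X → w + B ^ i' ≤ β * X := by
    intro y G hG hyG
    set bad := (Finset.Ioc y (y + G)).filter
      (fun Y => ∃ w ∈ P, w < β * Y ∧ β * Y < w + B ^ i') with hbad
    have hbc : bad.card ≤ a * b :=
      (card_bad P _ β (B ^ i') b (by omega) hi'2).trans hPb
    set Ys := Finset.Ioc y (y + G) \ bad with hYs
    have hYc : G ≤ Ys.card + a * b := by
      have h1 : (Finset.Ioc y (y + G)).card ≤ Ys.card + bad.card := by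
        exact Finset.card_le_card_sdiff_add_card (t := bad) (s := Finset.Ioc y (y + G))
      rw [Nat.card_Ioc] at h1
      omega
    set M := (Finset.Icc 1 n).image (fun s => p ^ s) with hM
    have hMc : M.card ≤ Lg := by
      refine Finset.card_image_le.trans ?_
      rw [Nat.card_Icc]
      omega
    have h3 : M.card * (a * K) < Ys.card := by
      have h4 : M.card * (a * K) ≤ Lg * (a * K) := Nat.mul_le_mul_right _ hMc
      have h5 : B * b < 3 * (G + 1) := by
        rw [hG]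
        omega
      have h6 : 24 * (Lg + 2) * a * (K + 2) * b =
          24 * (Lg * (a * K)) * b + 48 * (Lg * a) * b + 48 * (a * K) * b + 96 * (a * b) := by ring
      have h7 : Lg * (a * K) ≤ Lg * (a * K) * b := Nat.le_mul_of_pos_right _ hb1
      have h8 : 24 * (Lg * (a * K)) * b = 24 * (Lg * (a * K) * b) := by ring
      have h9 : 1 ≤ a * b := Nat.mul_pos ha1 hb1
      omega
    obtain ⟨X, hX, hXg⟩ := exists_good (m := D) hA K M Ys (by
      intro μ hμ
      rw [hM, Finset.mem_image] at hμ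
      obtain ⟨s, hs, rfl⟩ := hμ
      rw [Finset.mem_Icc] at hs
      refine ⟨Nat.one_le_pow _ _ (by omega), fun Y hY => ?_⟩
      rw [hYs, Finset.mem_sdiff, Finset.mem_Ioc] at hY
      have h4 : p ^ s ≤ β := by
        rw [hβn]
        exact Nat.pow_le_pow_right (by omega) hs.2
      have h5 : p ^ s * Y + K ≤ β * (Y + K) := by
        rw [Nat.mul_add]
        exact Nat.add_le_add (Nat.mul_le_mul_right _ h4)
          (Nat.le_mul_of_pos_left _ (by omega))
      refine h5.trans (le_trans (Nat.mul_le_mul_left _ ?_) hN)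
      -- `Y + K ≤ c + B (B b)`
      have h6 : P.card * (B * b) ≤ a * (B * b) := Nat.mul_le_mul_right _ hcard
      have h7 : 24 * (Lg + 2) * a * (K + 2) * (B * b) ≤ B * (B * b) :=
        Nat.mul_le_mul_right _ hB1
      have h8 : 24 * (Lg + 2) * a * (K + 2) * (B * b) =
          (24 * (Lg + 2) * a * (K + 1)) * (B * b) + 24 * Lg * a * (B * b) +
            48 * (a * (B * b)) := by ring
      have h9 : K + 1 ≤ 24 * (Lg + 2) * a * (K + 1) :=
        Nat.le_mul_of_pos_left _ (Nat.mul_pos (by omega) ha1)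
      have h10 : K + 1 ≤ (24 * (Lg + 2) * a * (K + 1)) * (B * b) :=
        h9.trans (Nat.le_mul_of_pos_right _ (Nat.mul_pos hB0 hb1))
      have h11 : B * b ≤ a * (B * b) := Nat.le_mul_of_pos_left _ ha1
      omega) h3
    rw [hYs, Finset.mem_sdiff, Finset.mem_Ioc] at hX
    refine ⟨X, hX.1.1, hX.1.2, ?_, ?_⟩
    · intro s hs1 hs2
      refine hXg (p ^ s) ?_
      rw [hM]
      exact Finset.mem_image.2 ⟨s, Finset.mem_Icc.2 ⟨hs1, hs2⟩, rfl⟩
    · intro w hw hlt
      by_contra hlt2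
      apply hX.2
      rw [hbad, Finset.mem_filter, Finset.mem_Ioc]
      exact ⟨hX.1, w, hw, hlt, by omega⟩
  have hfix : ∀ X : ℕ, X ≤ ce + B * b → (∀ s, 1 ≤ s → s ≤ n → GapS S K D ((p ^ s * X : ℕ) : ℤ)) →
      β * X ≤ N → ∑ v ∈ Finset.range (β * X), e v = ∑ v ∈ Finset.range X, e v := by
    intro X _ hg hle
    rw [hβn] at hle ⊢
    rw [fro_iter hJ (by omega) n hle hg, hn, pow_fix hpf]
  -- the right end point
  obtain ⟨X₂, hX2a, hX2b, hX2g, hX2s⟩ := hgood ce _ rfl (by omega)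
  have hceN : ce + B * b ≤ c + B * (B * b) := by
    have h6 : P.card * (B * b) ≤ a * (B * b) := Nat.mul_le_mul_right _ hcard
    have h7 : 24 * (Lg + 2) * a * (K + 2) * (B * b) ≤ B * (B * b) := Nat.mul_le_mul_right _ hB1
    have h8 : 24 * (Lg + 2) * a * (K + 2) * (B * b) =
        24 * Lg * a * (K + 2) * (B * b) + 48 * a * K * (B * b) + 96 * (a * (B * b)) := by ring
    have h11 : B * b ≤ a * (B * b) := Nat.le_mul_of_pos_left _ ha1
    omega
  have hX2N : β * X₂ ≤ N := by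
    refine le_trans (Nat.mul_le_mul_left _ ?_) hN
    have : B * b / 3 ≤ B * b := Nat.div_le_self _ _
    omega
  have hX2X : X₂ ≤ β * X₂ := Nat.le_mul_of_pos_left _ (by omega)
  have hW2 := hfix X₂ (by omega) hX2g hX2N
  -- the left end point
  have hleft : ∃ X₁ : ℕ, X₁ ≤ c ∧ 3 * c ≤ 3 * X₁ + B * b ∧
      (∀ v ∈ P, X₁ ≤ v → v < c → False) ∧
      (∑ v ∈ Finset.range (β * X₁), e v = ∑ v ∈ Finset.range X₁, e v) ∧
      ∀ w ∈ P, w < β * X₁ → w + B ^ i' ≤ β * X₁ := by
    by_cases h3c : 3 * c < B * b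
    · refine ⟨0, Nat.zero_le _, by omega, ?_, by simp, ?_⟩
      · intro v hv _ hvc
        have := sta_le hc hv hvc
        rw [hbi] at this
        omega
      · intro w _ hw
        simp at hw
    · obtain ⟨X₁, h1, h2, h3, h4⟩ := hgood (c - B * b / 3) _ rfl (by omega)
      have h5 : X₁ ≤ c := by omega
      refine ⟨X₁, h5, by omega, ?_, hfix X₁ (by omega) h3 ?_, h4⟩
      · intro v hv h6 h7
        have := sta_le hc hv h7
        rw [hbi] at this
        omega
      · exact (Nat.mul_le_mul_left _ (by omega : X₁ ≤ X₂)).trans hX2N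
  obtain ⟨X₁, hX1c, hX1d, hX1e, hW1, hX1s⟩ := hleft
  have hX12 : X₁ ≤ X₂ := by omega
  -- the mass is the difference
  have hdiff1 : ∑ v ∈ Finset.range X₂, e v - ∑ v ∈ Finset.range X₁, e v =
      mass P e (B ^ (i₁ + 1)) c := by
    rw [sum_sub_eq e hX12 (by omega : X₂ ≤ N + 1)]
    unfold mass
    apply Finset.sum_congr _ fun _ _ => rfl
    ext v
    rw [Finset.mem_filter, Finset.mem_filter]
    constructor
    · rintro ⟨hv, h1, h2⟩
      refine ⟨hv, ?_⟩
      have h3 : c ≤ v := by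
        by_contra h3
        exact hX1e v hv h1 (by omega)
      have h4 : c ≤ st P (B ^ (i₁ + 1)) v := le_st hc h3
      rcases le_total v ce with h5 | h5
      · have h6 := st_mono P (B ^ (i₁ + 1)) h5
        rw [hcem.2] at h6
        omega
      · by_contra h6
        have h7 := hspec.2.1 ce hcem.1 v hv h5 (by rw [hcem.2]; exact fun h => h6 h.symm)
        rw [hbi] at h7
        omega
    · rintro ⟨hv, h1⟩
      refine ⟨hv, ?_, ?_⟩
      · have := st_le P (B ^ (i₁ + 1)) v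
        omega
      · have h2 : v ≤ ce := by
          apply Finset.le_max'
          rw [hCc, Finset.mem_filter]
          exact ⟨hv, h1⟩
        omega
  have hdiff2 : ∑ v ∈ P.filter (fun v => β * X₁ ≤ v ∧ v < β * X₂), e v ≠ 0 := by
    rw [← sum_sub_eq e (Nat.mul_le_mul_left _ hX12) (by omega : β * X₂ ≤ N + 1), hW1, hW2, hdiff1]
    exact hmass
  -- one component has nonzero mass
  set I := P.filter (fun v => β * X₁ ≤ v ∧ v < β * X₂) with hI
  have hgroup : ∑ v ∈ I, e v = ∑ c' ∈ I.image (st P (B ^ i')),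
      ∑ v ∈ I.filter (fun v => st P (B ^ i') v = c'), e v := by
    symm
    exact Finset.sum_fiberwise_of_maps_to (fun v hv => Finset.mem_image_of_mem _ hv) _
  rw [hgroup] at hdiff2
  obtain ⟨c', hc', hne⟩ := Finset.exists_ne_zero_of_sum_ne_zero hdiff2
  rw [Finset.mem_image] at hc'
  obtain ⟨v₀, hv₀, rfl⟩ := hc'
  rw [hI, Finset.mem_filter] at hv₀
  -- components meeting the interval are contained in it
  have hin : ∀ v ∈ P, st P (B ^ i') v = st P (B ^ i') v₀ → β * X₁ ≤ v ∧ v < β * X₂ := by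
    intro v hv hst
    constructor
    · by_contra hlt
      exact sep hv₀.1 (by omega : v < β * X₁) hv₀.2.1 hX1s hst
    · by_contra hge
      exact sep hv hv₀.2.2 (by omega) hX2s hst.symm
  have hc'S := st_mem (τ := B ^ i') hv₀.1
  have hc'st : st P (B ^ i') (st P (B ^ i') v₀) = st P (B ^ i') v₀ :=
    le_antisymm (st_le _ _ _) (le_st hc'S le_rfl)
  have hc'I := hin _ (sta_mem hc'S) hc'st
  refine ⟨st P (B ^ i') v₀, hc'S, ?_, ?_, ce, hcem.1, hcem.2, ?_⟩
  · unfold mass
    rw [hI, Finset.filter_filter] at hne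
    convert hne using 2
    ext v
    rw [Finset.mem_filter, Finset.mem_filter]
    constructor
    · rintro ⟨h1, h2⟩
      exact ⟨h1, hin v h1 h2, h2⟩
    · rintro ⟨h1, _, h2⟩
      exact ⟨h1, h2⟩
  · have h1 : β * (3 * c) ≤ β * (3 * X₁ + B * b) := Nat.mul_le_mul_left _ hX1d
    have h2 : β * (3 * X₁ + B * b) = 3 * (β * X₁) + β * (B * b) := by ring
    have h3 : β * (3 * c) = 3 * (β * c) := by ring
    omega
  · have h1 : β * (3 * X₂) ≤ β * (3 * ce + B * b) := Nat.mul_le_mul_left _ (by omega)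
    have h2 : β * (3 * ce + B * b) = 3 * (β * ce) + β * (B * b) := by ring
    have h3 : β * (3 * X₂) = 3 * (β * X₂) := by ring
    omega

end Pool.Agent.Lib.MP5b6025.EP
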