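import Pool.Agent.Lib.MP_5b6025_nt.EP.SpecI

/-!
# Module SPR: spread
-/

set_option autoImplicit false

namespace Pool.Agent.Lib.MP5b6025.EP

open Finset

namespace SPRM

/-- a bounded monotone sequence doubles rarely over three steps -/
theorem cntj (w : ℕ → ℕ) (hw : Monotone w) (h1 : ∀ n, 1 ≤ w n) (M : ℕ) (hM : ∀ n, w n ≤ M)
    (a L : ℕ) :
    ((range L).filter (fun j => 2 * w (a + j) ≤ w (a + j + 3))).card ≤ 3 * Nat.log 2 M := by
  have key : ∀ L, ((range L).filter (fun j => 2 * w (a + j) ≤ w (a + j + 3))).card +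
      (Nat.log 2 (w a) + Nat.log 2 (w (a + 1)) + Nat.log 2 (w (a + 2))) ≤
      Nat.log 2 (w (a + L)) + Nat.log 2 (w (a + L + 1)) + Nat.log 2 (w (a + L + 2)) := by
    intro L
    induction L with
    | zero => simp
    | succ n ih =>
      have hmono : Nat.log 2 (w (a + n)) ≤ Nat.log 2 (w (a + n + 3)) :=
        Nat.log_mono_right (hw (by omega))
      rw [range_add_one, filter_insert]
      have e1 : a + (n + 1) = a + n + 1 := rfl
      have e2 : a + (n + 1) + 1 = a + n + 2 := rfl
      have e3 : a + (n + 1) + 2 = a + n + 3 := rfl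
      rw [e2, e3, e1]
      split_ifs with h
      · have h2 : Nat.log 2 (w (a + n)) + 1 ≤ Nat.log 2 (w (a + n + 3)) := by
          rw [← Nat.log_mul_base (by norm_num) (by have := h1 (a + n); omega)]
          exact Nat.log_mono_right (by omega)
        rw [card_insert_of_notMem (by simp)]
        omega
      · omega
  have h3 := key L
  have h4 : ∀ n, Nat.log 2 (w n) ≤ Nat.log 2 M := fun n => Nat.log_mono_right (hM n)
  have := h4 (a + L)
  have := h4 (a + L + 1)
  have := h4 (a + L + 2)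
  omega

/-- comparison of the active elements of two trees -/
theorem node (T T' : Finset ℕ) (a b a' b' Φ : ℕ → ℕ)
    (hΦ : ∀ s ∈ T, Φ s ∈ T') (inj : ∀ s ∈ T, ∀ s' ∈ T, Φ s = Φ s' → s = s')
    (hab' : ∀ x ∈ T', ∀ y ∈ T', a' x = a' y → b' x = b' y)
    (h1 : ∀ x ∈ T, ∀ y ∈ T, b x = b y → b' (Φ x) = b' (Φ y))
    (h2 : ∀ x ∈ T, ∀ y ∈ T, a' (Φ x) = a' (Φ y) → a x = a y) :
    (T.filter fun s => 2 * (T.filter fun x => a x = a s).card ≤
        (T.filter fun x => b x = b s).card).card ≤
      2 * (T'.filter fun t => 2 * (T'.filter fun x => a' x = a' t).card ≤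
        (T'.filter fun x => b' x = b' t).card).card := by
  classical
  set A := T.filter fun s => 2 * (T.filter fun x => a x = a s).card ≤
        (T.filter fun x => b x = b s).card with hA
  set A' := T'.filter fun t => 2 * (T'.filter fun x => a' x = a' t).card ≤
        (T'.filter fun x => b' x = b' t).card with hA'
  have hAT : ∀ s ∈ A, s ∈ T := fun s hs => (mem_filter.1 hs).1
  -- fibres
  have fib : ∀ l : ℕ, (A.filter fun s => b' (Φ s) = l).card ≤
      2 * (A'.filter fun t => b' t = l).card := by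
    intro l
    by_cases hall : ∀ t ∈ T', b' t = l → t ∈ A'
    · have : (A.filter fun s => b' (Φ s) = l).card ≤ (A'.filter fun t => b' t = l).card := by
        refine card_le_card_of_injOn Φ ?_ ?_
        · intro s hs
          have hs' := mem_filter.1 (mem_coe.1 hs)
          exact mem_coe.2 (mem_filter.2 ⟨hall _ (hΦ s (hAT s hs'.1)) hs'.2, hs'.2⟩)
        · intro s hs s' hs' h
          exact inj s (hAT s (mem_filter.1 (mem_coe.1 hs)).1) s'
            (hAT s' (mem_filter.1 (mem_coe.1 hs')).1) h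
      omega
    · push Not at hall
      obtain ⟨t₀, ht₀, hl, hna⟩ := hall
      have hna' : (T'.filter fun x => b' x = l).card < 2 * (T'.filter fun x => a' x = a' t₀).card := by
        by_contra hcon
        refine hna (mem_filter.2 ⟨ht₀, ?_⟩)
        rw [hl]
        exact not_lt.1 hcon
      have hsub : (T'.filter fun x => a' x = a' t₀) ⊆ T'.filter fun x => b' x = l := by
        intro x hx
        have hx' := mem_filter.1 hx
        exact mem_filter.2 ⟨hx'.1, (hab' x hx'.1 t₀ ht₀ hx'.2).trans hl⟩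
      -- elements outside the heavy class are active
      have hout : ∀ t ∈ T', b' t = l → a' t ≠ a' t₀ → t ∈ A' := by
        intro t ht htl hta
        refine mem_filter.2 ⟨ht, ?_⟩
        rw [htl]
        have hd : Disjoint (T'.filter fun x => a' x = a' t) (T'.filter fun x => a' x = a' t₀) := by
          rw [disjoint_left]
          intro x hx hx'
          exact hta ((mem_filter.1 hx).2.symm.trans (mem_filter.1 hx').2)
        have hsub2 : (T'.filter fun x => a' x = a' t) ∪ (T'.filter fun x => a' x = a' t₀) ⊆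
            T'.filter fun x => b' x = l := by
          refine union_subset ?_ hsub
          intro x hx
          have hx' := mem_filter.1 hx
          exact mem_filter.2 ⟨hx'.1, (hab' x hx'.1 t ht hx'.2).trans htl⟩
        have := card_le_card hsub2
        rw [card_union_of_disjoint hd] at this
        omega
      -- split
      have hsplit : (A.filter fun s => b' (Φ s) = l).card =
          ((A.filter fun s => b' (Φ s) = l).filter fun s => a' (Φ s) = a' t₀).card +
          ((A.filter fun s => b' (Φ s) = l).filter fun s => ¬ a' (Φ s) = a' t₀).card :=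
        (card_filter_add_card_filter_not _).symm
      have hB : ((A.filter fun s => b' (Φ s) = l).filter fun s => ¬ a' (Φ s) = a' t₀).card ≤
          (A'.filter fun t => b' t = l).card := by
        refine card_le_card_of_injOn Φ ?_ ?_
        · intro s hs
          have hs1 := mem_filter.1 (mem_coe.1 hs)
          have hs2 := mem_filter.1 hs1.1
          exact mem_coe.2 (mem_filter.2 ⟨hout _ (hΦ s (hAT s hs2.1)) hs2.2 hs1.2, hs2.2⟩)
        · intro s hs s' hs' h
          exact inj s (hAT s (mem_filter.1 (mem_filter.1 (mem_coe.1 hs)).1).1) s'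
            (hAT s' (mem_filter.1 (mem_filter.1 (mem_coe.1 hs')).1).1) h
      have hC : ((A.filter fun s => b' (Φ s) = l).filter fun s => a' (Φ s) = a' t₀).card ≤
          (A'.filter fun t => b' t = l).card := by
        by_cases hne : ((A.filter fun s => b' (Φ s) = l).filter fun s => a' (Φ s) = a' t₀).Nonempty
        · obtain ⟨s₀, hs₀⟩ := hne
          have hs1 := mem_filter.1 hs₀
          have hs2 := mem_filter.1 hs1.1
          have hs3 := mem_filter.1 hs2.1
          -- all in the class of s₀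
          have hk1 : ((A.filter fun s => b' (Φ s) = l).filter fun s => a' (Φ s) = a' t₀).card ≤
              (T.filter fun x => a x = a s₀).card := by
            refine card_le_card ?_
            intro s hs
            have hs1' := mem_filter.1 hs
            have hs2' := mem_filter.1 hs1'.1
            have hs3' := mem_filter.1 hs2'.1
            exact mem_filter.2 ⟨hs3'.1, h2 s hs3'.1 s₀ hs3.1 (hs1'.2.trans hs1.2.symm)⟩
          have hk2 : (T.filter fun x => b x = b s₀).card =
              ((T.filter fun x => b x = b s₀).filter fun x => a x = a s₀).card +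
              ((T.filter fun x => b x = b s₀).filter fun x => ¬ a x = a s₀).card :=
            (card_filter_add_card_filter_not _).symm
          have hk3 : ((T.filter fun x => b x = b s₀).filter fun x => a x = a s₀).card ≤
              (T.filter fun x => a x = a s₀).card := by
            refine card_le_card ?_
            intro x hx
            have hx' := mem_filter.1 hx
            exact mem_filter.2 ⟨(mem_filter.1 hx'.1).1, hx'.2⟩
          have hk4 : ((T.filter fun x => b x = b s₀).filter fun x => ¬ a x = a s₀).card ≤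
              (A'.filter fun t => b' t = l).card := by
            refine card_le_card_of_injOn Φ ?_ ?_
            · intro x hx
              have hx1 := mem_filter.1 (mem_coe.1 hx)
              have hx2 := mem_filter.1 hx1.1
              have e1 : b' (Φ x) = l := (h1 x hx2.1 s₀ hs3.1 hx2.2).trans hs2.2
              refine mem_coe.2 (mem_filter.2 ⟨hout _ (hΦ x hx2.1) e1 ?_, e1⟩)
              intro e2
              exact hx1.2 (h2 x hx2.1 s₀ hs3.1 (e2.trans hs1.2.symm))
            · intro s hs s' hs' h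
              exact inj s (mem_filter.1 (mem_filter.1 (mem_coe.1 hs)).1).1 s'
                (mem_filter.1 (mem_filter.1 (mem_coe.1 hs')).1).1 h
          have := hs3.2
          omega
        · rw [not_nonempty_iff_eq_empty] at hne
          rw [hne]
          simp
      omega
  have e1 : A.card = ∑ l ∈ A.image (fun s => b' (Φ s)), (A.filter fun s => b' (Φ s) = l).card :=
    card_eq_sum_card_image _ _
  have e2 : ∑ l ∈ A.image (fun s => b' (Φ s)), (A'.filter fun t => b' t = l).card ≤ A'.card := by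
    rw [sum_card_fiberwise_eq_card_filter]
    exact card_filter_le _ _
  calc A.card = ∑ l ∈ A.image (fun s => b' (Φ s)), (A.filter fun s => b' (Φ s) = l).card := e1
    _ ≤ ∑ l ∈ A.image (fun s => b' (Φ s)), 2 * (A'.filter fun t => b' t = l).card :=
        sum_le_sum fun l _ => fib l
    _ = 2 * ∑ l ∈ A.image (fun s => b' (Φ s)), (A'.filter fun t => b' t = l).card := by
        rw [mul_sum]
    _ ≤ 2 * A'.card := Nat.mul_le_mul_left _ e2

theorem sta_sub {P : Finset ℕ} {τ x : ℕ} (h : x ∈ Sta P τ) : x ∈ P := (mem_filter.1 h).1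

theorem lf_mem {k : Type} [Field k] {P : Finset ℕ} {e : ℕ → k} {B i l c : ℕ} :
    c ∈ Lf P e B i l ↔ c ∈ Sta P (B ^ i) ∧ mass P e (B ^ i) c ≠ 0 ∧ c < B ^ l := by
  classical
  unfold Lf
  rw [mem_filter]

/-- the map `Φ` for one `j`: upper bound for the distance -/
theorem upper (hC : SpecCMP) {P : Finset ℕ} {B g q x y u c c' : ℕ} (hB : 16 * (P.card + 1) ≤ B)
    (hg : 3 ≤ g) (hx : x ∈ P) (hy : y ∈ P) (hxy : st P (B ^ g) x = st P (B ^ g) y)
    (hu : u ∈ P) (hus : st P (B ^ 3) u = y) (hys : st P (B ^ 3) y = y)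
    (h1 : 3 * (q * x) ≤ 3 * c + B ^ 3 * q) (h2 : 3 * c' ≤ 3 * (q * u) + B ^ 3 * q) (hq : 1 ≤ q) :
    c' < c + q * B ^ (g + 1) := by
  have hB1 : 1 ≤ B := by omega
  have p3 : 1 ≤ B ^ 3 := Nat.one_le_pow _ _ hB1
  have pg : 1 ≤ B ^ g := Nat.one_le_pow _ _ hB1
  have e1 : u < y + P.card * B ^ 3 := (hC P (B ^ 3) p3).2.2.1 u hu y hy (by rw [hus, hys])
  have e2 : y < x + P.card * B ^ g := (hC P (B ^ g) pg).2.2.1 y hy x hx hxy.symm
  have e3 : B ^ 3 ≤ B ^ g := Nat.pow_le_pow_right hB1 hg
  have e4 : P.card * B ^ 3 ≤ P.card * B ^ g := Nat.mul_le_mul_left _ e3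
  have e5 : u ≤ x + 2 * (P.card * B ^ g) := by omega
  have e6 : q * u ≤ q * x + 2 * (P.card * (q * B ^ g)) := by
    calc q * u ≤ q * (x + 2 * (P.card * B ^ g)) := Nat.mul_le_mul_left _ e5
      _ = q * x + 2 * (P.card * (q * B ^ g)) := by ring
  have e7 : B ^ 3 * q ≤ q * B ^ g := by
    rw [mul_comm]; exact Nat.mul_le_mul_left _ e3
  have e8 : q * B ^ (g + 1) = B * (q * B ^ g) := by ring
  have e9 : 16 * (P.card + 1) * (q * B ^ g) ≤ B * (q * B ^ g) := Nat.mul_le_mul_right _ hB
  have e10 : 1 ≤ q * B ^ g := Nat.mul_pos hq pg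
  have e11 : 16 * (P.card + 1) * (q * B ^ g) = 16 * (P.card * (q * B ^ g)) + 16 * (q * B ^ g) := by
    ring
  rw [e8]
  omega

/-- the map `Φ` for one `j`: lower bound for the distance -/
theorem lower (hC : SpecCMP) {P : Finset ℕ} {B h q x y u c c' : ℕ} (hB : 16 * (P.card + 1) ≤ B)
    (hh : 3 ≤ h) (hx : x ∈ P) (hy : y ∈ P) (hlt : x < y)
    (hxy : st P (B ^ h) x ≠ st P (B ^ h) y)
    (hu : u ∈ P) (hus : st P (B ^ 3) u = x) (hxs : st P (B ^ 3) x = x)
    (h1 : 3 * (q * y) ≤ 3 * c' + B ^ 3 * q) (h2 : 3 * c ≤ 3 * (q * u) + B ^ 3 * q) :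
    3 * c + q * B ^ h ≤ 3 * c' := by
  have hB1 : 1 ≤ B := by omega
  have p3 : 1 ≤ B ^ 3 := Nat.one_le_pow _ _ hB1
  have ph : 1 ≤ B ^ h := Nat.one_le_pow _ _ hB1
  have e3 : B ^ 3 ≤ B ^ h := Nat.pow_le_pow_right hB1 hh
  have e1 : st P (B ^ h) u = st P (B ^ h) x :=
    (hC P (B ^ 3) p3).2.2.2.2.1 (B ^ h) e3 u hu x hx (by rw [hus, hxs])
  have hmono := (hC P (B ^ h) ph).2.2.2.2.2.2
  have e2 : u ≤ y := by
    by_contra hcon
    have a1 := hmono y u (by omega)
    have a2 := hmono x y (by omega)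
    omega
  have e4 : u + B ^ h ≤ y := (hC P (B ^ h) ph).2.1 u hu y hy e2 (by rw [e1]; exact hxy)
  have e5 : q * u + q * B ^ h ≤ q * y := by
    calc q * u + q * B ^ h = q * (u + B ^ h) := by ring
      _ ≤ q * y := Nat.mul_le_mul_left _ e4
  have e7 : B ^ 3 * q ≤ q * B ^ h := by
    rw [mul_comm]; exact Nat.mul_le_mul_left _ e3
  omega

end SPRM

open SPRM in
theorem specSPR (hC : SpecCMP) : SpecSPR := by
  intro k _ P e B N L hB hSim hL hN g hg
  classical
  have hB1 : 1 ≤ B := by omega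
  have hpow : ∀ i, 1 ≤ B ^ i := fun i => Nat.one_le_pow _ _ hB1
  set T := Lf P e B 3 L with hT
  set T' := Lf P e B 1 (2 * L + 3) with hT'
  have hTP : ∀ s ∈ T, s ∈ P := fun s hs => sta_sub (lf_mem.1 hs).1
  have hTs : ∀ s ∈ T, st P (B ^ 3) s = s := fun s hs =>
    (hC P (B ^ 3) (hpow 3)).2.2.2.1 s (lf_mem.1 hs).1
  have hTP' : ∀ s ∈ T', s ∈ P := fun s hs => sta_sub (lf_mem.1 hs).1
  have step : ∀ j ∈ range L, (T.filter fun s => Act P T B (g - 1) g s).card ≤
      2 * (T'.filter fun t => Act P T' B (g - 1 + j) (g + 2 + j) t).card := by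
    intro j hj
    have hjL : j + 1 ≤ L := by have := mem_range.1 hj; omega
    have hq1 : 1 ≤ B ^ (j + 1) := hpow _
    have hqL : B ^ (j + 1) ≤ B ^ L := Nat.pow_le_pow_right hB1 hjL
    have h4L : B ^ 4 ≤ B ^ L := Nat.pow_le_pow_right hB1 (by omega)
    have h3L : B ^ 3 ≤ B ^ L := Nat.pow_le_pow_right hB1 (by omega)
    have hLL : B ^ L * B ^ L = B ^ (2 * L) := by rw [← pow_add]; congr 1; omega
    have h2L : 2 * B ^ (2 * L) ≤ N := by
      calc 2 * B ^ (2 * L) ≤ B ^ 5 * B ^ (2 * L) := by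
            refine Nat.mul_le_mul_right _ ?_
            calc 2 ≤ B ^ 1 := by rw [pow_one]; omega
              _ ≤ B ^ 5 := Nat.pow_le_pow_right hB1 (by omega)
        _ = B ^ (2 * L + 5) := by rw [← pow_add]; congr 1; omega
        _ ≤ N := hN
    have ex : ∀ s ∈ T, ∃ c u : ℕ, c ∈ Sta P (B ^ 1) ∧ mass P e (B ^ 1) c ≠ 0 ∧
        3 * (B ^ (j + 1) * s) ≤ 3 * c + B ^ 3 * B ^ (j + 1) ∧ u ∈ P ∧ st P (B ^ 3) u = s ∧
        3 * c ≤ 3 * (B ^ (j + 1) * u) + B ^ 3 * B ^ (j + 1) := by
      intro s hs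
      obtain ⟨hs1, hs2, hs3⟩ := lf_mem.1 hs
      have hb : B ^ (j + 1) * (s + B ^ (3 + 1)) ≤ N := by
        calc B ^ (j + 1) * (s + B ^ (3 + 1)) ≤ B ^ L * (2 * B ^ L) :=
              Nat.mul_le_mul hqL (by have : B ^ (3 + 1) = B ^ 4 := rfl; omega)
          _ = 2 * (B ^ L * B ^ L) := by ring
          _ ≤ N := by rw [hLL]; exact h2L
      obtain ⟨c, hc1, hc2, hc3, u, hu1, hu2, hu3⟩ :=
        hSim 3 (j + 1) 1 s (by omega) (by omega) (by omega) (by omega) hs1 hs2 hb
      have e3 : B ^ (3 + (j + 1)) = B ^ 3 * B ^ (j + 1) := pow_add _ _ _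
      rw [e3] at hc3 hu3
      exact ⟨c, u, hc1, hc2, hc3, hu1, hu2, hu3⟩
    choose! Φ U hΦ1 hΦ2 hΦ3 hU1 hU2 hU3 using ex
    have low : ∀ h, 3 ≤ h → ∀ x ∈ T, ∀ y ∈ T, x < y → st P (B ^ h) x ≠ st P (B ^ h) y →
        3 * Φ x + B ^ (j + 1) * B ^ h ≤ 3 * Φ y := fun h hh x hx y hy hlt hne =>
      lower hC hB hh (hTP x hx) (hTP y hy) hlt hne (hU1 x hx) (hU2 x hx) (hTs x hx) (hΦ3 y hy)
        (hU3 x hx)
    have low3 : ∀ x ∈ T, ∀ y ∈ T, x < y → Φ x < Φ y := by
      intro x hx y hy hlt
      have h1 := low 3 le_rfl x hx y hy hlt (by rw [hTs x hx, hTs y hy]; omega)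
      have h2 : 1 ≤ B ^ (j + 1) * B ^ 3 := Nat.mul_pos hq1 (hpow 3)
      omega
    have hsub1 : g - 1 + 1 = g := by omega
    refine node T T' (st P (B ^ (g - 1))) (st P (B ^ g)) (st P (B ^ (g - 1 + j)))
      (st P (B ^ (g + 2 + j))) Φ ?_ ?_ ?_ ?_ ?_
    · intro s hs
      refine lf_mem.2 ⟨hΦ1 s hs, hΦ2 s hs, ?_⟩
      obtain ⟨hs1, hs2, hs3⟩ := lf_mem.1 hs
      have e1 : U s < s + P.card * B ^ 3 := (hC P (B ^ 3) (hpow 3)).2.2.1 (U s) (hU1 s hs) s
        (hTP s hs) (by rw [hU2 s hs, hTs s hs])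
      have e2 : P.card * B ^ 3 ≤ B ^ L := by
        calc P.card * B ^ 3 ≤ B * B ^ 3 := Nat.mul_le_mul_right _ (by omega)
          _ = B ^ 4 := by ring
          _ ≤ B ^ L := h4L
      have e3 : B ^ (j + 1) * U s ≤ B ^ L * (2 * B ^ L) := Nat.mul_le_mul hqL (by omega)
      have e4 : B ^ 3 * B ^ (j + 1) ≤ B ^ L * B ^ L := Nat.mul_le_mul h3L hqL
      have e5 : B ^ L * (2 * B ^ L) = 2 * (B ^ L * B ^ L) := by ring
      have e6 := hU3 s hs
      have e7 : B ^ (2 * L + 3) = B ^ 3 * B ^ (2 * L) := by rw [← pow_add]; congr 1; omega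
      have e8 : 16 * B ^ (2 * L) ≤ B ^ 3 * B ^ (2 * L) := by
        refine Nat.mul_le_mul_right _ ?_
        calc 16 ≤ B ^ 1 := by rw [pow_one]; omega
          _ ≤ B ^ 3 := Nat.pow_le_pow_right hB1 (by omega)
      have e9 := hpow (2 * L)
      rw [e7]
      rw [e5, hLL] at e3
      rw [hLL] at e4
      omega
    · intro s hs s' hs' h
      rcases lt_trichotomy s s' with hlt | heq | hgt
      · have := low3 s hs s' hs' hlt
        omega
      · exact heq
      · have := low3 s' hs' s hs hgt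
        omega
    · intro x hx y hy h
      exact (hC P (B ^ (g - 1 + j)) (hpow _)).2.2.2.2.1 (B ^ (g + 2 + j))
        (Nat.pow_le_pow_right hB1 (by omega)) x (hTP' x hx) y (hTP' y hy) h
    · intro x hx y hy h
      have hmem : ∀ s ∈ T, Φ s ∈ P := fun s hs => sta_sub (hΦ1 s hs)
      have eB : B ^ (g + 2 + j) = B ^ (j + 1) * B ^ (g + 1) := by
        rw [← pow_add]; congr 1; omega
      have u1 : Φ y < Φ x + B ^ (g + 2 + j) := by
        rw [eB]
        exact upper hC hB (by omega) (hTP x hx) (hTP y hy) h (hU1 y hy) (hU2 y hy) (hTs y hy)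
          (hΦ3 x hx) (hU3 y hy) hq1
      have u2 : Φ x < Φ y + B ^ (g + 2 + j) := by
        rw [eB]
        exact upper hC hB (by omega) (hTP y hy) (hTP x hx) h.symm (hU1 x hx) (hU2 x hx) (hTs x hx)
          (hΦ3 y hy) (hU3 x hx) hq1
      have hcm := (hC P (B ^ (g + 2 + j)) (hpow _)).2.1
      by_contra hcon
      rcases le_total (Φ x) (Φ y) with hle | hle
      · have := hcm (Φ x) (hmem x hx) (Φ y) (hmem y hy) hle hcon
        omega
      · have := hcm (Φ y) (hmem y hy) (Φ x) (hmem x hx) hle (Ne.symm hcon)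
        omega
    · intro x hx y hy h
      have hmem : ∀ s ∈ T, Φ s ∈ P := fun s hs => sta_sub (hΦ1 s hs)
      have eB : B ^ (j + 1) * B ^ (g - 1) = B * B ^ (g - 1 + j) := by
        rw [← pow_add, ← pow_succ']; congr 1; omega
      have e16 : 16 * (P.card + 1) * B ^ (g - 1 + j) ≤ B * B ^ (g - 1 + j) :=
        Nat.mul_le_mul_right _ hB
      have e17 : 16 * (P.card + 1) * B ^ (g - 1 + j) =
          16 * (P.card * B ^ (g - 1 + j)) + 16 * B ^ (g - 1 + j) := by ring
      have hc3 := (hC P (B ^ (g - 1 + j)) (hpow _)).2.2.1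
      by_contra hcon
      rcases lt_trichotomy x y with hlt | heq | hgt
      · have h1 := low (g - 1) (by omega) x hx y hy hlt hcon
        have h2 := hc3 (Φ y) (hmem y hy) (Φ x) (hmem x hx) h.symm
        rw [eB] at h1
        omega
      · exact hcon (by rw [heq])
      · have h1 := low (g - 1) (by omega) y hy x hx hgt (Ne.symm hcon)
        have h2 := hc3 (Φ x) (hmem x hx) (Φ y) (hmem y hy) h
        rw [eB] at h1
        omega
  -- summation
  have hcol : ∀ t ∈ T', ((range L).filter fun j => Act P T' B (g - 1 + j) (g + 2 + j) t).card ≤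
      3 * Nat.log 2 T'.card := by
    intro t ht
    have hw : Monotone fun l => wt P T' B l t := by
      intro l l' hll
      refine card_le_card ?_
      intro x hx
      have hx' := mem_filter.1 hx
      exact mem_filter.2 ⟨hx'.1, (hC P (B ^ l) (hpow _)).2.2.2.2.1 (B ^ l')
        (Nat.pow_le_pow_right hB1 hll) x (hTP' x hx'.1) t (hTP' t ht) hx'.2⟩
    have h1 : ∀ l, 1 ≤ wt P T' B l t := fun l =>
      card_pos.2 ⟨t, mem_filter.2 ⟨ht, rfl⟩⟩
    have h2 : ∀ l, wt P T' B l t ≤ T'.card := fun l => card_filter_le _ _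
    have h3 := cntj (fun l => wt P T' B l t) hw h1 T'.card h2 (g - 1) L
    refine le_trans (card_le_card ?_) h3
    intro j hj
    have hj' := mem_filter.1 hj
    refine mem_filter.2 ⟨hj'.1, ?_⟩
    have hj2 : 2 * wt P T' B (g - 1 + j) t ≤ wt P T' B (g + 2 + j) t := hj'.2
    have e1 : g + 2 + j = g - 1 + j + 3 := by omega
    rw [e1] at hj2
    exact hj2
  have hdc : ∑ j ∈ range L, (T'.filter fun t => Act P T' B (g - 1 + j) (g + 2 + j) t).card =
      ∑ t ∈ T', ((range L).filter fun j => Act P T' B (g - 1 + j) (g + 2 + j) t).card := by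
    simp_rw [card_filter]
    exact sum_comm
  calc L * (T.filter fun s => Act P T B (g - 1) g s).card =
        ∑ j ∈ range L, (T.filter fun s => Act P T B (g - 1) g s).card := by
          rw [sum_const, card_range, smul_eq_mul]
    _ ≤ ∑ j ∈ range L, 2 * (T'.filter fun t => Act P T' B (g - 1 + j) (g + 2 + j) t).card :=
        sum_le_sum step
    _ = 2 * ∑ t ∈ T', ((range L).filter fun j =>
          Act P T' B (g - 1 + j) (g + 2 + j) t).card := by rw [← mul_sum, hdc]
    _ ≤ 2 * ∑ _t ∈ T', 3 * Nat.log 2 T'.card := Nat.mul_le_mul_left _ (sum_le_sum hcol)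
    _ = 6 * Nat.log 2 T'.card * T'.card := by
        rw [sum_const, smul_eq_mul]
        ring

end Pool.Agent.Lib.MP5b6025.EP
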