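import Pool.Agent.Lib.MP_5b6025_nt.EP.Spec

/-!
# Module STAR (helper40): costs of two towers of partitions
-/

set_option autoImplicit false

namespace Pool.Agent.Lib.MP5b6025.EP.STARM

variable {Ω : Type}

/-- class size -/
noncomputable def cl {δ : Type} [DecidableEq δ] (S : Finset Ω) (f : Ω → δ) (x : Ω) : ℝ :=
  ((S.filter fun y => f y = f x).card : ℝ)

theorem one_le_cl {δ : Type} [DecidableEq δ] {S : Finset Ω} {f : Ω → δ} {x : Ω} (hx : x ∈ S) :
    1 ≤ cl S f x := by
  unfold cl
  exact_mod_cast Finset.card_pos.mpr ⟨x, by simp [hx]⟩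

theorem cl_congr {δ : Type} [DecidableEq δ] {S : Finset Ω} {f : Ω → δ} {x y : Ω}
    (h : f x = f y) : cl S f x = cl S f y := by
  unfold cl; rw [h]

theorem sum_ite_cl {δ : Type} [DecidableEq δ] (S : Finset Ω) (f : Ω → δ) (u : Ω) (k : ℝ) :
    ∑ y ∈ S, (if f y = f u then k else 0) = k * cl S f u := by
  rw [← Finset.sum_filter, Finset.sum_const, nsmul_eq_mul]
  unfold cl; ring

theorem sum_inv {δ : Type} [DecidableEq δ] (S : Finset Ω) (f : Ω → δ) (u : Ω) (hu : u ∈ S) :
    ∑ y ∈ S, (if f y = f u then 1 / cl S f y else 0) = 1 := by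
  have h1 : ∀ y ∈ S, (if f y = f u then 1 / cl S f y else 0) =
      (if f y = f u then 1 / cl S f u else 0) := by
    intro y _
    by_cases h : f y = f u
    · rw [if_pos h, if_pos h, cl_congr h]
    · rw [if_neg h, if_neg h]
  rw [Finset.sum_congr rfl h1, sum_ite_cl]
  have := one_le_cl (f := f) hu
  field_simp

section step

variable {α β : Type} [DecidableEq α] [DecidableEq β] (S : Finset Ω) (c : Ω → α) (z Z : Ω → β)

noncomputable def nn (x y : Ω) : ℝ := ∑ u ∈ S, if c u = c x ∧ z u = z y then (1 : ℝ) else 0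

noncomputable def X (x y : Ω) : ℝ := nn S c z x y / cl S c x

noncomputable def m (y : Ω) : ℝ := 1 / cl S z y

noncomputable def o (x y : Ω) : ℝ := if Z y = Z x then cl S z y / cl S Z y else 0

theorem nn_nonneg (x y : Ω) : 0 ≤ nn S c z x y :=
  Finset.sum_nonneg fun u _ => by split_ifs <;> norm_num

theorem nn_self_pos {x : Ω} (hx : x ∈ S) : 1 ≤ nn S c z x x := by
  have : (if c x = c x ∧ z x = z x then (1 : ℝ) else 0) ≤ nn S c z x x :=
    Finset.single_le_sum (f := fun u => if c u = c x ∧ z u = z x then (1 : ℝ) else 0)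
      (fun u _ => by split_ifs <;> norm_num) hx
  simpa using this

theorem nn_eq_card (x y : Ω) :
    nn S c z x y = ((S.filter fun u => c u = c x ∧ z u = z y).card : ℝ) := by
  unfold nn
  rw [← Finset.sum_filter, Finset.sum_const, nsmul_eq_mul, mul_one]

theorem X_nonneg (x y : Ω) : 0 ≤ X S c z x y := by
  unfold X cl
  have := nn_nonneg S c z x y
  positivity

theorem m_pos {y : Ω} (hy : y ∈ S) : 0 < m S z y := by
  have := one_le_cl (f := z) hy
  unfold m; positivity

theorem o_nonneg (x y : Ω) : 0 ≤ o S z Z x y := by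
  unfold o cl; split_ifs <;> positivity

variable {S c z Z}

theorem X_eq_zero (hc : ∀ x ∈ S, ∀ y ∈ S, c x = c y → Z x = Z y)
    (hz : ∀ x ∈ S, ∀ y ∈ S, z x = z y → Z x = Z y) {x y : Ω} (hx : x ∈ S) (hy : y ∈ S)
    (h : Z y ≠ Z x) : X S c z x y = 0 := by
  have : nn S c z x y = 0 := by
    unfold nn
    apply Finset.sum_eq_zero
    intro u hu
    rw [if_neg]
    rintro ⟨h1, h2⟩
    exact h ((hz u hu y hy h2).symm.trans (hc u hu x hx h1))
  unfold X; rw [this, zero_div]

/-- F4 -/
theorem sum_pair (G : Ω → Ω → ℝ)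
    (hG : ∀ x ∈ S, ∀ y ∈ S, ∀ u ∈ S, c u = c x → z u = z y → G x y = G u u) :
    ∑ x ∈ S, ∑ y ∈ S, m S z y * (X S c z x y * G x y) = ∑ u ∈ S, G u u := by
  have h1 : ∀ x ∈ S, ∀ y ∈ S, m S z y * (X S c z x y * G x y) =
      ∑ u ∈ S, (if z y = z u then 1 / cl S z y else 0) *
        ((if c x = c u then 1 / cl S c x else 0) * G u u) := by
    intro x hx y hy
    unfold m X nn
    rw [Finset.sum_div, Finset.sum_mul, Finset.mul_sum]
    apply Finset.sum_congr rfl
    intro u hu
    by_cases h1 : c u = c x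
    · by_cases h2 : z u = z y
      · rw [if_pos ⟨h1, h2⟩, if_pos h2.symm, if_pos h1.symm, hG x hx y hy u hu h1 h2]
      · rw [if_neg (fun h => h2 h.2), if_neg (fun h => h2 h.symm)]; ring
    · rw [if_neg (fun h => h1 h.1), if_neg (fun h : c x = c u => h1 h.symm)]; ring
  rw [Finset.sum_congr rfl fun x hx => Finset.sum_congr rfl fun y hy => h1 x hx y hy]
  have h2 : ∀ x ∈ S, (∑ y ∈ S, ∑ u ∈ S, (if z y = z u then 1 / cl S z y else 0) *
        ((if c x = c u then 1 / cl S c x else 0) * G u u)) =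
      ∑ u ∈ S, (if c x = c u then 1 / cl S c x else 0) * G u u := by
    intro x hx
    rw [Finset.sum_comm]
    apply Finset.sum_congr rfl
    intro u hu
    rw [← Finset.sum_mul, sum_inv S z u hu, one_mul]
  rw [Finset.sum_congr rfl h2, Finset.sum_comm]
  apply Finset.sum_congr rfl
  intro u hu
  rw [← Finset.sum_mul, sum_inv S c u hu, one_mul]

/-- F1 -/
theorem sum_X_row {x : Ω} (hx : x ∈ S) : ∑ y ∈ S, m S z y * X S c z x y = 1 := by
  have h1 : ∀ y ∈ S, m S z y * X S c z x y =
      ∑ u ∈ S, (if z y = z u then 1 / cl S z y else 0) *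
        (if c u = c x then 1 / cl S c x else 0) := by
    intro y hy
    unfold m X nn
    rw [Finset.sum_div, Finset.mul_sum]
    apply Finset.sum_congr rfl
    intro u hu
    by_cases h1 : c u = c x
    · by_cases h2 : z u = z y
      · rw [if_pos ⟨h1, h2⟩, if_pos h2.symm, if_pos h1]
      · rw [if_neg (fun h => h2 h.2), if_neg (fun h => h2 h.symm)]; ring
    · rw [if_neg (fun h => h1 h.1), if_neg h1]; ring
  rw [Finset.sum_congr rfl h1, Finset.sum_comm]
  have h2 : ∀ u ∈ S, (∑ y ∈ S, (if z y = z u then 1 / cl S z y else 0) *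
        (if c u = c x then 1 / cl S c x else 0)) = (if c u = c x then 1 / cl S c x else 0) := by
    intro u hu
    rw [← Finset.sum_mul, sum_inv S z u hu, one_mul]
  rw [Finset.sum_congr rfl h2, sum_ite_cl]
  have := one_le_cl (f := c) hx
  field_simp

/-- F3 -/
theorem sum_X_col {y : Ω} (hy : y ∈ S) : ∑ x ∈ S, m S z y * X S c z x y = 1 := by
  have h1 : ∀ x ∈ S, m S z y * X S c z x y =
      ∑ u ∈ S, (if c x = c u then 1 / cl S c x else 0) *
        (if z u = z y then 1 / cl S z y else 0) := by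
    intro x hx
    unfold m X nn
    rw [Finset.sum_div, Finset.mul_sum]
    apply Finset.sum_congr rfl
    intro u hu
    by_cases h1 : c u = c x
    · by_cases h2 : z u = z y
      · rw [if_pos ⟨h1, h2⟩, if_pos h2, if_pos h1.symm]; ring
      · rw [if_neg (fun h => h2 h.2), if_neg h2]; ring
    · rw [if_neg (fun h => h1 h.1), if_neg (fun h => h1 h.symm)]; ring
  rw [Finset.sum_congr rfl h1, Finset.sum_comm]
  have h2 : ∀ u ∈ S, (∑ x ∈ S, (if c x = c u then 1 / cl S c x else 0) *
        (if z u = z y then 1 / cl S z y else 0)) = (if z u = z y then 1 / cl S z y else 0) := by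
    intro u hu
    rw [← Finset.sum_mul, sum_inv S c u hu, one_mul]
  rw [Finset.sum_congr rfl h2, sum_ite_cl]
  have := one_le_cl (f := z) hy
  field_simp

theorem m_mul_o {x y : Ω} (hy : y ∈ S) :
    m S z y * o S z Z x y = if Z y = Z x then 1 / cl S Z y else 0 := by
  unfold m o
  have := one_le_cl (f := z) hy
  have := one_le_cl (f := Z) hy
  split_ifs
  · field_simp
  · simp

/-- F2 -/
theorem sum_o_row {x : Ω} (hx : x ∈ S) : ∑ y ∈ S, m S z y * o S z Z x y = 1 := by
  rw [Finset.sum_congr rfl fun y hy => m_mul_o (x := x) hy, sum_inv S Z x hx]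

theorem sum_o_col {y : Ω} (hy : y ∈ S) : ∑ x ∈ S, m S z y * o S z Z x y = 1 := by
  rw [Finset.sum_congr rfl fun x _ => m_mul_o (x := x) hy]
  have : ∀ x ∈ S, (if Z y = Z x then 1 / cl S Z y else 0) =
      (if Z x = Z y then 1 / cl S Z y else 0) := by
    intro x _
    by_cases h : Z x = Z y
    · rw [if_pos h, if_pos h.symm]
    · rw [if_neg h, if_neg (fun h' => h h'.symm)]
  rw [Finset.sum_congr rfl this, sum_ite_cl]
  have := one_le_cl (f := Z) hy
  field_simp

theorem log_ineq {X o : ℝ} (hX : 0 < X) (ho : 0 < o) :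
    (√X - √o) ^ 2 + X - o ≤ X * (Real.log X - Real.log o) := by
  have h1 : Real.log (√o / √X) ≤ √o / √X - 1 :=
    Real.log_le_sub_one_of_pos (by positivity)
  rw [Real.log_div (by positivity) (by positivity), Real.log_sqrt ho.le, Real.log_sqrt hX.le] at h1
  have h2 : √X ^ 2 = X := Real.sq_sqrt hX.le
  have h3 : √o ^ 2 = o := Real.sq_sqrt ho.le
  have h4 : X * (√o / √X) = √X * √o := by
    have : (0 : ℝ) < √X := by positivity
    field_simp
    rw [h2]
  have h5 : X * (Real.log X - Real.log o) ≥ X * (2 - 2 * (√o / √X)) := by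
    apply mul_le_mul_of_nonneg_left _ hX.le
    linarith
  have h6 : X * (2 - 2 * (√o / √X)) = 2 * X - 2 * (√X * √o) := by
    rw [← h4]; ring
  nlinarith [h5, h6, h2, h3]

/-- the divergence -/
noncomputable def Dv (S : Finset Ω) (c : Ω → α) (z Z : Ω → β) : ℝ :=
  ∑ x ∈ S, ((Real.log (nn S c z x x) - Real.log (cl S c x)) -
    (Real.log (cl S z x) - Real.log (cl S Z x)))

theorem Dv_eq (hc : ∀ x ∈ S, ∀ y ∈ S, c x = c y → Z x = Z y)
    (hz : ∀ x ∈ S, ∀ y ∈ S, z x = z y → Z x = Z y) :
    Dv S c z Z = ∑ x ∈ S, ∑ y ∈ S, m S z y * (X S c z x y *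
      (Real.log (X S c z x y) - Real.log (o S z Z x y))) := by
  rw [sum_pair (fun x y => Real.log (X S c z x y) - Real.log (o S z Z x y))]
  · unfold Dv
    apply Finset.sum_congr rfl
    intro x hx
    have h1 := one_le_cl (f := c) hx
    have h2 := one_le_cl (f := z) hx
    have h3 := one_le_cl (f := Z) hx
    have h4 := nn_self_pos S c z hx
    unfold X o
    rw [if_pos rfl, Real.log_div (by linarith) (by linarith),
      Real.log_div (by linarith) (by linarith)]
  · intro x hx y hy u hu h1 h2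
    have e1 : X S c z x y = X S c z u u := by
      unfold X nn
      rw [h1, h2, cl_congr h1]
    have e2 : o S z Z x y = o S z Z u u := by
      have e3 : Z y = Z u := (hz u hu y hy h2).symm
      have e4 : Z x = Z u := (hc u hu x hx h1).symm
      unfold o
      rw [if_pos (e3.trans e4.symm), if_pos rfl, cl_congr h2, cl_congr e3]
    show Real.log (X S c z x y) - Real.log (o S z Z x y) = _
    rw [e1, e2]

noncomputable def He (S : Finset Ω) (c : Ω → α) (z Z : Ω → β) : ℝ :=
  ∑ x ∈ S, ∑ y ∈ S, m S z y * (√(X S c z x y) - √(o S z Z x y)) ^ 2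

theorem He_nonneg : 0 ≤ He S c z Z :=
  Finset.sum_nonneg fun _ _ => Finset.sum_nonneg fun _ hy =>
    mul_nonneg (m_pos S z hy).le (sq_nonneg _)

theorem He_le_Dv (hc : ∀ x ∈ S, ∀ y ∈ S, c x = c y → Z x = Z y)
    (hz : ∀ x ∈ S, ∀ y ∈ S, z x = z y → Z x = Z y) : He S c z Z ≤ Dv S c z Z := by
  rw [Dv_eq hc hz]
  have key : ∀ x ∈ S, ∀ y ∈ S, m S z y * (√(X S c z x y) - √(o S z Z x y)) ^ 2 +
      m S z y * X S c z x y - m S z y * o S z Z x y ≤
      m S z y * (X S c z x y * (Real.log (X S c z x y) - Real.log (o S z Z x y))) := by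
    intro x hx y hy
    rw [← mul_add, ← mul_sub]
    apply mul_le_mul_of_nonneg_left _ (m_pos S z hy).le
    rcases (X_nonneg S c z x y).eq_or_lt with h | h
    · rw [← h]
      have := Real.sq_sqrt (o_nonneg S z Z x y)
      simp only [Real.sqrt_zero, zero_sub, neg_sq, this, zero_mul]
      linarith
    · have hZ : Z y = Z x := by
        by_contra hne
        exact absurd (X_eq_zero hc hz hx hy hne) h.ne'
      apply log_ineq h
      unfold o
      rw [if_pos hZ]
      have h2 := one_le_cl (f := z) hy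
      have h3 := one_le_cl (f := Z) hy
      positivity
  have h : ∑ x ∈ S, ∑ y ∈ S, (m S z y * (√(X S c z x y) - √(o S z Z x y)) ^ 2 +
      m S z y * X S c z x y - m S z y * o S z Z x y) ≤ ∑ x ∈ S, ∑ y ∈ S,
      m S z y * (X S c z x y * (Real.log (X S c z x y) - Real.log (o S z Z x y))) :=
    Finset.sum_le_sum fun x hx => Finset.sum_le_sum fun y hy => key x hx y hy
  refine le_trans (le_of_eq ?_) h
  unfold He
  apply Finset.sum_congr rfl
  intro x hx
  rw [Finset.sum_sub_distrib, Finset.sum_add_distrib, sum_X_row hx, sum_o_row hx]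
  ring

/-- heavy children -/
theorem exists_heavy (hS : S.Nonempty) (z Z : Ω → β) : ∃ hb : β → Ω, ∀ x ∈ S,
    hb (Z x) ∈ S ∧ Z (hb (Z x)) = Z x ∧ ∀ y ∈ S, Z y = Z x → cl S z y ≤ cl S z (hb (Z x)) := by
  classical
  have : ∀ b : β, ∃ h : Ω, ∀ x ∈ S, Z x = b →
      h ∈ S ∧ Z h = b ∧ ∀ y ∈ S, Z y = b → cl S z y ≤ cl S z h := by
    intro b
    by_cases hb : (S.filter fun x => Z x = b).Nonempty
    · obtain ⟨h, hh, hmax⟩ := Finset.exists_max_image _ (cl S z) hb
      rw [Finset.mem_filter] at hh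
      refine ⟨h, fun _ _ _ => ⟨hh.1, hh.2, fun y hy hyb => hmax y ?_⟩⟩
      rw [Finset.mem_filter]; exact ⟨hy, hyb⟩
    · obtain ⟨x0, _⟩ := hS
      refine ⟨x0, fun x hx hxb => absurd ⟨x, ?_⟩ hb⟩
      rw [Finset.mem_filter]; exact ⟨hx, hxb⟩
  choose hb h using this
  exact ⟨hb, fun x hx => h (Z x) x hx rfl⟩

theorem pos_part_aux (δ : Ω → ℝ) (E : Ω → Prop) [DecidablePred E]
    (h : ∀ y ∈ S, ¬ E y → δ y ≤ 0) :
    ∑ y ∈ S, m S z y * max 0 (δ y) ≤ ∑ y ∈ S, (if E y then m S z y * |δ y| else 0) := by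
  apply Finset.sum_le_sum
  intro y hy
  have hm := (m_pos S z hy).le
  split_ifs with hE
  · apply mul_le_mul_of_nonneg_left _ hm
    exact max_le (abs_nonneg _) (le_abs_self _)
  · rw [max_eq_left (h y hy hE), mul_zero]

theorem pos_part (hc : ∀ x ∈ S, ∀ y ∈ S, c x = c y → Z x = Z y)
    (hz : ∀ x ∈ S, ∀ y ∈ S, z x = z y → Z x = Z y) (hb : β → Ω)
    (hhb : ∀ x ∈ S, hb (Z x) ∈ S ∧ Z (hb (Z x)) = Z x) {x : Ω} (hx : x ∈ S) :
    ∑ y ∈ S, m S z y * max 0 (o S z Z x y - X S c z x y) ≤
      ∑ y ∈ S, (if z y ≠ z (hb (Z y)) then m S z y * |X S c z x y - o S z Z x y| else 0) := by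
  have h0 : ∑ y ∈ S, m S z y * (o S z Z x y - X S c z x y) = 0 := by
    have : ∀ y ∈ S, m S z y * (o S z Z x y - X S c z x y) =
        m S z y * o S z Z x y - m S z y * X S c z x y := fun y _ => by ring
    rw [Finset.sum_congr rfl this, Finset.sum_sub_distrib, sum_o_row hx, sum_X_row hx, sub_self]
  have hout : ∀ y ∈ S, Z y ≠ Z x → o S z Z x y - X S c z x y = 0 := by
    intro y hy hne
    rw [X_eq_zero hc hz hx hy hne]
    unfold o
    rw [if_neg hne]; ring
  have hsame : ∀ y ∈ S, ¬ (z y ≠ z (hb (Z y))) → Z y = Z x →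
      o S z Z x y - X S c z x y = o S z Z x (hb (Z x)) - X S c z x (hb (Z x)) := by
    intro y hy h1 h2
    push Not at h1
    rw [h2] at h1
    have e3 : Z (hb (Z x)) = Z x := (hhb x hx).2
    have e1 : X S c z x y = X S c z x (hb (Z x)) := by
      unfold X nn; rw [h1]
    have e2 : o S z Z x y = o S z Z x (hb (Z x)) := by
      unfold o
      rw [if_pos h2, if_pos e3, cl_congr h1, cl_congr (h2.trans e3.symm)]
    rw [e1, e2]
  rcases le_or_gt (o S z Z x (hb (Z x)) - X S c z x (hb (Z x))) 0 with hle | hgt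
  · refine le_trans (pos_part_aux (fun y => o S z Z x y - X S c z x y)
      (fun y => z y ≠ z (hb (Z y))) ?_) (le_of_eq ?_)
    · intro y hy hE
      by_cases h : Z y = Z x
      · show o S z Z x y - X S c z x y ≤ 0
        rw [hsame y hy hE h]; exact hle
      · exact (hout y hy h).le
    · apply Finset.sum_congr rfl
      intro y _
      show (if z y ≠ z (hb (Z y)) then m S z y * |o S z Z x y - X S c z x y| else 0) = _
      rw [abs_sub_comm]
  · have e : ∀ y ∈ S, m S z y * max 0 (o S z Z x y - X S c z x y) =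
        m S z y * (o S z Z x y - X S c z x y) +
        m S z y * max 0 (X S c z x y - o S z Z x y) := by
      intro y _
      rcases le_total (o S z Z x y - X S c z x y) 0 with h | h
      · rw [max_eq_left h, max_eq_right (by linarith : (0 : ℝ) ≤ X S c z x y - o S z Z x y)]
        ring
      · rw [max_eq_right h, max_eq_left (by linarith : X S c z x y - o S z Z x y ≤ (0 : ℝ))]
        ring
    rw [Finset.sum_congr rfl e, Finset.sum_add_distrib, h0, zero_add]
    apply pos_part_aux (fun y => X S c z x y - o S z Z x y) (fun y => z y ≠ z (hb (Z y)))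
    intro y hy hE
    by_cases h : Z y = Z x
    · have := hsame y hy hE h
      show X S c z x y - o S z Z x y ≤ 0
      linarith
    · have := hout y hy h
      show X S c z x y - o S z Z x y ≤ 0
      linarith

noncomputable def off (S : Finset Ω) (z Z : Ω → β) (hb : β → Ω) : ℝ :=
  ∑ y ∈ S, if z y ≠ z (hb (Z y)) then (1 : ℝ) else 0

theorem off_le (hz : ∀ x ∈ S, ∀ y ∈ S, z x = z y → Z x = Z y) (hb : β → Ω)
    (hhb : ∀ x ∈ S, hb (Z x) ∈ S ∧ Z (hb (Z x)) = Z x ∧
      ∀ y ∈ S, Z y = Z x → cl S z y ≤ cl S z (hb (Z x))) :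
    off S z Z hb ≤ ∑ y ∈ S, (Real.log (cl S Z y) - Real.log (cl S z y)) := by
  have h1 : ∑ y ∈ S, cl S z (hb (Z y)) / cl S Z y =
      ∑ u ∈ S, (if z u = z (hb (Z u)) then (1 : ℝ) else 0) := by
    have e : ∀ y ∈ S, cl S z (hb (Z y)) / cl S Z y =
        ∑ u ∈ S, (if z u = z (hb (Z u)) then (1 : ℝ) else 0) *
          (if Z y = Z u then 1 / cl S Z y else 0) := by
      intro y hy
      have e1 : cl S z (hb (Z y)) = ∑ u ∈ S, if z u = z (hb (Z y)) then (1 : ℝ) else 0 := by
        rw [sum_ite_cl, one_mul]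
      rw [e1, Finset.sum_div]
      apply Finset.sum_congr rfl
      intro u hu
      by_cases h : Z y = Z u
      · rw [if_pos h, h]; split_ifs <;> ring
      · rw [if_neg h, mul_zero, if_neg]
        · simp
        · intro h'
          exact h (((hz u hu _ (hhb y hy).1 h').trans (hhb y hy).2.1).symm)
    rw [Finset.sum_congr rfl e, Finset.sum_comm]
    apply Finset.sum_congr rfl
    intro u hu
    rw [← Finset.mul_sum, sum_inv S Z u hu, mul_one]
  have h2 : off S z Z hb = ∑ y ∈ S, (1 - cl S z (hb (Z y)) / cl S Z y) := by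
    rw [Finset.sum_sub_distrib, h1, ← Finset.sum_sub_distrib]
    unfold off
    apply Finset.sum_congr rfl
    intro y _
    by_cases h : z y = z (hb (Z y))
    · rw [if_neg (not_not.mpr h), if_pos h]; ring
    · rw [if_pos h, if_neg h]; ring
  rw [h2]
  apply Finset.sum_le_sum
  intro y hy
  obtain ⟨g1, g2, g3⟩ := hhb y hy
  have a1 := one_le_cl (f := z) g1
  have a2 := one_le_cl (f := Z) hy
  have a3 := one_le_cl (f := z) hy
  have a4 : Real.log (cl S z y) ≤ Real.log (cl S z (hb (Z y))) :=
    Real.log_le_log (by linarith) (g3 y hy rfl)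
  have a5 : Real.log (cl S z (hb (Z y)) / cl S Z y) ≤ cl S z (hb (Z y)) / cl S Z y - 1 :=
    Real.log_le_sub_one_of_pos (by positivity)
  rw [Real.log_div (by linarith) (by linarith)] at a5
  linarith

theorem main_step (hS : S.Nonempty) (hc : ∀ x ∈ S, ∀ y ∈ S, c x = c y → Z x = Z y)
    (hz : ∀ x ∈ S, ∀ y ∈ S, z x = z y → Z x = Z y) :
    0 ≤ Dv S c z Z ∧ 0 ≤ ∑ y ∈ S, (Real.log (cl S Z y) - Real.log (cl S z y)) ∧
    ∑ x ∈ S, |(Real.log (nn S c z x x) - Real.log (cl S c x)) -
      (Real.log (cl S z x) - Real.log (cl S Z x))| ≤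
    Dv S c z Z + 4 * (√(Dv S c z Z) *
      √(∑ y ∈ S, (Real.log (cl S Z y) - Real.log (cl S z y)))) := by
  obtain ⟨hb, hhb⟩ := exists_heavy hS z Z
  have hoff := off_le hz hb hhb
  have hoff0 : 0 ≤ off S z Z hb := Finset.sum_nonneg fun y _ => by split_ifs <;> norm_num
  have hD : 0 ≤ Dv S c z Z := He_nonneg.trans (He_le_Dv hc hz)
  refine ⟨hD, hoff0.trans hoff, ?_⟩
  -- positive part
  set L : Ω → ℝ := fun x => (Real.log (nn S c z x x) - Real.log (cl S c x)) -
      (Real.log (cl S z x) - Real.log (cl S Z x)) with hL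
  have hLX : ∀ x ∈ S, L x = Real.log (X S c z x x) - Real.log (o S z Z x x) := by
    intro x hx
    have h1 := one_le_cl (f := c) hx
    have h2 := one_le_cl (f := z) hx
    have h3 := one_le_cl (f := Z) hx
    have h4 := nn_self_pos S c z hx
    rw [hL]
    unfold X o
    rw [if_pos rfl, Real.log_div (by linarith) (by linarith),
      Real.log_div (by linarith) (by linarith)]
  have habs : ∀ x ∈ S, |L x| = L x + 2 * max 0 (-L x) := by
    intro x _
    rcases le_total 0 (L x) with h | h
    · rw [abs_of_nonneg h, max_eq_left (by linarith)]; ring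
    · rw [abs_of_nonpos h, max_eq_right (by linarith)]; ring
  have hsum1 : ∑ x ∈ S, max 0 (-L x) = ∑ x ∈ S, ∑ y ∈ S, m S z y * (X S c z x y *
      max 0 (Real.log (o S z Z x y) - Real.log (X S c z x y))) := by
    rw [sum_pair (fun x y => max 0 (Real.log (o S z Z x y) - Real.log (X S c z x y)))]
    · apply Finset.sum_congr rfl
      intro x hx
      rw [hLX x hx, neg_sub]
    · intro x hx y hy u hu h1 h2
      have e1 : X S c z x y = X S c z u u := by
        unfold X nn
        rw [h1, h2, cl_congr h1]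
      have e2 : o S z Z x y = o S z Z u u := by
        have e3 : Z y = Z u := (hz u hu y hy h2).symm
        have e4 : Z x = Z u := (hc u hu x hx h1).symm
        unfold o
        rw [if_pos (e3.trans e4.symm), if_pos rfl, cl_congr h2, cl_congr e3]
      show max 0 (Real.log (o S z Z x y) - Real.log (X S c z x y)) = _
      rw [e1, e2]
  have hsum2 : ∑ x ∈ S, max 0 (-L x) ≤ ∑ x ∈ S, ∑ y ∈ S,
      (if z y ≠ z (hb (Z y)) then m S z y * |X S c z x y - o S z Z x y| else 0) := by
    rw [hsum1]
    apply Finset.sum_le_sum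
    intro x hx
    refine le_trans ?_ (pos_part hc hz hb (fun x hx => ⟨(hhb x hx).1, (hhb x hx).2.1⟩) hx)
    apply Finset.sum_le_sum
    intro y hy
    apply mul_le_mul_of_nonneg_left _ (m_pos S z hy).le
    rcases (X_nonneg S c z x y).eq_or_lt with h | h
    · rw [← h, zero_mul]; exact le_max_left _ _
    · have hZ : Z y = Z x := by
        by_contra hne
        exact absurd (X_eq_zero hc hz hx hy hne) h.ne'
      have ho : 0 < o S z Z x y := by
        unfold o
        rw [if_pos hZ]
        have h2 := one_le_cl (f := z) hy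
        have h3 := one_le_cl (f := Z) hy
        positivity
      rw [mul_max_of_nonneg _ _ h.le, mul_zero]
      apply max_le_max le_rfl
      have h5 : Real.log (o S z Z x y / X S c z x y) ≤ o S z Z x y / X S c z x y - 1 :=
        Real.log_le_sub_one_of_pos (by positivity)
      rw [Real.log_div ho.ne' h.ne'] at h5
      have h6 := mul_le_mul_of_nonneg_left h5 h.le
      have h7 : X S c z x y * (o S z Z x y / X S c z x y - 1) = o S z Z x y - X S c z x y := by
        field_simp
      linarith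
  -- Cauchy-Schwarz
  have hsum3 : ∑ x ∈ S, ∑ y ∈ S,
      (if z y ≠ z (hb (Z y)) then m S z y * |X S c z x y - o S z Z x y| else 0) ≤
      √(Dv S c z Z) * √(4 * off S z Z hb) := by
    set f : Ω × Ω → ℝ := fun p => √(m S z p.2) * |√(X S c z p.1 p.2) - √(o S z Z p.1 p.2)|
    set g : Ω × Ω → ℝ := fun p => if z p.2 ≠ z (hb (Z p.2)) then
      √(m S z p.2) * (√(X S c z p.1 p.2) + √(o S z Z p.1 p.2)) else 0
    have e1 : ∑ x ∈ S, ∑ y ∈ S,
        (if z y ≠ z (hb (Z y)) then m S z y * |X S c z x y - o S z Z x y| else 0) =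
        ∑ p ∈ S ×ˢ S, f p * g p := by
      rw [Finset.sum_product]
      apply Finset.sum_congr rfl
      intro x hx
      apply Finset.sum_congr rfl
      intro y hy
      show _ = (√(m S z y) * |√(X S c z x y) - √(o S z Z x y)|) *
        (if z y ≠ z (hb (Z y)) then
          √(m S z y) * (√(X S c z x y) + √(o S z Z x y)) else 0)
      split_ifs with h
      · have a1 := Real.mul_self_sqrt (m_pos S z hy).le
        have a2 := Real.mul_self_sqrt (X_nonneg S c z x y)
        have a3 := Real.mul_self_sqrt (o_nonneg S z Z x y)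
        have a4 : |X S c z x y - o S z Z x y| = |√(X S c z x y) - √(o S z Z x y)| *
            (√(X S c z x y) + √(o S z Z x y)) := by
          have : (0 : ℝ) ≤ √(X S c z x y) + √(o S z Z x y) := by positivity
          have a5 : X S c z x y - o S z Z x y = (√(X S c z x y) - √(o S z Z x y)) *
            (√(X S c z x y) + √(o S z Z x y)) := by nlinarith
          rw [a5, abs_mul, abs_of_nonneg this]
        rw [a4]
        calc m S z y * (|√(X S c z x y) - √(o S z Z x y)| *
            (√(X S c z x y) + √(o S z Z x y))) = (√(m S z y) * √(m S z y)) *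
            (|√(X S c z x y) - √(o S z Z x y)| *
            (√(X S c z x y) + √(o S z Z x y))) := by rw [a1]
          _ = _ := by ring
      · simp
    have e2 : ∑ p ∈ S ×ˢ S, f p ^ 2 = He S c z Z := by
      rw [Finset.sum_product]
      unfold He
      apply Finset.sum_congr rfl
      intro x hx
      apply Finset.sum_congr rfl
      intro y hy
      show (√(m S z y) * |√(X S c z x y) - √(o S z Z x y)|) ^ 2 = _
      rw [mul_pow, sq_abs, Real.sq_sqrt (m_pos S z hy).le]
    have e3 : ∑ p ∈ S ×ˢ S, g p ^ 2 ≤ 4 * off S z Z hb := by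
      rw [Finset.sum_product_right]
      unfold off
      rw [Finset.mul_sum]
      apply Finset.sum_le_sum
      intro y hy
      by_cases h : z y ≠ z (hb (Z y))
      · rw [if_pos h]
        have b1 : ∀ x ∈ S, g (x, y) ^ 2 ≤
            2 * (m S z y * X S c z x y) + 2 * (m S z y * o S z Z x y) := by
          intro x hx
          show (if z y ≠ z (hb (Z y)) then
            √(m S z y) * (√(X S c z x y) + √(o S z Z x y)) else 0) ^ 2 ≤ _
          rw [if_pos h, mul_pow, Real.sq_sqrt (m_pos S z hy).le]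
          have c1 := Real.sq_sqrt (X_nonneg S c z x y)
          have c2 := Real.sq_sqrt (o_nonneg S z Z x y)
          have c3 : (√(X S c z x y) + √(o S z Z x y)) ^ 2 ≤
              2 * X S c z x y + 2 * o S z Z x y := by
            nlinarith [sq_nonneg (√(X S c z x y) - √(o S z Z x y))]
          have := mul_le_mul_of_nonneg_left c3 (m_pos S z hy).le
          linarith
        refine le_trans (Finset.sum_le_sum b1) ?_
        have b2 : ∑ x ∈ S, (2 * (m S z y * X S c z x y) + 2 * (m S z y * o S z Z x y)) =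
            2 * ∑ x ∈ S, m S z y * X S c z x y + 2 * ∑ x ∈ S, m S z y * o S z Z x y := by
          rw [Finset.sum_add_distrib, Finset.mul_sum, Finset.mul_sum]
        rw [b2, sum_X_col hy, sum_o_col hy]
        norm_num
      · rw [if_neg h, mul_zero]
        apply le_of_eq
        apply Finset.sum_eq_zero
        intro x _
        show (if z y ≠ z (hb (Z y)) then
            √(m S z y) * (√(X S c z x y) + √(o S z Z x y)) else 0) ^ 2 = 0
        rw [if_neg h]; norm_num
    rw [e1]
    have h1 := Finset.sum_mul_sq_le_sq_mul_sq (S ×ˢ S) f g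
    rw [← Real.sqrt_mul hD]
    apply Real.le_sqrt_of_sq_le
    refine h1.trans ?_
    rw [e2]
    exact mul_le_mul (He_le_Dv hc hz) e3 (Finset.sum_nonneg fun _ _ => sq_nonneg _) hD
  have hfin : ∑ x ∈ S, |L x| = Dv S c z Z + 2 * ∑ x ∈ S, max 0 (-L x) := by
    rw [Finset.sum_congr rfl habs, Finset.sum_add_distrib, Finset.mul_sum]
    rfl
  rw [hfin]
  have h4 : √(4 * off S z Z hb) ≤
      2 * √(∑ y ∈ S, (Real.log (cl S Z y) - Real.log (cl S z y))) := by
    rw [Real.sqrt_mul (by norm_num), show (4 : ℝ) = 2 ^ 2 by norm_num,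
      Real.sqrt_sq (by norm_num)]
    exact mul_le_mul_of_nonneg_left (Real.sqrt_le_sqrt hoff) (by norm_num)
  have h5 := mul_le_mul_of_nonneg_left h4 (Real.sqrt_nonneg (Dv S c z Z))
  have h6 := hsum2.trans hsum3
  linarith

end step

end Pool.Agent.Lib.MP5b6025.EP.STARM

namespace Pool.Agent.Lib.MP5b6025.EP

open STARM in
/-- Module STAR. -/
theorem specSTAR : SpecSTAR := by
  intro Ω α β _ _ S n a z A hS ha hz haz h0 hn hA
  have hN : (1 : ℝ) ≤ S.card := by exact_mod_cast hS.card_pos
  -- abbreviations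
  set V : ℕ → Ω → ℝ := fun r x =>
    Real.log (S.filter fun y => a (r + 1) y = a (r + 1) x ∧ z r y = z r x).card with hV
  set W : ℕ → Ω → ℝ := fun r x => Real.log (S.filter fun y => a r y = a r x).card with hW
  set w : ℕ → Ω → ℝ := fun r x => Real.log (S.filter fun y => z r y = z r x).card with hw
  change ∑ x ∈ S, ∑ r ∈ Finset.range n, (V r x - W r x) ≤ A * S.card at hA
  change ∑ x ∈ S, ∑ r ∈ Finset.range n, |(w (r + 1) x - w r x) - (W (r + 1) x - W r x)| ≤ _
  have hVW : ∀ r < n, ∀ x ∈ S, 0 ≤ V r x - W r x := by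
    intro r hr x hx
    rw [sub_nonneg]
    apply Real.log_le_log
    · exact_mod_cast Finset.card_pos.mpr ⟨x, by simp [hx]⟩
    · exact_mod_cast Finset.card_le_card fun y hy => by
        rw [Finset.mem_filter] at hy ⊢
        exact ⟨hy.1, ha r hr y hy.1 x hx hy.2, haz r hr.le y hy.1 x hx hy.2⟩
  have hA0 : 0 ≤ A * S.card := le_trans (Finset.sum_nonneg fun x hx => Finset.sum_nonneg
    fun r hr => hVW r (Finset.mem_range.mp hr) x hx) hA
  have hA1 : 0 ≤ A := by
    by_contra h
    push Not at h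
    nlinarith
  -- one step
  set D : ℕ → ℝ := fun r => ∑ x ∈ S, ((V r x - W (r + 1) x) - (w r x - w (r + 1) x)) with hD
  set O : ℕ → ℝ := fun r => ∑ x ∈ S, (w (r + 1) x - w r x) with hO
  have hstep : ∀ r < n, 0 ≤ D r ∧ 0 ≤ O r ∧
      ∑ x ∈ S, |(V r x - W (r + 1) x) - (w r x - w (r + 1) x)| ≤ D r + 4 * (√(D r) * √(O r)) := by
    intro r hr
    have h := main_step (S := S) (c := a (r + 1)) (z := z r) (Z := z (r + 1)) hS
      (haz (r + 1) hr) (hz r hr)
    have e : Dv S (a (r + 1)) (z r) (z (r + 1)) = D r := by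
      unfold Dv
      apply Finset.sum_congr rfl
      intro x _
      rw [nn_eq_card]
      rfl
    rw [e] at h
    refine ⟨h.1, h.2.1, ?_⟩
    refine le_trans (le_of_eq ?_) h.2.2
    apply Finset.sum_congr rfl
    intro x _
    rw [nn_eq_card]
    rfl
  -- telescoping
  have hw0 : ∀ x ∈ S, 0 ≤ w 0 x := fun x hx => Real.log_nonneg (by
    exact_mod_cast Finset.card_pos.mpr ⟨x, by simp [hx]⟩)
  have hW0 : ∀ x ∈ S, W 0 x = 0 := by
    intro x hx
    have : (S.filter fun y => a 0 y = a 0 x) = {x} := by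
      ext y
      rw [Finset.mem_filter, Finset.mem_singleton]
      constructor
      · rintro ⟨h1, h2⟩
        exact h0 y h1 x hx h2
      · rintro rfl
        exact ⟨hx, rfl⟩
    show Real.log ((S.filter fun y => a 0 y = a 0 x).card : ℝ) = 0
    rw [this]; simp
  have hWn : ∀ x ∈ S, W n x = Real.log S.card := by
    intro x hx
    have : (S.filter fun y => a n y = a n x) = S :=
      Finset.filter_true_of_mem fun y hy => hn y hy x hx
    show Real.log ((S.filter fun y => a n y = a n x).card : ℝ) = _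
    rw [this]
  have hwn : ∀ x ∈ S, w n x = Real.log S.card := by
    intro x hx
    have : (S.filter fun y => z n y = z n x) = S :=
      Finset.filter_true_of_mem fun y hy => haz n le_rfl y hy x hx (hn y hy x hx)
    show Real.log ((S.filter fun y => z n y = z n x).card : ℝ) = _
    rw [this]
  have hDsum : ∑ r ∈ Finset.range n, D r ≤ A * S.card := by
    rw [hD, Finset.sum_comm]
    refine le_trans (Finset.sum_le_sum fun x hx => ?_) hA
    have e : ∀ r ∈ Finset.range n, (V r x - W (r + 1) x) - (w r x - w (r + 1) x) =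
        (V r x - W r x) + ((w (r + 1) x - w r x) - (W (r + 1) x - W r x)) :=
      fun r _ => by ring
    have e' : ∑ r ∈ Finset.range n, ((w (r + 1) x - w r x) - (W (r + 1) x - W r x)) ≤ 0 := by
      rw [Finset.sum_sub_distrib, Finset.sum_range_sub (fun r => w r x),
        Finset.sum_range_sub (fun r => W r x), hW0 x hx, hWn x hx, hwn x hx]
      have := hw0 x hx
      linarith
    rw [Finset.sum_congr rfl e, Finset.sum_add_distrib]
    linarith
  have hOsum : ∑ r ∈ Finset.range n, O r ≤ Real.log S.card * S.card := by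
    rw [hO, Finset.sum_comm]
    have : ∀ x ∈ S, ∑ r ∈ Finset.range n, (w (r + 1) x - w r x) ≤ Real.log S.card := by
      intro x hx
      rw [Finset.sum_range_sub (fun r => w r x), hwn x hx]
      have := hw0 x hx
      linarith
    refine (Finset.sum_le_sum this).trans ?_
    rw [Finset.sum_const, nsmul_eq_mul, mul_comm]
  have hDO : ∑ r ∈ Finset.range n, √(D r) * √(O r) ≤
      √(A * S.card) * √(Real.log S.card * S.card) := by
    have h1 := Finset.sum_mul_sq_le_sq_mul_sq (Finset.range n) (fun r => √(D r))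
      (fun r => √(O r))
    have e1 : ∑ r ∈ Finset.range n, √(D r) ^ 2 = ∑ r ∈ Finset.range n, D r :=
      Finset.sum_congr rfl fun r hr => Real.sq_sqrt (hstep r (Finset.mem_range.mp hr)).1
    have e2 : ∑ r ∈ Finset.range n, √(O r) ^ 2 = ∑ r ∈ Finset.range n, O r :=
      Finset.sum_congr rfl fun r hr => Real.sq_sqrt (hstep r (Finset.mem_range.mp hr)).2.1
    rw [← Real.sqrt_mul hA0]
    apply Real.le_sqrt_of_sq_le
    refine h1.trans ?_
    rw [e1, e2]
    exact mul_le_mul hDsum hOsum
      (Finset.sum_nonneg fun r hr => (hstep r (Finset.mem_range.mp hr)).2.1) hA0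
  have hroot : √(A * S.card) * √(Real.log S.card * S.card) =
      √(A * Real.log S.card) * S.card := by
    rw [← Real.sqrt_mul hA0, show A * (S.card : ℝ) * (Real.log S.card * S.card) =
      (A * Real.log S.card) * (S.card : ℝ) ^ 2 by ring,
      Real.sqrt_mul (mul_nonneg hA1 (Real.log_nonneg hN)), Real.sqrt_sq (by linarith)]
  -- conclusion
  have hterm : ∀ x ∈ S, ∀ r ∈ Finset.range n,
      |(w (r + 1) x - w r x) - (W (r + 1) x - W r x)| ≤
      |(V r x - W (r + 1) x) - (w r x - w (r + 1) x)| + (V r x - W r x) := by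
    intro x hx r hr
    have h1 := hVW r (Finset.mem_range.mp hr) x hx
    calc |(w (r + 1) x - w r x) - (W (r + 1) x - W r x)|
        = |((V r x - W (r + 1) x) - (w r x - w (r + 1) x)) - (V r x - W r x)| := by
          congr 1; ring
      _ ≤ |(V r x - W (r + 1) x) - (w r x - w (r + 1) x)| + |V r x - W r x| := abs_sub _ _
      _ = _ := by rw [abs_of_nonneg h1]
  calc ∑ x ∈ S, ∑ r ∈ Finset.range n, |(w (r + 1) x - w r x) - (W (r + 1) x - W r x)|
      ≤ ∑ x ∈ S, ∑ r ∈ Finset.range n,
        (|(V r x - W (r + 1) x) - (w r x - w (r + 1) x)| + (V r x - W r x)) :=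
        Finset.sum_le_sum fun x hx => Finset.sum_le_sum fun r hr => hterm x hx r hr
    _ = ∑ r ∈ Finset.range n, ∑ x ∈ S, |(V r x - W (r + 1) x) - (w r x - w (r + 1) x)| +
        ∑ x ∈ S, ∑ r ∈ Finset.range n, (V r x - W r x) := by
        rw [Finset.sum_comm (s := Finset.range n), ← Finset.sum_add_distrib]
        apply Finset.sum_congr rfl
        intro x _
        rw [Finset.sum_add_distrib]
    _ ≤ ∑ r ∈ Finset.range n, (D r + 4 * (√(D r) * √(O r))) + A * S.card :=
        add_le_add (Finset.sum_le_sum fun r hr => (hstep r (Finset.mem_range.mp hr)).2.2) hA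
    _ = ∑ r ∈ Finset.range n, D r + 4 * ∑ r ∈ Finset.range n, √(D r) * √(O r) +
        A * S.card := by
        rw [Finset.sum_add_distrib, Finset.mul_sum]
    _ ≤ A * S.card + 4 * (√(A * Real.log S.card) * S.card) + A * S.card := by
        have := hDO.trans_eq hroot
        linarith
    _ = (2 * A + 4 * √(A * Real.log S.card)) * S.card := by ring

end Pool.Agent.Lib.MP5b6025.EP
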