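import Pool.Agent.Lib.MP_5b6025_nt.EP.Spec

/-!
# Module STB: the average of `star` is small
-/

set_option autoImplicit false

namespace Pool.Agent.Lib.MP5b6025.EP

namespace STBM

theorem gl_mono (K k₀ : ℕ) (hK : 10 ≤ K) : Monotone (gl K k₀) := by
  apply monotone_nat_of_le_succ
  intro v
  unfold gl
  rw [if_neg (Nat.succ_ne_zero v)]
  split_ifs with h
  · subst h
    omega
  · nlinarith

theorem gl_succ (K k₀ v : ℕ) (hK : 10 ≤ K) : gl K k₀ v + 1 ≤ gl K k₀ (v + 1) := by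
  unfold gl
  rw [if_neg (Nat.succ_ne_zero v)]
  split_ifs with h
  · subst h
    omega
  · nlinarith

theorem hl_succ (K k₀ r : ℕ) (hK : 10 ≤ K) : hl K k₀ r ≤ hl K k₀ (r + 1) := by
  unfold hl
  rcases Nat.even_or_odd r with h | h
  · obtain ⟨v, rfl⟩ := h
    have e1 : (v + v) / 2 = v := by omega
    have e2 : (v + v) % 2 = 0 := by omega
    have e3 : (v + v + 1) / 2 = v := by omega
    have e4 : (v + v + 1) % 2 = 1 := by omega
    rw [e1, e2, e3, e4]
    omega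
  · obtain ⟨v, rfl⟩ := h
    have e1 : (2 * v + 1) / 2 = v := by omega
    have e2 : (2 * v + 1) % 2 = 1 := by omega
    have e3 : (2 * v + 1 + 1) / 2 = v + 1 := by omega
    have e4 : (2 * v + 1 + 1) % 2 = 0 := by omega
    rw [e1, e2, e3, e4]
    have := gl_succ K k₀ v hK
    omega

theorem card_a (P T : Finset ℕ) (B g m : ℕ) (x : Fin m → ℕ) :
    ((tup m T).filter fun y => (fun i => st P (B ^ g) (y i)) = fun i => st P (B ^ g) (x i)).card =
      ∏ i, wt P T B g (x i) := by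
  have h : ((tup m T).filter fun y =>
      (fun i => st P (B ^ g) (y i)) = fun i => st P (B ^ g) (x i)) =
      Fintype.piFinset fun i => T.filter fun z => st P (B ^ g) z = st P (B ^ g) (x i) := by
    ext y
    simp only [tup, Finset.mem_filter, Fintype.mem_piFinset, funext_iff]
    exact forall_and.symm
  rw [h, Fintype.card_piFinset]
  rfl

theorem log_a (P T : Finset ℕ) (B g m : ℕ) (x : Fin m → ℕ) (hx : x ∈ tup m T) :
    Real.log (((tup m T).filter fun y =>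
      (fun i => st P (B ^ g) (y i)) = fun i => st P (B ^ g) (x i)).card : ℝ) =
      ∑ i, Real.log (wt P T B g (x i)) := by
  rw [card_a]
  push_cast
  rw [Real.log_prod]
  intro i _
  have hxi : x i ∈ T := by
    simp only [tup, Fintype.mem_piFinset] at hx
    exact hx i
  have h1 : 0 < wt P T B g (x i) := by
    unfold wt
    exact Finset.card_pos.2 ⟨x i, Finset.mem_filter.2 ⟨hxi, rfl⟩⟩
  positivity

theorem num (κ ε ℓ t : ℝ) (m : ℕ) (hκ : 1 ≤ κ) (hε : 0 < ε) (hε1 : ε ≤ 1 / 100) (hℓ : 0 ≤ ℓ)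
    (ht : t ≤ m * (κ * ℓ)) :
    2 * (12 * m ^ 2 * κ * ε * ℓ) + 4 * Real.sqrt (12 * m ^ 2 * κ * ε * ℓ * t) ≤
      40 * m ^ 2 * κ * Real.sqrt ε * ℓ := by
  have hs := Real.sqrt_nonneg ε
  have hs2 : Real.sqrt ε * Real.sqrt ε = ε := Real.mul_self_sqrt hε.le
  have hs1 : Real.sqrt ε ≤ 1 / 10 := by
    rw [Real.sqrt_le_left (by norm_num)]
    norm_num
    linarith
  have hm : (0 : ℝ) ≤ m := Nat.cast_nonneg m
  have hκ0 : 0 ≤ κ := by linarith
  have h1 : 2 * (12 * (m : ℝ) ^ 2 * κ * ε * ℓ) ≤ 24 * (m ^ 2 * κ * Real.sqrt ε * ℓ) := by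
    have h2 : ε ≤ Real.sqrt ε := by nlinarith
    have h3 : 0 ≤ (m : ℝ) ^ 2 * κ * ℓ := by positivity
    nlinarith
  have h4 : Real.sqrt (12 * (m : ℝ) ^ 2 * κ * ε * ℓ * t) ≤ 4 * (m ^ 2 * κ * Real.sqrt ε * ℓ) := by
    rw [Real.sqrt_le_left (by positivity)]
    have hm3 : (m : ℝ) ^ 3 ≤ m ^ 4 := by
      rcases Nat.eq_zero_or_pos m with h | h
      · rw [h]; simp
      · exact pow_le_pow_right₀ (by exact_mod_cast h) (by norm_num)
    calc 12 * (m : ℝ) ^ 2 * κ * ε * ℓ * t ≤ 12 * (m : ℝ) ^ 2 * κ * ε * ℓ * (m * (κ * ℓ)) := by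
          apply mul_le_mul_of_nonneg_left ht
          positivity
      _ = 12 * (κ ^ 2 * ε * ℓ ^ 2) * m ^ 3 := by ring
      _ ≤ 16 * (κ ^ 2 * ε * ℓ ^ 2) * m ^ 4 := by
          have : 0 ≤ κ ^ 2 * ε * ℓ ^ 2 := by positivity
          have h5 : 0 ≤ (m : ℝ) ^ 3 := by positivity
          nlinarith
      _ = (4 * (m ^ 2 * κ * Real.sqrt ε * ℓ)) ^ 2 := by
          have : (4 * (m ^ 2 * κ * Real.sqrt ε * ℓ)) ^ 2 =
            16 * (κ ^ 2 * (Real.sqrt ε * Real.sqrt ε) * ℓ ^ 2) * (m : ℝ) ^ 4 := by ring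
          rw [this, hs2]
  have h6 : 0 ≤ (m : ℝ) ^ 2 * κ * Real.sqrt ε * ℓ := by positivity
  nlinarith

end STBM

open STBM in
theorem specSTB (hCMP : SpecCMP) (hSUM : SpecSUM) (hSTAR : SpecSTAR) (hAMT : SpecAMT) :
    SpecSTB := by
  intro κ ε m hκ hε hε1
  obtain ⟨L₀, hL₀⟩ := hAMT κ ε m hκ hε hε1
  refine ⟨max L₀ 1, ?_⟩
  intro P T B K k₀ L hL hT hne hK hB hlog hLvl
  have hL1 : 1 ≤ L := (le_max_right _ _).trans hL
  have hamt := hL₀ P T B K k₀ L ((le_max_left _ _).trans hL) hT hne hK hB hlog hLvl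
  have hB1 : 1 ≤ B := by
    have : 0 < 4 * (m + 2) * (P.card + 1) ^ (m + 2) := by positivity
    omega
  have hBg : ∀ g, 1 ≤ B ^ g := fun g => Nat.one_le_pow _ _ hB1
  have hℓ : 0 ≤ Real.log L := Real.log_natCast_nonneg L
  have hTP : ∀ s ∈ T, s ∈ P := fun s hs => (Finset.mem_filter.1 (hT s hs).1).1
  have hmem : ∀ x ∈ tup m T, ∀ i, x i ∈ T := by
    intro x hx
    simpa only [tup, Fintype.mem_piFinset] using hx
  have hmono : ∀ r, B ^ hl K k₀ r ≤ B ^ hl K k₀ (r + 1) := fun r =>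
    Nat.pow_le_pow_right hB1 (hl_succ K k₀ r hK)
  have hcard : ((tup m T).card : ℝ) = (T.card : ℝ) ^ m := by
    simp [tup]
  have hkey := hSTAR (Fin m → ℕ) (Fin m → ℕ) ℕ (tup m T) (2 * L + 1)
    (fun r ρ i => st P (B ^ hl K k₀ r) (ρ i))
    (fun r ρ => st (sm m P) (B ^ hl K k₀ r) (∑ i, ρ i))
    (12 * m ^ 2 * κ * ε * Real.log L) ?_ ?_ ?_ ?_ ?_ ?_ ?_
  · -- conclusion
    have h1 : ∑ ρ ∈ tup m T, star P T B K k₀ L ρ ≤
        (2 * (12 * m ^ 2 * κ * ε * Real.log L) + 4 * Real.sqrt (12 * m ^ 2 * κ * ε * Real.log L *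
          Real.log (tup m T).card)) * (tup m T).card := by
      refine le_trans (le_of_eq ?_) hkey
      refine Finset.sum_congr rfl fun ρ hρ => ?_
      unfold star
      refine Finset.sum_congr rfl fun r _ => ?_
      congr 1
      rw [log_a P T B _ m ρ hρ, log_a P T B _ m ρ hρ, ← Finset.sum_sub_distrib]
      rfl
    refine h1.trans ?_
    rw [hcard]
    have hTc : (1 : ℝ) ≤ T.card := by
      exact_mod_cast Finset.card_pos.2 hne
    apply mul_le_mul_of_nonneg_right _ (by positivity)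
    apply num κ ε _ _ m hκ hε hε1 hℓ
    · rw [Real.log_pow]
      exact mul_le_mul_of_nonneg_left hlog (Nat.cast_nonneg m)
  · -- nonempty
    obtain ⟨s, hs⟩ := hne
    exact ⟨fun _ => s, by simp [tup, hs]⟩
  · intro r _ x hx y hy hxy
    funext i
    exact (hCMP P (B ^ hl K k₀ r) (hBg _)).2.2.2.2.1 _ (hmono r) _ (hTP _ (hmem x hx i)) _
      (hTP _ (hmem y hy i)) (congrFun hxy i)
  · intro r _ x hx y hy hxy
    have e1 := ((hSUM P (B ^ hl K k₀ r) m (hBg _)).1 x ∅ fun i => hTP _ (hmem x hx i)).1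
    have e2 := ((hSUM P (B ^ hl K k₀ r) m (hBg _)).1 y ∅ fun i => hTP _ (hmem y hy i)).1
    exact (hCMP (sm m P) (B ^ hl K k₀ r) (hBg _)).2.2.2.2.1 _ (hmono r) _ e1 _ e2 hxy
  · intro r _ x hx y hy hxy
    exact (hSUM P (B ^ hl K k₀ r) m (hBg _)).2.2.1 x y (fun i => hTP _ (hmem x hx i))
      (fun i => hTP _ (hmem y hy i)) fun i => congrFun hxy i
  · intro x hx y hy hxy
    funext i
    have h0 : hl K k₀ 0 = 3 := rfl
    have h1 := congrFun hxy i
    simp only [h0] at h1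
    rw [(hCMP P (B ^ 3) (hBg _)).2.2.2.1 _ (hT _ (hmem x hx i)).1,
      (hCMP P (B ^ 3) (hBg _)).2.2.2.1 _ (hT _ (hmem y hy i)).1] at h1
    exact h1
  · intro x hx y hy
    funext i
    have h0 : hl K k₀ (2 * L + 1) = gl K k₀ L + 1 := by
      unfold hl
      have e1 : (2 * L + 1) / 2 = L := by omega
      have e2 : (2 * L + 1) % 2 = 1 := by omega
      rw [e1, e2]
    have h1 : L ≤ gl K k₀ L + 1 := by
      unfold gl
      rw [if_neg (by omega)]
      nlinarith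
    have h2 : B ^ L ≤ B ^ hl K k₀ (2 * L + 1) := by
      rw [h0]
      exact Nat.pow_le_pow_right hB1 h1
    have hall : ∀ u ∈ T, ∀ v ∈ T, u ≤ v → st P (B ^ hl K k₀ (2 * L + 1)) u =
        st P (B ^ hl K k₀ (2 * L + 1)) v := by
      intro u hu v hv huv
      by_contra hcon
      have h3 := (hCMP P (B ^ hl K k₀ (2 * L + 1)) (hBg _)).2.1 u (hTP u hu) v (hTP v hv) huv hcon
      have h4 := (hT v hv).2
      omega
    show st P (B ^ hl K k₀ (2 * L + 1)) (x i) = st P (B ^ hl K k₀ (2 * L + 1)) (y i)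
    rcases le_total (x i) (y i) with h | h
    · exact hall _ (hmem x hx i) _ (hmem y hy i) h
    · exact (hall _ (hmem y hy i) _ (hmem x hx i) h).symm
  · -- ambiguity
    rw [hcard]
    refine le_trans (le_of_eq ?_) hamt
    refine Finset.sum_congr rfl fun ρ hρ => ?_
    refine Finset.sum_congr rfl fun r _ => ?_
    rw [log_a P T B _ m ρ hρ]
    have hf : ((tup m T).filter fun y =>
        (fun i => st P (B ^ hl K k₀ (r + 1)) (y i)) = (fun i => st P (B ^ hl K k₀ (r + 1)) (ρ i)) ∧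
        st (sm m P) (B ^ hl K k₀ r) (∑ i, y i) = st (sm m P) (B ^ hl K k₀ r) (∑ i, ρ i)) =
        (tup m T).filter fun ρ' =>
        (∀ i, st P (B ^ hl K k₀ (r + 1)) (ρ' i) = st P (B ^ hl K k₀ (r + 1)) (ρ i)) ∧
        st (sm m P) (B ^ hl K k₀ r) (∑ i, ρ' i) = st (sm m P) (B ^ hl K k₀ r) (∑ i, ρ i) := by
      ext ρ'
      simp only [Finset.mem_filter, funext_iff]
    rw [hf]

end Pool.Agent.Lib.MP5b6025.EP
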