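import Pool.Agent.Lib.MP_5b6025_nt.EP.Spec

/-!
# MP_5b6025_nt, every power of `log N`: module SUM (sumsets)
-/

set_option autoImplicit false

namespace Pool.Agent.Lib.MP5b6025.EP.SUMM

lemma sm_succ_mem {m : ℕ} {V : Finset ℕ} {a v : ℕ} (ha : a ∈ sm m V) (hv : v ∈ V) :
    a + v ∈ sm (m + 1) V := by
  unfold sm
  exact Finset.mem_image.2 ⟨(a, v), Finset.mem_product.2 ⟨ha, hv⟩, rfl⟩

lemma sm_add_mem {V : Finset ℕ} {m a : ℕ} (ha : a ∈ sm m V) :
    ∀ (n b : ℕ), b ∈ sm n V → a + b ∈ sm (m + n) V := by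
  intro n
  induction n with
  | zero =>
    intro b hb
    simp only [sm, Finset.mem_singleton] at hb
    subst hb
    simpa using ha
  | succ n ih =>
    intro b hb
    obtain ⟨x, hx, rfl⟩ := Finset.mem_image.1 (show b ∈ (sm n V ×ˢ V).image _ from hb)
    rw [Finset.mem_product] at hx
    have := sm_succ_mem (ih x.1 hx.1) hx.2
    show a + (x.1 + x.2) ∈ sm (m + (n + 1)) V
    rw [← add_assoc a]
    exact this

lemma sum_mem {ι : Type} [DecidableEq ι] {V : Finset ℕ} {ρ : ι → ℕ} (I : Finset ι) :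
    (∀ i ∈ I, ρ i ∈ V) → ∑ i ∈ I, ρ i ∈ sm I.card V := by
  induction I using Finset.induction_on with
  | empty => intro _; simp [sm]
  | insert a J ha ih =>
    intro h
    rw [Finset.sum_insert ha, Finset.card_insert_of_notMem ha, add_comm (ρ a)]
    exact sm_succ_mem (ih fun i hi => h i (Finset.mem_insert_of_mem hi))
      (h a (Finset.mem_insert_self _ _))

lemma card_sm (V : Finset ℕ) : ∀ m, (sm m V).card ≤ V.card ^ m := by
  intro m
  induction m with
  | zero => simp [sm]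
  | succ m ih =>
    unfold sm
    refine Finset.card_image_le.trans ?_
    rw [Finset.card_product, pow_succ]
    exact Nat.mul_le_mul_right _ ih

lemma st_sum (hCMP : SpecCMP) {ι : Type} [DecidableEq ι] {V : Finset ℕ} {τ : ℕ} (hτ : 1 ≤ τ)
    {ρ ρ' : ι → ℕ} (I : Finset ι) :
    (∀ i ∈ I, ρ i ∈ V) → (∀ i ∈ I, ρ' i ∈ V) → (∀ i ∈ I, st V τ (ρ i) = st V τ (ρ' i)) →
      st (sm I.card V) τ (∑ i ∈ I, ρ i) = st (sm I.card V) τ (∑ i ∈ I, ρ' i) := by
  induction I using Finset.induction_on with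
  | empty => intro _ _ _; simp
  | insert a J ha ih =>
    intro h h' hst
    rw [Finset.sum_insert ha, Finset.sum_insert ha, Finset.card_insert_of_notMem ha]
    have hc : ∑ i ∈ J, ρ i ∈ sm J.card V := sum_mem J fun i hi => h i (Finset.mem_insert_of_mem hi)
    have hc' : ∑ i ∈ J, ρ' i ∈ sm J.card V :=
      sum_mem J fun i hi => h' i (Finset.mem_insert_of_mem hi)
    have h1 : st (sm (J.card + 1) V) τ (ρ a + ∑ i ∈ J, ρ i) =
        st (sm (J.card + 1) V) τ (ρ' a + ∑ i ∈ J, ρ i) :=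
      (hCMP V τ hτ).2.2.2.2.2.1 (sm (J.card + 1) V) (∑ i ∈ J, ρ i)
        (fun v hv => by rw [add_comm v]; exact sm_succ_mem hc hv) _
        (h a (Finset.mem_insert_self _ _)) _ (h' a (Finset.mem_insert_self _ _))
        (hst a (Finset.mem_insert_self _ _))
    have h2 : st (sm (J.card + 1) V) τ (∑ i ∈ J, ρ i + ρ' a) =
        st (sm (J.card + 1) V) τ (∑ i ∈ J, ρ' i + ρ' a) :=
      (hCMP (sm J.card V) τ hτ).2.2.2.2.2.1 (sm (J.card + 1) V) (ρ' a)
        (fun v hv => sm_succ_mem hv (h' a (Finset.mem_insert_self _ _))) _ hc _ hc'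
        (ih (fun i hi => h i (Finset.mem_insert_of_mem hi))
          (fun i hi => h' i (Finset.mem_insert_of_mem hi))
          (fun i hi => hst i (Finset.mem_insert_of_mem hi)))
    rw [h1, add_comm (ρ' a), h2, add_comm (∑ i ∈ J, ρ' i)]

end Pool.Agent.Lib.MP5b6025.EP.SUMM

namespace Pool.Agent.Lib.MP5b6025.EP

open SUMM

theorem specSUM (hCMP : SpecCMP) : SpecSUM := by
  intro V τ m hτ
  refine ⟨?_, card_sm V m, ?_, ?_⟩
  · intro ρ I h
    refine ⟨?_, sum_mem I fun i _ => h i⟩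
    have := sum_mem (ρ := ρ) (V := V) (Finset.univ : Finset (Fin m)) fun i _ => h i
    simpa using this
  · intro ρ ρ' h h' hst
    have := st_sum hCMP hτ (V := V) (ρ := ρ) (ρ' := ρ') (Finset.univ : Finset (Fin m))
      (fun i _ => h i) (fun i _ => h' i) (fun i _ => hst i)
    simpa using this
  · intro ρ ρ' h h' I I' hI heq hst
    have hcard : I.card + (I' \ I).card = I'.card := by
      rw [add_comm]
      exact Finset.card_sdiff_add_card_eq_card hI
    have hc : ∑ i ∈ I' \ I, ρ i ∈ sm (I' \ I).card V := sum_mem _ fun i _ => h i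
    have hs : ∀ σ : Fin m → ℕ, ∑ i ∈ I', σ i = ∑ i ∈ I, σ i + ∑ i ∈ I' \ I, σ i := by
      intro σ
      rw [add_comm]
      exact (Finset.sum_sdiff hI).symm
    have hc' : ∑ i ∈ I' \ I, ρ' i = ∑ i ∈ I' \ I, ρ i := by
      apply Finset.sum_congr rfl
      intro i hi
      rw [Finset.mem_sdiff] at hi
      exact (heq i hi.1 hi.2).symm
    rw [hs ρ, hs ρ', hc']
    refine (hCMP (sm I.card V) τ hτ).2.2.2.2.2.1 (sm I'.card V) _ (fun v hv => ?_) _
      (sum_mem I fun i _ => h i) _ (sum_mem I fun i _ => h' i) hst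
    rw [← hcard]
    exact sm_add_mem hv _ _ hc

end Pool.Agent.Lib.MP5b6025.EP
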