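import Pool.Agent.Lib.MP_5b6025_nt.EP.SpecI
import Pool.Agent.Lib.MP_5b6025_nt.DD.Asm

/-!
Module THM (helper91): the theorem, from PI and PII.
-/

set_option autoImplicit false

open Polynomial

namespace Pool.Agent.Lib.MP5b6025.EP

namespace THMM

/-- A large prime without roots. -/
lemma exists_prime (hRLS : DD.SpecRLS) (P : ℤ[X]) (hP : Irreducible (P.map (Int.castRingHom ℚ)))
    (hd : 2 ≤ P.natDegree) (M : ℕ) : ∃ p : ℕ, p.Prime ∧ M < p ∧ DD.nr P p = 0 := by
  obtain ⟨x₀, hx₀⟩ := hRLS P hP hd (1 / 2) (by norm_num)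
  set x := max x₀ ((M + 2) ^ 2) with hx
  have h1 := hx₀ x (le_max_left _ _)
  have h2 : ((M : ℝ) + 2) ≤ (x : ℝ) ^ (1 - 1 / 2 : ℝ) := by
    have h3 : (((M + 2) ^ 2 : ℕ) : ℝ) ≤ (x : ℝ) := by
      exact_mod_cast le_max_right x₀ ((M + 2) ^ 2)
    have h4 : ((M : ℝ) + 2) = (((M + 2) ^ 2 : ℕ) : ℝ) ^ (1 - 1 / 2 : ℝ) := by
      have h5 : (1 - 1 / 2 : ℝ) = 1 / 2 := by norm_num
      rw [h5, ← Real.sqrt_eq_rpow]
      push_cast
      rw [Real.sqrt_sq (by positivity)]
    rw [h4]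
    exact Real.rpow_le_rpow (by positivity) h3 (by norm_num)
  by_contra hcon
  push Not at hcon
  have h3 : ((Finset.range (x + 1)).filter fun l => l.Prime ∧ DD.nr P l = 0).card ≤ M + 1 := by
    calc _ ≤ (Finset.range (M + 1)).card := by
          apply Finset.card_le_card
          intro l hl
          rw [Finset.mem_filter] at hl
          rw [Finset.mem_range]
          by_contra h4
          exact hcon l hl.2.1 (by omega) hl.2.2
      _ = M + 1 := Finset.card_range _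
  have h4 : (((Finset.range (x + 1)).filter fun l => l.Prime ∧ DD.nr P l = 0).card : ℝ) ≤
      M + 1 := by exact_mod_cast h3
  linarith

lemma cnt_le (t : ℕ → ℤ) (N : ℕ) :
    DD.cnt {x | t x ≠ 0} N ≤ ((Finset.range N).filter fun i => t i ≠ 0).card + 1 := by
  unfold DD.cnt
  have h1 : (Finset.range (N + 1)) = insert N (Finset.range N) := Finset.range_add_one
  calc _ ≤ (insert N ((Finset.range N).filter fun i => t i ≠ 0)).card := by
        apply Finset.card_le_card
        intro x hx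
        have hx' := (@Finset.mem_filter _ _ (_) _ _).1 hx
        rw [h1, Finset.mem_insert] at hx'
        rw [Finset.mem_insert, Finset.mem_filter]
        rcases hx'.1 with h2 | h2
        · exact Or.inl h2
        · exact Or.inr ⟨h2, hx'.2⟩
    _ ≤ _ := Finset.card_insert_le _ _

end THMM

open THMM in
/-- Module THM. -/
theorem specTHM (hPI : SpecPI) (hPII : SpecPII) (hRLS : DD.SpecRLS) (hSPL : DD.SpecSPL) :
    SpecTHM := by
  intro b t B hb ht halg hirr c
  by_contra hcon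
  push Not at hcon
  obtain ⟨P, hPirr, hPβ, hPd⟩ := DD.AsmM.exists_poly halg hirr
  obtain ⟨l₀, hl₀⟩ := hSPL P hPirr
  set κ₀ : ℝ := max c 1 + 1 with hκ₀
  have hκ1 : 1 ≤ κ₀ := by
    have := le_max_right c 1
    linarith
  set κ : ℝ := 5 * κ₀ * P.natDegree with hκ
  have hκ' : 1 ≤ κ := by
    have h1 : (2 : ℝ) ≤ P.natDegree := by exact_mod_cast hPd
    rw [hκ]
    nlinarith
  obtain ⟨p, hp, hpM, hnr⟩ := exists_prime hRLS P hPirr hPd
    (l₀ + b + (2 * ⌊2 * κ⌋₊).choose ⌊2 * κ⌋₊)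
  have : Fact p.Prime := ⟨hp⟩
  have hl := hl₀ p hp (by omega)
  have hfew : ∀ N₀ : ℕ, ∃ N : ℕ, N₀ ≤ N ∧
      (DD.cnt {x | t x ≠ 0} N : ℝ) + 1 ≤ Real.log N ^ κ₀ := by
    intro N₀
    obtain ⟨N, hN, hN2⟩ := hcon (max N₀ 21)
    refine ⟨N, le_trans (le_max_left _ _) hN, ?_⟩
    have hN21 : (21 : ℝ) ≤ N := by exact_mod_cast le_trans (le_max_right N₀ 21) hN
    have hlog : 3 ≤ Real.log N := by
      rw [Real.le_log_iff_exp_le (by linarith)]
      have h3 : Real.exp 3 = Real.exp 1 ^ 3 := by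
        rw [← Real.exp_nat_mul]
        norm_num
      rw [h3]
      have h1 := Real.exp_one_lt_d9
      have h0 := Real.exp_pos 1
      calc Real.exp 1 ^ 3 ≤ 2.7182818286 ^ 3 := pow_le_pow_left₀ h0.le h1.le 3
        _ ≤ 21 := by norm_num
        _ ≤ N := hN21
    have h1 : (DD.cnt {x | t x ≠ 0} N : ℝ) ≤
        ((Finset.range N).filter fun i => t i ≠ 0).card + 1 := by
      exact_mod_cast cnt_le t N
    have h2 : Real.log N ^ c ≤ Real.log N ^ (max c 1) :=
      Real.rpow_le_rpow_of_exponent_le (by linarith) (le_max_left _ _)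
    have h3 : Real.log N ^ κ₀ = Real.log N ^ (max c 1) * Real.log N := by
      rw [hκ₀, Real.rpow_add_one (by linarith)]
    have h4 : 1 ≤ Real.log N ^ (max c 1) :=
      Real.one_le_rpow (by linarith) (by have := le_max_right c 1; linarith)
    rw [h3]
    nlinarith
  obtain ⟨k, _, _, _, hk⟩ := hPI b (B + 1) p t P κ₀ hb (by omega)
    (fun n => (ht n).trans (by push_cast; omega))
    (fun hdvd => by
      have := Nat.le_of_dvd (by omega) hdvd
      omega) hPβ hPd hl.1 hl.2 (DD.AsmM.no_root hnr) hκ1 hfew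
  obtain ⟨ε, C, L₀, hε, _, hPII'⟩ := hPII k κ hκ' (by
    intro j hj1 hj2 hj0
    rw [CharP.cast_eq_zero_iff k p j] at hj0
    have := Nat.le_of_dvd (by omega) hj0
    omega)
  obtain ⟨L, B', V, T, Z, e, hL, hC, hS⟩ := hk ε C L₀ hε
  exact hPII' L B' V T Z e hL hC hS

end Pool.Agent.Lib.MP5b6025.EP
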