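import Pool.Agent.Lib.MP_5b6025_nt.EP.CNS

/-!
# MP_5b6025_nt, row 162: module UNQ (helper73)

A leaf is determined by its content.
-/

set_option autoImplicit false

namespace Pool.Agent.Lib.MP5b6025.EP.UNQM

open Finset CNSM

section
variable {P T : Finset ℕ} {B K k₀ L m : ℕ} {κ y₀ y₁ y b : ℝ}

/-- The sum of a tuple is the `i`-th entry plus the sum of the rest. -/
lemma sum_split (ρ : Fin (m + 1) → ℕ) (i : Fin (m + 1)) :
    ∑ j, ρ j = ρ i + ∑ j : Fin m, ρ (i.succAbove j) := Fin.sum_univ_succAbove ρ i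

/-- The rests are in the same node of level `g + 1`, if the entries are in the same node of level
`g`. -/
lemma rest_same (hc : SpecCMP) (hsu : SpecSUM)
    (h : Par P T B K k₀ L m κ y₀ y₁ y b) {ρ ρ' : Fin (m + 1) → ℕ}
    (hρ : ∀ i, ρ i ∈ T) (hρ' : ∀ i, ρ' i ∈ T) (hS : Sz P B ρ ρ') {g : ℕ} (hg : 3 ≤ g)
    {i : Fin (m + 1)} (hi : st P (B ^ g) (ρ i) = st P (B ^ g) (ρ' i)) :
    st (sm m P) (B ^ (g + 1)) (∑ j : Fin m, ρ (i.succAbove j)) =
      st (sm m P) (B ^ (g + 1)) (∑ j : Fin m, ρ' (i.succAbove j)) := by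
  have hTP := par_TP h
  have hB := par_B h
  by_contra hne
  have h1 := sum_near hc hsu hTP (by omega) hρ hρ' hS
  have h2 := near hc (Nat.one_le_pow _ B (by omega)) (hTP (hρ i)) (hTP (hρ' i)) hi
  have h3 := far hc (Nat.one_le_pow _ B (by omega))
    (sum_mem hsu hTP (ρ := fun j : Fin m => ρ (i.succAbove j)) fun j => hρ _)
    (sum_mem hsu hTP (ρ := fun j : Fin m => ρ' (i.succAbove j)) fun j => hρ' _) hne
  rw [sum_split ρ i, sum_split ρ' i] at h1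
  set Y := ∑ j : Fin m, ρ (i.succAbove j)
  set Y' := ∑ j : Fin m, ρ' (i.succAbove j)
  push_cast at h1 h2 h3
  have h4 : |(Y : ℤ) - Y'| ≤ |((ρ i : ℤ) + Y) - (ρ' i + Y')| + |(ρ i : ℤ) - ρ' i| := by
    have e := abs_sub (((ρ i : ℤ) + Y) - (ρ' i + Y')) ((ρ i : ℤ) - ρ' i)
    have e2 : (((ρ i : ℤ) + Y) - (ρ' i + Y')) - ((ρ i : ℤ) - ρ' i) = (Y : ℤ) - Y' := by ring
    rw [e2] at e
    exact e
  have hnum := par_num h
  have hnum' : (P.card : ℤ) ^ (m + 1) + (P.card : ℤ) ^ m + ((m : ℤ) + 1) * P.card < B := by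
    exact_mod_cast hnum
  have hBg : (B : ℤ) ^ 3 ≤ (B : ℤ) ^ g := pow_le_pow_right₀ (by exact_mod_cast (by omega : 1 ≤ B)) hg
  have hBpos : (0 : ℤ) < (B : ℤ) ^ g := by positivity
  have h7 : (P.card : ℤ) ^ (m + 1) * (B : ℤ) ^ 3 ≤ (P.card : ℤ) ^ (m + 1) * (B : ℤ) ^ g :=
    mul_le_mul_of_nonneg_left hBg (by positivity)
  have h8 : (B : ℤ) ^ (g + 1) = (B : ℤ) ^ g * B := pow_succ _ _
  have h9 : ((P.card : ℤ) ^ (m + 1) + P.card) * (B : ℤ) ^ g ≤ B * (B : ℤ) ^ g := by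
    refine mul_le_mul_of_nonneg_right ?_ hBpos.le
    have : (0 : ℤ) ≤ (P.card : ℤ) ^ m := by positivity
    have : (0 : ℤ) ≤ (m : ℤ) * P.card := by positivity
    nlinarith
  rw [h8] at h3
  nlinarith

/-- The rests are in different nodes of level `g`, if the entries are in different nodes of level
`g + 2`. -/
lemma rest_diff (hc : SpecCMP) (hsu : SpecSUM)
    (h : Par P T B K k₀ L m κ y₀ y₁ y b) {ρ ρ' : Fin (m + 1) → ℕ}
    (hρ : ∀ i, ρ i ∈ T) (hρ' : ∀ i, ρ' i ∈ T) (hS : Sz P B ρ ρ') {g : ℕ} (hg : 3 ≤ g)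
    {i : Fin (m + 1)} (hi : st P (B ^ (g + 2)) (ρ i) ≠ st P (B ^ (g + 2)) (ρ' i)) :
    st (sm m P) (B ^ g) (∑ j : Fin m, ρ (i.succAbove j)) ≠
      st (sm m P) (B ^ g) (∑ j : Fin m, ρ' (i.succAbove j)) := by
  have hTP := par_TP h
  have hB := par_B h
  intro heq
  have h1 := sum_near hc hsu hTP (by omega) hρ hρ' hS
  have h2 := far hc (Nat.one_le_pow _ B (by omega)) (hTP (hρ i)) (hTP (hρ' i)) hi
  have h3 := near hc (Nat.one_le_pow _ B (by omega))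
    (sum_mem hsu hTP (ρ := fun j : Fin m => ρ (i.succAbove j)) fun j => hρ _)
    (sum_mem hsu hTP (ρ := fun j : Fin m => ρ' (i.succAbove j)) fun j => hρ' _) heq
  rw [sum_split ρ i, sum_split ρ' i] at h1
  set Y := ∑ j : Fin m, ρ (i.succAbove j)
  set Y' := ∑ j : Fin m, ρ' (i.succAbove j)
  have hsc : ((sm m P).card : ℤ) ≤ (P.card : ℤ) ^ m := by exact_mod_cast sm_card hsu P m
  push_cast at h1 h2 h3
  have h4 : |(ρ i : ℤ) - ρ' i| ≤ |((ρ i : ℤ) + Y) - (ρ' i + Y')| + |(Y : ℤ) - Y'| := by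
    have e := abs_sub (((ρ i : ℤ) + Y) - (ρ' i + Y')) ((Y : ℤ) - Y')
    have e2 : (((ρ i : ℤ) + Y) - (ρ' i + Y')) - ((Y : ℤ) - Y') = (ρ i : ℤ) - ρ' i := by ring
    rw [e2] at e
    exact e
  have hnum := par_num h
  have hnum' : (P.card : ℤ) ^ (m + 1) + (P.card : ℤ) ^ m + ((m : ℤ) + 1) * P.card < B := by
    exact_mod_cast hnum
  have hBg : (B : ℤ) ^ 3 ≤ (B : ℤ) ^ g := pow_le_pow_right₀ (by exact_mod_cast (by omega : 1 ≤ B)) hg
  have hBpos : (0 : ℤ) < (B : ℤ) ^ g := by positivity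
  have h7 : (P.card : ℤ) ^ (m + 1) * (B : ℤ) ^ 3 ≤ (P.card : ℤ) ^ (m + 1) * (B : ℤ) ^ g :=
    mul_le_mul_of_nonneg_left hBg (by positivity)
  have h7' : ((sm m P).card : ℤ) * (B : ℤ) ^ g ≤ (P.card : ℤ) ^ m * (B : ℤ) ^ g :=
    mul_le_mul_of_nonneg_right hsc hBpos.le
  have h8 : (B : ℤ) ^ (g + 2) = (B : ℤ) ^ g * (B * B) := by ring
  have h9 : ((P.card : ℤ) ^ (m + 1) + (P.card : ℤ) ^ m) * (B : ℤ) ^ g ≤ B * (B : ℤ) ^ g := by
    refine mul_le_mul_of_nonneg_right ?_ hBpos.le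
    have : (0 : ℤ) ≤ ((m : ℤ) + 1) * P.card := by positivity
    linarith
  have hB1 : (1 : ℤ) < B := by exact_mod_cast (by omega : 1 < B)
  have h10 : (B : ℤ) * (B : ℤ) ^ g < (B : ℤ) ^ g * (B * B) := by
    have : (B : ℤ) ^ g * B < (B : ℤ) ^ g * (B * B) :=
      mul_lt_mul_of_pos_left (by nlinarith) hBpos
    linarith
  rw [h8] at h2
  nlinarith

/-- The weight of a rest at level `gl v` is large. -/
lemma rest_big (hw : SpecWT)
    (h : Par P T B K k₀ L m κ y₀ y₁ y b) {ρ : Fin (m + 1) → ℕ}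
    (hρ : Typ P T B K k₀ L y₀ y₁ y b ρ) {v : ℕ} (hv : v < L) {i : Fin (m + 1)}
    (hi : Ac P T B K k₀ v (ρ i)) :
    Real.log (wz P T B (gl K k₀ (v + 1) + 1) fun j : Fin m => ρ (i.succAbove j)) -
      Real.log (wz P T B (gl K k₀ v) fun j : Fin m => ρ (i.succAbove j)) ≤
      2 * y * Real.log L := by
  have hTP := par_TP h
  have hB := par_B h
  have hstep := gl_step k₀ h.hK v
  have hb := star_bound (P := P) (T := T) (B := B) (K := K) (k₀ := k₀) (L := L)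
    (fun j : Fin m => ρ (i.succAbove j)) (a := 2 * v) (c := 2 * (v + 1) + 1) (by omega) (by omega)
  rw [hl_even, hl_odd] at hb
  have hb2 := (abs_le.1 (hb.trans (hρ.t4 i))).2
  have hco : ∑ j : Fin m, co P T B (gl K k₀ v) (gl K k₀ (v + 1) + 1) (ρ (i.succAbove j)) ≤
      ∑ _j : Fin m, (2 : ℝ) := by
    refine Finset.sum_le_sum fun j _ => ?_
    have hne : i ≠ i.succAbove j := (Fin.succAbove_ne i j).symm
    have hna := (hρ.t1 v hv i _ hne hi).1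
    have e1 := cc_lt hw hTP hB (hρ.mem _) (hρ.t0 _) hv.le hna
    have e2 := t0_co hw hTP hB (hρ.mem (i.succAbove j)) (hρ.t0 _) (v := v + 1) (by omega)
    have e3 := co_nn (g := gl K k₀ (v + 1) + 1) (g' := gl K k₀ (v + 1) + 2) hw hTP hB (by omega)
      (hρ.mem (i.succAbove j))
    rw [co_add _ (gl K k₀ (v + 1) + 1)] at e2
    rw [co_add _ (gl K k₀ (v + 1))]
    unfold cc at e1
    linarith
  rw [Finset.sum_const, Finset.card_univ, Fintype.card_fin, nsmul_eq_mul] at hco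
  have hyL := h.hyL
  have hm : (0 : ℝ) ≤ m := Nat.cast_nonneg m
  unfold cz at hb2
  linarith

lemma wz_pos {n : ℕ} {g : ℕ} {Y : Fin n → ℕ} (hY : ∀ j, Y j ∈ T) : 1 ≤ wz P T B g Y := by
  unfold wz
  rw [Nat.one_le_iff_ne_zero, ← Nat.pos_iff_ne_zero, Finset.card_pos]
  refine ⟨Y, Finset.mem_filter.2 ⟨?_, rfl⟩⟩
  unfold tup
  rw [Fintype.mem_piFinset]
  exact hY

/-- If `Y` and `Y'` are in the same node of level `g'` but in different nodes of level `g`. -/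
lemma wz_add (hc : SpecCMP) (hsu : SpecSUM) (hTP : T ⊆ P) (hB : 1 ≤ B) {n g g' : ℕ}
    (hg : g ≤ g') {Y Y' : Fin n → ℕ} (hY : ∀ j, Y j ∈ T) (hY' : ∀ j, Y' j ∈ T)
    (h1 : st (sm n P) (B ^ g') (∑ j, Y j) = st (sm n P) (B ^ g') (∑ j, Y' j))
    (h2 : st (sm n P) (B ^ g) (∑ j, Y j) ≠ st (sm n P) (B ^ g) (∑ j, Y' j)) :
    wz P T B g Y + wz P T B g Y' ≤ wz P T B g' Y' ∧ wz P T B g' Y = wz P T B g' Y' := by
  have e : wz P T B g' Y = wz P T B g' Y' := by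
    unfold wz
    rw [h1]
  refine ⟨?_, e⟩
  unfold wz
  rw [← Finset.card_union_of_disjoint]
  · refine Finset.card_le_card ?_
    intro x hx
    rw [Finset.mem_union, Finset.mem_filter, Finset.mem_filter] at hx
    rw [Finset.mem_filter]
    have hmem : ∀ x : Fin n → ℕ, x ∈ tup n T → ∀ i, x i ∈ T := by
      intro x hx
      unfold tup at hx
      rwa [Fintype.mem_piFinset] at hx
    rcases hx with hx | hx
    · exact ⟨hx.1, (up hc hB hg (sum_mem hsu hTP (hmem x hx.1)) (sum_mem hsu hTP hY) hx.2).trans h1⟩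
    · exact ⟨hx.1, up hc hB hg (sum_mem hsu hTP (hmem x hx.1)) (sum_mem hsu hTP hY') hx.2⟩
  · rw [Finset.disjoint_left]
    intro x hx hx'
    rw [Finset.mem_filter] at hx hx'
    exact h2 (hx.2.symm.trans hx'.2)

/-- The main step: `ρ i` active at `v`. -/
lemma key (hc : SpecCMP) (hsu : SpecSUM) (hw : SpecWT)
    (h : Par P T B K k₀ L m κ y₀ y₁ y b) {ρ ρ' : Fin (m + 1) → ℕ}
    (hρ : Typ P T B K k₀ L y₀ y₁ y b ρ) (hρ' : Typ P T B K k₀ L y₀ y₁ y b ρ')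
    (hS : Sz P B ρ ρ') {i : Fin (m + 1)}
    (hJ : Jc P T B K k₀ L y₁ (ρ i) = Jc P T B K k₀ L y₁ (ρ' i)) {v : ℕ} (hvL : v < L)
    (hup : st P (B ^ gl K k₀ (v + 1)) (ρ i) = st P (B ^ gl K k₀ (v + 1)) (ρ' i))
    (hdo : st P (B ^ (gl K k₀ v + 2)) (ρ i) ≠ st P (B ^ (gl K k₀ v + 2)) (ρ' i))
    (ha : Ac P T B K k₀ v (ρ i)) : False := by
  have hTP := par_TP h
  have hB := par_B h
  obtain ⟨a1, a2, a3, a4⟩ := h.hy
  have hlog := par_logL h
  have hstep := gl_step k₀ h.hK v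
  have hge := gl_ge k₀ h.hK v
  have hL0 : (0 : ℝ) < L := by
    have := h.hL
    exact_mod_cast (by omega : 0 < L)
  have hr1 := rest_same hc hsu h hρ.mem hρ'.mem hS (by omega) hup
  have hr2 := rest_diff hc hsu h hρ.mem hρ'.mem hS hge hdo
  have hbig := rest_big hw h hρ hvL ha
  have hadd := wz_add (g := gl K k₀ v) (g' := gl K k₀ (v + 1) + 1) hc hsu hTP (by omega) (by omega)
    (Y := fun j : Fin m => ρ (i.succAbove j)) (Y' := fun j : Fin m => ρ' (i.succAbove j))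
    (fun j => hρ.mem _) (fun j => hρ'.mem _) hr1 hr2
  set Y : Fin m → ℕ := fun j => ρ (i.succAbove j) with hYdef
  set Y' : Fin m → ℕ := fun j => ρ' (i.succAbove j) with hY'def
  have p1 : (0 : ℝ) < wz P T B (gl K k₀ v) Y := by
    have := wz_pos (P := P) (B := B) (g := gl K k₀ v) (Y := Y) fun j => hρ.mem _
    exact_mod_cast this
  have p2 : (0 : ℝ) < wz P T B (gl K k₀ (v + 1) + 1) Y := by
    have := wz_pos (P := P) (B := B) (g := gl K k₀ (v + 1) + 1) (Y := Y) fun j => hρ.mem _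
    exact_mod_cast this
  have hlow : (L : ℝ) ^ (-(2 * y)) * wz P T B (gl K k₀ (v + 1) + 1) Y ≤ wz P T B (gl K k₀ v) Y := by
    rw [← Real.log_le_log_iff (by positivity) p1, Real.log_mul (by positivity) p2.ne',
      Real.log_rpow hL0]
    linarith
  have hBr : v ∈ Br P T B K k₀ L y Y' := by
    unfold Br
    rw [Finset.mem_filter, Finset.mem_range]
    refine ⟨hvL, ?_⟩
    have hadd1 : (wz P T B (gl K k₀ v) Y : ℝ) + wz P T B (gl K k₀ v) Y' ≤
        wz P T B (gl K k₀ (v + 1) + 1) Y' := by exact_mod_cast hadd.1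
    have hadd2 : (wz P T B (gl K k₀ (v + 1) + 1) Y : ℝ) = wz P T B (gl K k₀ (v + 1) + 1) Y' := by
      exact_mod_cast hadd.2
    rw [hadd2] at hlow
    linarith
  obtain ⟨q1, q2⟩ := hρ'.t5 i v hBr
  have hpc : pc P T B K k₀ v (ρ i) < (L : ℝ) ^ (-1 + y₀) := by
    have e : pc P T B K k₀ v (ρ i) = pc P T B K k₀ v (ρ' i) := pa_congr hup
    rw [e]
    exact q1
  have hbc := big_cc hw hTP hB h.hK (by have := h.hL; omega) (hρ.mem i) ha hpc
  have hmem : v ∈ Jc P T B K k₀ L y₁ (ρ i) := by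
    rcases hρ.t2 v hvL i with h2 | h2
    · exact absurd h2 (not_lt.2 hbc.le)
    · exact mem_Jc.2 ⟨hvL, h2⟩
  rw [hJ] at hmem
  exact q2 (Jc_act hw h (hρ'.mem i) (hρ'.t0 i) hmem)

end

end Pool.Agent.Lib.MP5b6025.EP.UNQM

namespace Pool.Agent.Lib.MP5b6025.EP

open CNSM UNQM

theorem specUNQ (hc : SpecCMP) (hsu : SpecSUM) (hw : SpecWT) : SpecUNQ := by
  intro P T B K k₀ L m κ y₀ y₁ y b h ρ ρ' hρ hρ' hS i hJ
  by_contra hne
  have hTP := par_TP h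
  have hB := par_B h
  obtain ⟨v, hvL, hv, hv'⟩ := switch
    (p := fun v => st P (B ^ gl K k₀ v) (ρ i) = st P (B ^ gl K k₀ v) (ρ' i)) (n := L)
    (fun h0 => hne (by rwa [bot_node hc h (hρ.mem i), bot_node hc h (hρ'.mem i)] at h0))
    (top_node hc h (hρ.mem i) (hρ'.mem i))
  have hdo : st P (B ^ (gl K k₀ v + 2)) (ρ i) ≠ st P (B ^ (gl K k₀ v + 2)) (ρ' i) := fun he =>
    hv (t0_node hc hw hTP hB (hρ.mem i) (hρ'.mem i) (hρ.t0 i) (hρ'.t0 i) hvL.le he)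
  rcases sep_act hc hTP hB h.hK (hρ.mem i) (hρ'.mem i) hv' hdo with ha | ha
  · exact key hc hsu hw h hρ hρ' hS hJ hvL hv' hdo ha
  · exact key hc hsu hw h hρ' hρ hS.symm hJ.symm hvL hv'.symm (Ne.symm hdo) ha

end Pool.Agent.Lib.MP5b6025.EP
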