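import Pool.Agent.Lib.MP_5b6025_nt.EP.Spec

/-!
# Module WT: weights and costs (helper84)
-/

set_option autoImplicit false

namespace Pool.Agent.Lib.MP5b6025.EP.WTM

/-- The leaves in the node of level `g` of `s`. -/
def V (P T : Finset ℕ) (B g s : ℕ) : Finset ℕ := T.filter fun x => st P (B ^ g) x = st P (B ^ g) s

theorem wt_eq (P T : Finset ℕ) (B g s : ℕ) : wt P T B g s = (V P T B g s).card := rfl

theorem mem_V {P T : Finset ℕ} {B g s x : ℕ} :
    x ∈ V P T B g s ↔ x ∈ T ∧ st P (B ^ g) x = st P (B ^ g) s := by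
  simp [V]

/-- Nested: the nodes of level `g` are contained in nodes of level `g'`. -/
def Nest (P T : Finset ℕ) (B : ℕ) : Prop :=
  ∀ g g', g ≤ g' → ∀ x ∈ T, ∀ y ∈ T, st P (B ^ g) x = st P (B ^ g) y →
    st P (B ^ g') x = st P (B ^ g') y

theorem nest (hC : SpecCMP) (P T : Finset ℕ) (B : ℕ) (hT : T ⊆ P) (hB : 2 ≤ B) : Nest P T B := by
  intro g g' hg x hx y hy h
  have h1 : 1 ≤ B ^ g := Nat.one_le_pow _ _ (by omega)
  exact (hC P (B ^ g) h1).2.2.2.2.1 (B ^ g') (Nat.pow_le_pow_right (by omega) hg) x (hT hx) y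
    (hT hy) h

variable {P T : Finset ℕ} {B : ℕ}

theorem V_congr {g s t : ℕ} (h : st P (B ^ g) s = st P (B ^ g) t) : V P T B g s = V P T B g t := by
  simp [V, h]

theorem wt_congr {g s t : ℕ} (h : st P (B ^ g) s = st P (B ^ g) t) :
    wt P T B g s = wt P T B g t := by
  simp [wt, h]

theorem self_mem {g s : ℕ} (hs : s ∈ T) : s ∈ V P T B g s := mem_V.2 ⟨hs, rfl⟩

theorem wt_pos {g s : ℕ} (hs : s ∈ T) : 1 ≤ wt P T B g s :=
  Finset.card_pos.2 ⟨s, self_mem hs⟩

theorem wt_le {g s : ℕ} : wt P T B g s ≤ T.card := Finset.card_filter_le _ _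

theorem V_sub (hN : Nest P T B) {g g' s : ℕ} (hg : g ≤ g') (hs : s ∈ T) :
    V P T B g s ⊆ V P T B g' s := by
  intro x hx
  rw [mem_V] at hx ⊢
  exact ⟨hx.1, hN g g' hg x hx.1 s hs hx.2⟩

theorem wt_mono (hN : Nest P T B) {g g' s : ℕ} (hg : g ≤ g') (hs : s ∈ T) :
    wt P T B g s ≤ wt P T B g' s := Finset.card_le_card (V_sub hN hg hs)

theorem co_nonneg (hN : Nest P T B) {g g' s : ℕ} (hg : g ≤ g') (hs : s ∈ T) :
    0 ≤ co P T B g g' s := by
  unfold co
  have h1 : (1 : ℝ) ≤ wt P T B g s := by exact_mod_cast wt_pos hs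
  have h2 : (wt P T B g s : ℝ) ≤ wt P T B g' s := by exact_mod_cast wt_mono hN hg hs
  have := Real.log_le_log (by linarith) h2
  linarith

/-- The active leaves in the node of level `g'` of `s`. -/
def Ax (P T : Finset ℕ) (B g g' s : ℕ) : Finset ℕ :=
  T.filter fun x => st P (B ^ g') x = st P (B ^ g') s ∧ Act P T B g g' x

theorem pa_eq (g g' s : ℕ) : pa P T B g g' s = ((Ax P T B g g' s).card : ℝ) / wt P T B g' s := rfl

theorem Ax_sub {g g' s : ℕ} : Ax P T B g g' s ⊆ V P T B g' s := by
  intro x hx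
  simp only [Ax, Finset.mem_filter] at hx
  exact mem_V.2 ⟨hx.1, hx.2.1⟩

theorem pa_nonneg (g g' s : ℕ) : 0 ≤ pa P T B g g' s := by
  rw [pa_eq]; positivity

theorem pa_le_one (g g' s : ℕ) : pa P T B g g' s ≤ 1 := by
  rw [pa_eq]
  have h : ((Ax P T B g g' s).card : ℝ) ≤ wt P T B g' s := by
    exact_mod_cast Finset.card_le_card Ax_sub
  exact div_le_one_of_le₀ h (by positivity)

/-- Averaging over the nodes of level `g`. -/
theorem avg (g : ℕ) (f : ℕ → ℝ) :
    ∑ s ∈ T, (∑ x ∈ V P T B g s, f x) / wt P T B g s = ∑ x ∈ T, f x := by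
  have h1 : ∀ s ∈ T, (∑ x ∈ V P T B g s, f x) / wt P T B g s =
      ∑ x ∈ T, if st P (B ^ g) x = st P (B ^ g) s then f x / wt P T B g x else 0 := by
    intro s hs
    rw [Finset.sum_div, V, Finset.sum_filter]
    refine Finset.sum_congr rfl fun x hx => ?_
    by_cases h : st P (B ^ g) x = st P (B ^ g) s
    · rw [if_pos h, if_pos h, wt_congr h]
    · rw [if_neg h, if_neg h]
  rw [Finset.sum_congr rfl h1, Finset.sum_comm]
  refine Finset.sum_congr rfl fun x hx => ?_
  rw [← Finset.sum_filter, Finset.sum_const]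
  have h2 : (T.filter fun s => st P (B ^ g) x = st P (B ^ g) s).card = wt P T B g x := by
    unfold wt
    congr 1
    refine Finset.filter_congr fun s _ => ?_
    exact eq_comm
  rw [h2, nsmul_eq_mul]
  have h3 : (0 : ℝ) < wt P T B g x := by exact_mod_cast wt_pos hx
  field_simp

theorem act_congr (hN : Nest P T B) {g g' s t : ℕ} (hg : g ≤ g') (hs : s ∈ T) (ht : t ∈ T)
    (h : st P (B ^ g) s = st P (B ^ g) t) (ha : Act P T B g g' s) : Act P T B g g' t := by
  unfold Act at *
  rw [← wt_congr h, ← wt_congr (hN g g' hg s hs t ht h)]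
  exact ha

theorem card_Ax (g g' s : ℕ) : ((Ax P T B g g' s).card : ℝ) =
    ∑ x ∈ V P T B g' s, if Act P T B g g' x then (1 : ℝ) else 0 := by
  rw [← Finset.sum_filter, Finset.sum_const, nsmul_eq_mul, mul_one]
  congr 2
  ext x
  simp [Ax, V, and_assoc]

theorem sum_pa (g g' : ℕ) :
    ∑ s ∈ T, pa P T B g g' s = ((T.filter fun s => Act P T B g g' s).card : ℝ) := by
  have h1 : ∀ s ∈ T, pa P T B g g' s =
      (∑ x ∈ V P T B g' s, if Act P T B g g' x then (1 : ℝ) else 0) / wt P T B g' s := by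
    intro s _
    rw [pa_eq, card_Ax]
  rw [Finset.sum_congr rfl h1, avg, ← Finset.sum_filter, Finset.sum_const, nsmul_eq_mul, mul_one]

theorem pa_act (hN : Nest P T B) {g g' s : ℕ} (hg : g ≤ g') (hs : s ∈ T)
    (ha : Act P T B g g' s) :
    0 < pa P T B g g' s ∧ Real.log (1 / pa P T B g g' s) ≤ co P T B g g' s := by
  have h1 : (1 : ℝ) ≤ wt P T B g s := by exact_mod_cast wt_pos hs
  have h2 : (1 : ℝ) ≤ wt P T B g' s := by exact_mod_cast wt_pos hs
  have h3 : (wt P T B g s : ℝ) ≤ (Ax P T B g g' s).card := by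
    have : V P T B g s ⊆ Ax P T B g g' s := by
      intro x hx
      have hx' := mem_V.1 hx
      simp only [Ax, Finset.mem_filter]
      exact ⟨hx'.1, hN g g' hg x hx'.1 s hs hx'.2, act_congr hN hg hs hx'.1 hx'.2.symm ha⟩
    exact_mod_cast Finset.card_le_card this
  have h4 : (wt P T B g s : ℝ) / wt P T B g' s ≤ pa P T B g g' s := by
    rw [pa_eq]
    exact div_le_div_of_nonneg_right h3 (by linarith)
  have h5 : (0 : ℝ) < (wt P T B g s : ℝ) / wt P T B g' s := by positivity
  refine ⟨lt_of_lt_of_le h5 h4, ?_⟩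
  have h6 := Real.log_le_log h5 h4
  rw [Real.log_div (by linarith) (by linarith)] at h6
  rw [one_div, Real.log_inv]
  unfold co
  linarith

theorem pa_congr {g g' s t : ℕ} (h : st P (B ^ g') s = st P (B ^ g') t) :
    pa P T B g g' s = pa P T B g g' t := by
  simp [pa, h, wt_congr h]

theorem sum_pa_log (hN : Nest P T B) {g g' : ℕ} (hg : g ≤ g') :
    ∑ s ∈ T, pa P T B g g' s * Real.log (1 / pa P T B g g' s) ≤ ∑ s ∈ T, co P T B g g' s := by
  have h1 : ∀ s ∈ T, pa P T B g g' s * Real.log (1 / pa P T B g g' s) =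
      (∑ x ∈ V P T B g' s, if Act P T B g g' x then Real.log (1 / pa P T B g g' x) else 0) /
        wt P T B g' s := by
    intro s _
    have e : ∀ l : ℝ, pa P T B g g' s * l =
        (∑ x ∈ V P T B g' s, if Act P T B g g' x then l else 0) / wt P T B g' s := by
      intro l
      rw [pa_eq, card_Ax, div_mul_eq_mul_div, Finset.sum_mul]
      congr 1
      refine Finset.sum_congr rfl fun x _ => ?_
      split_ifs <;> simp
    rw [e]
    congr 1
    refine Finset.sum_congr rfl fun x hx => ?_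
    rw [pa_congr (mem_V.1 hx).2]
  rw [Finset.sum_congr rfl h1, avg]
  refine Finset.sum_le_sum fun x hx => ?_
  split_ifs with h
  · exact (pa_act hN hg hx h).2
  · exact co_nonneg hN hg hx

/-- Two children cannot both have more than half of the leaves. -/
theorem half (hN : Nest P T B) {g g' s t : ℕ} (hg : g ≤ g') (hs : s ∈ T) (ht : t ∈ T)
    (h : st P (B ^ g') s = st P (B ^ g') t) (h1 : ¬ Act P T B g g' s) (h2 : ¬ Act P T B g g' t) :
    st P (B ^ g) s = st P (B ^ g) t := by
  by_contra hne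
  unfold Act at h1 h2
  have h3 : wt P T B g' s = wt P T B g' t := wt_congr h
  have h4 : Disjoint (V P T B g s) (V P T B g t) := by
    rw [Finset.disjoint_left]
    intro x hx hx'
    exact hne ((mem_V.1 hx).2.symm.trans (mem_V.1 hx').2)
  have h5 : V P T B g s ∪ V P T B g t ⊆ V P T B g' s := by
    refine Finset.union_subset (V_sub hN hg hs) ?_
    rw [V_congr h]
    exact V_sub hN hg ht
  have h6 := Finset.card_le_card h5
  rw [Finset.card_union_of_disjoint h4, ← wt_eq, ← wt_eq, ← wt_eq] at h6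
  omega

/-- The nonactive leaves in a node have total weight at most `1`. -/
theorem one (hN : Nest P T B) {g g' x : ℕ} (hg : g ≤ g') :
    ∑ s ∈ T, (if st P (B ^ g') x = st P (B ^ g') s ∧ ¬ Act P T B g g' s then
      (1 : ℝ) / wt P T B g s else 0) ≤ 1 := by
  rw [← Finset.sum_filter]
  rcases (T.filter fun s => st P (B ^ g') x = st P (B ^ g') s ∧ ¬ Act P T B g g' s).eq_empty_or_nonempty
    with he | ⟨s₀, hs₀⟩
  · rw [he]; simp
  · rw [Finset.mem_filter] at hs₀
    have h1 : ∀ s ∈ T.filter (fun s => st P (B ^ g') x = st P (B ^ g') s ∧ ¬ Act P T B g g' s),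
        s ∈ V P T B g s₀ := by
      intro s hs
      rw [Finset.mem_filter] at hs
      exact mem_V.2 ⟨hs.1, half hN hg hs.1 hs₀.1 (hs.2.1.symm.trans hs₀.2.1) hs.2.2 hs₀.2.2⟩
    have h0 : (0 : ℝ) < wt P T B g s₀ := by exact_mod_cast wt_pos hs₀.1
    calc ∑ s ∈ T.filter (fun s => st P (B ^ g') x = st P (B ^ g') s ∧ ¬ Act P T B g g' s),
          (1 : ℝ) / wt P T B g s
        ≤ ∑ s ∈ V P T B g s₀, (1 : ℝ) / wt P T B g s :=
          Finset.sum_le_sum_of_subset_of_nonneg (fun s hs => h1 s hs)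
            fun _ _ _ => by positivity
      _ = ∑ s ∈ V P T B g s₀, (1 : ℝ) / wt P T B g s₀ := by
          refine Finset.sum_congr rfl fun s hs => ?_
          rw [wt_congr (mem_V.1 hs).2]
      _ = 1 := by
          rw [Finset.sum_const, nsmul_eq_mul, ← wt_eq]
          field_simp

theorem co_nonact (hN : Nest P T B) {g g' s : ℕ} (hg : g ≤ g') (hs : s ∈ T)
    (ha : ¬ Act P T B g g' s) :
    co P T B g g' s ≤ ((Ax P T B g g' s).card : ℝ) / wt P T B g s := by
  have h1 : (1 : ℝ) ≤ wt P T B g s := by exact_mod_cast wt_pos hs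
  have h2 : (1 : ℝ) ≤ wt P T B g' s := by exact_mod_cast wt_pos hs
  have h3 : V P T B g' s \ V P T B g s ⊆ Ax P T B g g' s := by
    intro x hx
    rw [Finset.mem_sdiff, mem_V, mem_V] at hx
    simp only [Ax, Finset.mem_filter]
    refine ⟨hx.1.1, hx.1.2, ?_⟩
    by_contra hx'
    exact hx.2 ⟨hx.1.1, half hN hg hx.1.1 hs hx.1.2 hx' ha⟩
  have h4 : (wt P T B g' s : ℝ) - wt P T B g s ≤ (Ax P T B g g' s).card := by
    have h5 := Finset.card_le_card h3
    rw [Finset.card_sdiff_of_subset (V_sub hN hg hs), ← wt_eq, ← wt_eq] at h5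
    have h6 := wt_mono hN hg hs
    have h7 : wt P T B g' s ≤ wt P T B g s + (Ax P T B g g' s).card := by omega
    have : (wt P T B g' s : ℝ) ≤ wt P T B g s + (Ax P T B g g' s).card := by exact_mod_cast h7
    linarith
  have h8 : co P T B g g' s = Real.log ((wt P T B g' s : ℝ) / wt P T B g s) := by
    unfold co
    rw [Real.log_div (by linarith) (by linarith)]
  rw [h8]
  have h9 := Real.log_le_sub_one_of_pos (show (0 : ℝ) < (wt P T B g' s : ℝ) / wt P T B g s by
    positivity)
  have h10 : (wt P T B g' s : ℝ) / wt P T B g s - 1 =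
      ((wt P T B g' s : ℝ) - wt P T B g s) / wt P T B g s := by
    field_simp
  rw [h10] at h9
  exact h9.trans (div_le_div_of_nonneg_right h4 (by linarith))

theorem log_card_nonneg : 0 ≤ Real.log (T.card : ℝ) := by
  rcases Nat.eq_zero_or_pos T.card with h | h
  · rw [h]; simp
  · exact Real.log_nonneg (by exact_mod_cast h)

theorem co_le {g g' s : ℕ} (hs : s ∈ T) : co P T B g g' s ≤ Real.log T.card := by
  unfold co
  have h1 : (1 : ℝ) ≤ wt P T B g s := by exact_mod_cast wt_pos hs
  have h2 : (1 : ℝ) ≤ wt P T B g' s := by exact_mod_cast wt_pos hs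
  have h3 : (wt P T B g' s : ℝ) ≤ T.card := by exact_mod_cast wt_le
  have h4 := Real.log_le_log (by linarith) h3
  have h5 := Real.log_nonneg h1
  linarith

theorem sum_co (hN : Nest P T B) {g g' : ℕ} (hg : g ≤ g') :
    ∑ s ∈ T, co P T B g g' s ≤
      (1 + Real.log T.card) * ((T.filter fun s => Act P T B g g' s).card : ℝ) := by
  have h1 : ∀ s ∈ T, co P T B g g' s ≤
      (if Act P T B g g' s then Real.log T.card else 0) +
        (if Act P T B g g' s then 0 else ((Ax P T B g g' s).card : ℝ) / wt P T B g s) := by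
    intro s hs
    by_cases h : Act P T B g g' s
    · rw [if_pos h, if_pos h, add_zero]; exact co_le hs
    · rw [if_neg h, if_neg h, zero_add]; exact co_nonact hN hg hs h
  have h2 : ∑ s ∈ T, (if Act P T B g g' s then Real.log T.card else 0) =
      Real.log T.card * ((T.filter fun s => Act P T B g g' s).card : ℝ) := by
    rw [← Finset.sum_filter, Finset.sum_const, nsmul_eq_mul, mul_comm]
  have h3 : ∑ s ∈ T, (if Act P T B g g' s then 0 else
      ((Ax P T B g g' s).card : ℝ) / wt P T B g s) ≤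
      ((T.filter fun s => Act P T B g g' s).card : ℝ) := by
    have h4 : ∀ s ∈ T, (if Act P T B g g' s then 0 else
        ((Ax P T B g g' s).card : ℝ) / wt P T B g s) =
        ∑ x ∈ T.filter (fun s => Act P T B g g' s),
          if st P (B ^ g') x = st P (B ^ g') s ∧ ¬ Act P T B g g' s then
            (1 : ℝ) / wt P T B g s else 0 := by
      intro s _
      by_cases h : Act P T B g g' s
      · rw [if_pos h]
        symm
        refine Finset.sum_eq_zero fun x _ => ?_
        rw [if_neg (fun h' => h'.2 h)]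
      · rw [if_neg h, ← Finset.sum_filter, Finset.sum_const, nsmul_eq_mul, mul_one_div]
        congr 3
        ext x
        simp only [Ax, Finset.mem_filter]
        tauto
    rw [Finset.sum_congr rfl h4, Finset.sum_comm]
    calc ∑ x ∈ T.filter (fun s => Act P T B g g' s), ∑ s ∈ T,
          (if st P (B ^ g') x = st P (B ^ g') s ∧ ¬ Act P T B g g' s then
            (1 : ℝ) / wt P T B g s else 0)
        ≤ ∑ x ∈ T.filter (fun s => Act P T B g g' s), (1 : ℝ) :=
          Finset.sum_le_sum fun x _ => one hN hg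
      _ = _ := by rw [Finset.sum_const, nsmul_eq_mul, mul_one]
  have h5 := Finset.sum_le_sum h1
  rw [Finset.sum_add_distrib, h2] at h5
  linarith

/-- The leaves active at some step. -/
def U (P T : Finset ℕ) (B g g' : ℕ) : Finset ℕ :=
  (Finset.Ioc g g').biUnion fun i => T.filter fun s => Act P T B (i - 1) i s

theorem mem_U {g g' x : ℕ} :
    x ∈ U P T B g g' ↔ ∃ i, g < i ∧ i ≤ g' ∧ x ∈ T ∧ Act P T B (i - 1) i x := by
  simp only [U, Finset.mem_biUnion, Finset.mem_Ioc, Finset.mem_filter]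
  constructor
  · rintro ⟨i, ⟨h1, h2⟩, h3⟩; exact ⟨i, h1, h2, h3⟩
  · rintro ⟨i, h1, h2, h3⟩; exact ⟨i, ⟨h1, h2⟩, h3⟩

theorem down (hN : Nest P T B) {g g' x y : ℕ} (hx : x ∈ T) (hy : y ∈ T)
    (h : st P (B ^ g') x = st P (B ^ g') y) (hxU : x ∉ U P T B g g') (hyU : y ∉ U P T B g g') :
    ∀ j, g + j ≤ g' → st P (B ^ (g' - j)) x = st P (B ^ (g' - j)) y := by
  intro j
  induction j with
  | zero => intro _; simpa using h
  | succ j ih =>
      intro hj
      have h1 := ih (by omega)
      have e : g' - (j + 1) = (g' - j) - 1 := by omega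
      rw [e]
      refine half hN (by omega) hx hy h1 ?_ ?_
      · intro ha
        exact hxU (mem_U.2 ⟨g' - j, by omega, by omega, hx, ha⟩)
      · intro ha
        exact hyU (mem_U.2 ⟨g' - j, by omega, by omega, hy, ha⟩)

theorem node (hN : Nest P T B) {g g' s : ℕ} (hg : g ≤ g') (_hs : s ∈ T) :
    (Ax P T B g g' s).card ≤ 2 * ((V P T B g' s).filter fun x => x ∈ U P T B g g').card := by
  rcases ((V P T B g' s).filter fun x => x ∉ U P T B g g').eq_empty_or_nonempty with he | ⟨x₀, h₀⟩
  · have h1 : (V P T B g' s).filter (fun x => x ∈ U P T B g g') = V P T B g' s := by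
      rw [Finset.filter_eq_self]
      intro x hx
      by_contra hx'
      have : x ∈ (V P T B g' s).filter fun x => x ∉ U P T B g g' := Finset.mem_filter.2 ⟨hx, hx'⟩
      rw [he] at this
      exact absurd this (Finset.notMem_empty _)
    rw [h1]
    have := Finset.card_le_card (Ax_sub (P := P) (T := T) (B := B) (g := g) (g' := g') (s := s))
    omega
  · rw [Finset.mem_filter, mem_V] at h₀
    obtain ⟨⟨hx₀, hx₀s⟩, hx₀U⟩ := h₀
    have h1 : ∀ x ∈ V P T B g' s, x ∉ U P T B g g' → x ∈ V P T B g x₀ := by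
      intro x hx hxU
      rw [mem_V] at hx
      have := down hN hx.1 hx₀ (hx.2.trans hx₀s.symm) hxU hx₀U (g' - g) (by omega)
      rw [show g' - (g' - g) = g by omega] at this
      exact mem_V.2 ⟨hx.1, this⟩
    by_cases ha : Act P T B g g' x₀
    · -- the node of `x₀` has at most half of the leaves
      have h2 : V P T B g' s \ V P T B g x₀ ⊆ (V P T B g' s).filter fun x => x ∈ U P T B g g' := by
        intro x hx
        rw [Finset.mem_sdiff] at hx
        rw [Finset.mem_filter]
        refine ⟨hx.1, ?_⟩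
        by_contra hxU
        exact hx.2 (h1 x hx.1 hxU)
      have h3 := Finset.card_le_card h2
      have h4 := Finset.le_card_sdiff (V P T B g x₀) (V P T B g' s)
      have h5 := Finset.card_le_card (Ax_sub (P := P) (T := T) (B := B) (g := g) (g' := g') (s := s))
      unfold Act at ha
      rw [wt_congr hx₀s, wt_eq, wt_eq] at ha
      omega
    · have h2 : Ax P T B g g' s ⊆ (V P T B g' s).filter fun x => x ∈ U P T B g g' := by
        intro x hx
        rw [Finset.mem_filter]
        refine ⟨Ax_sub hx, ?_⟩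
        by_contra hxU
        have h3 := h1 x (Ax_sub hx) hxU
        simp only [Ax, Finset.mem_filter] at hx
        exact ha (act_congr hN hg hx.1 hx₀ (mem_V.1 h3).2 hx.2.2)
      have h3 := Finset.card_le_card h2
      omega

theorem card_act (hN : Nest P T B) {g g' : ℕ} (hg : g ≤ g') :
    (T.filter fun s => Act P T B g g' s).card ≤
      2 * ∑ i ∈ Finset.Ioc g g', (T.filter fun s => Act P T B (i - 1) i s).card := by
  have h1 : (U P T B g g').card ≤
      ∑ i ∈ Finset.Ioc g g', (T.filter fun s => Act P T B (i - 1) i s).card :=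
    Finset.card_biUnion_le
  have h2 : ((T.filter fun s => Act P T B g g' s).card : ℝ) ≤ 2 * (U P T B g g').card := by
    rw [← sum_pa]
    have h3 : ∀ s ∈ T, pa P T B g g' s ≤
        (∑ x ∈ V P T B g' s, if x ∈ U P T B g g' then (2 : ℝ) else 0) / wt P T B g' s := by
      intro s hs
      rw [pa_eq]
      refine div_le_div_of_nonneg_right ?_ (by positivity)
      rw [← Finset.sum_filter, Finset.sum_const, nsmul_eq_mul, mul_comm]
      exact_mod_cast node hN hg hs
    refine (Finset.sum_le_sum h3).trans ?_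
    rw [avg, ← Finset.sum_filter, Finset.sum_const, nsmul_eq_mul, mul_comm]
    have h4 : (T.filter fun x => x ∈ U P T B g g') ⊆ U P T B g g' := by
      intro x hx
      exact (Finset.mem_filter.1 hx).2
    have h5 : ((T.filter fun x => x ∈ U P T B g g').card : ℝ) ≤ (U P T B g g').card := by
      exact_mod_cast Finset.card_le_card h4
    linarith
  have h6 : (T.filter fun s => Act P T B g g' s).card ≤ 2 * (U P T B g g').card := by
    exact_mod_cast h2
  omega

end Pool.Agent.Lib.MP5b6025.EP.WTM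

namespace Pool.Agent.Lib.MP5b6025.EP

open WTM in
theorem specWT (hC : SpecCMP) : SpecWT := by
  intro P T B hT hB
  have hN : Nest P T B := nest hC P T B hT hB
  refine ⟨fun g s hs => ⟨wt_pos hs, wt_le⟩, fun g g' hg s hs => ⟨wt_mono hN hg hs,
    co_nonneg hN hg hs⟩, fun g g' s => ⟨pa_nonneg g g' s, pa_le_one g g' s⟩, ?_,
    fun g g' _ => sum_pa g g', fun g g' hg s hs ha => pa_act hN hg hs ha,
    fun g g' hg => sum_pa_log hN hg, fun g g' hg => sum_co hN hg, fun g g' hg => card_act hN hg⟩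
  intro n h _ s hs
  have h1 : ∑ r ∈ Finset.range n, co P T B (h r) (h (r + 1)) s =
      Real.log (wt P T B (h n) s) - Real.log (wt P T B (h 0) s) := by
    unfold co
    exact Finset.sum_range_sub (fun r => Real.log (wt P T B (h r) s : ℝ)) n
  rw [h1]
  have h2 : (1 : ℝ) ≤ wt P T B (h 0) s := by exact_mod_cast wt_pos hs
  have h3 : (1 : ℝ) ≤ wt P T B (h n) s := by exact_mod_cast wt_pos hs
  have h4 : (wt P T B (h n) s : ℝ) ≤ T.card := by exact_mod_cast wt_le
  have h5 := Real.log_le_log (by linarith) h4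
  have h6 := Real.log_nonneg h2
  linarith

end Pool.Agent.Lib.MP5b6025.EP
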