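import Pool.Agent.Lib.MP_5b6025_nt.EP.Spec

/-!
# EP: module ZON (choice of the zone)
-/

set_option autoImplicit false

namespace Pool.Agent.Lib.MP5b6025.EP.ZONM

open Finset

theorem gl_mono {K k₀ : ℕ} (hK : 10 ≤ K) : Monotone (gl K k₀) := by
  apply monotone_nat_of_le_succ
  intro v
  unfold gl
  rw [if_neg (Nat.succ_ne_zero v)]
  split_ifs with h
  · subst h
    omega
  · have : v * K ≤ (v + 1) * K := Nat.mul_le_mul_right _ (Nat.le_succ v)
    omega

end Pool.Agent.Lib.MP5b6025.EP.ZONM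

namespace Pool.Agent.Lib.MP5b6025.EP

open Finset ZONM

theorem specZON (hWT : SpecWT) : SpecZON := by
  intro κ δ J P T B K k₀ L hκ hδ hJδ hJ hTP hB hK hL hT
  classical
  have hlog : 0 < Real.log L := by
    apply Real.log_pos
    have : (3 : ℝ) ≤ L := by exact_mod_cast hL
    linarith
  obtain ⟨_, hmono, _, htel, _⟩ := hWT P T B hTP hB
  have hcc0 : ∀ s ∈ T, ∀ v, 0 ≤ cc P T B K k₀ v s := fun s hs v =>
    (hmono _ _ (gl_mono hK (Nat.le_succ v)) s hs).2
  have hsum : ∀ s ∈ T, ∑ v ∈ range L, cc P T B K k₀ v s ≤ κ * Real.log L := fun s hs =>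
    (htel L (gl K k₀) (gl_mono hK) s hs).trans hT
  -- big costs
  have hbig : ∀ s ∈ T, (((range L).filter (fun v => Real.log L / 2 ≤ cc P T B K k₀ v s)).card : ℝ)
      ≤ 2 * κ := by
    intro s hs
    have h1 : (((range L).filter (fun v => Real.log L / 2 ≤ cc P T B K k₀ v s)).card : ℝ)
        * (Real.log L / 2) ≤ κ * Real.log L := by
      calc _ = ∑ _v ∈ (range L).filter (fun v => Real.log L / 2 ≤ cc P T B K k₀ v s),
            Real.log L / 2 := by rw [sum_const, nsmul_eq_mul]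
        _ ≤ ∑ v ∈ (range L).filter (fun v => Real.log L / 2 ≤ cc P T B K k₀ v s),
            cc P T B K k₀ v s := sum_le_sum fun v hv => (mem_filter.mp hv).2
        _ ≤ ∑ v ∈ range L, cc P T B K k₀ v s :=
            sum_le_sum_of_subset_of_nonneg (filter_subset _ _) fun v _ _ => hcc0 s hs v
        _ ≤ _ := hsum s hs
    have h2 : (((range L).filter (fun v => Real.log L / 2 ≤ cc P T B K k₀ v s)).card : ℝ)
        * Real.log L ≤ (2 * κ) * Real.log L := by linarith
    exact le_of_mul_le_mul_right h2 hlog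
  -- the zones
  set Z : ℕ → Finset (ℕ × ℕ) := fun t => (T ×ˢ range L).filter (fun x : ℕ × ℕ =>
    (1 - (2 * t + 1) * δ) * Real.log L ≤ cc P T B K k₀ x.2 x.1 ∧
      cc P T B K k₀ x.2 x.1 < (1 - 2 * t * δ) * Real.log L) with hZ
  have hdisj : ∀ t ∈ Icc 1 J, ∀ t' ∈ Icc 1 J, t ≠ t' → Disjoint (Z t) (Z t') := by
    have key : ∀ t t' : ℕ, t < t' → Disjoint (Z t) (Z t') := by
      intro t t' htt
      rw [Finset.disjoint_left]
      intro x hx hx'
      have h1 := (mem_filter.mp hx).2.1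
      have h2 := (mem_filter.mp hx').2.2
      have h3 : (1 - 2 * (t' : ℝ) * δ) * Real.log L ≤ (1 - (2 * t + 1) * δ) * Real.log L := by
        apply mul_le_mul_of_nonneg_right _ hlog.le
        have h4 : (t : ℝ) + 1 ≤ t' := by exact_mod_cast htt
        nlinarith
      linarith
    intro t _ t' _ hne
    rcases lt_or_gt_of_ne hne with h | h
    · exact key t t' h
    · exact (key t' t h).symm
  have hunion : (Icc 1 J).biUnion Z ⊆
      (T ×ˢ range L).filter (fun x : ℕ × ℕ => Real.log L / 2 ≤ cc P T B K k₀ x.2 x.1) := by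
    intro x hx
    obtain ⟨t, ht, hxt⟩ := mem_biUnion.mp hx
    rw [mem_Icc] at ht
    rw [mem_filter] at hxt ⊢
    refine ⟨hxt.1, le_trans ?_ hxt.2.1⟩
    have h1 : (t : ℝ) ≤ J := by exact_mod_cast ht.2
    have h2 : (2 * (t : ℝ) + 1) * δ ≤ 1 / 2 := by
      refine le_trans ?_ hJδ
      apply mul_le_mul_of_nonneg_right _ hδ.le
      linarith
    have h3 : (1 / 2 : ℝ) * Real.log L ≤ (1 - (2 * t + 1) * δ) * Real.log L :=
      mul_le_mul_of_nonneg_right (by linarith) hlog.le
    linarith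
  have htotal : ∑ t ∈ Icc 1 J, ((Z t).card : ℝ) ≤ 2 * κ * T.card := by
    have h1 : ∑ t ∈ Icc 1 J, (Z t).card ≤
        ((T ×ˢ range L).filter (fun x : ℕ × ℕ => Real.log L / 2 ≤ cc P T B K k₀ x.2 x.1)).card := by
      rw [← card_biUnion hdisj]
      exact card_le_card hunion
    have h2 : ((T ×ˢ range L).filter (fun x : ℕ × ℕ =>
        Real.log L / 2 ≤ cc P T B K k₀ x.2 x.1)).card =
        ∑ s ∈ T, ((range L).filter (fun v => Real.log L / 2 ≤ cc P T B K k₀ v s)).card := by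
      rw [card_filter, sum_product]
      apply sum_congr rfl
      intro s _
      rw [card_filter]
    have h3 : (∑ t ∈ Icc 1 J, ((Z t).card : ℝ)) ≤
        ∑ s ∈ T, (((range L).filter (fun v => Real.log L / 2 ≤ cc P T B K k₀ v s)).card : ℝ) := by
      rw [h2] at h1
      exact_mod_cast h1
    refine h3.trans ((sum_le_sum hbig).trans ?_)
    rw [sum_const, nsmul_eq_mul]
    linarith
  -- pigeonhole
  have hne : (Icc 1 J).Nonempty := ⟨1, mem_Icc.mpr ⟨le_rfl, hJ⟩⟩
  have hJ0 : (0 : ℝ) < J := by exact_mod_cast hJ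
  obtain ⟨t, ht, hle⟩ : ∃ t ∈ Icc 1 J, ((Z t).card : ℝ) ≤ 2 * κ / J * T.card := by
    by_contra hcon
    push Not at hcon
    have h1 := sum_lt_sum_of_nonempty hne hcon
    rw [sum_const, Nat.card_Icc, nsmul_eq_mul] at h1
    have h2 : ((J + 1 - 1 : ℕ) : ℝ) * (2 * κ / J * T.card) = 2 * κ * T.card := by
      rw [Nat.add_sub_cancel]
      field_simp
    rw [h2] at h1
    linarith
  rw [mem_Icc] at ht
  refine ⟨t, ht.1, ht.2, ?_⟩
  unfold nb
  convert hle

end Pool.Agent.Lib.MP5b6025.EP
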