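import Pool.Agent.Lib.MP_5b6025_nt.EP.CMP
import Pool.Agent.Lib.MP_5b6025_nt.EP.SUM
import Pool.Agent.Lib.MP_5b6025_nt.EP.WT
import Pool.Agent.Lib.MP_5b6025_nt.EP.STAR
import Pool.Agent.Lib.MP_5b6025_nt.EP.STB
import Pool.Agent.Lib.MP_5b6025_nt.EP.AMT
import Pool.Agent.Lib.MP_5b6025_nt.EP.AMB
import Pool.Agent.Lib.MP_5b6025_nt.EP.LVL
import Pool.Agent.Lib.MP_5b6025_nt.EP.ZON
import Pool.Agent.Lib.MP_5b6025_nt.EP.BRN
import Pool.Agent.Lib.MP_5b6025_nt.EP.CT5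
import Pool.Agent.Lib.MP_5b6025_nt.EP.CT8
import Pool.Agent.Lib.MP_5b6025_nt.EP.TYP
import Pool.Agent.Lib.MP_5b6025_nt.EP.CNS
import Pool.Agent.Lib.MP_5b6025_nt.EP.UNQ
import Pool.Agent.Lib.MP_5b6025_nt.EP.GOD
import Pool.Agent.Lib.MP_5b6025_nt.EP.RAM
import Pool.Agent.Lib.MP_5b6025_nt.EP.SHU
import Pool.Agent.Lib.MP_5b6025_nt.EP.FNS
import Pool.Agent.Lib.MP_5b6025_nt.EP.EXK
import Pool.Agent.Lib.MP_5b6025_nt.EP.NNC
import Pool.Agent.Lib.MP_5b6025_nt.EP.IDE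
import Pool.Agent.Lib.MP_5b6025_nt.EP.EXT
import Pool.Agent.Lib.MP_5b6025_nt.EP.LF0
import Pool.Agent.Lib.MP_5b6025_nt.EP.GRO
import Pool.Agent.Lib.MP_5b6025_nt.EP.SPR
import Pool.Agent.Lib.MP_5b6025_nt.EP.PGN
import Pool.Agent.Lib.MP_5b6025_nt.EP.PRM
import Pool.Agent.Lib.MP_5b6025_nt.EP.REL
import Pool.Agent.Lib.MP_5b6025_nt.EP.SIM
import Pool.Agent.Lib.MP_5b6025_nt.EP.PI
import Pool.Agent.Lib.MP_5b6025_nt.EP.THM
import Pool.Agent.Lib.MP_5b6025_nt.EP.FIN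
import Pool.Agent.Lib.MP_5b6025_nt.DD.EXA
import Pool.Agent.Lib.MP_5b6025_nt.DD.Gap
import Pool.Agent.Lib.MP_5b6025_nt.DD.Rls
import Pool.Agent.Lib.MP_5b6025_nt.DD.SPL

/-!
# Digit changes beat every power of `log N`: assembly
-/

set_option autoImplicit false

namespace Pool.Agent.Lib.MP5b6025.EP

theorem sum' : SpecSUM := specSUM specCMP

theorem wt' : SpecWT := specWT specCMP

theorem typ' (hPSI : SpecPSI) (hCT0 : SpecCT0) : SpecTYP :=
  specTYP (specLVL wt') (specSTB specCMP sum' specSTAR (specAMT specCMP sum' wt' specAMB hPSI))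
    (specZON wt') hCT0 (specCT5 wt' (specBRN specCMP sum')) (specCT8 specCMP wt' hCT0)

theorem exk' : SpecEXK := specEXK (specEXT DD.specEXA) specIDE specNNC

theorem pi' : SpecPI :=
  specPI specCMP exk' specSIM (specLF0 specCMP) (specGRO specCMP) (specSPR specCMP)
    (specREL DD.specGAP specCMP sum') specPGN specPRM

theorem fns' : SpecFNS := specFNS specRAM specSHU

theorem thm' (hPII : SpecPII) : SpecTHM := specTHM pi' hPII DD.specRLS DD.specSPL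

theorem fin' (hPII : SpecPII) : SpecFIN := specFIN (thm' hPII)

end Pool.Agent.Lib.MP5b6025.EP
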