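import Pool.Agent.Lib.MP_5b6025_nt.EP.Spec

/-!
Module PII (helper91): there is no system of leaves.
-/

set_option autoImplicit false

open Finset

namespace Pool.Agent.Lib.MP5b6025.EP

namespace PIIM

/-- The tuples `ρ` with `ρ i = s i` for `i ∉ I` and with the same sum cluster as `s` on `I`. -/
def RR (P T : Finset ℕ) (B : ℕ) {n : ℕ} (s : Fin n → ℕ) (I : Finset (Fin n)) : Set (Fin n → ℕ) :=
  {ρ | (∀ i, ρ i ∈ T) ∧ (∀ i, i ∉ I → ρ i = s i) ∧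
    st (sm I.card P) (B ^ 3) (∑ i ∈ I, ρ i) = st (sm I.card P) (B ^ 3) (∑ i ∈ I, s i)}

lemma exists_eta (X : ℝ) (hX : 1 ≤ X) : ∃ η₁ : ℝ, 0 < η₁ ∧ 2 * η₁ * X < 1 := by
  refine ⟨1 / (4 * X), by positivity, ?_⟩
  have : 2 * (1 / (4 * X)) * X = 1 / 2 := by
    field_simp
    norm_num
  rw [this]
  norm_num

variable {P T : Finset ℕ} {B : ℕ} {n : ℕ}

/-- Exchange of a part of a sum. -/
lemma exch (hSUM : SpecSUM) (hB : 1 ≤ B ^ 3) (hTP : ∀ s ∈ T, s ∈ P) {ρ ρ' : Fin n → ℕ}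
    (hρ : ∀ i, ρ i ∈ T) (hρ' : ∀ i, ρ' i ∈ T) {I I' : Finset (Fin n)} (hI : I ⊆ I')
    (h : ∀ i ∈ I', i ∉ I → ρ i = ρ' i)
    (h2 : st (sm I.card P) (B ^ 3) (∑ i ∈ I, ρ i) = st (sm I.card P) (B ^ 3) (∑ i ∈ I, ρ' i)) :
    st (sm I'.card P) (B ^ 3) (∑ i ∈ I', ρ i) = st (sm I'.card P) (B ^ 3) (∑ i ∈ I', ρ' i) :=
  ((hSUM P (B ^ 3) n hB).2.2.2) ρ ρ' (fun i => hTP _ (hρ i)) (fun i => hTP _ (hρ' i)) I I' hI h h2

/-- Combination. -/
lemma comb (hSUM : SpecSUM) (hB : 1 ≤ B ^ 3) (hTP : ∀ s ∈ T, s ∈ P) {s : Fin n → ℕ}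
    (hs : ∀ i, s i ∈ T) {I I' : Finset (Fin n)} (hd : Disjoint I I') {ρ ρ' : Fin n → ℕ}
    (hρ : ρ ∈ RR P T B s I) (hρ' : ρ' ∈ RR P T B s I') :
    (fun i => if i ∈ I then ρ i else ρ' i) ∈ RR P T B s (I ∪ I') := by
  classical
  obtain ⟨a1, a2, a3⟩ := hρ
  obtain ⟨b1, b2, b3⟩ := hρ'
  have hσ : ∀ i, (fun i => if i ∈ I then ρ i else ρ' i) i ∈ T := by
    intro i
    by_cases h : i ∈ I
    · simpa [h] using a1 i
    · simpa [h] using b1 i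
  have hτ : ∀ i, (fun i => if i ∈ I then s i else ρ' i) i ∈ T := by
    intro i
    by_cases h : i ∈ I
    · simpa [h] using hs i
    · simpa [h] using b1 i
  refine ⟨hσ, ?_, ?_⟩
  · intro i hi
    rw [Finset.mem_union, not_or] at hi
    simpa [hi.1] using b2 i hi.2
  · refine (exch hSUM hB hTP hσ hτ (I := I) (Finset.subset_union_left) ?_ ?_).trans
      (exch hSUM hB hTP hτ hs (I := I') (Finset.subset_union_right) ?_ ?_)
    · intro i _ hi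
      simp [hi]
    · have e1 : ∑ i ∈ I, (if i ∈ I then ρ i else ρ' i) = ∑ i ∈ I, ρ i :=
        Finset.sum_congr rfl fun i hi => by simp [hi]
      have e2 : ∑ i ∈ I, (if i ∈ I then s i else ρ' i) = ∑ i ∈ I, s i :=
        Finset.sum_congr rfl fun i hi => by simp [hi]
      rw [e1, e2]
      exact a3
    · intro i hi hi'
      rw [Finset.mem_union] at hi
      have : i ∈ I := hi.resolve_right hi'
      simp [this]
    · have e1 : ∑ i ∈ I', (if i ∈ I then s i else ρ' i) = ∑ i ∈ I', ρ' i :=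
        Finset.sum_congr rfl fun i hi => by simp [Finset.disjoint_right.1 hd hi]
      rw [e1]
      exact b3

/-- The tuples of `RR` have the sum cluster of `s`. -/
lemma sz (hSUM : SpecSUM) (hB : 1 ≤ B ^ 3) (hTP : ∀ s ∈ T, s ∈ P) {s : Fin n → ℕ}
    (hs : ∀ i, s i ∈ T) {I : Finset (Fin n)} {ρ : Fin n → ℕ} (hρ : ρ ∈ RR P T B s I) :
    Sz P B ρ s := by
  obtain ⟨a1, a2, a3⟩ := hρ
  have h := exch hSUM hB hTP a1 hs (Finset.subset_univ I) (fun i _ hi => a2 i hi) a3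
  rwa [Finset.card_univ, Fintype.card_fin] at h

/-- Replacing a pair. -/
lemma pair (hSUM : SpecSUM) (hB : 1 ≤ B ^ 3) (hTP : ∀ s ∈ T, s ∈ P) {s : Fin n → ℕ}
    {I : Finset (Fin n)} {ρ : Fin n → ℕ} (hρ : ρ ∈ RR P T B s I)
    {i j : Fin n} (hi : i ∈ I) (hj : j ∈ I) (hij : i ≠ j) {x y : ℕ} (hx : x ∈ T) (hy : y ∈ T)
    (h : st (sm 2 P) (B ^ 3) (x + y) = st (sm 2 P) (B ^ 3) (ρ i + ρ j)) :
    Function.update (Function.update ρ i x) j y ∈ RR P T B s I := by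
  classical
  obtain ⟨a1, a2, a3⟩ := hρ
  have hσ : ∀ l, Function.update (Function.update ρ i x) j y l ∈ T := by
    intro l
    by_cases hl : l = j
    · subst hl
      simpa using hy
    · by_cases hl' : l = i
      · subst hl'
        simpa [hl] using hx
      · simpa [hl, hl'] using a1 l
  refine ⟨hσ, ?_, ?_⟩
  · intro l hl
    have h1 : l ≠ j := fun h => hl (h ▸ hj)
    have h2 : l ≠ i := fun h => hl (h ▸ hi)
    simpa [h1, h2] using a2 l hl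
  · refine (exch hSUM hB hTP hσ a1 (I := {i, j}) ?_ ?_ ?_).trans a3
    · intro l hl
      rw [Finset.mem_insert, Finset.mem_singleton] at hl
      rcases hl with rfl | rfl
      · exact hi
      · exact hj
    · intro l _ hl
      rw [Finset.mem_insert, Finset.mem_singleton, not_or] at hl
      simp [hl.1, hl.2]
    · rw [Finset.card_pair hij, Finset.sum_pair hij, Finset.sum_pair hij]
      simpa [hij] using h

end PIIM

open PIIM in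
/-- Module PII. -/
theorem specPII (hSUM : SpecSUM) (hTYP : SpecTYP) (hCNS : SpecCNS) (hUNQ : SpecUNQ)
    (hGOD : SpecGOD) (hFNS : SpecFNS) : SpecPII := by
  classical
  intro k _ _ κ hκ hch
  obtain ⟨m, hm⟩ := hFNS k ⌊2 * κ⌋₊ hch
  obtain ⟨η₁, hη, hη'⟩ := exists_eta ((1 + ((m : ℝ) + 1) ^ (⌊2 * κ⌋₊ * (m + 1))) *
    ((⌊2 * κ⌋₊ : ℝ) + 1) ^ (m + 1)) (by
      have h1 : (1 : ℝ) ≤ ((⌊2 * κ⌋₊ : ℝ) + 1) ^ (m + 1) :=
        one_le_pow₀ (by have : (0 : ℝ) ≤ (⌊2 * κ⌋₊ : ℝ) := Nat.cast_nonneg _; linarith)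
      have h2 : (0 : ℝ) ≤ ((m : ℝ) + 1) ^ (⌊2 * κ⌋₊ * (m + 1)) := by positivity
      exact one_le_mul_of_one_le_of_one_le (by linarith) h1)
  obtain ⟨ε, C, L₁, hε, hε', hT⟩ := hTYP κ η₁ m hκ hη
  obtain ⟨L₂, hG⟩ := hGOD κ ε η₁ m hκ hε hε' hη (by rw [mul_assoc]; exact hη')
  refine ⟨ε, C, max L₁ L₂, hε, hε', ?_⟩
  intro L B P T Z e hL hLB hS
  obtain ⟨K, k₀, y₀, y₁, y, b, hPar, hnb⟩ := hT k L B P T Z e (le_trans (le_max_left _ _) hL) hLB hS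
  obtain ⟨hC1, hC2, hC3⟩ := hCNS P T B K k₀ L m κ y₀ y₁ y b hPar
  obtain ⟨δ, s, hs, hδ, hgood⟩ := hG P T Z B K k₀ L y₀ y₁ y b (le_trans (le_max_right _ _) hL)
    hPar hS.big hS.cardZ hC1 hC2 hC3 hnb
  have hB : 1 ≤ B := by
    have := hPar.hB
    have h2 : 0 < 4 * (m + 2) * (P.card + 1) ^ (m + 2) := by positivity
    omega
  have hB3 : 1 ≤ B ^ 3 := Nat.one_le_pow _ _ hB
  have hTP : ∀ s ∈ T, s ∈ P := fun s hs => (Finset.mem_filter.1 (hPar.sub s hs).1).1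
  have hs' : ∀ i, s i ∈ T := by
    rw [tup, Fintype.mem_piFinset] at hs
    exact hs
  have hmem : ∀ ρ : Fin (m + 1) → ℕ, (∀ i, ρ i ∈ T) → ρ ∈ tup (m + 1) T := fun ρ hρ => by
    rw [tup, Fintype.mem_piFinset]
    exact hρ
  -- the tuples of `RR` are good
  have hgd : ∀ I, ∀ ρ ∈ RR P T B s I, Typ P T B K k₀ L y₀ y₁ y b ρ ∧
      ∀ i j, i ≠ j → st (sm 2 P) (B ^ 3) (ρ i + ρ j) ∉ Z := fun I ρ hρ =>
    hgood ρ (hmem ρ hρ.1) (sz hSUM hB3 hTP hs' hρ).symm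
  have hsR : ∀ I, s ∈ RR P T B s I := fun I => ⟨hs', fun _ _ => rfl, rfl⟩
  refine hm δ s (fun x => Jc P T B K k₀ L y₁ x) e (RR P T B s) hδ hsR (fun I ρ hρ => hρ.2.1)
    ?_ ?_ ?_ ?_
  · intro I I' hd ρ hρ ρ' hρ'
    exact comb hSUM hB3 hTP hs' hd hρ hρ'
  · intro I ρ hρ
    have h1 := (hgd I ρ hρ).1
    refine ⟨fun i => ⟨h1.t8 i, Nat.le_floor (hC1 _ (hρ.1 i)), hS.nz _ (hρ.1 i)⟩, hC2 ρ h1, ?_⟩
    exact (hC3 ρ s h1 (hgd ∅ s (hsR ∅)).1 (sz hSUM hB3 hTP hs' hρ)).1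
  · intro I ρ hρ I' ρ' hρ' i j hij
    have h1 := (hgd I ρ hρ).1
    -- permute `ρ'`
    have hsum : ∑ l, (fun l => ρ' (Equiv.swap i j l)) l = ∑ l, ρ' l :=
      Equiv.sum_comp (Equiv.swap i j) ρ'
    have h2 : Sz P B s (fun l => ρ' (Equiv.swap i j l)) := by
      unfold Sz
      rw [hsum]
      exact (sz hSUM hB3 hTP hs' hρ').symm
    have h3 := (hgood _ (hmem _ fun l => hρ'.1 (Equiv.swap i j l)) h2).1
    have h4 : Sz P B ρ (fun l => ρ' (Equiv.swap i j l)) :=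
      Eq.trans (sz hSUM hB3 hTP hs' hρ) h2
    have h5 := hUNQ P T B K k₀ L m κ y₀ y₁ y b hPar ρ _ h1 h3 h4 i (by
      simp only [Equiv.swap_apply_left]
      exact hij)
    simpa using h5
  · intro I ρ hρ i hi j hj hij
    have h1 := hgd I ρ hρ
    refine ⟨(T ×ˢ T).filter (fun x : ℕ × ℕ =>
      st (sm 2 P) (B ^ 3) (x.1 + x.2) = st (sm 2 P) (B ^ 3) (ρ i + ρ j)), ?_, ?_, ?_⟩
    · rw [Finset.mem_filter, Finset.mem_product]
      exact ⟨⟨hρ.1 i, hρ.1 j⟩, rfl⟩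
    · intro x hx
      rw [Finset.mem_filter, Finset.mem_product] at hx
      exact pair hSUM hB3 hTP hρ hi hj hij hx.1.1 hx.1.2 hx.2
    · exact hS.rel (ρ i) (hρ.1 i) (ρ j) (hρ.1 j) (h1.1.t7 i) (h1.1.t7 j) (h1.2 i j hij)

end Pool.Agent.Lib.MP5b6025.EP
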