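import Pool.Agent.Lib.MP_5b6025_nt.EP.Spec

/-!
# Module PSI: the function `π log (1 + π'/π)` (helper84)
-/

set_option autoImplicit false

namespace Pool.Agent.Lib.MP5b6025.EP.PSIM

open Real

/-- Tangent bound. -/
theorem tangent {p q M : ℝ} (hp : 0 ≤ p) (hq : 0 ≤ q) (hM : 0 < M) :
    p * log (1 + q / p) ≤ p * log (1 + M / p) + p * q / M := by
  rcases hp.eq_or_lt with h | h
  · rw [← h]; simp
  have h1 : log (1 + q / p) - log (1 + M / p) ≤ q / M := by
    have e1 : 1 + q / p = (p + q) / p := by field_simp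
    have e2 : 1 + M / p = (p + M) / p := by field_simp
    have h2 : 0 < p + q := by linarith
    have h3 : 0 < p + M := by linarith
    rw [e1, e2, log_div h2.ne' h.ne', log_div h3.ne' h.ne']
    have h4 := log_le_sub_one_of_pos (show 0 < (p + q) / (p + M) by positivity)
    rw [log_div h2.ne' h3.ne'] at h4
    have h5 : (p + q) / (p + M) - 1 = (q - M) / (p + M) := by field_simp; ring
    have h6 : (q - M) / (p + M) ≤ q / (p + M) := by
      apply div_le_div_of_nonneg_right _ h3.le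
      linarith
    have h7 : q / (p + M) ≤ q / M := by
      apply div_le_div_of_nonneg_left hq hM
      linarith
    linarith
  have h2 := mul_le_mul_of_nonneg_left h1 hp
  have e : p * (q / M) = p * q / M := by ring
  rw [mul_sub, e] at h2
  linarith

/-- The three ranges. `H = L^(1/2)`, `p₀ = L^(-1-ε)`, `Λ = log (1 + M / p₀)`, `l = log L`. -/
theorem ranges {p M H p₀ Λ l : ℝ} (hp : 0 ≤ p) (hp1 : p ≤ 1) (hM : 0 < M) (hH : 0 < H)
    (hp₀ : 0 < p₀) (hΛ : Λ = log (1 + M / p₀)) (hl : 0 < l) (hlH : l ≤ 2 * log H) :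
    p * log (1 + M / p) ≤ M * H * p + 2 / l * (p * log (1 / p)) * Λ + p₀ * (1 + Λ) := by
  have hΛ0 : 0 ≤ Λ := by
    rw [hΛ]; apply log_nonneg
    have : 0 < M / p₀ := by positivity
    linarith
  have a3 : 0 ≤ p₀ * (1 + Λ) := by positivity
  rcases hp.eq_or_lt with h | h
  · rw [← h]; simp only [zero_mul, mul_zero, zero_add]; exact a3
  have h1p : 1 ≤ 1 / p := by rw [le_div_iff₀ h]; linarith
  have a2 : 0 ≤ 2 / l * (p * log (1 / p)) * Λ := by
    have := log_nonneg h1p
    positivity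
  have a1 : 0 ≤ M * H * p := by positivity
  by_cases c1 : 1 ≤ H * p
  · have h1 : log (1 + M / p) ≤ M / p := by
      have := log_le_sub_one_of_pos (show 0 < 1 + M / p by positivity)
      linarith
    have h2 : p * log (1 + M / p) ≤ M := by
      have := mul_le_mul_of_nonneg_left h1 hp
      have e : p * (M / p) = M := by field_simp
      linarith
    have h3 : M ≤ M * H * p := by
      have := mul_le_mul_of_nonneg_left c1 hM.le
      nlinarith
    linarith
  · have c1' : H * p < 1 := not_le.1 c1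
    by_cases c2 : p₀ ≤ p
    · have h1 : log (1 + M / p) ≤ Λ := by
        rw [hΛ]
        apply log_le_log (by positivity)
        have : M / p ≤ M / p₀ := div_le_div_of_nonneg_left hM.le hp₀ c2
        linarith
      have h2 : l ≤ 2 * log (1 / p) := by
        have h3 : H ≤ 1 / p := by rw [le_div_iff₀ h]; linarith
        have := log_le_log hH h3
        linarith
      have h3 : 1 ≤ 2 / l * log (1 / p) := by
        rw [div_mul_eq_mul_div, le_div_iff₀ hl]; linarith
      have h4 : p ≤ 2 / l * (p * log (1 / p)) := by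
        have := mul_le_mul_of_nonneg_left h3 hp
        nlinarith
      have h5 : p * log (1 + M / p) ≤ p * Λ := mul_le_mul_of_nonneg_left h1 hp
      have h6 : p * Λ ≤ 2 / l * (p * log (1 / p)) * Λ := mul_le_mul_of_nonneg_right h4 hΛ0
      linarith
    · have c2' : p < p₀ := not_le.1 c2
      have h1 : log (1 + M / p) ≤ Λ + log (p₀ / p) := by
        rw [hΛ, ← log_mul (by positivity) (by positivity)]
        apply log_le_log (by positivity)
        have e : (1 + M / p₀) * (p₀ / p) = (p₀ + M) / p := by field_simp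
        have e2 : 1 + M / p = (p + M) / p := by field_simp
        rw [e, e2]
        apply div_le_div_of_nonneg_right _ h.le
        linarith
      have h2 : log (p₀ / p) ≤ p₀ / p := by
        have := log_le_sub_one_of_pos (show 0 < p₀ / p by positivity)
        linarith
      have h3 : p * log (1 + M / p) ≤ p * Λ + p₀ := by
        have h4 := mul_le_mul_of_nonneg_left (h1.trans (add_le_add_right h2 Λ)) hp
        have e : p * (p₀ / p) = p₀ := by field_simp
        rw [mul_add, e] at h4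
        exact h4
      have h4 : p * Λ ≤ p₀ * Λ := mul_le_mul_of_nonneg_right c2'.le hΛ0
      linarith

end Pool.Agent.Lib.MP5b6025.EP.PSIM

namespace Pool.Agent.Lib.MP5b6025.EP

open Real PSIM in
theorem specPSI : SpecPSI := by
  intro κ ε hκ hε hε1
  refine ⟨⌈exp (4 / ε)⌉₊, ?_⟩
  intro L hL T w hw h1 h2
  have hLe : exp (4 / ε) ≤ L := (Nat.le_ceil _).trans (by exact_mod_cast hL)
  have hL0 : (0 : ℝ) < L := lt_of_lt_of_le (exp_pos _) hLe
  obtain ⟨l, hl⟩ : ∃ l, l = log (L : ℝ) := ⟨_, rfl⟩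
  have hll : 4 / ε ≤ l := by rw [hl]; exact (le_log_iff_exp_le hL0).2 hLe
  have hεl : 4 ≤ ε * l := by
    have := (div_le_iff₀ hε).1 hll
    linarith
  have hl0 : 0 < l := by
    by_contra h
    have : ε * l ≤ 0 := mul_nonpos_of_nonneg_of_nonpos hε.le (not_lt.1 h)
    linarith
  have hLl : (L : ℝ) = exp l := by rw [hl, exp_log hL0]
  have hpow : ∀ a : ℝ, (L : ℝ) ^ a = exp (a * l) := by
    intro a
    rw [rpow_def_of_pos hL0, ← hl, mul_comm]
  rw [← hl] at h2 ⊢
  obtain ⟨μ, hμ⟩ : ∃ μ, μ = exp ((-1 + ε) * l) := ⟨_, rfl⟩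
  rw [hpow, ← hμ] at h1
  obtain ⟨M, hM⟩ : ∃ M, M = exp ((-1 + 3 * ε) * l) := ⟨_, rfl⟩
  obtain ⟨H, hH⟩ : ∃ H, H = exp (l / 2) := ⟨_, rfl⟩
  obtain ⟨p₀, hp₀⟩ : ∃ p₀, p₀ = exp ((-1 - ε) * l) := ⟨_, rfl⟩
  obtain ⟨Λ, hΛ⟩ : ∃ Λ, Λ = log (1 + M / p₀) := ⟨_, rfl⟩
  have hμ0 : 0 < μ := by rw [hμ]; exact exp_pos _
  have hM0 : 0 < M := by rw [hM]; exact exp_pos _
  have hH0 : 0 < H := by rw [hH]; exact exp_pos _
  have hp₀0 : 0 < p₀ := by rw [hp₀]; exact exp_pos _
  have hΛ0 : 0 ≤ Λ := by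
    rw [hΛ]; apply log_nonneg
    have : 0 < M / p₀ := by positivity
    linarith
  have hΛ1 : Λ ≤ 1 + 4 * (ε * l) := by
    have e1 : M / p₀ = exp (4 * (ε * l)) := by
      rw [hM, hp₀, ← exp_sub]; congr 1; ring
    have e2 : 1 + M / p₀ ≤ exp (1 + 4 * (ε * l)) := by
      rw [e1, exp_add]
      have a := one_le_exp (show 0 ≤ 4 * (ε * l) by linarith)
      have b := add_one_le_exp (1 : ℝ)
      have c := exp_pos (4 * (ε * l))
      nlinarith
    rw [hΛ]
    have := log_le_log (by positivity) e2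
    rwa [log_exp] at this
  -- power identities
  have i1 : M * H * (L * μ) ≤ 1 := by
    rw [hM, hH, hLl, hμ, ← exp_add, ← exp_add, ← exp_add]
    apply exp_le_one_iff.2
    nlinarith
  have i2 : L * μ ^ 2 / M = exp (-(ε * l)) := by
    rw [hM, hLl, hμ, ← exp_nat_mul, ← exp_add, ← exp_sub]
    congr 1
    push_cast
    ring
  have i3 : L * p₀ = exp (-(ε * l)) := by
    rw [hLl, hp₀, ← exp_add]; congr 1; ring
  have i4 : exp (-(ε * l)) ≤ 1 := exp_le_one_iff.2 (by linarith)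
  have i5 : exp (-(ε * l)) * (ε * l) ≤ 1 := by
    have a := add_one_le_exp (ε * l)
    have b : exp (-(ε * l)) * exp (ε * l) = 1 := by rw [← exp_add]; simp
    have c := exp_pos (-(ε * l))
    nlinarith
  -- pointwise bound
  have hpt : ∀ v ∈ Finset.range L, ∀ s ∈ T, ∀ s' ∈ T,
      w v s * log (1 + w v s' / w v s) ≤
        (M * H * w v s + 2 / l * (w v s * log (1 / w v s)) * Λ + p₀ * (1 + Λ)) +
          w v s * w v s' / M := by
    intro v _ s _ s' _
    have a := tangent (hw v s).1 (hw v s').1 hM0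
    have b := ranges (hw v s).1 (hw v s).2 hM0 hH0 hp₀0 hΛ hl0
      (by rw [hH, log_exp]; linarith)
    linarith
  have hsum : ∑ v ∈ Finset.range L, ∑ s ∈ T, ∑ s' ∈ T, w v s * log (1 + w v s' / w v s) ≤
      ∑ v ∈ Finset.range L, ∑ s ∈ T, ∑ s' ∈ T,
        ((M * H * w v s + 2 / l * (w v s * log (1 / w v s)) * Λ + p₀ * (1 + Λ)) +
          w v s * w v s' / M) :=
    Finset.sum_le_sum fun v hv => Finset.sum_le_sum fun s hs => Finset.sum_le_sum fun s' hs' =>
      hpt v hv s hs s' hs'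
  refine hsum.trans ?_
  have hcalc : ∀ v, ∑ s ∈ T, ∑ s' ∈ T,
        ((M * H * w v s + 2 / l * (w v s * log (1 / w v s)) * Λ + p₀ * (1 + Λ)) +
          w v s * w v s' / M) =
      (T.card : ℝ) * (M * H * ∑ s ∈ T, w v s + 2 / l * Λ * ∑ s ∈ T, w v s * log (1 / w v s) +
        T.card * (p₀ * (1 + Λ))) + (∑ s ∈ T, w v s) ^ 2 / M := by
    intro v
    simp only [Finset.sum_add_distrib, Finset.sum_const, nsmul_eq_mul]
    have e1 : ∑ s ∈ T, ∑ s' ∈ T, w v s * w v s' / M = (∑ s ∈ T, w v s) ^ 2 / M := by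
      rw [sq, Finset.sum_mul_sum, Finset.sum_div]
      refine Finset.sum_congr rfl fun s _ => ?_
      rw [Finset.sum_div]
    have e2 : ∑ s ∈ T, (T.card : ℝ) * (2 / l * (w v s * log (1 / w v s)) * Λ) =
        (T.card : ℝ) * (2 / l * Λ * ∑ s ∈ T, w v s * log (1 / w v s)) := by
      rw [Finset.mul_sum, Finset.mul_sum]
      exact Finset.sum_congr rfl fun s _ => by ring
    have e3 : ∑ s ∈ T, (T.card : ℝ) * (M * H * w v s) =
        (T.card : ℝ) * (M * H * ∑ s ∈ T, w v s) := by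
      rw [Finset.mul_sum, Finset.mul_sum]
    rw [e1, e2, e3]
    ring
  rw [Finset.sum_congr rfl fun v _ => hcalc v, Finset.sum_add_distrib, ← Finset.mul_sum,
    Finset.sum_add_distrib, Finset.sum_add_distrib, ← Finset.mul_sum, ← Finset.mul_sum,
    Finset.sum_const, Finset.card_range, nsmul_eq_mul]
  obtain ⟨n, hn⟩ : ∃ n : ℝ, n = (T.card : ℝ) := ⟨_, rfl⟩
  have hn0 : 0 ≤ n := by rw [hn]; exact Nat.cast_nonneg _
  rw [← hn] at h1 h2 ⊢
  have s1 : ∑ v ∈ Finset.range L, ∑ s ∈ T, w v s ≤ L * (μ * n) := by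
    refine (Finset.sum_le_sum fun v hv => h1 v (Finset.mem_range.1 hv)).trans ?_
    rw [Finset.sum_const, Finset.card_range, nsmul_eq_mul]
  have s2 : ∑ v ∈ Finset.range L, (∑ s ∈ T, w v s) ^ 2 / M ≤ n ^ 2 := by
    have a : ∀ v ∈ Finset.range L, (∑ s ∈ T, w v s) ^ 2 / M ≤ (μ * n) ^ 2 / M := by
      intro v hv
      apply div_le_div_of_nonneg_right _ hM0.le
      apply pow_le_pow_left₀ (Finset.sum_nonneg fun s _ => (hw v s).1)
      exact h1 v (Finset.mem_range.1 hv)
    refine (Finset.sum_le_sum a).trans ?_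
    rw [Finset.sum_const, Finset.card_range, nsmul_eq_mul]
    have e : (L : ℝ) * ((μ * n) ^ 2 / M) = (L * μ ^ 2 / M) * n ^ 2 := by ring
    rw [e, i2]
    nlinarith [sq_nonneg n]
  have s3 : M * H * ∑ v ∈ Finset.range L, ∑ s ∈ T, w v s ≤ n := by
    have a := mul_le_mul_of_nonneg_left s1 (show 0 ≤ M * H by positivity)
    have e : M * H * (L * (μ * n)) = M * H * (L * μ) * n := by ring
    rw [e] at a
    nlinarith
  have s4 : 2 / l * Λ * ∑ v ∈ Finset.range L, ∑ s ∈ T, w v s * log (1 / w v s) ≤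
      2 * κ * n * Λ := by
    have a := mul_le_mul_of_nonneg_left h2 (show 0 ≤ 2 / l * Λ by positivity)
    have e : 2 / l * Λ * (κ * l * n) = 2 * κ * n * Λ := by field_simp
    rw [e] at a
    exact a
  have s5 : (L : ℝ) * (n * (p₀ * (1 + Λ))) ≤ n * 6 := by
    have e : (L : ℝ) * (n * (p₀ * (1 + Λ))) = n * (L * p₀ * (1 + Λ)) := by ring
    rw [e, i3]
    apply mul_le_mul_of_nonneg_left _ hn0
    have c := exp_pos (-(ε * l))
    have d := mul_le_mul_of_nonneg_left hΛ1 c.le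
    nlinarith
  have s6 : n * (M * H * ∑ v ∈ Finset.range L, ∑ s ∈ T, w v s +
      2 / l * Λ * ∑ v ∈ Finset.range L, ∑ s ∈ T, w v s * log (1 / w v s) +
      (L : ℝ) * (n * (p₀ * (1 + Λ)))) ≤ n * (n + 2 * κ * n * Λ + n * 6) :=
    mul_le_mul_of_nonneg_left (by linarith) hn0
  have s7 : n + 2 * κ * n * Λ + n * 6 = n * (7 + 2 * κ * Λ) := by ring
  have s8 : 8 + 2 * κ * Λ ≤ 11 * κ * (ε * l) := by
    have a : 2 * κ * Λ ≤ 2 * κ * (1 + 4 * (ε * l)) :=
      mul_le_mul_of_nonneg_left hΛ1 (by linarith)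
    nlinarith
  rw [s7] at s6
  have s9 : n * (n * (7 + 2 * κ * Λ)) + n ^ 2 ≤ 11 * κ * ε * l * n ^ 2 := by
    have e1 : n * (n * (7 + 2 * κ * Λ)) + n ^ 2 = n ^ 2 * (8 + 2 * κ * Λ) := by ring
    have e2 : 11 * κ * ε * l * n ^ 2 = n ^ 2 * (11 * κ * (ε * l)) := by ring
    rw [e1, e2]
    exact mul_le_mul_of_nonneg_left s8 (sq_nonneg n)
  linarith

end Pool.Agent.Lib.MP5b6025.EP
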