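import Pool.Agent.Lib.MP_5b6025_nt.EP.Defs

/-!
# Digit changes, every power of `log N`: module specifications (helper99)

THEOREM (`SpecTHM`). `b ≥ 2`, `t_n` bounded integers, `β = ∑ t_n b^(-n)` irrational algebraic. For
every real `c` we have `#{n < N : t_n ≠ 0} ≥ (log N)^c` for all `N ≥ N₀(c)`.

Full text: `/team-store/MP_5b6025_nt_EVERYPOWER.md`. The modules are independent of each other: each
one uses only the definitions and the specifications named in its docstring.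

Conventions: the node of level `g` of `s` is the component of `P` at threshold `B^g` which contains `s`.
`N_T = |T|`. `log` is the natural logarithm.
-/

set_option autoImplicit false

open Polynomial

namespace Pool.Agent.Lib.MP5b6025.EP

/-! ## Part 0: components, sumsets, weights -/

/-- Module CMP [150]: chain components. Proof. Elements of `V`: every `x ∈ V` has a start `≤ x`
(the least element of `V` is a start), so `st V τ x` is the largest start `≤ x`. (2): `st x < st y`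
and `st y > x` (otherwise `st y` would be a start `≤ x`), so `x + τ ≤ st y ≤ y` as `x ∈ V`, `x < st y`
and `st y` is a start. (3): between `y` and `x` (same start) consecutive elements of `V` are at
distance `< τ` (otherwise there is a start in between); there are at most `|V| - 1` steps.
(5): starts for `τ'` are starts for `τ`. (6): let `x < y` and suppose there is a start `w` of `V'` with
`x + c < w ≤ y + c`; let `u` be the largest element of `V` with `u + c < w` and `u'` the next one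
(`u' ≤ y`); then `u + c + τ ≤ w ≤ u' + c`, so `u'` is a start of `V` in `(x, y]`, a contradiction. -/
def SpecCMP : Prop :=
  ∀ (V : Finset ℕ) (τ : ℕ), 1 ≤ τ →
    (∀ x ∈ V, st V τ x ∈ Sta V τ ∧ st V τ x ≤ x) ∧
    (∀ x ∈ V, ∀ y ∈ V, x ≤ y → st V τ x ≠ st V τ y → x + τ ≤ y) ∧
    (∀ x ∈ V, ∀ y ∈ V, st V τ x = st V τ y → x < y + V.card * τ) ∧
    (∀ x ∈ Sta V τ, st V τ x = x) ∧
    (∀ τ', τ ≤ τ' → ∀ x ∈ V, ∀ y ∈ V, st V τ x = st V τ y → st V τ' x = st V τ' y) ∧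
    (∀ (V' : Finset ℕ) (c : ℕ), (∀ v ∈ V, v + c ∈ V') → ∀ x ∈ V, ∀ y ∈ V,
      st V τ x = st V τ y → st V' τ (x + c) = st V' τ (y + c)) ∧
    (∀ x y : ℕ, x ≤ y → st V τ x ≤ st V τ y)

/-- Module SUM [150] (from CMP): sumsets. (3): change the summands one by one and use CMP (6) with
`V' = sm m V` (the set of all sums where only one summand varies is `V + c`). (4): CMP (6) for
`sm |I| V`, `c = ∑_{i ∈ I' - I} ρ_i`, `sm |I| V + c ⊆ sm |I'| V`. -/
def SpecSUM : Prop :=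
  ∀ (V : Finset ℕ) (τ m : ℕ), 1 ≤ τ →
    (∀ (ρ : Fin m → ℕ) (I : Finset (Fin m)), (∀ i, ρ i ∈ V) →
      ∑ i, ρ i ∈ sm m V ∧ ∑ i ∈ I, ρ i ∈ sm I.card V) ∧
    (sm m V).card ≤ V.card ^ m ∧
    (∀ ρ ρ' : Fin m → ℕ, (∀ i, ρ i ∈ V) → (∀ i, ρ' i ∈ V) →
      (∀ i, st V τ (ρ i) = st V τ (ρ' i)) →
      st (sm m V) τ (∑ i, ρ i) = st (sm m V) τ (∑ i, ρ' i)) ∧
    (∀ ρ ρ' : Fin m → ℕ, (∀ i, ρ i ∈ V) → (∀ i, ρ' i ∈ V) → ∀ I I' : Finset (Fin m), I ⊆ I' →
      (∀ i ∈ I', i ∉ I → ρ i = ρ' i) →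
      st (sm I.card V) τ (∑ i ∈ I, ρ i) = st (sm I.card V) τ (∑ i ∈ I, ρ' i) →
      st (sm I'.card V) τ (∑ i ∈ I', ρ i) = st (sm I'.card V) τ (∑ i ∈ I', ρ' i))

/-- Module WT [250] (from CMP): weights and costs. (4) telescoping, `wt ≥ 1`, `wt ≤ |T|`. (6), (7): if
`s` is active then all leaves of its node of level `g` are active, so `wt g s ≤ pa · wt g' s`.
(8): in a node `ν` of level `g'` either all leaves are active (each cost is `≤ log |T|`), or the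
nonactive leaves form one node `c` with `2 |c| > |ν|` and their total cost is
`|c| log (1 + (|ν| - |c|) / |c|) ≤ |ν| - |c|`, the number of active leaves. (9): the leaves of `ν`
which are not active at any step `(i - 1, i]` all lie in one node `c` of level `g` (at each step they
are in the same child, as two children cannot both have more than half); if `2 |c| > |ν|` then the
active leaves of `ν` are outside `c`, hence active at some step; otherwise at least `|ν| / 2` leaves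
are active at some step. -/
def SpecWT : Prop :=
  ∀ (P T : Finset ℕ) (B : ℕ), T ⊆ P → 2 ≤ B →
    (∀ g, ∀ s ∈ T, 1 ≤ wt P T B g s ∧ wt P T B g s ≤ T.card) ∧
    (∀ g g', g ≤ g' → ∀ s ∈ T, wt P T B g s ≤ wt P T B g' s ∧ 0 ≤ co P T B g g' s) ∧
    (∀ g g' s, 0 ≤ pa P T B g g' s ∧ pa P T B g g' s ≤ 1) ∧
    (∀ (n : ℕ) (h : ℕ → ℕ), Monotone h → ∀ s ∈ T,
      ∑ r ∈ Finset.range n, co P T B (h r) (h (r + 1)) s ≤ Real.log T.card) ∧
    (∀ g g', g ≤ g' → ∑ s ∈ T, pa P T B g g' s = (T.filter fun s => Act P T B g g' s).card) ∧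
    (∀ g g', g ≤ g' → ∀ s ∈ T, Act P T B g g' s →
      0 < pa P T B g g' s ∧ Real.log (1 / pa P T B g g' s) ≤ co P T B g g' s) ∧
    (∀ g g', g ≤ g' → ∑ s ∈ T, pa P T B g g' s * Real.log (1 / pa P T B g g' s) ≤
      ∑ s ∈ T, co P T B g g' s) ∧
    (∀ g g', g ≤ g' → ∑ s ∈ T, co P T B g g' s ≤
      (1 + Real.log T.card) * (T.filter fun s => Act P T B g g' s).card) ∧
    (∀ g g', g ≤ g' → (T.filter fun s => Act P T B g g' s).card ≤
      2 * ∑ i ∈ Finset.Ioc g g', (T.filter fun s => Act P T B (i - 1) i s).card)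

/-! ## Part 1: entropy -/

/-- Module STAR [350] (self-contained): costs of two towers of partitions. `a r` (fine tower) and
`z r` (coarse tower) get coarser as `r` grows, `a r` is finer than `z r`, `a 0` is injective, `a n` is
constant. `x_r = W_r / W_(r+1)`, `ω_r = w_r / w_(r+1)` (`W`, `w` class sizes),
`X_r(ρ) = #{ρ' : a_(r+1) ρ' = a_(r+1) ρ, z_r ρ' = z_r ρ} / W_(r+1)`. `A` bounds
`E ∑ log (X_r / x_r)` (every term is `≥ 0`). Claim: `E ∑ |log (ω_r / x_r)| ≤ 2 A + 4 √(A log |S|)`.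
Proof. `|log (ω/x)| ≤ log (X/x) + |log (X/ω)|`. Put `D_r = E log (X_r/ω_r)`; then
`∑ D_r = E ∑ log (X_r/x_r) + E ∑ log (x_r/ω_r) ≤ A + (log |S| - E log w_0) - log |S| ≤ A`.
Fix a class `c` of `a (r+1)` inside a class `ζ` of `z (r+1)`: `X_c` and `ω` are probability
distributions on the children `ζ'` (classes of `z r` in `ζ`), `ω` is the average of the `X_c`.
`E_{X_c} (log (ω/X_c))⁺ ≤ ∑ (ω - X_c)⁺ ≤ ∑_{ζ' ≠ h} |X_c - ω|`, `h` a child with `ω` maximal;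
`|X - ω| = |√X - √ω| (√X + √ω)`, `∑ (√X - √ω)² ≤ KL(X ‖ ω)` (from `log u ≤ u - 1`), Cauchy-Schwarz
over `ζ'` and over `c`: `E (log (ω_r/X_r))⁺ ≤ √(D_r) √(4 off_r)`, `off_r = E (1 - ω(h))`, and
`off_r ≤ E log (1/ω_r)` (as `log (1/ω) ≥ log (1/ω(h)) ≥ 1 - ω(h)`), `∑ off_r ≤ log |S|`. Finally
`E |log (X/ω)| = D_r + 2 E (log (ω/X))⁺` and Cauchy-Schwarz over `r`. -/
def SpecSTAR : Prop :=
  ∀ (Ω α β : Type) [DecidableEq α] [DecidableEq β] (S : Finset Ω) (n : ℕ) (a : ℕ → Ω → α)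
    (z : ℕ → Ω → β) (A : ℝ), S.Nonempty →
    (∀ r < n, ∀ x ∈ S, ∀ y ∈ S, a r x = a r y → a (r + 1) x = a (r + 1) y) →
    (∀ r < n, ∀ x ∈ S, ∀ y ∈ S, z r x = z r y → z (r + 1) x = z (r + 1) y) →
    (∀ r ≤ n, ∀ x ∈ S, ∀ y ∈ S, a r x = a r y → z r x = z r y) →
    (∀ x ∈ S, ∀ y ∈ S, a 0 x = a 0 y → x = y) → (∀ x ∈ S, ∀ y ∈ S, a n x = a n y) →
    ∑ x ∈ S, ∑ r ∈ Finset.range n,
      (Real.log (S.filter fun y => a (r + 1) y = a (r + 1) x ∧ z r y = z r x).card -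
        Real.log (S.filter fun y => a r y = a r x).card) ≤ A * S.card →
    ∑ x ∈ S, ∑ r ∈ Finset.range n,
      |(Real.log (S.filter fun y => z (r + 1) y = z (r + 1) x).card -
          Real.log (S.filter fun y => z r y = z r x).card) -
        (Real.log (S.filter fun y => a (r + 1) y = a (r + 1) x).card -
          Real.log (S.filter fun y => a r y = a r x).card)| ≤
      (2 * A + 4 * Real.sqrt (A * Real.log S.card)) * S.card

/-- Module AMB [350] (self-contained): ambiguity of one step. Labels `γ` (groups) finer than `σ`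
(supergroups) finer than `p` (parents) on `T`; `z` a label of `m`-tuples with: if the parents and
`z` agree and the groups agree except possibly for the index `i`, then the supergroups agree for `i`.
`act x` iff `2 |σ(x)| ≤ |p(x)|`; `π(x)` = proportion of active elements in `p(x)`; a tuple is dirty if
two of its elements are active or `2 |γ(x)| ≤ |σ(x)|` for one of its elements.
Proof. Fix a `p`-class `c` of tuples, `W = |c|`; for a `γ`-class `g ⊆ c` put `x(g) = |g|/W`, and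
`X(ζ)` = proportion of the `z`-class `ζ` in `c`. The contribution of `c` is `W ∑_g x(g) log (X/x(g))`.
Dirty `g` (dirtiness depends only on `g`), total `D`: `∑ x log (1/x) ≤ D (m log |T| + log (1/D))`
(log-sum inequality, at most `|T|^m` classes), `D log (1/D) ≤ 2 log n (D + n^(-2))`. Clean `g`:
`log (X/x) ≤ log (X_cl/x) + X_di/X_cl`, and the second terms add up to at most `D`. For clean tuples
with the same parents and the same `z`: type `0` (no active element) or type `i` (`ρ_i` active).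
Two of them of the same type `i` have the same groups (for `l ≠ i` the supergroup of `ρ_l` is the
majority supergroup of the parent and the group is the majority group; then the hypothesis for `i`);
types `0` and `i` cannot occur together (activity of `ρ_i` depends only on its supergroup). So with
`q_i(ζ)` = proportion of the clean tuples of type `i` in `ζ`, `∑_{clean} x log (X_cl/x) =
∑_ζ ∑_i q_i log (∑_j q_j / q_i) ≤ ∑_i Q_i log (∑_j Q_j / Q_i) ≤ ∑_{i ≠ j} Q_i log (1 + Q_j/Q_i) ≤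
∑_{i ≠ j} π_i log (1 + π_j/π_i)`, where `Q_i = ∑_ζ q_i ≤ π_i` (log-sum inequality;
`u log (1 + v/u)` is increasing in `u` and in `v`). -/
def SpecAMB : Prop :=
  ∀ (T : Finset ℕ) (m : ℕ) (p σ γ : ℕ → ℕ) (z : (Fin m → ℕ) → ℕ) (n : ℝ), 3 ≤ n → T.Nonempty →
    (∀ x ∈ T, ∀ y ∈ T, γ x = γ y → σ x = σ y) → (∀ x ∈ T, ∀ y ∈ T, σ x = σ y → p x = p y) →
    (∀ ρ ∈ tup m T, ∀ ρ' ∈ tup m T, (∀ i, γ (ρ i) = γ (ρ' i)) → z ρ = z ρ') →
    (∀ ρ ∈ tup m T, ∀ ρ' ∈ tup m T, (∀ i, p (ρ i) = p (ρ' i)) → z ρ = z ρ' → ∀ i,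
      (∀ l, l ≠ i → γ (ρ l) = γ (ρ' l)) → σ (ρ i) = σ (ρ' i)) →
    ∀ π : ℕ → ℝ, (∀ x, π x = ((T.filter fun y => p y = p x ∧ 2 * cls T σ y ≤ cls T p y).card : ℝ) /
      cls T p x) →
    ∑ ρ ∈ tup m T, (Real.log ((tup m T).filter fun ρ' =>
        (∀ i, p (ρ' i) = p (ρ i)) ∧ z ρ' = z ρ).card - ∑ i, Real.log (cls T γ (ρ i))) ≤
      ∑ ρ ∈ tup m T, ∑ i, ∑ j ∈ Finset.univ.erase i,
        π (ρ i) * Real.log (1 + π (ρ j) / π (ρ i)) +
      (1 + m * Real.log T.card + 2 * Real.log n) * ((tup m T).filter fun ρ =>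
        (∃ i j, i ≠ j ∧ 2 * cls T σ (ρ i) ≤ cls T p (ρ i) ∧ 2 * cls T σ (ρ j) ≤ cls T p (ρ j)) ∨
        ∃ i, 2 * cls T γ (ρ i) ≤ cls T σ (ρ i)).card +
      2 * Real.log n / n ^ 2 * (T.card : ℝ) ^ m

/-- Module PSI [250] (self-contained real analysis). Proof. `μ = L^(-1+ε)`, `M = L^(2ε) μ`. For
`t = π'/π`: `log (1 + t) ≤ log (1 + M/π) + t / (1 + M/π)` (tangent), so
`π log (1 + π'/π) ≤ π log (1 + M/π) + π π' / M`; the sum of the second terms is at most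
`L μ² / M |T|² = L^(-ε) |T|²`. First terms: `π ≥ L^(-1/2)`: `≤ M` each, there are at most
`L μ L^(1/2) |T|` such `(v, s)`. `L^(-1-ε) ≤ π ≤ L^(-1/2)`: `≤ π log (1 + L^(4ε))` and
`∑ π [π ≤ L^(-1/2)] ≤ 2 κ |T|` by the second hypothesis. `π < L^(-1-ε)`: increasing in `π`, so
`≤ L^(-1-ε) log (1 + L^(4ε))`, total `≤ L^(-ε) log (1 + L^(4ε)) |T|`. -/
def SpecPSI : Prop :=
  ∀ κ ε : ℝ, 1 ≤ κ → 0 < ε → ε ≤ 1 / 100 → ∃ L₀ : ℕ, ∀ L : ℕ, L₀ ≤ L →
    ∀ (T : Finset ℕ) (π : ℕ → ℕ → ℝ), (∀ v s, 0 ≤ π v s ∧ π v s ≤ 1) →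
    (∀ v < L, ∑ s ∈ T, π v s ≤ (L : ℝ) ^ (-1 + ε) * T.card) →
    (∑ v ∈ Finset.range L, ∑ s ∈ T, π v s * Real.log (1 / π v s) ≤ κ * Real.log L * T.card) →
    ∑ v ∈ Finset.range L, ∑ s ∈ T, ∑ s' ∈ T, π v s * Real.log (1 + π v s' / π v s) ≤
      11 * κ * ε * Real.log L * (T.card : ℝ) ^ 2

/-- Module LVL [250] (from WT): choice of the coarse levels. `K = ⌈(log L)³⌉`. `act`: WT (9) and
`spread`, at most `2 K` fine levels. `phb`: for `v = 0`: WT (8) for `(3,4]`, `(4,5]` and `spread`. For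
`v ≥ 1`: `∑_{k₀ < K} ∑_{1 ≤ v ≤ L} co (k₀ + vK) (k₀ + vK + 2) s ≤ 2 log |T|` (WT (4), each step
`(g, g+1]` is used at most twice), so some `k₀ < K` has `∑_s ∑_v ≤ 2 |T| log |T| / K`. -/
def SpecLVL : Prop :=
  ∀ κ ε : ℝ, 1 ≤ κ → 0 < ε → ε ≤ 1 / 100 → ∃ L₀ : ℕ, ∀ (k : Type) [Field k] (L B : ℕ)
    (P T Z : Finset ℕ) (e : ℕ → k), L₀ ≤ L → 2 ≤ B → Sys L B κ ε P T Z e →
    ∃ K k₀ : ℕ, 10 ≤ K ∧ Lvl P T B K k₀ L κ (2 * ε)

/-- Module AMT [350] (from CMP SUM WT AMB PSI): total ambiguity. `a r ρ` = nodes of level `hl r` of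
the `ρ_i`, `z r ρ` = node of level `hl r` of the sum. Even steps `r = 2v`: the term is at most
`∑_i co (gl v) (gl v + 1) (ρ_i)`, total `≤ m · phb`. Odd steps `r = 2v + 1`: AMB with `p` = node of
level `gl (v+1)`, `σ` = node of level `gl v + 2`, `γ` = node of level `gl v + 1`, `z` = node of level
`gl v + 1` of the sum, `n = L`. The hypothesis of AMB: `|∑ρ - ∑ρ'| < |P|^m B^(gl v + 1)`,
`|ρ_l - ρ'_l| < |P| B^(gl v + 1)` for `l ≠ i`, so `|ρ_i - ρ'_i| < B^(gl v + 2)` (CMP (2), (3)). The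
number of dirty tuples: pairs of active elements `≤ m² L^(-2+2ε) |T|^m`; `2 |γ| ≤ |σ|` implies
`co (gl v + 1) (gl v + 2) ≥ log 2`, so the sum over `v` is at most `2 m · phb · |T|^(m-1)`. The main
terms: PSI with `π v = pc v` (WT (5), (7), (4)). -/
def SpecAMT : Prop :=
  ∀ (κ ε : ℝ) (m : ℕ), 1 ≤ κ → 0 < ε → ε ≤ 1 / 100 → ∃ L₀ : ℕ, ∀ (P T : Finset ℕ)
    (B K k₀ L : ℕ), L₀ ≤ L → (∀ s ∈ T, s ∈ Sta P (B ^ 3) ∧ s < B ^ L) → T.Nonempty → 10 ≤ K →
    4 * (m + 2) * (P.card + 1) ^ (m + 2) ≤ B → Real.log T.card ≤ κ * Real.log L →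
    Lvl P T B K k₀ L κ ε →
    ∑ ρ ∈ tup m T, ∑ r ∈ Finset.range (2 * L + 1), (Real.log ((tup m T).filter fun ρ' =>
        (∀ i, st P (B ^ hl K k₀ (r + 1)) (ρ' i) = st P (B ^ hl K k₀ (r + 1)) (ρ i)) ∧
        st (sm m P) (B ^ hl K k₀ r) (∑ i, ρ' i) = st (sm m P) (B ^ hl K k₀ r) (∑ i, ρ i)).card -
      ∑ i, Real.log (wt P T B (hl K k₀ r) (ρ i))) ≤
      12 * m ^ 2 * κ * ε * Real.log L * (T.card : ℝ) ^ m

/-- Module STB [150] (from CMP SUM STAR AMT): the average of `star` is small. `a (2L+1)` is constant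
(the level `gl L + 1 > L`); `a 0` is the identity on `T` (`hl 0 = 3`, CMP (4)); the class of `ρ` for
`a r` has `∏ wt (hl r) (ρ_i)` elements. `2 A + 4 √(A m κ log L)` with `A = 12 m² κ ε log L`. -/
def SpecSTB : Prop :=
  ∀ (κ ε : ℝ) (m : ℕ), 1 ≤ κ → 0 < ε → ε ≤ 1 / 100 → ∃ L₀ : ℕ, ∀ (P T : Finset ℕ)
    (B K k₀ L : ℕ), L₀ ≤ L → (∀ s ∈ T, s ∈ Sta P (B ^ 3) ∧ s < B ^ L) → T.Nonempty → 10 ≤ K →
    4 * (m + 2) * (P.card + 1) ^ (m + 2) ≤ B → Real.log T.card ≤ κ * Real.log L →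
    Lvl P T B K k₀ L κ ε →
    ∑ ρ ∈ tup m T, star P T B K k₀ L ρ ≤
      40 * m ^ 2 * κ * Real.sqrt ε * Real.log L * (T.card : ℝ) ^ m

/-! ## Part 2: typical tuples -/

/-- Module ZON [150] (from WT): choice of the zone. Zones
`[(1 - (2t+1) δ) log L, (1 - 2tδ) log L)`, `1 ≤ t ≤ J`, are disjoint. Every leaf has at most
`2 κ` transitions of cost `≥ (1/2) log L` (WT (4)). So some zone contains the costs of at most
`2 κ |T| / J` pairs `(v, s)`. -/
def SpecZON : Prop :=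
  ∀ (κ δ : ℝ) (J : ℕ) (P T : Finset ℕ) (B K k₀ L : ℕ), 0 < κ → 0 < δ → (2 * J + 1) * δ ≤ 1 / 2 →
    1 ≤ J → T ⊆ P → 2 ≤ B → 10 ≤ K → 3 ≤ L → Real.log T.card ≤ κ * Real.log L →
    ∃ t : ℕ, 1 ≤ t ∧ t ≤ J ∧
      (nb (T ×ˢ Finset.range L) (fun x : ℕ × ℕ =>
        (1 - (2 * t + 1) * δ) * Real.log L ≤ cc P T B K k₀ x.2 x.1 ∧
        cc P T B K k₀ x.2 x.1 < (1 - 2 * t * δ) * Real.log L) : ℝ) ≤ 2 * κ / J * T.card

/-- Module BRN [100] (from CMP SUM): branching transitions of a sum are few. Each `v ∈ Br` has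
`log wz (gl (v+1) + 1) - log wz (gl v) ≥ - log (1 - L^(-2y)) ≥ L^(-2y)`; the sum over all `v < L` of
the left sides is at most `2 log (|T|^m)` (every step is counted at most twice). -/
def SpecBRN : Prop :=
  ∀ (P T : Finset ℕ) (B K k₀ L m : ℕ) (κ y : ℝ) (Y : Fin m → ℕ), 0 < y → 2 ≤ B → 10 ≤ K →
    3 ≤ L → T ⊆ P → Real.log T.card ≤ κ * Real.log L → Y ∈ tup m T →
    ((Br P T B K k₀ L y Y).card : ℝ) ≤ 2 * (L : ℝ) ^ (2 * y) * m * κ * Real.log L

/-- Module CT0 [200] (from WT SUM): counting, conditions t0, t1, t2, t7 (`M = m + 1`). Each claim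
bounds the number of tuples which violate the condition. t0: Markov with `phb`. t1: pairs of active
elements at the same `v`: `M² L (L^(-1+ε))²`; `ρ_i` active and `pc v (ρ_j) ≥ L^(-1+b)`:
`M² L · L^(-1+ε) · L^(-1+ε) / L^(-1+b)` (WT (5) and Markov), `b = 3 ε`. -/
def SpecCT0 : Prop :=
  ∀ (κ ε η : ℝ) (m : ℕ), 1 ≤ κ → 0 < ε → ε ≤ 1 / 100 → 0 < η → ∃ L₀ : ℕ, ∀ (P T : Finset ℕ)
    (B K k₀ L : ℕ), L₀ ≤ L → T ⊆ P → T.Nonempty → 2 ≤ B → 10 ≤ K → Lvl P T B K k₀ L κ ε →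
    (nb (tup (m + 1) T) (fun ρ => ¬ ∀ i, ∑ v ∈ Finset.range (L + 1),
      co P T B (gl K k₀ v) (gl K k₀ v + 2) (ρ i) ≤ 1 / 2) : ℝ) ≤
        η * (T.card : ℝ) ^ (m + 1) ∧
    (nb (tup (m + 1) T) (fun ρ => ¬ ∀ v < L, ∀ i j, i ≠ j → Ac P T B K k₀ v (ρ i) →
      ¬ Ac P T B K k₀ v (ρ j) ∧ pc P T B K k₀ v (ρ j) < (L : ℝ) ^ (-1 + 3 * ε)) : ℝ) ≤
        η * (T.card : ℝ) ^ (m + 1)

/-- Module CT5 [150] (from WT BRN): counting, condition t5. For fixed `Y` and `i` the number of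
`s ∈ T` with `pc v s ≥ L^(-1+y₀)` or `Ac v s` for some `v ∈ Br Y` is at most
`|Br Y| (L^(ε - y₀) + L^(-1+ε)) |T|`. Write `ρ ↔ (ρ_i, Y)` (`Fin.insertNthEquiv` or
`Fin.consEquiv`). -/
def SpecCT5 : Prop :=
  ∀ (κ ε η y₀ y : ℝ) (m : ℕ), 1 ≤ κ → 0 < ε → ε ≤ 1 / 100 → 0 < η → 0 < y → 2 * y + 3 * ε ≤ y₀ →
    y₀ ≤ 1 / 2 → ∃ L₀ : ℕ, ∀ (P T : Finset ℕ) (B K k₀ L : ℕ), L₀ ≤ L → T ⊆ P → T.Nonempty →
    2 ≤ B → 10 ≤ K → Real.log T.card ≤ κ * Real.log L → Lvl P T B K k₀ L κ ε →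
    (nb (tup (m + 1) T) (fun ρ => ¬ ∀ i : Fin (m + 1),
      ∀ v ∈ Br P T B K k₀ L y (fun j : Fin m => ρ (i.succAbove j)),
      pc P T B K k₀ v (ρ i) < (L : ℝ) ^ (-1 + y₀) ∧ ¬ Ac P T B K k₀ v (ρ i)) : ℝ) ≤
        η * (T.card : ℝ) ^ (m + 1)

/-- Module CT8 [200] (from CMP WT CT0): few leaves have empty content. For two different leaves
`s, s'` which satisfy t0, t1, t2 (as a pair) one of the contents is nonempty: at the transition `v`
where they separate (same node at level `gl (v+1)`, different nodes at level `gl v`) one of them is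
active: otherwise both are in the majority node of level `gl v + 2`, and by t0
(`2 wt (gl v) > wt (gl v + 2)`) in the same node of level `gl v`. Say `s` is active; by t1 and because
they have the same parent `pc v s = pc v s' < L^(-1+b)`, so `cc v s ≥ log (1 / pc) > (1 - b) log L` (WT
(6)), and by t2 `cc v s ≥ (1 - y₁) log L`. So `n² ≤ |T| + #{bad pairs}` for the number `n` of leaves
with empty content. `η₂` bounds the proportion of the pairs `(v, s)` in the zone. -/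
def SpecCT8 : Prop :=
  ∀ (κ ε η : ℝ), 1 ≤ κ → 0 < ε → ε ≤ 1 / 100 → 0 < η → ∃ L₀ : ℕ, ∀ (P T : Finset ℕ)
    (B K k₀ L : ℕ) (y₀ y₁ η₂ : ℝ), L₀ ≤ L → (∀ s ∈ T, s ∈ Sta P (B ^ 3) ∧ s < B ^ L) →
    (L : ℝ) ≤ 2 * T.card → 2 ≤ B → 10 ≤ K → 3 * ε ≤ y₀ → 0 ≤ y₁ → y₁ ≤ y₀ → y₀ ≤ 1 / 2 →
    Lvl P T B K k₀ L κ ε →
    (nb (T ×ˢ Finset.range L) (fun x : ℕ × ℕ =>
        (1 - y₀) * Real.log L ≤ cc P T B K k₀ x.2 x.1 ∧
        cc P T B K k₀ x.2 x.1 < (1 - y₁) * Real.log L) : ℝ) ≤ η₂ * T.card →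
    (nb T (fun s => Jc P T B K k₀ L y₁ s = ∅) : ℝ) ≤
      Real.sqrt (2 * η₂ + η) * T.card

/-- Module TYP [300] (from LVL STB ZON CT0 CT5 CT8 WT): almost all tuples are typical. Parameters:
`c₁ = 20 (m + 2)`, `J ≥ 2 κ (c₁/η)² · 4` (so that `2κ/J` and `√(2 · 2κ/J + η')` times `m + 1` are
`≤ η / 20`), `δ = 1 / (4 J + 2)`, `y₀ = (2t+1) δ`, `y₁ = 2 t δ`, `y = δ/16`, then `ε` so small that
`b = 6 ε ≤ δ/16` (`ε' = 2ε` in `Lvl`), `ε (m + 1) ≤ η/20`, and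
`(m + 2) · 40 (m+1)² κ √(2ε) / y ≤ η / 20` (Markov for `star`, for `m + 1` and for `m`).
`T.card ≤ P.card ≤ L^κ`. `C` with `4 (m+3) (L^κ + 1)^(m+3) ≤ L^C ≤ B` for large `L`. -/
def SpecTYP : Prop :=
  ∀ (κ η : ℝ) (m : ℕ), 1 ≤ κ → 0 < η → ∃ (ε : ℝ) (C L₀ : ℕ), 0 < ε ∧ ε ≤ 1 / 100 ∧
    ∀ (k : Type) [Field k] (L B : ℕ) (P T Z : Finset ℕ) (e : ℕ → k), L₀ ≤ L → L ^ C ≤ B →
    Sys L B κ ε P T Z e →
    ∃ (K k₀ : ℕ) (y₀ y₁ y b : ℝ), Par P T B K k₀ L m κ y₀ y₁ y b ∧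
      (nb (tup (m + 1) T) (fun ρ => ¬ Typ P T B K k₀ L y₀ y₁ y b ρ) : ℝ) ≤
        η * (T.card : ℝ) ^ (m + 1)

/-! ## Part 3: consequences -/

/-- Module CNS [350] (from CMP SUM WT): structure of typical tuples. Let `ρ`, `ρ'` be typical with
`Sz ρ ρ'` (then the nodes of the sums agree at all levels, CMP (5)).
(0) nonactive `s` (satisfying t0) has `cc v s < log 2 + 1/2 < 2`; so the elements of `Jc s` are
transitions where `s` is active; by t1 contents are disjoint. (1) `|Jc s| (1/2) log L ≤ log |T|`.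
(2) `|cz (gl v) (gl (v+1)) - ∑_i cc v (ρ_i)| ≤ y log L` by t3 (steps `2v`, `2v+1`). If `v ∈ Jc (ρ_i)` then
`∑ cc v (ρ'_i) ≥ (1 - y₁ - 2y) log L`; if `v` is in no `Jc (ρ'_i)`, all costs are `< (1 - y₀) log L` and
at most one is `≥ 2`, so `∑ cc v (ρ'_i) < (1 - y₀) log L + 2 m`: contradiction.
(3) Suppose `ρ ≠ ρ'` and equal contents. `st P (B^3) s = s` for leaves, so there is `v < L` with equal
nodes of all `ρ_i`, `ρ'_i` at level `gl (v+1)` but not at level `gl v`. Let `A` be the set of `l` such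
that the nodes of level `gl v + 2` of `ρ_l`, `ρ'_l` are different; `l ∈ A` implies that `ρ_l` or `ρ'_l`
is active. `A = ∅`: then the nodes of level `gl v` agree (t0: they are majority nodes in the node of
level `gl v + 2`). `A = {l}`: `|ρ_l - ρ'_l| ≥ B^(gl v + 2)`, the others differ by `< |P| B^(gl v)`, but
`|∑ρ - ∑ρ'| < |P|^(m+1) B^3`: contradiction. `A = {i, j}` with `ρ_i` active, `ρ_j` not, `ρ'_j` active,
`ρ'_i` not (t1: at most one active element in `ρ`, at most one in `ρ'`): t1 for `ρ'` gives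
`pc v (ρ_i) = pc v (ρ'_i) < L^(-1+b)`, so `cc v (ρ_i) > (1-b) log L` and by t2 `v ∈ Jc (ρ_i)`; in the
same way `v ∈ Jc (ρ'_j) = Jc (ρ_j)`, but `ρ_j` is not active: contradiction to (0). -/
def SpecCNS : Prop :=
  ∀ (P T : Finset ℕ) (B K k₀ L m : ℕ) (κ y₀ y₁ y b : ℝ), Par P T B K k₀ L m κ y₀ y₁ y b →
    (∀ s ∈ T, ((Jc P T B K k₀ L y₁ s).card : ℝ) ≤ 2 * κ) ∧
    (∀ ρ : Fin (m + 1) → ℕ, Typ P T B K k₀ L y₀ y₁ y b ρ → ∀ i j, i ≠ j →
      Disjoint (Jc P T B K k₀ L y₁ (ρ i)) (Jc P T B K k₀ L y₁ (ρ j))) ∧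
    (∀ ρ ρ' : Fin (m + 1) → ℕ, Typ P T B K k₀ L y₀ y₁ y b ρ → Typ P T B K k₀ L y₀ y₁ y b ρ' →
      Sz P B ρ ρ' →
      (Finset.univ.biUnion fun i => Jc P T B K k₀ L y₁ (ρ i)) =
        (Finset.univ.biUnion fun i => Jc P T B K k₀ L y₁ (ρ' i)) ∧
      ((∀ i, Jc P T B K k₀ L y₁ (ρ i) = Jc P T B K k₀ L y₁ (ρ' i)) → ρ = ρ'))

/-- Module UNQ [300] (from CMP SUM WT): a leaf is determined by its content. Proof. Suppose
`u = ρ_i ≠ u' = ρ'_i`, `Y`, `Y'` the rests. Let `v < L` be such that `u`, `u'` have the same node at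
level `gl (v+1)` and different nodes at level `gl v`; by t0 their nodes at level `gl v + 2` are
different or (both in the same one and hence in the same majority node at level `gl v`) we get a
contradiction; so one of them is active, by symmetry `u`. By t1 no element of `Y` is active, and by
t4 for `ρ`, `i` (steps `2v`, `2v+1`, `2v+2`)
`log wz (gl (v+1) + 1) Y - log wz (gl v) Y ≤ y log L + 2 m ≤ 2 y log L` (nonactive elements: costs
`< log 2 + 1/2`, plus `co (gl (v+1)) (gl (v+1) + 1) ≤ 1/2`). Now `|∑Y - ∑Y'| ≤ |u - u'| + |∑ρ - ∑ρ'| <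
B^(gl (v+1) + 1)`, so `∑Y`, `∑Y'` are in the same node of `sm m P` at level `gl (v+1) + 1` (CMP (2));
and `|∑Y - ∑Y'| ≥ B^(gl v + 2) - |P|^(m+1) B^3`, so they are in different nodes at level `gl v`
(CMP (3)). Hence `wz (gl v) Y' ≤ wz (gl (v+1) + 1) Y' - wz (gl v) Y ≤ (1 - L^(-2y)) wz (gl (v+1) + 1) Y'`
and `v ∈ Br Y'`. By t5 for `ρ'`, `i`: `u'` is not active at `v` and
`pc v u = pc v u' < L^(-1+y₀)`, so `cc v u > (1 - y₀) log L`, by t2 `v ∈ Jc u = Jc u'`, so `u'` is active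
(CNS (0)): contradiction. -/
def SpecUNQ : Prop :=
  ∀ (P T : Finset ℕ) (B K k₀ L m : ℕ) (κ y₀ y₁ y b : ℝ), Par P T B K k₀ L m κ y₀ y₁ y b →
    ∀ ρ ρ' : Fin (m + 1) → ℕ, Typ P T B K k₀ L y₀ y₁ y b ρ → Typ P T B K k₀ L y₀ y₁ y b ρ' →
      Sz P B ρ ρ' → ∀ i, Jc P T B K k₀ L y₁ (ρ i) = Jc P T B K k₀ L y₁ (ρ' i) → ρ i = ρ' i

/-- Module GOD [300] (from CMP SUM and the conclusion of CNS): a good tuple with all contents of the
same size. `c = ⌊2κ⌋`, `C₀ = (m+1)^(c (m+1))`. For a cluster of sums the map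
`ρ ↦ (Jc (ρ_i))_i` is injective on its typical tuples, and every element of the common union of the
contents (at most `c (m+1)` elements) goes to one index: at most `C₀` typical tuples. The typical
tuples with `st (sm 2 P) (B^3) (ρ_i + ρ_j) ∈ Z` for some `i ≠ j`: at most
`(m+1)² |Z| C₀ |T|^(m-1) ≤ η₁ |T|^(m+1)` (for fixed `i`, `j`, rest and pair cluster all tuples have the
same sum cluster, SUM (4); `|T| ≥ L/2`, `|Z| ≤ L^ε |T|`). So all but `2 η₁ |T|^(m+1)` tuples are typical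
without such pairs (call them nice); the nice tuples whose cluster contains a tuple which is not nice are at
most `C₀ 2 η₁ |T|^(m+1)`. Some `δ ≤ c` has `#{s : |Jc s| = δ} ≥ |T| / (c+1)`; the tuples of such
leaves are `≥ |T|^(m+1) / (c+1)^(m+1) > 2 η₁ (1 + C₀) |T|^(m+1)`. -/
def SpecGOD : Prop :=
  ∀ (κ ε η₁ : ℝ) (m : ℕ), 1 ≤ κ → 0 < ε → ε ≤ 1 / 100 → 0 < η₁ →
    2 * η₁ * (1 + ((m : ℝ) + 1) ^ (⌊2 * κ⌋₊ * (m + 1))) * ((⌊2 * κ⌋₊ : ℝ) + 1) ^ (m + 1) < 1 →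
    ∃ L₀ : ℕ, ∀ (P T Z : Finset ℕ) (B K k₀ L : ℕ) (y₀ y₁ y b : ℝ), L₀ ≤ L →
    Par P T B K k₀ L m κ y₀ y₁ y b → (L : ℝ) ≤ 2 * T.card → (Z.card : ℝ) ≤ (L : ℝ) ^ ε * T.card →
    (∀ s ∈ T, ((Jc P T B K k₀ L y₁ s).card : ℝ) ≤ 2 * κ) →
    (∀ ρ : Fin (m + 1) → ℕ, Typ P T B K k₀ L y₀ y₁ y b ρ → ∀ i j, i ≠ j →
      Disjoint (Jc P T B K k₀ L y₁ (ρ i)) (Jc P T B K k₀ L y₁ (ρ j))) →
    (∀ ρ ρ' : Fin (m + 1) → ℕ, Typ P T B K k₀ L y₀ y₁ y b ρ → Typ P T B K k₀ L y₀ y₁ y b ρ' →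
      Sz P B ρ ρ' →
      (Finset.univ.biUnion fun i => Jc P T B K k₀ L y₁ (ρ i)) =
        (Finset.univ.biUnion fun i => Jc P T B K k₀ L y₁ (ρ' i)) ∧
      ((∀ i, Jc P T B K k₀ L y₁ (ρ i) = Jc P T B K k₀ L y₁ (ρ' i)) → ρ = ρ')) →
    (nb (tup (m + 1) T) (fun ρ => ¬ Typ P T B K k₀ L y₀ y₁ y b ρ) : ℝ) ≤
        η₁ * (T.card : ℝ) ^ (m + 1) →
    ∃ (δ : ℕ) (s : Fin (m + 1) → ℕ), s ∈ tup (m + 1) T ∧
      (∀ i, (Jc P T B K k₀ L y₁ (s i)).card = δ) ∧
      ∀ ρ ∈ tup (m + 1) T, Sz P B s ρ → Typ P T B K k₀ L y₀ y₁ y b ρ ∧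
        ∀ i j, i ≠ j → st (sm 2 P) (B ^ 3) (ρ i + ρ j) ∉ Z

/-! ## Part 4: Ramsey and shuffles -/

/-- Module RAM [150] (self-contained): Ramsey's theorem for all uniformities `≤ R` at once. -/
def SpecRAM : Prop :=
  ∀ R q N : ℕ, ∃ M : ℕ, ∀ χ : Finset ℕ → Fin (q + 1), ∃ H ⊆ Finset.range M, N ≤ H.card ∧
    ∀ A ⊆ H, ∀ A' ⊆ H, A.card = A'.card → A.card ≤ R → χ A = χ A'

/-- Module SHU [200] (self-contained): shuffles. `sh D w w'` is a word of length `2 r` with the letters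
of `w` at the places of `D` and those of `w'` at the other places. Words are compared
lexicographically (`w <ₗ w'` iff `w ≠ w'` and `w a < w' a` at the first place `a` where they differ).
Proof. If `w ≤ w*`, `w' ≤ w*` and not both are equal to `w*` then `sh D w w' < sh D w* w*`: look at the
first place where they differ. Take for the shuffle pattern `D*` one for which `sh D* w* w*` is
maximal. -/
def SpecSHU : Prop :=
  ∀ (r : ℕ) (w : Fin r → ℕ), ∃ D : Finset (Fin (2 * r)), D.card = r ∧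
    ∀ (f : Fin (2 * r) → ℕ) (i j : Fin r → Fin (2 * r)), StrictMono i → StrictMono j →
      (∀ a, i a ∈ D) → (∀ a, j a ∉ D) → (∀ a, f (i a) = w a) → (∀ a, f (j a) = w a) →
      ∀ (D' : Finset (Fin (2 * r))) (i' j' : Fin r → Fin (2 * r)), StrictMono i' → StrictMono j' →
      (∀ a, i' a ∈ D') → (∀ a, j' a ∉ D') →
      toLex (fun a => f (i' a)) ≤ toLex w → toLex (fun a => f (j' a)) ≤ toLex w →
      (∀ a, f (i' a) = w a) ∧ ∀ a, f (j' a) = w a

/-- Module FNS [450] (from RAM SHU): the contradiction. `𝓡 I` are the tuples `ρ` with `ρ_i = s_i` for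
`i ∉ I` and with the same sum cluster as `s` on `I`.
Proof. Let `R = 2^ℓ` where `ℓ` is larger than the number of pairs (length `≤ c`, word of that length
over the nonempty subsets of `Fin δ`). A leaf `v` occurs in `I` if `v = ρ_i` for some `ρ ∈ 𝓡 I`,
`i ∈ I`; then `J v ⊆ ⋃_{i ∈ I} J (s_i)` (the union of the contents of `ρ` is that of `s`, and they are
disjoint); its blocks are the `i` with `J v ∩ J (s_i) ≠ ∅`, its letters the sets of positions of the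
elements of `J v ∩ J (s_i)` in `J (s_i)` (increasing enumeration), its word the sequence of its
letters (blocks in increasing order). By RAM there is a large `H` such that for subsets `A` of `H` with
`|A| ≤ R` the following depends only on `|A|`: (i) the set of (word, mass) of the leaves which occur
in `univ` and have exactly the blocks `A`; (ii) the set of (relative position of the blocks in `A`,
word) of the leaves that occur in `A`. (By uniqueness there is at most one leaf with given blocks and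
word.) Let `Λ(n)` be the largest (length, word) (lexicographic order) of a leaf occurring in an
`n`-subset of `H`; `Λ` is nondecreasing (`𝓡 I ⊆ 𝓡 I'` for `I ⊆ I'`), so `Λ(n) = Λ(2n) = (r, w)` for some
`n = 2^t`. Take a leaf of word `w` occurring in an `n`-subset, with relative positions `b`. Choose
disjoint `n`-subsets `I₁`, `I₂` of `H` such that the leaves `v₁`, `v₂` with the word `w` and relative
positions `b` in `I₁`, `I₂` have blocks interleaved according to the pattern `D` of SHU. Let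
`ρ ∈ 𝓡 (I₁ ∪ I₂)` contain both (combine). For `(x, x')` in the set given by the last hypothesis for
`(v₁, v₂)`: `x`, `x'` occur in `I₁ ∪ I₂`, have at most `r` blocks each, and `J x ⊔ J x' = J v₁ ⊔ J v₂`
has `2 r` blocks; so each has exactly `r` blocks, they share no block, and their words are
complementary subwords of the shuffle; both are `≤ w` (`Λ(2n) = (r, w)`), so both are `w` by SHU; by
(i) `e x = e x' = a := ` the mass for the word `w`. The number of such `(x, x')` is between `1` and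
`C(2r, r)` (the block set of `x` determines `x` and `x'`), and `#· a² = 0` in `k`: contradiction. -/
def SpecFNS : Prop :=
  ∀ (k : Type) [Field k] [Finite k] (c : ℕ),
    (∀ j : ℕ, 1 ≤ j → j ≤ (2 * c).choose c → (j : k) ≠ 0) → ∃ m : ℕ,
    ∀ (δ : ℕ) (s : Fin (m + 1) → ℕ) (J : ℕ → Finset ℕ) (e : ℕ → k)
      (𝓡 : Finset (Fin (m + 1)) → Set (Fin (m + 1) → ℕ)), (∀ i, (J (s i)).card = δ) →
    (∀ I, s ∈ 𝓡 I) → (∀ I, ∀ ρ ∈ 𝓡 I, ∀ i ∉ I, ρ i = s i) →
    (∀ I I', Disjoint I I' → ∀ ρ ∈ 𝓡 I, ∀ ρ' ∈ 𝓡 I',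
      (fun i => if i ∈ I then ρ i else ρ' i) ∈ 𝓡 (I ∪ I')) →
    (∀ I, ∀ ρ ∈ 𝓡 I, (∀ i, (J (ρ i)).Nonempty ∧ (J (ρ i)).card ≤ c ∧ e (ρ i) ≠ 0) ∧
      (∀ i j, i ≠ j → Disjoint (J (ρ i)) (J (ρ j))) ∧
      (Finset.univ.biUnion fun i => J (ρ i)) = Finset.univ.biUnion fun i => J (s i)) →
    (∀ I, ∀ ρ ∈ 𝓡 I, ∀ I', ∀ ρ' ∈ 𝓡 I', ∀ i j, J (ρ i) = J (ρ' j) → ρ i = ρ' j) →
    (∀ I, ∀ ρ ∈ 𝓡 I, ∀ i ∈ I, ∀ j ∈ I, i ≠ j → ∃ R : Finset (ℕ × ℕ), (ρ i, ρ j) ∈ R ∧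
      (∀ x ∈ R, Function.update (Function.update ρ i x.1) j x.2 ∈ 𝓡 I) ∧
      ∑ x ∈ R, e x.1 * e x.2 = 0) → False

/-- Module PII [250] (from CMP SUM TYP CNS UNQ GOD FNS): there is no system of leaves. `c = ⌊2κ⌋`,
`m` from FNS, `η₁` as in GOD, `ε, C, L₀` from TYP. `𝓡 I` = tuples `ρ` of leaves with `ρ_i = s_i` for
`i ∉ I` and `st (sm |I| P) (B^3) (∑_I ρ) = st (sm |I| P) (B^3) (∑_I s)`; they have the same sum cluster
as `s` (SUM (4)), so they are typical. Combination: SUM (4). Uniqueness for `i ≠ j`: permute `ρ'` (its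
permutations have the same sum, so they are typical), then UNQ. The set `R` for `(ρ_i, ρ_j)`: all
pairs of leaves in the same cluster of `sm 2 P` as `ρ_i + ρ_j`; `rel` of `Sys` (t7, and the pair is not
in `Z`). -/
def SpecPII : Prop :=
  ∀ (k : Type) [Field k] [Finite k] (κ : ℝ), 1 ≤ κ →
    (∀ j : ℕ, 1 ≤ j → j ≤ (2 * ⌊2 * κ⌋₊).choose ⌊2 * κ⌋₊ → (j : k) ≠ 0) →
    ∃ (ε : ℝ) (C L₀ : ℕ), 0 < ε ∧ ε ≤ 1 / 100 ∧
      ∀ (L B : ℕ) (P T Z : Finset ℕ) (e : ℕ → k), L₀ ≤ L → L ^ C ≤ B → ¬ Sys L B κ ε P T Z e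

end Pool.Agent.Lib.MP5b6025.EP
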